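import Pool.Agent.TH369.AG.Defs2
set_option autoImplicit false
namespace Pool.Agent.TH369.AG
open MeasureTheory Matrix
/-! ### J9: the link with simple graphs -/

namespace J9

/-- reachability for a set of edges -/
theorem reach {X : Type} [Fintype X] [DecidableEq X] (A : Set (Sym2 X))
    (s t : Sym2 X → X) (hst : ∀ e, e = s(s e, t e)) (x y : X) :
    (SimpleGraph.fromEdgeSet A).Reachable x y ↔
      (Pi.single x 1 - Pi.single y 1 : X → ℝ) ∈ Submodule.span ℝ (vec s t '' A) := by
  classical
  constructor
  · rintro ⟨w⟩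
    induction w with
    | nil => simp
    | @cons u v z h p ih =>
      have h1 : (Pi.single u 1 - Pi.single v 1 : X → ℝ) ∈ Submodule.span ℝ (vec s t '' A) := by
        rw [SimpleGraph.fromEdgeSet_adj] at h
        obtain ⟨hmem, hne⟩ := h
        have h2 : vec s t s(u, v) ∈ Submodule.span ℝ (vec s t '' A) :=
          Submodule.subset_span ⟨_, hmem, rfl⟩
        have h3 := hst s(u, v)
        rw [Sym2.eq_iff] at h3
        unfold vec at h2
        rcases h3 with ⟨h4, h5⟩ | ⟨h4, h5⟩
        · rw [← h4, ← h5] at h2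
          exact h2
        · rw [← h4, ← h5] at h2
          have h6 := Submodule.neg_mem _ h2
          rwa [neg_sub] at h6
      have h2 : (Pi.single u 1 - Pi.single z 1 : X → ℝ) =
          (Pi.single u 1 - Pi.single v 1) + (Pi.single v 1 - Pi.single z 1) := by abel
      rw [h2]
      exact Submodule.add_mem _ h1 ih
  · intro h
    by_contra hcon
    -- the indicator functional of the component of `x`
    set c : X → ℝ := fun v => if (SimpleGraph.fromEdgeSet A).Reachable x v then 1 else 0 with hc
    let f : (X → ℝ) →ₗ[ℝ] ℝ := Fintype.linearCombination ℝ c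
    have hf : ∀ u v : X, f (Pi.single u 1 - Pi.single v 1) = c u - c v := by
      intro u v
      rw [map_sub]
      simp [f, Fintype.linearCombination_apply_single]
    have hker : Submodule.span ℝ (vec s t '' A) ≤ LinearMap.ker f := by
      rw [Submodule.span_le]
      rintro _ ⟨e, he, rfl⟩
      rw [SetLike.mem_coe, LinearMap.mem_ker]
      unfold vec
      rw [hf, sub_eq_zero]
      simp only [hc]
      by_cases hd : s e = t e
      · rw [hd]
      · have hadj : (SimpleGraph.fromEdgeSet A).Adj (s e) (t e) := by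
          rw [SimpleGraph.fromEdgeSet_adj]
          exact ⟨by rw [← hst e]; exact he, hd⟩
        have : (SimpleGraph.fromEdgeSet A).Reachable x (s e) ↔
            (SimpleGraph.fromEdgeSet A).Reachable x (t e) :=
          ⟨fun h => h.trans hadj.reachable, fun h => h.trans hadj.symm.reachable⟩
        simp only [this]
    have h1 := hker h
    rw [LinearMap.mem_ker, hf] at h1
    simp only [hc] at h1
    rw [if_pos (SimpleGraph.Reachable.refl _), if_neg hcon] at h1
    norm_num at h1

end J9

theorem reachable_iff {X : Type} [Fintype X] [DecidableEq X] (A : Finset (Sym2 X))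
    (hA : ∀ e ∈ A, ¬ e.IsDiag) (s t : Sym2 X → X) (hst : ∀ e, e = s(s e, t e)) (x y : X) :
    (SimpleGraph.fromEdgeSet (A : Set (Sym2 X))).Reachable x y ↔ Cn s t A x y :=
  J9.reach _ s t hst x y

theorem acyclic_iff {X : Type} [Fintype X] [DecidableEq X] (A : Finset (Sym2 X))
    (hA : ∀ e ∈ A, ¬ e.IsDiag) (s t : Sym2 X → X) (hst : ∀ e, e = s(s e, t e)) :
    (SimpleGraph.fromEdgeSet (A : Set (Sym2 X))).IsAcyclic ↔ IsF s t A := by
  classical
  rw [SimpleGraph.isAcyclic_iff_forall_edge_isBridge]
  unfold IsF
  rw [linearIndepOn_iff_notMem_span]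
  have hes : (SimpleGraph.fromEdgeSet (A : Set (Sym2 X))).edgeSet = (A : Set (Sym2 X)) := by
    rw [SimpleGraph.edgeSet_fromEdgeSet]
    ext e
    simp only [Set.mem_diff, Finset.mem_coe, Set.mem_ofPred_eq]
    constructor
    · exact fun h => h.1
    · exact fun h => ⟨h, hA e h⟩
  rw [hes]
  refine forall₂_congr fun e he => ?_
  have he' : e ∈ A := he
  have hne : s e ≠ t e := by
    intro h
    apply hA e he'
    rw [hst e, h]
    exact Sym2.mk_isDiag_iff.2 rfl
  have hdel : (SimpleGraph.fromEdgeSet (A : Set (Sym2 X))).deleteEdges {e} =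
      SimpleGraph.fromEdgeSet ((A : Set (Sym2 X)) \ {e}) := by
    ext u v
    simp only [SimpleGraph.deleteEdges_adj, SimpleGraph.fromEdgeSet_adj, Set.mem_diff,
      Set.mem_singleton_iff]
    tauto
  have hbr : (SimpleGraph.fromEdgeSet (A : Set (Sym2 X))).IsBridge e ↔
      ¬ (SimpleGraph.fromEdgeSet ((A : Set (Sym2 X)) \ {e})).Reachable (s e) (t e) := by
    conv_lhs => rw [hst e]
    rw [SimpleGraph.isBridge_iff, ← hst e, hdel]
  rw [hbr, J9.reach _ s t hst]
  rfl

end Pool.Agent.TH369.AG
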