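import Pool.Agent.TH369.AG.Defs2
set_option autoImplicit false
namespace Pool.Agent.TH369.AG
open MeasureTheory Matrix

namespace J1

open Set Filter Topology

/-- the exponential factor -/
noncomputable def E (c σ : ℝ) : ℝ := Real.exp (-((σ - c) ^ 2 / (2 * σ)))

theorem E_pos (c σ : ℝ) : 0 < E c σ := Real.exp_pos _

theorem E_meas (c : ℝ) : Measurable (E c) := by unfold E; fun_prop

theorem sq_eq {c σ : ℝ} (hσ : 0 < σ) :
    (Real.sqrt σ - c / Real.sqrt σ) ^ 2 / 2 = (σ - c) ^ 2 / (2 * σ) := by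
  have hs : 0 < Real.sqrt σ := Real.sqrt_pos.2 hσ
  have h2 : Real.sqrt σ ^ 2 = σ := Real.sq_sqrt hσ.le
  have e : Real.sqrt σ - c / Real.sqrt σ = (σ - c) / Real.sqrt σ := by
    field_simp
    rw [h2]
  rw [e, div_pow, h2]
  field_simp

theorem deriv_u (c : ℝ) {σ : ℝ} (hσ : 0 < σ) :
    HasDerivAt (fun x => Real.sqrt x - c / Real.sqrt x)
      (1 / (2 * Real.sqrt σ) + c / (2 * (σ * Real.sqrt σ))) σ := by
  have hs : 0 < Real.sqrt σ := Real.sqrt_pos.2 hσ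
  have h2 : Real.sqrt σ ^ 2 = σ := Real.sq_sqrt hσ.le
  have h1 := Real.hasDerivAt_sqrt hσ.ne'
  have h3 := (hasDerivAt_const σ c).div h1 hs.ne'
  have h4 := h1.sub h3
  refine h4.congr_deriv ?_
  rw [h2]
  field_simp
  ring

theorem mono_u {c : ℝ} (hc : 0 ≤ c) :
    StrictMonoOn (fun x => Real.sqrt x - c / Real.sqrt x) (Ioi (0 : ℝ)) := by
  intro a ha b hb hab
  have ha' : 0 < Real.sqrt a := Real.sqrt_pos.2 ha
  have h1 : Real.sqrt a < Real.sqrt b := Real.sqrt_lt_sqrt (le_of_lt ha) hab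
  have h2 : c / Real.sqrt b ≤ c / Real.sqrt a := div_le_div_of_nonneg_left hc ha' h1.le
  show Real.sqrt a - c / Real.sqrt a < Real.sqrt b - c / Real.sqrt b
  linarith

theorem gauss_full : ∫⁻ u : ℝ, ENNReal.ofReal (Real.exp (-(u ^ 2 / 2))) =
    ENNReal.ofReal (Real.sqrt (2 * Real.pi)) := by
  have h1 := integral_gaussian (1 / 2)
  have h2 : Integrable fun u : ℝ => Real.exp (-(1 / 2) * u ^ 2) :=
    integrable_exp_neg_mul_sq (by norm_num)
  have h3 := ofReal_integral_eq_lintegral_ofReal h2 (Eventually.of_forall fun u => (Real.exp_pos _).le)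
  rw [h1] at h3
  have e1 : Real.pi / (1 / 2) = 2 * Real.pi := by ring
  rw [e1] at h3
  rw [h3]
  refine lintegral_congr fun u => ?_
  congr 2
  ring

theorem gauss_half : ∫⁻ u in Ioi (0 : ℝ), ENNReal.ofReal (Real.exp (-(u ^ 2 / 2))) =
    ENNReal.ofReal (Real.sqrt (2 * Real.pi) / 2) := by
  have h1 := integral_gaussian_Ioi (1 / 2)
  have h2 : Integrable fun u : ℝ => Real.exp (-(1 / 2) * u ^ 2) :=
    integrable_exp_neg_mul_sq (by norm_num)
  have h3 := ofReal_integral_eq_lintegral_ofReal (h2.integrableOn (s := Ioi (0:ℝ)))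
    (Eventually.of_forall fun u => (Real.exp_pos _).le)
  rw [h1] at h3
  have e1 : Real.pi / (1 / 2) = 2 * Real.pi := by ring
  rw [e1] at h3
  rw [h3]
  refine lintegral_congr fun u => ?_
  congr 2
  ring

theorem subst_u {c : ℝ} (hc : 0 ≤ c) :
    ∫⁻ u in (fun x => Real.sqrt x - c / Real.sqrt x) '' Ioi (0 : ℝ),
      ENNReal.ofReal (Real.exp (-(u ^ 2 / 2))) =
    ∫⁻ σ in Ioi (0 : ℝ), ENNReal.ofReal (1 / (2 * Real.sqrt σ) * E c σ +
      c / (2 * (σ * Real.sqrt σ)) * E c σ) := by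
  rw [lintegral_image_eq_lintegral_abs_deriv_mul measurableSet_Ioi
    (fun x hx => (deriv_u c hx).hasDerivWithinAt) (mono_u hc).injOn]
  refine setLIntegral_congr_fun measurableSet_Ioi fun σ hσ => ?_
  have hσ' : 0 < σ := hσ
  have hs : 0 < Real.sqrt σ := Real.sqrt_pos.2 hσ'
  have h0 : 0 ≤ 1 / (2 * Real.sqrt σ) + c / (2 * (σ * Real.sqrt σ)) := by positivity
  rw [abs_of_nonneg h0, ← ENNReal.ofReal_mul h0, sq_eq hσ']
  congr 1
  unfold E
  ring

theorem image_pos {c : ℝ} (hc : 0 < c) :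
    (fun x => Real.sqrt x - c / Real.sqrt x) '' Ioi (0 : ℝ) = univ := by
  rw [eq_univ_iff_forall]
  intro u
  set v : ℝ := (u + Real.sqrt (u ^ 2 + 4 * c)) / 2 with hv
  have h1 : 0 ≤ u ^ 2 + 4 * c := by positivity
  have h2 : Real.sqrt (u ^ 2 + 4 * c) ^ 2 = u ^ 2 + 4 * c := Real.sq_sqrt h1
  have h3 : |u| < Real.sqrt (u ^ 2 + 4 * c) := by
    rw [← Real.sqrt_sq_eq_abs]
    exact Real.sqrt_lt_sqrt (sq_nonneg u) (by linarith)
  have h4 : 0 < v := by
    have := neg_abs_le u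
    rw [hv]; linarith
  refine ⟨v ^ 2, by rw [mem_Ioi]; positivity, ?_⟩
  show Real.sqrt (v ^ 2) - c / Real.sqrt (v ^ 2) = u
  rw [Real.sqrt_sq h4.le]
  have h5 : v ^ 2 - u * v - c = 0 := by
    rw [hv]; nlinarith
  field_simp
  linarith

theorem image_zero : (fun x => Real.sqrt x - 0 / Real.sqrt x) '' Ioi (0 : ℝ) = Ioi (0 : ℝ) := by
  ext u
  constructor
  · rintro ⟨x, hx, rfl⟩
    show 0 < Real.sqrt x - 0 / Real.sqrt x
    rw [zero_div, sub_zero]
    exact Real.sqrt_pos.2 hx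
  · intro hu
    have hu' : 0 < u := hu
    refine ⟨u ^ 2, by rw [mem_Ioi]; positivity, ?_⟩
    show Real.sqrt (u ^ 2) - 0 / Real.sqrt (u ^ 2) = u
    rw [zero_div, sub_zero, Real.sqrt_sq hu'.le]

theorem split_u {c : ℝ} (hc : 0 ≤ c) :
    ∫⁻ σ in Ioi (0 : ℝ), ENNReal.ofReal (1 / (2 * Real.sqrt σ) * E c σ +
      c / (2 * (σ * Real.sqrt σ)) * E c σ) =
    (∫⁻ σ in Ioi (0 : ℝ), ENNReal.ofReal (1 / (2 * Real.sqrt σ) * E c σ)) +
      ∫⁻ σ in Ioi (0 : ℝ), ENNReal.ofReal (c / (2 * (σ * Real.sqrt σ)) * E c σ) := by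
  have hm := E_meas c
  rw [← lintegral_add_left (by fun_prop)]
  refine setLIntegral_congr_fun measurableSet_Ioi fun σ hσ => ?_
  have hσ' : 0 < σ := hσ
  have hE := E_pos c σ
  exact ENNReal.ofReal_add (by positivity) (by positivity)

theorem deriv_inv (c : ℝ) {σ : ℝ} (hσ : 0 < σ) :
    HasDerivAt (fun x : ℝ => c ^ 2 / x) (-(c ^ 2 / σ ^ 2)) σ := by
  have h := (hasDerivAt_const σ (c ^ 2)).div (hasDerivAt_id σ) hσ.ne'
  refine h.congr_deriv ?_
  simp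
  ring

theorem image_inv {c : ℝ} (hc : 0 < c) : (fun x : ℝ => c ^ 2 / x) '' Ioi (0 : ℝ) = Ioi (0 : ℝ) := by
  ext u
  constructor
  · rintro ⟨x, hx, rfl⟩
    have hx' : 0 < x := hx
    show 0 < c ^ 2 / x
    positivity
  · intro hu
    have hu' : 0 < u := hu
    refine ⟨c ^ 2 / u, by rw [mem_Ioi]; positivity, ?_⟩
    show c ^ 2 / (c ^ 2 / u) = u
    field_simp

theorem sym_half {c : ℝ} (hc : 0 < c) :
    ∫⁻ σ in Ioi (0 : ℝ), ENNReal.ofReal (1 / (2 * Real.sqrt σ) * E c σ) =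
      ∫⁻ σ in Ioi (0 : ℝ), ENNReal.ofReal (c / (2 * (σ * Real.sqrt σ)) * E c σ) := by
  have h1 : ∫⁻ σ in (fun x : ℝ => c ^ 2 / x) '' Ioi (0 : ℝ),
      ENNReal.ofReal (1 / (2 * Real.sqrt σ) * E c σ) =
      ∫⁻ σ in Ioi (0 : ℝ), ENNReal.ofReal |(-(c ^ 2 / σ ^ 2))| *
        ENNReal.ofReal (1 / (2 * Real.sqrt (c ^ 2 / σ)) * E c (c ^ 2 / σ)) :=
    lintegral_image_eq_lintegral_abs_deriv_mul measurableSet_Ioi
      (fun x hx => (deriv_inv c hx).hasDerivWithinAt) (by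
        intro a ha b hb hab
        have ha' : 0 < a := ha
        have hb' : 0 < b := hb
        simp only at hab
        field_simp at hab
        nlinarith) _
  rw [image_inv hc] at h1
  rw [h1]
  refine setLIntegral_congr_fun measurableSet_Ioi fun σ hσ => ?_
  have hσ' : 0 < σ := hσ
  have hs : 0 < Real.sqrt σ := Real.sqrt_pos.2 hσ'
  have h2 : Real.sqrt σ ^ 2 = σ := Real.sq_sqrt hσ'.le
  have h3 : Real.sqrt (c ^ 2 / σ) = c / Real.sqrt σ := by
    rw [Real.sqrt_div (sq_nonneg c), Real.sqrt_sq hc.le]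
  have h4 : E c (c ^ 2 / σ) = E c σ := by
    unfold E
    congr 2
    field_simp
    ring
  rw [abs_neg, abs_of_pos (by positivity : 0 < c ^ 2 / σ ^ 2), ← ENNReal.ofReal_mul (by positivity), h3, h4]
  congr 1
  have h5 : c ^ 2 / σ ^ 2 * (1 / (2 * (c / Real.sqrt σ))) = c / (2 * (σ * Real.sqrt σ)) := by
    have h6 : σ ^ 2 = σ * Real.sqrt σ ^ 2 := by rw [h2]; ring
    rw [h6]
    field_simp
  rw [← mul_assoc, h5]

/-- `∫ σ^(-1/2) e / 2` twice -/
theorem val_half {c : ℝ} (hc : 0 ≤ c) :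
    (∫⁻ σ in Ioi (0 : ℝ), ENNReal.ofReal (1 / (2 * Real.sqrt σ) * E c σ)) +
      ∫⁻ σ in Ioi (0 : ℝ), ENNReal.ofReal (1 / (2 * Real.sqrt σ) * E c σ) =
      ENNReal.ofReal (Real.sqrt (2 * Real.pi)) := by
  rcases hc.eq_or_lt with h0 | h0
  · rw [← h0]
    have h1 := subst_u (c := 0) le_rfl
    rw [image_zero, gauss_half, split_u le_rfl] at h1
    have h2 : ∫⁻ σ in Ioi (0 : ℝ), ENNReal.ofReal ((0 : ℝ) / (2 * (σ * Real.sqrt σ)) * E 0 σ) = 0 := by
      simp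
    rw [h2, add_zero] at h1
    rw [← h1, ← ENNReal.ofReal_add (by positivity) (by positivity)]
    congr 1
    ring
  · have h1 := subst_u (c := c) hc
    rw [image_pos h0, Measure.restrict_univ, gauss_full, split_u hc, ← sym_half h0] at h1
    exact h1.symm

theorem dbl (f : ℝ → ℝ) (hf : Measurable f) (h0 : ∀ σ ∈ Ioi (0 : ℝ), 0 ≤ f σ) :
    ∫⁻ σ in Ioi (0 : ℝ), ENNReal.ofReal (f σ + f σ) =
      (∫⁻ σ in Ioi (0 : ℝ), ENNReal.ofReal (f σ)) + ∫⁻ σ in Ioi (0 : ℝ), ENNReal.ofReal (f σ) := by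
  rw [← lintegral_add_left hf.ennreal_ofReal]
  exact setLIntegral_congr_fun measurableSet_Ioi fun σ hσ => ENNReal.ofReal_add (h0 σ hσ) (h0 σ hσ)

theorem neg_half {c : ℝ} (hc : 0 ≤ c) :
    ∫⁻ σ in Ioi (0 : ℝ), ENNReal.ofReal (E c σ / Real.sqrt σ) =
      ENNReal.ofReal (Real.sqrt (2 * Real.pi)) := by
  rw [← val_half hc, ← dbl _ (by have := E_meas c; fun_prop) (fun σ hσ => by
    have hσ' : 0 < σ := hσ
    have := E_pos c σ
    positivity)]
  refine setLIntegral_congr_fun measurableSet_Ioi fun σ hσ => ?_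
  have hσ' : 0 < σ := hσ
  have hs : 0 < Real.sqrt σ := Real.sqrt_pos.2 hσ'
  congr 1
  field_simp
  ring

theorem three_half {c : ℝ} (hc : 0 < c) :
    ∫⁻ σ in Ioi (0 : ℝ), ENNReal.ofReal (c / (σ * Real.sqrt σ) * E c σ) =
      ENNReal.ofReal (Real.sqrt (2 * Real.pi)) := by
  have hv := val_half hc.le
  rw [sym_half hc] at hv
  rw [← hv, ← dbl _ (by have := E_meas c; fun_prop) (fun σ hσ => by
    have hσ' : 0 < σ := hσ
    have := E_pos c σ
    positivity)]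
  refine setLIntegral_congr_fun measurableSet_Ioi fun σ hσ => ?_
  have hσ' : 0 < σ := hσ
  have hs : 0 < Real.sqrt σ := Real.sqrt_pos.2 hσ'
  congr 1
  field_simp
  ring

/-- from `lintegral` to `integral` -/
theorem to_int {f : ℝ → ℝ} (hf : Measurable f) (h0 : ∀ σ ∈ Ioi (0 : ℝ), 0 ≤ f σ) {a : ℝ}
    (ha : 0 ≤ a) (h : ∫⁻ σ in Ioi (0 : ℝ), ENNReal.ofReal (f σ) = ENNReal.ofReal a) :
    IntegrableOn f (Ioi 0) ∧ ∫ σ in Ioi (0 : ℝ), f σ = a := by
  have h1 : 0 ≤ᵐ[volume.restrict (Ioi (0 : ℝ))] f := by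
    rw [EventuallyLE, ae_restrict_iff' measurableSet_Ioi]
    exact Eventually.of_forall h0
  refine ⟨⟨hf.aestronglyMeasurable, ?_⟩, ?_⟩
  · rw [hasFiniteIntegral_iff_ofReal h1, h]
    exact ENNReal.ofReal_lt_top
  · rw [integral_eq_lintegral_of_nonneg_ae h1 hf.aestronglyMeasurable, h, ENNReal.toReal_ofReal ha]

theorem E_le {c σ : ℝ} (hσ : 0 < σ) : E c σ ≤ Real.exp c * Real.exp (-(1 / 2) * σ) := by
  unfold E
  rw [← Real.exp_add]
  apply Real.exp_le_exp.2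
  have h1 : (σ - c) ^ 2 / (2 * σ) = σ / 2 - c + c ^ 2 / (2 * σ) := by
    field_simp
    ring
  have h2 : 0 ≤ c ^ 2 / (2 * σ) := by positivity
  rw [h1]
  linarith

theorem half_int (c : ℝ) : IntegrableOn (fun σ => Real.sqrt σ * E c σ) (Ioi 0) := by
  have h1 : IntegrableOn (fun σ : ℝ => σ ^ (1 / 2 : ℝ) * Real.exp (-(1 / 2) * σ ^ (1 : ℝ))) (Ioi 0) :=
    integrableOn_rpow_mul_exp_neg_mul_rpow (by norm_num) (by norm_num) (by norm_num)
  have h2 : IntegrableOn (fun σ : ℝ => Real.exp c * (σ ^ (1 / 2 : ℝ) *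
      Real.exp (-(1 / 2) * σ ^ (1 : ℝ)))) (Ioi 0) := h1.const_mul _
  refine h2.mono' ?_ ?_
  · have := E_meas c
    exact (by fun_prop : Measurable fun σ => Real.sqrt σ * E c σ).aestronglyMeasurable
  · rw [ae_restrict_iff' measurableSet_Ioi]
    refine Eventually.of_forall fun σ hσ => ?_
    have hσ' : 0 < σ := hσ
    have hE := E_pos c σ
    rw [Real.norm_of_nonneg (by positivity), Real.rpow_one, ← Real.sqrt_eq_rpow]
    calc Real.sqrt σ * E c σ ≤ Real.sqrt σ * (Real.exp c * Real.exp (-(1 / 2) * σ)) :=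
          mul_le_mul_of_nonneg_left (E_le hσ') (Real.sqrt_nonneg _)
      _ = _ := by ring

theorem deriv_H (c : ℝ) {σ : ℝ} (hσ : 0 < σ) :
    HasDerivAt (fun x => Real.sqrt x * E c x)
      ((1 / 2) * (E c σ / Real.sqrt σ) - (1 / 2) * (Real.sqrt σ * E c σ) +
        (c / 2) * (c / (σ * Real.sqrt σ) * E c σ)) σ := by
  have hs : 0 < Real.sqrt σ := Real.sqrt_pos.2 hσ
  have h2 : Real.sqrt σ ^ 2 = σ := Real.sq_sqrt hσ.le
  have h1 := Real.hasDerivAt_sqrt hσ.ne'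
  have h3 : HasDerivAt (fun x : ℝ => (x - c) ^ 2) (2 * (σ - c)) σ := by
    have := ((hasDerivAt_id σ).sub_const c).pow 2
    refine this.congr_deriv ?_
    simp
  have h4 : HasDerivAt (fun x : ℝ => 2 * x) 2 σ := by
    simpa using (hasDerivAt_id σ).const_mul 2
  have h5 := (h3.div h4 (by positivity : (2 * σ) ≠ 0)).neg.exp
  have h6 := h1.mul h5
  have h7 : HasDerivAt (fun x => Real.sqrt x * E c x) (1 / (2 * Real.sqrt σ) *
      Real.exp (-((σ - c) ^ 2 / (2 * σ))) + Real.sqrt σ * (Real.exp (-((σ - c) ^ 2 / (2 * σ))) *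
      -((2 * (σ - c) * (2 * σ) - (σ - c) ^ 2 * 2) / (2 * σ) ^ 2))) σ := h6
  refine h7.congr_deriv ?_
  have e1 : Real.exp (-((σ - c) ^ 2 / (2 * σ))) = E c σ := rfl
  rw [e1]
  have e2 : c / (σ * Real.sqrt σ) * E c σ = c * Real.sqrt σ / σ ^ 2 * E c σ := by
    have h6 : σ ^ 2 = σ * Real.sqrt σ ^ 2 := by rw [h2]; ring
    rw [h6]
    field_simp
  rw [e2]
  field_simp
  ring

theorem half_val {c : ℝ} (hc : 0 ≤ c) :
    ∫ σ in Ioi (0 : ℝ), Real.sqrt σ * E c σ = Real.sqrt (2 * Real.pi) * (1 + c) := by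
  have hm := E_meas c
  obtain ⟨i1, v1⟩ := to_int (f := fun σ => E c σ / Real.sqrt σ) (by fun_prop) (fun σ hσ => by
    have hσ' : 0 < σ := hσ
    have := E_pos c σ
    positivity) (Real.sqrt_nonneg _) (neg_half hc)
  have i2 := half_int c
  obtain ⟨i3, v3⟩ : IntegrableOn (fun σ => (c / 2) * (c / (σ * Real.sqrt σ) * E c σ)) (Ioi 0) ∧
      ∫ σ in Ioi (0 : ℝ), (c / 2) * (c / (σ * Real.sqrt σ) * E c σ) =
        c / 2 * Real.sqrt (2 * Real.pi) := by
    rcases hc.eq_or_lt with h0 | h0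
    · rw [← h0]
      simp
    · obtain ⟨i, v⟩ := to_int (f := fun σ => c / (σ * Real.sqrt σ) * E c σ) (by fun_prop)
        (fun σ hσ => by
          have hσ' : 0 < σ := hσ
          have := E_pos c σ
          positivity) (Real.sqrt_nonneg _) (three_half h0)
      exact ⟨i.const_mul _, by rw [integral_const_mul, v]⟩
  have i1' : IntegrableOn (fun σ => (1 / 2) * (E c σ / Real.sqrt σ)) (Ioi 0) := i1.const_mul _
  have i2' : IntegrableOn (fun σ => (1 / 2) * (Real.sqrt σ * E c σ)) (Ioi 0) := i2.const_mul _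
  have hint : IntegrableOn (fun σ => (1 / 2) * (E c σ / Real.sqrt σ) - (1 / 2) * (Real.sqrt σ * E c σ) +
      (c / 2) * (c / (σ * Real.sqrt σ) * E c σ)) (Ioi 0) := (i1'.sub i2').add i3
  have hE1 : ∀ σ : ℝ, 0 ≤ σ → E c σ ≤ 1 := by
    intro σ hσ
    unfold E
    rw [Real.exp_le_one_iff, neg_nonpos]
    positivity
  have hcont : ContinuousWithinAt (fun x => Real.sqrt x * E c x) (Ici 0) 0 := by
    show Tendsto (fun x => Real.sqrt x * E c x) (𝓝[Ici 0] 0) (𝓝 (Real.sqrt 0 * E c 0))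
    rw [Real.sqrt_zero, zero_mul]
    have h1 : Tendsto Real.sqrt (𝓝[Ici 0] 0) (𝓝 0) := by
      have h2 : Tendsto Real.sqrt (𝓝 0) (𝓝 (Real.sqrt 0)) := Real.continuous_sqrt.tendsto 0
      rw [Real.sqrt_zero] at h2
      exact h2.mono_left nhdsWithin_le_nhds
    refine tendsto_of_tendsto_of_tendsto_of_le_of_le' tendsto_const_nhds h1 ?_ ?_
    · exact Eventually.of_forall fun x => mul_nonneg (Real.sqrt_nonneg _) (E_pos c x).le
    · filter_upwards [self_mem_nhdsWithin] with x hx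
      exact mul_le_of_le_one_right (Real.sqrt_nonneg _) (hE1 x hx)
  have htop : Tendsto (fun x => Real.sqrt x * E c x) atTop (𝓝 0) := by
    have h1 : Tendsto (fun x : ℝ => x ^ (1 / 2 : ℝ) * Real.exp (-(1 / 2) * x)) atTop (𝓝 0) :=
      tendsto_rpow_mul_exp_neg_mul_atTop_nhds_zero _ _ (by norm_num)
    have h2 := h1.const_mul (Real.exp c)
    rw [mul_zero] at h2
    refine tendsto_of_tendsto_of_tendsto_of_le_of_le' tendsto_const_nhds h2 ?_ ?_
    · exact Eventually.of_forall fun x => mul_nonneg (Real.sqrt_nonneg _) (E_pos c x).le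
    · filter_upwards [eventually_gt_atTop (0:ℝ)] with x hx
      rw [← Real.sqrt_eq_rpow]
      calc Real.sqrt x * E c x ≤ Real.sqrt x * (Real.exp c * Real.exp (-(1 / 2) * x)) :=
            mul_le_mul_of_nonneg_left (E_le hx) (Real.sqrt_nonneg _)
        _ = _ := by ring
  have h := integral_Ioi_of_hasDerivAt_of_tendsto hcont (fun x hx => deriv_H c hx) hint htop
  rw [Real.sqrt_zero, zero_mul, sub_zero] at h
  have h2 : ∫ σ in Ioi (0 : ℝ), ((1 / 2) * (E c σ / Real.sqrt σ) - (1 / 2) * (Real.sqrt σ * E c σ) +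
      (c / 2) * (c / (σ * Real.sqrt σ) * E c σ)) =
      (1 / 2) * Real.sqrt (2 * Real.pi) - (1 / 2) * (∫ σ in Ioi (0 : ℝ), Real.sqrt σ * E c σ) +
        c / 2 * Real.sqrt (2 * Real.pi) := by
    have k1 : ∫ σ in Ioi (0 : ℝ), ((1 / 2) * (E c σ / Real.sqrt σ) - (1 / 2) * (Real.sqrt σ * E c σ)) =
        (∫ σ in Ioi (0 : ℝ), (1 / 2) * (E c σ / Real.sqrt σ)) -
          ∫ σ in Ioi (0 : ℝ), (1 / 2) * (Real.sqrt σ * E c σ) := integral_sub i1' i2'
    have i12 : IntegrableOn (fun σ => (1 / 2) * (E c σ / Real.sqrt σ) -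
      (1 / 2) * (Real.sqrt σ * E c σ)) (Ioi 0) := i1'.sub i2'
    have k2 := integral_add i12 i3
    rw [k2, k1, v3, integral_const_mul, integral_const_mul, v1]
  rw [h2] at h
  linarith

end J1

open J1

/-! ### J1: one-dimensional integrals -/

theorem int_half (c : ℝ) (hc : 0 ≤ c) :
    ∫⁻ σ in Set.Ioi (0 : ℝ), ENNReal.ofReal (Real.sqrt σ * Real.exp (-((σ - c) ^ 2 / (2 * σ)))) =
      ENNReal.ofReal (Real.sqrt (2 * Real.pi) * (1 + c)) := by
  rw [← half_val hc, ofReal_integral_eq_lintegral_ofReal (half_int c)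
    (Filter.Eventually.of_forall fun σ => mul_nonneg (Real.sqrt_nonneg _) (E_pos c σ).le)]
  rfl

theorem int_neg_half (c : ℝ) (hc : 0 ≤ c) :
    ∫⁻ σ in Set.Ioi (0 : ℝ), ENNReal.ofReal (Real.sqrt σ * Real.exp (-((σ - c) ^ 2 / (2 * σ))) *
      (1 / σ)) = ENNReal.ofReal (Real.sqrt (2 * Real.pi)) := by
  rw [← neg_half hc]
  refine setLIntegral_congr_fun measurableSet_Ioi fun σ hσ => ?_
  have hσ' : 0 < σ := hσ
  have hs : 0 < Real.sqrt σ := Real.sqrt_pos.2 hσ'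
  have h2 : Real.sqrt σ ^ 2 = σ := Real.sq_sqrt hσ'.le
  congr 1
  have e1 : Real.exp (-((σ - c) ^ 2 / (2 * σ))) = E c σ := rfl
  rw [e1]
  have e2 : Real.sqrt σ * E c σ * (1 / σ) = Real.sqrt σ * E c σ * (1 / Real.sqrt σ ^ 2) := by
    rw [h2]
  rw [e2]
  field_simp

theorem int_neg_three_half (c : ℝ) (hc : 0 < c) :
    ∫⁻ σ in Set.Ioi (0 : ℝ), ENNReal.ofReal (Real.sqrt σ * Real.exp (-((σ - c) ^ 2 / (2 * σ))) *
      (c / σ) ^ 2) = ENNReal.ofReal (Real.sqrt (2 * Real.pi) * c) := by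
  rw [mul_comm (Real.sqrt (2 * Real.pi)) c, ENNReal.ofReal_mul hc.le, ← three_half hc,
    ← lintegral_const_mul]
  · refine setLIntegral_congr_fun measurableSet_Ioi fun σ hσ => ?_
    have hσ' : 0 < σ := hσ
    have hs : 0 < Real.sqrt σ := Real.sqrt_pos.2 hσ'
    have h2 : Real.sqrt σ ^ 2 = σ := Real.sq_sqrt hσ'.le
    rw [← ENNReal.ofReal_mul hc.le]
    congr 1
    have e1 : Real.exp (-((σ - c) ^ 2 / (2 * σ))) = E c σ := rfl
    rw [e1]
    have h6 : c * (c / (σ * Real.sqrt σ) * E c σ) = c * (c / (σ * Real.sqrt σ) * E c σ) *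
        (Real.sqrt σ ^ 2 / σ) := by
      rw [h2, div_self hσ'.ne', mul_one]
    rw [h6]
    field_simp
  · have := E_meas c
    fun_prop

end Pool.Agent.TH369.AG
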