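import Pool.Agent.TH369.AG.Defs2

/-!
Job 1573 (ARBOREAL-2): facts on the M-matrices `diag a - B`.
-/

set_option autoImplicit false
set_option linter.unusedSectionVars false

namespace Pool.Agent.TH369.AG

open MeasureTheory Matrix

variable {V : Type} [Fintype V] [DecidableEq V]

namespace J2

lemma HM_apply (N : Net V) (a : V → ℝ) (x z : V) :
    HM N a x z = (if x = z then a x else 0) - N.B x z := by
  unfold HM
  rw [Matrix.sub_apply, Matrix.diagonal_apply, Matrix.of_apply]

lemma HM_herm (N : Net V) (a : V → ℝ) : (HM N a).IsHermitian := by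
  ext x z
  rw [Matrix.conjTranspose_apply, star_trivial, HM_apply, HM_apply, N.symm z x]
  by_cases h : x = z
  · subst h
    rfl
  · rw [if_neg h, if_neg (Ne.symm h)]

lemma HM_mulVec (N : Net V) (a u : V → ℝ) (x : V) :
    (HM N a *ᵥ u) x = a x * u x - ∑ z, N.B x z * u z := by
  show ∑ z, HM N a x z * u z = _
  simp only [HM_apply, sub_mul, Finset.sum_sub_distrib, ite_mul, zero_mul]
  rw [Finset.sum_ite_eq]
  simp

lemma mulVec_inv (N : Net V) {a : V → ℝ} (ha : (HM N a).PosDef) (b : V → ℝ) :
    HM N a *ᵥ ((HM N a)⁻¹ *ᵥ b) = b := by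
  have hu : IsUnit (HM N a).det := by
    rw [isUnit_iff_ne_zero]
    exact ha.det_pos.ne'
  rw [Matrix.mulVec_mulVec, Matrix.mul_nonsing_inv _ hu, Matrix.one_mulVec]

end J2

open J2

/-! ### J2: facts about `HM` (M-matrices) and the map `t ↦ cf N t` -/

/-- `(diag a - B) ψ = r` -/
theorem HM_cf_mulVec (N : Net V) (t : V → ℝ) :
    HM N (cf N t) *ᵥ (fun x => Real.exp (t x)) = N.r := by
  funext x
  rw [HM_mulVec]
  unfold cf
  rw [add_mul, Finset.sum_mul, mul_assoc, ← Real.exp_add, neg_add_cancel, Real.exp_zero, mul_one]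
  have : ∀ z, N.B x z * Real.exp (t z - t x) * Real.exp (t x) = N.B x z * Real.exp (t z) := by
    intro z
    rw [mul_assoc, ← Real.exp_add, sub_add_cancel]
  simp only [this]
  ring

namespace J2

lemma quad (N : Net V) (t u : V → ℝ) :
    u ⬝ᵥ (HM N (cf N t) *ᵥ u) =
      (1 / 2) * ∑ x, ∑ z, N.B x z * (Real.exp (t x + t z) *
        (u x * Real.exp (- t x) - u z * Real.exp (- t z)) ^ 2) +
      ∑ x, N.r x * Real.exp (- t x) * u x ^ 2 := by
  have hterm : ∀ x z, N.B x z * (Real.exp (t x + t z) *
      (u x * Real.exp (- t x) - u z * Real.exp (- t z)) ^ 2) =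
      N.B x z * Real.exp (t z - t x) * u x ^ 2 + N.B x z * Real.exp (t x - t z) * u z ^ 2 -
        2 * (N.B x z * u x * u z) := by
    intro x z
    have e1 : Real.exp (t x + t z) = Real.exp (t x) * Real.exp (t z) := Real.exp_add _ _
    have e2 : Real.exp (t z - t x) = Real.exp (t z) * Real.exp (- t x) := by
      rw [← Real.exp_add]; ring_nf
    have e3 : Real.exp (t x - t z) = Real.exp (t x) * Real.exp (- t z) := by
      rw [← Real.exp_add]; ring_nf
    have e4 : Real.exp (t x) * Real.exp (- t x) = 1 := by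
      rw [← Real.exp_add, add_neg_cancel, Real.exp_zero]
    have e5 : Real.exp (t z) * Real.exp (- t z) = 1 := by
      rw [← Real.exp_add, add_neg_cancel, Real.exp_zero]
    rw [e1, e2, e3]
    linear_combination (N.B x z * (u x ^ 2 * Real.exp (t z) * Real.exp (- t x) -
      2 * u x * u z * (Real.exp (t z) * Real.exp (- t z)))) * e4 +
      (N.B x z * (u z ^ 2 * Real.exp (t x) * Real.exp (- t z) - 2 * u x * u z)) * e5
  simp only [hterm, Finset.sum_sub_distrib, Finset.sum_add_distrib]
  have hswap : ∑ x, ∑ z, N.B x z * Real.exp (t x - t z) * u z ^ 2 =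
      ∑ x, ∑ z, N.B x z * Real.exp (t z - t x) * u x ^ 2 := by
    rw [Finset.sum_comm]
    apply Finset.sum_congr rfl
    intro x _
    apply Finset.sum_congr rfl
    intro z _
    rw [N.symm z x]
  rw [hswap]
  have hl : u ⬝ᵥ (HM N (cf N t) *ᵥ u) = ∑ x, (N.r x * Real.exp (- t x) * u x ^ 2) +
      ∑ x, ∑ z, N.B x z * Real.exp (t z - t x) * u x ^ 2 -
      ∑ x, ∑ z, N.B x z * u x * u z := by
    rw [← Finset.sum_add_distrib, ← Finset.sum_sub_distrib]
    show ∑ x, u x * (HM N (cf N t) *ᵥ u) x = _
    apply Finset.sum_congr rfl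
    intro x _
    rw [HM_mulVec]
    unfold cf
    rw [mul_sub, Finset.mul_sum]
    have h1 : ∑ z, u x * (N.B x z * u z) = ∑ z, N.B x z * u x * u z := by
      apply Finset.sum_congr rfl
      intro z _
      ring
    rw [h1]
    congr 1
    rw [add_mul, mul_add, Finset.sum_mul, Finset.mul_sum]
    congr 1
    · ring
    · apply Finset.sum_congr rfl
      intro z _
      ring
  rw [hl]
  simp only [← Finset.mul_sum]
  ring

end J2

theorem posDef_cf (N : Net V) (hN : N.Conn) (t : V → ℝ) : (HM N (cf N t)).PosDef := by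
  apply Matrix.PosDef.of_dotProduct_mulVec_pos (HM_herm N _)
  intro u hu
  rw [star_trivial, quad]
  by_contra hcon
  push Not at hcon
  have h1 : ∀ x z, 0 ≤ N.B x z * (Real.exp (t x + t z) *
      (u x * Real.exp (- t x) - u z * Real.exp (- t z)) ^ 2) := by
    intro x z
    have := N.nn x z
    positivity
  have h2 : ∀ x, 0 ≤ N.r x * Real.exp (- t x) * u x ^ 2 := by
    intro x
    have := N.rn x
    positivity
  have h3 : 0 ≤ ∑ x, ∑ z, N.B x z * (Real.exp (t x + t z) *
      (u x * Real.exp (- t x) - u z * Real.exp (- t z)) ^ 2) :=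
    Finset.sum_nonneg fun x _ => Finset.sum_nonneg fun z _ => h1 x z
  have h4 : 0 ≤ ∑ x, N.r x * Real.exp (- t x) * u x ^ 2 := Finset.sum_nonneg fun x _ => h2 x
  have h5 : ∑ x, N.r x * Real.exp (- t x) * u x ^ 2 = 0 := by linarith
  have h6 : ∑ x, ∑ z, N.B x z * (Real.exp (t x + t z) *
      (u x * Real.exp (- t x) - u z * Real.exp (- t z)) ^ 2) = 0 := by linarith
  have h7 : ∀ x, N.r x * Real.exp (- t x) * u x ^ 2 = 0 := by
    intro x
    exact (Finset.sum_eq_zero_iff_of_nonneg fun x _ => h2 x).mp h5 x (Finset.mem_univ x)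
  have h8 : ∀ x z, N.B x z * (Real.exp (t x + t z) *
      (u x * Real.exp (- t x) - u z * Real.exp (- t z)) ^ 2) = 0 := by
    intro x z
    have e := (Finset.sum_eq_zero_iff_of_nonneg fun x _ =>
      Finset.sum_nonneg fun z _ => h1 x z).mp h6 x (Finset.mem_univ x)
    exact (Finset.sum_eq_zero_iff_of_nonneg fun z _ => h1 x z).mp e z (Finset.mem_univ z)
  have h9 : ∀ x, N.Reach x → u x * Real.exp (- t x) = 0 := by
    intro x hx
    induction hx with
    | root h =>
      rename_i x
      have := h7 x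
      have hr : N.r x ≠ 0 := h.ne'
      have he : Real.exp (- t x) ≠ 0 := (Real.exp_pos _).ne'
      have hu2 : u x ^ 2 = 0 := by
        rcases mul_eq_zero.mp this with h | h
        · exact absurd h (mul_ne_zero hr he)
        · exact h
      rw [pow_eq_zero_iff (by norm_num)] at hu2
      rw [hu2, zero_mul]
    | step hx h ih =>
      rename_i x z
      have := h8 x z
      have hB : N.B x z ≠ 0 := h.ne'
      have he : Real.exp (t x + t z) ≠ 0 := (Real.exp_pos _).ne'
      rcases mul_eq_zero.mp this with h | h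
      · exact absurd h hB
      · rcases mul_eq_zero.mp h with h | h
        · exact absurd h he
        · rw [pow_eq_zero_iff (by norm_num)] at h
          linarith
  apply hu
  funext x
  have := h9 x (hN x)
  rcases mul_eq_zero.mp this with h | h
  · exact h
  · exact absurd h (Real.exp_pos _).ne'

/-- inverse positivity -/
theorem inv_nonneg_of_posDef (N : Net V) (a : V → ℝ) (ha : (HM N a).PosDef) (x z : V) :
    0 ≤ (HM N a)⁻¹ x z := by
  set v : V → ℝ := (HM N a)⁻¹ *ᵥ (Pi.single z 1) with hv
  have hvx : ∀ x, v x = (HM N a)⁻¹ x z := by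
    intro x
    rw [hv, Matrix.mulVec_single_one]
    rfl
  have hHv : HM N a *ᵥ v = Pi.single z 1 := mulVec_inv N ha _
  set n : V → ℝ := fun x => max (- v x) 0 with hn
  set p : V → ℝ := fun x => max (v x) 0 with hp
  have hnn : ∀ x, 0 ≤ n x := fun x => le_max_right _ _
  have hpn : ∀ x, 0 ≤ p x := fun x => le_max_right _ _
  have hvpn : v = p - n := by
    funext x
    rw [Pi.sub_apply]
    simp only [hn, hp]
    rcases le_total (v x) 0 with h | h
    · rw [max_eq_right h, max_eq_left (by linarith)]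
      ring
    · rw [max_eq_left h, max_eq_right (by linarith)]
      ring
  have hnp : ∀ x, n x * p x = 0 := by
    intro x
    simp only [hn, hp]
    rcases le_total (v x) 0 with h | h
    · rw [max_eq_right h, mul_zero]
    · rw [max_eq_right (a := - v x) (by linarith), zero_mul]
  have h1 : n ⬝ᵥ (HM N a *ᵥ v) = n z := by
    rw [hHv, dotProduct_single_one]
  have h2 : n ⬝ᵥ (HM N a *ᵥ p) ≤ 0 := by
    show ∑ x, n x * (HM N a *ᵥ p) x ≤ 0
    apply Finset.sum_nonpos
    intro x _
    rw [HM_mulVec, mul_sub]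
    have e1 : n x * (a x * p x) = 0 := by
      rw [show n x * (a x * p x) = a x * (n x * p x) by ring, hnp, mul_zero]
    have e2 : 0 ≤ n x * ∑ z, N.B x z * p z :=
      mul_nonneg (hnn x) (Finset.sum_nonneg fun z _ => mul_nonneg (N.nn x z) (hpn z))
    linarith
  have h3 : n ⬝ᵥ (HM N a *ᵥ n) ≤ 0 := by
    have : n ⬝ᵥ (HM N a *ᵥ v) = n ⬝ᵥ (HM N a *ᵥ p) - n ⬝ᵥ (HM N a *ᵥ n) := by
      rw [hvpn, Matrix.mulVec_sub, dotProduct_sub]
    have := hnn z
    linarith
  have h4 : n = 0 := by
    by_contra hne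
    have := ha.dotProduct_mulVec_pos hne
    rw [star_trivial] at this
    linarith
  rw [← hvx]
  have h5 := congrFun h4 x
  simp only [hn, Pi.zero_apply] at h5
  have := le_max_left (- v x) 0
  linarith

theorem inv_mulVec_r_pos (N : Net V) (hN : N.Conn) (a : V → ℝ) (ha : (HM N a).PosDef) (x : V) :
    0 < ((HM N a)⁻¹ *ᵥ N.r) x := by
  set ψ : V → ℝ := (HM N a)⁻¹ *ᵥ N.r with hψ
  have hnn : ∀ x, 0 ≤ ψ x := by
    intro x
    rw [hψ]
    show 0 ≤ ∑ z, (HM N a)⁻¹ x z * N.r z
    exact Finset.sum_nonneg fun z _ => mul_nonneg (inv_nonneg_of_posDef N a ha x z) (N.rn z)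
  have hH : HM N a *ᵥ ψ = N.r := mulVec_inv N ha _
  have hax : ∀ x, 0 < a x := by
    intro x
    have h := ha.diag_pos (i := x)
    rw [HM_apply, if_pos rfl, N.diag] at h
    linarith
  have heq : ∀ x, a x * ψ x = N.r x + ∑ z, N.B x z * ψ z := by
    intro x
    have := congrFun hH x
    rw [HM_mulVec] at this
    linarith
  have hsum : ∀ x, 0 ≤ ∑ z, N.B x z * ψ z := fun x =>
    Finset.sum_nonneg fun z _ => mul_nonneg (N.nn x z) (hnn z)
  have key : ∀ x, N.Reach x → 0 < ψ x := by
    intro x hx
    induction hx with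
    | root h =>
      rename_i x
      have h1 : 0 < a x * ψ x := by
        rw [heq]
        have := hsum x
        linarith
      exact (mul_pos_iff_of_pos_left (hax x)).mp h1
    | step hx h ih =>
      rename_i x z
      have h1 : 0 < a z * ψ z := by
        rw [heq]
        have e1 : N.B z x * ψ x ≤ ∑ w, N.B z w * ψ w :=
          Finset.single_le_sum (f := fun w => N.B z w * ψ w)
            (fun w _ => mul_nonneg (N.nn z w) (hnn w)) (Finset.mem_univ x)
        have e2 : 0 < N.B z x * ψ x := by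
          rw [N.symm z x]
          exact mul_pos h ih
        have := N.rn z
        linarith
      exact (mul_pos_iff_of_pos_left (hax z)).mp h1
  exact key x (hN x)

end Pool.Agent.TH369.AG
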