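import Pool.Agent.TH369.AG.Defs2

set_option autoImplicit false
set_option linter.unusedSectionVars false
set_option linter.unusedSimpArgs false

namespace Pool.Agent.TH369.AG

open MeasureTheory Matrix

variable {V : Type} [Fintype V] [DecidableEq V]

/-! ### J4: elimination of one vertex -/

/-- the vector `G' β`, where `β` are the weights from `p` -/
noncomputable def uu (N : Net V) (p : V) (a : V → ℝ) (x : V) : ℝ :=
  if x = p then 0 else ((HM (N.mg p) a)⁻¹ *ᵥ (fun z => N.B p z)) x

/-- the constant `c = r p + ⟨β, G' r'⟩` -/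
noncomputable def cc (N : Net V) (p : V) (a : V → ℝ) : ℝ :=
  N.r p + ∑ x, uu N p a x * N.r x

/-- the shift `⟨β, G' β⟩` -/
noncomputable def qq (N : Net V) (p : V) (a : V → ℝ) : ℝ :=
  ∑ x, uu N p a x * N.B p x

namespace J4

/-- the basis vector -/
noncomputable def ee (p : V) : V → ℝ := Pi.single p 1

/-- the weights from `p` -/
noncomputable def bb (N : Net V) (p : V) : V → ℝ := fun z => N.B p z

lemma ee_apply (p x : V) : ee p x = if x = p then 1 else 0 := by
  unfold ee; rw [Pi.single_apply]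

lemma ee_dot (p : V) (v : V → ℝ) : ee p ⬝ᵥ v = v p := by
  unfold ee; simp

lemma dot_ee (p : V) (v : V → ℝ) : v ⬝ᵥ ee p = v p := by
  unfold ee; simp

lemma HM_symm (N : Net V) (a : V → ℝ) : (HM N a)ᵀ = HM N a := by
  ext x z
  simp only [HM, Matrix.transpose_apply, Matrix.sub_apply, Matrix.of_apply, N.symm z x]
  congr 1
  by_cases h : x = z
  · subst h; rfl
  · rw [Matrix.diagonal_apply_ne _ h, Matrix.diagonal_apply_ne _ (Ne.symm h)]

lemma HM_eq (N : Net V) (p : V) (a : V → ℝ) :
    HM N a = HM (N.mg p) a - vecMulVec (bb N p) (ee p) - vecMulVec (ee p) (bb N p) := by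
  ext x z
  simp only [HM, Matrix.sub_apply, Matrix.of_apply, vecMulVec_apply, bb, ee_apply, Net.mg]
  by_cases hx : x = p
  · by_cases hz : z = p
    · subst hx; subst hz; simp [N.diag]
    · subst hx; simp [hz]
  · by_cases hz : z = p
    · subst hz; simp [hx, N.symm x z]
    · simp [hx, hz]

lemma HM_update (N : Net V) (p : V) (a : V → ℝ) (s : ℝ) :
    HM N (Function.update a p s) = HM N a + (s - a p) • vecMulVec (ee p) (ee p) := by
  ext x z
  simp only [HM, Matrix.sub_apply, Matrix.add_apply, Matrix.smul_apply, Matrix.of_apply,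
    vecMulVec_apply, ee_apply, smul_eq_mul]
  by_cases hxz : x = z
  · subst hxz
    rw [Matrix.diagonal_apply_eq, Matrix.diagonal_apply_eq]
    by_cases hx : x = p
    · subst hx; simp
    · simp [hx]
  · rw [Matrix.diagonal_apply_ne _ hxz, Matrix.diagonal_apply_ne _ hxz]
    by_cases hx : x = p
    · subst hx; simp [Ne.symm hxz]
    · simp [hx]

lemma D_ee (N : Net V) (p : V) (a : V → ℝ) : HM (N.mg p) a *ᵥ ee p = a p • ee p := by
  ext x
  unfold ee
  rw [Matrix.mulVec_single_one]
  simp only [Matrix.col_apply, HM, Matrix.sub_apply, Matrix.of_apply, Net.mg, Pi.smul_apply,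
    Pi.single_apply, smul_eq_mul]
  by_cases hx : x = p
  · subst hx; simp
  · rw [Matrix.diagonal_apply_ne _ hx]; simp [hx]

lemma unitD {N : Net V} {a : V → ℝ} (h : (HM N a).PosDef) : IsUnit (HM N a).det :=
  (Matrix.isUnit_iff_isUnit_det _).1 h.isUnit

lemma D_pp_pos {N : Net V} {p : V} {a : V → ℝ} (h : (HM (N.mg p) a).PosDef) : 0 < a p := by
  have h1 := h.dotProduct_mulVec_pos (x := ee p) (by
    intro h0
    have := congrFun h0 p
    rw [ee_apply] at this
    simp at this)
  rw [D_ee] at h1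
  simpa [ee_dot, ee_apply] using h1

lemma Dinv_ee {N : Net V} {p : V} {a : V → ℝ} (h : (HM (N.mg p) a).PosDef) :
    (HM (N.mg p) a)⁻¹ *ᵥ ee p = (a p)⁻¹ • ee p := by
  have h0 := D_pp_pos h
  have h1 : ee p = (a p)⁻¹ • (HM (N.mg p) a *ᵥ ee p) := by
    rw [D_ee, smul_smul, inv_mul_cancel₀ h0.ne', one_smul]
  conv_lhs => rw [h1]
  rw [Matrix.mulVec_smul, Matrix.mulVec_mulVec, Matrix.nonsing_inv_mul _ (unitD h),
    Matrix.one_mulVec]

lemma inv_symm {N : Net V} (a : V → ℝ) : ((HM N a)⁻¹)ᵀ = (HM N a)⁻¹ := by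
  rw [Matrix.transpose_nonsing_inv, HM_symm]

lemma dot_inv {N : Net V} (a : V → ℝ) (v w : V → ℝ) :
    v ⬝ᵥ ((HM N a)⁻¹ *ᵥ w) = ((HM N a)⁻¹ *ᵥ v) ⬝ᵥ w := by
  rw [Matrix.dotProduct_mulVec, ← Matrix.mulVec_transpose, inv_symm]

lemma dot_HM {N : Net V} (a : V → ℝ) (v w : V → ℝ) :
    v ⬝ᵥ (HM N a *ᵥ w) = (HM N a *ᵥ v) ⬝ᵥ w := by
  rw [Matrix.dotProduct_mulVec, ← Matrix.mulVec_transpose, HM_symm]

lemma Dinv_bb_p {N : Net V} {p : V} {a : V → ℝ} (h : (HM (N.mg p) a).PosDef) :
    ((HM (N.mg p) a)⁻¹ *ᵥ bb N p) p = 0 := by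
  rw [← ee_dot p ((HM (N.mg p) a)⁻¹ *ᵥ bb N p), dot_inv, Dinv_ee h, smul_dotProduct, ee_dot]
  simp [bb, N.diag]

lemma uu_eq {N : Net V} {p : V} {a : V → ℝ} (h : (HM (N.mg p) a).PosDef) :
    uu N p a = (HM (N.mg p) a)⁻¹ *ᵥ bb N p := by
  ext x
  unfold uu
  by_cases hx : x = p
  · subst hx; rw [Dinv_bb_p h]; simp
  · simp only [hx, if_false]; rfl

lemma uu_p (N : Net V) (p : V) (a : V → ℝ) : uu N p a p = 0 := by
  unfold uu; simp

lemma D_uu {N : Net V} {p : V} {a : V → ℝ} (h : (HM (N.mg p) a).PosDef) :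
    HM (N.mg p) a *ᵥ uu N p a = bb N p := by
  rw [uu_eq h, Matrix.mulVec_mulVec, Matrix.mul_nonsing_inv _ (unitD h), Matrix.one_mulVec]

lemma qq_eq (N : Net V) (p : V) (a : V → ℝ) : qq N p a = uu N p a ⬝ᵥ bb N p := rfl

lemma cc_eq (N : Net V) (p : V) (a : V → ℝ) : cc N p a = N.r p + uu N p a ⬝ᵥ N.r := rfl

lemma bb_p (N : Net V) (p : V) : bb N p p = 0 := N.diag p

/-- the quadratic form -/
lemma quad {N : Net V} {p : V} {a : V → ℝ} (h : (HM (N.mg p) a).PosDef) (σ : ℝ) (v : V → ℝ) :
    v ⬝ᵥ (HM N (Function.update a p (σ + qq N p a)) *ᵥ v) =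
      (v - v p • (ee p + uu N p a)) ⬝ᵥ (HM (N.mg p) a *ᵥ (v - v p • (ee p + uu N p a))) +
        σ * v p ^ 2 := by
  have e1 : HM N (Function.update a p (σ + qq N p a)) *ᵥ v = HM (N.mg p) a *ᵥ v
      + ((σ + qq N p a - a p) * v p) • ee p - v p • bb N p - (bb N p ⬝ᵥ v) • ee p := by
    rw [HM_eq N p, HM_update (N.mg p) p]
    rw [Matrix.sub_mulVec, Matrix.sub_mulVec, Matrix.add_mulVec, Matrix.smul_mulVec]
    rw [vecMulVec_mulVec, vecMulVec_mulVec, vecMulVec_mulVec, ee_dot]
    ext x
    simp only [Pi.sub_apply, Pi.add_apply, Pi.smul_apply, MulOpposite.smul_eq_mul_unop,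
      MulOpposite.unop_op, smul_eq_mul]
    ring
  have e2 : HM (N.mg p) a *ᵥ (v - v p • (ee p + uu N p a)) = HM (N.mg p) a *ᵥ v -
      v p • (a p • ee p + bb N p) := by
    rw [Matrix.mulVec_sub, Matrix.mulVec_smul, Matrix.mulVec_add, D_ee, D_uu h]
  rw [e1, e2]
  have e3 : uu N p a ⬝ᵥ (HM (N.mg p) a *ᵥ v) = bb N p ⬝ᵥ v := by
    rw [dot_HM, D_uu h]
  have e4 : ee p ⬝ᵥ (HM (N.mg p) a *ᵥ v) = a p * v p := by
    rw [dot_HM, D_ee, smul_dotProduct, ee_dot, smul_eq_mul]
  simp only [dotProduct_sub, dotProduct_add, sub_dotProduct, add_dotProduct, smul_dotProduct,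
    dotProduct_smul, ee_dot, dot_ee, smul_eq_mul, e3, e4, ee_apply, uu_p, bb_p]
  rw [dotProduct_comm v (bb N p), ← qq_eq]
  simp
  ring

/-- positive definiteness -/
lemma posDef_iff {N : Net V} {p : V} {a : V → ℝ} (h : (HM (N.mg p) a).PosDef) (σ : ℝ) :
    (HM N (Function.update a p (σ + qq N p a))).PosDef ↔ 0 < σ := by
  constructor
  · intro hp
    have hne : ee p + uu N p a ≠ 0 := by
      intro h0
      have := congrFun h0 p
      rw [Pi.add_apply, ee_apply, uu_p] at this
      simp at this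
    have h1 := hp.dotProduct_mulVec_pos hne
    simp only [star_trivial] at h1
    rw [quad h] at h1
    simpa [ee_apply, uu_p] using h1
  · intro hσ
    refine Matrix.PosDef.of_dotProduct_mulVec_pos ?_ ?_
    · show (HM N _)ᴴ = _
      rw [conjTranspose_eq_transpose_of_trivial, HM_symm]
    · intro v hv
      simp only [star_trivial]
      rw [quad h]
      have h2 := h.posSemidef.dotProduct_mulVec_nonneg (v - v p • (ee p + uu N p a))
      simp only [star_trivial] at h2
      by_cases hvp : v p = 0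
      · have h3 := h.dotProduct_mulVec_pos hv
        simp only [star_trivial] at h3
        rw [hvp]
        simpa using h3
      · have : 0 < σ * v p ^ 2 := by positivity
        linarith

/-- the quadratic form in the decoupled case -/
lemma quad_mg (N : Net V) (p : V) (a : V → ℝ) (s : ℝ) (v : V → ℝ) :
    v ⬝ᵥ (HM (N.mg p) (Function.update a p s) *ᵥ v) =
      (v - v p • ee p) ⬝ᵥ (HM (N.mg p) a *ᵥ (v - v p • ee p)) + s * v p ^ 2 := by
  have e1 : HM (N.mg p) (Function.update a p s) *ᵥ v = HM (N.mg p) a *ᵥ v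
      + ((s - a p) * v p) • ee p := by
    rw [HM_update (N.mg p) p]
    rw [Matrix.add_mulVec, Matrix.smul_mulVec]
    rw [vecMulVec_mulVec, ee_dot]
    ext x
    simp only [Pi.add_apply, Pi.smul_apply, MulOpposite.smul_eq_mul_unop,
      MulOpposite.unop_op, smul_eq_mul]
    ring
  have e2 : HM (N.mg p) a *ᵥ (v - v p • ee p) = HM (N.mg p) a *ᵥ v -
      v p • (a p • ee p) := by
    rw [Matrix.mulVec_sub, Matrix.mulVec_smul, D_ee]
  rw [e1, e2]
  have e4 : ee p ⬝ᵥ (HM (N.mg p) a *ᵥ v) = a p * v p := by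
    rw [dot_HM, D_ee, smul_dotProduct, ee_dot, smul_eq_mul]
  simp only [dotProduct_sub, dotProduct_add, sub_dotProduct, add_dotProduct, smul_dotProduct,
    dotProduct_smul, ee_dot, dot_ee, smul_eq_mul, e4, ee_apply]
  simp
  ring

/-- the quadratic form of the full matrix on vectors which vanish at `p` -/
lemma quad_off (N : Net V) (p : V) (a : V → ℝ) (v : V → ℝ) (hv : v p = 0) :
    v ⬝ᵥ (HM N a *ᵥ v) = v ⬝ᵥ (HM (N.mg p) a *ᵥ v) := by
  rw [HM_eq N p, Matrix.sub_mulVec, Matrix.sub_mulVec, vecMulVec_mulVec, vecMulVec_mulVec,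
    ee_dot, hv]
  simp only [dotProduct_sub]
  have : v ⬝ᵥ (MulOpposite.op (bb N p ⬝ᵥ v) • ee p) = 0 := by
    rw [dotProduct_smul, dot_ee, hv]; simp
  rw [this]
  simp

lemma posDef_mg_iff {N : Net V} {p : V} {a : V → ℝ} (h : (HM (N.mg p) a).PosDef) (s : ℝ) :
    (HM (N.mg p) (Function.update a p s)).PosDef ↔ 0 < s := by
  constructor
  · intro hp
    have := D_pp_pos hp
    simpa using this
  · intro hs
    refine Matrix.PosDef.of_dotProduct_mulVec_pos ?_ ?_
    · show (HM (N.mg p) _)ᴴ = _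
      rw [conjTranspose_eq_transpose_of_trivial, HM_symm]
    · intro v hv
      simp only [star_trivial]
      rw [quad_mg]
      have h2 := h.posSemidef.dotProduct_mulVec_nonneg (v - v p • ee p)
      simp only [star_trivial] at h2
      by_cases hvp : v p = 0
      · have h3 := h.dotProduct_mulVec_pos hv
        simp only [star_trivial] at h3
        rw [hvp]
        simpa using h3
      · have : 0 < s * v p ^ 2 := by positivity
        linarith

/-- if the matrix is positive definite, then so is the merged one after replacing the entry at `p` -/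
lemma posDef_of_update {N : Net V} {p : V} {a : V → ℝ} {s : ℝ}
    (h : (HM N (Function.update a p s)).PosDef) :
    (HM (N.mg p) (Function.update a p 1)).PosDef := by
  refine Matrix.PosDef.of_dotProduct_mulVec_pos ?_ ?_
  · show (HM (N.mg p) _)ᴴ = _
    rw [conjTranspose_eq_transpose_of_trivial, HM_symm]
  · intro v hv
    simp only [star_trivial]
    have e : Function.update a p 1 = Function.update (Function.update a p s) p 1 := by simp
    rw [e, quad_mg, ← quad_off _ _ _ _ (by simp [ee_apply])]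
    have h2 := h.posSemidef.dotProduct_mulVec_nonneg (v - v p • ee p)
    simp only [star_trivial] at h2
    by_cases hvp : v p = 0
    · have h3 := h.dotProduct_mulVec_pos hv
      simp only [star_trivial] at h3
      rw [hvp]
      simpa using h3
    · have : 0 < 1 * v p ^ 2 := by positivity
      linarith

lemma posDef_of_update_mg {N : Net V} {p : V} {a : V → ℝ} {s : ℝ}
    (h : (HM (N.mg p) (Function.update a p s)).PosDef) :
    (HM (N.mg p) (Function.update a p 1)).PosDef := by
  have := (posDef_mg_iff h 1).2 one_pos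
  simpa using this

/-- the inverse of the matrix in the decoupled case -/
lemma inv_mg {N : Net V} {p : V} {a : V → ℝ} (h : (HM (N.mg p) a).PosDef) {s : ℝ} (hs : 0 < s) :
    (HM (N.mg p) (Function.update a p s))⁻¹ =
      (HM (N.mg p) a)⁻¹ + (s⁻¹ - (a p)⁻¹) • vecMulVec (ee p) (ee p) := by
  have h0 := D_pp_pos h
  refine Matrix.inv_eq_right_inv ?_
  rw [HM_update (N.mg p) p, Matrix.mul_add, Matrix.add_mul, Matrix.mul_nonsing_inv _ (unitD h),
    Matrix.mul_smul, mul_vecMulVec, Matrix.add_mulVec, D_ee, Matrix.smul_mul, vecMulVec_mul,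
    Matrix.smul_mulVec, vecMulVec_mulVec, ← Matrix.mulVec_transpose, inv_symm, Dinv_ee h, dot_ee]
  ext x z
  simp only [Matrix.add_apply, Matrix.smul_apply, vecMulVec_apply, Pi.smul_apply, Pi.add_apply,
    smul_eq_mul, MulOpposite.smul_eq_mul_unop, MulOpposite.unop_op]
  have : ee p p = 1 := by rw [ee_apply]; simp
  rw [this]
  field_simp
  ring

/-- the inverse of the matrix -/
lemma inv_eq {N : Net V} {p : V} {a : V → ℝ} (h : (HM (N.mg p) a).PosDef) {σ : ℝ} (hσ : 0 < σ) :
    (HM N (Function.update a p (σ + qq N p a)))⁻¹ =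
      (HM (N.mg p) a)⁻¹ - (a p)⁻¹ • vecMulVec (ee p) (ee p) +
        σ⁻¹ • vecMulVec (ee p + uu N p a) (ee p + uu N p a) := by
  have h0 := D_pp_pos h
  have e1 : HM N (Function.update a p (σ + qq N p a)) = HM (N.mg p) a
      + (σ + qq N p a - a p) • vecMulVec (ee p) (ee p) - vecMulVec (bb N p) (ee p)
      - vecMulVec (ee p) (bb N p) := by
    rw [HM_eq N p, HM_update (N.mg p) p]
  have hpp : ee p p = 1 := by rw [ee_apply]; simp
  have e2 : HM N (Function.update a p (σ + qq N p a)) *ᵥ (ee p + uu N p a) = σ • ee p := by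
    rw [e1]
    simp only [Matrix.sub_mulVec, Matrix.add_mulVec, Matrix.smul_mulVec, vecMulVec_mulVec,
      ee_dot, Matrix.mulVec_add, D_ee, D_uu h, dotProduct_add, dot_ee, bb_p, uu_p, hpp]
    rw [dotProduct_comm (bb N p) (uu N p a), ← qq_eq]
    ext x
    simp only [Pi.sub_apply, Pi.add_apply, Pi.smul_apply, MulOpposite.smul_eq_mul_unop,
      MulOpposite.unop_op, smul_eq_mul]
    ring
  have e3 : HM N (Function.update a p (σ + qq N p a)) *ᵥ ee p =
      (σ + qq N p a) • ee p - bb N p := by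
    rw [e1]
    simp only [Matrix.sub_mulVec, Matrix.add_mulVec, Matrix.smul_mulVec, vecMulVec_mulVec,
      ee_dot, Matrix.mulVec_add, D_ee, dotProduct_add, dot_ee, bb_p, uu_p, hpp]
    ext x
    simp only [Pi.sub_apply, Pi.add_apply, Pi.smul_apply, MulOpposite.smul_eq_mul_unop,
      MulOpposite.unop_op, smul_eq_mul]
    ring
  have e4 : HM N (Function.update a p (σ + qq N p a)) * (HM (N.mg p) a)⁻¹ =
      1 + ((σ + qq N p a - a p) * (a p)⁻¹) • vecMulVec (ee p) (ee p)
      - (a p)⁻¹ • vecMulVec (bb N p) (ee p) - vecMulVec (ee p) (uu N p a) := by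
    rw [e1]
    rw [Matrix.sub_mul, Matrix.sub_mul, Matrix.add_mul, Matrix.mul_nonsing_inv _ (unitD h),
      Matrix.smul_mul, vecMulVec_mul, vecMulVec_mul, vecMulVec_mul, ← Matrix.mulVec_transpose,
      ← Matrix.mulVec_transpose, inv_symm, Dinv_ee h, ← uu_eq h]
    ext x z
    simp only [Matrix.add_apply, Matrix.sub_apply, Matrix.smul_apply, vecMulVec_apply,
      Pi.smul_apply, Pi.add_apply, smul_eq_mul]
    ring
  refine Matrix.inv_eq_right_inv ?_
  rw [Matrix.mul_add, Matrix.mul_sub, Matrix.mul_smul, Matrix.mul_smul, mul_vecMulVec,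
    mul_vecMulVec, e2, e3, e4]
  ext x z
  simp only [Matrix.add_apply, Matrix.sub_apply, Matrix.smul_apply, vecMulVec_apply, Pi.smul_apply,
    Pi.add_apply, Pi.sub_apply, smul_eq_mul]
  field_simp
  ring

/-- the determinant in the decoupled case -/
lemma det_mg {N : Net V} {p : V} {a : V → ℝ} (ha : a p = 1) (s : ℝ) :
    (HM (N.mg p) (Function.update a p s)).det = s * (HM (N.mg p) a).det := by
  have e : HM (N.mg p) (Function.update a p s) =
      (HM (N.mg p) a).updateRow p (s • (HM (N.mg p) a) p) := by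
    rw [HM_update (N.mg p) p]
    ext x z
    by_cases hx : x = p
    · subst hx
      simp only [Matrix.updateRow_self, Matrix.add_apply, Matrix.smul_apply, vecMulVec_apply,
        ee_apply, Pi.smul_apply, smul_eq_mul, HM, Net.mg, Matrix.sub_apply, Matrix.of_apply]
      by_cases hz : x = z
      · subst hz; simp [ha]
      · simp [hz, Ne.symm hz]
    · rw [Matrix.updateRow_ne hx]
      simp [vecMulVec_apply, ee_apply, hx]
  rw [e, Matrix.det_updateRow_smul, Matrix.updateRow_eq_self]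

/-- the determinant -/
lemma det_eq {N : Net V} {p : V} {a : V → ℝ} (h : (HM (N.mg p) a).PosDef) (ha : a p = 1) (σ : ℝ) :
    (HM N (Function.update a p (σ + qq N p a))).det = σ * (HM (N.mg p) a).det := by
  have hpp : ee p p = 1 := by rw [ee_apply]; simp
  set T : Matrix V V ℝ := 1 + replicateCol Unit (-uu N p a) * replicateRow Unit (ee p) with hT
  have hTd : T.det = 1 := by
    rw [hT, Matrix.det_one_add_replicateCol_mul_replicateRow]
    simp [ee_dot, uu_p]
  have hT2 : T = 1 - vecMulVec (uu N p a) (ee p) := by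
    rw [hT]
    ext x z
    simp [Matrix.mul_apply, vecMulVec_apply, sub_eq_add_neg]
  have hu : (uu N p a) ᵥ* HM (N.mg p) a = bb N p := by
    rw [← Matrix.mulVec_transpose, HM_symm, D_uu h]
  have e : HM N (Function.update a p (σ + qq N p a)) =
      Tᵀ * HM (N.mg p) (Function.update a p σ) * T := by
    have e1 : HM N (Function.update a p (σ + qq N p a)) = HM (N.mg p) a
        + (σ + qq N p a - a p) • vecMulVec (ee p) (ee p) - vecMulVec (bb N p) (ee p)
        - vecMulVec (ee p) (bb N p) := by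
      rw [HM_eq N p, HM_update (N.mg p) p]
    have e2 : HM (N.mg p) (Function.update a p σ) * T = HM (N.mg p) (Function.update a p σ) -
        vecMulVec (bb N p) (ee p) := by
      rw [hT2, Matrix.mul_sub, Matrix.mul_one, mul_vecMulVec, HM_update (N.mg p) p,
        Matrix.add_mulVec, D_uu h, Matrix.smul_mulVec, vecMulVec_mulVec, ee_dot, uu_p]
      simp
    have e3 : (uu N p a) ᵥ* (HM (N.mg p) (Function.update a p σ)) = bb N p := by
      rw [← Matrix.mulVec_transpose, HM_symm, HM_update (N.mg p) p,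
        Matrix.add_mulVec, D_uu h, Matrix.smul_mulVec, vecMulVec_mulVec, ee_dot, uu_p]
      simp
    rw [Matrix.mul_assoc, e2, hT2, Matrix.transpose_sub, Matrix.transpose_one,
      Matrix.transpose_vecMulVec, Matrix.sub_mul, Matrix.one_mul, Matrix.mul_sub, vecMulVec_mul,
      e3, e1, vecMulVec_mul_vecMulVec, ← qq_eq, HM_update (N.mg p) p]
    ext x z
    simp only [Matrix.add_apply, Matrix.sub_apply, Matrix.smul_apply, vecMulVec_apply,
      Pi.smul_apply, Pi.add_apply, Pi.sub_apply, smul_eq_mul]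
    ring
  rw [e, Matrix.det_mul, Matrix.det_mul, Matrix.det_transpose, hTd, det_mg ha]
  ring

/-- the exponent of the weight -/
noncomputable def EX (N : Net V) (a : V → ℝ) : ℝ :=
  -(1 / 2) * (∑ x, ∑ z, HM N a x z) - (1 / 2) * (N.r ⬝ᵥ (HM N a)⁻¹ *ᵥ N.r) + ∑ x, N.r x

lemma wA_def (N : Net V) (a : V → ℝ) : wA N a = Real.sqrt (HM N a).det * Real.exp (EX N a) := rfl

lemma S_vec (v w : V → ℝ) : ∑ x, ∑ z, vecMulVec v w x z = (∑ x, v x) * ∑ x, w x := by
  simp only [vecMulVec_apply, Finset.sum_mul_sum]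

lemma sum_ee (p : V) : ∑ x, ee p x = 1 := by
  simp [ee_apply]

lemma r_mg (N : Net V) (p : V) : (N.mg p).r = N.r - N.r p • ee p + bb N p := by
  ext x
  simp only [Net.mg, Pi.add_apply, Pi.sub_apply, Pi.smul_apply, ee_apply, bb, smul_eq_mul]
  by_cases hx : x = p
  · subst hx; simp [N.diag]
  · simp [hx, N.symm x p]

lemma EX_mg {N : Net V} {p : V} {b : V → ℝ} (h : (HM (N.mg p) b).PosDef) (hb : b p = 1)
    {s : ℝ} (hs : 0 < s) :
    EX (N.mg p) (Function.update b p s) = EX (N.mg p) b + 1 / 2 - s / 2 := by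
  unfold EX
  have e1 : ∑ x, ∑ z, HM (N.mg p) (Function.update b p s) x z =
      (∑ x, ∑ z, HM (N.mg p) b x z) + (s - 1) := by
    rw [HM_update (N.mg p) p]
    simp only [Matrix.add_apply, Matrix.smul_apply, Finset.sum_add_distrib, smul_eq_mul,
      ← Finset.mul_sum, S_vec, sum_ee, hb]
    ring
  have e2 : (N.mg p).r ⬝ᵥ (HM (N.mg p) (Function.update b p s))⁻¹ *ᵥ (N.mg p).r =
      (N.mg p).r ⬝ᵥ (HM (N.mg p) b)⁻¹ *ᵥ (N.mg p).r := by
    have h0 : (N.mg p).r p = 0 := by simp [Net.mg]
    rw [inv_mg h hs, Matrix.add_mulVec, Matrix.smul_mulVec, vecMulVec_mulVec, ee_dot, h0]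
    simp
  rw [e1, e2]
  ring

lemma EX_eq {N : Net V} {p : V} {b : V → ℝ} (h : (HM (N.mg p) b).PosDef) (hb : b p = 1)
    {σ : ℝ} (hσ : 0 < σ) :
    EX N (Function.update b p (σ + qq N p b)) =
      EX (N.mg p) b + 1 / 2 - (σ - cc N p b) ^ 2 / (2 * σ) := by
  unfold EX
  have hpp : ee p p = 1 := by rw [ee_apply]; simp
  have e1 : ∑ x, ∑ z, HM N (Function.update b p (σ + qq N p b)) x z =
      (∑ x, ∑ z, HM (N.mg p) b x z) + (σ + qq N p b - 1) - 2 * ∑ x, bb N p x := by
    rw [HM_eq N p, HM_update (N.mg p) p]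
    simp only [Matrix.add_apply, Matrix.sub_apply, Matrix.smul_apply, Finset.sum_add_distrib,
      Finset.sum_sub_distrib, smul_eq_mul, ← Finset.mul_sum, S_vec, sum_ee, hb]
    ring
  have e2 : N.r ⬝ᵥ (HM N (Function.update b p (σ + qq N p b)))⁻¹ *ᵥ N.r =
      N.r ⬝ᵥ (HM (N.mg p) b)⁻¹ *ᵥ N.r - N.r p ^ 2 + (cc N p b) ^ 2 / σ := by
    rw [inv_eq h hσ, Matrix.add_mulVec, Matrix.sub_mulVec, Matrix.smul_mulVec, Matrix.smul_mulVec,
      vecMulVec_mulVec, vecMulVec_mulVec, ee_dot, hb, cc_eq]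
    simp only [dotProduct_add, dotProduct_sub, dotProduct_smul, add_dotProduct, ee_dot, dot_ee,
      MulOpposite.smul_eq_mul_unop, MulOpposite.unop_op, smul_eq_mul]
    rw [dotProduct_comm N.r (uu N p b)]
    field_simp
  have e3 : (N.mg p).r ⬝ᵥ (HM (N.mg p) b)⁻¹ *ᵥ (N.mg p).r =
      N.r ⬝ᵥ (HM (N.mg p) b)⁻¹ *ᵥ N.r - N.r p ^ 2 + 2 * (uu N p b ⬝ᵥ N.r) + qq N p b := by
    have h1 : bb N p ⬝ᵥ (HM (N.mg p) b)⁻¹ *ᵥ N.r = uu N p b ⬝ᵥ N.r := by
      rw [dot_inv, ← uu_eq h]
    have h2 : ee p ⬝ᵥ (HM (N.mg p) b)⁻¹ *ᵥ N.r = N.r p := by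
      rw [dot_inv, Dinv_ee h, hb, smul_dotProduct, ee_dot]; simp
    rw [r_mg]
    rw [Matrix.mulVec_add, Matrix.mulVec_sub, Matrix.mulVec_smul, Dinv_ee h, ← uu_eq h, hb]
    simp only [dotProduct_add, dotProduct_sub, dotProduct_smul, add_dotProduct, sub_dotProduct,
      smul_dotProduct, ee_dot, dot_ee, smul_eq_mul, h1, hpp, uu_p, bb_p]
    rw [dotProduct_comm N.r (uu N p b), dotProduct_comm (bb N p) (uu N p b), ← qq_eq]
    simp only [ee_dot] at h2
    rw [h2]
    ring
  have e4 : ∑ x, (N.mg p).r x = (∑ x, N.r x) - N.r p + ∑ x, bb N p x := by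
    rw [r_mg]
    simp only [Pi.add_apply, Pi.sub_apply, Pi.smul_apply, Finset.sum_add_distrib,
      Finset.sum_sub_distrib, smul_eq_mul, ← Finset.mul_sum, sum_ee]
    ring
  rw [e1, e2, e3, e4, cc_eq]
  field_simp
  ring

lemma wA_mg {N : Net V} {p : V} {b : V → ℝ} (h : (HM (N.mg p) b).PosDef) (hb : b p = 1)
    {s : ℝ} (hs : 0 < s) :
    wA (N.mg p) (Function.update b p s) =
      (Real.sqrt s * Real.exp (-(s / 2))) * (wA (N.mg p) b * Real.exp (1 / 2)) := by
  rw [wA_def, wA_def, det_mg hb, EX_mg h hb hs, Real.sqrt_mul hs.le]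
  have : Real.exp (EX (N.mg p) b + 1 / 2 - s / 2) =
      Real.exp (-(s / 2)) * (Real.exp (EX (N.mg p) b) * Real.exp (1 / 2)) := by
    rw [← Real.exp_add, ← Real.exp_add]; congr 1; ring
  rw [this]; ring

lemma wA_eq {N : Net V} {p : V} {b : V → ℝ} (h : (HM (N.mg p) b).PosDef) (hb : b p = 1)
    {σ : ℝ} (hσ : 0 < σ) :
    wA N (Function.update b p (σ + qq N p b)) =
      (Real.sqrt σ * Real.exp (-((σ - cc N p b) ^ 2 / (2 * σ)))) *
        (wA (N.mg p) b * Real.exp (1 / 2)) := by
  rw [wA_def, wA_def, det_eq h hb, EX_eq h hb hσ, Real.sqrt_mul hσ.le]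
  have : Real.exp (EX (N.mg p) b + 1 / 2 - (σ - cc N p b) ^ 2 / (2 * σ)) =
      Real.exp (-((σ - cc N p b) ^ 2 / (2 * σ))) *
        (Real.exp (EX (N.mg p) b) * Real.exp (1 / 2)) := by
    rw [← Real.exp_add, ← Real.exp_add]; congr 1; ring
  rw [this]; ring

/-- the one-dimensional integral -/
lemma int_one : ∫⁻ s in Set.Ioi (0 : ℝ), ENNReal.ofReal (Real.sqrt s * Real.exp (-(s / 2))) =
    ENNReal.ofReal (Real.sqrt (2 * Real.pi)) := by
  have h := Real.integral_rpow_mul_exp_neg_mul_Ioi (a := 3 / 2) (r := 1 / 2) (by norm_num)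
    (by norm_num)
  have e : ∀ s : ℝ, s ∈ Set.Ioi (0 : ℝ) → s ^ ((3 : ℝ) / 2 - 1) * Real.exp (-(1 / 2 * s)) =
      Real.sqrt s * Real.exp (-(s / 2)) := by
    intro s hs
    rw [Real.sqrt_eq_rpow]
    congr 1
    · congr 1; norm_num
    · congr 1; ring
  rw [setIntegral_congr_fun measurableSet_Ioi e] at h
  have hG : (1 / (1 / 2 : ℝ)) ^ ((3 : ℝ) / 2) * Real.Gamma (3 / 2) = Real.sqrt (2 * Real.pi) := by
    have h1 : Real.Gamma (3 / 2) = Real.sqrt Real.pi / 2 := by
      have := Real.Gamma_add_one (s := 1 / 2) (by norm_num)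
      rw [Real.Gamma_one_half_eq] at this
      rw [show (3 : ℝ) / 2 = 1 / 2 + 1 by norm_num, this]; ring
    have h2 : (1 / (1 / 2 : ℝ)) ^ ((3 : ℝ) / 2) = 2 * Real.sqrt 2 := by
      rw [show (1 / (1 / 2 : ℝ)) = 2 by norm_num, show (3 : ℝ) / 2 = 1 + 1 / 2 by norm_num,
        Real.rpow_add (by norm_num), Real.rpow_one, ← Real.sqrt_eq_rpow]
    rw [h1, h2, Real.sqrt_mul (by norm_num)]
    ring
  rw [hG] at h
  rw [← ofReal_integral_eq_lintegral_ofReal, h]
  · by_contra hni
    have := integral_undef hni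
    rw [h] at this
    have hp : 0 < Real.sqrt (2 * Real.pi) := by positivity
    exact hp.ne' this
  · exact Filter.Eventually.of_forall fun s => by positivity

lemma continuous_HM (N : Net V) : Continuous (fun a : V → ℝ => HM N a) := by
  unfold HM
  exact (Continuous.matrix_diagonal continuous_id).sub continuous_const

lemma measurableSet_pd (N : Net V) : MeasurableSet {a : V → ℝ | (HM N a).PosDef} := by
  have e : {a : V → ℝ | (HM N a).PosDef} =
      (⋂ v : V → ℝ, {a : V → ℝ | 0 ≤ v ⬝ᵥ (HM N a *ᵥ v)}) ∩ {a : V → ℝ | (HM N a).det ≠ 0} := by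
    ext a
    simp only [Set.mem_ofPred_eq, Set.mem_inter_iff, Set.mem_iInter]
    constructor
    · intro h
      exact ⟨fun v => by simpa using h.posSemidef.dotProduct_mulVec_nonneg v, h.det_pos.ne'⟩
    · rintro ⟨h1, h2⟩
      have h3 : (HM N a).PosSemidef := by
        refine Matrix.PosSemidef.of_dotProduct_mulVec_nonneg ?_ ?_
        · show (HM N a)ᴴ = _
          rw [conjTranspose_eq_transpose_of_trivial, HM_symm]
        · intro v; simpa using h1 v
      exact (h3.posDef_iff_det_ne_zero).2 h2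
  rw [e]
  have hc := continuous_HM N
  refine MeasurableSet.inter (IsClosed.measurableSet (isClosed_iInter fun v =>
    isClosed_le continuous_const ?_)) (IsOpen.measurableSet (isOpen_ne_fun ?_ continuous_const))
  · exact Continuous.dotProduct continuous_const (hc.matrix_mulVec continuous_const)
  · exact hc.matrix_det

lemma measurable_wA (N : Net V) : Measurable (wA N) := by
  have hc := continuous_HM N
  have e : ∀ a, N.r ⬝ᵥ (HM N a)⁻¹ *ᵥ N.r =
      (HM N a).det⁻¹ * (N.r ⬝ᵥ (HM N a).adjugate *ᵥ N.r) := by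
    intro a
    rw [Matrix.inv_def, Ring.inverse_eq_inv', Matrix.smul_mulVec, dotProduct_smul, smul_eq_mul]
  have hd : Measurable fun a => (HM N a).det := hc.matrix_det.measurable
  have h1 : Measurable fun a => N.r ⬝ᵥ (HM N a)⁻¹ *ᵥ N.r := by
    simp_rw [e]
    refine hd.inv.mul ?_
    exact (Continuous.dotProduct continuous_const
      (hc.matrix_adjugate.matrix_mulVec continuous_const)).measurable
  have h2 : Measurable fun a => ∑ x, ∑ z, HM N a x z := by
    refine Continuous.measurable ?_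
    exact continuous_finsetSum _ fun x _ => continuous_finsetSum _ fun z _ => hc.matrix_elem x z
  unfold wA
  exact (hd.sqrt).mul (((h2.const_mul _).sub (h1.const_mul _)).add_const _).exp

lemma IA_eq (N : Net V) (Φ : (V → ℝ) → ENNReal) :
    IA N Φ = ∫⁻ a, Set.indicator {a : V → ℝ | (HM N a).PosDef}
      (fun a => ENNReal.ofReal (wA N a) * Φ a) a := by
  unfold IA
  rw [lintegral_indicator (measurableSet_pd N)]

end J4

theorem elim (N : Net V) (p : V) (Φ f : (V → ℝ) → ENNReal) (hΦ : Measurable Φ) (hf : Measurable f)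
    (hfp : ∀ a s, f (Function.update a p s) = f a)
    (h : ∀ a, (HM (N.mg p) a).PosDef →
      ∫⁻ σ in Set.Ioi (0 : ℝ), ENNReal.ofReal (Real.sqrt σ *
        Real.exp (-((σ - cc N p a) ^ 2 / (2 * σ)))) * Φ (Function.update a p (σ + qq N p a)) =
      ENNReal.ofReal (Real.sqrt (2 * Real.pi)) * f a) :
    IA N Φ = IA (N.mg p) f := by
  set g1 : (V → ℝ) → ENNReal := Set.indicator {a : V → ℝ | (HM N a).PosDef}
      (fun a => ENNReal.ofReal (wA N a) * Φ a) with hg1
  set g2 : (V → ℝ) → ENNReal := Set.indicator {a : V → ℝ | (HM (N.mg p) a).PosDef}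
      (fun a => ENNReal.ofReal (wA (N.mg p) a) * f a) with hg2
  have m1 : Measurable g1 :=
    ((J4.measurable_wA N).ennreal_ofReal.mul hΦ).indicator (J4.measurableSet_pd N)
  have m2 : Measurable g2 :=
    ((J4.measurable_wA (N.mg p)).ennreal_ofReal.mul hf).indicator (J4.measurableSet_pd (N.mg p))
  have key : ∀ a : V → ℝ, ∫⁻ s, g1 (Function.update a p s) = ∫⁻ s, g2 (Function.update a p s) := by
    intro a
    by_cases hb : (HM (N.mg p) (Function.update a p 1)).PosDef
    · have hbp : (Function.update a p 1 : V → ℝ) p = 1 := by simp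
      have hup : ∀ s, Function.update (Function.update a p 1 : V → ℝ) p s =
          Function.update a p s := by intro s; simp
      set b : V → ℝ := Function.update a p 1 with hbdef
      have hfb : ∀ s, f (Function.update a p s) = f b := by
        intro s; rw [hfp, hbdef, hfp]
      have hW : 0 ≤ wA (N.mg p) b * Real.exp (1 / 2) := by
        unfold wA; positivity
      have e1 : ∫⁻ s, g1 (Function.update a p s) =
          ENNReal.ofReal (wA (N.mg p) b * Real.exp (1 / 2)) *
            (ENNReal.ofReal (Real.sqrt (2 * Real.pi)) * f b) := by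
        rw [← h b hb, ← lintegral_add_right_eq_self _ (qq N p b),
          ← lintegral_const_mul' _ _ ENNReal.ofReal_ne_top, ← lintegral_indicator measurableSet_Ioi]
        refine lintegral_congr fun σ => ?_
        by_cases hσ : 0 < σ
        · have hp := (J4.posDef_iff hb σ).2 hσ
          rw [hup] at hp
          rw [Set.indicator_of_mem (show σ ∈ Set.Ioi (0 : ℝ) from hσ), hg1,
            Set.indicator_of_mem (show Function.update a p (σ + qq N p b) ∈
              {a : V → ℝ | (HM N a).PosDef} from hp)]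
          have := J4.wA_eq hb hbp hσ
          rw [hup] at this ⊢
          rw [this, ENNReal.ofReal_mul (by positivity)]
          ring
        · rw [Set.indicator_of_notMem (show σ ∉ Set.Ioi (0 : ℝ) from hσ), hg1,
            Set.indicator_of_notMem]
          intro hp
          refine hσ ((J4.posDef_iff hb σ).1 ?_)
          rw [hup]; exact hp
      have e2 : ∫⁻ s, g2 (Function.update a p s) =
          ENNReal.ofReal (wA (N.mg p) b * Real.exp (1 / 2)) *
            (ENNReal.ofReal (Real.sqrt (2 * Real.pi)) * f b) := by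
        rw [← J4.int_one, mul_comm (∫⁻ _ in _, _) (f b), ← mul_assoc,
          ← lintegral_const_mul'' _ (by fun_prop), ← lintegral_indicator measurableSet_Ioi]
        refine lintegral_congr fun σ => ?_
        by_cases hσ : 0 < σ
        · have hp := (J4.posDef_mg_iff hb σ).2 hσ
          rw [hup] at hp
          rw [Set.indicator_of_mem (show σ ∈ Set.Ioi (0 : ℝ) from hσ), hg2,
            Set.indicator_of_mem (show Function.update a p σ ∈
              {a : V → ℝ | (HM (N.mg p) a).PosDef} from hp)]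
          have := J4.wA_mg hb hbp hσ
          rw [hup] at this
          rw [this, ENNReal.ofReal_mul (by positivity), hfb]
          ring
        · rw [Set.indicator_of_notMem (show σ ∉ Set.Ioi (0 : ℝ) from hσ), hg2,
            Set.indicator_of_notMem]
          intro hp
          refine hσ ((J4.posDef_mg_iff hb σ).1 ?_)
          rw [hup]; exact hp
      rw [e1, e2]
    · have z1 : ∀ s, g1 (Function.update a p s) = 0 := by
        intro s
        refine Set.indicator_of_notMem ?_ _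
        intro hp
        exact hb (J4.posDef_of_update hp)
      have z2 : ∀ s, g2 (Function.update a p s) = 0 := by
        intro s
        refine Set.indicator_of_notMem ?_ _
        intro hp
        exact hb (J4.posDef_of_update_mg hp)
      simp only [z1, z2]
  rw [J4.IA_eq, J4.IA_eq, ← hg1, ← hg2, volume_pi, lintegral_eq_lmarginal_univ (fun _ => 0),
    lintegral_eq_lmarginal_univ (fun _ => 0), lmarginal_erase' _ m1 (Finset.mem_univ p),
    lmarginal_erase' _ m2 (Finset.mem_univ p)]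
  simp only [key]

theorem inv_update (N : Net V) (p : V) (a : V → ℝ) (ha : (HM (N.mg p) a).PosDef) (σ : ℝ) (hσ : 0 < σ) :
    (HM N (Function.update a p (σ + qq N p a))).PosDef ∧
    (HM N (Function.update a p (σ + qq N p a)))⁻¹ p p = 1 / σ ∧
    (∀ x, x ≠ p → (HM N (Function.update a p (σ + qq N p a)))⁻¹ x p = uu N p a x / σ) ∧
    (∀ x z, x ≠ p → z ≠ p → (HM N (Function.update a p (σ + qq N p a)))⁻¹ x z =
      (HM (N.mg p) a)⁻¹ x z + uu N p a x * uu N p a z / σ) := by
  have hcol : ∀ x, (HM (N.mg p) a)⁻¹ x p = (a p)⁻¹ * J4.ee p x := by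
    intro x
    have h1 := congrFun (J4.Dinv_ee ha) x
    unfold J4.ee at h1 ⊢
    rw [Matrix.mulVec_single_one] at h1
    simpa using h1
  refine ⟨(J4.posDef_iff ha σ).2 hσ, ?_, ?_, ?_⟩
  · rw [J4.inv_eq ha hσ]
    simp only [Matrix.add_apply, Matrix.sub_apply, Matrix.smul_apply, vecMulVec_apply,
      Pi.add_apply, smul_eq_mul, hcol, J4.ee_apply, J4.uu_p]
    simp
  · intro x hx
    rw [J4.inv_eq ha hσ]
    simp only [Matrix.add_apply, Matrix.sub_apply, Matrix.smul_apply, vecMulVec_apply,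
      Pi.add_apply, smul_eq_mul, hcol, J4.ee_apply, J4.uu_p, hx]
    simp
    ring
  · intro x z hx hz
    rw [J4.inv_eq ha hσ]
    simp only [Matrix.add_apply, Matrix.sub_apply, Matrix.smul_apply, vecMulVec_apply,
      Pi.add_apply, smul_eq_mul, J4.ee_apply, J4.uu_p, hx, hz]
    simp
    ring

end Pool.Agent.TH369.AG
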