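import Pool.Agent.TH369.AG.Defs2

set_option autoImplicit false

/-!
# Forests of a multigraph by linear independence: deletion and contraction
-/

namespace Pool.Agent.TH369.AG

open MeasureTheory Matrix

variable {X E : Type} [Fintype X] [DecidableEq X] [Fintype E] [DecidableEq E]

namespace J8

/-- the linear map induced by a map of the vertices -/
noncomputable def push {Y : Type} [DecidableEq Y] (j : X → Y) : (X → ℝ) →ₗ[ℝ] (Y → ℝ) where
  toFun f := fun y => ∑ x, if j x = y then f x else 0
  map_add' f g := by
    funext y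
    simp only [Pi.add_apply]
    rw [← Finset.sum_add_distrib]
    refine Finset.sum_congr rfl fun x _ => ?_
    split_ifs <;> simp
  map_smul' a f := by
    funext y
    simp only [Pi.smul_apply, smul_eq_mul, RingHom.id_apply]
    rw [Finset.mul_sum]
    refine Finset.sum_congr rfl fun x _ => ?_
    split_ifs <;> simp

theorem push_apply {Y : Type} [DecidableEq Y] (j : X → Y) (f : X → ℝ) (y : Y) :
    push j f y = ∑ x, if j x = y then f x else 0 := rfl

theorem push_single {Y : Type} [DecidableEq Y] (j : X → Y) (x : X) :
    push j (Pi.single x 1) = Pi.single (j x) 1 := by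
  funext y
  rw [push_apply, Finset.sum_eq_single x]
  · by_cases h : j x = y
    · subst h; simp
    · rw [if_neg h, Pi.single_eq_of_ne (Ne.symm h)]
  · intro b _ hb
    rw [Pi.single_eq_of_ne hb]
    simp
  · intro h; exact absurd (Finset.mem_univ x) h

theorem push_sub {Y : Type} [DecidableEq Y] (j : X → Y) (x y : X) :
    push j (Pi.single x 1 - Pi.single y 1) = Pi.single (j x) 1 - Pi.single (j y) 1 := by
  rw [map_sub, push_single, push_single]

omit [Fintype E] [DecidableEq E] in
theorem push_vec {Y : Type} [DecidableEq Y] (j : X → Y) (s t : E → X) :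
    vec (j ∘ s) (j ∘ t) = push j ∘ vec s t := by
  funext e
  show Pi.single (j (s e)) 1 - Pi.single (j (t e)) 1 = push j (Pi.single (s e) 1 -
    Pi.single (t e) 1)
  rw [push_sub]

omit [Fintype E] [DecidableEq E] in
theorem span_push {Y : Type} [DecidableEq Y] (j : X → Y) (s t : E → X) (A : Set E) :
    Submodule.span ℝ (vec (j ∘ s) (j ∘ t) '' A) =
      (Submodule.span ℝ (vec s t '' A)).map (push j) := by
  rw [push_vec, Set.image_comp, Submodule.map_span]

theorem ker_push (u v : X) (f : X → ℝ) (h : push (cl u v) f = 0) :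
    ∃ a : ℝ, f = a • (Pi.single u 1 - Pi.single v 1) := by
  refine ⟨f u, ?_⟩
  have key : ∀ y, y ≠ u → y ≠ v → f y = 0 := by
    intro y hyu hyv
    have h1 := congrFun h y
    rw [push_apply, Finset.sum_eq_single y] at h1
    · have : cl u v y = y := by unfold cl; rw [if_neg hyu]
      rw [if_pos this] at h1
      exact h1
    · intro b _ hb
      apply if_neg
      unfold cl
      split_ifs with hbu
      · exact fun h' => hyv h'.symm
      · exact hb
    · intro h'; exact absurd (Finset.mem_univ y) h'
  by_cases huv : u = v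
  · subst huv
    have h1 := congrFun h u
    rw [push_apply, Finset.sum_eq_single u] at h1
    · have : cl u u u = u := by unfold cl; rw [if_pos rfl]
      rw [if_pos this] at h1
      funext y
      by_cases hy : y = u
      · subst hy; rw [h1]; simp
      · rw [key y hy hy]; simp
    · intro b _ hb
      apply if_neg
      unfold cl
      rw [if_neg hb]
      exact hb
    · intro h'; exact absurd (Finset.mem_univ u) h'
  · have h1 := congrFun h v
    rw [push_apply, ← Finset.add_sum_erase _ _ (Finset.mem_univ u),
      ← Finset.add_sum_erase _ _ (Finset.mem_erase.2 ⟨Ne.symm huv, Finset.mem_univ v⟩),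
      Finset.sum_eq_zero] at h1
    · have e1 : cl u v u = v := by unfold cl; rw [if_pos rfl]
      have e2 : cl u v v = v := by unfold cl; rw [if_neg (Ne.symm huv)]
      rw [if_pos e1, if_pos e2, add_zero] at h1
      have h2 : f v = - f u := by
        have : f u + f v = 0 := h1
        linarith
      funext y
      by_cases hy : y = u
      · subst hy
        simp [Pi.single_eq_of_ne huv]
      · by_cases hy2 : y = v
        · subst hy2
          rw [h2]
          simp [Pi.single_eq_of_ne hy]
        · rw [key y hy hy2]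
          simp [Pi.single_eq_of_ne hy, Pi.single_eq_of_ne hy2]
    · intro b hb
      rw [Finset.mem_erase, Finset.mem_erase] at hb
      apply if_neg
      unfold cl
      rw [if_neg hb.2.1]
      exact hb.1

theorem push_d (u v : X) : push (cl u v) (Pi.single u 1 - Pi.single v 1) = 0 := by
  rw [push_sub]
  have h1 : cl u v u = v := by unfold cl; rw [if_pos rfl]
  have h2 : cl u v v = v := by unfold cl; split_ifs <;> rfl
  rw [h1, h2, sub_self]

theorem d_ne (u v : X) (h : u ≠ v) : (Pi.single u 1 - Pi.single v 1 : X → ℝ) ≠ 0 := by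
  intro h0
  have := congrFun h0 u
  simp [Pi.single_eq_of_ne h] at this

omit [Fintype E] [DecidableEq E] in
theorem key (s t : E → X) (A : Finset E) (u v : X) (huv : u ≠ v) :
    IsF (cl u v ∘ s) (cl u v ∘ t) A ↔ IsF s t A ∧ ¬ Cn s t A u v := by
  unfold IsF Cn
  rw [push_vec]
  constructor
  · intro h
    refine ⟨?_, ?_⟩
    · exact LinearIndepOn.of_comp _ h
    · intro hmem
      rw [Finsupp.mem_span_image_iff_linearCombination] at hmem
      obtain ⟨l, hl, hl2⟩ := hmem
      rw [linearIndepOn_iff] at h
      have h1 : Finsupp.linearCombination ℝ (push (cl u v) ∘ vec s t) l = 0 := by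
        have h2 := congrArg (push (cl u v)) hl2
        rw [push_d] at h2
        rw [← h2, Finsupp.linearCombination_apply, Finsupp.linearCombination_apply,
          Finsupp.sum, Finsupp.sum, map_sum]
        refine Finset.sum_congr rfl fun e _ => ?_
        rw [map_smul]
        rfl
      have h3 := h l hl h1
      rw [h3, map_zero] at hl2
      exact d_ne u v huv hl2.symm
  · rintro ⟨h1, h2⟩
    rw [LinearMap.linearIndepOn_iff_of_injOn]
    · exact h1
    · intro x hx y hy hxy
      have h3 : push (cl u v) (x - y) = 0 := by rw [map_sub, hxy, sub_self]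
      obtain ⟨a, ha⟩ := ker_push u v _ h3
      by_cases ha0 : a = 0
      · rw [ha0, zero_smul] at ha
        exact sub_eq_zero.1 ha
      · exfalso
        apply h2
        have h4 : (Pi.single u 1 - Pi.single v 1 : X → ℝ) = a⁻¹ • (x - y) := by
          rw [ha, smul_smul, inv_mul_cancel₀ ha0, one_smul]
        rw [h4]
        exact Submodule.smul_mem _ _ (Submodule.sub_mem _ hx hy)

end J8

open J8

theorem IsF_insert (s t : E → X) (A : Finset E) (e : E) (he : e ∉ A) (hst : s e ≠ t e) :
    (IsF s t (insert e A) ↔ IsF s t A ∧ ¬ Cn s t A (s e) (t e)) ∧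
    (IsF s t (insert e A) ↔
      IsF (cl (s e) (t e) ∘ s) (cl (s e) (t e) ∘ t) A) := by
  have h1 : IsF s t (insert e A) ↔ IsF s t A ∧ ¬ Cn s t A (s e) (t e) := by
    unfold IsF Cn
    rw [Finset.coe_insert, linearIndepOn_insert (by simpa using he)]
    rfl
  exact ⟨h1, by rw [h1, key s t A (s e) (t e) hst]⟩

theorem Cn_insert (s t : E → X) (A : Finset E) (e : E) (x y : X) :
    Cn s t (insert e A) x y ↔
      Cn (cl (s e) (t e) ∘ s) (cl (s e) (t e) ∘ t) A (cl (s e) (t e) x) (cl (s e) (t e) y) := by
  unfold Cn
  rw [span_push, ← push_sub, Finset.coe_insert, Set.image_insert_eq,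
    Submodule.mem_span_insert', Submodule.mem_map]
  have hv : vec s t e = Pi.single (s e) 1 - Pi.single (t e) 1 := rfl
  constructor
  · rintro ⟨a, ha⟩
    refine ⟨_, ha, ?_⟩
    rw [map_add, map_smul, hv, push_d, smul_zero, add_zero]
  · rintro ⟨w, hw, hw2⟩
    have h3 : push (cl (s e) (t e)) (w - (Pi.single x 1 - Pi.single y 1)) = 0 := by
      rw [map_sub, hw2, sub_self]
    obtain ⟨a, ha⟩ := ker_push _ _ _ h3
    refine ⟨a, ?_⟩
    rw [hv, ← ha, add_sub_cancel]
    exact hw

/-- deletion-contraction -/
theorem FS_insert (s t : E → X) (w : E → ℝ) (S : Finset E) (e : E) (he : e ∉ S) (x y : X) :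
    FS s t w (insert e S) (fun A => Cn s t A x y) =
      FS s t w S (fun A => Cn s t A x y) + (if s e = t e then 0 else
        w e * FS (cl (s e) (t e) ∘ s) (cl (s e) (t e) ∘ t) w S
          (fun A => Cn (cl (s e) (t e) ∘ s) (cl (s e) (t e) ∘ t) A
            (cl (s e) (t e) x) (cl (s e) (t e) y))) := by
  classical
  unfold FS
  rw [Finset.sum_filter, Finset.sum_filter, Finset.sum_powerset_insert he]
  congr 1
  by_cases hst : s e = t e
  · rw [if_pos hst]
    apply Finset.sum_eq_zero
    intro A _
    apply if_neg
    rintro ⟨h1, _⟩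
    have h2 : vec s t e = 0 := by
      show (Pi.single (s e) 1 - Pi.single (t e) 1 : X → ℝ) = 0
      rw [hst, sub_self]
    have h3 := LinearIndepOn.ne_zero h1 (i := e) (by simp)
    exact h3 h2
  · rw [if_neg hst, Finset.sum_filter, Finset.mul_sum]
    refine Finset.sum_congr rfl ?_
    intro A hA
    have heA : e ∉ A := fun h => he (Finset.mem_powerset.1 hA h)
    have h1 : (IsF s t (insert e A) ∧ Cn s t (insert e A) x y) ↔
        (IsF (cl (s e) (t e) ∘ s) (cl (s e) (t e) ∘ t) A ∧
          Cn (cl (s e) (t e) ∘ s) (cl (s e) (t e) ∘ t) A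
            (cl (s e) (t e) x) (cl (s e) (t e) y)) := by
      rw [(IsF_insert s t A e heA hst).2, Cn_insert]
    by_cases hc : (IsF s t (insert e A) ∧ Cn s t (insert e A) x y)
    · rw [if_pos hc, if_pos (h1.1 hc), Finset.prod_insert heA]
    · rw [if_neg hc, if_neg (fun h => hc (h1.2 h)), mul_zero]

/-- the forests in which `u` and `v` are not connected are the forests of the graph in which they
are merged -/
theorem FS_merge (s t : E → X) (w : E → ℝ) (S : Finset E) (u v : X) (huv : u ≠ v)
    (P : Finset E → Prop) :
    FS (cl u v ∘ s) (cl u v ∘ t) w S P = FS s t w S (fun A => ¬ Cn s t A u v ∧ P A) := by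
  classical
  unfold FS
  rw [Finset.sum_filter, Finset.sum_filter]
  refine Finset.sum_congr rfl ?_
  intro A _
  have h1 : (IsF (cl u v ∘ s) (cl u v ∘ t) A ∧ P A) ↔
      (IsF s t A ∧ (¬ Cn s t A u v ∧ P A)) := by
    rw [key s t A u v huv, and_assoc]
  by_cases hc : (IsF (cl u v ∘ s) (cl u v ∘ t) A ∧ P A)
  · rw [if_pos hc, if_pos (h1.1 hc)]
  · rw [if_neg hc, if_neg (fun h => hc (h1.2 h))]

namespace J8

theorem push_inj {Y : Type} [DecidableEq Y] (j : X → Y) (hj : Function.Injective j) :
    Function.Injective (push j) := by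
  intro f g h
  funext x
  have key : ∀ f : X → ℝ, push j f (j x) = f x := by
    intro f
    rw [push_apply, Finset.sum_eq_single x]
    · rw [if_pos rfl]
    · intro b _ hb
      exact if_neg (fun h' => hb (hj h'))
    · intro h'; exact absurd (Finset.mem_univ x) h'
  rw [← key f, ← key g, h]

end J8

/-- an injective map of the vertices does not change anything -/
theorem IsF_comp {Y : Type} [Fintype Y] [DecidableEq Y] (j : X → Y) (hj : Function.Injective j)
    (s t : E → X) (A : Finset E) : IsF (j ∘ s) (j ∘ t) A ↔ IsF s t A := by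
  unfold IsF
  rw [push_vec, LinearMap.linearIndepOn_iff_of_injOn]
  exact (push_inj j hj).injOn

theorem Cn_comp {Y : Type} [Fintype Y] [DecidableEq Y] (j : X → Y) (hj : Function.Injective j)
    (s t : E → X) (A : Finset E) (x y : X) : Cn (j ∘ s) (j ∘ t) A (j x) (j y) ↔ Cn s t A x y := by
  unfold Cn
  rw [span_push, ← push_sub, Submodule.mem_map]
  constructor
  · rintro ⟨w, hw, hw2⟩
    rwa [← push_inj j hj hw2]
  · intro h
    exact ⟨_, h, rfl⟩

/-- path characterisation of `Cn` -/
theorem Cn_iff (s t : E → X) (A : Finset E) (x y : X) :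
    Cn s t A x y ↔ Relation.EqvGen (fun u v => ∃ e ∈ A, s e = u ∧ t e = v) x y := by
  classical
  constructor
  · intro h
    obtain ⟨R, hR⟩ : ∃ R, R = Relation.EqvGen (fun u v => ∃ e ∈ A, s e = u ∧ t e = v) := ⟨_, rfl⟩
    let φ : (X → ℝ) →ₗ[ℝ] ℝ :=
      { toFun := fun f => ∑ z, if R x z then f z else 0
        map_add' := by
          intro f g
          rw [← Finset.sum_add_distrib]
          refine Finset.sum_congr rfl fun z _ => ?_
          split_ifs <;> simp
        map_smul' := by
          intro a f
          simp only [Pi.smul_apply, smul_eq_mul, RingHom.id_apply]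
          rw [Finset.mul_sum]
          refine Finset.sum_congr rfl fun z _ => ?_
          split_ifs <;> simp }
    have hφ : ∀ z, φ (Pi.single z 1) = if R x z then 1 else 0 := by
      intro z
      show (∑ z', if R x z' then (Pi.single z 1 : X → ℝ) z' else 0) = _
      rw [Finset.sum_eq_single z]
      · simp
      · intro b _ hb
        rw [Pi.single_eq_of_ne hb]
        simp
      · intro h'; exact absurd (Finset.mem_univ z) h'
    have hspan : Submodule.span ℝ (vec s t '' (A : Set E)) ≤ LinearMap.ker φ := by
      rw [Submodule.span_le]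
      rintro _ ⟨e, he, rfl⟩
      show φ (Pi.single (s e) 1 - Pi.single (t e) 1) = 0
      rw [map_sub, hφ, hφ]
      have hrel : R (s e) (t e) := by
        rw [hR]
        exact Relation.EqvGen.rel _ _ ⟨e, he, rfl, rfl⟩
      have hiff : R x (s e) ↔ R x (t e) := by
        rw [hR] at hrel ⊢
        exact ⟨fun h' => Relation.EqvGen.trans _ _ _ h' hrel,
          fun h' => Relation.EqvGen.trans _ _ _ h' (Relation.EqvGen.symm _ _ hrel)⟩
      by_cases hc : R x (s e)
      · rw [if_pos hc, if_pos (hiff.1 hc), sub_self]
      · rw [if_neg hc, if_neg (fun h' => hc (hiff.2 h')), sub_self]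
    have h1 : φ (Pi.single x 1 - Pi.single y 1) = 0 := hspan h
    have hxx : R x x := by
      rw [hR]
      exact Relation.EqvGen.refl x
    rw [map_sub, hφ, hφ, if_pos hxx] at h1
    rw [← hR]
    by_contra hc
    rw [if_neg hc] at h1
    norm_num at h1
  · intro h
    unfold Cn
    induction h with
    | rel u v h =>
      obtain ⟨e, he, rfl, rfl⟩ := h
      exact Submodule.subset_span ⟨e, he, rfl⟩
    | refl u => rw [sub_self]; exact Submodule.zero_mem _
    | symm u v _ ih =>
      have := Submodule.neg_mem _ ih
      rwa [neg_sub] at this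
    | trans u v w _ _ ih1 ih2 =>
      have := Submodule.add_mem _ ih1 ih2
      rwa [sub_add_sub_cancel] at this

end Pool.Agent.TH369.AG
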