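import Pool.Agent.TH369.AG.Defs3
import Pool.Agent.TH369.AG.J1
import Pool.Agent.TH369.AG.J2
import Pool.Agent.TH369.AG.J4
import Pool.Agent.TH369.AG.J8

/-!
# ARBOREAL-10: the integral `IA` is the generating function of forests
-/

set_option autoImplicit false
set_option linter.unusedSectionVars false
namespace Pool.Agent.TH369.AG
open MeasureTheory Matrix

variable {V E : Type} [Fintype V] [DecidableEq V] [Fintype E] [DecidableEq E]

namespace J10

theorem lintegral_fin_prod {n : ℕ} (μ : Fin n → Measure ℝ)
    [∀ i, SigmaFinite (μ i)] (f : Fin n → ℝ → ENNReal) (hf : ∀ i, Measurable (f i)) :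
    ∫⁻ x : Fin n → ℝ, ∏ i, f i (x i) ∂(Measure.pi μ) = ∏ i, ∫⁻ x, f i x ∂(μ i) := by
  induction n with
  | zero => simp
  | succ n n_ih =>
      calc
        _ = ∫⁻ x : ℝ × (Fin n → ℝ),
            f 0 x.1 * ∏ i : Fin n, f (Fin.succ i) (x.2 i)
            ∂((μ 0).prod (Measure.pi (fun i ↦ μ i.succ))) := by
          rw [← ((measurePreserving_piFinSuccAbove μ 0).symm).lintegral_comp_emb
            (MeasurableEquiv.measurableEmbedding _)]
          simp_rw [MeasurableEquiv.piFinSuccAbove_symm_apply, Fin.insertNthEquiv,
            Fin.prod_univ_succ, Fin.insertNth_zero, Equiv.coe_fn_mk, Fin.cons_succ,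
            Fin.zero_succAbove, cast_eq, Fin.cons_zero]
        _ = (∫⁻ x, f 0 x ∂μ 0)
            * ∏ i : Fin n, ∫⁻ (x : ℝ), f (Fin.succ i) x ∂(μ i.succ) := by
          rw [← n_ih (fun i => μ i.succ) (fun i => f i.succ) (fun i => hf _)]
          exact lintegral_prod_mul (hf 0).aemeasurable (Finset.measurable_prod _ (fun i _ =>
            (hf _).comp (measurable_pi_apply i))).aemeasurable
        _ = ∏ i, ∫⁻ x, f i x ∂(μ i) := by rw [Fin.prod_univ_succ]

theorem lintegral_fintype_prod {ι : Type*} [Fintype ι] (μ : ι → Measure ℝ)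
    [∀ i, SigmaFinite (μ i)] (f : ι → ℝ → ENNReal) (hf : ∀ i, Measurable (f i)) :
    ∫⁻ x : ι → ℝ, ∏ i, f i (x i) ∂(Measure.pi μ) = ∏ i, ∫⁻ x, f i x ∂(μ i) := by
  let e := (Fintype.equivFin ι).symm
  rw [← (measurePreserving_piCongrLeft _ e).lintegral_comp_emb
    (MeasurableEquiv.measurableEmbedding _)]
  simp_rw [← e.prod_comp, MeasurableEquiv.coe_piCongrLeft, Equiv.piCongrLeft_apply_apply]
  exact lintegral_fin_prod (fun i => μ (e i)) (fun i => f (e i)) (fun i => hf _)

omit [Fintype V] [DecidableEq V] in
theorem net_ext (N N' : Net V) (hB : ∀ x z, N.B x z = N'.B x z) (hr : ∀ x, N.r x = N'.r x) :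
    N = N' := by
  have h1 : N.B = N'.B := by funext x z; exact hB x z
  have h2 : N.r = N'.r := funext hr
  cases N; cases N'
  cases h1; cases h2
  rfl

/-! ### measurability -/

theorem continuous_HM (N : Net V) : Continuous fun a : V → ℝ => HM N a := by
  unfold HM
  apply Continuous.sub
  · exact continuous_id.matrix_diagonal
  · exact continuous_const

theorem measurable_inv_apply (N : Net V) (x z : V) :
    Measurable fun a : V → ℝ => (HM N a)⁻¹ x z := by
  have h1 : Continuous fun a : V → ℝ => (HM N a).det := (continuous_HM N).matrix_det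
  have h2 : Continuous fun a : V → ℝ => (HM N a).adjugate x z :=
    (continuous_HM N).matrix_adjugate.matrix_elem x z
  have h3 : (fun a : V → ℝ => (HM N a)⁻¹ x z) =
      fun a => ((HM N a).det)⁻¹ * (HM N a).adjugate x z := by
    funext a
    rw [Matrix.inv_def, Matrix.smul_apply, Ring.inverse_eq_inv', smul_eq_mul]
  rw [h3]
  exact h1.measurable.inv.mul h2.measurable

theorem measurable_inv_mulVec (N : Net V) (v : V → ℝ) (x : V) :
    Measurable fun a : V → ℝ => ((HM N a)⁻¹ *ᵥ v) x := by
  simp only [Matrix.mulVec, dotProduct]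
  exact Finset.measurable_sum _ fun z _ => (measurable_inv_apply N x z).mul_const _

theorem measurable_wA (N : Net V) : Measurable fun a : V → ℝ => wA N a := by
  unfold wA
  have h1 : Continuous fun a : V → ℝ => (HM N a).det := (continuous_HM N).matrix_det
  have h2 : Measurable fun a : V → ℝ => ∑ x, ∑ z, HM N a x z :=
    Finset.measurable_sum _ fun x _ => Finset.measurable_sum _ fun z _ =>
      ((continuous_HM N).matrix_elem x z).measurable
  have h3 : Measurable fun a : V → ℝ => N.r ⬝ᵥ (HM N a)⁻¹ *ᵥ N.r := by
    simp only [dotProduct]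
    exact Finset.measurable_sum _ fun x _ => (measurable_inv_mulVec N N.r x).const_mul _
  exact (h1.measurable.sqrt).mul
    (((h2.const_mul _).sub (h3.const_mul _)).add_const _).exp

theorem measurable_cc (N : Net V) (p : V) : Measurable fun a : V → ℝ => cc N p a := by
  unfold cc uu
  apply Measurable.const_add
  apply Finset.measurable_sum
  intro x _
  by_cases h : x = p
  · simp [h]
  · simp only [h, if_false]
    exact (measurable_inv_mulVec _ _ _).mul_const _

/-! ### the constant `cc` does not depend on `a p` -/

theorem mg_B_left (N : Net V) (p z : V) : (N.mg p).B p z = 0 := by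
  simp [Net.mg]

theorem mg_B_right (N : Net V) (p z : V) : (N.mg p).B z p = 0 := by
  simp [Net.mg]

theorem HM_mulVec (N : Net V) (a u : V → ℝ) (x : V) :
    (HM N a *ᵥ u) x = a x * u x - ∑ z, N.B x z * u z := J2.HM_mulVec N a u x

theorem uu_update (N : Net V) (p : V) (a : V → ℝ) (ha : (HM (N.mg p) a).PosDef) :
    uu N p (Function.update a p 1) = uu N p a := by
  have hap : 0 < a p := by
    have := ha.diag_pos (i := p)
    rw [J2.HM_apply, mg_B_left] at this
    simpa using this
  -- the matrix is invertible at the updated point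
  have hker : ∀ u : V → ℝ, HM (N.mg p) (Function.update a p 1) *ᵥ u = 0 → u = 0 := by
    intro u hu
    have hp : u p = 0 := by
      have := congrFun hu p
      rw [HM_mulVec] at this
      simpa [mg_B_left] using this
    have hu2 : HM (N.mg p) a *ᵥ u = 0 := by
      funext x
      have := congrFun hu x
      rw [HM_mulVec] at this ⊢
      by_cases hx : x = p
      · subst hx
        simp [hp, mg_B_left]
      · rw [Function.update_of_ne hx] at this
        exact this
    have := J2.mulVec_inv (N.mg p) ha (0 : V → ℝ)
    have hinj : (HM (N.mg p) a).det ≠ 0 := ha.det_pos.ne'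
    by_contra hne
    exact hinj (Matrix.exists_mulVec_eq_zero_iff.mp ⟨u, hne, hu2⟩)
  have hdet : (HM (N.mg p) (Function.update a p 1)).det ≠ 0 := by
    intro h0
    obtain ⟨v, hv, hv2⟩ := Matrix.exists_mulVec_eq_zero_iff.mpr h0
    exact hv (hker v hv2)
  have hunit : IsUnit (HM (N.mg p) (Function.update a p 1)).det := isUnit_iff_ne_zero.mpr hdet
  set β : V → ℝ := fun z => N.B p z with hβ
  have hβp : β p = 0 := N.diag p
  set u := (HM (N.mg p) a)⁻¹ *ᵥ β with hu
  have hu1 : HM (N.mg p) a *ᵥ u = β := J2.mulVec_inv (N.mg p) ha β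
  have hup : u p = 0 := by
    have := congrFun hu1 p
    rw [HM_mulVec] at this
    simp only [mg_B_left, zero_mul, Finset.sum_const_zero, sub_zero, hβp] at this
    rcases mul_eq_zero.mp this with h | h
    · exact absurd h hap.ne'
    · exact h
  have hu2 : HM (N.mg p) (Function.update a p 1) *ᵥ u = β := by
    funext x
    have := congrFun hu1 x
    rw [HM_mulVec] at this ⊢
    by_cases hx : x = p
    · subst hx
      simp [hup, mg_B_left, hβp]
    · rw [Function.update_of_ne hx]
      exact this
  have hu3 : (HM (N.mg p) (Function.update a p 1))⁻¹ *ᵥ β = u := by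
    rw [← hu2, Matrix.mulVec_mulVec, Matrix.nonsing_inv_mul _ hunit, Matrix.one_mulVec]
  funext x
  simp only [uu]
  rw [hu3]

theorem cc_update (N : Net V) (p : V) (a : V → ℝ) (ha : (HM (N.mg p) a).PosDef) :
    cc N p (Function.update a p 1) = cc N p a := by
  unfold cc
  rw [uu_update N p a ha]

theorem cc_nonneg (N : Net V) (p : V) (a : V → ℝ) (ha : (HM (N.mg p) a).PosDef) :
    0 ≤ cc N p a := by
  unfold cc
  apply add_nonneg (N.rn p)
  apply Finset.sum_nonneg
  intro x _
  apply mul_nonneg _ (N.rn x)
  unfold uu
  split_ifs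
  · exact le_rfl
  · simp only [Matrix.mulVec, dotProduct]
    exact Finset.sum_nonneg fun z _ => mul_nonneg (inv_nonneg_of_posDef _ _ ha x z) (N.nn p z)

/-- The version of `cc` which is nonnegative and does not depend on `a p` -/
noncomputable def cn (N : Net V) (p : V) (a : V → ℝ) : ℝ := max 0 (cc N p (Function.update a p 1))

theorem cn_eq (N : Net V) (p : V) (a : V → ℝ) (ha : (HM (N.mg p) a).PosDef) :
    cn N p a = cc N p a := by
  unfold cn
  rw [cc_update N p a ha, max_eq_right (cc_nonneg N p a ha)]

theorem measurable_cn (N : Net V) (p : V) : Measurable fun a : V → ℝ => cn N p a := by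
  unfold cn
  apply Measurable.max measurable_const
  refine (measurable_cc N p).comp (measurable_pi_lambda _ fun i => ?_)
  by_cases h : i = p
  · subst h
    simp
  · simp only [Function.update_of_ne h]
    exact measurable_pi_apply i

theorem cn_update (N : Net V) (p : V) (a : V → ℝ) (s : ℝ) :
    cn N p (Function.update a p s) = cn N p a := by
  unfold cn
  rw [Function.update_idem]

/-- elimination of one vertex with `Φ = 1` -/
theorem elim_one (N : Net V) (p : V) (c : ℝ) (hc : 0 ≤ c) (g : (V → ℝ) → ℝ) (hg : ∀ a, 0 ≤ g a)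
    (hgm : Measurable g) (hgp : ∀ a s, g (Function.update a p s) = g a)
    (h : ∀ a, (HM (N.mg p) a).PosDef → cc N p a = g a + c) :
    IA N (fun _ => 1) = IA (N.mg p) (fun a => ENNReal.ofReal (1 + g a)) +
      ENNReal.ofReal c * IA (N.mg p) (fun _ => 1) := by
  rw [elim N p (fun _ => 1) (fun a => ENNReal.ofReal (1 + g a) + ENNReal.ofReal c)
    measurable_const ((hgm.const_add 1).ennreal_ofReal.add_const _)
    (fun a s => by rw [hgp a s])]
  · unfold IA
    rw [← lintegral_const_mul' _ _ ENNReal.ofReal_ne_top, ← lintegral_add_left]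
    · apply lintegral_congr
      intro a
      ring
    · exact (measurable_wA _).ennreal_ofReal.mul (hgm.const_add 1).ennreal_ofReal
  · intro a ha
    have hcc := cc_nonneg N p a ha
    simp only [mul_one]
    rw [int_half _ hcc, h a ha, ENNReal.ofReal_mul (Real.sqrt_nonneg _),
      ← ENNReal.ofReal_add (by have := hg a; linarith) hc]
    congr 2
    ring

/-! ### weights -/

theorem wt_eq {X : Type} [DecidableEq X] (s t : E → X) (w : E → ℝ) (S : Finset E) (x y : X) :
    wt s t w S x y = ∑ e ∈ S, if ((s e = x ∧ t e = y) ∨ (s e = y ∧ t e = x)) then w e else 0 := by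
  unfold wt
  rw [Finset.sum_filter]

theorem wt_insert {X : Type} [DecidableEq X] (s t : E → X) (w : E → ℝ) (S : Finset E) (e : E)
    (he : e ∉ S) (x y : X) :
    wt s t w (insert e S) x y =
      (if ((s e = x ∧ t e = y) ∨ (s e = y ∧ t e = x)) then w e else 0) + wt s t w S x y := by
  rw [wt_eq, wt_eq, Finset.sum_insert he]

theorem netOf_B (s t : E → Option V) (w : E → ℝ) (hw : ∀ e, 0 ≤ w e) (S : Finset E) (x z : V) :
    (netOf s t w hw S).B x z = if x = z then 0 else wt s t w S (some x) (some z) := rfl

theorem netOf_r (s t : E → Option V) (w : E → ℝ) (hw : ∀ e, 0 ≤ w e) (S : Finset E) (x : V) :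
    (netOf s t w hw S).r x = wt s t w S (some x) none := rfl

end J10

open J10

/-! ### J10: the partition function -/

theorem netOf_mg (s t : E → Option V) (w : E → ℝ) (hw : ∀ e, 0 ≤ w e) (S : Finset E) (p : V) :
    (netOf s t w hw S).mg p = netOf (cl (some p) none ∘ s) (cl (some p) none ∘ t) w hw S := by
  have hcl : ∀ (o : Option V) (x : V), cl (some p) none o = some x ↔ (o = some x ∧ x ≠ p) := by
    intro o x
    unfold cl
    by_cases ho : o = some p
    · subst ho
      simp only [if_true]
      constructor
      · intro h; exact absurd h (by simp)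
      · rintro ⟨h1, h2⟩
        exact absurd (Option.some_injective _ h1).symm h2
    · simp only [ho, if_false]
      constructor
      · intro h
        refine ⟨h, ?_⟩
        rintro rfl
        exact ho h
      · exact fun h => h.1
  have hcl0 : ∀ (o : Option V), cl (some p) none o = none ↔ (o = none ∨ o = some p) := by
    intro o
    unfold cl
    by_cases ho : o = some p
    · simp [ho]
    · simp [ho]
  apply net_ext
  · intro x z
    rw [netOf_B]
    show (if x = p ∨ z = p then 0 else (netOf s t w hw S).B x z) = _
    rw [netOf_B, wt_eq, wt_eq]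
    by_cases hxz : x = z
    · simp [hxz]
    · rw [if_neg hxz, if_neg hxz]
      by_cases hp : x = p ∨ z = p
      · rw [if_pos hp]
        symm
        apply Finset.sum_eq_zero
        intro e _
        rw [if_neg]
        simp only [Function.comp_apply, hcl]
        rcases hp with rfl | rfl
        · tauto
        · tauto
      · rw [if_neg hp]
        push Not at hp
        apply Finset.sum_congr rfl
        intro e _
        simp only [Function.comp_apply, hcl]
        congr 1
        apply propext
        have h1 := hp.1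
        have h2 := hp.2
        tauto
  · intro x
    rw [netOf_r]
    show (if x = p then 0 else (netOf s t w hw S).r x + (netOf s t w hw S).B x p) = _
    rw [netOf_B, netOf_r, wt_eq, wt_eq, wt_eq]
    by_cases hx : x = p
    · rw [if_pos hx]
      symm
      apply Finset.sum_eq_zero
      intro e _
      rw [if_neg]
      simp only [Function.comp_apply, hcl, hcl0]
      tauto
    · rw [if_neg hx, if_neg hx, ← Finset.sum_add_distrib]
      apply Finset.sum_congr rfl
      intro e _
      simp only [Function.comp_apply, hcl, hcl0]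
      by_cases h1 : (s e = some x ∧ t e = none) ∨ (s e = none ∧ t e = some x)
      · rw [if_pos h1, if_neg, if_pos, add_zero]
        · tauto
        · rintro (⟨a, b⟩ | ⟨a, b⟩)
          · rcases h1 with ⟨c, d⟩ | ⟨c, d⟩
            · rw [b] at d; exact absurd d (by simp)
            · rw [a] at c; exact absurd c (by simp)
          · rcases h1 with ⟨c, d⟩ | ⟨c, d⟩
            · rw [b] at d; exact absurd d (by simp)
            · rw [a] at c; exact absurd c (by simp)
      · rw [if_neg h1, zero_add]
        congr 1
        apply propext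
        tauto

namespace J10

theorem FS_nonneg {X : Type} [Fintype X] [DecidableEq X] (s t : E → X) (w : E → ℝ)
    (hw : ∀ e, 0 ≤ w e) (S : Finset E) (P : Finset E → Prop) : 0 ≤ FS s t w S P := by
  unfold FS
  exact Finset.sum_nonneg fun A _ => Finset.prod_nonneg fun e _ => hw e

theorem Cn_self {X : Type} [Fintype X] [DecidableEq X] (s t : E → X) (A : Finset E) (x : X) :
    Cn s t A x x = True := by
  unfold Cn
  rw [sub_self]
  simp

theorem FS_insert_true {X : Type} [Fintype X] [DecidableEq X] [Nonempty X] (s t : E → X)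
    (w : E → ℝ) (S : Finset E) (e : E) (he : e ∉ S) :
    FS s t w (insert e S) (fun _ => True) =
      FS s t w S (fun _ => True) + (if s e = t e then 0 else
        w e * FS (cl (s e) (t e) ∘ s) (cl (s e) (t e) ∘ t) w S (fun _ => True)) := by
  obtain ⟨x⟩ := ‹Nonempty X›
  have h := FS_insert s t w S e he x x
  simp only [Cn_self] at h
  exact h

theorem Cn_comm {X : Type} [Fintype X] [DecidableEq X] (s t : E → X) (A : Finset E) (x y : X) :
    Cn s t A x y ↔ Cn s t A y x := by
  unfold Cn
  constructor
  · intro h
    have := Submodule.neg_mem _ h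
    rwa [neg_sub] at this
  · intro h
    have := Submodule.neg_mem _ h
    rwa [neg_sub] at this

theorem FS_merge_comm {X : Type} [Fintype X] [DecidableEq X] (s t : E → X)
    (w : E → ℝ) (S : Finset E) (u v : X) (huv : u ≠ v) :
    FS (cl u v ∘ s) (cl u v ∘ t) w S (fun _ => True) =
      FS (cl v u ∘ s) (cl v u ∘ t) w S (fun _ => True) := by
  rw [FS_merge s t w S u v huv, FS_merge s t w S v u huv.symm]
  congr 1
  funext A
  rw [Cn_comm s t A u v]

theorem FS_comp {X Y : Type} [Fintype X] [DecidableEq X] [Fintype Y] [DecidableEq Y]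
    (j : X → Y) (hj : Function.Injective j) (s t : E → X) (w : E → ℝ) (S : Finset E) :
    FS (j ∘ s) (j ∘ t) w S (fun _ => True) = FS s t w S (fun _ => True) := by
  unfold FS
  congr 1
  ext A
  simp only [Finset.mem_filter, IsF_comp j hj s t A]

/-! ### base case -/

theorem IA_empty (s t : E → Option V) (w : E → ℝ) (hw : ∀ e, 0 ≤ w e) :
    IA (netOf s t w hw ∅) (fun _ => 1) =
      ENNReal.ofReal (Real.sqrt (2 * Real.pi) ^ (Fintype.card V)) := by
  have hHM : ∀ a : V → ℝ, HM (netOf s t w hw ∅) a = diagonal a := by
    intro a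
    ext x z
    rw [J2.HM_apply, netOf_B, wt_eq, Matrix.diagonal_apply]
    simp
  have hset : {a : V → ℝ | (HM (netOf s t w hw ∅) a).PosDef} =
      Set.univ.pi (fun _ : V => Set.Ioi (0 : ℝ)) := by
    ext a
    rw [Set.mem_ofPred_eq, hHM, Matrix.posDef_diagonal_iff]
    simp
  have hr : (netOf s t w hw ∅).r = 0 := by
    funext x
    rw [netOf_r, wt_eq]
    simp
  unfold IA
  rw [hset]
  have hw1 : ∀ a ∈ Set.univ.pi (fun _ : V => Set.Ioi (0 : ℝ)),
      ENNReal.ofReal (wA (netOf s t w hw ∅) a) * 1 =
      ∏ i, ENNReal.ofReal (Real.sqrt (a i) * Real.exp (-((a i - 0) ^ 2 / (2 * a i)))) := by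
    intro a ha
    have ha' : ∀ i, 0 < a i := fun i => by
      have := ha i (Set.mem_univ i)
      simpa using this
    rw [mul_one, ← ENNReal.ofReal_prod_of_nonneg]
    · congr 1
      unfold wA
      rw [hHM, hr, Matrix.det_diagonal]
      rw [Finset.prod_mul_distrib, ← Real.exp_sum]
      congr 1
      · rw [Real.sqrt_eq_rpow, ← Real.finsetProd_rpow _ _ (fun i _ => (ha' i).le)]
        apply Finset.prod_congr rfl
        intro i _
        rw [Real.sqrt_eq_rpow]
      · congr 1
        have e1 : ∑ x, ∑ z, (diagonal a : Matrix V V ℝ) x z = ∑ x, a x := by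
          apply Finset.sum_congr rfl
          intro x _
          simp [Matrix.diagonal_apply]
        rw [e1]
        simp only [Pi.zero_apply, zero_dotProduct, Finset.sum_const_zero, mul_zero, sub_zero, add_zero]
        rw [Finset.mul_sum]
        apply Finset.sum_congr rfl
        intro i _
        have := (ha' i).ne'
        field_simp
    · intro i _
      exact mul_nonneg (Real.sqrt_nonneg _) (Real.exp_pos _).le
  rw [setLIntegral_congr_fun (MeasurableSet.univ_pi fun _ => measurableSet_Ioi) hw1,
    volume_pi, Measure.restrict_pi_pi, lintegral_fintype_prod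
      (fun _ : V => (volume : Measure ℝ).restrict (Set.Ioi 0))
      (fun _ x => ENNReal.ofReal (Real.sqrt x * Real.exp (-((x - 0) ^ 2 / (2 * x)))))
      (fun _ => by fun_prop)]
  simp only [int_half 0 le_rfl, add_zero, mul_one]
  rw [Finset.prod_const, Finset.card_univ, ENNReal.ofReal_pow (Real.sqrt_nonneg _)]

theorem FS_empty {X : Type} [Fintype X] [DecidableEq X] (s t : E → X) (w : E → ℝ) :
    FS s t w ∅ (fun _ => True) = 1 := by
  unfold FS
  rw [Finset.powerset_empty, Finset.filter_singleton, if_pos]
  · simp
  · refine ⟨?_, trivial⟩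
    unfold IsF
    simp

/-! ### adding an edge to the root -/

theorem netOf_insert_root (s t : E → Option V) (w : E → ℝ) (hw : ∀ e, 0 ≤ w e) (S : Finset E)
    (e : E) (he : e ∉ S) (p : V)
    (hst : (s e = none ∧ t e = some p) ∨ (s e = some p ∧ t e = none)) :
    (∀ x z, (netOf s t w hw (insert e S)).B x z = (netOf s t w hw S).B x z) ∧
    (∀ x, (netOf s t w hw (insert e S)).r x = (netOf s t w hw S).r x + if x = p then w e else 0) := by
  constructor
  · intro x z
    rw [netOf_B, netOf_B, wt_insert s t w S e he]
    by_cases hxz : x = z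
    · simp [hxz]
    · rw [if_neg hxz, if_neg hxz, if_neg, zero_add]
      rcases hst with ⟨h1, h2⟩ | ⟨h1, h2⟩
      · rw [h1, h2]; simp
      · rw [h1, h2]; simp
  · intro x
    rw [netOf_r, netOf_r, wt_insert s t w S e he, add_comm]
    congr 1
    by_cases hx : x = p
    · subst hx
      rw [if_pos rfl, if_pos]
      tauto
    · rw [if_neg hx, if_neg]
      have hx' : ¬ (p = x) := fun h => hx h.symm
      rcases hst with ⟨h1, h2⟩ | ⟨h1, h2⟩
      · rw [h1, h2]; simp [hx']
      · rw [h1, h2]; simp [hx']

theorem IA_root (s t : E → Option V) (w : E → ℝ) (hw : ∀ e, 0 ≤ w e) (S : Finset E)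
    (e : E) (he : e ∉ S) (p : V)
    (hst : (s e = none ∧ t e = some p) ∨ (s e = some p ∧ t e = none)) :
    IA (netOf s t w hw (insert e S)) (fun _ => 1) = IA (netOf s t w hw S) (fun _ => 1) +
      ENNReal.ofReal (w e) *
        IA (netOf (cl (some p) none ∘ s) (cl (some p) none ∘ t) w hw S) (fun _ => 1) := by
  set N := netOf s t w hw S with hN
  set N' := netOf s t w hw (insert e S) with hN'
  obtain ⟨hB, hr⟩ := netOf_insert_root s t w hw S e he p hst
  have hmg : N'.mg p = N.mg p := by
    apply net_ext
    · intro x z
      show (if x = p ∨ z = p then 0 else N'.B x z) = (if x = p ∨ z = p then 0 else N.B x z)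
      rw [hB]
    · intro x
      show (if x = p then 0 else N'.r x + N'.B x p) = (if x = p then 0 else N.r x + N.B x p)
      by_cases hx : x = p
      · simp [hx]
      · rw [if_neg hx, if_neg hx, hr, hB, if_neg hx, add_zero]
  have huu : ∀ a, uu N' p a = uu N p a := by
    intro a
    funext x
    unfold uu
    rw [hmg]
    have : (fun z => N'.B p z) = fun z => N.B p z := by
      funext z
      exact hB p z
    rw [this]
  have hcc : ∀ a, cc N' p a = cc N p a + w e := by
    intro a
    unfold cc
    rw [huu, hr, if_pos rfl]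
    have : ∑ x, uu N p a x * N'.r x = ∑ x, uu N p a x * N.r x := by
      apply Finset.sum_congr rfl
      intro x _
      by_cases hx : x = p
      · subst hx
        simp [uu]
      · rw [hr, if_neg hx, add_zero]
    rw [this]
    ring
  have h1 := elim_one N' p (w e) (hw e) (cn N p) (fun a => le_max_left _ _) (measurable_cn N p)
    (cn_update N p) (fun a ha => by
      rw [hmg] at ha
      rw [hcc, cn_eq N p a ha])
  have h2 := elim_one N p 0 le_rfl (cn N p) (fun a => le_max_left _ _) (measurable_cn N p)
    (cn_update N p) (fun a ha => by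
      rw [cn_eq N p a ha, add_zero])
  rw [ENNReal.ofReal_zero, zero_mul, add_zero] at h2
  rw [h1, h2, hmg, ← netOf_mg s t w hw S p]

/-! ### exchanging a vertex and the root -/

theorem IA_swap (s t : E → Option V) (w : E → ℝ) (hw : ∀ e, 0 ≤ w e) (S : Finset E) (x : V) :
    IA (netOf (Equiv.swap none (some x) ∘ s) (Equiv.swap none (some x) ∘ t) w hw S) (fun _ => 1) =
      IA (netOf s t w hw S) (fun _ => 1) := by
  set τ := Equiv.swap (none : Option V) (some x) with hτ
  set N := netOf s t w hw S with hN
  set N' := netOf (τ ∘ s) (τ ∘ t) w hw S with hN'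
  have hwt : ∀ a b : Option V, wt (τ ∘ s) (τ ∘ t) w S a b = wt s t w S (τ a) (τ b) := by
    intro a b
    rw [wt_eq, wt_eq]
    apply Finset.sum_congr rfl
    intro e _
    have h : ∀ o o' : Option V, τ o = o' ↔ o = τ o' := by
      intro o o'
      constructor
      · intro h
        rw [← h, hτ, Equiv.swap_apply_self]
      · intro h
        rw [h, hτ, Equiv.swap_apply_self]
    simp only [Function.comp_apply, h]
  have hτx : τ (some x) = none := Equiv.swap_apply_right _ _
  have hτn : τ none = some x := Equiv.swap_apply_left _ _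
  have hτo : ∀ b : V, b ≠ x → τ (some b) = some b := by
    intro b hb
    apply Equiv.swap_apply_of_ne_of_ne
    · simp
    · intro h; exact hb (Option.some_injective _ h)
  have hB1 : ∀ a b, a ≠ x → b ≠ x → N'.B a b = N.B a b := by
    intro a b ha hb
    rw [hN', hN, netOf_B, netOf_B, hwt, hτo a ha, hτo b hb]
  have hB2 : ∀ b, b ≠ x → N'.B x b = N.r b := by
    intro b hb
    rw [hN', hN, netOf_B, netOf_r, hwt, hτx, hτo b hb, if_neg (Ne.symm hb), wt_comm]
  have hB2' : ∀ b, b ≠ x → N'.B b x = N.r b := by
    intro b hb
    rw [N'.symm, hB2 b hb]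
  have hr1 : ∀ b, b ≠ x → N'.r b = N.B b x := by
    intro b hb
    rw [hN', hN, netOf_B, netOf_r, hwt, hτn, hτo b hb, if_neg hb]
  have hr2 : N'.r x = N.r x := by
    rw [hN', hN, netOf_r, netOf_r, hwt, hτn, hτx, wt_comm]
  have hmg : N'.mg x = N.mg x := by
    apply net_ext
    · intro a b
      show (if a = x ∨ b = x then 0 else N'.B a b) = (if a = x ∨ b = x then 0 else N.B a b)
      by_cases h : a = x ∨ b = x
      · rw [if_pos h, if_pos h]
      · rw [if_neg h, if_neg h]
        push Not at h
        exact hB1 a b h.1 h.2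
    · intro a
      show (if a = x then 0 else N'.r a + N'.B a x) = (if a = x then 0 else N.r a + N.B a x)
      by_cases h : a = x
      · rw [if_pos h, if_pos h]
      · rw [if_neg h, if_neg h, hr1 a h, hB2' a h, add_comm]
  have hcc : ∀ a, cc N' x a = cc N x a := by
    intro a
    unfold cc
    rw [hr2]
    congr 1
    set G := (HM (N.mg x) a)⁻¹ with hG
    have hGs : Gᵀ = G := by
      rw [hG, Matrix.transpose_nonsing_inv]
      congr 1
      have := J2.HM_herm (N.mg x) a
      rw [Matrix.IsHermitian, Matrix.conjTranspose_eq_transpose_of_trivial] at this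
      exact this
    set β : V → ℝ := fun z => N.B x z with hβ
    set ρ : V → ℝ := fun z => if z = x then 0 else N.r z with hρ
    have hβ' : (fun z => N'.B x z) = ρ := by
      funext z
      by_cases hz : z = x
      · subst hz
        simp [hρ, N'.diag]
      · rw [hB2 z hz]; simp [hρ, hz]
    have e1 : ∑ y, uu N' x a y * N'.r y = (G *ᵥ ρ) ⬝ᵥ β := by
      rw [dotProduct]
      apply Finset.sum_congr rfl
      intro y _
      unfold uu
      rw [hmg, hβ']
      by_cases hy : y = x
      · subst hy
        simp [hβ, N.diag]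
      · rw [if_neg hy, hr1 y hy, N.symm y x]
    have e2 : ∑ y, uu N x a y * N.r y = (G *ᵥ β) ⬝ᵥ ρ := by
      rw [dotProduct]
      apply Finset.sum_congr rfl
      intro y _
      unfold uu
      by_cases hy : y = x
      · subst hy
        simp [hρ]
      · simp [hρ, hy, hβ, hG]
    rw [e1, e2, dotProduct_comm (G *ᵥ β) ρ, dotProduct_mulVec, ← Matrix.mulVec_transpose, hGs]
  have h1 := elim_one N' x 0 le_rfl (cn N x) (fun a => le_max_left _ _) (measurable_cn N x)
    (cn_update N x) (fun a ha => by
      rw [hmg] at ha
      rw [hcc, cn_eq N x a ha, add_zero])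
  have h2 := elim_one N x 0 le_rfl (cn N x) (fun a => le_max_left _ _) (measurable_cn N x)
    (cn_update N x) (fun a ha => by
      rw [cn_eq N x a ha, add_zero])
  rw [h1, h2, hmg]

/-- the induction step for an edge at the root -/
theorem step_root (s t : E → Option V) (w : E → ℝ) (hw : ∀ e, 0 ≤ w e) (S : Finset E)
    (e : E) (he : e ∉ S) (p : V)
    (hst : (s e = none ∧ t e = some p) ∨ (s e = some p ∧ t e = none))
    (ih : ∀ s t : E → Option V, IA (netOf s t w hw S) (fun _ => 1) =
      ENNReal.ofReal (Real.sqrt (2 * Real.pi) ^ (Fintype.card V) * FS s t w S (fun _ => True))) :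
    IA (netOf s t w hw (insert e S)) (fun _ => 1) =
      ENNReal.ofReal (Real.sqrt (2 * Real.pi) ^ (Fintype.card V) *
        FS s t w (insert e S) (fun _ => True)) := by
  rw [IA_root s t w hw S e he p hst, ih, ih, FS_insert_true s t w S e he]
  have hne : s e ≠ t e := by
    rcases hst with ⟨h1, h2⟩ | ⟨h1, h2⟩
    · rw [h1, h2]; simp
    · rw [h1, h2]; simp
  rw [if_neg hne]
  have hm : FS (cl (s e) (t e) ∘ s) (cl (s e) (t e) ∘ t) w S (fun _ => True) =
      FS (cl (some p) none ∘ s) (cl (some p) none ∘ t) w S (fun _ => True) := by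
    rcases hst with ⟨h1, h2⟩ | ⟨h1, h2⟩
    · rw [h1, h2]
      exact FS_merge_comm s t w S none (some p) (by simp)
    · rw [h1, h2]
  rw [hm, ← ENNReal.ofReal_mul (hw e), ← ENNReal.ofReal_add]
  · congr 1
    ring
  · exact mul_nonneg (by positivity) (FS_nonneg s t w hw S _)
  · exact mul_nonneg (hw e) (mul_nonneg (by positivity) (FS_nonneg _ _ w hw S _))

end J10

open J10

theorem IA_eq_FS (s t : E → Option V) (w : E → ℝ) (hw : ∀ e, 0 ≤ w e) (S : Finset E) :
    IA (netOf s t w hw S) (fun _ => 1) =
      ENNReal.ofReal (Real.sqrt (2 * Real.pi) ^ (Fintype.card V) * FS s t w S (fun _ => True)) := by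
  induction S using Finset.induction_on generalizing s t with
  | empty => rw [IA_empty, FS_empty, mul_one]
  | insert e S he ih =>
    by_cases hst : s e = t e
    · -- a loop
      have h1 : netOf s t w hw (insert e S) = netOf s t w hw S := by
        apply net_ext
        · intro x z
          rw [netOf_B, netOf_B, wt_insert s t w S e he]
          by_cases hxz : x = z
          · simp [hxz]
          · rw [if_neg hxz, if_neg hxz, if_neg, zero_add]
            rw [hst]
            rintro (⟨a, b⟩ | ⟨a, b⟩)
            · exact hxz (Option.some_injective _ (a.symm.trans b))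
            · exact hxz (Option.some_injective _ (b.symm.trans a))
        · intro x
          rw [netOf_r, netOf_r, wt_insert s t w S e he, if_neg, zero_add]
          rw [hst]
          rintro (⟨a, b⟩ | ⟨a, b⟩)
          · rw [a] at b; exact absurd b (by simp)
          · rw [a] at b; exact absurd b (by simp)
      rw [h1, ih s t, FS_insert_true s t w S e he, if_pos hst, add_zero]
    · rcases hs : s e with _ | x
      · rcases ht : t e with _ | z
        · exact absurd (hs.trans ht.symm) hst
        · exact step_root s t w hw S e he z (Or.inl ⟨hs, ht⟩) (fun s t => ih s t)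
      · rcases ht : t e with _ | z
        · exact step_root s t w hw S e he x (Or.inr ⟨hs, ht⟩) (fun s t => ih s t)
        · rw [← IA_swap s t w hw (insert e S) x,
            ← FS_comp (Equiv.swap none (some x)) (Equiv.swap none (some x)).injective s t w
              (insert e S)]
          apply step_root _ _ w hw S e he z _ (fun s t => ih s t)
          left
          have hxz : z ≠ x := by
            rintro rfl
            exact hst (hs.trans ht.symm)
          refine ⟨?_, ?_⟩
          · rw [Function.comp_apply, hs, Equiv.swap_apply_right]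
          · rw [Function.comp_apply, ht]
            apply Equiv.swap_apply_of_ne_of_ne
            · simp
            · intro h; exact hxz (Option.some_injective _ h)

end Pool.Agent.TH369.AG
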