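import Pool.Agent.TH369.AG.Defs6
import Pool.Agent.TH369.AG.J8
import Pool.Agent.TH369.AG.J10

/-!
# ARBOREAL-K10: boxes in multigraphs (levels, `EmbG`, smaller boxes, connectedness)
-/

set_option autoImplicit false
set_option linter.unusedSectionVars false

namespace Pool.Agent.TH369.AG

open MeasureTheory Matrix

namespace K10

theorem nrm_le_iff (x : ℤ × ℤ) (r : ℤ) :
    nrm x ≤ r ↔ (-r ≤ x.1 ∧ x.1 ≤ r) ∧ (-r ≤ x.2 ∧ x.2 ≤ r) := by
  unfold nrm
  rw [max_le_iff, abs_le, abs_le]

theorem nrm_nonneg (x : ℤ × ℤ) : 0 ≤ nrm x := le_max_of_le_left (abs_nonneg _)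

theorem nrm_zero : nrm 0 = 0 := by simp [nrm]

theorem adj_symm {x z : ℤ × ℤ} (h : adj x z) : adj z x := by
  unfold adj at h ⊢
  rw [abs_sub_comm z.1, abs_sub_comm z.2]
  exact h

theorem nrm_adj {x z : ℤ × ℤ} (h : adj x z) : nrm z ≤ nrm x + 1 := by
  have h0 := (nrm_le_iff x (nrm x)).1 le_rfl
  unfold adj at h
  have h1 := abs_nonneg (x.1 - z.1)
  have h2 := abs_nonneg (x.2 - z.2)
  have h3 : |x.1 - z.1| ≤ 1 := by omega
  have h4 : |x.2 - z.2| ≤ 1 := by omega
  rw [abs_le] at h3 h4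
  rw [nrm_le_iff]
  omega

theorem mem_bx {x : ℤ × ℤ} {k : ℕ} : x ∈ bx 0 k ↔ nrm x ≤ k := by
  unfold bx
  rw [Finset.mem_product, Finset.mem_Icc, Finset.mem_Icc, nrm_le_iff]
  simp

section

variable {X E : Type} [Fintype X] [DecidableEq X] [Fintype E] [DecidableEq E]

theorem Cn_refl (s t : E → X) (A : Finset E) (x : X) : Cn s t A x x := by
  unfold Cn
  rw [sub_self]
  exact Submodule.zero_mem _

theorem Cn_symm {s t : E → X} {A : Finset E} {x y : X} (h : Cn s t A x y) : Cn s t A y x := by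
  unfold Cn at h ⊢
  have := Submodule.neg_mem _ h
  rwa [neg_sub] at this

theorem Cn_trans {s t : E → X} {A : Finset E} {x y z : X} (h : Cn s t A x y)
    (h' : Cn s t A y z) : Cn s t A x z := by
  unfold Cn at h h' ⊢
  have := Submodule.add_mem _ h h'
  rwa [sub_add_sub_cancel] at this

theorem Cn_edge (s t : E → X) (A : Finset E) (e : E) (he : e ∈ A) : Cn s t A (s e) (t e) :=
  Submodule.subset_span ⟨e, he, rfl⟩

variable {es et : E → ℤ × ℤ} {s t : E → X} {Sin Sout : Finset E} {r : ℕ} {ι : ℤ × ℤ → X}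

/-- edges at interior points -/
theorem edge_s (hB : BoxG es et s t Sin Sout r ι) {e : E} (he : e ∈ Sin ∪ Sout) {x : ℤ × ℤ}
    (hx : nrm x < r) (h : s e = ι x) : e ∈ Sin ∧ es e = x := by
  have h1 : e ∈ Sin := by
    rcases Finset.mem_union.1 he with h1 | h1
    · exact h1
    · exact absurd h (hB.out e h1 x hx).1
  refine ⟨h1, ?_⟩
  rw [hB.s_eq e h1] at h
  exact (hB.inj x (es e) hx (hB.box.mem e h1).1 h.symm).symm

theorem edge_t (hB : BoxG es et s t Sin Sout r ι) {e : E} (he : e ∈ Sin ∪ Sout) {x : ℤ × ℤ}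
    (hx : nrm x < r) (h : t e = ι x) : e ∈ Sin ∧ et e = x := by
  have h1 : e ∈ Sin := by
    rcases Finset.mem_union.1 he with h1 | h1
    · exact h1
    · exact absurd h (hB.out e h1 x hx).2
  refine ⟨h1, ?_⟩
  rw [hB.t_eq e h1] at h
  exact (hB.inj x (et e) hx (hB.box.mem e h1).2.1 h.symm).symm

/-- a connection to the root crosses all levels -/
theorem crossing (hB : BoxG es et s t Sin Sout r ι) {ρ : X} (hρ : ∀ x, nrm x < r → ι x ≠ ρ)
    (A : Finset E) (hA : A ⊆ Sin ∪ Sout) (h0 : Cn s t A (ι 0) ρ) (j : ℕ) (hj : j < r) :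
    ∃ x, nrm x = j ∧ Cn s t A (ι x) ρ := by
  classical
  by_contra hcon
  push Not at hcon
  have hjr : (j : ℤ) < r := by exact_mod_cast hj
  have hj0 : (0 : ℤ) < j := by
    rcases Nat.eq_zero_or_pos j with h | h
    · exfalso
      subst h
      exact hcon 0 (by rw [nrm_zero]; rfl) h0
    · exact_mod_cast h
  let W : Finset X := Finset.univ.filter (fun v => Cn s t A v ρ ∧ ∃ x, nrm x < j ∧ v = ι x)
  have hW : ∀ v, v ∈ W ↔ Cn s t A v ρ ∧ ∃ x, nrm x < j ∧ v = ι x := fun v => by
    simp only [W, Finset.mem_filter, Finset.mem_univ, true_and]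
  let φ : (X → ℝ) →ₗ[ℝ] ℝ := ∑ v ∈ W, LinearMap.proj v
  have hφ : ∀ f, φ f = ∑ v ∈ W, f v := by
    intro f
    simp only [φ, LinearMap.sum_apply, LinearMap.proj_apply]
  have hsingle : ∀ v : X, φ (Pi.single v 1) = if v ∈ W then 1 else 0 := by
    intro v
    rw [hφ]
    simp only [Pi.single_apply]
    rw [Finset.sum_ite_eq']
  have hedge : ∀ e ∈ A, (s e ∈ W ↔ t e ∈ W) := by
    intro e he
    have hc := Cn_edge s t A e he
    rw [hW, hW]
    constructor
    · rintro ⟨h1, x, hx, hxe⟩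
      obtain ⟨k1, k2⟩ := edge_s hB (hA he) (lt_trans hx hjr) hxe
      have h2 : Cn s t A (t e) ρ := Cn_trans (Cn_symm hc) h1
      refine ⟨h2, et e, ?_, hB.t_eq e k1⟩
      have h3 := nrm_adj (hB.box.mem e k1).2.2
      rw [k2] at h3
      have h4 : nrm (et e) ≠ j := fun h5 => hcon (et e) h5 (by rw [← hB.t_eq e k1]; exact h2)
      omega
    · rintro ⟨h1, x, hx, hxe⟩
      obtain ⟨k1, k2⟩ := edge_t hB (hA he) (lt_trans hx hjr) hxe
      have h2 : Cn s t A (s e) ρ := Cn_trans hc h1
      refine ⟨h2, es e, ?_, hB.s_eq e k1⟩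
      have h3 := nrm_adj (adj_symm (hB.box.mem e k1).2.2)
      rw [k2] at h3
      have h4 : nrm (es e) ≠ j := fun h5 => hcon (es e) h5 (by rw [← hB.s_eq e k1]; exact h2)
      omega
  have hspan : Submodule.span ℝ (vec s t '' (A : Set E)) ≤ LinearMap.ker φ := by
    rw [Submodule.span_le]
    rintro _ ⟨e, he, rfl⟩
    show vec s t e ∈ LinearMap.ker φ
    rw [LinearMap.mem_ker]
    unfold vec
    rw [map_sub, hsingle, hsingle]
    have h1 := hedge e he
    by_cases h : s e ∈ W
    · rw [if_pos h, if_pos (h1.1 h), sub_self]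
    · rw [if_neg h, if_neg (fun h2 => h (h1.2 h2)), sub_self]
  have h1 := hspan h0
  rw [LinearMap.mem_ker, map_sub, hsingle, hsingle, if_pos, if_neg] at h1
  · norm_num at h1
  · rw [hW]
    rintro ⟨_, x, hx, hxe⟩
    exact hρ x (lt_trans hx hjr) hxe.symm
  · rw [hW]
    exact ⟨h0, 0, by rw [nrm_zero]; exact hj0, rfl⟩

end

end K10

open K10

theorem levels {X E : Type} [Fintype X] [DecidableEq X] [Fintype E] [DecidableEq E]
    (es et : E → ℤ × ℤ) (w : E → ℝ) (hw : ∀ e, 0 ≤ w e) (Sin Sout : Finset E) (s t : E → X) (r : ℕ)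
    (ι : ℤ × ℤ → X) (hB : BoxG es et s t Sin Sout r ι) (ρ : X) (hρ : ∀ x, nrm x < r → ι x ≠ ρ)
    (k : ℕ) (hk : k < r) :
    (k : ℝ) * FS s t w (Sin ∪ Sout) (fun A => Cn s t A (ι 0) ρ) ≤
      ∑ x ∈ bx 0 k, FS s t w (Sin ∪ Sout) (fun A => Cn s t A (ι x) ρ) := by
  classical
  unfold FS
  simp only [Finset.sum_filter]
  rw [Finset.sum_comm, Finset.mul_sum]
  refine Finset.sum_le_sum fun A hA => ?_
  rw [Finset.mem_powerset] at hA
  have hw0 : 0 ≤ ∏ e ∈ A, w e := Finset.prod_nonneg fun e _ => hw e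
  by_cases h : IsF s t A ∧ Cn s t A (ι 0) ρ
  · rw [if_pos h]
    have h1 : ∑ x ∈ bx 0 k, (if IsF s t A ∧ Cn s t A (ι x) ρ then ∏ e ∈ A, w e else 0) =
        (((bx 0 k).filter (fun x => Cn s t A (ι x) ρ)).card : ℝ) * ∏ e ∈ A, w e := by
      rw [← nsmul_eq_mul, ← Finset.sum_const, Finset.sum_filter]
      refine Finset.sum_congr rfl fun x _ => ?_
      by_cases hx : Cn s t A (ι x) ρ
      · rw [if_pos hx, if_pos ⟨h.1, hx⟩]
      · rw [if_neg hx, if_neg fun h2 => hx h2.2]
    rw [h1]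
    refine mul_le_mul_of_nonneg_right ?_ hw0
    have h2 : ∀ j : ℕ, ∃ x : ℤ × ℤ, j < r → nrm x = j ∧ Cn s t A (ι x) ρ := by
      intro j
      by_cases hj : j < r
      · obtain ⟨x, hx⟩ := crossing hB hρ A hA h.2 j hj
        exact ⟨x, fun _ => hx⟩
      · exact ⟨0, fun h3 => absurd h3 hj⟩
    choose f hf using h2
    have h3 : (Finset.range k).card ≤ ((bx 0 k).filter (fun x => Cn s t A (ι x) ρ)).card := by
      apply Finset.card_le_card_of_injOn f
      · intro j hj
        have hj' : j < k := Finset.mem_range.1 hj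
        obtain ⟨h4, h5⟩ := hf j (by omega)
        rw [Finset.mem_coe, Finset.mem_filter, mem_bx]
        refine ⟨?_, h5⟩
        rw [h4]
        exact_mod_cast hj'.le
      · intro j hj j' hj' hjj
        have k1 : j < k := Finset.mem_range.1 hj
        have k2 : j' < k := Finset.mem_range.1 hj'
        have h4 := (hf j (by omega)).1
        have h5 := (hf j' (by omega)).1
        rw [hjj, h5] at h4
        exact_mod_cast h4.symm
    rw [Finset.card_range] at h3
    exact_mod_cast h3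
  · rw [if_neg h, mul_zero]
    refine Finset.sum_nonneg fun x _ => ?_
    split_ifs
    · exact hw0
    · exact le_rfl

theorem BoxG_emb {X E : Type} [Fintype X] [DecidableEq X] [Fintype E] [DecidableEq E]
    (es et : E → ℤ × ℤ) (s t : E → X) (Sin Sout : Finset E) (r : ℕ) (ι : ℤ × ℤ → X)
    (hB : BoxG es et s t Sin Sout r ι) (β : ℝ) (w : E → ℝ) (hw : ∀ e ∈ Sin, w e = β) (R : ℕ)
    (hR : R ≤ r) : EmbG s t w (Sin ∪ Sout) β R ι := by
  classical
  have hRr : (R : ℤ) ≤ r := by exact_mod_cast hR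
  refine ⟨fun x z hx hz h => hB.inj x z (lt_of_lt_of_le hx hRr) (hz.le.trans hRr) h, ?_, ?_⟩
  · intro x z hx hxz
    have hz := nrm_adj hxz
    have hxr : nrm x < r := by omega
    have hzr : nrm z < r := by omega
    obtain ⟨e0, he0, hc⟩ := hB.box.ex x z hxr.le hzr.le hxz
    unfold wt
    have hfil : (Sin ∪ Sout).filter
        (fun e => (s e = ι x ∧ t e = ι z) ∨ (s e = ι z ∧ t e = ι x)) = {e0} := by
      ext e
      rw [Finset.mem_filter, Finset.mem_singleton]
      constructor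
      · rintro ⟨h1, h2⟩
        have h3 : e ∈ Sin ∧ ((es e = x ∧ et e = z) ∨ (es e = z ∧ et e = x)) := by
          rcases h2 with ⟨h2, h2'⟩ | ⟨h2, h2'⟩
          · obtain ⟨k1, k2⟩ := edge_s hB h1 hxr h2
            exact ⟨k1, Or.inl ⟨k2, (edge_t hB h1 hzr h2').2⟩⟩
          · obtain ⟨k1, k2⟩ := edge_s hB h1 hzr h2
            exact ⟨k1, Or.inr ⟨k2, (edge_t hB h1 hxr h2').2⟩⟩
        apply hB.box.uniq e h3.1 e0 he0
        rcases h3.2 with ⟨a1, a2⟩ | ⟨a1, a2⟩ <;> rcases hc with ⟨b1, b2⟩ | ⟨b1, b2⟩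
        · exact Or.inl ⟨by rw [a1, b1], by rw [a2, b2]⟩
        · exact Or.inr ⟨by rw [a1, b2], by rw [a2, b1]⟩
        · exact Or.inr ⟨by rw [a1, b2], by rw [a2, b1]⟩
        · exact Or.inl ⟨by rw [a1, b1], by rw [a2, b2]⟩
      · rintro rfl
        refine ⟨Finset.mem_union_left _ he0, ?_⟩
        rw [hB.s_eq e he0, hB.t_eq e he0]
        rcases hc with ⟨b1, b2⟩ | ⟨b1, b2⟩
        · rw [b1, b2]
          exact Or.inl ⟨rfl, rfl⟩
        · rw [b1, b2]
          exact Or.inr ⟨rfl, rfl⟩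
    have hfil' : ∑ e ∈ Sin ∪ Sout with ((s e = ι x ∧ t e = ι z) ∨ (s e = ι z ∧ t e = ι x)), w e =
        ∑ e ∈ ({e0} : Finset E), w e := by
      rw [← hfil]
    refine Eq.trans ?_ (hfil'.trans ?_)
    · congr
    · rw [Finset.sum_singleton, hw e0 he0]
  · intro x v hx hv hne
    have hxr : nrm x < r := by omega
    unfold wt at hne
    obtain ⟨e, he, _⟩ := Finset.exists_ne_zero_of_sum_ne_zero hne
    rw [Finset.mem_filter] at he
    obtain ⟨h1, h2⟩ := he
    rcases h2 with ⟨h2, h2'⟩ | ⟨h2, h2'⟩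
    · obtain ⟨k1, k2⟩ := edge_s hB h1 hxr h2
      have h3 := (hB.box.mem e k1).2.2
      rw [k2] at h3
      exact ⟨et e, h3, by rw [← hB.t_eq e k1]; exact h2'⟩
    · obtain ⟨k1, k2⟩ := edge_t hB h1 hxr h2'
      have h3 := adj_symm (hB.box.mem e k1).2.2
      rw [k2] at h3
      exact ⟨es e, h3, by rw [← hB.s_eq e k1]; exact h2⟩

/-- smaller boxes -/
theorem BoxG_mono {X E : Type} [Fintype X] [DecidableEq X] [Fintype E] [DecidableEq E]
    (es et : E → ℤ × ℤ) (s t : E → X) (Sin Sout : Finset E) (r r' : ℕ) (h : r' ≤ r)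
    (ι : ℤ × ℤ → X) (hB : BoxG es et s t Sin Sout r ι) :
    BoxG es et s t (Sin.filter fun e => nrm (es e) ≤ r' ∧ nrm (et e) ≤ r')
      (Sout ∪ Sin.filter fun e => ¬ (nrm (es e) ≤ r' ∧ nrm (et e) ≤ r')) r' ι := by
  have hrr : (r' : ℤ) ≤ r := by exact_mod_cast h
  refine ⟨⟨?_, ?_, ?_⟩, ?_, ?_, ?_, ?_, ?_⟩
  · intro e he
    rw [Finset.mem_filter] at he
    exact ⟨he.2.1, he.2.2, (hB.box.mem e he.1).2.2⟩
  · intro x z hx hz hxz
    obtain ⟨e, he, hc⟩ := hB.box.ex x z (hx.trans hrr) (hz.trans hrr) hxz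
    refine ⟨e, ?_, hc⟩
    rw [Finset.mem_filter]
    refine ⟨he, ?_⟩
    rcases hc with ⟨b1, b2⟩ | ⟨b1, b2⟩
    · rw [b1, b2]
      exact ⟨hx, hz⟩
    · rw [b1, b2]
      exact ⟨hz, hx⟩
  · intro e he e' he' hc
    rw [Finset.mem_filter] at he he'
    exact hB.box.uniq e he.1 e' he'.1 hc
  · rw [Finset.disjoint_left]
    intro e he he'
    rw [Finset.mem_filter] at he
    rcases Finset.mem_union.1 he' with h1 | h1
    · exact Finset.disjoint_left.1 hB.dis he.1 h1
    · exact (Finset.mem_filter.1 h1).2 he.2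
  · intro e he
    exact hB.s_eq e (Finset.mem_filter.1 he).1
  · intro e he
    exact hB.t_eq e (Finset.mem_filter.1 he).1
  · intro x z hx hz hxz
    exact hB.inj x z (lt_of_lt_of_le hx hrr) (hz.trans hrr) hxz
  · intro e he x hx
    have hxr : nrm x < r := lt_of_lt_of_le hx hrr
    rcases Finset.mem_union.1 he with h1 | h1
    · exact hB.out e h1 x hxr
    · obtain ⟨h2, h3⟩ := Finset.mem_filter.1 h1
      constructor
      · intro h4
        obtain ⟨_, k2⟩ := edge_s hB (Finset.mem_union_left _ h2) hxr h4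
        apply h3
        have h5 := nrm_adj (hB.box.mem e h2).2.2
        rw [k2] at h5 ⊢
        constructor <;> omega
      · intro h4
        obtain ⟨_, k2⟩ := edge_t hB (Finset.mem_union_left _ h2) hxr h4
        apply h3
        have h5 := nrm_adj (adj_symm (hB.box.mem e h2).2.2)
        rw [k2] at h5 ⊢
        constructor <;> omega

/-- the box is connected -/
theorem box_conn {X E : Type} [Fintype X] [DecidableEq X] [Fintype E] [DecidableEq E]
    (es et : E → ℤ × ℤ) (Sin : Finset E) (r : ℕ) (hB : BoxS es et Sin r) (ι : ℤ × ℤ → X)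
    (x z : ℤ × ℤ) (hx : nrm x ≤ r) (hz : nrm z ≤ r) :
    Cn (ι ∘ es) (ι ∘ et) Sin (ι x) (ι z) := by
  have step : ∀ x z : ℤ × ℤ, nrm x ≤ r → nrm z ≤ r → adj x z →
      Cn (ι ∘ es) (ι ∘ et) Sin (ι x) (ι z) := by
    intro x z hx hz hxz
    obtain ⟨e, he, hc⟩ := hB.ex x z hx hz hxz
    have h1 := Cn_edge (ι ∘ es) (ι ∘ et) Sin e he
    simp only [Function.comp_apply] at h1
    rcases hc with ⟨b1, b2⟩ | ⟨b1, b2⟩
    · rw [b1, b2] at h1
      exact h1
    · rw [b1, b2] at h1
      exact Cn_symm h1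
  have main : ∀ n : ℕ, ∀ x z : ℤ × ℤ, nrm x ≤ r → nrm z ≤ r →
      |x.1 - z.1| + |x.2 - z.2| = n → Cn (ι ∘ es) (ι ∘ et) Sin (ι x) (ι z) := by
    intro n
    induction n with
    | zero =>
      intro x z _ _ h
      have h1 := abs_nonneg (x.1 - z.1)
      have h2 := abs_nonneg (x.2 - z.2)
      have h3 : |x.1 - z.1| = 0 := by push_cast at h; omega
      have h4 : |x.2 - z.2| = 0 := by push_cast at h; omega
      rw [abs_eq_zero, sub_eq_zero] at h3 h4
      have h5 : x = z := Prod.ext h3 h4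
      rw [h5]
      exact Cn_refl _ _ _ _
    | succ n ih =>
      intro x z hx hz h
      rw [nrm_le_iff] at hx hz
      -- a neighbour of `x` closer to `z`
      have h0 : ∃ x' : ℤ × ℤ, nrm x' ≤ r ∧ adj x x' ∧ |x'.1 - z.1| + |x'.2 - z.2| = n := by
        rcases lt_trichotomy x.1 z.1 with h1 | h1 | h1
        · refine ⟨(x.1 + 1, x.2), ?_, ?_, ?_⟩
          · rw [nrm_le_iff]
            simp only
            omega
          · unfold adj
            simp
          · simp only
            have e1 : |x.1 - z.1| = z.1 - x.1 := by rw [abs_of_neg (by omega)]; ring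
            have e2 : |x.1 + 1 - z.1| = z.1 - x.1 - 1 := by
              rw [abs_of_nonpos (by omega)]; ring
            push_cast at h
            omega
        · rcases lt_trichotomy x.2 z.2 with h2 | h2 | h2
          · refine ⟨(x.1, x.2 + 1), ?_, ?_, ?_⟩
            · rw [nrm_le_iff]
              simp only
              omega
            · unfold adj
              simp
            · simp only
              have e1 : |x.2 - z.2| = z.2 - x.2 := by rw [abs_of_neg (by omega)]; ring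
              have e2 : |x.2 + 1 - z.2| = z.2 - x.2 - 1 := by
                rw [abs_of_nonpos (by omega)]; ring
              push_cast at h
              omega
          · exfalso
            rw [h1, h2] at h
            simp only [sub_self, abs_zero, add_zero] at h
            push_cast at h
            omega
          · refine ⟨(x.1, x.2 - 1), ?_, ?_, ?_⟩
            · rw [nrm_le_iff]
              simp only
              omega
            · unfold adj
              simp
            · simp only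
              have e1 : |x.2 - z.2| = x.2 - z.2 := abs_of_pos (by omega)
              have e2 : |x.2 - 1 - z.2| = x.2 - z.2 - 1 := by
                rw [abs_of_nonneg (by omega)]; ring
              push_cast at h
              omega
        · refine ⟨(x.1 - 1, x.2), ?_, ?_, ?_⟩
          · rw [nrm_le_iff]
            simp only
            omega
          · unfold adj
            simp
          · simp only
            have e1 : |x.1 - z.1| = x.1 - z.1 := abs_of_pos (by omega)
            have e2 : |x.1 - 1 - z.1| = x.1 - z.1 - 1 := by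
              rw [abs_of_nonneg (by omega)]; ring
            push_cast at h
            omega
      obtain ⟨x', k1, k2, k3⟩ := h0
      exact Cn_trans (step x x' ((nrm_le_iff _ _).2 hx) k1 k2)
        (ih x' z k1 ((nrm_le_iff _ _).2 hz) k3)
  have h1 := abs_nonneg (x.1 - z.1)
  have h2 := abs_nonneg (x.2 - z.2)
  exact main (|x.1 - z.1| + |x.2 - z.2|).toNat x z hx hz (by omega)

end Pool.Agent.TH369.AG
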