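import Pool.Agent.TH369.AG.Defs3
set_option autoImplicit false
namespace Pool.Agent.TH369.AG
open MeasureTheory Matrix
/-! ### J11: cut-off functions on the square lattice -/

namespace J11

theorem clamp_lip (u v : ℝ) : |max 0 (min 1 u) - max 0 (min 1 v)| ≤ |u - v| := by
  calc |max 0 (min 1 u) - max 0 (min 1 v)| ≤ max |(0 : ℝ) - 0| |min 1 u - min 1 v| :=
        abs_max_sub_max_le_max _ _ _ _
    _ ≤ |min 1 u - min 1 v| := by simp
    _ ≤ max |(1 : ℝ) - 1| |u - v| := abs_min_sub_min_le_max _ _ _ _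
    _ ≤ |u - v| := by simp

theorem nrm_le {x : ℤ × ℤ} {k : ℤ} : nrm x ≤ k ↔ |x.1| ≤ k ∧ |x.2| ≤ k := by
  unfold nrm
  exact max_le_iff

theorem nrm_lip (x z : ℤ × ℤ) : |nrm x - nrm z| ≤ nrm (x - z) := by
  have h1 := nrm_le.1 (le_refl (nrm (x - z)))
  have hx := nrm_le.1 (le_refl (nrm x))
  have hz := nrm_le.1 (le_refl (nrm z))
  simp only [Prod.fst_sub, Prod.snd_sub] at h1
  have a1 : nrm x ≤ nrm z + nrm (x - z) := by
    rw [nrm_le]
    constructor
    · have := abs_sub_abs_le_abs_sub x.1 z.1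
      linarith [hz.1, h1.1]
    · have := abs_sub_abs_le_abs_sub x.2 z.2
      linarith [hz.2, h1.2]
  have a2 : nrm z ≤ nrm x + nrm (x - z) := by
    rw [nrm_le]
    constructor
    · have := abs_sub_abs_le_abs_sub z.1 x.1
      rw [abs_sub_comm] at this
      linarith [hx.1, h1.1]
    · have := abs_sub_abs_le_abs_sub z.2 x.2
      rw [abs_sub_comm] at this
      linarith [hx.2, h1.2]
  rw [abs_le]
  constructor <;> linarith

theorem nrm_comm (x z : ℤ × ℤ) : nrm (x - z) = nrm (z - x) := by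
  unfold nrm
  simp only [Prod.fst_sub, Prod.snd_sub]
  rw [abs_sub_comm, abs_sub_comm x.2]

theorem tent_nonneg (l : ℕ) (u : ℤ) : 0 ≤ tent l u := le_max_left _ _

theorem tent_le (l : ℕ) (u : ℤ) : tent l u ≤ 1 := by
  unfold tent
  refine max_le (by norm_num) ?_
  have : 0 ≤ |(u : ℝ)| / l := by positivity
  linarith

theorem plat_nonneg (l : ℕ) (u : ℤ) : 0 ≤ plat l u := le_max_left _ _

theorem plat_le (l : ℕ) (u : ℤ) : plat l u ≤ 1 := max_le (by norm_num) (min_le_left _ _)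

theorem tent_lip (l : ℕ) (hl : 0 < l) (u v : ℤ) : |tent l u - tent l v| ≤ |(u : ℝ) - v| / l := by
  have hl' : (0 : ℝ) < l := by exact_mod_cast hl
  unfold tent
  calc |max 0 (1 - |(u : ℝ)| / l) - max 0 (1 - |(v : ℝ)| / l)|
      ≤ max |(0 : ℝ) - 0| |(1 - |(u : ℝ)| / l) - (1 - |(v : ℝ)| / l)| :=
        abs_max_sub_max_le_max _ _ _ _
    _ ≤ |(1 - |(u : ℝ)| / l) - (1 - |(v : ℝ)| / l)| := by simp
    _ = |(|(v : ℝ)| - |(u : ℝ)|)| / l := by
        have e : (1 - |(u : ℝ)| / l) - (1 - |(v : ℝ)| / l) = (|(v : ℝ)| - |(u : ℝ)|) / l := by ring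
        rw [e, abs_div, abs_of_pos hl']
    _ ≤ |(u : ℝ) - v| / l := by
        refine div_le_div_of_nonneg_right ?_ hl'.le
        rw [abs_sub_comm (u : ℝ)]
        exact abs_abs_sub_abs_le _ _

theorem plat_lip (l : ℕ) (hl : 0 < l) (u v : ℤ) : |plat l u - plat l v| ≤ |(u : ℝ) - v| / l := by
  have hl' : (0 : ℝ) < l := by exact_mod_cast hl
  unfold plat
  refine (clamp_lip _ _).trans ?_
  have e : (3 - |(u : ℝ)| / l) - (3 - |(v : ℝ)| / l) = (|(v : ℝ)| - |(u : ℝ)|) / l := by ring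
  rw [e, abs_div, abs_of_pos hl']
  refine div_le_div_of_nonneg_right ?_ hl'.le
  rw [abs_sub_comm (u : ℝ)]
  exact abs_abs_sub_abs_le _ _

theorem tent_supp (l : ℕ) (hl : 0 < l) (u : ℤ) (h : tent l u ≠ 0) : |u| < l := by
  have hl' : (0 : ℝ) < l := by exact_mod_cast hl
  by_contra hcon
  rw [not_lt] at hcon
  apply h
  unfold tent
  have h1 : (l : ℝ) ≤ |(u : ℝ)| := by exact_mod_cast hcon
  rw [max_eq_left]
  have : 1 ≤ |(u : ℝ)| / l := by rw [le_div_iff₀ hl']; linarith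
  linarith

theorem plat_supp (l : ℕ) (hl : 0 < l) (u : ℤ) (h : plat l u ≠ 0) : |u| < 3 * l := by
  have hl' : (0 : ℝ) < l := by exact_mod_cast hl
  by_contra hcon
  rw [not_lt] at hcon
  apply h
  unfold plat
  have h1 : 3 * (l : ℝ) ≤ |(u : ℝ)| := by exact_mod_cast hcon
  rw [max_eq_left]
  have : 3 ≤ |(u : ℝ)| / l := by rw [le_div_iff₀ hl']; linarith
  exact (min_le_right _ _).trans (by linarith)

theorem plat_one (l : ℕ) (hl : 0 < l) (u : ℤ) (h : |u| ≤ 2 * l) : plat l u = 1 := by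
  have hl' : (0 : ℝ) < l := by exact_mod_cast hl
  unfold plat
  have h1 : |(u : ℝ)| ≤ 2 * l := by exact_mod_cast h
  have : |(u : ℝ)| / l ≤ 2 := by rw [div_le_iff₀ hl']; linarith
  rw [min_eq_left (by linarith), max_eq_right (by norm_num)]

/-- partition of unity in one variable -/
theorem tent_sum (l : ℕ) (hl : 0 < l) (n : ℕ) (u : ℤ) (hu : |u| ≤ l * n) :
    ∑ a ∈ Finset.Icc (-(n : ℤ)) n, tent l (u - l * a) = 1 := by
  have hl' : (0 : ℝ) < l := by exact_mod_cast hl
  have hlz : (0 : ℤ) < l := by exact_mod_cast hl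
  set q := u / (l : ℤ) with hq
  set r := u % (l : ℤ) with hr
  have hqr : u = l * q + r := (Int.mul_ediv_add_emod u l).symm
  have hr0 : 0 ≤ r := Int.emod_nonneg _ hlz.ne'
  have hrl : r < l := Int.emod_lt_of_pos _ hlz
  have hu' := abs_le.1 hu
  have hf1 : tent l (u - l * q) = 1 - (r : ℝ) / l := by
    have e : u - l * q = r := by rw [hqr]; ring
    rw [e]
    unfold tent
    have h1 : (0 : ℝ) ≤ r := by exact_mod_cast hr0
    have h2 : (r : ℝ) ≤ l := by exact_mod_cast hrl.le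
    rw [abs_of_nonneg h1, max_eq_right]
    rw [sub_nonneg, div_le_one hl']
    exact h2
  have hf2 : tent l (u - l * (q + 1)) = (r : ℝ) / l := by
    have e : u - l * (q + 1) = r - l := by rw [hqr]; ring
    rw [e]
    unfold tent
    have h1 : (0 : ℝ) ≤ r := by exact_mod_cast hr0
    have h2 : (r : ℝ) ≤ l := by exact_mod_cast hrl.le
    push_cast
    rw [abs_of_nonpos (by linarith), max_eq_right]
    · field_simp
      ring
    · rw [sub_nonneg, div_le_one hl']
      linarith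
  have hf3 : ∀ a : ℤ, a ≠ q → a ≠ q + 1 → tent l (u - l * a) = 0 := by
    intro a h1 h2
    by_contra h3
    have h4 := abs_lt.1 (tent_supp l hl _ h3)
    rw [hqr] at h4
    rcases lt_or_gt_of_ne h1 with h5 | h5
    · have h6 : a + 1 ≤ q := h5
      have h7 : (l : ℤ) * (a + 1) ≤ l * q := mul_le_mul_of_nonneg_left h6 hlz.le
      linarith [h4.2]
    · have h6 : q + 2 ≤ a := by omega
      have h7 : (l : ℤ) * (q + 2) ≤ l * a := mul_le_mul_of_nonneg_left h6 hlz.le
      linarith [h4.1]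
  rw [Finset.sum_eq_add q (q + 1) (by omega) (fun c _ hc => hf3 c hc.1 hc.2)]
  · rw [hf1, hf2]; ring
  · intro hnot
    exfalso
    apply hnot
    rw [Finset.mem_Icc]
    constructor
    · rw [hq, Int.le_ediv_iff_mul_le hlz]
      linarith [hu'.1]
    · rw [hq]
      refine Int.le_of_lt_add_one ?_
      rw [Int.ediv_lt_iff_lt_mul hlz]
      linarith [hu'.2]
  · intro hnot
    have hr00 : r = 0 := by
      by_contra hne
      have hrpos : 0 < r := by omega
      apply hnot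
      rw [Finset.mem_Icc]
      constructor
      · have : -(n : ℤ) ≤ q := by
          rw [hq, Int.le_ediv_iff_mul_le hlz]
          linarith [hu'.1]
        linarith
      · have h1 : (l : ℤ) * q < l * n := by linarith [hu'.2]
        have := lt_of_mul_lt_mul_left h1 hlz.le
        omega
    rw [hf2, hr00]
    simp

theorem gg_sum (R l : ℕ) (hl : 0 < l) (x : ℤ × ℤ) (hx : nrm x ≤ l * ((R / (2 * l) + 3 : ℕ) : ℤ)) :
    ∑ a ∈ AA R l, gg l a x = 1 := by
  rw [nrm_le] at hx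
  unfold AA gg
  rw [Finset.sum_product]
  simp only [← Finset.mul_sum]
  rw [← Finset.sum_mul, tent_sum l hl _ _ hx.1, tent_sum l hl _ _ hx.2, one_mul]

end J11

open J11

theorem ff_one (R : ℕ) (hR : 0 < R) (x : ℤ × ℤ) (hx : 4 * nrm x ≤ R) : ff R x = 1 := by
  have hR' : (0 : ℝ) < R := by exact_mod_cast hR
  have h1 : 4 * (nrm x : ℝ) ≤ R := by exact_mod_cast hx
  unfold ff
  have : 4 * (nrm x : ℝ) / R ≤ 1 := by rw [div_le_one hR']; exact h1
  rw [min_eq_left (by linarith), max_eq_right (by norm_num)]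

theorem ff_zero (R : ℕ) (hR : 0 < R) (x : ℤ × ℤ) (hx : (R : ℤ) ≤ 2 * nrm x) : ff R x = 0 := by
  have hR' : (0 : ℝ) < R := by exact_mod_cast hR
  have h1 : (R : ℝ) ≤ 2 * (nrm x : ℝ) := by exact_mod_cast hx
  unfold ff
  have : 2 ≤ 4 * (nrm x : ℝ) / R := by rw [le_div_iff₀ hR']; linarith
  rw [max_eq_left]
  exact (min_le_right _ _).trans (by linarith)

theorem ff_lip (R : ℕ) (hR : 0 < R) (x z : ℤ × ℤ) :
    |ff R x - ff R z| ≤ 4 * (nrm (x - z) : ℝ) / R := by
  have hR' : (0 : ℝ) < R := by exact_mod_cast hR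
  unfold ff
  refine (clamp_lip _ _).trans ?_
  have h1 : |(nrm x : ℝ) - nrm z| ≤ nrm (x - z) := by exact_mod_cast nrm_lip x z
  have e : (2 - 4 * (nrm x : ℝ) / R) - (2 - 4 * (nrm z : ℝ) / R) =
      -(4 * ((nrm x : ℝ) - nrm z) / R) := by ring
  rw [e, abs_neg, abs_div, abs_mul, abs_of_pos hR', abs_of_pos (by norm_num : (0 : ℝ) < 4)]
  gcongr

namespace J11

theorem ff_ne {R : ℕ} (hR : 0 < R) {x z : ℤ × ℤ} (h : ff R z ≠ ff R x) :
    2 * nrm x < R ∨ 2 * nrm z < R := by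
  by_contra hcon
  push Not at hcon
  apply h
  rw [ff_zero R hR x hcon.1, ff_zero R hR z hcon.2]

theorem nrm_tri (x z : ℤ × ℤ) : nrm x ≤ nrm z + nrm (x - z) := by
  have := abs_le.1 (nrm_lip x z)
  linarith [this.2]

theorem gp_of_gg (l : ℕ) (hl : 0 < l) (a x z : ℤ × ℤ) (h : nrm (x - z) ≤ l)
    (hg : gg l a x ≠ 0) : gp l a z = 1 := by
  unfold gg at hg
  have h1 := tent_supp l hl _ (left_ne_zero_of_mul hg)
  have h2 := tent_supp l hl _ (right_ne_zero_of_mul hg)
  rw [nrm_le] at h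
  simp only [Prod.fst_sub, Prod.snd_sub] at h
  have h3 := abs_le.1 h.1
  have h4 := abs_le.1 h.2
  have h5 := abs_lt.1 h1
  have h6 := abs_lt.1 h2
  unfold gp
  rw [plat_one l hl, plat_one l hl, one_mul]
  · rw [abs_le]; constructor <;> linarith [h4.1, h4.2, h6.1, h6.2]
  · rw [abs_le]; constructor <;> linarith [h3.1, h3.2, h5.1, h5.2]

theorem floor_bd (R l : ℕ) (hl : 0 < l) : (R : ℤ) < 2 * l * ((R / (2 * l) : ℕ) : ℤ) + 2 * l := by
  have h1 : R < 2 * l * (R / (2 * l)) + 2 * l := by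
    have h2 := Nat.div_add_mod R (2 * l)
    have h3 := Nat.mod_lt R (by omega : 2 * l > 0)
    linarith
  exact_mod_cast h1

theorem floor_bd' (R l : ℕ) : 2 * (l : ℤ) * ((R / (2 * l) : ℕ) : ℤ) ≤ R := by
  have h1 : 2 * l * (R / (2 * l)) ≤ R := Nat.mul_div_le _ _
  exact_mod_cast h1

end J11

theorem kk_plateau (R l : ℕ) (hl : 0 < l) (hR : 32 * l ≤ R) (x z : ℤ × ℤ) (h : nrm (x - z) ≤ l) :
    kk R l x z = ff R z - ff R x := by
  have hR0 : 0 < R := by omega
  by_cases hf : ff R z = ff R x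
  · unfold kk
    rw [hf]; simp
  · have hlz : (0 : ℤ) < l := by exact_mod_cast hl
    have h0 := ff_ne hR0 hf
    have hfl := floor_bd R l hl
    have h1 := nrm_tri x z
    have h2 := nrm_tri z x
    rw [nrm_comm] at h2
    have hcast : (l : ℤ) * ((R / (2 * l) + 3 : ℕ) : ℤ) = l * ((R / (2 * l) : ℕ) : ℤ) + 3 * l := by
      push_cast; ring
    have hx : nrm x ≤ l * ((R / (2 * l) + 3 : ℕ) : ℤ) := by
      rw [hcast]
      rcases h0 with h0 | h0 <;> nlinarith
    have hz : nrm z ≤ l * ((R / (2 * l) + 3 : ℕ) : ℤ) := by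
      rw [hcast]
      rcases h0 with h0 | h0 <;> nlinarith
    have s1 : ∑ a ∈ AA R l, gg l a x * gp l a z = 1 := by
      rw [← gg_sum R l hl x hx]
      refine Finset.sum_congr rfl fun a _ => ?_
      by_cases hg : gg l a x = 0
      · rw [hg, zero_mul]
      · rw [gp_of_gg l hl a x z h hg, mul_one]
    have s2 : ∑ a ∈ AA R l, gp l a x * gg l a z = 1 := by
      rw [← gg_sum R l hl z hz]
      refine Finset.sum_congr rfl fun a _ => ?_
      by_cases hg : gg l a z = 0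
      · rw [hg, mul_zero]
      · rw [gp_of_gg l hl a z x (by rw [nrm_comm]; exact h) hg, one_mul]
    unfold kk
    rw [← Finset.sum_mul, Finset.sum_add_distrib, s1, s2]
    ring

theorem gg_supp (l : ℕ) (hl : 0 < l) (a x : ℤ × ℤ) (h : gg l a x ≠ 0) : nrm (x - ctr l a) ≤ l := by
  unfold gg at h
  have h1 := tent_supp l hl _ (left_ne_zero_of_mul h)
  have h2 := tent_supp l hl _ (right_ne_zero_of_mul h)
  rw [nrm_le]
  exact ⟨h1.le, h2.le⟩

theorem gp_supp (l : ℕ) (hl : 0 < l) (a x : ℤ × ℤ) (h : gp l a x ≠ 0) :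
    nrm (x - ctr l a) ≤ 3 * l := by
  unfold gp at h
  have h1 := plat_supp l hl _ (left_ne_zero_of_mul h)
  have h2 := plat_supp l hl _ (right_ne_zero_of_mul h)
  rw [nrm_le]
  exact ⟨h1.le, h2.le⟩

theorem kk_range (R l : ℕ) (hl : 0 < l) (hR : 32 * l ≤ R) (x z : ℤ × ℤ) (h : kk R l x z ≠ 0) :
    nrm (x - z) ≤ 4 * l ∧ 4 * nrm x < 3 * R ∧ 4 * nrm z < 3 * R := by
  have hR0 : 0 < R := by omega
  have hRz : 32 * (l : ℤ) ≤ R := by exact_mod_cast hR
  have hlz : (0 : ℤ) < l := by exact_mod_cast hl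
  have hf : ff R z ≠ ff R x := by
    intro hf
    apply h
    unfold kk
    rw [hf]; simp
  obtain ⟨a, -, ha⟩ : ∃ a ∈ AA R l, (gg l a x * gp l a z + gp l a x * gg l a z) *
      (ff R z - ff R x) ≠ 0 := by
    by_contra hcon
    push Not at hcon
    apply h
    unfold kk
    rw [Finset.sum_eq_zero hcon, mul_zero]
  have ha' := left_ne_zero_of_mul ha
  have hd : nrm (x - z) ≤ 4 * l := by
    have key : ∀ c : ℤ × ℤ, nrm (x - c) + nrm (z - c) ≤ 4 * l → nrm (x - z) ≤ 4 * l := by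
      intro c hc
      have h1 := nrm_tri (x - z) (x - c)
      have e : x - z - (x - c) = -(z - c) := by abel
      have e2 : nrm (-(z - c)) = nrm (z - c) := by
        unfold nrm
        simp only [Prod.fst_neg, Prod.snd_neg, abs_neg]
      rw [e, e2] at h1
      linarith
    by_cases h1 : gg l a x * gp l a z = 0
    · rw [h1, zero_add] at ha'
      have h2 := gp_supp l hl a x (left_ne_zero_of_mul ha')
      have h3 := gg_supp l hl a z (right_ne_zero_of_mul ha')
      exact key _ (by linarith)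
    · have h2 := gg_supp l hl a x (left_ne_zero_of_mul h1)
      have h3 := gp_supp l hl a z (right_ne_zero_of_mul h1)
      exact key _ (by linarith)
  refine ⟨hd, ?_⟩
  have h0 := ff_ne hR0 hf
  have h1 := nrm_tri x z
  have h2 := nrm_tri z x
  rw [nrm_comm] at h2
  constructor
  · rcases h0 with h0 | h0 <;> linarith
  · rcases h0 with h0 | h0 <;> linarith

theorem kk_decomp (R l : ℕ) (x z : ℤ × ℤ) :
    kk R l x z = (1 / 2) * ∑ a ∈ AA R l, ((gg l a x * hp R l a z - hp R l a x * gg l a z) +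
      (gp l a x * hh R l a z - hh R l a x * gp l a z)) := by
  unfold kk hp hh
  congr 1
  refine Finset.sum_congr rfl fun a _ => ?_
  ring

namespace J11

theorem abs_gg_le (l : ℕ) (a x : ℤ × ℤ) : |gg l a x| ≤ 1 := by
  unfold gg
  rw [abs_of_nonneg (mul_nonneg (tent_nonneg _ _) (tent_nonneg _ _))]
  exact mul_le_one₀ (tent_le _ _) (tent_nonneg _ _) (tent_le _ _)

theorem abs_gp_le (l : ℕ) (a x : ℤ × ℤ) : |gp l a x| ≤ 1 := by
  unfold gp
  rw [abs_of_nonneg (mul_nonneg (plat_nonneg _ _) (plat_nonneg _ _))]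
  exact mul_le_one₀ (plat_le _ _) (plat_nonneg _ _) (plat_le _ _)

theorem prod_lip (T : ℤ → ℝ) (l : ℕ) (hl : 0 < l) (h0 : ∀ u, 0 ≤ T u) (h1 : ∀ u, T u ≤ 1)
    (hT : ∀ u v : ℤ, |T u - T v| ≤ |(u : ℝ) - v| / l) (a x z : ℤ × ℤ) (h : adj x z) :
    |T (x.1 - l * a.1) * T (x.2 - l * a.2) - T (z.1 - l * a.1) * T (z.2 - l * a.2)| ≤ 1 / l := by
  have hl' : (0 : ℝ) < l := by exact_mod_cast hl
  unfold adj at h
  have n1 := abs_nonneg (x.1 - z.1)
  have n2 := abs_nonneg (x.2 - z.2)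
  have hb : ∀ u, |T u| ≤ 1 := fun u => by rw [abs_of_nonneg (h0 u)]; exact h1 u
  have hcase : (x.2 = z.2 ∧ |x.1 - z.1| = 1) ∨ (x.1 = z.1 ∧ |x.2 - z.2| = 1) := by
    rcases eq_or_lt_of_le n1 with h2 | h2
    · right
      have := abs_eq_zero.1 h2.symm
      exact ⟨by linarith, by linarith⟩
    · left
      have h3 : |x.2 - z.2| = 0 := by omega
      have := abs_eq_zero.1 h3
      exact ⟨by linarith, by linarith⟩
  rcases hcase with ⟨h2, h3⟩ | ⟨h2, h3⟩
  · rw [h2, ← sub_mul, abs_mul]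
    have h4 := hT (x.1 - l * a.1) (z.1 - l * a.1)
    have e : (((x.1 - l * a.1 : ℤ) : ℝ) - ((z.1 - l * a.1 : ℤ) : ℝ)) = ((x.1 - z.1 : ℤ) : ℝ) := by
      push_cast; ring
    rw [e, ← Int.cast_abs, h3, Int.cast_one] at h4
    calc |T (x.1 - l * a.1) - T (z.1 - l * a.1)| * |T (z.2 - l * a.2)| ≤ 1 / l * 1 := by
          gcongr
          exact hb _
      _ = _ := mul_one _
  · rw [h2, ← mul_sub, abs_mul]
    have h4 := hT (x.2 - l * a.2) (z.2 - l * a.2)
    have e : (((x.2 - l * a.2 : ℤ) : ℝ) - ((z.2 - l * a.2 : ℤ) : ℝ)) = ((x.2 - z.2 : ℤ) : ℝ) := by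
      push_cast; ring
    rw [e, ← Int.cast_abs, h3, Int.cast_one] at h4
    calc |T (z.1 - l * a.1)| * |T (x.2 - l * a.2) - T (z.2 - l * a.2)| ≤ 1 * (1 / l) := by
          gcongr
          exact hb _
      _ = _ := one_mul _

theorem adj_nrm {x z : ℤ × ℤ} (h : adj x z) : nrm (x - z) ≤ 1 := by
  unfold adj at h
  rw [nrm_le]
  simp only [Prod.fst_sub, Prod.snd_sub]
  have n1 := abs_nonneg (x.1 - z.1)
  have n2 := abs_nonneg (x.2 - z.2)
  constructor <;> linarith

end J11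

theorem gg_bd (l : ℕ) (hl : 0 < l) (a x z : ℤ × ℤ) (h : adj x z) :
    |gg l a x| ≤ 1 ∧ |gp l a x| ≤ 1 ∧ |gg l a x - gg l a z| ≤ 1 / l ∧
      |gp l a x - gp l a z| ≤ 1 / l :=
  ⟨abs_gg_le l a x, abs_gp_le l a x,
    prod_lip (tent l) l hl (tent_nonneg l) (tent_le l) (tent_lip l hl) a x z h,
    prod_lip (plat l) l hl (plat_nonneg l) (plat_le l) (plat_lip l hl) a x z h⟩

namespace J11

theorem gen_bd (R l k : ℕ) (hl : 0 < l) (hR : 0 < R) (c : ℤ × ℤ) (G : ℤ × ℤ → ℝ)
    (hG1 : ∀ x, |G x| ≤ 1) (hGs : ∀ x, G x ≠ 0 → nrm (x - c) ≤ k * l) (x z : ℤ × ℤ)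
    (hGl : |G x - G z| ≤ 1 / l) (h : nrm (x - z) ≤ 1) :
    |G x * (ff R x - ff R c)| ≤ 4 * k * l / R ∧
      |G x * (ff R x - ff R c) - G z * (ff R z - ff R c)| ≤ (4 * k + 4) / R := by
  have hl' : (0 : ℝ) < l := by exact_mod_cast hl
  have hR' : (0 : ℝ) < R := by exact_mod_cast hR
  have hk : (0 : ℝ) ≤ k := Nat.cast_nonneg k
  have key : ∀ y, G y ≠ 0 → |ff R y - ff R c| ≤ 4 * k * l / R := by
    intro y hy
    refine (ff_lip R hR y c).trans ?_
    have h1 : (nrm (y - c) : ℝ) ≤ k * l := by exact_mod_cast hGs y hy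
    calc 4 * (nrm (y - c) : ℝ) / R ≤ 4 * (k * l) / R := by gcongr
      _ = _ := by ring
  constructor
  · by_cases hx : G x = 0
    · rw [hx, zero_mul, abs_zero]; positivity
    · rw [abs_mul]
      calc |G x| * |ff R x - ff R c| ≤ 1 * (4 * k * l / R) := by
            gcongr
            · exact hG1 x
            · exact key x hx
        _ = _ := one_mul _
  · by_cases hx : G x = 0
    · by_cases hz : G z = 0
      · rw [hx, hz]; simp; positivity
      · have e : G x * (ff R x - ff R c) - G z * (ff R z - ff R c) =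
            (G x - G z) * (ff R z - ff R c) := by rw [hx]; ring
        rw [e, abs_mul]
        calc |G x - G z| * |ff R z - ff R c| ≤ (1 / l) * (4 * k * l / R) := by
              gcongr
              exact key z hz
          _ = 4 * k / R := by field_simp
          _ ≤ (4 * k + 4) / R := by gcongr; linarith
    · have e : G x * (ff R x - ff R c) - G z * (ff R z - ff R c) =
          (G x - G z) * (ff R x - ff R c) + G z * (ff R x - ff R z) := by ring
      rw [e]
      have h1 : |ff R x - ff R z| ≤ 4 / R := by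
        refine (ff_lip R hR x z).trans ?_
        have h2 : (nrm (x - z) : ℝ) ≤ 1 := by exact_mod_cast h
        calc 4 * (nrm (x - z) : ℝ) / R ≤ 4 * 1 / R := by gcongr
          _ = _ := by ring
      calc |(G x - G z) * (ff R x - ff R c) + G z * (ff R x - ff R z)|
          ≤ |(G x - G z) * (ff R x - ff R c)| + |G z * (ff R x - ff R z)| := abs_add_le _ _
        _ = |G x - G z| * |ff R x - ff R c| + |G z| * |ff R x - ff R z| := by
            rw [abs_mul, abs_mul]
        _ ≤ (1 / l) * (4 * k * l / R) + 1 * (4 / R) := by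
            gcongr
            · exact key x hx
            · exact hG1 z
        _ = (4 * k + 4) / R := by field_simp

end J11

theorem hh_bd (R l : ℕ) (hl : 0 < l) (hR : 0 < R) (a x z : ℤ × ℤ) (h : adj x z) :
    |hh R l a x| ≤ 16 * l / R ∧ |hp R l a x| ≤ 16 * l / R ∧ |hh R l a x - hh R l a z| ≤ 16 / R ∧
      |hp R l a x - hp R l a z| ≤ 16 / R := by
  have hl' : (0 : ℝ) < l := by exact_mod_cast hl
  have hR' : (0 : ℝ) < R := by exact_mod_cast hR
  obtain ⟨-, -, g3, g4⟩ := gg_bd l hl a x z h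
  have h1 := gen_bd R l 1 hl hR (ctr l a) (gg l a) (abs_gg_le l a)
    (fun y hy => by have := gg_supp l hl a y hy; push_cast; linarith) x z g3 (adj_nrm h)
  have h3 := gen_bd R l 3 hl hR (ctr l a) (gp l a) (abs_gp_le l a)
    (fun y hy => by have := gp_supp l hl a y hy; push_cast; linarith) x z g4 (adj_nrm h)
  refine ⟨?_, ?_, ?_, ?_⟩
  · refine h1.1.trans ?_
    gcongr
    norm_num
  · refine h3.1.trans ?_
    gcongr
    norm_num
  · refine h1.2.trans ?_
    gcongr
    norm_num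
  · refine h3.2.trans ?_
    gcongr
    norm_num

theorem AA_bd (R l : ℕ) (hl : 0 < l) (hR : 32 * l ≤ R) (a : ℤ × ℤ) (ha : a ∈ AA R l)
    (x : ℤ × ℤ) (hx : nrm (x - ctr l a) ≤ 4 * l) : 4 * nrm x < 3 * R := by
  have hlz : (0 : ℤ) < l := by exact_mod_cast hl
  have hRz : 32 * (l : ℤ) ≤ R := by exact_mod_cast hR
  have hfl := floor_bd' R l
  unfold AA at ha
  rw [Finset.mem_product, Finset.mem_Icc, Finset.mem_Icc] at ha
  push_cast at ha
  set n : ℤ := ((R / (2 * l) : ℕ) : ℤ) with hn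
  have hn' : (R : ℤ) / (2 * l) = n := by rw [hn]; push_cast; rfl
  rw [hn'] at ha
  have h1 : nrm (ctr l a) ≤ l * (n + 3) := by
    rw [nrm_le]
    unfold ctr
    constructor
    · rw [abs_mul, abs_of_pos hlz]
      exact mul_le_mul_of_nonneg_left (abs_le.2 ha.1) hlz.le
    · rw [abs_mul, abs_of_pos hlz]
      exact mul_le_mul_of_nonneg_left (abs_le.2 ha.2) hlz.le
  have h2 := nrm_tri x (ctr l a)
  nlinarith

/-- every point lies in at most 81 cells -/
theorem AA_card (R l : ℕ) (hl : 0 < l) (x : ℤ × ℤ) :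
    ((AA R l).filter (fun a => nrm (x - ctr l a) ≤ 4 * l)).card ≤ 81 := by
  have hlz : (0 : ℤ) < l := by exact_mod_cast hl
  have hsub : (AA R l).filter (fun a => nrm (x - ctr l a) ≤ 4 * l) ⊆
      Finset.Icc (x.1 / (l : ℤ) - 4) (x.1 / (l : ℤ) + 4) ×ˢ
        Finset.Icc (x.2 / (l : ℤ) - 4) (x.2 / (l : ℤ) + 4) := by
    intro a ha
    rw [Finset.mem_filter, nrm_le] at ha
    have key : ∀ u b : ℤ, |u - l * b| ≤ 4 * l → u / (l : ℤ) - 4 ≤ b ∧ b ≤ u / (l : ℤ) + 4 := by
      intro u b hb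
      have h1 := abs_le.1 hb
      have hqr := Int.mul_ediv_add_emod u l
      have hr0 : 0 ≤ u % (l : ℤ) := Int.emod_nonneg _ hlz.ne'
      have hrl : u % (l : ℤ) < l := Int.emod_lt_of_pos _ hlz
      set q := u / (l : ℤ)
      constructor
      · have h2 : (l : ℤ) * (q - 4) < l * (b + 1) := by nlinarith [h1.1, h1.2]
        have := lt_of_mul_lt_mul_left h2 hlz.le
        omega
      · have h2 : (l : ℤ) * b < l * (q + 5) := by nlinarith [h1.1, h1.2]
        have := lt_of_mul_lt_mul_left h2 hlz.le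
        omega
    rw [Finset.mem_product, Finset.mem_Icc, Finset.mem_Icc]
    exact ⟨key _ _ ha.2.1, key _ _ ha.2.2⟩
  refine (Finset.card_le_card hsub).trans ?_
  rw [Finset.card_product, Int.card_Icc, Int.card_Icc]
  have h3 : ∀ q : ℤ, (q + 4 + 1 - (q - 4)).toNat = 9 := fun q => by omega
  rw [h3, h3]

/-- every cell is close to at most 625 cells -/
theorem AA_card' (R l : ℕ) (hl : 0 < l) (a : ℤ × ℤ) :
    ((AA R l).filter (fun b => nrm (ctr l b - ctr l a) ≤ 12 * l)).card ≤ 625 := by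
  have hlz : (0 : ℤ) < l := by exact_mod_cast hl
  have hsub : (AA R l).filter (fun b => nrm (ctr l b - ctr l a) ≤ 12 * l) ⊆
      Finset.Icc (a.1 - 12) (a.1 + 12) ×ˢ Finset.Icc (a.2 - 12) (a.2 + 12) := by
    intro b hb
    rw [Finset.mem_filter, nrm_le] at hb
    have key : ∀ u v : ℤ, |(l : ℤ) * v - l * u| ≤ 12 * l → u - 12 ≤ v ∧ v ≤ u + 12 := by
      intro u v huv
      have h1 : |(l : ℤ) * v - l * u| = l * |v - u| := by
        rw [← mul_sub, abs_mul, abs_of_pos hlz]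
      rw [h1] at huv
      have h2 : (l : ℤ) * |v - u| ≤ l * 12 := by linarith
      have h3 := abs_le.1 (le_of_mul_le_mul_left h2 hlz)
      constructor <;> linarith [h3.1, h3.2]
    rw [Finset.mem_product, Finset.mem_Icc, Finset.mem_Icc]
    exact ⟨key _ _ hb.2.1, key _ _ hb.2.2⟩
  refine (Finset.card_le_card hsub).trans ?_
  rw [Finset.card_product, Int.card_Icc, Int.card_Icc]
  have h3 : ∀ q : ℤ, (q + 12 + 1 - (q - 12)).toNat = 25 := fun q => by omega
  rw [h3, h3]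

end Pool.Agent.TH369.AG
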