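import Pool.Agent.TH369.AG.J2

/-!
Job 1574 (ARBOREAL-3): the change of variables `t ↦ cf N t`.
-/

set_option autoImplicit false
set_option linter.unusedSectionVars false

namespace Pool.Agent.TH369.AG

open MeasureTheory Matrix

variable {V : Type} [Fintype V] [DecidableEq V]

namespace J3

open J2

/-- the Jacobian matrix -/
noncomputable def JM (N : Net V) (t : V → ℝ) : Matrix V V ℝ :=
  Matrix.diagonal (fun x => Real.exp (- t x)) * (-(HM N (cf N t))) *
    Matrix.diagonal (fun x => Real.exp (t x))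

lemma JM_mulVec (N : Net V) (t h : V → ℝ) (x : V) :
    (JM N t *ᵥ h) x = - (cf N t x) * h x + ∑ z, N.B x z * Real.exp (t z - t x) * h z := by
  unfold JM
  rw [← Matrix.mulVec_mulVec, ← Matrix.mulVec_mulVec, Matrix.mulVec_diagonal,
    Matrix.neg_mulVec, Pi.neg_apply, HM_mulVec]
  simp only [Matrix.mulVec_diagonal]
  have e4 : Real.exp (- t x) * Real.exp (t x) = 1 := by
    rw [← Real.exp_add, neg_add_cancel, Real.exp_zero]
  have h1 : ∑ z, N.B x z * Real.exp (t z - t x) * h z =
      Real.exp (- t x) * ∑ z, N.B x z * (Real.exp (t z) * h z) := by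
    rw [Finset.mul_sum]
    apply Finset.sum_congr rfl
    intro z _
    rw [show t z - t x = t z + - t x by ring, Real.exp_add]
    ring
  rw [h1]
  linear_combination (-(cf N t x * h x)) * e4

lemma JM_det (N : Net V) (hN : N.Conn) (t : V → ℝ) : |(JM N t).det| = (HM N (cf N t)).det := by
  unfold JM
  rw [Matrix.det_mul, Matrix.det_mul, Matrix.det_diagonal, Matrix.det_diagonal, Matrix.det_neg]
  have h1 : (∏ x, Real.exp (- t x)) * ∏ x, Real.exp (t x) = 1 := by
    rw [← Finset.prod_mul_distrib]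
    apply Finset.prod_eq_one
    intro x _
    rw [← Real.exp_add, neg_add_cancel, Real.exp_zero]
  rw [show (∏ x, Real.exp (- t x)) * ((-1) ^ Fintype.card V * (HM N (cf N t)).det) *
    ∏ x, Real.exp (t x) = ((∏ x, Real.exp (- t x)) * ∏ x, Real.exp (t x)) *
      ((-1) ^ Fintype.card V * (HM N (cf N t)).det) by ring, h1, one_mul, abs_mul, abs_pow,
    abs_neg, abs_one, one_pow, one_mul, abs_of_pos (posDef_cf N hN t).det_pos]

lemma hasFDerivAt_cf (N : Net V) (t : V → ℝ) :
    HasFDerivAt (cf N) (LinearMap.toContinuousLinearMap (Matrix.toLin' (JM N t))) t := by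
  rw [hasFDerivAt_pi']
  intro x
  have hp : ∀ z : V, HasFDerivAt (fun t : V → ℝ => t z)
      (ContinuousLinearMap.proj (R := ℝ) (φ := fun _ : V => ℝ) z) t := fun z =>
    (ContinuousLinearMap.proj (R := ℝ) (φ := fun _ : V => ℝ) z).hasFDerivAt
  have h1 : HasFDerivAt (fun t : V → ℝ => N.r x * Real.exp (- t x) +
      ∑ z, N.B x z * Real.exp (t z - t x))
      (N.r x • (Real.exp (- t x) • (-(ContinuousLinearMap.proj (R := ℝ) (φ := fun _ : V => ℝ) x))) +
      ∑ z, N.B x z • (Real.exp (t z - t x) •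
        (ContinuousLinearMap.proj (R := ℝ) (φ := fun _ : V => ℝ) z -
          ContinuousLinearMap.proj (R := ℝ) (φ := fun _ : V => ℝ) x))) t := by
    apply HasFDerivAt.add
    · exact ((hp x).neg.exp).const_mul _
    · apply HasFDerivAt.fun_sum
      intro z _
      exact (((hp z).sub (hp x)).exp).const_mul _
  refine h1.congr_fderiv ?_
  ext h
  have e : ((ContinuousLinearMap.proj (R := ℝ) (φ := fun _ : V => ℝ) x).comp
      (LinearMap.toContinuousLinearMap (Matrix.toLin' (JM N t)))) h = (JM N t *ᵥ h) x := rfl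
  rw [e, JM_mulVec]
  simp only [_root_.add_apply, _root_.sum_apply, _root_.smul_apply,
    _root_.neg_apply, _root_.sub_apply, ContinuousLinearMap.proj_apply,
    smul_eq_mul]
  unfold cf
  have h2 : ∀ z, N.B x z * (Real.exp (t z - t x) * (h z - h x)) =
      N.B x z * Real.exp (t z - t x) * h z - N.B x z * Real.exp (t z - t x) * h x := by
    intro z
    ring
  simp only [h2, Finset.sum_sub_distrib, ← Finset.sum_mul]
  ring

lemma inj_cf (N : Net V) (hN : N.Conn) : Set.InjOn (cf N) Set.univ := by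
  intro t _ t' _ h
  have hu : IsUnit (HM N (cf N t)).det := by
    rw [isUnit_iff_ne_zero]
    exact (posDef_cf N hN t).det_pos.ne'
  have h1 := HM_cf_mulVec N t
  have h2 := HM_cf_mulVec N t'
  rw [← h] at h2
  have h3 : (fun x => Real.exp (t x)) = fun x => Real.exp (t' x) := by
    have e1 := congrArg (fun v => (HM N (cf N t))⁻¹ *ᵥ v) (h1.trans h2.symm)
    simp only [Matrix.mulVec_mulVec, Matrix.nonsing_inv_mul _ hu, Matrix.one_mulVec] at e1
    exact e1
  funext x
  exact Real.exp_injective (congrFun h3 x)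

lemma image_cf (N : Net V) (hN : N.Conn) : cf N '' Set.univ = {a | (HM N a).PosDef} := by
  apply Set.Subset.antisymm
  · rintro a ⟨t, _, rfl⟩
    exact posDef_cf N hN t
  · intro a ha
    rw [Set.mem_ofPred_eq] at ha
    set ψ : V → ℝ := (HM N a)⁻¹ *ᵥ N.r with hψ
    have hpos : ∀ x, 0 < ψ x := fun x => inv_mulVec_r_pos N hN a ha x
    have hH : HM N a *ᵥ ψ = N.r := mulVec_inv N ha _
    refine ⟨fun x => Real.log (ψ x), Set.mem_univ _, ?_⟩
    funext x
    unfold cf
    have h1 := congrFun hH x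
    rw [HM_mulVec] at h1
    have h2 : Real.exp (- Real.log (ψ x)) = (ψ x)⁻¹ := by
      rw [Real.exp_neg, Real.exp_log (hpos x)]
    have h3 : ∀ z, N.B x z * Real.exp (Real.log (ψ z) - Real.log (ψ x)) =
        (N.B x z * ψ z) * (ψ x)⁻¹ := by
      intro z
      rw [sub_eq_add_neg, Real.exp_add, h2, Real.exp_log (hpos z)]
      ring
    simp only [h3]
    rw [h2, ← Finset.sum_mul, ← add_mul, ← h1]
    have := (hpos x).ne'
    field_simp
    ring

lemma exponent (N : Net V) (hN : N.Conn) (t : V → ℝ) :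
    wA N (cf N t) = Real.sqrt (HM N (cf N t)).det * Real.exp (- En0 N t) := by
  unfold wA
  congr 2
  have hu : IsUnit (HM N (cf N t)).det := by
    rw [isUnit_iff_ne_zero]
    exact (posDef_cf N hN t).det_pos.ne'
  have h1 : (HM N (cf N t))⁻¹ *ᵥ N.r = fun x => Real.exp (t x) := by
    have e1 := congrArg (fun v => (HM N (cf N t))⁻¹ *ᵥ v) (HM_cf_mulVec N t)
    simp only [Matrix.mulVec_mulVec, Matrix.nonsing_inv_mul _ hu, Matrix.one_mulVec] at e1
    exact e1.symm
  rw [h1]
  have h2 : ∑ x, ∑ z, HM N (cf N t) x z = ∑ x, N.r x * Real.exp (- t x) +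
      ∑ x, ∑ z, N.B x z * Real.exp (t z - t x) - ∑ x, ∑ z, N.B x z := by
    rw [← Finset.sum_add_distrib, ← Finset.sum_sub_distrib]
    apply Finset.sum_congr rfl
    intro x _
    simp only [HM_apply, Finset.sum_sub_distrib]
    rw [Finset.sum_ite_eq, if_pos (Finset.mem_univ x)]
    rfl
  have hswap : ∑ x, ∑ z, N.B x z * Real.exp (t x - t z) =
      ∑ x, ∑ z, N.B x z * Real.exp (t z - t x) := by
    rw [Finset.sum_comm]
    apply Finset.sum_congr rfl
    intro x _
    apply Finset.sum_congr rfl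
    intro z _
    rw [N.symm z x]
  have h3 : ∑ x, ∑ z, N.B x z * (Real.cosh (t x - t z) - 1) =
      ∑ x, ∑ z, N.B x z * Real.exp (t z - t x) - ∑ x, ∑ z, N.B x z := by
    have e : ∀ x z, N.B x z * (Real.cosh (t x - t z) - 1) =
        (1 / 2) * (N.B x z * Real.exp (t x - t z)) + (1 / 2) * (N.B x z * Real.exp (t z - t x)) -
          N.B x z := by
      intro x z
      rw [Real.cosh_eq, show -(t x - t z) = t z - t x by ring]
      ring
    simp only [e, Finset.sum_sub_distrib, Finset.sum_add_distrib, ← Finset.mul_sum]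
    rw [hswap]
    ring
  have h4 : ∑ x, N.r x * (Real.cosh (t x) - 1) = (1 / 2) * ∑ x, N.r x * Real.exp (t x) +
      (1 / 2) * ∑ x, N.r x * Real.exp (- t x) - ∑ x, N.r x := by
    rw [Finset.mul_sum, Finset.mul_sum, ← Finset.sum_add_distrib, ← Finset.sum_sub_distrib]
    apply Finset.sum_congr rfl
    intro x _
    rw [Real.cosh_eq]
    ring
  have h5 : N.r ⬝ᵥ (fun x => Real.exp (t x)) = ∑ x, N.r x * Real.exp (t x) := rfl
  unfold En0
  rw [h2, h3, h4, h5]
  ring

end J3

open J3

/-! ### J3: the change of variables -/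

theorem cov (N : Net V) (hN : N.Conn) (Φ : (V → ℝ) → ENNReal) :
    ∫⁻ t : V → ℝ, ENNReal.ofReal (Real.exp (- En0 N t) *
      ((HM N (cf N t)).det * Real.sqrt (HM N (cf N t)).det)) * Φ (cf N t) = IA N Φ := by
  unfold IA
  rw [← image_cf N hN, lintegral_image_eq_lintegral_abs_det_fderiv_mul volume MeasurableSet.univ
    (fun t _ => (hasFDerivAt_cf N t).hasFDerivWithinAt) (inj_cf N hN), Measure.restrict_univ]
  apply lintegral_congr
  intro t
  have hd : (LinearMap.toContinuousLinearMap (Matrix.toLin' (JM N t))).det = (JM N t).det := by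
    show LinearMap.det (Matrix.toLin' (JM N t)) = _
    rw [LinearMap.det_toLin']
  have e : ENNReal.ofReal (Real.exp (- En0 N t) *
      ((HM N (cf N t)).det * Real.sqrt (HM N (cf N t)).det)) =
      ENNReal.ofReal (HM N (cf N t)).det *
        ENNReal.ofReal (Real.sqrt (HM N (cf N t)).det * Real.exp (- En0 N t)) := by
    rw [← ENNReal.ofReal_mul (posDef_cf N hN t).det_pos.le]
    congr 1
    ring
  rw [hd, JM_det N hN, exponent N hN, e, mul_assoc]

end Pool.Agent.TH369.AG
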