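import Pool.Agent.TH369.AG.Defs2

/-!
# ARBOREAL-5: expansion of the determinant of `HM N (cf N t)` with nonnegative coefficients
-/

set_option autoImplicit false
namespace Pool.Agent.TH369.AG
open MeasureTheory Matrix
variable {V : Type} [Fintype V] [DecidableEq V]

namespace J5

/-- The indicator vector of an optional vertex. -/
def oe (o : Option V) : V → ℝ := o.elim 0 (fun z => Pi.single z 1)

/-- The matrix `1 - s P_f`. -/
def PM (s : ℝ) (f : V → Option V) : Matrix V V ℝ :=
  Matrix.of fun x => (Pi.single x 1 : V → ℝ) - s • oe (f x)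

omit [Fintype V] in
lemma PM_apply (s : ℝ) (f : V → Option V) (x y : V) :
    PM s f x y = (if y = x then 1 else 0) - s * oe (f x) y := by
  simp [PM, Pi.single_apply]

omit [Fintype V] in
lemma oe_some (z y : V) : oe (some z) y = if y = z then (1 : ℝ) else 0 := by
  simp [oe, Pi.single_apply]

omit [Fintype V] in
lemma oe_none (y : V) : oe (none : Option V) y = 0 := by
  simp [oe]

lemma det_PM_ne_zero (s : ℝ) (h0 : 0 ≤ s) (h1 : s < 1) (f : V → Option V) :
    (PM s f).det ≠ 0 := by
  apply det_ne_zero_of_sum_row_lt_diag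
  intro k
  rcases hk : f k with _ | z
  · rw [Finset.sum_eq_zero]
    · rw [PM_apply, hk, oe_none]
      simp
    · intro j hj
      have hjk : j ≠ k := (Finset.mem_erase.mp hj).1
      rw [PM_apply, hk, oe_none]
      simp [hjk]
  · by_cases hz : z = k
    · subst hz
      rw [Finset.sum_eq_zero]
      · rw [PM_apply, hk, oe_some]
        simp only [if_true, mul_one]
        rw [norm_pos_iff]
        linarith
      · intro j hj
        have hjk : j ≠ z := (Finset.mem_erase.mp hj).1
        rw [PM_apply, hk, oe_some]
        simp [hjk]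
    · rw [Finset.sum_eq_single z]
      · rw [PM_apply, PM_apply, hk, oe_some, oe_some]
        have hz' : ¬ (k = z) := fun h => hz h.symm
        simp [hz, hz', abs_of_nonneg h0]
        exact h1
      · intro j hj hjz
        have hjk : j ≠ k := (Finset.mem_erase.mp hj).1
        rw [PM_apply, hk, oe_some]
        simp [hjk, hjz]
      · intro hz2
        exact absurd (Finset.mem_erase.mpr ⟨hz, Finset.mem_univ z⟩) hz2

/-- The coefficient. -/
noncomputable def kap (f : V → Option V) : ℝ := (PM 1 f).det

lemma kap_nonneg (f : V → Option V) : 0 ≤ kap f := by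
  by_contra hneg
  push Not at hneg
  have hc : Continuous fun s : ℝ => (PM s f).det := by
    apply Continuous.matrix_det
    apply continuous_matrix
    intro i j
    simp only [PM_apply]
    fun_prop
  have h0 : (PM 0 f).det = 1 := by
    have : PM 0 f = 1 := by
      ext i j
      rw [PM_apply, Matrix.one_apply]
      by_cases h : i = j
      · simp [h]
      · have : ¬ (j = i) := fun h' => h h'.symm
        simp [h, this]
    rw [this, Matrix.det_one]
  have hivt := intermediate_value_Icc' (zero_le_one : (0 : ℝ) ≤ 1) hc.continuousOn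
  have hmem : (0 : ℝ) ∈ Set.Icc ((PM 1 f).det) ((PM 0 f).det) := by
    rw [h0]
    exact ⟨le_of_lt hneg, zero_le_one⟩
  obtain ⟨s, hs, hs0⟩ := hivt hmem
  have hs1 : s ≠ 1 := by
    rintro rfl
    exact absurd hs0 (ne_of_lt hneg)
  exact det_PM_ne_zero s hs.1 (lt_of_le_of_ne hs.2 hs1) f hs0

lemma kap_eq_zero (f : V → Option V) (u v : V) (huv : u ≠ v) (hu : f u = some v)
    (hv : f v = some u) : kap f = 0 := by
  have h : (PM 1 f) u = - (PM 1 f) v := by
    funext y
    rw [Pi.neg_apply, PM_apply, PM_apply, hu, hv, oe_some, oe_some]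
    ring
  have h2 : (PM 1 f).det = ((PM 1 f).updateRow u ((PM 1 f) u + (1 : ℝ) • (PM 1 f) v)).det := by
    rw [Matrix.det_updateRow_add_smul_self _ huv]
  unfold kap
  rw [h2]
  apply Matrix.det_eq_zero_of_row_eq_zero u
  intro j
  rw [Matrix.updateRow_self, h]
  simp

/-- The weights. -/
noncomputable def cc (N : Net V) (t : V → ℝ) (x : V) : Option V → ℝ
  | none => N.r x
  | some z => N.B x z * Real.exp (t z)

omit [Fintype V] [DecidableEq V] in
lemma cc_nonneg (N : Net V) (t : V → ℝ) (x : V) (o : Option V) : 0 ≤ cc N t x o := by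
  cases o with
  | none => exact N.rn x
  | some z => exact mul_nonneg (N.nn x z) (Real.exp_pos _).le

lemma mul_diag (N : Net V) (t : V → ℝ) :
    HM N (cf N t) * diagonal (fun x => Real.exp (t x)) =
      Matrix.of fun x => ∑ o : Option V, cc N t x o • ((Pi.single x 1 : V → ℝ) - (1 : ℝ) • oe o) := by
  ext x y
  rw [Matrix.mul_diagonal]
  simp only [Matrix.of_apply, Finset.sum_apply, Pi.smul_apply, Pi.sub_apply, smul_eq_mul,
    Fintype.sum_option, Pi.add_apply, cc, oe_none, oe_some, one_mul, Pi.single_apply, sub_zero]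
  simp only [HM, Matrix.sub_apply, Matrix.of_apply, Matrix.diagonal_apply]
  have e1 : ∑ z, N.B x z * Real.exp (t z) * ((if y = x then (1 : ℝ) else 0) - if y = z then 1 else 0)
      = (if y = x then (1 : ℝ) else 0) * (∑ z, N.B x z * Real.exp (t z)) -
        N.B x y * Real.exp (t y) := by
    simp only [mul_sub, Finset.sum_sub_distrib]
    congr 1
    · rw [Finset.mul_sum]
      apply Finset.sum_congr rfl
      intro z _
      ring
    · simp
  rw [e1]
  by_cases h : y = x
  · subst h
    simp only [if_true, cf]
    rw [sub_mul, add_mul, Finset.sum_mul, one_mul, mul_one]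
    have e2 : ∀ z, N.B y z * Real.exp (t z - t y) * Real.exp (t y) = N.B y z * Real.exp (t z) := by
      intro z
      rw [mul_assoc, ← Real.exp_add]
      congr 2
      ring
    simp only [e2]
    rw [mul_assoc, ← Real.exp_add]
    simp
    ring
  · have h' : ¬ (x = y) := fun h2 => h h2.symm
    simp [h, h']

/-- The expansion. -/
lemma expansion (N : Net V) (t : V → ℝ) :
    (HM N (cf N t)).det = Real.exp (- ∑ x, t x) * ∑ f : V → Option V, kap f * ∏ x, cc N t x (f x) := by
  have h1 : (HM N (cf N t) * diagonal (fun x => Real.exp (t x))).det =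
      ∑ f : V → Option V, kap f * ∏ x, cc N t x (f x) := by
    rw [mul_diag]
    have h2 := (Matrix.detRowAlternating (n := V) (R := ℝ)).toMultilinearMap.map_sum
      (fun (x : V) (o : Option V) => cc N t x o • ((Pi.single x 1 : V → ℝ) - (1 : ℝ) • oe o))
    refine Eq.trans h2 ?_
    apply Finset.sum_congr rfl
    intro f _
    have h3 := (Matrix.detRowAlternating (n := V) (R := ℝ)).toMultilinearMap.map_smul_univ
      (fun x => cc N t x (f x)) (fun x => (Pi.single x 1 : V → ℝ) - (1 : ℝ) • oe (f x))
    refine Eq.trans h3 ?_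
    rw [smul_eq_mul, mul_comm]
    rfl
  rw [Matrix.det_mul, Matrix.det_diagonal] at h1
  rw [← h1, ← Real.exp_sum, Real.exp_neg]
  field_simp

lemma det_nonneg (N : Net V) (t : V → ℝ) : 0 ≤ (HM N (cf N t)).det := by
  rw [expansion]
  apply mul_nonneg (Real.exp_pos _).le
  apply Finset.sum_nonneg
  intro f _
  exact mul_nonneg (kap_nonneg f) (Finset.prod_nonneg fun x _ => cc_nonneg N t x _)

/-- The coefficient without the exponential. -/
def c0 (N : Net V) (x : V) : Option V → ℝ
  | none => N.r x
  | some z => N.B x z

omit [Fintype V] [DecidableEq V] in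
lemma c0_nonneg (N : Net V) (x : V) (o : Option V) : 0 ≤ c0 N x o := by
  cases o with
  | none => exact N.rn x
  | some z => exact N.nn x z

lemma cc_eq (N : Net V) (t : V → ℝ) (x : V) (o : Option V) :
    cc N t x o = c0 N x o * Real.exp (∑ y, oe o y * t y) := by
  cases o with
  | none => simp [cc, c0, oe_none]
  | some z => simp [cc, c0, oe_some]

lemma expansion2 (N : Net V) (t : V → ℝ) :
    (HM N (cf N t)).det = ∑ f : V → Option V, (kap f * ∏ x, c0 N x (f x)) *
      Real.exp (∑ y, ((∑ x, oe (f x) y) - 1) * t y) := by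
  rw [expansion, Finset.mul_sum]
  apply Finset.sum_congr rfl
  intro f _
  simp only [cc_eq]
  rw [Finset.prod_mul_distrib, ← Real.exp_sum]
  have : ∑ y, ((∑ x, oe (f x) y) - 1) * t y = - ∑ x, t x + ∑ x, ∑ y, oe (f x) y * t y := by
    rw [Finset.sum_comm]
    rw [← Finset.sum_neg_distrib, ← Finset.sum_add_distrib]
    apply Finset.sum_congr rfl
    intro y _
    rw [sub_mul, Finset.sum_mul]
    ring
  rw [this, Real.exp_add]
  ring

end J5

open J5

/-! ### J5: positivity of the determinant expansion -/

theorem det_expansion (N : Net V) : ∃ (J : Type) (_ : Fintype J) (α : J → ℝ) (m : J → V → ℝ),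
    (∀ j, 0 ≤ α j) ∧
    ∀ t : V → ℝ, (HM N (cf N t)).det ^ 2 = ∑ j, α j * Real.exp (∑ x, m j x * t x) := by
  refine ⟨(V → Option V) × (V → Option V), inferInstance,
    fun j => (kap j.1 * ∏ x, c0 N x (j.1 x)) * (kap j.2 * ∏ x, c0 N x (j.2 x)),
    fun j y => ((∑ x, oe (j.1 x) y) - 1) + ((∑ x, oe (j.2 x) y) - 1), ?_, ?_⟩
  · intro j
    exact mul_nonneg
      (mul_nonneg (kap_nonneg _) (Finset.prod_nonneg fun x _ => c0_nonneg N x _))
      (mul_nonneg (kap_nonneg _) (Finset.prod_nonneg fun x _ => c0_nonneg N x _))
  · intro t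
    rw [expansion2, sq, Finset.sum_mul_sum, Fintype.sum_prod_type]
    apply Finset.sum_congr rfl
    intro f _
    apply Finset.sum_congr rfl
    intro g _
    simp only [add_mul, Finset.sum_add_distrib, Real.exp_add]
    ring

/-- halving the weight between `u` and `v` at most halves the determinant -/
theorem det_half (N N' : Net V) (u v : V) (huv : u ≠ v) (hr : N'.r = N.r)
    (h1 : ∀ x z, ¬((x = u ∧ z = v) ∨ (x = v ∧ z = u)) → N'.B x z = N.B x z)
    (h2 : N'.B u v = N.B u v / 2) (t : V → ℝ) :
    (HM N (cf N t)).det ≤ 2 * (HM N' (cf N' t)).det ∧ 0 ≤ (HM N' (cf N' t)).det := by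
  refine ⟨?_, J5.det_nonneg N' t⟩
  rw [expansion, expansion]
  have h2' : N'.B v u = N.B v u / 2 := by rw [N'.symm v u, h2, N.symm v u]
  have key : ∀ f : V → Option V, kap f * ∏ x, cc N t x (f x) ≤
      2 * (kap f * ∏ x, cc N' t x (f x)) := by
    intro f
    have hcc : ∀ x o, ¬ ((x = u ∧ o = some v) ∨ (x = v ∧ o = some u)) →
        cc N t x o = cc N' t x o := by
      intro x o hxo
      cases o with
      | none => simp only [cc, hr]
      | some z =>
        simp only [cc]
        rw [h1 x z]
        rintro (⟨a, b⟩ | ⟨a, b⟩)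
        · exact hxo (Or.inl ⟨a, by rw [b]⟩)
        · exact hxo (Or.inr ⟨a, by rw [b]⟩)
    by_cases hu : f u = some v
    · by_cases hv : f v = some u
      · rw [kap_eq_zero f u v huv hu hv]
        simp
      · have e : ∏ x, cc N t x (f x) = 2 * ∏ x, cc N' t x (f x) := by
          rw [← Finset.mul_prod_erase Finset.univ (fun x => cc N t x (f x)) (Finset.mem_univ u),
            ← Finset.mul_prod_erase Finset.univ (fun x => cc N' t x (f x)) (Finset.mem_univ u),
            ← mul_assoc]
          congr 1
          · simp only [hu, cc]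
            rw [h2]; ring
          · apply Finset.prod_congr rfl
            intro x hx
            have hxu : x ≠ u := (Finset.mem_erase.mp hx).1
            apply hcc
            rintro (⟨a, b⟩ | ⟨a, b⟩)
            · exact hxu a
            · subst a; exact hv b
        rw [e]
        apply le_of_eq; ring
    · by_cases hv : f v = some u
      · have e : ∏ x, cc N t x (f x) = 2 * ∏ x, cc N' t x (f x) := by
          rw [← Finset.mul_prod_erase Finset.univ (fun x => cc N t x (f x)) (Finset.mem_univ v),
            ← Finset.mul_prod_erase Finset.univ (fun x => cc N' t x (f x)) (Finset.mem_univ v),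
            ← mul_assoc]
          congr 1
          · simp only [hv, cc]
            rw [h2']; ring
          · apply Finset.prod_congr rfl
            intro x hx
            have hxu : x ≠ v := (Finset.mem_erase.mp hx).1
            apply hcc
            rintro (⟨a, b⟩ | ⟨a, b⟩)
            · subst a; exact hu b
            · exact hxu a
        rw [e]
        apply le_of_eq; ring
      · have e : ∏ x, cc N t x (f x) = ∏ x, cc N' t x (f x) := by
          apply Finset.prod_congr rfl
          intro x _
          apply hcc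
          rintro (⟨a, b⟩ | ⟨a, b⟩)
          · subst a; exact hu b
          · subst a; exact hv b
        rw [e]
        have : 0 ≤ kap f * ∏ x, cc N' t x (f x) :=
          mul_nonneg (kap_nonneg f) (Finset.prod_nonneg fun x _ => cc_nonneg N' t x _)
        linarith
  have hs : ∑ f : V → Option V, kap f * ∏ x, cc N t x (f x) ≤
      2 * ∑ f : V → Option V, kap f * ∏ x, cc N' t x (f x) := by
    rw [Finset.mul_sum]
    exact Finset.sum_le_sum fun f _ => key f
  calc Real.exp (- ∑ x, t x) * ∑ f : V → Option V, kap f * ∏ x, cc N t x (f x)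
      ≤ Real.exp (- ∑ x, t x) * (2 * ∑ f : V → Option V, kap f * ∏ x, cc N' t x (f x)) :=
        mul_le_mul_of_nonneg_left hs (Real.exp_pos _).le
    _ = _ := by ring

end Pool.Agent.TH369.AG
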