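import Pool.Agent.TH369.AG.Defs2

set_option autoImplicit false
set_option linter.unusedSectionVars false
set_option linter.unusedSimpArgs false

namespace Pool.Agent.TH369.AG

open MeasureTheory Matrix

variable {V : Type} [Fintype V] [DecidableEq V]

/-! ### J6: growth, integrability, integration by parts -/

namespace J6

lemma ed_symm (t y : V → ℝ) (x z : V) : ed t y x z = ed t y z x := by unfold ed; ring

lemma exp_two (a : ℝ) : 2 ≤ Real.exp a + Real.exp (-a) := by
  have h := Real.one_le_cosh a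
  rw [Real.cosh_eq] at h
  linarith

lemma ed_aux (t y : V → ℝ) (x z : V) :
    0 ≤ Real.exp (t x - t z) * y z ^ 2 + Real.exp (t z - t x) * y x ^ 2 - 2 * (y x * y z) := by
  have hA : 0 < Real.exp (t x - t z) := Real.exp_pos _
  have hAA : Real.exp (t x - t z) * Real.exp (t z - t x) = 1 := by
    rw [← Real.exp_add]; simp
  set A := Real.exp (t x - t z)
  set A' := Real.exp (t z - t x)
  have h1 : A * (A * y z ^ 2 + A' * y x ^ 2 - 2 * (y x * y z)) = (A * y z - y x) ^ 2 := by
    linear_combination (y x ^ 2) * hAA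
  have h2 : 0 ≤ A * (A * y z ^ 2 + A' * y x ^ 2 - 2 * (y x * y z)) := by rw [h1]; positivity
  exact nonneg_of_mul_nonneg_right h2 hA

lemma ed_eq (t y : V → ℝ) (x z : V) : ed t y x z =
    (1 / 2) * (Real.exp (t x - t z) + Real.exp (t z - t x)) - 1 +
    (1 / 2) * (Real.exp (t x - t z) * y z ^ 2 + Real.exp (t z - t x) * y x ^ 2 -
      2 * (y x * y z)) := by
  unfold ed; ring

lemma exp_two' (a b : ℝ) : 2 ≤ Real.exp (a - b) + Real.exp (b - a) := by
  have := exp_two (a - b)
  rwa [neg_sub] at this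

lemma ed_nonneg (t y : V → ℝ) (x z : V) : 0 ≤ ed t y x z := by
  rw [ed_eq]
  have h1 := ed_aux t y x z
  have h2 := exp_two' (t x) (t z)
  linarith

lemma exp_le_ed (t y : V → ℝ) (x z : V) : Real.exp (t x - t z) ≤ 2 * (ed t y x z + 1) := by
  rw [ed_eq]
  have h1 := ed_aux t y x z
  have h2 := Real.exp_pos (t z - t x)
  linarith

lemma exp_le_ed' (t y : V → ℝ) (x z : V) : Real.exp (t z - t x) ≤ 2 * (ed t y x z + 1) := by
  rw [ed_symm]; exact exp_le_ed t y z x

lemma y_le_ed (t y : V → ℝ) (x z : V) : Real.exp (t x - t z) * y z ^ 2 ≤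
    2 * Real.exp (t z - t x) * y x ^ 2 + 4 * ed t y x z := by
  have hA : 0 < Real.exp (t x - t z) := Real.exp_pos _
  have hAA : Real.exp (t x - t z) * Real.exp (t z - t x) = 1 := by
    rw [← Real.exp_add]; simp
  have h2 := exp_two' (t x) (t z)
  unfold ed
  set A := Real.exp (t x - t z)
  set A' := Real.exp (t z - t x)
  have h1 : A * (A * y z ^ 2 + 4 * A' * y x ^ 2 - 4 * (y x * y z)) = (A * y z - 2 * y x) ^ 2 := by
    linear_combination (4 * y x ^ 2) * hAA
  have h3 : 0 ≤ A * (A * y z ^ 2 + 4 * A' * y x ^ 2 - 4 * (y x * y z)) := by rw [h1]; positivity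
  have h4 := nonneg_of_mul_nonneg_right h3 hA
  nlinarith

lemma er_nonneg (t y : V → ℝ) (x : V) : 0 ≤ er t y x := by
  unfold er
  have h2 := exp_two (t x)
  have h3 : 0 ≤ Real.exp (- t x) * y x ^ 2 := by positivity
  nlinarith

lemma exp_le_er (t y : V → ℝ) (x : V) : Real.exp (t x) ≤ 2 * (er t y x + 1) := by
  unfold er
  have h3 : 0 ≤ Real.exp (- t x) * (1 + y x ^ 2) := by positivity
  nlinarith

lemma exp_le_er' (t y : V → ℝ) (x : V) : Real.exp (- t x) * (1 + y x ^ 2) ≤ 2 * (er t y x + 1) := by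
  unfold er
  have h3 := Real.exp_pos (t x)
  nlinarith

lemma ed_term_nonneg (N : Net V) (t y : V → ℝ) (x z : V) : 0 ≤ N.B x z * ed t y x z :=
  mul_nonneg (N.nn x z) (ed_nonneg t y x z)

lemma er_term_nonneg (N : Net V) (t y : V → ℝ) (x : V) : 0 ≤ N.r x * er t y x :=
  mul_nonneg (N.rn x) (er_nonneg t y x)

lemma En_nonneg (N : Net V) (t y : V → ℝ) : 0 ≤ En N t y := by
  unfold En
  have h1 : 0 ≤ ∑ x, ∑ z, N.B x z * ed t y x z :=
    Finset.sum_nonneg fun x _ => Finset.sum_nonneg fun z _ => ed_term_nonneg N t y x z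
  have h2 : 0 ≤ ∑ x, N.r x * er t y x := Finset.sum_nonneg fun x _ => er_term_nonneg N t y x
  linarith

lemma er_le (N : Net V) (t y : V → ℝ) (x : V) : N.r x * er t y x ≤ En N t y := by
  unfold En
  have h1 : 0 ≤ ∑ x, ∑ z, N.B x z * ed t y x z :=
    Finset.sum_nonneg fun x _ => Finset.sum_nonneg fun z _ => ed_term_nonneg N t y x z
  have h2 : N.r x * er t y x ≤ ∑ x, N.r x * er t y x :=
    Finset.single_le_sum (f := fun x => N.r x * er t y x) (fun x _ => er_term_nonneg N t y x)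
      (Finset.mem_univ x)
  linarith

lemma ed_le (N : Net V) (t y : V → ℝ) (x z : V) : N.B x z * ed t y x z ≤ En N t y := by
  by_cases hxz : x = z
  · subst hxz
    rw [N.diag, zero_mul]
    exact En_nonneg N t y
  unfold En
  have h2 : 0 ≤ ∑ x, N.r x * er t y x := Finset.sum_nonneg fun x _ => er_term_nonneg N t y x
  have h3 : N.B x z * ed t y x z + N.B z x * ed t y z x ≤ ∑ x, ∑ z, N.B x z * ed t y x z := by
    have hne : (x, z) ≠ (z, x) := by
      intro h
      exact hxz (Prod.mk.inj h).1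
    have h4 := Finset.sum_le_sum_of_subset_of_nonneg
      (f := fun q : V × V => N.B q.1 q.2 * ed t y q.1 q.2)
      (Finset.subset_univ ({(x, z), (z, x)} : Finset (V × V)))
      (fun q _ _ => ed_term_nonneg N t y q.1 q.2)
    rw [Finset.sum_pair hne, Fintype.sum_prod_type] at h4
    exact h4
  rw [ed_symm t y z x, N.symm z x] at h3
  linarith

/-- bounded by a polynomial of the energy -/
def PB (N : Net V) (φ : (V → ℝ) × (V → ℝ) → ℝ) : Prop :=
  ∃ K : ℕ, ∀ p, φ p ≤ K * (1 + En N p.1 p.2) ^ K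

lemma one_le_E (N : Net V) (p : (V → ℝ) × (V → ℝ)) : 1 ≤ 1 + En N p.1 p.2 := by
  have := En_nonneg N p.1 p.2
  linarith

lemma PB.mono {N : Net V} {φ ψ : (V → ℝ) × (V → ℝ) → ℝ} (h : PB N ψ) (hle : ∀ p, φ p ≤ ψ p) :
    PB N φ := by
  obtain ⟨K, hK⟩ := h
  exact ⟨K, fun p => (hle p).trans (hK p)⟩

lemma PB.add {N : Net V} {φ ψ : (V → ℝ) × (V → ℝ) → ℝ} (h1 : PB N φ) (h2 : PB N ψ) :
    PB N (fun p => φ p + ψ p) := by
  obtain ⟨K, hK⟩ := h1
  obtain ⟨L, hL⟩ := h2
  refine ⟨K + L, fun p => ?_⟩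
  have hE := one_le_E N p
  have a1 : (1 + En N p.1 p.2) ^ K ≤ (1 + En N p.1 p.2) ^ (K + L) :=
    pow_le_pow_right₀ hE (by omega)
  have a2 : (1 + En N p.1 p.2) ^ L ≤ (1 + En N p.1 p.2) ^ (K + L) :=
    pow_le_pow_right₀ hE (by omega)
  have b1 := hK p
  have b2 := hL p
  have c1 : (K : ℝ) * (1 + En N p.1 p.2) ^ K ≤ K * (1 + En N p.1 p.2) ^ (K + L) :=
    mul_le_mul_of_nonneg_left a1 (by positivity)
  have c2 : (L : ℝ) * (1 + En N p.1 p.2) ^ L ≤ L * (1 + En N p.1 p.2) ^ (K + L) :=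
    mul_le_mul_of_nonneg_left a2 (by positivity)
  push_cast
  linarith

lemma PB.mul {N : Net V} {φ ψ : (V → ℝ) × (V → ℝ) → ℝ} (h1 : PB N φ) (h2 : PB N ψ)
    (n1 : ∀ p, 0 ≤ φ p) (n2 : ∀ p, 0 ≤ ψ p) :
    PB N (fun p => φ p * ψ p) := by
  obtain ⟨K, hK⟩ := h1
  obtain ⟨L, hL⟩ := h2
  refine ⟨K * L + (K + L), fun p => ?_⟩
  have hE := one_le_E N p
  have b : φ p * ψ p ≤ (K * (1 + En N p.1 p.2) ^ K) * (L * (1 + En N p.1 p.2) ^ L) :=
    mul_le_mul (hK p) (hL p) (n2 p) (le_trans (n1 p) (hK p))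
  have e : ((K : ℝ) * (1 + En N p.1 p.2) ^ K) * (L * (1 + En N p.1 p.2) ^ L) =
      (K * L : ℝ) * (1 + En N p.1 p.2) ^ (K + L) := by ring
  rw [e] at b
  refine b.trans ?_
  push_cast
  refine mul_le_mul ?_ (pow_le_pow_right₀ hE (by omega)) (by positivity) (by positivity)
  have : (0 : ℝ) ≤ K + L := by positivity
  linarith

lemma PB.const (N : Net V) (c : ℝ) : PB N (fun _ => c) := by
  obtain ⟨K, hK⟩ := exists_nat_ge c
  refine ⟨K, fun p => ?_⟩
  have hE := one_le_E N p
  have h1 : (1 : ℝ) ≤ (1 + En N p.1 p.2) ^ K := one_le_pow₀ hE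
  have h2 : (0 : ℝ) ≤ K := by positivity
  nlinarith

lemma PB.sum {N : Net V} {ι : Type} (s : Finset ι) {φ : ι → (V → ℝ) × (V → ℝ) → ℝ}
    (h : ∀ i ∈ s, PB N (φ i)) : PB N (fun p => ∑ i ∈ s, φ i p) := by
  classical
  induction s using Finset.induction_on with
  | empty => simpa using PB.const N 0
  | insert a s ha ih =>
    have h1 := ih (fun i hi => h i (Finset.mem_insert_of_mem hi))
    have h2 := (h a (Finset.mem_insert_self a s)).add h1
    simpa [Finset.sum_insert ha] using h2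

lemma PB.energy (N : Net V) {c : ℝ} (hc : 0 < c) {φ : (V → ℝ) × (V → ℝ) → ℝ}
    (h : ∀ p, c * φ p ≤ En N p.1 p.2) : PB N φ := by
  have h1 : PB N (fun p => c⁻¹ * En N p.1 p.2) := by
    obtain ⟨K, hK⟩ := exists_nat_ge c⁻¹
    refine ⟨K + 1, fun p => ?_⟩
    have hE := one_le_E N p
    have hE0 := En_nonneg N p.1 p.2
    have h1 : (1 + En N p.1 p.2) ^ 1 ≤ (1 + En N p.1 p.2) ^ (K + 1) :=
      pow_le_pow_right₀ hE (by omega)
    rw [pow_one] at h1
    have h2 : c⁻¹ * En N p.1 p.2 ≤ (K + 1 : ℝ) * (1 + En N p.1 p.2) := by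
      refine mul_le_mul (by linarith) (by linarith) hE0 (by positivity)
    refine h2.trans ?_
    push_cast
    exact mul_le_mul_of_nonneg_left h1 (by positivity)
  refine h1.mono fun p => ?_
  have := h p
  rw [inv_mul_eq_div, le_div_iff₀ hc]
  linarith

lemma reach_bound (N : Net V) {x : V} (h : N.Reach x) :
    PB N (fun p => Real.exp (p.1 x)) ∧ PB N (fun p => Real.exp (- p.1 x)) ∧
      PB N (fun p => p.2 x ^ 2) := by
  induction h with
  | @root x hr =>
    have h0 : PB N (fun p => er p.1 p.2 x) := PB.energy N hr (fun p => er_le N p.1 p.2 x)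
    have h1 : PB N (fun p => 2 * (er p.1 p.2 x + 1)) := by
      have := (h0.add (PB.const N 1))
      exact (PB.const N 2).mul this (fun _ => by norm_num) (fun p => by
        have := er_nonneg p.1 p.2 x
        linarith)
    have h2 : PB N (fun p => Real.exp (p.1 x)) := h1.mono fun p => exp_le_er p.1 p.2 x
    have h3 : PB N (fun p => Real.exp (- p.1 x) * (1 + p.2 x ^ 2)) :=
      h1.mono fun p => exp_le_er' p.1 p.2 x
    refine ⟨h2, h3.mono fun p => ?_, ?_⟩
    · have := Real.exp_pos (- p.1 x)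
      nlinarith [sq_nonneg (p.2 x)]
    · have h4 := h2.mul h3 (fun p => (Real.exp_pos _).le) (fun p => by positivity)
      refine h4.mono fun p => ?_
      rw [← mul_assoc, ← Real.exp_add]
      simp
  | @step x z hx hB ih =>
    obtain ⟨i1, i2, i3⟩ := ih
    have h0 : PB N (fun p => ed p.1 p.2 x z) := PB.energy N hB (fun p => ed_le N p.1 p.2 x z)
    have h1 : PB N (fun p => 2 * (ed p.1 p.2 x z + 1)) := by
      have := (h0.add (PB.const N 1))
      exact (PB.const N 2).mul this (fun _ => by norm_num) (fun p => by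
        have := ed_nonneg p.1 p.2 x z
        linarith)
    have h2 : PB N (fun p => Real.exp (p.1 x - p.1 z)) := h1.mono fun p => exp_le_ed p.1 p.2 x z
    have h3 : PB N (fun p => Real.exp (p.1 z - p.1 x)) := h1.mono fun p => exp_le_ed' p.1 p.2 x z
    refine ⟨?_, ?_, ?_⟩
    · refine (i1.mul h3 (fun p => (Real.exp_pos _).le) (fun p => (Real.exp_pos _).le)).mono
        fun p => ?_
      rw [← Real.exp_add]; apply le_of_eq; congr 1; ring
    · refine (i2.mul h2 (fun p => (Real.exp_pos _).le) (fun p => (Real.exp_pos _).le)).mono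
        fun p => ?_
      rw [← Real.exp_add]; apply le_of_eq; congr 1; ring
    · have h4 : PB N (fun p => 2 * (Real.exp (p.1 z - p.1 x) * p.2 x ^ 2) +
          4 * ed p.1 p.2 x z) := by
        refine PB.add ?_ ?_
        · exact (PB.const N 2).mul (h3.mul i3 (fun p => (Real.exp_pos _).le)
            (fun p => sq_nonneg _)) (fun _ => by norm_num) (fun p => by positivity)
        · exact (PB.const N 4).mul h0 (fun _ => by norm_num) (fun p => ed_nonneg _ _ _ _)
      have h5 := h3.mul h4 (fun p => (Real.exp_pos _).le) (fun p => by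
        have := ed_nonneg p.1 p.2 x z
        positivity)
      refine h5.mono fun p => ?_
      have h6 := y_le_ed p.1 p.2 x z
      have h7 : p.2 z ^ 2 = Real.exp (p.1 z - p.1 x) *
          (Real.exp (p.1 x - p.1 z) * p.2 z ^ 2) := by
        rw [← mul_assoc, ← Real.exp_add]; simp
      rw [h7]
      refine mul_le_mul_of_nonneg_left ?_ (Real.exp_pos _).le
      linarith

end J6

theorem coer (N : Net V) (hN : N.Conn) : ∃ K : ℕ, ∀ p : (V → ℝ) × (V → ℝ),
    MM p ≤ K * (1 + En N p.1 p.2) ^ K := by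
  have h : J6.PB N (fun p => 1 + ∑ x, (Real.exp (p.1 x) + Real.exp (- p.1 x) + p.2 x ^ 2)) := by
    refine (J6.PB.const N 1).add (J6.PB.sum _ fun x _ => ?_)
    obtain ⟨h1, h2, h3⟩ := J6.reach_bound N (hN x)
    exact (h1.add h2).add h3
  exact h

namespace J6

lemma one_le_MM (p : (V → ℝ) × (V → ℝ)) : 1 ≤ MM p := by
  unfold MM
  have : 0 ≤ ∑ x, (Real.exp (p.1 x) + Real.exp (- p.1 x) + p.2 x ^ 2) :=
    Finset.sum_nonneg fun x _ => by positivity
  linarith

lemma term_le_MM (p : (V → ℝ) × (V → ℝ)) (x : V) :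
    1 + (Real.exp (p.1 x) + Real.exp (- p.1 x) + p.2 x ^ 2) ≤ MM p := by
  unfold MM
  have := Finset.single_le_sum
    (f := fun x => Real.exp (p.1 x) + Real.exp (- p.1 x) + p.2 x ^ 2)
    (fun x _ => by positivity) (Finset.mem_univ x)
  linarith

lemma exp_le_MM (p : (V → ℝ) × (V → ℝ)) (x : V) : Real.exp (p.1 x) ≤ MM p := by
  have := term_le_MM p x
  have h1 := Real.exp_pos (- p.1 x)
  nlinarith [sq_nonneg (p.2 x)]

lemma exp_neg_le_MM (p : (V → ℝ) × (V → ℝ)) (x : V) : Real.exp (- p.1 x) ≤ MM p := by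
  have := term_le_MM p x
  have h1 := Real.exp_pos (p.1 x)
  nlinarith [sq_nonneg (p.2 x)]

lemma sq_le_MM (p : (V → ℝ) × (V → ℝ)) (x : V) : 1 + p.2 x ^ 2 ≤ MM p := by
  have := term_le_MM p x
  have h1 := Real.exp_pos (p.1 x)
  have h2 := Real.exp_pos (- p.1 x)
  linarith

lemma exp_abs_le_MM (p : (V → ℝ) × (V → ℝ)) (x : V) : Real.exp |p.1 x| ≤ MM p := by
  rcases abs_cases (p.1 x) with h | h
  · rw [h.1]; exact exp_le_MM p x
  · rw [h.1]; exact exp_neg_le_MM p x

lemma sqt_le_MM (p : (V → ℝ) × (V → ℝ)) (x : V) : 1 + p.1 x ^ 2 ≤ 2 * MM p := by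
  have h1 := exp_abs_le_MM p x
  have h2 := Real.quadratic_le_exp_of_nonneg (abs_nonneg (p.1 x))
  rw [sq_abs] at h2
  have h3 := abs_nonneg (p.1 x)
  linarith

lemma abs_le_log (p : (V → ℝ) × (V → ℝ)) (x : V) : |p.1 x| ≤ Real.log (MM p) :=
  (Real.le_log_iff_exp_le (lt_of_lt_of_le one_pos (one_le_MM p))).2 (exp_abs_le_MM p x)

lemma lin_le (m : V → ℝ) (p : (V → ℝ) × (V → ℝ)) :
    Real.exp (∑ x, m x * p.1 x) ≤ MM p ^ ⌈∑ x, |m x|⌉₊ := by
  have h0 := lt_of_lt_of_le one_pos (one_le_MM p)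
  have hl : 0 ≤ Real.log (MM p) := Real.log_nonneg (one_le_MM p)
  have h1 : ∑ x, m x * p.1 x ≤ (⌈∑ x, |m x|⌉₊ : ℝ) * Real.log (MM p) := by
    calc ∑ x, m x * p.1 x ≤ ∑ x, |m x| * Real.log (MM p) := by
          refine Finset.sum_le_sum fun x _ => ?_
          calc m x * p.1 x ≤ |m x * p.1 x| := le_abs_self _
            _ = |m x| * |p.1 x| := abs_mul _ _
            _ ≤ |m x| * Real.log (MM p) :=
              mul_le_mul_of_nonneg_left (abs_le_log p x) (abs_nonneg _)
      _ = (∑ x, |m x|) * Real.log (MM p) := by rw [Finset.sum_mul]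
      _ ≤ _ := mul_le_mul_of_nonneg_right (Nat.le_ceil _) hl
  calc Real.exp (∑ x, m x * p.1 x) ≤ Real.exp ((⌈∑ x, |m x|⌉₊ : ℝ) * Real.log (MM p)) :=
        Real.exp_le_exp.2 h1
    _ = _ := by rw [Real.exp_nat_mul, Real.exp_log h0]

lemma energy_bound (N : Net V) (hN : N.Conn) (j : ℕ) :
    ∃ C : ℝ, 0 ≤ C ∧ ∀ p : (V → ℝ) × (V → ℝ), MM p ^ j * Real.exp (- En N p.1 p.2) ≤ C := by
  obtain ⟨K, hK⟩ := coer N hN
  refine ⟨(K : ℝ) ^ j * ((K * j).factorial * Real.exp 1), by positivity, fun p => ?_⟩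
  have hE := one_le_E N p
  have h1 : MM p ^ j ≤ (K : ℝ) ^ j * (1 + En N p.1 p.2) ^ (K * j) := by
    calc MM p ^ j ≤ (K * (1 + En N p.1 p.2) ^ K) ^ j :=
          pow_le_pow_left₀ (by linarith [one_le_MM p]) (hK p) j
      _ = _ := by rw [mul_pow, ← pow_mul]
  have h2 : (1 + En N p.1 p.2) ^ (K * j) ≤
      (K * j).factorial * Real.exp (1 + En N p.1 p.2) := by
    have := Real.pow_div_factorial_le_exp (1 + En N p.1 p.2) (by linarith) (K * j)
    rw [div_le_iff₀ (by positivity)] at this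
    linarith
  have h3 : MM p ^ j ≤ (K : ℝ) ^ j * ((K * j).factorial * Real.exp (1 + En N p.1 p.2)) :=
    h1.trans (mul_le_mul_of_nonneg_left h2 (by positivity))
  calc MM p ^ j * Real.exp (- En N p.1 p.2) ≤
        ((K : ℝ) ^ j * ((K * j).factorial * Real.exp (1 + En N p.1 p.2))) *
          Real.exp (- En N p.1 p.2) := mul_le_mul_of_nonneg_right h3 (Real.exp_pos _).le
    _ = (K : ℝ) ^ j * ((K * j).factorial * (Real.exp (1 + En N p.1 p.2) *
          Real.exp (- En N p.1 p.2))) := by ring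
    _ = _ := by rw [← Real.exp_add]; congr 3; ring

/-- the dominating function -/
noncomputable def PP (p : (V → ℝ) × (V → ℝ)) : ℝ :=
  (∏ x, (1 + p.1 x ^ 2)⁻¹) * ∏ x, (1 + p.2 x ^ 2)⁻¹

lemma integrable_PP : Integrable (PP (V := V)) := by
  have h1 : Integrable (fun t : V → ℝ => ∏ x, (1 + t x ^ 2)⁻¹) :=
    Integrable.fintype_prod (f := fun _ : V => fun t : ℝ => (1 + t ^ 2)⁻¹)
      (fun _ => integrable_inv_one_add_sq)
  exact Integrable.mul_prod h1 h1

lemma one_le_PP (p : (V → ℝ) × (V → ℝ)) :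
    1 ≤ 2 ^ Fintype.card V * MM p ^ (2 * Fintype.card V) * PP p := by
  have e : 2 ^ Fintype.card V * MM p ^ (2 * Fintype.card V) * PP p =
      ∏ x, ((2 * MM p ^ 2) * ((1 + p.1 x ^ 2)⁻¹ * (1 + p.2 x ^ 2)⁻¹)) := by
    simp only [Finset.prod_mul_distrib, Finset.prod_const, Finset.card_univ, PP, ← pow_mul]
  rw [e]
  calc (1 : ℝ) = ∏ _x : V, (1 : ℝ) := by simp
    _ ≤ _ := by
      refine Finset.prod_le_prod (fun _ _ => zero_le_one) fun x _ => ?_
      have h1 := sqt_le_MM p x
      have h2 := sq_le_MM p x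
      have h3 := one_le_MM p
      rw [← mul_inv, ← div_eq_mul_inv, le_div_iff₀ (by positivity), one_mul]
      calc (1 + p.1 x ^ 2) * (1 + p.2 x ^ 2) ≤ (2 * MM p) * MM p :=
            mul_le_mul h1 h2 (by positivity) (by linarith)
        _ = _ := by ring

lemma continuous_dn (N : Net V) (m : V → ℝ) : Continuous (dn N m) := by
  unfold dn En ed er
  fun_prop

end J6

theorem integrable_dn (N : Net V) (hN : N.Conn) (m : V → ℝ) (F : (V → ℝ) × (V → ℝ) → ℝ)
    (hc : Continuous F) (hF : Gr F) : Integrable (fun p => F p * dn N m p) := by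
  obtain ⟨L, hL⟩ := hF
  set M := ⌈∑ x, |m x|⌉₊ with hM
  obtain ⟨C, hC0, hC⟩ := J6.energy_bound N hN (L + M + 2 * Fintype.card V)
  refine Integrable.mono' (J6.integrable_PP.const_mul (L * 2 ^ Fintype.card V * C))
    (hc.mul (J6.continuous_dn N m)).aestronglyMeasurable
    (Filter.Eventually.of_forall fun p => ?_)
  have hMM := J6.one_le_MM p
  have hP : 0 ≤ J6.PP p := by
    unfold J6.PP
    refine mul_nonneg (Finset.prod_nonneg fun x _ => by positivity)
      (Finset.prod_nonneg fun x _ => by positivity)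
  have hdn : dn N m p ≤ MM p ^ M * Real.exp (- En N p.1 p.2) := by
    unfold dn
    rw [Real.exp_add, mul_comm]
    exact mul_le_mul_of_nonneg_right (J6.lin_le m p) (Real.exp_pos _).le
  have hdn0 : 0 ≤ dn N m p := (Real.exp_pos _).le
  rw [norm_mul, Real.norm_eq_abs, Real.norm_eq_abs, abs_of_nonneg hdn0]
  calc |F p| * dn N m p ≤ (L * MM p ^ L) * (MM p ^ M * Real.exp (- En N p.1 p.2)) :=
        mul_le_mul (hL p) hdn hdn0 (by positivity)
    _ = L * (MM p ^ (L + M) * Real.exp (- En N p.1 p.2)) * 1 := by rw [pow_add]; ring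
    _ ≤ L * (MM p ^ (L + M) * Real.exp (- En N p.1 p.2)) *
        (2 ^ Fintype.card V * MM p ^ (2 * Fintype.card V) * J6.PP p) :=
        mul_le_mul_of_nonneg_left (J6.one_le_PP p) (by positivity)
    _ = L * 2 ^ Fintype.card V *
        (MM p ^ (L + M + 2 * Fintype.card V) * Real.exp (- En N p.1 p.2)) * J6.PP p := by
        rw [pow_add (MM p) (L + M)]; ring
    _ ≤ L * 2 ^ Fintype.card V * C * J6.PP p := by
        refine mul_le_mul_of_nonneg_right ?_ hP
        exact mul_le_mul_of_nonneg_left (hC p) (by positivity)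

namespace J6

lemma grMul {F G : (V → ℝ) × (V → ℝ) → ℝ} (h1 : Gr F) (h2 : Gr G) : Gr (fun p => F p * G p) := by
  obtain ⟨K, hK⟩ := h1
  obtain ⟨L, hL⟩ := h2
  refine ⟨K * L + (K + L), fun p => ?_⟩
  have hM := one_le_MM p
  rw [abs_mul]
  have b : |F p| * |G p| ≤ (K * MM p ^ K) * (L * MM p ^ L) :=
    mul_le_mul (hK p) (hL p) (abs_nonneg _) (by positivity)
  have e : ((K : ℝ) * MM p ^ K) * (L * MM p ^ L) = (K * L : ℝ) * MM p ^ (K + L) := by ring
  rw [e] at b
  refine b.trans ?_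
  push_cast
  refine mul_le_mul ?_ (pow_le_pow_right₀ hM (by omega)) (by positivity) (by positivity)
  have : (0 : ℝ) ≤ K + L := by positivity
  linarith

lemma grAdd {F G : (V → ℝ) × (V → ℝ) → ℝ} (h1 : Gr F) (h2 : Gr G) : Gr (fun p => F p + G p) := by
  obtain ⟨K, hK⟩ := h1
  obtain ⟨L, hL⟩ := h2
  refine ⟨K + L, fun p => ?_⟩
  have hE := one_le_MM p
  have a1 : MM p ^ K ≤ MM p ^ (K + L) := pow_le_pow_right₀ hE (by omega)
  have a2 : MM p ^ L ≤ MM p ^ (K + L) := pow_le_pow_right₀ hE (by omega)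
  have b1 := hK p
  have b2 := hL p
  have c1 : (K : ℝ) * MM p ^ K ≤ K * MM p ^ (K + L) :=
    mul_le_mul_of_nonneg_left a1 (by positivity)
  have c2 : (L : ℝ) * MM p ^ L ≤ L * MM p ^ (K + L) :=
    mul_le_mul_of_nonneg_left a2 (by positivity)
  have := abs_add_le (F p) (G p)
  push_cast
  linarith

lemma grConst (c : ℝ) : Gr (fun _ : (V → ℝ) × (V → ℝ) => c) := by
  obtain ⟨K, hK⟩ := exists_nat_ge |c|
  refine ⟨K, fun p => ?_⟩
  have hE := one_le_MM p
  have h1 : (1 : ℝ) ≤ MM p ^ K := one_le_pow₀ hE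
  have h2 : (0 : ℝ) ≤ K := by positivity
  nlinarith

lemma grNeg {F : (V → ℝ) × (V → ℝ) → ℝ} (h1 : Gr F) : Gr (fun p => - F p) := by
  obtain ⟨K, hK⟩ := h1
  exact ⟨K, fun p => by rw [abs_neg]; exact hK p⟩

lemma grSub {F G : (V → ℝ) × (V → ℝ) → ℝ} (h1 : Gr F) (h2 : Gr G) : Gr (fun p => F p - G p) := by
  simpa [sub_eq_add_neg] using grAdd h1 (grNeg h2)

lemma grSum {ι : Type} (s : Finset ι) {F : ι → (V → ℝ) × (V → ℝ) → ℝ}
    (h : ∀ i, Gr (F i)) : Gr (fun p => ∑ i ∈ s, F i p) := by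
  classical
  induction s using Finset.induction_on with
  | empty => simpa using grConst (V := V) 0
  | insert a s ha ih =>
    have h2 := grAdd (h a) ih
    simpa [Finset.sum_insert ha] using h2

lemma gr_of_le {F : (V → ℝ) × (V → ℝ) → ℝ} (h : ∀ p, |F p| ≤ MM p) : Gr F :=
  ⟨1, fun p => by simpa using h p⟩

lemma gr_exp (x : V) : Gr (fun p : (V → ℝ) × (V → ℝ) => Real.exp (p.1 x)) :=
  gr_of_le fun p => by rw [abs_of_pos (Real.exp_pos _)]; exact exp_le_MM p x

lemma gr_expn (x : V) : Gr (fun p : (V → ℝ) × (V → ℝ) => Real.exp (- p.1 x)) :=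
  gr_of_le fun p => by rw [abs_of_pos (Real.exp_pos _)]; exact exp_neg_le_MM p x

lemma gr_exp2 (x z : V) : Gr (fun p : (V → ℝ) × (V → ℝ) => Real.exp (p.1 x - p.1 z)) := by
  have := grMul (gr_exp x) (gr_expn z)
  simp only [← Real.exp_add, ← sub_eq_add_neg] at this
  exact this

lemma gr_y (x : V) : Gr (fun p : (V → ℝ) × (V → ℝ) => p.2 x) :=
  gr_of_le fun p => by
    have h1 := sq_le_MM p x
    have h2 : |p.2 x| ≤ 1 + p.2 x ^ 2 := by
      rw [← sq_abs]
      nlinarith [sq_nonneg (|p.2 x| - 1), abs_nonneg (p.2 x)]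
    linarith

lemma gr_y2 (x : V) : Gr (fun p : (V → ℝ) × (V → ℝ) => 1 + p.2 x ^ 2) :=
  gr_of_le fun p => by
    rw [abs_of_nonneg (by positivity)]
    exact sq_le_MM p x

lemma gr_sA (N : Net V) (m g : V → ℝ) : Gr (sA N m g) := by
  unfold sA
  refine grSum _ fun x => grMul (grConst _) (grSub (grAdd (grSum _ fun z => ?_) ?_) (grConst _))
  · exact grMul (grConst _) (grMul (grConst _)
      (grSub (grMul (gr_exp2 x z) (gr_y2 z)) (grMul (gr_exp2 z x) (gr_y2 x))))
  · exact grMul (grConst _) (grMul (grConst _)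
      (grSub (gr_exp x) (grMul (gr_expn x) (gr_y2 x))))

lemma gr_sN (N : Net V) (g : V → ℝ) : Gr (sN N g) := by
  unfold sN
  refine grSum _ fun x => grMul (grConst _) (grAdd (grSum _ fun z => ?_) ?_)
  · exact grMul (grConst _) (grSub (grMul (gr_y x) (gr_exp z)) (grMul (gr_y z) (gr_exp x)))
  · exact grMul (grConst _) (gr_y x)

lemma continuous_sA (N : Net V) (m g : V → ℝ) : Continuous (sA N m g) := by
  unfold sA
  fun_prop

lemma continuous_sN (N : Net V) (g : V → ℝ) : Continuous (sN N g) := by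
  unfold sN
  fun_prop

lemma sm_gr {F : (V → ℝ) × (V → ℝ) → ℝ} (h : Sm F) : Gr F := by
  obtain ⟨_, K, hK⟩ := h
  exact ⟨K, fun p => le_trans (le_add_of_nonneg_right (norm_nonneg _)) (hK p)⟩

lemma sm_gr_deriv {F : (V → ℝ) × (V → ℝ) → ℝ} (h : Sm F)
    {w : (V → ℝ) × (V → ℝ) → (V → ℝ) × (V → ℝ)} (hw : Gr (fun p => ‖w p‖)) :
    Gr (fun p => fderiv ℝ F p (w p)) := by
  obtain ⟨_, K, hK⟩ := h
  have h1 : Gr (fun p => ‖fderiv ℝ F p‖) := ⟨K, fun p => by
    rw [abs_norm]
    exact le_trans (le_add_of_nonneg_left (abs_nonneg _)) (hK p)⟩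
  obtain ⟨L, hL⟩ := grMul h1 hw
  refine ⟨L, fun p => le_trans ?_ (hL p)⟩
  show |fderiv ℝ F p (w p)| ≤ |‖fderiv ℝ F p‖ * ‖w p‖|
  rw [abs_of_nonneg (mul_nonneg (norm_nonneg (fderiv ℝ F p)) (norm_nonneg (w p))),
    ← Real.norm_eq_abs]
  exact ContinuousLinearMap.le_opNorm _ _

/-- derivative of the energy of an edge -/
noncomputable def ded (t y g h : V → ℝ) (x z : V) : ℝ :=
  (1 / 2) * ((g x - g z) * (Real.exp (t x - t z) * (1 + y z ^ 2) -
    Real.exp (t z - t x) * (1 + y x ^ 2))) +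
  (Real.exp (t x - t z) * (y z * h z) + Real.exp (t z - t x) * (y x * h x) - h x * y z - y x * h z)

/-- derivative of the energy of an edge to the root -/
noncomputable def der (t y g h : V → ℝ) (x : V) : ℝ :=
  (1 / 2) * (g x * (Real.exp (t x) - Real.exp (- t x) * (1 + y x ^ 2))) +
    Real.exp (- t x) * (y x * h x)

/-- derivative of the energy -/
noncomputable def dEn (N : Net V) (t y g h : V → ℝ) : ℝ :=
  (1 / 2) * ∑ x, ∑ z, N.B x z * ded t y g h x z + ∑ x, N.r x * der t y g h x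

lemma hd (t g : V → ℝ) (x : V) : HasDerivAt (fun s : ℝ => (t + s • g) x) (g x) 0 := by
  have := ((hasDerivAt_id (0 : ℝ)).mul_const (g x)).const_add (t x)
  simpa using this

lemma hasDerivAt_ed (t y g h : V → ℝ) (x z : V) :
    HasDerivAt (fun s : ℝ => ed (t + s • g) (y + s • h) x z) (ded t y g h x z) 0 := by
  unfold ed
  have h1 := ((((hd t g x).sub (hd t g z)).exp.mul (((hd y h z).pow 2).const_add 1)).add
    (((hd t g z).sub (hd t g x)).exp.mul (((hd y h x).pow 2).const_add 1))).const_mul (1 / 2)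
  have h2 := (h1.sub ((hd y h x).mul (hd y h z))).sub_const 1
  refine h2.congr_deriv ?_
  unfold ded
  simp
  ring

lemma hasDerivAt_er (t y g h : V → ℝ) (x : V) :
    HasDerivAt (fun s : ℝ => er (t + s • g) (y + s • h) x) (der t y g h x) 0 := by
  unfold er
  have h1 := (((hd t g x).exp.add ((hd t g x).neg.exp.mul
    (((hd y h x).pow 2).const_add 1))).const_mul (1 / 2)).sub_const 1
  refine h1.congr_deriv ?_
  unfold der
  simp
  ring

lemma hasDerivAt_En (N : Net V) (t y g h : V → ℝ) :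
    HasDerivAt (fun s : ℝ => En N (t + s • g) (y + s • h)) (dEn N t y g h) 0 := by
  unfold En dEn
  refine HasDerivAt.add (HasDerivAt.const_mul _ ?_) ?_
  · exact HasDerivAt.fun_sum fun x _ => HasDerivAt.fun_sum fun z _ =>
      (hasDerivAt_ed t y g h x z).const_mul _
  · exact HasDerivAt.fun_sum fun x _ => (hasDerivAt_er t y g h x).const_mul _

lemma hasDerivAt_dn (N : Net V) (m t y g h : V → ℝ) :
    HasDerivAt (fun s : ℝ => dn N m (t + s • g, y + s • h))
      (-(dEn N t y g h - ∑ x, m x * g x) * dn N m (t, y)) 0 := by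
  unfold dn
  have h1 : HasDerivAt (fun s : ℝ => ∑ x, m x * (t + s • g) x) (∑ x, m x * g x) 0 :=
    HasDerivAt.fun_sum fun x _ => (hd t g x).const_mul _
  have h2 := ((hasDerivAt_En N t y g h).neg.add h1).exp
  refine h2.congr_deriv ?_
  simp
  ring

lemma antisym (N : Net V) (g : V → ℝ) (A : V → V → ℝ) (hA : ∀ x z, A x z = - A z x) :
    ∑ x, ∑ z, N.B x z * ((g x - g z) * A x z) = 2 * ∑ x, g x * ∑ z, N.B x z * A x z := by
  have e1 : ∑ x, ∑ z, N.B x z * ((g x - g z) * A x z) =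
      ∑ x, ∑ z, g x * (N.B x z * A x z) - ∑ x, ∑ z, g z * (N.B x z * A x z) := by
    rw [← Finset.sum_sub_distrib]
    refine Finset.sum_congr rfl fun x _ => ?_
    rw [← Finset.sum_sub_distrib]
    refine Finset.sum_congr rfl fun z _ => ?_
    ring
  have e2 : ∑ x, ∑ z, g z * (N.B x z * A x z) = - ∑ x, ∑ z, g x * (N.B x z * A x z) := by
    rw [Finset.sum_comm, ← Finset.sum_neg_distrib]
    refine Finset.sum_congr rfl fun x _ => ?_
    rw [← Finset.sum_neg_distrib]
    refine Finset.sum_congr rfl fun z _ => ?_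
    rw [N.symm z x, hA z x]
    ring
  rw [e1, e2]
  simp only [← Finset.mul_sum]
  ring

lemma dEn_sA (N : Net V) (m t y g : V → ℝ) :
    dEn N t y g 0 - ∑ x, m x * g x = sA N m g (t, y) := by
  unfold dEn sA ded der
  have h := antisym N g (fun x z => (1 / 2) * (Real.exp (t x - t z) * (1 + y z ^ 2) -
    Real.exp (t z - t x) * (1 + y x ^ 2))) (fun x z => by ring)
  have e1 : ∑ x, ∑ z, N.B x z * ((1 / 2) * ((g x - g z) * (Real.exp (t x - t z) * (1 + y z ^ 2) -
      Real.exp (t z - t x) * (1 + y x ^ 2))) + (Real.exp (t x - t z) * (y z * (0 : V → ℝ) z) +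
      Real.exp (t z - t x) * (y x * (0 : V → ℝ) x) - (0 : V → ℝ) x * y z -
        y x * (0 : V → ℝ) z)) =
      ∑ x, ∑ z, N.B x z * ((g x - g z) * ((1 / 2) * (Real.exp (t x - t z) * (1 + y z ^ 2) -
        Real.exp (t z - t x) * (1 + y x ^ 2)))) := by
    refine Finset.sum_congr rfl fun x _ => Finset.sum_congr rfl fun z _ => ?_
    simp only [Pi.zero_apply]
    ring
  rw [e1, h]
  have e2 : ∑ x, g x * (∑ z, N.B x z * ((1 / 2) * (Real.exp (t x - t z) * (1 + y z ^ 2) -
      Real.exp (t z - t x) * (1 + y x ^ 2))) +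
      N.r x * ((1 / 2) * (Real.exp (t x) - Real.exp (- t x) * (1 + y x ^ 2))) - m x) =
      ∑ x, g x * (∑ z, N.B x z * ((1 / 2) * (Real.exp (t x - t z) * (1 + y z ^ 2) -
      Real.exp (t z - t x) * (1 + y x ^ 2)))) +
      ∑ x, g x * (N.r x * ((1 / 2) * (Real.exp (t x) - Real.exp (- t x) * (1 + y x ^ 2)))) -
      ∑ x, m x * g x := by
    rw [← Finset.sum_add_distrib, ← Finset.sum_sub_distrib]
    refine Finset.sum_congr rfl fun x _ => ?_
    ring
  simp only at e2 ⊢
  rw [e2]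
  have e3 : ∑ x, N.r x * ((1 / 2) * (g x * (Real.exp (t x) - Real.exp (- t x) * (1 + y x ^ 2))) +
      Real.exp (- t x) * (y x * (0 : V → ℝ) x)) =
      ∑ x, g x * (N.r x * ((1 / 2) * (Real.exp (t x) - Real.exp (- t x) * (1 + y x ^ 2)))) := by
    refine Finset.sum_congr rfl fun x _ => ?_
    simp only [Pi.zero_apply]
    ring
  rw [e3]
  ring

lemma dEn_sN (N : Net V) (t y g : V → ℝ) :
    dEn N t y 0 (fun x => g x * Real.exp (t x)) = sN N g (t, y) := by
  unfold dEn sN ded der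
  have h := antisym N g (fun x z => y x * Real.exp (t z) - y z * Real.exp (t x))
    (fun x z => by ring)
  have hx : ∀ x z : V, Real.exp (t x - t z) * Real.exp (t z) = Real.exp (t x) := by
    intro x z
    rw [← Real.exp_add]; congr 1; ring
  have hr : ∀ x : V, Real.exp (- t x) * Real.exp (t x) = 1 := by
    intro x
    rw [← Real.exp_add]; simp
  have e1 : ∑ x, ∑ z, N.B x z * ((1 / 2) * (((0 : V → ℝ) x - (0 : V → ℝ) z) *
      (Real.exp (t x - t z) * (1 + y z ^ 2) - Real.exp (t z - t x) * (1 + y x ^ 2))) +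
      (Real.exp (t x - t z) * (y z * (g z * Real.exp (t z))) +
      Real.exp (t z - t x) * (y x * (g x * Real.exp (t x))) - (g x * Real.exp (t x)) * y z -
        y x * (g z * Real.exp (t z)))) =
      ∑ x, ∑ z, N.B x z * ((g x - g z) * (y x * Real.exp (t z) - y z * Real.exp (t x))) := by
    refine Finset.sum_congr rfl fun x _ => Finset.sum_congr rfl fun z _ => ?_
    simp only [Pi.zero_apply]
    linear_combination (N.B x z * y z * g z) * hx x z + (N.B x z * y x * g x) * hx z x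
  rw [e1, h]
  have e2 : ∑ x, g x * (∑ z, N.B x z * (y x * Real.exp (t z) - y z * Real.exp (t x)) +
      N.r x * y x) =
      ∑ x, g x * (∑ z, N.B x z * (y x * Real.exp (t z) - y z * Real.exp (t x))) +
      ∑ x, g x * (N.r x * y x) := by
    rw [← Finset.sum_add_distrib]
    refine Finset.sum_congr rfl fun x _ => ?_
    ring
  simp only at e2 ⊢
  rw [e2]
  have e3 : ∑ x, N.r x * ((1 / 2) * ((0 : V → ℝ) x * (Real.exp (t x) -
      Real.exp (- t x) * (1 + y x ^ 2))) + Real.exp (- t x) * (y x * (g x * Real.exp (t x)))) =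
      ∑ x, g x * (N.r x * y x) := by
    refine Finset.sum_congr rfl fun x _ => ?_
    simp only [Pi.zero_apply]
    linear_combination (N.r x * y x * g x) * hr x
  rw [e3]
  ring

end J6

theorem ibpA (N : Net V) (hN : N.Conn) (m : V → ℝ) (F : (V → ℝ) × (V → ℝ) → ℝ) (hF : Sm F)
    (g : V → ℝ) :
    EE N m (fun p => fderiv ℝ F p (g, 0)) = EE N m (fun p => sA N m g p * F p) := by
  have hFc : Continuous F := hF.1.continuous
  have hF'c : Continuous (fun p => fderiv ℝ F p (g, 0)) :=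
    (hF.1.continuous_fderiv one_ne_zero).clm_apply continuous_const
  have hGF : Gr F := J6.sm_gr hF
  have hGF' : Gr (fun p => fderiv ℝ F p (g, 0)) := J6.sm_gr_deriv hF (J6.grConst _)
  have i1 := integrable_dn N hN m _ hF'c hGF'
  have i2 := integrable_dn N hN m _ hFc hGF
  have i3 : Integrable (fun p => (sA N m g p * F p) * dn N m p) :=
    integrable_dn N hN m _ ((J6.continuous_sA N m g).mul hFc) (J6.grMul (J6.gr_sA N m g) hGF)
  have : (volume : Measure ((V → ℝ) × (V → ℝ))).IsAddHaarMeasure :=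
    Measure.prod.instIsAddHaarMeasure _ _
  have key := integral_bilinear_hasLineDerivAt_right_eq_neg_left_of_integrable
    (μ := (volume : Measure ((V → ℝ) × (V → ℝ))))
    (f := dn N m) (f' := fun p => - sA N m g p * dn N m p) (g := F)
    (g' := fun p => fderiv ℝ F p (g, 0)) (v := (g, 0)) (B := ContinuousLinearMap.mul ℝ ℝ)
    (by
      refine i3.neg.congr (Filter.Eventually.of_forall fun p => ?_)
      simp only [Pi.neg_apply, ContinuousLinearMap.mul_apply']
      ring)
    (by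
      refine i1.congr (Filter.Eventually.of_forall fun p => ?_)
      simp only [ContinuousLinearMap.mul_apply']
      ring)
    (by
      refine i2.congr (Filter.Eventually.of_forall fun p => ?_)
      simp only [ContinuousLinearMap.mul_apply']
      ring)
    (fun p _ => by
      have h := J6.hasDerivAt_dn N m p.1 p.2 g 0
      rw [J6.dEn_sA] at h
      exact h)
    (fun p _ => (hF.1.differentiable one_ne_zero p).hasFDerivAt.hasLineDerivAt (g, 0))
  simp only [ContinuousLinearMap.mul_apply'] at key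
  unfold EE
  rw [← integral_neg] at key
  calc ∫ p, fderiv ℝ F p (g, 0) * dn N m p = ∫ p, dn N m p * fderiv ℝ F p (g, 0) := by
        congr 1; ext p; ring
    _ = _ := key
    _ = _ := by congr 1; ext p; ring

theorem ibpN (N : Net V) (hN : N.Conn) (m : V → ℝ) (F : (V → ℝ) × (V → ℝ) → ℝ) (hF : Sm F)
    (g : V → ℝ) :
    EE N m (fun p => fderiv ℝ F p (0, fun x => g x * Real.exp (p.1 x))) =
      EE N m (fun p => sN N g p * F p) := by
  have hFc : Continuous F := hF.1.continuous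
  have hF'c : Continuous (fun p : (V → ℝ) × (V → ℝ) =>
      fderiv ℝ F p (0, fun x => g x * Real.exp (p.1 x))) :=
    (hF.1.continuous_fderiv one_ne_zero).clm_apply (by fun_prop)
  have hGF : Gr F := J6.sm_gr hF
  have hGw : Gr (fun p : (V → ℝ) × (V → ℝ) =>
      ‖((0, fun x => g x * Real.exp (p.1 x)) : (V → ℝ) × (V → ℝ))‖) := by
    have h1 : Gr (fun p : (V → ℝ) × (V → ℝ) => ∑ x, |g x| * Real.exp (p.1 x)) :=
      J6.grSum _ fun x => J6.grMul (J6.grConst _) (J6.gr_exp x)
    obtain ⟨K, hK⟩ := h1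
    refine ⟨K, fun p => le_trans ?_ (hK p)⟩
    have h0 : 0 ≤ ∑ x, |g x| * Real.exp (p.1 x) := Finset.sum_nonneg fun x _ => by positivity
    rw [abs_norm, abs_of_nonneg h0, Prod.norm_mk, norm_zero]
    refine max_le h0 ((pi_norm_le_iff_of_nonneg h0).2 fun x => ?_)
    rw [norm_mul, Real.norm_eq_abs, Real.norm_eq_abs, abs_of_pos (Real.exp_pos _)]
    exact Finset.single_le_sum (f := fun x => |g x| * Real.exp (p.1 x))
      (fun x _ => by positivity) (Finset.mem_univ x)
  have hGF' : Gr (fun p : (V → ℝ) × (V → ℝ) =>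
      fderiv ℝ F p (0, fun x => g x * Real.exp (p.1 x))) := J6.sm_gr_deriv hF hGw
  have i1 := integrable_dn N hN m _ hF'c hGF'
  have i2 := integrable_dn N hN m _ hFc hGF
  have i3 : Integrable (fun p => (sN N g p * F p) * dn N m p) :=
    integrable_dn N hN m _ ((J6.continuous_sN N g).mul hFc) (J6.grMul (J6.gr_sN N g) hGF)
  unfold EE
  rw [Measure.volume_eq_prod] at i1 i2 i3 ⊢
  rw [integral_prod _ i1, integral_prod _ i3]
  refine integral_congr_ae ?_
  filter_upwards [i1.prod_right_ae, i2.prod_right_ae, i3.prod_right_ae] with t j1 j2 j3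
  have key := integral_bilinear_hasLineDerivAt_right_eq_neg_left_of_integrable
    (μ := (volume : Measure (V → ℝ)))
    (f := fun y => dn N m (t, y)) (f' := fun y => - sN N g (t, y) * dn N m (t, y))
    (g := fun y => F (t, y))
    (g' := fun y => fderiv ℝ F (t, y) (0, fun x => g x * Real.exp (t x)))
    (v := fun x => g x * Real.exp (t x)) (B := ContinuousLinearMap.mul ℝ ℝ)
    (by
      refine j3.neg.congr (Filter.Eventually.of_forall fun p => ?_)
      simp only [Pi.neg_apply, ContinuousLinearMap.mul_apply']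
      ring)
    (by
      refine j1.congr (Filter.Eventually.of_forall fun p => ?_)
      simp only [ContinuousLinearMap.mul_apply']
      ring)
    (by
      refine j2.congr (Filter.Eventually.of_forall fun p => ?_)
      simp only [ContinuousLinearMap.mul_apply']
      ring)
    (fun y _ => by
      have h := J6.hasDerivAt_dn N m t y 0 (fun x => g x * Real.exp (t x))
      rw [J6.dEn_sN] at h
      unfold HasLineDerivAt
      simpa using h)
    (fun y _ => by
      have h := (hF.1.differentiable one_ne_zero (t, y)).hasFDerivAt.hasLineDerivAt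
        (0, fun x => g x * Real.exp (t x))
      unfold HasLineDerivAt at h ⊢
      simpa using h)
  simp only [ContinuousLinearMap.mul_apply'] at key
  rw [← integral_neg] at key
  calc ∫ y, fderiv ℝ F (t, y) (0, fun x => g x * Real.exp (t x)) * dn N m (t, y) =
      ∫ y, dn N m (t, y) * fderiv ℝ F (t, y) (0, fun x => g x * Real.exp (t x)) := by
        congr 1; ext p; ring
    _ = _ := key
    _ = _ := by congr 1; ext p; ring

end Pool.Agent.TH369.AG
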