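import Pool.Agent.TH369.AG.J2
import Pool.Agent.Helper985.PS.M_gauss_matrix

/-!
Job 1578 (ARBOREAL-7): Gaussian integrals in `y`.
-/

set_option autoImplicit false
set_option linter.unusedSectionVars false

namespace Pool.Agent.TH369.AG

open MeasureTheory Matrix

variable {V : Type} [Fintype V] [DecidableEq V]

namespace J7

open J2

lemma quad0 (N : Net V) (t u : V → ℝ) :
    u ⬝ᵥ (HM N (cf N t) *ᵥ u) = ∑ x, (N.r x * Real.exp (- t x) * u x ^ 2) +
      ∑ x, ∑ z, N.B x z * Real.exp (t z - t x) * u x ^ 2 -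
      ∑ x, ∑ z, N.B x z * u x * u z := by
  rw [← Finset.sum_add_distrib, ← Finset.sum_sub_distrib]
  show ∑ x, u x * (HM N (cf N t) *ᵥ u) x = _
  apply Finset.sum_congr rfl
  intro x _
  rw [HM_mulVec]
  unfold cf
  rw [mul_sub, Finset.mul_sum]
  have h1 : ∑ z, u x * (N.B x z * u z) = ∑ z, N.B x z * u x * u z := by
    apply Finset.sum_congr rfl
    intro z _
    ring
  rw [h1]
  congr 1
  rw [add_mul, mul_add, Finset.sum_mul, Finset.mul_sum]
  congr 1
  · ring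
  · apply Finset.sum_congr rfl
    intro z _
    ring

lemma gaussI (Γ : Matrix V V ℝ) (hΓ : Γ.PosDef) :
    Integrable (fun q : V → ℝ => Real.exp (-(q ⬝ᵥ (Γ.mulVec q)))) ∧
    ∫ q : V → ℝ, Real.exp (-(q ⬝ᵥ (Γ.mulVec q))) =
      Real.sqrt Real.pi ^ (Fintype.card V) / Real.sqrt Γ.det := by
  open scoped MatrixOrder in
  obtain ⟨A, hA⟩ := CStarAlgebra.nonneg_iff_eq_star_mul_self.mp hΓ.posSemidef.nonneg
  have hA' : Γ = A.transpose * A := by
    rw [hA, Matrix.star_eq_conjTranspose, Matrix.conjTranspose_eq_transpose_of_trivial]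
  have hdet : A.det ≠ 0 := by
    intro h0
    have h1 := hΓ.det_pos
    rw [hA', Matrix.det_mul, h0, mul_zero] at h1
    exact lt_irrefl _ h1
  have hq : ∀ q : V → ℝ, q ⬝ᵥ (Γ.mulVec q) = ∑ k, (A.mulVec q) k ^ 2 := by
    intro q
    rw [hA', ← Matrix.mulVec_mulVec, Matrix.dotProduct_mulVec, Matrix.vecMul_transpose, dotProduct]
    refine Finset.sum_congr rfl fun k _ => ?_
    ring
  simp_rw [hq]
  obtain ⟨g1, g2⟩ := Helper985.PS.gauss_matrix_cov A hdet
    (fun z => Real.exp (-∑ k, z k ^ 2)) Helper985.PS.gauss_matrix_Gint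
  refine ⟨g1, ?_⟩
  rw [g2, Helper985.PS.gauss_matrix_G]
  have h1 : ∫ t : ℝ, Real.exp (-t ^ 2) = Real.sqrt Real.pi := by
    have h := integral_gaussian 1
    simp only [neg_mul, one_mul, div_one] at h
    exact h
  have h2 : Γ.det = A.det ^ 2 := by
    rw [hA', Matrix.det_mul, Matrix.det_transpose]
    ring
  rw [h1, Finset.prod_const, Finset.card_univ, h2, Real.sqrt_sq_eq_abs]
  rw [div_eq_mul_inv, mul_comm]

lemma half_posDef {H : Matrix V V ℝ} (hH : H.PosDef) : ((1 / 2 : ℝ) • H).PosDef := by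
  apply Matrix.PosDef.of_dotProduct_mulVec_pos
  · have := hH.1
    unfold Matrix.IsHermitian at *
    rw [Matrix.conjTranspose_smul, this, star_trivial]
  · intro x hx
    have := hH.dotProduct_mulVec_pos hx
    rw [Matrix.smul_mulVec, dotProduct_smul, smul_eq_mul]
    linarith

lemma half_dot (H : Matrix V V ℝ) (y : V → ℝ) :
    y ⬝ᵥ (((1 / 2 : ℝ) • H) *ᵥ y) = (1 / 2) * (y ⬝ᵥ H *ᵥ y) := by
  rw [Matrix.smul_mulVec, dotProduct_smul, smul_eq_mul]

lemma half_inv {H : Matrix V V ℝ} (hH : H.PosDef) : ((1 / 2 : ℝ) • H)⁻¹ = (2 : ℝ) • H⁻¹ := by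
  have hu : IsUnit H.det := by
    rw [isUnit_iff_ne_zero]
    exact hH.det_pos.ne'
  apply Matrix.inv_eq_left_inv
  rw [Matrix.smul_mul, Matrix.mul_smul, Matrix.nonsing_inv_mul _ hu, smul_smul]
  norm_num

lemma half_const {H : Matrix V V ℝ} (hH : H.PosDef) :
    Real.sqrt Real.pi ^ (Fintype.card V) / Real.sqrt ((1 / 2 : ℝ) • H).det =
      Real.sqrt (2 * Real.pi) ^ (Fintype.card V) / Real.sqrt H.det := by
  rw [Matrix.det_smul, Real.sqrt_mul (by positivity), Real.sqrt_mul (by norm_num), mul_pow]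
  have h1 : Real.sqrt ((1 / 2 : ℝ) ^ Fintype.card V) = (Real.sqrt 2 ^ Fintype.card V)⁻¹ := by
    rw [← inv_pow, ← Real.sqrt_inv]
    rw [show (1 / 2 : ℝ) = (2 : ℝ)⁻¹ by norm_num]
    rw [Real.sqrt_eq_iff_mul_self_eq (by positivity) (by positivity), ← mul_pow,
      Real.mul_self_sqrt (by positivity)]
  rw [h1]
  have h2 : Real.sqrt 2 ^ Fintype.card V ≠ 0 := by positivity
  have h3 : Real.sqrt H.det ≠ 0 := (Real.sqrt_pos.mpr hH.det_pos).ne'
  field_simp

end J7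

open J7

/-! ### J7: Gaussian integrals in `y` -/

theorem En_eq (N : Net V) (t y : V → ℝ) :
    En N t y = En0 N t + (1 / 2) * (y ⬝ᵥ (HM N (cf N t)) *ᵥ y) := by
  rw [quad0]
  unfold En En0
  have hswap : ∑ x, ∑ z, N.B x z * Real.exp (t x - t z) * y z ^ 2 =
      ∑ x, ∑ z, N.B x z * Real.exp (t z - t x) * y x ^ 2 := by
    rw [Finset.sum_comm]
    apply Finset.sum_congr rfl
    intro x _
    apply Finset.sum_congr rfl
    intro z _
    rw [N.symm z x]
  have h1 : ∑ x, ∑ z, N.B x z * ed t y x z =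
      ∑ x, ∑ z, N.B x z * (Real.cosh (t x - t z) - 1) +
      ∑ x, ∑ z, N.B x z * Real.exp (t z - t x) * y x ^ 2 - ∑ x, ∑ z, N.B x z * y x * y z := by
    have e : ∀ x z, N.B x z * ed t y x z = N.B x z * (Real.cosh (t x - t z) - 1) +
        (1 / 2) * (N.B x z * Real.exp (t z - t x) * y x ^ 2) +
        (1 / 2) * (N.B x z * Real.exp (t x - t z) * y z ^ 2) - N.B x z * y x * y z := by
      intro x z
      unfold ed
      rw [Real.cosh_eq, show -(t x - t z) = t z - t x by ring]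
      ring
    simp only [e, Finset.sum_sub_distrib, Finset.sum_add_distrib, ← Finset.mul_sum]
    rw [hswap]
    ring
  have h2 : ∑ x, N.r x * er t y x = ∑ x, N.r x * (Real.cosh (t x) - 1) +
      (1 / 2) * ∑ x, (N.r x * Real.exp (- t x) * y x ^ 2) := by
    rw [Finset.mul_sum, ← Finset.sum_add_distrib]
    apply Finset.sum_congr rfl
    intro x _
    unfold er
    rw [Real.cosh_eq]
    ring
  rw [h1, h2]
  ring

theorem gauss1 (H : Matrix V V ℝ) (hH : H.PosDef) :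
    ∫⁻ y : V → ℝ, ENNReal.ofReal (Real.exp (-((1 / 2) * (y ⬝ᵥ H *ᵥ y)))) =
      ENNReal.ofReal (Real.sqrt (2 * Real.pi) ^ (Fintype.card V) / Real.sqrt H.det) := by
  obtain ⟨h1, h2⟩ := gaussI _ (half_posDef hH)
  simp only [half_dot] at h1 h2
  rw [← ofReal_integral_eq_lintegral_ofReal h1 (Filter.Eventually.of_forall fun y =>
    (Real.exp_pos _).le), h2, half_const hH]

theorem gauss2 (H : Matrix V V ℝ) (hH : H.PosDef) (ζ : V → ℝ) :
    ∫⁻ y : V → ℝ, ENNReal.ofReal (Real.exp (-((1 / 2) * (y ⬝ᵥ H *ᵥ y))) * (∑ x, ζ x * y x) ^ 2) =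
      ENNReal.ofReal (Real.sqrt (2 * Real.pi) ^ (Fintype.card V) / Real.sqrt H.det *
        (ζ ⬝ᵥ H⁻¹ *ᵥ ζ)) := by
  obtain ⟨h1, h2⟩ := gaussI _ (half_posDef hH)
  obtain ⟨_, h3⟩ := Helper985.PS.gauss_matrix _ (half_posDef hH)
  obtain ⟨h4, h5⟩ := h3 ζ
  rw [half_inv hH, Matrix.smul_mulVec, dotProduct_smul, smul_eq_mul] at h5
  simp only [half_dot] at h1 h2 h4 h5
  have e : ∀ y : V → ℝ, Real.exp (-((1 / 2) * (y ⬝ᵥ H *ᵥ y))) * (∑ x, ζ x * y x) ^ 2 =
      (∑ x, ζ x * y x) ^ 2 * Real.exp (-((1 / 2) * (y ⬝ᵥ H *ᵥ y))) := fun y => mul_comm _ _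
  simp only [e]
  rw [← ofReal_integral_eq_lintegral_ofReal h4 (Filter.Eventually.of_forall fun y => by
    positivity), h5, h2, half_const hH]
  congr 1
  ring

end Pool.Agent.TH369.AG
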