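import Pool.Agent.TH369.AG.Defs5
import Pool.Agent.TH369.AG.J2
import Pool.Agent.TH369.AG.J3
import Pool.Agent.TH369.AG.J5
import Pool.Agent.TH369.AG.J6
import Pool.Agent.TH369.AG.J7

/-!
# ARBOREAL-K4c1: the total functional as a sum of densities and as an integral over the fields `a`
-/

set_option autoImplicit false
set_option linter.unusedSectionVars false
namespace Pool.Agent.TH369.AG
open MeasureTheory Matrix
variable {V : Type} [Fintype V] [DecidableEq V]

namespace K4c1

theorem continuous_cf (N : Net V) : Continuous (cf N) :=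
  continuous_iff_continuousAt.mpr fun t => (J3.hasFDerivAt_cf N t).continuousAt

theorem continuous_HM (N : Net V) : Continuous fun a : V → ℝ => HM N a := by
  unfold HM
  apply Continuous.sub
  · exact continuous_id.matrix_diagonal
  · exact continuous_const

theorem measurable_dens (N : Net V) : Measurable fun p : Pt V =>
    Real.exp (- En N p.1 p.2) * (HM N (cf N p.1)).det ^ 2 := by
  apply Measurable.mul
  · have h := (J6.continuous_dn N (fun _ => 0)).measurable
    have e : (fun p : Pt V => Real.exp (- En N p.1 p.2)) = dn N (fun _ => 0) := by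
      funext p
      simp [dn]
    rw [e]
    exact h
  · have h : Continuous fun p : Pt V => (HM N (cf N p.1)).det :=
      ((continuous_HM N).comp ((continuous_cf N).comp continuous_fst)).matrix_det
    exact h.measurable.pow_const 2

/-- Integration over `y`. -/
theorem main (N : Net V) (hN : N.Conn) (F : Pt V → ENNReal) (hF : Measurable F)
    (G : (V → ℝ) → ENNReal)
    (h : ∀ t : V → ℝ, ∫⁻ y : V → ℝ, F (t, y) *
        ENNReal.ofReal (Real.exp (-((1 / 2) * (y ⬝ᵥ HM N (cf N t) *ᵥ y)))) =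
      ENNReal.ofReal (Real.sqrt (2 * Real.pi) ^ (Fintype.card V) /
        Real.sqrt (HM N (cf N t)).det) * G (cf N t)) :
    ∫⁻ p : Pt V, F p * ENNReal.ofReal (Real.exp (- En N p.1 p.2) * (HM N (cf N p.1)).det ^ 2) =
      ENNReal.ofReal (Real.sqrt (2 * Real.pi) ^ (Fintype.card V)) * IA N G := by
  have hm : AEMeasurable (fun p : Pt V => F p *
      ENNReal.ofReal (Real.exp (- En N p.1 p.2) * (HM N (cf N p.1)).det ^ 2))
      ((volume : Measure (V → ℝ)).prod (volume : Measure (V → ℝ))) :=
    (hF.mul (measurable_dens N).ennreal_ofReal).aemeasurable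
  rw [Measure.volume_eq_prod, lintegral_prod _ hm,
    ← cov N hN G, ← lintegral_const_mul' _ _ ENNReal.ofReal_ne_top]
  apply lintegral_congr
  intro t
  have hpd := posDef_cf N hN t
  have hd : 0 < (HM N (cf N t)).det := hpd.det_pos
  have e1 : ∀ y : V → ℝ, F (t, y) *
      ENNReal.ofReal (Real.exp (- En N t y) * (HM N (cf N t)).det ^ 2) =
      ENNReal.ofReal (Real.exp (- En0 N t) * (HM N (cf N t)).det ^ 2) * (F (t, y) *
        ENNReal.ofReal (Real.exp (-((1 / 2) * (y ⬝ᵥ HM N (cf N t) *ᵥ y))))) := by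
    intro y
    have e2 : Real.exp (- En N t y) * (HM N (cf N t)).det ^ 2 =
        (Real.exp (- En0 N t) * (HM N (cf N t)).det ^ 2) *
          Real.exp (-((1 / 2) * (y ⬝ᵥ HM N (cf N t) *ᵥ y))) := by
      rw [En_eq, neg_add, Real.exp_add]
      ring
    rw [e2, ENNReal.ofReal_mul (by positivity)]
    ring
  simp only [e1]
  rw [lintegral_const_mul' _ _ ENNReal.ofReal_ne_top, h t, ← mul_assoc, ← mul_assoc,
    ← ENNReal.ofReal_mul (by positivity), ← ENNReal.ofReal_mul (by positivity)]
  congr 2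
  have hs : Real.sqrt (HM N (cf N t)).det ≠ 0 := (Real.sqrt_pos.mpr hd).ne'
  have hss : (HM N (cf N t)).det = Real.sqrt (HM N (cf N t)).det * Real.sqrt (HM N (cf N t)).det :=
    (Real.mul_self_sqrt hd.le).symm
  field_simp
  rw [sq, ← hss]

end K4c1

open K4c1

theorem Tot_eq_sum (N : Net V) (hN : N.Conn) :
    ∃ (J : Type) (_ : Fintype J) (α : J → ℝ) (μ : J → V → ℝ), (∀ j, 0 ≤ α j) ∧
      ∀ Φ : Pt V → ℝ, Sm Φ → Tot N Φ = ∑ j, α j * EE N (μ j) Φ := by
  obtain ⟨J, hJ, α, μ, hα, h⟩ := det_expansion N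
  refine ⟨J, hJ, α, μ, hα, ?_⟩
  intro Φ hΦ
  unfold Tot EE
  have e1 : ∀ j, α j * ∫ p, Φ p * dn N (μ j) p = ∫ p, α j * (Φ p * dn N (μ j) p) := fun j =>
    (integral_const_mul _ _).symm
  simp only [e1]
  rw [← integral_finsetSum _ fun j _ => (integrable_dn N hN (μ j) Φ hΦ.cont hΦ.gr).const_mul (α j)]
  congr 1
  funext p
  rw [h, Finset.mul_sum, Finset.mul_sum]
  apply Finset.sum_congr rfl
  intro j _
  unfold dn
  rw [Real.exp_add]
  ring

theorem Tot_lintegral (N : Net V) (hN : N.Conn) (ζ : (V → ℝ) → V → ℝ)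
    (hζ : Measurable ζ) (φ : (V → ℝ) → ENNReal) (hφ : Measurable φ) :
    (∫⁻ p : Pt V, φ (cf N p.1) *
      ENNReal.ofReal (Real.exp (- En N p.1 p.2) * (HM N (cf N p.1)).det ^ 2) =
        ENNReal.ofReal (Real.sqrt (2 * Real.pi) ^ (Fintype.card V)) * IA N φ) ∧
    (∫⁻ p : Pt V, ENNReal.ofReal ((∑ x, ζ (cf N p.1) x * p.2 x) ^ 2) *
      ENNReal.ofReal (Real.exp (- En N p.1 p.2) * (HM N (cf N p.1)).det ^ 2) =
        ENNReal.ofReal (Real.sqrt (2 * Real.pi) ^ (Fintype.card V)) *
          IA N (fun a => ENNReal.ofReal (ζ a ⬝ᵥ (HM N a)⁻¹ *ᵥ ζ a))) := by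
  have hcf : Measurable fun p : Pt V => cf N p.1 := ((continuous_cf N).comp continuous_fst).measurable
  constructor
  · refine main N hN (fun p => φ (cf N p.1)) (hφ.comp hcf) φ ?_
    intro t
    have hpd := posDef_cf N hN t
    have hmeas : Measurable fun y : V → ℝ =>
        ENNReal.ofReal (Real.exp (-((1 / 2) * (y ⬝ᵥ HM N (cf N t) *ᵥ y)))) := by
      apply Measurable.ennreal_ofReal
      apply Measurable.exp
      apply Measurable.neg
      apply Measurable.const_mul
      simp only [dotProduct, Matrix.mulVec]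
      exact Finset.measurable_sum _ fun x _ => (measurable_pi_apply x).mul
        (Finset.measurable_sum _ fun z _ => (measurable_pi_apply z).const_mul _)
    show ∫⁻ y : V → ℝ, φ (cf N t) * ENNReal.ofReal _ = _
    rw [lintegral_const_mul _ hmeas, gauss1 _ hpd, mul_comm]
  · refine main N hN (fun p => ENNReal.ofReal ((∑ x, ζ (cf N p.1) x * p.2 x) ^ 2)) ?_
      (fun a => ENNReal.ofReal (ζ a ⬝ᵥ (HM N a)⁻¹ *ᵥ ζ a)) ?_
    · apply Measurable.ennreal_ofReal
      apply Measurable.pow_const
      exact Finset.measurable_sum _ fun x _ =>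
        ((measurable_pi_apply x).comp (hζ.comp hcf)).mul
          ((measurable_pi_apply x).comp measurable_snd)
    · intro t
      have hpd := posDef_cf N hN t
      have hd : 0 < (HM N (cf N t)).det := hpd.det_pos
      rw [← ENNReal.ofReal_mul (by positivity), ← gauss2 _ hpd (ζ (cf N t))]
      apply lintegral_congr
      intro y
      rw [mul_comm, ← ENNReal.ofReal_mul (by positivity)]

end Pool.Agent.TH369.AG
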