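import Pool.Agent.TH369.AG.Defs5
import Pool.Agent.TH369.AG.J4
import Pool.Agent.TH369.AG.J10

/-!
# ARBOREAL-K4a: psi, psi^2, G_pp, G_pq in the variables a
-/

set_option autoImplicit false
set_option linter.unusedSectionVars false
namespace Pool.Agent.TH369.AG
open MeasureTheory Matrix
variable {V : Type} [Fintype V] [DecidableEq V]

open J10

namespace K4a

/-- elimination, the right-hand side given only for positive definite matrices -/
theorem elim2 (N : Net V) (p : V) (Φ F : (V → ℝ) → ENNReal) (hΦ : Measurable Φ) (hF : Measurable F)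
    (hFp : ∀ a, (HM (N.mg p) a).PosDef → F (Function.update a p 1) = F a)
    (h : ∀ a, (HM (N.mg p) a).PosDef →
      ∫⁻ σ in Set.Ioi (0 : ℝ), ENNReal.ofReal (Real.sqrt σ *
        Real.exp (-((σ - cc N p a) ^ 2 / (2 * σ)))) * Φ (Function.update a p (σ + qq N p a)) =
      ENNReal.ofReal (Real.sqrt (2 * Real.pi)) * F a) :
    IA N Φ = IA (N.mg p) F := by
  have hup : Measurable fun a : V → ℝ => Function.update a p (1 : ℝ) := by
    refine measurable_pi_lambda _ fun i => ?_
    by_cases h : i = p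
    · subst h
      simp
    · simp only [Function.update_of_ne h]
      exact measurable_pi_apply i
  rw [elim N p Φ (fun a => F (Function.update a p 1)) hΦ (hF.comp hup)
    (fun a s => by rw [Function.update_idem])]
  · unfold IA
    refine setLIntegral_congr_fun (J4.measurableSet_pd (N.mg p)) ?_
    intro a ha
    show _ * F (Function.update a p 1) = _
    rw [hFp a ha]
  · intro a ha
    rw [h a ha, hFp a ha]

theorem meas_wt (c : ℝ) : Measurable fun σ : ℝ =>
    ENNReal.ofReal (Real.sqrt σ * Real.exp (-((σ - c) ^ 2 / (2 * σ)))) := by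
  fun_prop

theorem int3 (c α β γ : ℝ) (hc : 0 ≤ c) (hα : 0 ≤ α) (hβ : 0 ≤ β) (hγ : 0 ≤ γ) :
    ∫⁻ σ in Set.Ioi (0 : ℝ), ENNReal.ofReal (Real.sqrt σ * Real.exp (-((σ - c) ^ 2 / (2 * σ)))) *
      ENNReal.ofReal (α + β * (1 / σ) + γ * (c / σ) ^ 2) =
    ENNReal.ofReal (Real.sqrt (2 * Real.pi)) * ENNReal.ofReal (α * (1 + c) + β + γ * c) := by
  have e0 : ∀ σ ∈ Set.Ioi (0 : ℝ),
      ENNReal.ofReal (Real.sqrt σ * Real.exp (-((σ - c) ^ 2 / (2 * σ)))) *
        ENNReal.ofReal (α + β * (1 / σ) + γ * (c / σ) ^ 2) =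
      (ENNReal.ofReal α * ENNReal.ofReal (Real.sqrt σ * Real.exp (-((σ - c) ^ 2 / (2 * σ)))) +
        ENNReal.ofReal β * ENNReal.ofReal (Real.sqrt σ * Real.exp (-((σ - c) ^ 2 / (2 * σ))) *
          (1 / σ))) +
        ENNReal.ofReal γ * ENNReal.ofReal (Real.sqrt σ * Real.exp (-((σ - c) ^ 2 / (2 * σ))) *
          (c / σ) ^ 2) := by
    intro σ hσ
    have hσ' : 0 < σ := hσ
    set W := Real.sqrt σ * Real.exp (-((σ - c) ^ 2 / (2 * σ))) with hW
    have hW0 : 0 ≤ W := by positivity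
    rw [← ENNReal.ofReal_mul hW0, ← ENNReal.ofReal_mul hα, ← ENNReal.ofReal_mul hβ,
      ← ENNReal.ofReal_mul hγ, ← ENNReal.ofReal_add (by positivity) (by positivity),
      ← ENNReal.ofReal_add (by positivity) (by positivity)]
    congr 1
    ring
  have e3 : ENNReal.ofReal γ * ∫⁻ σ in Set.Ioi (0 : ℝ),
      ENNReal.ofReal (Real.sqrt σ * Real.exp (-((σ - c) ^ 2 / (2 * σ))) * (c / σ) ^ 2) =
      ENNReal.ofReal γ * ENNReal.ofReal (Real.sqrt (2 * Real.pi) * c) := by
    congr 1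
    rcases hc.eq_or_lt with h | h
    · subst h
      simp
    · exact int_neg_three_half c h
  rw [setLIntegral_congr_fun measurableSet_Ioi e0, lintegral_add_right, lintegral_add_right,
    lintegral_const_mul' _ _ ENNReal.ofReal_ne_top, lintegral_const_mul' _ _ ENNReal.ofReal_ne_top,
    lintegral_const_mul' _ _ ENNReal.ofReal_ne_top, int_half c hc, int_neg_half c hc, e3,
    ← ENNReal.ofReal_mul hα, ← ENNReal.ofReal_mul hβ, ← ENNReal.ofReal_mul hγ,
    ← ENNReal.ofReal_add (by positivity) (by positivity),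
    ← ENNReal.ofReal_add (by positivity) (by positivity), ← ENNReal.ofReal_mul (by positivity)]
  · congr 1
    ring
  · fun_prop
  · fun_prop

theorem elim3 (N : Net V) (p : V) (Φ α β γ : (V → ℝ) → ℝ) (hΦ : Measurable Φ)
    (hα : Measurable α) (hβ : Measurable β) (hγ : Measurable γ)
    (hα0 : ∀ a, (HM (N.mg p) a).PosDef → 0 ≤ α a)
    (hβ0 : ∀ a, (HM (N.mg p) a).PosDef → 0 ≤ β a)
    (hγ0 : ∀ a, (HM (N.mg p) a).PosDef → 0 ≤ γ a)
    (hαp : ∀ a, (HM (N.mg p) a).PosDef → α (Function.update a p 1) = α a)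
    (hβp : ∀ a, (HM (N.mg p) a).PosDef → β (Function.update a p 1) = β a)
    (hγp : ∀ a, (HM (N.mg p) a).PosDef → γ (Function.update a p 1) = γ a)
    (h : ∀ a, (HM (N.mg p) a).PosDef → ∀ σ, 0 < σ →
      Φ (Function.update a p (σ + qq N p a)) =
        α a + β a * (1 / σ) + γ a * (cc N p a / σ) ^ 2) :
    IA N (fun a => ENNReal.ofReal (Φ a)) =
      IA (N.mg p) (fun a => ENNReal.ofReal (α a * (1 + cc N p a) + β a + γ a * cc N p a)) := by
  have hcm := measurable_cc N p
  apply elim2 N p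
  · exact hΦ.ennreal_ofReal
  · exact (((hα.mul (hcm.const_add 1)).add hβ).add (hγ.mul hcm)).ennreal_ofReal
  · intro a ha
    rw [hαp a ha, hβp a ha, hγp a ha, cc_update N p a ha]
  · intro a ha
    rw [← int3 (cc N p a) (α a) (β a) (γ a) (cc_nonneg N p a ha) (hα0 a ha) (hβ0 a ha) (hγ0 a ha)]
    refine setLIntegral_congr_fun measurableSet_Ioi ?_
    intro σ hσ
    show _ * ENNReal.ofReal (Φ _) = _
    rw [h a ha σ hσ]

/-! ### entries of the inverse -/

theorem inv_off (N : Net V) (p : V) (a : V → ℝ) (ha : (HM (N.mg p) a).PosDef) (z y : V)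
    (hz : z ≠ p) :
    (HM (N.mg p) (Function.update a p 1))⁻¹ z y = (HM (N.mg p) a)⁻¹ z y := by
  rw [J4.inv_mg ha one_pos]
  simp [J4.ee_apply, hz, vecMulVec_apply]

theorem mulVec_off (N : Net V) (p : V) (a v : V → ℝ) (ha : (HM (N.mg p) a).PosDef) (z : V)
    (hz : z ≠ p) :
    ((HM (N.mg p) (Function.update a p 1))⁻¹ *ᵥ v) z = ((HM (N.mg p) a)⁻¹ *ᵥ v) z := by
  simp only [Matrix.mulVec, dotProduct]
  exact Finset.sum_congr rfl fun y _ => by rw [inv_off N p a ha z y hz]

theorem uu_nonneg (N : Net V) (p : V) (a : V → ℝ) (ha : (HM (N.mg p) a).PosDef) (z : V) :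
    0 ≤ uu N p a z := by
  unfold uu
  split_ifs
  · exact le_rfl
  · simp only [Matrix.mulVec, dotProduct]
    exact Finset.sum_nonneg fun y _ => mul_nonneg (inv_nonneg_of_posDef _ _ ha z y) (N.nn p y)

theorem mulVec_r_nonneg (N M : Net V) (a : V → ℝ) (ha : (HM M a).PosDef) (z : V) :
    0 ≤ ((HM M a)⁻¹ *ᵥ N.r) z := by
  simp only [Matrix.mulVec, dotProduct]
  exact Finset.sum_nonneg fun y _ => mul_nonneg (inv_nonneg_of_posDef _ _ ha z y) (N.rn y)

theorem measurable_uu (N : Net V) (p z : V) : Measurable fun a : V → ℝ => uu N p a z := by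
  unfold uu
  by_cases h : z = p
  · simp [h]
  · simp only [h, if_false]
    exact measurable_inv_mulVec _ _ _

theorem inv_mulVec_r (N : Net V) (p : V) (a : V → ℝ) (ha : (HM (N.mg p) a).PosDef) (σ : ℝ)
    (hσ : 0 < σ) :
    (HM N (Function.update a p (σ + qq N p a)))⁻¹ *ᵥ N.r =
      (HM (N.mg p) a)⁻¹ *ᵥ N.r - ((a p)⁻¹ * N.r p) • J4.ee p +
        (cc N p a / σ) • (J4.ee p + uu N p a) := by
  rw [J4.inv_eq ha hσ, Matrix.add_mulVec, Matrix.sub_mulVec, Matrix.smul_mulVec,
    Matrix.smul_mulVec, vecMulVec_mulVec, vecMulVec_mulVec, J4.ee_dot, J4.cc_eq, add_dotProduct,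
    J4.ee_dot]
  ext x
  simp only [Pi.sub_apply, Pi.add_apply, Pi.smul_apply, MulOpposite.smul_eq_mul_unop,
    MulOpposite.unop_op, smul_eq_mul]
  ring

theorem psi_p (N : Net V) (p : V) (a : V → ℝ) (ha : (HM (N.mg p) a).PosDef) (σ : ℝ)
    (hσ : 0 < σ) :
    ((HM N (Function.update a p (σ + qq N p a)))⁻¹ *ᵥ N.r) p = cc N p a / σ := by
  rw [inv_mulVec_r N p a ha σ hσ]
  have h2 : ((HM (N.mg p) a)⁻¹ *ᵥ N.r) p = (a p)⁻¹ * N.r p := by
    rw [← J4.ee_dot p ((HM (N.mg p) a)⁻¹ *ᵥ N.r), J4.dot_inv, J4.Dinv_ee ha, smul_dotProduct,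
      J4.ee_dot, smul_eq_mul]
  simp only [Pi.sub_apply, Pi.add_apply, Pi.smul_apply, smul_eq_mul, h2, J4.uu_p, J4.ee_apply]
  simp

theorem psi_z (N : Net V) (p z : V) (hz : z ≠ p) (a : V → ℝ) (ha : (HM (N.mg p) a).PosDef)
    (σ : ℝ) (hσ : 0 < σ) :
    ((HM N (Function.update a p (σ + qq N p a)))⁻¹ *ᵥ N.r) z =
      ((HM (N.mg p) a)⁻¹ *ᵥ N.r) z + uu N p a z * (cc N p a / σ) := by
  rw [inv_mulVec_r N p a ha σ hσ]
  simp only [Pi.sub_apply, Pi.add_apply, Pi.smul_apply, smul_eq_mul, J4.ee_apply, hz, if_false]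
  ring

theorem psi_mg (N : Net V) (p z : V) (hz : z ≠ p) (a : V → ℝ) (ha : (HM (N.mg p) a).PosDef) :
    ((HM (N.mg p) a)⁻¹ *ᵥ (N.mg p).r) z = ((HM (N.mg p) a)⁻¹ *ᵥ N.r) z + uu N p a z := by
  rw [J4.r_mg, Matrix.mulVec_add, Matrix.mulVec_sub, Matrix.mulVec_smul, J4.Dinv_ee ha,
    ← J4.uu_eq ha]
  simp only [Pi.sub_apply, Pi.add_apply, Pi.smul_apply, smul_eq_mul, J4.ee_apply, hz, if_false]
  ring

theorem IA_add (N : Net V) (Φ Ψ : (V → ℝ) → ENNReal) (hΨ : Measurable Ψ) :
    IA N (fun a => Φ a + Ψ a) = IA N Φ + IA N Ψ := by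
  unfold IA
  have hm : Measurable fun a => ENNReal.ofReal (wA N a) * Ψ a :=
    (measurable_wA N).ennreal_ofReal.mul hΨ
  rw [← lintegral_add_right _ hm]
  refine lintegral_congr fun a => ?_
  rw [mul_add]

theorem IA_congr (N : Net V) (Φ Ψ : (V → ℝ) → ENNReal)
    (h : ∀ a, (HM N a).PosDef → Φ a = Ψ a) : IA N Φ = IA N Ψ := by
  unfold IA
  refine setLIntegral_congr_fun (J4.measurableSet_pd N) ?_
  intro a ha
  simp only
  rw [h a ha]

theorem IA_mono (N : Net V) (Φ Ψ : (V → ℝ) → ENNReal)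
    (h : ∀ a, (HM N a).PosDef → Φ a ≤ Ψ a) : IA N Φ ≤ IA N Ψ := by
  unfold IA
  refine setLIntegral_mono' (J4.measurableSet_pd N) ?_
  intro a ha
  gcongr
  exact h a ha

/-- elimination with the constant function -/
theorem elim_const (N : Net V) (p : V) :
    IA N (fun _ => 1) = IA (N.mg p) (fun a => ENNReal.ofReal (1 + cc N p a)) := by
  have h := elim3 N p (fun _ => 1) (fun _ => 1) (fun _ => 0) (fun _ => 0) measurable_const
    measurable_const measurable_const measurable_const (by intros; norm_num) (by intros; norm_num)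
    (by intros; norm_num) (by intros; rfl) (by intros; rfl) (by intros; rfl)
    (by intros; norm_num)
  simp only [ENNReal.ofReal_one, one_mul, zero_mul, add_zero] at h
  exact h

theorem add_one (N : Net V) (p : V) :
    IA (N.mg p) (fun a => ENNReal.ofReal (cc N p a)) + IA (N.mg p) (fun _ => 1) =
      IA N (fun _ => 1) := by
  rw [elim_const N p, ← IA_add _ _ _ measurable_const]
  apply IA_congr
  intro a ha
  rw [← ENNReal.ofReal_one, ← ENNReal.ofReal_add (cc_nonneg N p a ha) zero_le_one, add_comm]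

end K4a

open K4a

theorem IA_psi (N : Net V) (p : V) :
    IA N (fun a => ENNReal.ofReal (((HM N a)⁻¹ *ᵥ N.r) p)) + IA (N.mg p) (fun _ => 1) =
      IA N (fun _ => 1) := by
  rw [← K4a.add_one N p]
  congr 1
  rw [elim3 N p (fun a => ((HM N a)⁻¹ *ᵥ N.r) p) (fun _ => 0) (fun a => cc N p a) (fun _ => 0)
    (measurable_inv_mulVec _ _ _) measurable_const (measurable_cc N p) measurable_const
    (by intros; exact le_rfl) (fun a ha => cc_nonneg N p a ha) (by intros; exact le_rfl)
    (by intros; rfl) (fun a ha => cc_update N p a ha) (by intros; rfl)]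
  · simp only [zero_mul, zero_add, add_zero]
  · intro a ha σ hσ
    rw [psi_p N p a ha σ hσ]
    ring

theorem IA_psi_sq (N : Net V) (p : V) :
    IA N (fun a => ENNReal.ofReal (((HM N a)⁻¹ *ᵥ N.r) p ^ 2)) + IA (N.mg p) (fun _ => 1) =
      IA N (fun _ => 1) := by
  rw [← K4a.add_one N p]
  congr 1
  rw [elim3 N p (fun a => ((HM N a)⁻¹ *ᵥ N.r) p ^ 2) (fun _ => 0) (fun _ => 0) (fun _ => 1)
    ((measurable_inv_mulVec _ _ _).pow_const 2) measurable_const measurable_const measurable_const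
    (by intros; exact le_rfl) (by intros; exact le_rfl) (by intros; exact zero_le_one)
    (by intros; rfl) (by intros; rfl) (by intros; rfl)]
  · simp only [zero_mul, zero_add, one_mul]
  · intro a ha σ hσ
    rw [psi_p N p a ha σ hσ]
    ring

theorem IA_Gpp (N : Net V) (p : V) :
    IA N (fun a => ENNReal.ofReal ((HM N a)⁻¹ p p)) = IA (N.mg p) (fun _ => 1) := by
  rw [elim3 N p (fun a => (HM N a)⁻¹ p p) (fun _ => 0) (fun _ => 1) (fun _ => 0)
    (measurable_inv_apply _ _ _) measurable_const measurable_const measurable_const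
    (by intros; exact le_rfl) (by intros; exact zero_le_one) (by intros; exact le_rfl)
    (by intros; rfl) (by intros; rfl) (by intros; rfl)]
  · simp only [zero_mul, zero_add, add_zero, ENNReal.ofReal_one]
  · intro a ha σ hσ
    rw [(inv_update N p a ha σ hσ).2.1]
    ring

theorem IA_Gpq (N : Net V) (p q : V) (h : p ≠ q) :
    IA N (fun a => ENNReal.ofReal ((HM N a)⁻¹ p q)) + IA ((N.mg p).mg q) (fun _ => 1) ≤
      IA (N.mg p) (fun _ => 1) := by
  rw [elim3 N p (fun a => (HM N a)⁻¹ p q) (fun _ => 0) (fun a => uu N p a q) (fun _ => 0)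
    (measurable_inv_apply _ _ _) measurable_const (measurable_uu N p q) measurable_const
    (by intros; exact le_rfl) (fun a ha => uu_nonneg N p a ha q) (by intros; exact le_rfl)
    (by intros; rfl) (fun a ha => by rw [uu_update N p a ha]) (by intros; rfl)]
  · simp only [zero_mul, zero_add, add_zero]
    rw [← IA_psi (N.mg p) q]
    gcongr
    apply IA_mono
    intro a ha
    apply ENNReal.ofReal_le_ofReal
    rw [psi_mg N p q h.symm a ha]
    have := mulVec_r_nonneg N (N.mg p) a ha q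
    linarith
  · intro a ha σ hσ
    have hs : (HM N (Function.update a p (σ + qq N p a)))⁻¹ p q =
        (HM N (Function.update a p (σ + qq N p a)))⁻¹ q p := by
      have := congrFun (congrFun (J4.inv_symm (N := N) (Function.update a p (σ + qq N p a))) q) p
      rw [Matrix.transpose_apply] at this
      exact this
    rw [hs, (inv_update N p a ha σ hσ).2.2.1 q h.symm]
    ring

end Pool.Agent.TH369.AG
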