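import Pool.Agent.TH369.AG.Defs5
import Pool.Agent.TH369.AG.J4
import Pool.Agent.TH369.AG.J10
import Pool.Agent.TH369.AG.K4a

/-!
# ARBOREAL-K4b: the identity for W
-/

set_option autoImplicit false
set_option linter.unusedSectionVars false
namespace Pool.Agent.TH369.AG
open MeasureTheory Matrix
variable {V : Type} [Fintype V] [DecidableEq V]
variable {E : Type} [Fintype E] [DecidableEq E]

open J10 K4a

namespace K4b

/-- the network `N'` is obtained from `N` by exchanging the root and `x` -/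
structure Sw (N N' : Net V) (x : V) : Prop where
  hB1 : ∀ a b, a ≠ x → b ≠ x → N'.B a b = N.B a b
  hB2 : ∀ b, b ≠ x → N'.B x b = N.r b
  hr1 : ∀ b, b ≠ x → N'.r b = N.B x b
  hr2 : N'.r x = N.r x

theorem Sw.mg {N N' : Net V} {x : V} (h : Sw N N' x) : N'.mg x = N.mg x := by
  apply net_ext
  · intro a b
    show (if a = x ∨ b = x then 0 else N'.B a b) = (if a = x ∨ b = x then 0 else N.B a b)
    by_cases h' : a = x ∨ b = x
    · rw [if_pos h', if_pos h']
    · rw [if_neg h', if_neg h']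
      push Not at h'
      exact h.hB1 a b h'.1 h'.2
  · intro a
    show (if a = x then 0 else N'.r a + N'.B a x) = (if a = x then 0 else N.r a + N.B a x)
    by_cases h' : a = x
    · rw [if_pos h', if_pos h']
    · rw [if_neg h', if_neg h', h.hr1 a h', N'.symm a x, h.hB2 a h', add_comm, N.symm x a]

theorem mulVec_add_ee (N : Net V) (x z : V) (hz : z ≠ x) (a : V → ℝ)
    (ha : (HM (N.mg x) a).PosDef) (v : V → ℝ) (k : ℝ) :
    ((HM (N.mg x) a)⁻¹ *ᵥ (v + k • J4.ee x)) z = ((HM (N.mg x) a)⁻¹ *ᵥ v) z := by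
  rw [Matrix.mulVec_add, Matrix.mulVec_smul, J4.Dinv_ee ha]
  simp [J4.ee_apply, hz]

theorem Sw.uu_eq {N N' : Net V} {x : V} (h : Sw N N' x) (z : V) (hz : z ≠ x) (a : V → ℝ)
    (ha : (HM (N.mg x) a).PosDef) : uu N' x a z = ((HM (N.mg x) a)⁻¹ *ᵥ N.r) z := by
  have h1 : uu N' x a z = ((HM (N.mg x) a)⁻¹ *ᵥ (fun y => N'.B x y)) z := by
    unfold uu
    rw [if_neg hz, h.mg]
  have h2 : N.r = (fun y => N'.B x y) + (N.r x) • J4.ee x := by
    funext y
    simp only [Pi.add_apply, Pi.smul_apply, J4.ee_apply, smul_eq_mul]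
    by_cases hy : y = x
    · subst hy
      simp [N'.diag]
    · rw [h.hB2 y hy]; simp [hy]
  rw [h1]
  conv_rhs => rw [h2]
  rw [mulVec_add_ee N x z hz a ha]

theorem Sw.r_eq {N N' : Net V} {x : V} (h : Sw N N' x) (z : V) (hz : z ≠ x) (a : V → ℝ)
    (ha : (HM (N.mg x) a).PosDef) : ((HM (N.mg x) a)⁻¹ *ᵥ N'.r) z = uu N x a z := by
  have h2 : N'.r = (fun y => N.B x y) + (N.r x) • J4.ee x := by
    funext y
    simp only [Pi.add_apply, Pi.smul_apply, J4.ee_apply, smul_eq_mul]
    by_cases hy : y = x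
    · subst hy
      simp [N.diag, h.hr2]
    · rw [h.hr1 y hy]; simp [hy]
  rw [h2, mulVec_add_ee N x z hz a ha]
  unfold uu
  rw [if_neg hz]

theorem Sw.cc_eq {N N' : Net V} {x : V} (h : Sw N N' x) (a : V → ℝ)
    (ha : (HM (N.mg x) a).PosDef) : cc N' x a = cc N x a := by
  have h1 : ∑ y, uu N' x a y * N'.r y = ∑ y, uu N' x a y * N.B x y := by
    apply Finset.sum_congr rfl
    intro y _
    by_cases hy : y = x
    · subst hy
      simp [J4.uu_p]
    · rw [h.hr1 y hy]
  have h2 : ∑ y, uu N x a y * N.r y = ∑ y, uu N x a y * N'.B x y := by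
    apply Finset.sum_congr rfl
    intro y _
    by_cases hy : y = x
    · subst hy
      simp [J4.uu_p]
    · rw [h.hB2 y hy]
  unfold cc
  rw [h.hr2, h1, h2]
  congr 1
  have ha' : (HM (N'.mg x) a).PosDef := by rw [h.mg]; exact ha
  have e1 : uu N' x a = (HM (N.mg x) a)⁻¹ *ᵥ J4.bb N' x := by
    rw [J4.uu_eq ha', h.mg]
  have e2 : uu N x a = (HM (N.mg x) a)⁻¹ *ᵥ J4.bb N x := J4.uu_eq ha
  show uu N' x a ⬝ᵥ J4.bb N x = uu N x a ⬝ᵥ J4.bb N' x
  rw [e1, e2, ← J4.dot_inv, dotProduct_comm]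

/-- the integral of `psi z ^ 2` after elimination of `x` -/
theorem IA_psi_z_sq (N : Net V) (x z : V) (hz : z ≠ x) :
    IA N (fun a => ENNReal.ofReal (((HM N a)⁻¹ *ᵥ N.r) z ^ 2)) =
      IA (N.mg x) (fun a => ENNReal.ofReal (
        (((HM (N.mg x) a)⁻¹ *ᵥ N.r) z) ^ 2 * (1 + cc N x a) +
        2 * ((HM (N.mg x) a)⁻¹ *ᵥ N.r) z * uu N x a z * cc N x a +
        uu N x a z ^ 2 * cc N x a)) := by
  rw [elim3 N x (fun a => ((HM N a)⁻¹ *ᵥ N.r) z ^ 2)
    (fun a => (((HM (N.mg x) a)⁻¹ *ᵥ N.r) z) ^ 2)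
    (fun a => 2 * ((HM (N.mg x) a)⁻¹ *ᵥ N.r) z * uu N x a z * cc N x a)
    (fun a => uu N x a z ^ 2)
    ((measurable_inv_mulVec _ _ _).pow_const 2)
    ((measurable_inv_mulVec _ _ _).pow_const 2)
    ((((measurable_inv_mulVec _ _ _).const_mul 2).mul (measurable_uu N x z)).mul
      (measurable_cc N x))
    ((measurable_uu N x z).pow_const 2)
    (fun a _ => sq_nonneg _)
    (fun a ha => mul_nonneg (mul_nonneg (mul_nonneg zero_le_two
      (mulVec_r_nonneg N (N.mg x) a ha z)) (uu_nonneg N x a ha z)) (cc_nonneg N x a ha))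
    (fun a _ => sq_nonneg _)
    (fun a ha => by rw [mulVec_off N x a N.r ha z hz])
    (fun a ha => by rw [mulVec_off N x a N.r ha z hz, uu_update N x a ha, cc_update N x a ha])
    (fun a ha => by rw [uu_update N x a ha])]
  intro a ha σ hσ
  rw [psi_z N x z hz a ha σ hσ]
  ring

theorem IA_G_zz (N : Net V) (x z : V) (hz : z ≠ x) :
    IA N (fun a => ENNReal.ofReal ((HM N a)⁻¹ z z)) =
      IA (N.mg x) (fun a => ENNReal.ofReal (
        (HM (N.mg x) a)⁻¹ z z * (1 + cc N x a) + uu N x a z ^ 2)) := by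
  rw [elim3 N x (fun a => (HM N a)⁻¹ z z)
    (fun a => (HM (N.mg x) a)⁻¹ z z)
    (fun a => uu N x a z ^ 2) (fun _ => 0)
    (measurable_inv_apply _ _ _) (measurable_inv_apply _ _ _)
    ((measurable_uu N x z).pow_const 2) measurable_const
    (fun a ha => inv_nonneg_of_posDef _ _ ha z z)
    (fun a _ => sq_nonneg _) (by intros; exact le_rfl)
    (fun a ha => by rw [inv_off N x a ha z z hz])
    (fun a ha => by rw [uu_update N x a ha]) (by intros; rfl)]
  · simp only [zero_mul, add_zero]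
  · intro a ha σ hσ
    rw [(inv_update N x a ha σ hσ).2.2.2 z z hz hz]
    ring

/-- the integrand of `IA_W` -/
noncomputable def WI (N : Net V) (x z : V) (a : V → ℝ) : ℝ :=
  (HM N a)⁻¹ x x * ((HM N a)⁻¹ *ᵥ N.r) z ^ 2 +
        (HM N a)⁻¹ z z * ((HM N a)⁻¹ *ᵥ N.r) x ^ 2 -
        2 * (HM N a)⁻¹ x z * ((HM N a)⁻¹ *ᵥ N.r) x * ((HM N a)⁻¹ *ᵥ N.r) z

theorem measurable_WI (N : Net V) (x z : V) : Measurable (WI N x z) := by
  have m1 := measurable_inv_mulVec N N.r z
  have m2 := measurable_inv_mulVec N N.r x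
  have m3 := measurable_inv_apply N x x
  have m4 := measurable_inv_apply N z z
  have m5 := measurable_inv_apply N x z
  exact ((m3.mul (m1.pow_const 2)).add (m4.mul (m2.pow_const 2))).sub
      (((m5.const_mul 2).mul m2).mul m1)

theorem IA_W_elim (N : Net V) (x z : V) (hz : z ≠ x) :
    IA N (fun a => ENNReal.ofReal (WI N x z a)) =
      IA (N.mg x) (fun a => ENNReal.ofReal (
        (((HM (N.mg x) a)⁻¹ *ᵥ N.r) z) ^ 2 + (HM (N.mg x) a)⁻¹ z z * cc N x a)) := by
  rw [elim3 N x (WI N x z) (fun _ => 0)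
    (fun a => (((HM (N.mg x) a)⁻¹ *ᵥ N.r) z) ^ 2)
    (fun a => (HM (N.mg x) a)⁻¹ z z)
    (measurable_WI N x z)
    measurable_const
    ((measurable_inv_mulVec _ _ _).pow_const 2)
    (measurable_inv_apply _ _ _)
    (by intros; exact le_rfl)
    (fun a _ => sq_nonneg _)
    (fun a ha => inv_nonneg_of_posDef _ _ ha z z)
    (by intros; rfl)
    (fun a ha => by rw [mulVec_off N x a N.r ha z hz])
    (fun a ha => by rw [inv_off N x a ha z z hz])]
  · simp only [zero_mul, zero_add]
  · intro a ha σ hσ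
    have hs : (HM N (Function.update a x (σ + qq N x a)))⁻¹ x z =
        (HM N (Function.update a x (σ + qq N x a)))⁻¹ z x := by
      have := congrFun (congrFun (J4.inv_symm (N := N) (Function.update a x (σ + qq N x a))) z) x
      rw [Matrix.transpose_apply] at this
      exact this
    obtain ⟨_, h1, h2, h3⟩ := inv_update N x a ha σ hσ
    unfold WI
    rw [hs, h1, h2 z hz, h3 z z hz hz, psi_z N x z hz a ha σ hσ, psi_p N x a ha σ hσ]
    generalize ((HM (N.mg x) a)⁻¹ *ᵥ N.r) z = d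
    generalize uu N x a z = u
    generalize cc N x a = c
    generalize (HM (N.mg x) a)⁻¹ z z = g
    ring

theorem IA_sum3 (M : Net V) (f1 f2 f3 g1 g2 : (V → ℝ) → ℝ) (m2 : Measurable f2)
    (m3 : Measurable f3) (n2 : Measurable g2)
    (h1 : ∀ a, (HM M a).PosDef → 0 ≤ f1 a) (h2 : ∀ a, (HM M a).PosDef → 0 ≤ f2 a)
    (h3 : ∀ a, (HM M a).PosDef → 0 ≤ f3 a) (k1 : ∀ a, (HM M a).PosDef → 0 ≤ g1 a)
    (k2 : ∀ a, (HM M a).PosDef → 0 ≤ g2 a)
    (h : ∀ a, (HM M a).PosDef → f1 a + f2 a + f3 a = g1 a + g2 a) :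
    IA M (fun a => ENNReal.ofReal (f1 a)) + IA M (fun a => ENNReal.ofReal (f2 a)) +
      IA M (fun a => ENNReal.ofReal (f3 a)) =
    IA M (fun a => ENNReal.ofReal (g1 a)) + IA M (fun a => ENNReal.ofReal (g2 a)) := by
  rw [← IA_add _ _ _ m2.ennreal_ofReal, ← IA_add _ _ _ m3.ennreal_ofReal,
    ← IA_add _ _ _ n2.ennreal_ofReal]
  apply IA_congr
  intro a ha
  rw [← ENNReal.ofReal_add (h1 a ha) (h2 a ha),
    ← ENNReal.ofReal_add (add_nonneg (h1 a ha) (h2 a ha)) (h3 a ha),
    ← ENNReal.ofReal_add (k1 a ha) (k2 a ha), h a ha]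

/-- the identity -/
theorem main_id (N N' : Net V) (x z : V) (hz : z ≠ x) (h : Sw N N' x) :
    IA N (fun a => ENNReal.ofReal (WI N x z a)) +
      IA N' (fun a => ENNReal.ofReal (((HM N' a)⁻¹ *ᵥ N'.r) z ^ 2)) +
      IA ((N.mg x).mg z) (fun _ => 1) =
    IA N (fun a => ENNReal.ofReal (((HM N a)⁻¹ *ᵥ N.r) z ^ 2)) + IA (N.mg z) (fun _ => 1) := by
  rw [IA_W_elim N x z hz, IA_psi_z_sq N x z hz, IA_psi_z_sq N' x z hz, ← IA_Gpp (N.mg x) z,
    ← IA_Gpp N z, IA_G_zz N x z hz, h.mg]
  have mG := measurable_inv_apply (N.mg x) z z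
  have md := measurable_inv_mulVec (N.mg x) N'.r z
  have mu := measurable_uu N x z
  have mu' := measurable_uu N' x z
  have mc := measurable_cc N x
  have mc' := measurable_cc N' x
  refine IA_sum3 (N.mg x) _ _ _ _ _ ?_ mG ?_ ?_ ?_ ?_ ?_ ?_ ?_
  · exact (((md.pow_const 2).mul (mc'.const_add 1)).add (((md.const_mul 2).mul mu').mul mc')).add
      ((mu'.pow_const 2).mul mc')
  · exact (mG.mul (mc.const_add 1)).add (mu.pow_const 2)
  all_goals
    intro a ha
    have hd := mulVec_r_nonneg N (N.mg x) a ha z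
    have hu := uu_nonneg N x a ha z
    have hc := cc_nonneg N x a ha
    have hg := inv_nonneg_of_posDef _ _ ha z z
    try simp only [h.uu_eq z hz a ha, h.r_eq z hz a ha, h.cc_eq a ha]
    generalize ((HM (N.mg x) a)⁻¹ *ᵥ N.r) z = d at *
    generalize uu N x a z = u at *
    generalize cc N x a = c at *
    generalize (HM (N.mg x) a)⁻¹ z z = g at *
  · positivity
  · positivity
  · positivity
  · positivity
  · positivity
  · ring

/-! ### combinatorics -/

theorem Cn_refl {X : Type} [Fintype X] [DecidableEq X] (s t : E → X) (A : Finset E) (x : X) :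
    Cn s t A x x := by
  rw [Cn_self]; trivial

theorem Cn_edge {X : Type} [Fintype X] [DecidableEq X] (s t : E → X) (A : Finset E) (e : E)
    (he : e ∈ A) : Cn s t A (s e) (t e) :=
  Submodule.subset_span ⟨e, he, rfl⟩

theorem Cn_trans {X : Type} [Fintype X] [DecidableEq X] (s t : E → X) (A : Finset E) (x y z : X)
    (h1 : Cn s t A x y) (h2 : Cn s t A y z) : Cn s t A x z := by
  unfold Cn at *
  have := Submodule.add_mem _ h1 h2
  rwa [sub_add_sub_cancel] at this

/-- the components give functionals which vanish on the span of the edges of `A` -/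
theorem sum_zero {X : Type} [Fintype X] [DecidableEq X] (s t : E → X) (A : Finset E) (f : X → ℝ)
    (hf : ∀ e ∈ A, f (s e) = f (t e)) (v : X → ℝ)
    (hv : v ∈ Submodule.span ℝ (vec s t '' (A : Set E))) : ∑ y, f y * v y = 0 := by
  induction hv using Submodule.span_induction with
  | mem v hv =>
    obtain ⟨e, he, rfl⟩ := hv
    have h1 : ∀ y, f y * vec s t e y = f y * (Pi.single (s e) (1 : ℝ) : X → ℝ) y -
        f y * (Pi.single (t e) (1 : ℝ) : X → ℝ) y := by
      intro y
      unfold vec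
      rw [Pi.sub_apply]
      ring
    simp only [h1, Finset.sum_sub_distrib, Pi.single_apply, mul_ite, mul_one, mul_zero,
      Finset.sum_ite_eq', Finset.mem_univ, if_true]
    rw [hf e he, sub_self]
  | zero => simp
  | add v v' _ _ h h' =>
    simp only [Pi.add_apply, mul_add, Finset.sum_add_distrib, h, h', add_zero]
  | smul k v _ h =>
    simp only [Pi.smul_apply, smul_eq_mul]
    have : ∀ y, f y * (k * v y) = k * (f y * v y) := by intro y; ring
    simp only [this, ← Finset.mul_sum, h, mul_zero]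

theorem not_Cn_merge {X : Type} [Fintype X] [DecidableEq X] (s t : E → X) (A : Finset E)
    (x z o : X) (hzx : z ≠ x) (hzo : ¬ Cn s t A z o)
    (hzx' : ¬ Cn s t A z x) : ¬ Cn (cl x o ∘ s) (cl x o ∘ t) A z o := by
  classical
  intro h
  have hoo : cl x o o = o := by unfold cl; split_ifs <;> rfl
  have hzz : cl x o z = z := by unfold cl; rw [if_neg hzx]
  have h0 : (Pi.single z 1 - Pi.single o 1 : X → ℝ) ∈
      (Submodule.span ℝ (vec s t '' (A : Set E))).map (J8.push (cl x o)) := by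
    rw [← J8.span_push]
    exact h
  obtain ⟨v, hv, hv2⟩ := h0
  have h1 : J8.push (cl x o) (v - (Pi.single z 1 - Pi.single o 1)) = 0 := by
    rw [map_sub, hv2, J8.push_sub, hoo, hzz, sub_self]
  obtain ⟨k, hk⟩ := J8.ker_push x o _ h1
  have h2 : v = (Pi.single z 1 - Pi.single o 1) + k • (Pi.single x 1 - Pi.single o 1) := by
    rw [← hk]; abel
  set f : X → ℝ := fun y => if Cn s t A z y then 1 else 0 with hf
  have h3 := sum_zero s t A f (by
    intro e he
    have h4 : Cn s t A z (s e) ↔ Cn s t A z (t e) := by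
      constructor
      · intro h; exact Cn_trans s t A _ _ _ h (Cn_edge s t A e he)
      · intro h; exact Cn_trans s t A _ _ _ h ((Cn_comm s t A _ _).1 (Cn_edge s t A e he))
    simp only [hf, h4]) v hv
  have h5 : ∀ y, f y * v y = f y * (Pi.single z (1 : ℝ) : X → ℝ) y -
      f y * (Pi.single o (1 : ℝ) : X → ℝ) y + k * (f y * (Pi.single x (1 : ℝ) : X → ℝ) y -
      f y * (Pi.single o (1 : ℝ) : X → ℝ) y) := by
    intro y
    rw [h2]
    simp only [Pi.add_apply, Pi.sub_apply, Pi.smul_apply, smul_eq_mul]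
    ring
  have fz : f z = 1 := by simp only [hf, if_pos (Cn_refl s t A z)]
  have fo : f o = 0 := by simp only [hf, if_neg hzo]
  have fx : f x = 0 := by simp only [hf, if_neg hzx']
  simp only [h5, Finset.sum_add_distrib, Finset.sum_sub_distrib, ← Finset.mul_sum,
    Pi.single_apply, mul_ite, mul_one, mul_zero, Finset.sum_ite_eq', Finset.mem_univ, if_true,
    fz, fo, fx] at h3
  norm_num at h3

theorem FS_cover {X : Type} [Fintype X] [DecidableEq X] (s t : E → X) (w : E → ℝ)
    (hw : ∀ e, 0 ≤ w e) (S : Finset E) (P Q R T : Finset E → Prop)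
    (h : ∀ A, P A → Q A ∨ R A ∨ T A) :
    FS s t w S P ≤ FS s t w S Q + (FS s t w S R + FS s t w S T) := by
  classical
  unfold FS
  simp only [Finset.sum_filter]
  rw [← Finset.sum_add_distrib, ← Finset.sum_add_distrib]
  apply Finset.sum_le_sum
  intro A _
  have hp : 0 ≤ ∏ e ∈ A, w e := Finset.prod_nonneg fun e _ => hw e
  by_cases hF : IsF s t A
  · by_cases hP : P A
    · rw [if_pos ⟨hF, hP⟩]
      rcases h A hP with h1 | h1 | h1
      · rw [if_pos ⟨hF, h1⟩]
        have h2 : 0 ≤ (if IsF s t A ∧ R A then ∏ e ∈ A, w e else 0) := by split_ifs <;> simp [hp]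
        have h3 : 0 ≤ (if IsF s t A ∧ T A then ∏ e ∈ A, w e else 0) := by split_ifs <;> simp [hp]
        linarith
      · rw [if_pos (⟨hF, h1⟩ : IsF s t A ∧ R A)]
        have h2 : 0 ≤ (if IsF s t A ∧ Q A then ∏ e ∈ A, w e else 0) := by split_ifs <;> simp [hp]
        have h3 : 0 ≤ (if IsF s t A ∧ T A then ∏ e ∈ A, w e else 0) := by split_ifs <;> simp [hp]
        linarith
      · rw [if_pos (⟨hF, h1⟩ : IsF s t A ∧ T A)]
        have h2 : 0 ≤ (if IsF s t A ∧ Q A then ∏ e ∈ A, w e else 0) := by split_ifs <;> simp [hp]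
        have h3 : 0 ≤ (if IsF s t A ∧ R A then ∏ e ∈ A, w e else 0) := by split_ifs <;> simp [hp]
        linarith
    · rw [if_neg (fun h => hP h.2)]
      have h1 : 0 ≤ (if IsF s t A ∧ Q A then ∏ e ∈ A, w e else 0) := by split_ifs <;> simp [hp]
      have h2 : 0 ≤ (if IsF s t A ∧ R A then ∏ e ∈ A, w e else 0) := by split_ifs <;> simp [hp]
      have h3 : 0 ≤ (if IsF s t A ∧ T A then ∏ e ∈ A, w e else 0) := by split_ifs <;> simp [hp]
      linarith
  · simp [hF]

/-- the network with the root and `x` exchanged -/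
theorem sw_netOf (s t : E → Option V) (w : E → ℝ) (hw : ∀ e, 0 ≤ w e) (S : Finset E) (x : V) :
    Sw (netOf s t w hw S)
      (netOf (Equiv.swap none (some x) ∘ s) (Equiv.swap none (some x) ∘ t) w hw S) x := by
  set τ := Equiv.swap (none : Option V) (some x) with hτ
  set N := netOf s t w hw S with hN
  set N' := netOf (τ ∘ s) (τ ∘ t) w hw S with hN'
  have hwt : ∀ a b : Option V, wt (τ ∘ s) (τ ∘ t) w S a b = wt s t w S (τ a) (τ b) := by
    intro a b
    rw [wt_eq, wt_eq]
    apply Finset.sum_congr rfl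
    intro e _
    have h : ∀ o o' : Option V, τ o = o' ↔ o = τ o' := by
      intro o o'
      constructor
      · intro h
        rw [← h, hτ, Equiv.swap_apply_self]
      · intro h
        rw [h, hτ, Equiv.swap_apply_self]
    simp only [Function.comp_apply, h]
  have hτx : τ (some x) = none := Equiv.swap_apply_right _ _
  have hτn : τ none = some x := Equiv.swap_apply_left _ _
  have hτo : ∀ b : V, b ≠ x → τ (some b) = some b := by
    intro b hb
    apply Equiv.swap_apply_of_ne_of_ne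
    · simp
    · intro h; exact hb (Option.some_injective _ h)
  refine ⟨?_, ?_, ?_, ?_⟩
  · intro a b ha hb
    rw [hN', hN, netOf_B, netOf_B, hwt, hτo a ha, hτo b hb]
  · intro b hb
    rw [hN', hN, netOf_B, netOf_r, hwt, hτx, hτo b hb, if_neg (Ne.symm hb), wt_comm]
  · intro b hb
    rw [hN', hN, netOf_B, netOf_r, hwt, hτn, hτo b hb, if_neg (Ne.symm hb), wt_comm]
  · rw [hN', hN, netOf_r, netOf_r, hwt, hτn, hτx, wt_comm]

end K4b

open K4b

theorem IA_W (s t : E → Option V) (w : E → ℝ) (hw : ∀ e, 0 ≤ w e) (S : Finset E) (x z : V)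
    (hxz : x ≠ z) (N : Net V) (hNe : N = netOf s t w hw S) :
    IA N (fun a => ENNReal.ofReal ((HM N a)⁻¹ x x * ((HM N a)⁻¹ *ᵥ N.r) z ^ 2 +
        (HM N a)⁻¹ z z * ((HM N a)⁻¹ *ᵥ N.r) x ^ 2 -
        2 * (HM N a)⁻¹ x z * ((HM N a)⁻¹ *ᵥ N.r) x * ((HM N a)⁻¹ *ᵥ N.r) z)) ≤
      ENNReal.ofReal (Real.sqrt (2 * Real.pi) ^ (Fintype.card V) *
        (FS s t w S (fun A => Cn s t A (some x) none) +
          FS s t w S (fun A => Cn s t A (some z) none))) := by
  have hzx : z ≠ x := hxz.symm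
  set τ := Equiv.swap (none : Option V) (some x) with hτ
  set N' := netOf (τ ∘ s) (τ ∘ t) w hw S with hN'
  have hSw : Sw N N' x := by rw [hNe]; exact sw_netOf s t w hw S x
  have hid := main_id N N' x z hzx hSw
  show IA N (fun a => ENNReal.ofReal (WI N x z a)) ≤ _
  set W := IA N (fun a => ENNReal.ofReal (WI N x z a)) with hW
  have h1 := IA_psi_sq N z
  have h2 := IA_psi_sq N' z
  have h3 : IA N' (fun _ => 1) = IA N (fun _ => 1) := by
    rw [hNe]
    exact IA_swap s t w hw S x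
  have hA : IA N (fun _ => 1) ≠ ⊤ := by
    rw [hNe, IA_eq_FS]
    exact ENNReal.ofReal_ne_top
  set K := Real.sqrt (2 * Real.pi) ^ (Fintype.card V) with hK
  have hK0 : 0 ≤ K := by positivity
  -- the forest sums
  have hτx : τ (some x) = none := Equiv.swap_apply_right _ _
  have hτz : τ (some z) = some z := by
    apply Equiv.swap_apply_of_ne_of_ne
    · simp
    · intro h; exact hzx (Option.some_injective _ h)
  have hZs : IA (N'.mg z) (fun _ => 1) =
      ENNReal.ofReal (K * FS s t w S (fun A => ¬ Cn s t A (some z) (some x))) := by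
    rw [hN', netOf_mg, IA_eq_FS, FS_merge _ _ w S (some z) none (by simp)]
    congr 2
    unfold FS
    apply Finset.sum_congr _ (fun _ _ => rfl)
    ext A
    have h4 : Cn (τ ∘ s) (τ ∘ t) A (some z) none ↔ Cn s t A (some z) (some x) := by
      have := Cn_comp τ τ.injective s t A (some z) (some x)
      rwa [hτz, hτx] at this
    simp only [Finset.mem_filter, IsF_comp τ τ.injective s t A, h4, and_true]
  have hY : IA ((N.mg x).mg z) (fun _ => 1) =
      ENNReal.ofReal (K * FS s t w S (fun A => ¬ Cn s t A (some x) none ∧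
        (¬ Cn (cl (some x) none ∘ s) (cl (some x) none ∘ t) A (some z) none ∧ True))) := by
    rw [hNe, netOf_mg, netOf_mg, IA_eq_FS, FS_merge _ _ w S (some z) none (by simp),
      FS_merge _ _ w S (some x) none (by simp)]
  have hYtop : IA ((N.mg x).mg z) (fun _ => 1) ≠ ⊤ := by
    rw [hY]; exact ENNReal.ofReal_ne_top
  have hcomb : IA (N'.mg z) (fun _ => 1) ≤ IA ((N.mg x).mg z) (fun _ => 1) +
      ENNReal.ofReal (K * (FS s t w S (fun A => Cn s t A (some x) none) +
          FS s t w S (fun A => Cn s t A (some z) none))) := by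
    rw [hZs, hY, ← ENNReal.ofReal_add (mul_nonneg hK0 (FS_nonneg s t w hw S _))
      (mul_nonneg hK0 (add_nonneg (FS_nonneg s t w hw S _) (FS_nonneg s t w hw S _)))]
    apply ENNReal.ofReal_le_ofReal
    rw [← mul_add]
    apply mul_le_mul_of_nonneg_left _ hK0
    apply FS_cover s t w hw S
    intro A hP
    by_cases hx : Cn s t A (some x) none
    · exact Or.inr (Or.inl hx)
    · by_cases hz : Cn s t A (some z) none
      · exact Or.inr (Or.inr hz)
      · left
        refine ⟨hx, ?_, trivial⟩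
        exact not_Cn_merge s t A (some x) (some z) none (by simpa using hzx) hz hP
  -- the identity `W + Y = Zs`
  have hfin : W + IA ((N.mg x).mg z) (fun _ => 1) = IA (N'.mg z) (fun _ => 1) := by
    rw [h1] at hid
    have h5 : IA N (fun _ => 1) + (W + IA ((N.mg x).mg z) (fun _ => 1)) =
        IA N (fun _ => 1) + IA (N'.mg z) (fun _ => 1) := by
      calc IA N (fun _ => 1) + (W + IA ((N.mg x).mg z) (fun _ => 1))
          = (IA N' (fun a => ENNReal.ofReal (((HM N' a)⁻¹ *ᵥ N'.r) z ^ 2)) +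
              IA (N'.mg z) (fun _ => 1)) + (W + IA ((N.mg x).mg z) (fun _ => 1)) := by
            rw [h2, h3]
        _ = (W + IA N' (fun a => ENNReal.ofReal (((HM N' a)⁻¹ *ᵥ N'.r) z ^ 2)) +
              IA ((N.mg x).mg z) (fun _ => 1)) + IA (N'.mg z) (fun _ => 1) := by ring
        _ = IA N (fun _ => 1) + IA (N'.mg z) (fun _ => 1) := by rw [hid]
    exact (ENNReal.add_right_inj hA).1 h5
  have h6 : IA ((N.mg x).mg z) (fun _ => 1) + W ≤ IA ((N.mg x).mg z) (fun _ => 1) +
      ENNReal.ofReal (K * (FS s t w S (fun A => Cn s t A (some x) none) +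
          FS s t w S (fun A => Cn s t A (some z) none))) := by
    rw [add_comm _ W, hfin]
    exact hcomb
  exact (ENNReal.add_le_add_iff_left hYtop).1 h6

end Pool.Agent.TH369.AG
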