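import Pool.Agent.TH369.AG.Defs5
import Pool.Agent.TH369.AG.J2
import Pool.Agent.TH369.AG.J5
import Pool.Agent.TH369.AG.J6
import Pool.Agent.TH369.AG.J8
import Pool.Agent.TH369.AG.J10
import Pool.Agent.TH369.AG.K4a
import Pool.Agent.TH369.AG.K4b
import Pool.Agent.TH369.AG.K4c1

/-!
# The moments in terms of forests
-/

set_option autoImplicit false
set_option linter.unusedSectionVars false

namespace Pool.Agent.TH369.AG

open MeasureTheory Matrix

variable {V : Type} [Fintype V] [DecidableEq V]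
variable {E : Type} [Fintype E] [DecidableEq E]

namespace K4c2

/-! ### measurability and transfer between integrals -/

/-- the density -/
noncomputable def dens (N : Net V) (p : Pt V) : ℝ :=
  Real.exp (- En N p.1 p.2) * (HM N (cf N p.1)).det ^ 2

theorem dens_nonneg (N : Net V) (p : Pt V) : 0 ≤ dens N p :=
  mul_nonneg (Real.exp_pos _).le (sq_nonneg _)

theorem continuous_cf (N : Net V) : Continuous (cf N) := by
  unfold cf
  fun_prop

theorem continuous_dens (N : Net V) : Continuous (dens N) := by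
  have h1 : Continuous fun p : Pt V => HM N (cf N p.1) :=
    (J10.continuous_HM N).comp ((continuous_cf N).comp continuous_fst)
  have h2 : Continuous fun p : Pt V => En N p.1 p.2 := by
    unfold En ed er
    fun_prop
  unfold dens
  exact (Real.continuous_exp.comp h2.neg).mul (h1.matrix_det.pow 2)

theorem tot_eq (N : Net V) (Φ : Pt V → ℝ) (h0 : ∀ p, 0 ≤ Φ p) (hc : Continuous Φ) :
    Tot N Φ = (∫⁻ p : Pt V, ENNReal.ofReal (Φ p) * ENNReal.ofReal (dens N p)).toReal := by
  unfold Tot
  rw [integral_eq_lintegral_of_nonneg_ae]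
  · congr 1
    refine lintegral_congr fun p => ?_
    rw [← ENNReal.ofReal_mul (h0 p)]
    rfl
  · exact Filter.Eventually.of_forall fun p => mul_nonneg (h0 p) (dens_nonneg N p)
  · exact (hc.mul (continuous_dens N)).aestronglyMeasurable

theorem tot_le (N : Net V) (Φ : Pt V → ℝ) (h0 : ∀ p, 0 ≤ Φ p) (hc : Continuous Φ) {R : ℝ}
    (hR : 0 ≤ R)
    (h : ∫⁻ p : Pt V, ENNReal.ofReal (Φ p) * ENNReal.ofReal (dens N p) ≤ ENNReal.ofReal R) :
    Tot N Φ ≤ R := by
  rw [tot_eq N Φ h0 hc]
  exact ENNReal.toReal_le_of_le_ofReal hR h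

theorem tot_of (N : Net V) (Φ : Pt V → ℝ) (h0 : ∀ p, 0 ≤ Φ p) (hc : Continuous Φ) {R : ℝ}
    (hR : 0 ≤ R)
    (h : ∫⁻ p : Pt V, ENNReal.ofReal (Φ p) * ENNReal.ofReal (dens N p) = ENNReal.ofReal R) :
    Tot N Φ = R := by
  rw [tot_eq N Φ h0 hc, h, ENNReal.toReal_ofReal hR]

/-- the constant -/
theorem cst_mul (n : ℕ) : Real.sqrt (2 * Real.pi) ^ n * Real.sqrt (2 * Real.pi) ^ n =
    (2 * Real.pi) ^ n := by
  rw [← mul_pow, Real.mul_self_sqrt (by positivity)]

theorem cst_nonneg (n : ℕ) : 0 ≤ Real.sqrt (2 * Real.pi) ^ n := by positivity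

/-! ### forests -/

theorem FS_mono {X : Type} [Fintype X] [DecidableEq X] (s t : E → X) (w : E → ℝ)
    (hw : ∀ e, 0 ≤ w e) (S : Finset E) {P Q : Finset E → Prop} (h : ∀ A, P A → Q A) :
    FS s t w S P ≤ FS s t w S Q := by
  classical
  unfold FS
  refine Finset.sum_le_sum_of_subset_of_nonneg ?_ fun A _ _ => Finset.prod_nonneg fun e _ => hw e
  intro A hA
  rw [Finset.mem_filter] at hA ⊢
  exact ⟨hA.1, hA.2.1, h A hA.2.2⟩

theorem FS_split {X : Type} [Fintype X] [DecidableEq X] (s t : E → X) (w : E → ℝ)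
    (S : Finset E) (P Q : Finset E → Prop) :
    FS s t w S P = FS s t w S (fun A => P A ∧ Q A) + FS s t w S (fun A => P A ∧ ¬ Q A) := by
  classical
  unfold FS
  rw [Finset.sum_filter, Finset.sum_filter, Finset.sum_filter, ← Finset.sum_add_distrib]
  refine Finset.sum_congr rfl fun A _ => ?_
  by_cases h1 : IsF s t A <;> by_cases h2 : P A <;> by_cases h3 : Q A <;> simp [h1, h2, h3]

theorem FS_or {X : Type} [Fintype X] [DecidableEq X] (s t : E → X) (w : E → ℝ)
    (hw : ∀ e, 0 ≤ w e) (S : Finset E) (P Q : Finset E → Prop) :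
    FS s t w S (fun A => P A ∨ Q A) ≤ FS s t w S P + FS s t w S Q := by
  rw [FS_split s t w S (fun A => P A ∨ Q A) P]
  exact add_le_add (FS_mono s t w hw S fun A h => h.2)
    (FS_mono s t w hw S fun A h => h.1.resolve_left h.2)

theorem FS_weight {X : Type} [Fintype X] [DecidableEq X] (s t : E → X) (w w' : E → ℝ)
    (hw' : ∀ e, 0 ≤ w' e) (h : ∀ e, w' e ≤ w e) (S : Finset E) (P : Finset E → Prop) :
    FS s t w' S P ≤ FS s t w S P := by
  unfold FS
  exact Finset.sum_le_sum fun A _ => Finset.prod_le_prod (fun e _ => hw' e) fun e _ => h e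

/-- after merging `p` into `o`, a connection between `q` and `o` comes from a connection of `q` to
`p` or to `o` -/
theorem Cn_merge {X : Type} [Fintype X] [DecidableEq X] (s t : E → X) (A : Finset E) (p o q : X)
    (h : Cn (cl p o ∘ s) (cl p o ∘ t) A q o) : Cn s t A p q ∨ Cn s t A q o := by
  rw [Cn_iff] at h
  rw [Cn_iff, Cn_iff]
  set R : X → X → Prop := fun u v => ∃ e ∈ A, s e = u ∧ t e = v with hR
  have key : ∀ x y : X, Relation.EqvGen (fun u v => ∃ e ∈ A, (cl p o ∘ s) e = u ∧
      (cl p o ∘ t) e = v) x y → (Relation.EqvGen R x y ∨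
      ((Relation.EqvGen R x p ∨ Relation.EqvGen R x o) ∧
        (Relation.EqvGen R y p ∨ Relation.EqvGen R y o))) := by
    intro x y hxy
    induction hxy with
    | rel x y hxy =>
      obtain ⟨e, he, hx, hy⟩ := hxy
      have h1 : Relation.EqvGen R (s e) (t e) := Relation.EqvGen.rel _ _ ⟨e, he, rfl, rfl⟩
      simp only [Function.comp_apply, cl] at hx hy
      by_cases hs : s e = p <;> by_cases ht : t e = p
      · rw [if_pos hs] at hx
        rw [if_pos ht] at hy
        subst hx
        subst hy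
        exact Or.inl (Relation.EqvGen.refl _)
      · rw [if_pos hs] at hx
        rw [if_neg ht] at hy
        subst hx
        subst hy
        rw [hs] at h1
        exact Or.inr ⟨Or.inr (Relation.EqvGen.refl _), Or.inl h1.symm⟩
      · rw [if_neg hs] at hx
        rw [if_pos ht] at hy
        subst hx
        subst hy
        rw [ht] at h1
        exact Or.inr ⟨Or.inl h1, Or.inr (Relation.EqvGen.refl _)⟩
      · rw [if_neg hs] at hx
        rw [if_neg ht] at hy
        subst hx
        subst hy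
        exact Or.inl h1
    | refl x => exact Or.inl (Relation.EqvGen.refl _)
    | symm x y _ ih =>
      rcases ih with ih | ih
      · exact Or.inl ih.symm
      · exact Or.inr ⟨ih.2, ih.1⟩
    | trans x y z _ _ ih1 ih2 =>
      rcases ih1 with ih1 | ih1
      · rcases ih2 with ih2 | ih2
        · exact Or.inl (ih1.trans _ _ _ ih2)
        · refine Or.inr ⟨?_, ih2.2⟩
          rcases ih2.1 with h | h
          · exact Or.inl (ih1.trans _ _ _ h)
          · exact Or.inr (ih1.trans _ _ _ h)
      · rcases ih2 with ih2 | ih2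
        · refine Or.inr ⟨ih1.1, ?_⟩
          rcases ih1.2 with h | h
          · exact Or.inl (ih2.symm.trans _ _ _ h)
          · exact Or.inr (ih2.symm.trans _ _ _ h)
        · exact Or.inr ⟨ih1.1, ih2.2⟩
  rcases key q o h with h | ⟨h | h, -⟩
  · exact Or.inr h
  · exact Or.inl h.symm
  · exact Or.inr h

/-! ### forests and the integrals over `a` -/

section

variable (s t : E → Option V) (w : E → ℝ) (hw : ∀ e, 0 ≤ w e) (S : Finset E)

include hw

theorem FS_nn (P : Finset E → Prop) : 0 ≤ FS s t w S P := J10.FS_nonneg s t w hw S P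

theorem IA_mg (p : V) :
    IA ((netOf s t w hw S).mg p) (fun _ => 1) =
      ENNReal.ofReal (Real.sqrt (2 * Real.pi) ^ (Fintype.card V) *
        FS s t w S (fun A => ¬ Cn s t A (some p) none)) := by
  rw [netOf_mg, IA_eq_FS, FS_merge s t w S (some p) none (by simp)]
  simp only [and_true]

theorem IA_sub {X : ENNReal} {P : Finset E → Prop}
    (h : X + ENNReal.ofReal (Real.sqrt (2 * Real.pi) ^ (Fintype.card V) *
        FS s t w S (fun A => ¬ P A)) =
      ENNReal.ofReal (Real.sqrt (2 * Real.pi) ^ (Fintype.card V) * FS s t w S (fun _ => True))) :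
    X = ENNReal.ofReal (Real.sqrt (2 * Real.pi) ^ (Fintype.card V) * FS s t w S P) := by
  have h1 := FS_split s t w S (fun _ => True) P
  simp only [true_and] at h1
  rw [h1, mul_add, ENNReal.ofReal_add (mul_nonneg (cst_nonneg _) (FS_nn s t w hw S _))
    (mul_nonneg (cst_nonneg _) (FS_nn s t w hw S _))] at h
  exact (ENNReal.add_left_inj ENNReal.ofReal_ne_top).1 h

theorem IA_psi_FS (p : V) :
    IA (netOf s t w hw S) (fun a => ENNReal.ofReal (((HM (netOf s t w hw S) a)⁻¹ *ᵥ
      (netOf s t w hw S).r) p)) =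
      ENNReal.ofReal (Real.sqrt (2 * Real.pi) ^ (Fintype.card V) *
        FS s t w S (fun A => Cn s t A (some p) none)) := by
  have h := IA_psi (netOf s t w hw S) p
  rw [IA_mg s t w hw S p, IA_eq_FS] at h
  exact IA_sub s t w hw S h

theorem IA_psi_sq_FS (p : V) :
    IA (netOf s t w hw S) (fun a => ENNReal.ofReal (((HM (netOf s t w hw S) a)⁻¹ *ᵥ
      (netOf s t w hw S).r) p ^ 2)) =
      ENNReal.ofReal (Real.sqrt (2 * Real.pi) ^ (Fintype.card V) *
        FS s t w S (fun A => Cn s t A (some p) none)) := by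
  have h := IA_psi_sq (netOf s t w hw S) p
  rw [IA_mg s t w hw S p, IA_eq_FS] at h
  exact IA_sub s t w hw S h

theorem IA_G (p q : V) :
    IA (netOf s t w hw S) (fun a => ENNReal.ofReal ((HM (netOf s t w hw S) a)⁻¹ p q)) ≤
      ENNReal.ofReal (Real.sqrt (2 * Real.pi) ^ (Fintype.card V) *
        (FS s t w S (fun A => Cn s t A (some p) (some q)) +
        FS s t w S (fun A => Cn s t A (some q) none))) := by
  by_cases hpq : p = q
  · subst hpq
    rw [IA_Gpp, IA_mg s t w hw S p]
    refine ENNReal.ofReal_le_ofReal (mul_le_mul_of_nonneg_left ?_ (cst_nonneg _))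
    have h1 : FS s t w S (fun A => ¬ Cn s t A (some p) none) ≤
        FS s t w S (fun A => Cn s t A (some p) (some p)) :=
      FS_mono s t w hw S fun A _ => by rw [J10.Cn_self]; trivial
    have h2 := FS_nn s t w hw S (fun A => Cn s t A (some p) none)
    linarith
  · have h := IA_Gpq (netOf s t w hw S) p q hpq
    rw [IA_mg s t w hw S p] at h
    rw [netOf_mg s t w hw S p, IA_mg _ _ w hw S q, FS_merge s t w S (some p) none (by simp)] at h
    have h1 := FS_split s t w S (fun A => ¬ Cn s t A (some p) none)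
      (fun A => Cn (cl (some p) none ∘ s) (cl (some p) none ∘ t) A (some q) none)
    rw [h1, mul_add, ENNReal.ofReal_add (mul_nonneg (cst_nonneg _) (FS_nn s t w hw S _))
      (mul_nonneg (cst_nonneg _) (FS_nn s t w hw S _))] at h
    have h2 := (ENNReal.add_le_add_iff_right ENNReal.ofReal_ne_top).1 h
    refine le_trans h2 (ENNReal.ofReal_le_ofReal (mul_le_mul_of_nonneg_left ?_ (cst_nonneg _)))
    refine le_trans ?_ (FS_or s t w hw S _ _)
    exact FS_mono s t w hw S fun A hA => Cn_merge s t A (some p) none (some q) hA.2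

end

end K4c2

open K4c2

section

variable (s t : E → Option V) (w : E → ℝ) (hw : ∀ e, 0 ≤ w e) (S : Finset E) (N : Net V)
  (hNe : N = netOf s t w hw S) (hN : N.Conn)

include hNe hN

theorem K4c2.psi_eq (p : Pt V) (x : V) :
    ((HM N (cf N p.1))⁻¹ *ᵥ N.r) x = Real.exp (p.1 x) := by
  have h1 := HM_cf_mulVec N p.1
  have h2 := posDef_cf N hN p.1
  have h3 : IsUnit (HM N (cf N p.1)).det := h2.det_pos.ne'.isUnit
  rw [← h1, Matrix.mulVec_mulVec, Matrix.nonsing_inv_mul _ h3, Matrix.one_mulVec]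

theorem K4c2.lint_psi_sq (x : V) :
    ∫⁻ p : Pt V, ENNReal.ofReal (Real.exp (p.1 x) ^ 2) * ENNReal.ofReal (dens N p) =
      ENNReal.ofReal ((2 * Real.pi) ^ (Fintype.card V) *
        FS s t w S (fun A => Cn s t A (some x) none)) := by
  have hm : Measurable fun a : V → ℝ => ((HM N a)⁻¹ *ᵥ N.r) x :=
    J10.measurable_inv_mulVec N N.r x
  have h := (Tot_lintegral N hN (fun _ _ => 0) (by fun_prop)
    (fun a => ENNReal.ofReal (((HM N a)⁻¹ *ᵥ N.r) x ^ 2)) (hm.pow_const 2).ennreal_ofReal).1
  simp only [psi_eq s t w hw S N hNe hN] at h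
  have e : IA N (fun a => ENNReal.ofReal (((HM N a)⁻¹ *ᵥ N.r) x ^ 2)) =
      ENNReal.ofReal (Real.sqrt (2 * Real.pi) ^ (Fintype.card V) *
      FS s t w S (fun A => Cn s t A (some x) none)) := by
    subst hNe
    exact IA_psi_sq_FS s t w hw S x
  rw [e, ← ENNReal.ofReal_mul (cst_nonneg _), ← mul_assoc, cst_mul] at h
  exact h

theorem Tot_psi (x : V) :
    Tot N (fun p => Real.exp (p.1 x)) =
      (2 * Real.pi) ^ (Fintype.card V) * FS s t w S (fun A => Cn s t A (some x) none) ∧
    Tot N (fun p => Real.exp (p.1 x) ^ 2) =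
      (2 * Real.pi) ^ (Fintype.card V) * FS s t w S (fun A => Cn s t A (some x) none) := by
  have hR : 0 ≤ (2 * Real.pi) ^ (Fintype.card V) *
      FS s t w S (fun A => Cn s t A (some x) none) :=
    mul_nonneg (by positivity) (FS_nn s t w hw S _)
  have hm : Measurable fun a : V → ℝ => ((HM N a)⁻¹ *ᵥ N.r) x :=
    J10.measurable_inv_mulVec N N.r x
  constructor
  · refine tot_of N _ (fun p => (Real.exp_pos _).le) (by fun_prop) hR ?_
    have h := (Tot_lintegral N hN (fun _ _ => 0) (by fun_prop)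
      (fun a => ENNReal.ofReal (((HM N a)⁻¹ *ᵥ N.r) x)) hm.ennreal_ofReal).1
    simp only [psi_eq s t w hw S N hNe hN] at h
    have e : IA N (fun a => ENNReal.ofReal (((HM N a)⁻¹ *ᵥ N.r) x)) =
        ENNReal.ofReal (Real.sqrt (2 * Real.pi) ^ (Fintype.card V) *
        FS s t w S (fun A => Cn s t A (some x) none)) := by
      subst hNe
      exact IA_psi_FS s t w hw S x
    rw [e, ← ENNReal.ofReal_mul (cst_nonneg _), ← mul_assoc, cst_mul] at h
    exact h
  · exact tot_of N _ (fun p => sq_nonneg _) (by fun_prop) hR (lint_psi_sq s t w hw S N hNe hN x)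

theorem Tot_y (P : Finset V) :
    Tot N (fun p => (∑ q ∈ P, p.2 q) ^ 2) ≤ (2 * Real.pi) ^ (Fintype.card V) *
      ∑ p ∈ P, ∑ q ∈ P, (FS s t w S (fun A => Cn s t A (some p) (some q)) +
        FS s t w S (fun A => Cn s t A (some q) none)) := by
  have hRR : 0 ≤ ∑ p ∈ P, ∑ q ∈ P, (FS s t w S (fun A => Cn s t A (some p) (some q)) +
        FS s t w S (fun A => Cn s t A (some q) none)) :=
    Finset.sum_nonneg fun p _ => Finset.sum_nonneg fun q _ =>
      add_nonneg (FS_nn s t w hw S _) (FS_nn s t w hw S _)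
  refine tot_le N _ (fun p => sq_nonneg _) (by fun_prop) (mul_nonneg (by positivity) hRR) ?_
  have h := (Tot_lintegral N hN (fun _ x => if x ∈ P then 1 else 0) (by fun_prop)
    (fun _ => 0) (by fun_prop)).2
  have e1 : ∀ p : Pt V, ∑ x, (if x ∈ P then (1 : ℝ) else 0) * p.2 x = ∑ q ∈ P, p.2 q := by
    intro p
    simp only [ite_mul, one_mul, zero_mul, Finset.sum_ite_mem, Finset.univ_inter]
  simp only [e1] at h
  have e2 : ∀ a : V → ℝ, (fun x => if x ∈ P then (1 : ℝ) else 0) ⬝ᵥ (HM N a)⁻¹ *ᵥ
      (fun x => if x ∈ P then (1 : ℝ) else 0) = ∑ p ∈ P, ∑ q ∈ P, (HM N a)⁻¹ p q := by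
    intro a
    simp only [dotProduct, Matrix.mulVec, ite_mul, one_mul, zero_mul, mul_ite, mul_one, mul_zero,
      Finset.sum_ite_mem, Finset.univ_inter]
  simp only [e2] at h
  have hsum : ∀ (T : Finset V) (f : V → ℝ), ENNReal.ofReal (∑ p ∈ T, f p) ≤
      ∑ p ∈ T, ENNReal.ofReal (f p) := by
    intro T f
    induction T using Finset.induction_on with
    | empty => simp
    | insert a T ha ih =>
      rw [Finset.sum_insert ha, Finset.sum_insert ha]
      exact le_trans ENNReal.ofReal_add_le (add_le_add le_rfl ih)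
  have h1 : IA N (fun a => ENNReal.ofReal (∑ p ∈ P, ∑ q ∈ P, (HM N a)⁻¹ p q)) ≤
      ENNReal.ofReal (Real.sqrt (2 * Real.pi) ^ (Fintype.card V) *
        ∑ p ∈ P, ∑ q ∈ P, (FS s t w S (fun A => Cn s t A (some p) (some q)) +
        FS s t w S (fun A => Cn s t A (some q) none))) := by
    calc IA N (fun a => ENNReal.ofReal (∑ p ∈ P, ∑ q ∈ P, (HM N a)⁻¹ p q))
        ≤ IA N (fun a => ∑ p ∈ P, ∑ q ∈ P, ENNReal.ofReal ((HM N a)⁻¹ p q)) := by
          unfold IA
          refine lintegral_mono fun a => ?_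
          refine mul_le_mul_right ?_ _
          exact le_trans (hsum _ _) (Finset.sum_le_sum fun p _ => hsum _ _)
      _ = ∑ p ∈ P, ∑ q ∈ P, IA N (fun a => ENNReal.ofReal ((HM N a)⁻¹ p q)) := by
          unfold IA
          have hm : ∀ p q, Measurable fun a : V → ℝ =>
              ENNReal.ofReal (wA N a) * ENNReal.ofReal ((HM N a)⁻¹ p q) := fun p q =>
            (J10.measurable_wA N).ennreal_ofReal.mul
              (J10.measurable_inv_apply N p q).ennreal_ofReal
          simp only [Finset.mul_sum]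
          rw [lintegral_finsetSum _ fun p _ => Finset.measurable_fun_sum _ fun q _ => hm p q]
          refine Finset.sum_congr rfl fun p _ => ?_
          rw [lintegral_finsetSum _ fun q _ => hm p q]
      _ ≤ ∑ p ∈ P, ∑ q ∈ P, ENNReal.ofReal (Real.sqrt (2 * Real.pi) ^ (Fintype.card V) *
            (FS s t w S (fun A => Cn s t A (some p) (some q)) +
              FS s t w S (fun A => Cn s t A (some q) none))) := by
          refine Finset.sum_le_sum fun p _ => Finset.sum_le_sum fun q _ => ?_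
          subst hNe
          exact IA_G s t w hw S p q
      _ = _ := by
          have hn : ∀ p q, 0 ≤ Real.sqrt (2 * Real.pi) ^ (Fintype.card V) *
            (FS s t w S (fun A => Cn s t A (some p) (some q)) +
              FS s t w S (fun A => Cn s t A (some q) none)) := fun p q =>
            mul_nonneg (cst_nonneg _) (add_nonneg (FS_nn s t w hw S _) (FS_nn s t w hw S _))
          rw [Finset.mul_sum, ENNReal.ofReal_sum_of_nonneg fun p _ =>
            mul_nonneg (cst_nonneg _) (Finset.sum_nonneg fun q _ =>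
              add_nonneg (FS_nn s t w hw S _) (FS_nn s t w hw S _))]
          refine Finset.sum_congr rfl fun p _ => ?_
          rw [Finset.mul_sum, ENNReal.ofReal_sum_of_nonneg fun q _ => hn p q]
  refine le_trans (le_of_eq h) ?_
  refine le_trans (mul_le_mul_right h1 _) ?_
  rw [← ENNReal.ofReal_mul (cst_nonneg _), ← mul_assoc, cst_mul]

theorem K4c2.inv_symm (a : V → ℝ) (x z : V) : (HM N a)⁻¹ x z = (HM N a)⁻¹ z x := by
  have h : (HM N a)ᵀ = HM N a := by
    ext x z
    rw [Matrix.transpose_apply, J2.HM_apply, J2.HM_apply, N.symm z x]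
    by_cases hxz : x = z
    · subst hxz; rfl
    · rw [if_neg hxz, if_neg (Ne.symm hxz)]
  have h2 := Matrix.transpose_nonsing_inv (HM N a)
  rw [h] at h2
  exact (congrFun (congrFun h2 z) x)

theorem Tot_Wd (x z : V) :
    Tot N (Wd x z) ≤ (2 * Real.pi) ^ (Fintype.card V) *
      (FS s t w S (fun A => Cn s t A (some x) none) +
        FS s t w S (fun A => Cn s t A (some z) none)) := by
  have hRR : 0 ≤ (2 * Real.pi) ^ (Fintype.card V) *
      (FS s t w S (fun A => Cn s t A (some x) none) +
        FS s t w S (fun A => Cn s t A (some z) none)) :=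
    mul_nonneg (by positivity) (add_nonneg (FS_nn s t w hw S _) (FS_nn s t w hw S _))
  by_cases hxz : x = z
  · subst hxz
    have : Tot N (Wd x x) = 0 := by
      unfold Tot Wd
      simp
    rw [this]
    exact hRR
  have hcW : Continuous (Wd x z : Pt V → ℝ) := by
    unfold Wd
    fun_prop
  refine tot_le N _ (fun p => Wd_nonneg x z p) hcW hRR ?_
  have hm : ∀ y, Measurable fun a : V → ℝ => ((HM N a)⁻¹ *ᵥ N.r) y := fun y =>
    J10.measurable_inv_mulVec N N.r y
  have h := (Tot_lintegral N hN (fun a y => (if y = x then ((HM N a)⁻¹ *ᵥ N.r) z else 0) -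
      (if y = z then ((HM N a)⁻¹ *ᵥ N.r) x else 0)) (by
        refine measurable_pi_lambda _ fun y => ?_
        refine Measurable.sub ?_ ?_
        · by_cases hy : y = x
          · simp only [if_pos hy]
            exact hm z
          · simp only [if_neg hy]
            exact measurable_const
        · by_cases hy : y = z
          · simp only [if_pos hy]
            exact hm x
          · simp only [if_neg hy]
            exact measurable_const) (fun _ => 0) (by fun_prop)).2
  have e1 : ∀ p : Pt V, (∑ y, ((if y = x then ((HM N (cf N p.1))⁻¹ *ᵥ N.r) z else 0) -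
      (if y = z then ((HM N (cf N p.1))⁻¹ *ᵥ N.r) x else 0)) * p.2 y) ^ 2 = Wd x z p := by
    intro p
    simp only [psi_eq s t w hw S N hNe hN, sub_mul, ite_mul, zero_mul, Finset.sum_sub_distrib,
      Finset.sum_ite_eq', Finset.mem_univ, if_true]
    unfold Wd
    ring
  simp only [e1] at h
  have e2 : ∀ a : V → ℝ, (fun y => (if y = x then ((HM N a)⁻¹ *ᵥ N.r) z else 0) -
      (if y = z then ((HM N a)⁻¹ *ᵥ N.r) x else 0)) ⬝ᵥ (HM N a)⁻¹ *ᵥ
      (fun y => (if y = x then ((HM N a)⁻¹ *ᵥ N.r) z else 0) -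
      (if y = z then ((HM N a)⁻¹ *ᵥ N.r) x else 0)) =
      (HM N a)⁻¹ x x * ((HM N a)⁻¹ *ᵥ N.r) z ^ 2 +
        (HM N a)⁻¹ z z * ((HM N a)⁻¹ *ᵥ N.r) x ^ 2 -
        2 * (HM N a)⁻¹ x z * ((HM N a)⁻¹ *ᵥ N.r) x * ((HM N a)⁻¹ *ᵥ N.r) z := by
    intro a
    generalize ((HM N a)⁻¹ *ᵥ N.r) x = A
    generalize ((HM N a)⁻¹ *ᵥ N.r) z = B
    have h3 : ∀ y, ((HM N a)⁻¹ *ᵥ (fun y => (if y = x then B else 0) -
        (if y = z then A else 0))) y = (HM N a)⁻¹ y x * B - (HM N a)⁻¹ y z * A := by
      intro y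
      simp only [Matrix.mulVec, dotProduct, mul_sub, mul_ite, mul_zero, Finset.sum_sub_distrib,
        Finset.sum_ite_eq', Finset.mem_univ, if_true]
    simp only [dotProduct, h3, sub_mul, ite_mul, zero_mul, Finset.sum_sub_distrib,
      Finset.sum_ite_eq', Finset.mem_univ, if_true]
    rw [K4c2.inv_symm s t w hw S N hNe hN a z x]
    ring
  simp only [e2] at h
  refine le_trans (le_of_eq h) ?_
  refine le_trans (mul_le_mul_right (IA_W s t w hw S x z hxz N hNe) _) ?_
  rw [← ENNReal.ofReal_mul (cst_nonneg _), ← mul_assoc, cst_mul]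

theorem Tot_ed (x u v : V) :
    Tot N (fun p => Real.exp (p.1 x) ^ 2 * (N.B u v * ed p.1 p.2 u v) ^ 2) ≤
      12 * ((2 * Real.pi) ^ (Fintype.card V) * FS s t w S (fun A => Cn s t A (some x) none)) := by
  have hRR : 0 ≤ 12 * ((2 * Real.pi) ^ (Fintype.card V) *
      FS s t w S (fun A => Cn s t A (some x) none)) :=
    mul_nonneg (by norm_num) (mul_nonneg (by positivity) (FS_nn s t w hw S _))
  by_cases huv : u = v
  · subst huv
    have : Tot N (fun p => Real.exp (p.1 x) ^ 2 * (N.B u u * ed p.1 p.2 u u) ^ 2) = 0 := by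
      unfold Tot
      simp [N.diag]
    rw [this]
    exact hRR
  classical
  set w' : E → ℝ := fun e => if (s e = some u ∧ t e = some v) ∨ (s e = some v ∧ t e = some u)
    then w e / 2 else w e with hw'd
  have hw' : ∀ e, 0 ≤ w' e := by
    intro e
    rw [hw'd]
    dsimp only
    split_ifs
    · exact div_nonneg (hw e) (by norm_num)
    · exact hw e
  have hww : ∀ e, w' e ≤ w e := by
    intro e
    rw [hw'd]
    dsimp only
    split_ifs
    · have := hw e
      linarith
    · exact le_rfl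
  set N' : Net V := netOf s t w' hw' S with hN'
  have hr : N'.r = N.r := by
    funext y
    rw [hN', hNe, J10.netOf_r, J10.netOf_r, J10.wt_eq, J10.wt_eq]
    refine Finset.sum_congr rfl fun e _ => ?_
    split_ifs with h1
    · rw [hw'd]
      dsimp only
      rw [if_neg]
      rintro (⟨h2, h3⟩ | ⟨h2, h3⟩) <;> rcases h1 with ⟨h4, h5⟩ | ⟨h4, h5⟩ <;> simp_all
    · rfl
  have hB1 : ∀ y z, ¬((y = u ∧ z = v) ∨ (y = v ∧ z = u)) → N'.B y z = N.B y z := by
    intro y z hyz
    rw [hN', hNe, J10.netOf_B, J10.netOf_B]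
    split_ifs with h0
    · rfl
    rw [J10.wt_eq, J10.wt_eq]
    refine Finset.sum_congr rfl fun e _ => ?_
    split_ifs with h1
    · rw [hw'd]
      dsimp only
      rw [if_neg]
      intro h2
      apply hyz
      rcases h1 with ⟨h4, h5⟩ | ⟨h4, h5⟩ <;> rcases h2 with ⟨h2, h3⟩ | ⟨h2, h3⟩ <;>
        rw [h4, Option.some_inj] at h2 <;> rw [h5, Option.some_inj] at h3
      · exact Or.inl ⟨h2, h3⟩
      · exact Or.inr ⟨h2, h3⟩
      · exact Or.inr ⟨h3, h2⟩
      · exact Or.inl ⟨h3, h2⟩
    · rfl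
  have hB2 : N'.B u v = N.B u v / 2 := by
    rw [hN', hNe, J10.netOf_B, J10.netOf_B, if_neg huv, if_neg huv, J10.wt_eq, J10.wt_eq,
      Finset.sum_div]
    refine Finset.sum_congr rfl fun e _ => ?_
    split_ifs with h1
    · rw [hw'd]
      dsimp only
      rw [if_pos h1]
    · simp
  have hconn : N'.Conn := by
    intro y
    induction hN y with
    | root h => exact Net.Reach.root (by rwa [hr])
    | @step y z _ h ih =>
      refine Net.Reach.step ih ?_
      by_cases hyz : (y = u ∧ z = v) ∨ (y = v ∧ z = u)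
      · rcases hyz with ⟨rfl, rfl⟩ | ⟨rfl, rfl⟩
        · rw [hB2]
          exact half_pos h
        · rw [N'.symm, hB2, N.symm]
          exact half_pos h
      · rwa [hB1 y z hyz]
  have hEn : ∀ p : Pt V, En N p.1 p.2 = En N' p.1 p.2 + (N.B u v * ed p.1 p.2 u v) / 2 := by
    intro p
    have h1 : ∀ y z, N.B y z * ed p.1 p.2 y z = N'.B y z * ed p.1 p.2 y z +
        ((if y = u then (if z = v then N.B u v / 2 * ed p.1 p.2 u v else 0) else 0) +
          (if y = v then (if z = u then N.B u v / 2 * ed p.1 p.2 u v else 0) else 0)) := by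
      intro y z
      by_cases hyz : (y = u ∧ z = v) ∨ (y = v ∧ z = u)
      · rcases hyz with ⟨rfl, rfl⟩ | ⟨rfl, rfl⟩
        · rw [hB2, if_pos rfl, if_pos rfl, if_neg huv]
          ring
        · rw [N'.symm, hB2, N.symm, if_neg (Ne.symm huv), if_pos rfl, if_pos rfl,
            J6.ed_symm p.1 p.2 y z]
          ring
      · rw [hB1 y z hyz]
        have e1 : (if y = u then (if z = v then N.B u v / 2 * ed p.1 p.2 u v else 0) else 0) =
            (0 : ℝ) := by
          split_ifs with h3 h4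
          · exact absurd (Or.inl ⟨h3, h4⟩) hyz
          · rfl
          · rfl
        have e2 : (if y = v then (if z = u then N.B u v / 2 * ed p.1 p.2 u v else 0) else 0) =
            (0 : ℝ) := by
          split_ifs with h3 h4
          · exact absurd (Or.inr ⟨h3, h4⟩) hyz
          · rfl
          · rfl
        rw [e1, e2]
        ring
    have h2 : ∑ y, ∑ z, N.B y z * ed p.1 p.2 y z = ∑ y, ∑ z, N'.B y z * ed p.1 p.2 y z +
        N.B u v * ed p.1 p.2 u v := by
      have e0 : ∑ y, ∑ z, N.B y z * ed p.1 p.2 y z = ∑ y, ∑ z, (N'.B y z * ed p.1 p.2 y z +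
        ((if y = u then (if z = v then N.B u v / 2 * ed p.1 p.2 u v else 0) else 0) +
          (if y = v then (if z = u then N.B u v / 2 * ed p.1 p.2 u v else 0) else 0))) :=
        Finset.sum_congr rfl fun y _ => Finset.sum_congr rfl fun z _ => h1 y z
      rw [e0]
      simp only [Finset.sum_add_distrib]
      have e1 : ∑ y, ∑ z, (if y = u then (if z = v then N.B u v / 2 * ed p.1 p.2 u v else 0)
          else 0) = N.B u v / 2 * ed p.1 p.2 u v := by
        rw [Finset.sum_eq_single u]
        · simp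
        · intro y _ hy
          simp [hy]
        · intro h
          exact absurd (Finset.mem_univ u) h
      have e2 : ∑ y, ∑ z, (if y = v then (if z = u then N.B u v / 2 * ed p.1 p.2 u v else 0)
          else 0) = N.B u v / 2 * ed p.1 p.2 u v := by
        rw [Finset.sum_eq_single v]
        · simp
        · intro y _ hy
          simp [hy]
        · intro h
          exact absurd (Finset.mem_univ v) h
      rw [e1, e2]
      ring
    unfold En
    rw [h2, hr]
    ring
  have hexp : ∀ a : ℝ, 0 ≤ a → a ^ 2 * Real.exp (-(a / 2)) ≤ 3 := by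
    intro a ha
    have h1 : a / 4 ≤ Real.exp (a / 4 - 1) := by
      have := Real.add_one_le_exp (a / 4 - 1)
      linarith
    have h2 : (a / 4) ^ 2 ≤ Real.exp (a / 4 - 1) ^ 2 :=
      pow_le_pow_left₀ (by linarith) h1 2
    have h3 : Real.exp (a / 4 - 1) ^ 2 = Real.exp (a / 2) * Real.exp (-2) := by
      rw [← Real.exp_nat_mul, ← Real.exp_add]
      congr 1
      push_cast
      ring
    have h4 : Real.exp (-2) ≤ 3 / 16 := by
      have h5 := Real.exp_one_gt_d9
      have h6 : Real.exp 2 = Real.exp 1 ^ 2 := by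
        rw [← Real.exp_nat_mul]
        norm_num
      have h7 : Real.exp 2 * Real.exp (-2) = 1 := by
        rw [← Real.exp_add]
        norm_num
      have h8 : 0 < Real.exp (-2) := Real.exp_pos _
      have h9 : 7 ≤ Real.exp 2 := by
        rw [h6]
        nlinarith
      nlinarith
    have h5 : Real.exp (a / 2) * Real.exp (-(a / 2)) = 1 := by
      rw [← Real.exp_add]
      norm_num
    have h6 : 0 < Real.exp (-(a / 2)) := Real.exp_pos _
    calc a ^ 2 * Real.exp (-(a / 2)) = 16 * ((a / 4) ^ 2 * Real.exp (-(a / 2))) := by ring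
      _ ≤ 16 * (Real.exp (a / 2) * Real.exp (-2) * Real.exp (-(a / 2))) := by
          rw [h3] at h2
          have := mul_le_mul_of_nonneg_right h2 h6.le
          linarith
      _ = 16 * Real.exp (-2) := by linear_combination (16 * Real.exp (-2)) * h5
      _ ≤ 3 := by linarith
  have hpt : ∀ p : Pt V, Real.exp (p.1 x) ^ 2 * (N.B u v * ed p.1 p.2 u v) ^ 2 * dens N p ≤
      12 * (Real.exp (p.1 x) ^ 2 * dens N' p) := by
    intro p
    have ha : 0 ≤ N.B u v * ed p.1 p.2 u v := mul_nonneg (N.nn u v) (J6.ed_nonneg p.1 p.2 u v)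
    have h1 := hexp _ ha
    obtain ⟨h2, h3⟩ := det_half N N' u v huv hr hB1 hB2 p.1
    have h4 := J5.det_nonneg N p.1
    have h5 : (HM N (cf N p.1)).det ^ 2 ≤ 4 * (HM N' (cf N' p.1)).det ^ 2 := by nlinarith
    unfold dens
    rw [hEn p]
    set a := N.B u v * ed p.1 p.2 u v with had
    have h6 : Real.exp (-(En N' p.1 p.2 + a / 2)) =
        Real.exp (-En N' p.1 p.2) * Real.exp (-(a / 2)) := by
      rw [← Real.exp_add]
      congr 1
      ring
    rw [h6]
    have h7 : 0 ≤ Real.exp (p.1 x) ^ 2 * Real.exp (-En N' p.1 p.2) := by positivity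
    have h8 : a ^ 2 * Real.exp (-(a / 2)) * (HM N (cf N p.1)).det ^ 2 ≤
        3 * (4 * (HM N' (cf N' p.1)).det ^ 2) :=
      mul_le_mul h1 h5 (sq_nonneg _) (by norm_num)
    calc _ = Real.exp (p.1 x) ^ 2 * Real.exp (-En N' p.1 p.2) *
          (a ^ 2 * Real.exp (-(a / 2)) * (HM N (cf N p.1)).det ^ 2) := by ring
      _ ≤ Real.exp (p.1 x) ^ 2 * Real.exp (-En N' p.1 p.2) *
          (3 * (4 * (HM N' (cf N' p.1)).det ^ 2)) := mul_le_mul_of_nonneg_left h8 h7
      _ = _ := by ring
  have hcont : Continuous fun p : Pt V =>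
      Real.exp (p.1 x) ^ 2 * (N.B u v * ed p.1 p.2 u v) ^ 2 := by
    unfold ed
    fun_prop
  have h1 : Tot N (fun p => Real.exp (p.1 x) ^ 2 * (N.B u v * ed p.1 p.2 u v) ^ 2) ≤
      12 * ((2 * Real.pi) ^ (Fintype.card V) *
        FS s t w' S (fun A => Cn s t A (some x) none)) := by
    refine tot_le N _ (fun p => mul_nonneg (sq_nonneg _) (sq_nonneg _)) hcont
      (mul_nonneg (by norm_num) (mul_nonneg (by positivity) (FS_nn s t w' hw' S _))) ?_
    calc ∫⁻ p : Pt V, ENNReal.ofReal (Real.exp (p.1 x) ^ 2 *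
          (N.B u v * ed p.1 p.2 u v) ^ 2) * ENNReal.ofReal (dens N p)
        ≤ ∫⁻ p : Pt V, ENNReal.ofReal 12 * (ENNReal.ofReal (Real.exp (p.1 x) ^ 2) *
            ENNReal.ofReal (dens N' p)) := by
          refine lintegral_mono fun p => ?_
          rw [← ENNReal.ofReal_mul (mul_nonneg (sq_nonneg _) (sq_nonneg _)),
            ← ENNReal.ofReal_mul (sq_nonneg _), ← ENNReal.ofReal_mul (by norm_num)]
          exact ENNReal.ofReal_le_ofReal (hpt p)
      _ = ENNReal.ofReal 12 * ∫⁻ p : Pt V, ENNReal.ofReal (Real.exp (p.1 x) ^ 2) *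
            ENNReal.ofReal (dens N' p) := by
          rw [lintegral_const_mul' _ _ ENNReal.ofReal_ne_top]
      _ = _ := by
          rw [lint_psi_sq s t w' hw' S N' hN' hconn x, ← ENNReal.ofReal_mul (by norm_num)]
      _ ≤ _ := le_rfl
  refine le_trans h1 ?_
  refine mul_le_mul_of_nonneg_left (mul_le_mul_of_nonneg_left ?_ (by positivity)) (by norm_num)
  exact FS_weight s t w w' hw' hww S _

end

end Pool.Agent.TH369.AG
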