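import Pool.Agent.TH369.AG.Defs4

/-!
# Local integration by parts, currents, far cells
-/

set_option autoImplicit false
set_option linter.unusedSectionVars false

namespace Pool.Agent.TH369.AG

open MeasureTheory Matrix

variable {V : Type} [Fintype V] [DecidableEq V]

namespace K2

lemma sA_single (N : Net V) (m : V → ℝ) (x : V) : sA N m (Pi.single x 1) = fa N m x := by
  rw [sA_eq]
  funext p
  rw [Finset.sum_eq_single x]
  · simp
  · intro b _ hb
    simp [Pi.single_eq_of_ne hb]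
  · simp

lemma sN_single (N : Net V) (z : V) : sN N (Pi.single z 1) = fb N z := by
  rw [sN_eq]
  funext p
  rw [Finset.sum_eq_single z]
  · simp
  · intro b _ hb
    simp [Pi.single_eq_of_ne hb]
  · simp

/-- The derivative of `fb z` in the direction of the dilation at `x ≠ z`. -/
lemma Dv_fb (N : Net V) {x z : V} (h : x ≠ z) (p : Pt V) :
    Dv (fb N z) p (dA (Pi.single x 1)) (N.B x z * (p.2 z * Real.exp (p.1 x))) := by
  refine (Dv.fb N z p _).congr ?_
  simp only [dA_fst, dA_snd, Pi.single_eq_of_ne h.symm]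
  rw [Finset.sum_eq_single x]
  · rw [Pi.single_eq_same, N.symm z x]
    ring
  · intro b _ hb
    rw [Pi.single_eq_of_ne hb]
    ring
  · simp

/-- `fb z` does not depend on the field `t` at `x` when `x` is not in the closed neighbourhood. -/
lemma Dv_fb_zero (N : Net V) {x z : V} (h : ¬ Nb N x z) (p : Pt V) :
    Dv (fb N z) p (dA (Pi.single x 1)) 0 := by
  unfold Nb at h
  push Not at h
  refine (Dv_fb N h.1 p).congr ?_
  rw [h.2, zero_mul]

/-- `fa w` does not depend on the field `t` at `x` when `x` is not in the closed neighbourhood. -/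
lemma Dv_fa_zero (N : Net V) (m : V → ℝ) {x w : V} (h : ¬ Nb N x w) (p : Pt V) :
    Dv (fa N m w) p (dA (Pi.single x 1)) 0 := by
  unfold Nb at h
  push Not at h
  refine (Dv.fa N m w p _).congr ?_
  simp only [dA_fst, dA_snd, Pi.single_eq_of_ne h.1.symm]
  rw [Finset.sum_eq_zero]
  · ring
  · intro b _
    by_cases hb : b = x
    · subst hb
      rw [N.symm, h.2, zero_mul]
    · rw [Pi.single_eq_of_ne hb]
      ring

/-- One step of the integration by parts. -/
lemma step (N : Net V) (hN : N.Conn) (m : V → ℝ) {x z : V} (hxz : x ≠ z) {Φ Φ' : Pt V → ℝ}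
    (hΦ : Sm Φ) (hΦ' : Sm Φ') (h : ∀ p, Dv Φ p (dA (Pi.single x 1)) (Φ' p)) :
    EE N m (fun p => fa N m x p * fb N z p * Φ p) =
      EE N m (fun p => N.B x z * (p.2 z * Real.exp (p.1 x)) * Φ p) +
        EE N m (fun p => fb N z p * Φ' p) := by
  have h1 := ibA N hN m (Pi.single x 1) ((Sm.fb N z).mul hΦ)
    (fun p => (Dv_fb N hxz p).mul (h p))
  rw [sA_single] at h1
  have e1 : (fun p => fa N m x p * fb N z p * Φ p) =
      fun p => fa N m x p * (fb N z p * Φ p) := by
    funext p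
    ring
  rw [e1, h1, EE_add N hN m ((((Sm.y z).mul (Sm.exp x)).const_mul (N.B x z)).mul hΦ)
    ((Sm.fb N z).mul hΦ')]

end K2

theorem UU_k0 (N : Net V) (m g h : V → ℝ) :
    UU N m (k0 g h) = br N m g h := by
  funext p
  unfold UU k0 br
  rw [sA_eq, sA_eq, sN_eq, sN_eq]
  simp only [Finset.sum_mul_sum, ← Finset.sum_sub_distrib]
  refine Finset.sum_congr rfl fun x _ => Finset.sum_congr rfl fun z _ => ?_
  ring

theorem Sm.UU (N : Net V) (m : V → ℝ) (k : V → V → ℝ) : Sm (UU N m k) := by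
  unfold AG.UU
  exact Sm.sum _ fun x _ => Sm.sum _ fun z _ => ((Sm.fa N m x).mul (Sm.fb N z)).const_mul _

theorem Sm.JJ (N : Net V) (k : V → V → ℝ) : Sm (JJ N k) := by
  unfold AG.JJ
  exact Sm.sum _ fun x _ => Sm.sum _ fun z _ =>
    (((Sm.y z).mul (Sm.exp x)).const_mul _).const_mul _

namespace K2

lemma EE_UU (N : Net V) (hN : N.Conn) (m : V → ℝ) (k : V → V → ℝ) {Φ : Pt V → ℝ} (hΦ : Sm Φ) :
    EE N m (fun p => UU N m k p * Φ p) =
      ∑ x, ∑ z, k x z * EE N m (fun p => fa N m x p * fb N z p * Φ p) := by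
  have e : (fun p => UU N m k p * Φ p) =
      fun p => ∑ x, ∑ z, k x z * (fa N m x p * fb N z p * Φ p) := by
    funext p
    unfold UU
    rw [Finset.sum_mul]
    refine Finset.sum_congr rfl fun x _ => ?_
    rw [Finset.sum_mul]
    refine Finset.sum_congr rfl fun z _ => ?_
    ring
  have hs : ∀ x z, Sm (fun p => k x z * (fa N m x p * fb N z p * Φ p)) := fun x z =>
    (((Sm.fa N m x).mul (Sm.fb N z)).mul hΦ).const_mul _
  rw [e, EE_sum N hN m _ fun x _ => Sm.sum _ fun z _ => hs x z]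
  refine Finset.sum_congr rfl fun x _ => ?_
  rw [EE_sum N hN m _ fun z _ => hs x z]
  refine Finset.sum_congr rfl fun z _ => ?_
  rw [EE_const_mul]

lemma EE_JJ (N : Net V) (hN : N.Conn) (m : V → ℝ) (k : V → V → ℝ) {Φ : Pt V → ℝ} (hΦ : Sm Φ) :
    EE N m (fun p => JJ N k p * Φ p) =
      ∑ x, ∑ z, k x z * EE N m (fun p => N.B x z * (p.2 z * Real.exp (p.1 x)) * Φ p) := by
  have e : (fun p => JJ N k p * Φ p) =
      fun p => ∑ x, ∑ z, k x z * (N.B x z * (p.2 z * Real.exp (p.1 x)) * Φ p) := by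
    funext p
    unfold JJ
    rw [Finset.sum_mul]
    refine Finset.sum_congr rfl fun x _ => ?_
    rw [Finset.sum_mul]
    refine Finset.sum_congr rfl fun z _ => ?_
    ring
  have hs : ∀ x z, Sm (fun p => k x z * (N.B x z * (p.2 z * Real.exp (p.1 x)) * Φ p)) :=
    fun x z => ((((Sm.y z).mul (Sm.exp x)).const_mul _).mul hΦ).const_mul _
  rw [e, EE_sum N hN m _ fun x _ => Sm.sum _ fun z _ => hs x z]
  refine Finset.sum_congr rfl fun x _ => ?_
  rw [EE_sum N hN m _ fun z _ => hs x z]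
  refine Finset.sum_congr rfl fun z _ => ?_
  rw [EE_const_mul]

lemma k_diag {k : V → V → ℝ} (hk : ∀ x z, k x z = - k z x) (x : V) : k x x = 0 := by
  have := hk x x
  linarith

/-- The derivative of the current in the direction of the dilation at `x`. -/
lemma Dv_JJ (N : Net V) (k : V → V → ℝ) (x : V) (p : Pt V) :
    Dv (JJ N k) p (dA (Pi.single x 1))
      (∑ z, k x z * (N.B x z * (p.2 z * Real.exp (p.1 x)))) := by
  unfold JJ
  refine (Dv.sum _ fun w _ => Dv.sum _ fun z _ =>
    (((Dv.y z p (dA (Pi.single x 1))).mul (Dv.exp w p (dA (Pi.single x 1)))).const_mul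
      (N.B w z)).const_mul (k w z)).congr ?_
  simp only [dA_fst, dA_snd]
  rw [Finset.sum_eq_single x]
  · refine Finset.sum_congr rfl fun z _ => ?_
    rw [Pi.single_eq_same]
    ring
  · intro w _ hw
    refine Finset.sum_eq_zero fun z _ => ?_
    rw [Pi.single_eq_of_ne hw]
    ring
  · simp

lemma Dv_row (N : Net V) (k : V → V → ℝ) (x z : V) (p : Pt V) :
    Dv (fun q : Pt V => ∑ w, k x w * (N.B x w * (q.2 w * Real.exp (q.1 x)))) p
      (dN (Pi.single z 1) p)
      (k x z * (N.B x z * (Real.exp (p.1 z) * Real.exp (p.1 x)))) := by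
  refine (Dv.sum _ fun w _ =>
    (((Dv.y w p (dN (Pi.single z 1) p)).mul (Dv.exp x p (dN (Pi.single z 1) p))).const_mul
      (N.B x w)).const_mul (k x w)).congr ?_
  simp only [dN_fst, dN_snd]
  rw [Finset.sum_eq_single z]
  · rw [Pi.single_eq_same]
    ring
  · intro w _ hw
    rw [Pi.single_eq_of_ne hw]
    ring
  · simp

lemma Dv_UU_zero (N : Net V) (m : V → ℝ) (k : V → V → ℝ) (x : V)
    (h : ∀ x' z', k x' z' ≠ 0 → ¬ Nb N x x' ∧ ¬ Nb N x z') (p : Pt V) :
    Dv (UU N m k) p (dA (Pi.single x 1)) 0 := by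
  unfold UU
  have h1 : ∀ x' z', Dv (fun q => k x' z' * (fa N m x' q * fb N z' q)) p
      (dA (Pi.single x 1)) 0 := by
    intro x' z'
    by_cases hk : k x' z' = 0
    · rw [hk]
      refine (show (fun q : Pt V => (0 : ℝ) * (fa N m x' q * fb N z' q)) = fun _ => 0 from
        funext fun q => zero_mul _) ▸ Dv.const 0 p _
    · obtain ⟨h1, h2⟩ := h x' z' hk
      refine (((Dv_fa_zero N m h1 p).mul (Dv_fb_zero N h2 p)).const_mul _).congr ?_
      ring
  refine (Dv.sum _ fun x' _ => Dv.sum _ fun z' _ => h1 x' z').congr ?_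
  simp

end K2

theorem UU_local (N : Net V) (hN : N.Conn) (m : V → ℝ) (k : V → V → ℝ)
    (hk : ∀ x z, k x z = - k z x) (Φ : Pt V → ℝ) (hΦ : Sm Φ)
    (h : ∀ x z, k x z ≠ 0 → ∀ p, Dv Φ p (dA (Pi.single x 1)) 0) :
    EE N m (fun p => UU N m k p * Φ p) = EE N m (fun p => JJ N k p * Φ p) := by
  rw [K2.EE_UU N hN m k hΦ, K2.EE_JJ N hN m k hΦ]
  refine Finset.sum_congr rfl fun x _ => Finset.sum_congr rfl fun z _ => ?_
  by_cases hkz : k x z = 0
  · rw [hkz, zero_mul, zero_mul]
  · have hxz : x ≠ z := by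
      rintro rfl
      exact hkz (K2.k_diag hk x)
    rw [K2.step N hN m hxz hΦ (Sm.const 0) (h x z hkz)]
    congr 1
    simp [EE]

theorem JJ_sq_le (N : Net V) (hN : N.Conn) (m : V → ℝ) (k : V → V → ℝ)
    (hk : ∀ x z, k x z = - k z x) :
    EE N m (fun p => JJ N k p ^ 2) ≤ EE N m (fun p => UU N m k p ^ 2) := by
  have hrow : ∀ x, Sm (fun q : Pt V => ∑ w, k x w * (N.B x w * (q.2 w * Real.exp (q.1 x)))) :=
    fun x => Sm.sum _ fun w _ => (((Sm.y w).mul (Sm.exp x)).const_mul _).const_mul _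
  have h1 : EE N m (fun p => JJ N k p ^ 2) ≤ EE N m (fun p => UU N m k p * JJ N k p) := by
    have e : (fun p => JJ N k p ^ 2) = fun p => JJ N k p * JJ N k p := by
      funext p
      ring
    rw [e, K2.EE_UU N hN m k (Sm.JJ N k), K2.EE_JJ N hN m k (Sm.JJ N k)]
    refine Finset.sum_le_sum fun x _ => Finset.sum_le_sum fun z _ => ?_
    by_cases hkz : k x z = 0
    · rw [hkz, zero_mul, zero_mul]
    · have hxz : x ≠ z := by
        rintro rfl
        exact hkz (K2.k_diag hk x)
      rw [K2.step N hN m hxz (Sm.JJ N k) (hrow x) (K2.Dv_JJ N k x), mul_add]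
      have h2 := ibN N hN m (Pi.single z 1) (hrow x) (K2.Dv_row N k x z)
      rw [K2.sN_single] at h2
      rw [h2]
      have h3 : 0 ≤ k x z * EE N m (fun p => k x z * (N.B x z *
          (Real.exp (p.1 z) * Real.exp (p.1 x)))) := by
        rw [EE_const_mul, ← mul_assoc]
        refine mul_nonneg (mul_self_nonneg _) (EE_nonneg N m fun p => ?_)
        have := N.nn x z
        positivity
      linarith
  have h2 := EE_cs N hN m (Sm.UU N m k) (Sm.JJ N k)
  have h3 : 0 ≤ EE N m (fun p => JJ N k p ^ 2) := EE_nonneg N m fun p => sq_nonneg _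
  have h4 : 0 ≤ EE N m (fun p => UU N m k p ^ 2) := EE_nonneg N m fun p => sq_nonneg _
  rcases h3.eq_or_lt with h5 | h5
  · rw [← h5]
    exact h4
  · by_contra hcon
    push Not at hcon
    nlinarith [mul_lt_mul_of_pos_right hcon h5]

theorem UU_far (N : Net V) (hN : N.Conn) (m : V → ℝ) (k k' : V → V → ℝ)
    (hk : ∀ x z, k x z = - k z x) (hk' : ∀ x z, k' x z = - k' z x)
    (h : ∀ x z x' z', k x z ≠ 0 → k' x' z' ≠ 0 → ¬ Nb N x x') :
    EE N m (fun p => UU N m k p * UU N m k' p) = EE N m (fun p => JJ N k p * JJ N k' p) := by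
  rw [UU_local N hN m k hk (UU N m k') (Sm.UU N m k')]
  · have e : (fun p => JJ N k p * UU N m k' p) = fun p => UU N m k' p * JJ N k p := by
      funext p
      ring
    rw [e, UU_local N hN m k' hk' (JJ N k) (Sm.JJ N k)]
    · congr 1
      funext p
      ring
    · intro x' z' h' p
      refine (K2.Dv_JJ N k x' p).congr (Finset.sum_eq_zero fun z _ => ?_)
      by_cases hkz : k x' z = 0
      · rw [hkz, zero_mul]
      · exact absurd (Or.inl rfl) (h x' z x' z' hkz h')
  · intro x z hkz p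
    refine K2.Dv_UU_zero N m k' x (fun x' z' h' => ⟨h x z x' z' hkz h', ?_⟩) p
    refine h x z z' x' hkz ?_
    rw [hk' z' x']
    exact neg_ne_zero.mpr h'

theorem UU_sum_sq (N : Net V) (hN : N.Conn) (m : V → ℝ) {ι : Type} [DecidableEq ι] (A : Finset ι)
    (k : ι → V → V → ℝ) (hk : ∀ i x z, k i x z = - k i z x) (near : ι → ι → Prop)
    [DecidableRel near] (hs : ∀ i j, near i j → near j i)
    (hfar : ∀ i ∈ A, ∀ j ∈ A, ¬ near i j → ∀ x z x' z', k i x z ≠ 0 → k j x' z' ≠ 0 → ¬ Nb N x x')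
    (n : ℕ) (hn : ∀ i ∈ A, (A.filter (near i)).card ≤ n) :
    EE N m (fun p => UU N m (fun x z => ∑ i ∈ A, k i x z) p ^ 2) ≤
      2 * n * ∑ i ∈ A, EE N m (fun p => UU N m (k i) p ^ 2) +
        EE N m (fun p => JJ N (fun x z => ∑ i ∈ A, k i x z) p ^ 2) := by
  have eU : (fun p => UU N m (fun x z => ∑ i ∈ A, k i x z) p ^ 2) =
      fun p => ∑ i ∈ A, ∑ j ∈ A, UU N m (k i) p * UU N m (k j) p := by
    funext p
    have : UU N m (fun x z => ∑ i ∈ A, k i x z) p = ∑ i ∈ A, UU N m (k i) p := by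
      unfold UU
      symm
      rw [Finset.sum_comm]
      refine Finset.sum_congr rfl fun x _ => ?_
      rw [Finset.sum_comm]
      refine Finset.sum_congr rfl fun z _ => ?_
      rw [Finset.sum_mul]
    rw [this, sq, Finset.sum_mul_sum]
  have eJ : (fun p => JJ N (fun x z => ∑ i ∈ A, k i x z) p ^ 2) =
      fun p => ∑ i ∈ A, ∑ j ∈ A, JJ N (k i) p * JJ N (k j) p := by
    funext p
    have : JJ N (fun x z => ∑ i ∈ A, k i x z) p = ∑ i ∈ A, JJ N (k i) p := by
      unfold JJ
      symm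
      rw [Finset.sum_comm]
      refine Finset.sum_congr rfl fun x _ => ?_
      rw [Finset.sum_comm]
      refine Finset.sum_congr rfl fun z _ => ?_
      rw [Finset.sum_mul]
    rw [this, sq, Finset.sum_mul_sum]
  have sU : ∀ i j, Sm (fun p => UU N m (k i) p * UU N m (k j) p) := fun i j =>
    (Sm.UU N m (k i)).mul (Sm.UU N m (k j))
  have sJ : ∀ i j, Sm (fun p => JJ N (k i) p * JJ N (k j) p) := fun i j =>
    (Sm.JJ N (k i)).mul (Sm.JJ N (k j))
  rw [eU, eJ, EE_sum N hN m _ fun i _ => Sm.sum _ fun j _ => sU i j,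
    EE_sum N hN m _ fun i _ => Sm.sum _ fun j _ => sJ i j]
  have e1 : ∀ i, EE N m (fun p => ∑ j ∈ A, UU N m (k i) p * UU N m (k j) p) =
      ∑ j ∈ A, EE N m (fun p => UU N m (k i) p * UU N m (k j) p) := fun i =>
    EE_sum N hN m _ fun j _ => sU i j
  have e2 : ∀ i, EE N m (fun p => ∑ j ∈ A, JJ N (k i) p * JJ N (k j) p) =
      ∑ j ∈ A, EE N m (fun p => JJ N (k i) p * JJ N (k j) p) := fun i =>
    EE_sum N hN m _ fun j _ => sJ i j
  simp only [e1, e2]
  -- the bound for near pairs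
  set u : ι → ℝ := fun i => EE N m (fun p => UU N m (k i) p ^ 2) with hu
  have hu0 : ∀ i, 0 ≤ u i := fun i => EE_nonneg N m fun p => sq_nonneg _
  have hpair : ∀ i j, EE N m (fun p => UU N m (k i) p * UU N m (k j) p) ≤
      EE N m (fun p => JJ N (k i) p * JJ N (k j) p) + (u i + u j) := by
    intro i j
    have h1 : EE N m (fun p => UU N m (k i) p * UU N m (k j) p) ≤
        EE N m (fun p => (1 / 2) * (UU N m (k i) p ^ 2 + UU N m (k j) p ^ 2)) := by
      refine EE_mono N hN m (sU i j)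
        ((((Sm.UU N m (k i)).pow 2).add ((Sm.UU N m (k j)).pow 2)).const_mul _) fun p => ?_
      nlinarith [sq_nonneg (UU N m (k i) p - UU N m (k j) p)]
    have h2 : EE N m (fun p => (-1) * (JJ N (k i) p * JJ N (k j) p)) ≤
        EE N m (fun p => (1 / 2) * (JJ N (k i) p ^ 2 + JJ N (k j) p ^ 2)) := by
      refine EE_mono N hN m ((sJ i j).const_mul _)
        ((((Sm.JJ N (k i)).pow 2).add ((Sm.JJ N (k j)).pow 2)).const_mul _) fun p => ?_
      nlinarith [sq_nonneg (JJ N (k i) p + JJ N (k j) p)]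
    rw [EE_const_mul, EE_add N hN m ((Sm.UU N m (k i)).pow 2) ((Sm.UU N m (k j)).pow 2)] at h1
    rw [EE_const_mul, EE_const_mul,
      EE_add N hN m ((Sm.JJ N (k i)).pow 2) ((Sm.JJ N (k j)).pow 2)] at h2
    have h3 := JJ_sq_le N hN m (k i) (hk i)
    have h4 := JJ_sq_le N hN m (k j) (hk j)
    simp only [hu]
    linarith
  have hterm : ∀ i ∈ A, ∀ j ∈ A, EE N m (fun p => UU N m (k i) p * UU N m (k j) p) ≤
      (if near i j then (u i + u j) else 0) +
        EE N m (fun p => JJ N (k i) p * JJ N (k j) p) := by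
    intro i hi j hj
    split_ifs with hij
    · have := hpair i j
      linarith
    · rw [UU_far N hN m (k i) (k j) (hk i) (hk j) (hfar i hi j hj hij), zero_add]
  have hsum : ∑ i ∈ A, ∑ j ∈ A, (if near i j then (u i + u j) else 0) ≤
      2 * n * ∑ i ∈ A, u i := by
    have h1 : ∑ i ∈ A, ∑ j ∈ A, (if near i j then (u i + u j) else 0) =
        ∑ i ∈ A, ∑ j ∈ A, (if near i j then u i else 0) +
          ∑ i ∈ A, ∑ j ∈ A, (if near i j then u j else 0) := by
      rw [← Finset.sum_add_distrib]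
      refine Finset.sum_congr rfl fun i _ => ?_
      rw [← Finset.sum_add_distrib]
      refine Finset.sum_congr rfl fun j _ => ?_
      split_ifs <;> simp
    have h2 : ∑ i ∈ A, ∑ j ∈ A, (if near i j then u j else 0) =
        ∑ i ∈ A, ∑ j ∈ A, (if near i j then u i else 0) := by
      rw [Finset.sum_comm]
      refine Finset.sum_congr rfl fun i _ => Finset.sum_congr rfl fun j _ => ?_
      by_cases hij : near i j
      · rw [if_pos hij, if_pos (hs i j hij)]
      · rw [if_neg hij, if_neg fun h => hij (hs j i h)]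
    have h3 : ∀ i ∈ A, ∑ j ∈ A, (if near i j then u i else 0) ≤ n * u i := by
      intro i hi
      rw [← Finset.sum_filter, Finset.sum_const, nsmul_eq_mul]
      exact mul_le_mul_of_nonneg_right (by exact_mod_cast hn i hi) (hu0 i)
    have h4 := Finset.sum_le_sum h3
    rw [← Finset.mul_sum] at h4
    rw [h1, h2]
    linarith
  calc ∑ i ∈ A, ∑ j ∈ A, EE N m (fun p => UU N m (k i) p * UU N m (k j) p) ≤
      ∑ i ∈ A, ∑ j ∈ A, ((if near i j then (u i + u j) else 0) +
        EE N m (fun p => JJ N (k i) p * JJ N (k j) p)) :=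
        Finset.sum_le_sum fun i hi => Finset.sum_le_sum fun j hj => hterm i hi j hj
    _ = ∑ i ∈ A, ∑ j ∈ A, (if near i j then (u i + u j) else 0) +
        ∑ i ∈ A, ∑ j ∈ A, EE N m (fun p => JJ N (k i) p * JJ N (k j) p) := by
      rw [← Finset.sum_add_distrib]
      refine Finset.sum_congr rfl fun i _ => ?_
      rw [← Finset.sum_add_distrib]
    _ ≤ _ := by linarith

end Pool.Agent.TH369.AG
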