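import Pool.Agent.TH369.AG.Defs4

/-!
# Exact orthogonality of the scales and the multi-scale inequality (job 1736)
-/

set_option autoImplicit false
set_option linter.unusedSectionVars false

namespace Pool.Agent.TH369.AG

open MeasureTheory Matrix

variable {V : Type} [Fintype V] [DecidableEq V]

namespace K3

lemma UU_k0 (N : Net V) (m g h : V → ℝ) (p : Pt V) :
    UU N m (k0 g h) p = sA N m g p * sN N h p - sA N m h p * sN N g p := by
  rw [sA_eq, sA_eq, sN_eq, sN_eq]
  unfold UU k0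
  simp only
  rw [Finset.sum_mul_sum, Finset.sum_mul_sum, ← Finset.sum_sub_distrib]
  refine Finset.sum_congr rfl fun x _ => ?_
  rw [← Finset.sum_sub_distrib]
  refine Finset.sum_congr rfl fun z _ => ?_
  ring

lemma Sm_UU (N : Net V) (m : V → ℝ) (k : V → V → ℝ) : Sm (UU N m k) := by
  unfold UU
  exact Sm.sum _ fun x _ => Sm.sum _ fun z _ => ((Sm.fa N m x).mul (Sm.fb N z)).const_mul _

lemma UU_add (N : Net V) (m : V → ℝ) (k k' : V → V → ℝ) (p : Pt V) :
    UU N m (fun x z => k x z + k' x z) p = UU N m k p + UU N m k' p := by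
  unfold UU
  rw [← Finset.sum_add_distrib]
  refine Finset.sum_congr rfl fun x _ => ?_
  rw [← Finset.sum_add_distrib]
  refine Finset.sum_congr rfl fun z _ => ?_
  ring

lemma sA_single (N : Net V) (m : V → ℝ) (x : V) (p : Pt V) :
    sA N m (Pi.single x 1) p = fa N m x p := by
  rw [sA_eq]
  simp only
  rw [Finset.sum_eq_single x]
  · simp
  · intro b _ hb
    rw [Pi.single_eq_of_ne hb, zero_mul]
  · intro h
    exact absurd (Finset.mem_univ x) h

lemma sN_single (N : Net V) (x : V) (p : Pt V) :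
    sN N (Pi.single x 1) p = fb N x p := by
  rw [sN_eq]
  simp only
  rw [Finset.sum_eq_single x]
  · simp
  · intro b _ hb
    rw [Pi.single_eq_of_ne hb, zero_mul]
  · intro h
    exact absurd (Finset.mem_univ x) h

lemma Nb_symm {N : Net V} {x w : V} (h : Nb N x w) : Nb N w x := by
  rcases h with h | h
  · exact Or.inl h.symm
  · exact Or.inr (by rwa [N.symm])

lemma fb_local (N : Net V) (w : V) (p v : Pt V) (h : ∀ u, Nb N w u → v.1 u = 0 ∧ v.2 u = 0) :
    Dv (fb N w) p v 0 := by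
  refine (Dv.fb N w p v).congr ?_
  obtain ⟨h1, h2⟩ := h w (Or.inl rfl)
  rw [h1, h2]
  have : ∀ u ∈ (Finset.univ : Finset V), N.B w u * (0 * Real.exp (p.1 u) +
      p.2 w * (Real.exp (p.1 u) * v.1 u) - (v.2 u * Real.exp (p.1 w) +
      p.2 u * (Real.exp (p.1 w) * 0))) = 0 := by
    intro u _
    by_cases hu : N.B w u = 0
    · rw [hu, zero_mul]
    · obtain ⟨h3, h4⟩ := h u (Or.inr hu)
      rw [h3, h4]
      ring
  rw [Finset.sum_eq_zero this]
  ring

lemma fa_local (N : Net V) (m : V → ℝ) (w : V) (p v : Pt V)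
    (h : ∀ u, Nb N w u → v.1 u = 0 ∧ v.2 u = 0) :
    Dv (fa N m w) p v 0 := by
  refine (Dv.fa N m w p v).congr ?_
  obtain ⟨h1, h2⟩ := h w (Or.inl rfl)
  rw [h1, h2]
  have : ∀ u ∈ (Finset.univ : Finset V), N.B w u * ((1 / 2) *
      ((Real.exp (p.1 w - p.1 u) * (0 - v.1 u)) * (1 + p.2 u ^ 2) +
      Real.exp (p.1 w - p.1 u) * (2 * p.2 u * v.2 u) -
      ((Real.exp (p.1 u - p.1 w) * (v.1 u - 0)) * (1 + p.2 w ^ 2) +
      Real.exp (p.1 u - p.1 w) * (2 * p.2 w * 0)))) = 0 := by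
    intro u _
    by_cases hu : N.B w u = 0
    · rw [hu, zero_mul]
    · obtain ⟨h3, h4⟩ := h u (Or.inr hu)
      rw [h3, h4]
      ring
  rw [Finset.sum_eq_zero this]
  ring

lemma dA_single {N : Net V} {x w : V} (h : ¬ Nb N x w) :
    ∀ u, Nb N w u → (dA (Pi.single x 1)).1 u = 0 ∧ (dA (Pi.single x 1)).2 u = 0 := by
  intro u hu
  have hux : u ≠ x := by
    rintro rfl
    exact h (Nb_symm hu)
  exact ⟨by rw [dA_fst, Pi.single_eq_of_ne hux], rfl⟩

lemma dN_single {N : Net V} {x w : V} (h : ¬ Nb N x w) (p : Pt V) :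
    ∀ u, Nb N w u → (dN (Pi.single x 1) p).1 u = 0 ∧ (dN (Pi.single x 1) p).2 u = 0 := by
  intro u hu
  have hux : u ≠ x := by
    rintro rfl
    exact h (Nb_symm hu)
  exact ⟨rfl, by rw [dN_snd, Pi.single_eq_of_ne hux, zero_mul]⟩

/-! derivatives at deep vertices -/

lemma deep_fb_A {N : Net V} {g₀ : V → ℝ} {v : V} (h : Deep N g₀ v) (p : Pt V) :
    Dv (fb N v) p (dA g₀) (fb N v p) := by
  refine (Dv.fb N v p _).congr ?_
  obtain ⟨hr, h0, hw⟩ := h
  unfold fb
  rw [hr]
  simp only [dA_fst, dA_snd, mul_zero, zero_mul, add_zero, zero_add]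
  refine Finset.sum_congr rfl fun w _ => ?_
  by_cases hu : N.B v w = 0
  · rw [hu, zero_mul, zero_mul]
  · rw [h0, hw w hu]
    ring

lemma deep_fb_N {N : Net V} {g₀ : V → ℝ} {v : V} (h : Deep N g₀ v) (p : Pt V) :
    Dv (fb N v) p (dN g₀ p) 0 := by
  refine (Dv.fb N v p _).congr ?_
  obtain ⟨hr, h0, hw⟩ := h
  rw [hr]
  simp only [dN_fst, dN_snd, mul_zero, zero_mul, add_zero]
  refine Finset.sum_eq_zero fun w _ => ?_
  by_cases hu : N.B v w = 0
  · rw [hu, zero_mul]
  · rw [h0, hw w hu]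
    ring

lemma deep_fa_A {N : Net V} {g₀ : V → ℝ} {v : V} (m : V → ℝ) (h : Deep N g₀ v) (p : Pt V) :
    Dv (fa N m v) p (dA g₀) 0 := by
  refine (Dv.fa N m v p _).congr ?_
  obtain ⟨hr, h0, hw⟩ := h
  rw [hr, zero_mul, add_zero]
  refine Finset.sum_eq_zero fun w _ => ?_
  simp only [dA_fst, dA_snd]
  by_cases hu : N.B v w = 0
  · rw [hu, zero_mul]
  · rw [h0, hw w hu]
    ring

lemma deep_fa_N {N : Net V} {g₀ : V → ℝ} {v : V} (m : V → ℝ) (h : Deep N g₀ v) (p : Pt V) :
    Dv (fa N m v) p (dN g₀ p) (- fb N v p) := by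
  refine (Dv.fa N m v p _).congr ?_
  obtain ⟨hr, h0, hw⟩ := h
  unfold fb
  rw [hr, zero_mul, add_zero, zero_mul, add_zero, ← Finset.sum_neg_distrib]
  refine Finset.sum_congr rfl fun w _ => ?_
  simp only [dN_fst, dN_snd]
  by_cases hu : N.B v w = 0
  · rw [hu, zero_mul, zero_mul, neg_zero]
  · rw [h0, hw w hu]
    have a1 : Real.exp (p.1 v - p.1 w) * Real.exp (p.1 w) = Real.exp (p.1 v) := by
      rw [← Real.exp_add]; ring_nf
    have a2 : Real.exp (p.1 w - p.1 v) * Real.exp (p.1 v) = Real.exp (p.1 w) := by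
      rw [← Real.exp_add]; ring_nf
    linear_combination (N.B v w * p.2 w) * a1 - (N.B v w * p.2 v) * a2

lemma deep_sN_A {N : Net V} {g₀ f : V → ℝ} (h : ∀ v, f v ≠ 0 → Deep N g₀ v) (p : Pt V) :
    Dv (sN N f) p (dA g₀) (sN N f p) := by
  rw [sN_eq]
  refine Dv.sum _ fun x _ => ?_
  by_cases hx : f x = 0
  · rw [hx]
    simpa using Dv.const 0 p (dA g₀)
  · exact (deep_fb_A (h x hx) p).const_mul _

lemma deep_sN_N {N : Net V} {g₀ f : V → ℝ} (h : ∀ v, f v ≠ 0 → Deep N g₀ v) (p : Pt V) :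
    Dv (sN N f) p (dN g₀ p) 0 := by
  rw [sN_eq]
  have : (0 : ℝ) = ∑ x : V, f x * 0 := by simp
  rw [this]
  refine Dv.sum _ fun x _ => ?_
  by_cases hx : f x = 0
  · rw [hx]
    simpa using Dv.const 0 p (dN g₀ p)
  · exact (deep_fb_N (h x hx) p).const_mul _

lemma deep_sA_N {N : Net V} {g₀ f : V → ℝ} (m : V → ℝ) (h : ∀ v, f v ≠ 0 → Deep N g₀ v)
    (p : Pt V) : Dv (sA N m f) p (dN g₀ p) (- sN N f p) := by
  rw [sA_eq, sN_eq]
  simp only
  rw [← Finset.sum_neg_distrib]
  refine Dv.sum _ fun x _ => ?_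
  by_cases hx : f x = 0
  · rw [hx]
    simpa using Dv.const 0 p (dN g₀ p)
  · refine ((deep_fa_N m (h x hx) p).const_mul _).congr ?_
    ring

lemma deep_UU_A {N : Net V} {g₀ : V → ℝ} (m : V → ℝ) {k : V → V → ℝ}
    (h : ∀ x z, k x z ≠ 0 → Deep N g₀ x ∧ Deep N g₀ z) (p : Pt V) :
    Dv (UU N m k) p (dA g₀) (UU N m k p) := by
  unfold UU
  refine Dv.sum _ fun x _ => Dv.sum _ fun z _ => ?_
  by_cases hx : k x z = 0
  · rw [hx]
    simpa using Dv.const 0 p (dA g₀)
  · obtain ⟨h1, h2⟩ := h x z hx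
    refine (((deep_fa_A m h1 p).mul (deep_fb_A h2 p)).const_mul _).congr ?_
    ring

lemma deep_UU_N {N : Net V} {g₀ : V → ℝ} (m : V → ℝ) {k : V → V → ℝ}
    (hk : ∀ x z, k x z = - k z x)
    (h : ∀ x z, k x z ≠ 0 → Deep N g₀ x ∧ Deep N g₀ z) (p : Pt V) :
    Dv (UU N m k) p (dN g₀ p) 0 := by
  have e : (0 : ℝ) = ∑ x, ∑ z, k x z * (- fb N x p * fb N z p) := by
    have h1 : ∑ x, ∑ z, k x z * (- fb N x p * fb N z p) =
        - ∑ x, ∑ z, k x z * (- fb N x p * fb N z p) := by
      conv_lhs => rw [Finset.sum_comm]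
      rw [← Finset.sum_neg_distrib]
      refine Finset.sum_congr rfl fun x _ => ?_
      rw [← Finset.sum_neg_distrib]
      refine Finset.sum_congr rfl fun z _ => ?_
      rw [hk z x]
      ring
    linarith
  rw [e]
  unfold UU
  refine Dv.sum _ fun x _ => Dv.sum _ fun z _ => ?_
  by_cases hx : k x z = 0
  · rw [hx]
    simpa using Dv.const 0 p (dN g₀ p)
  · obtain ⟨h1, h2⟩ := h x z hx
    refine (((deep_fa_N m h1 p).mul (deep_fb_N h2 p)).const_mul _).congr ?_
    ring

section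

variable (N : Net V) (hN : N.Conn) (m : V → ℝ)

include hN

lemma EE_zero : EE N m (fun _ => 0) = 0 := by
  unfold EE
  simp

/-- the part of the kernel which does not contribute -/
lemma kap_zero {Φ : Pt V → ℝ} (hΦ : Sm Φ) (κ : V → V → ℝ)
    (h1 : ∀ x z, κ x z ≠ 0 → ¬ Nb N x z)
    (h2 : ∀ x z, κ x z ≠ 0 → (∀ p, Dv Φ p (dA (Pi.single x 1)) 0) ∨
      (∀ p, Dv Φ p (dN (Pi.single z 1) p) 0)) :
    EE N m (fun p => UU N m κ p * Φ p) = 0 := by
  have e : (fun p => UU N m κ p * Φ p) =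
      fun p => ∑ x, ∑ z, κ x z * (fa N m x p * (fb N z p * Φ p)) := by
    funext p
    unfold UU
    rw [Finset.sum_mul]
    refine Finset.sum_congr rfl fun x _ => ?_
    rw [Finset.sum_mul]
    refine Finset.sum_congr rfl fun z _ => ?_
    ring
  have hs : ∀ x z, Sm (fun p => fa N m x p * (fb N z p * Φ p)) := fun x z =>
    (Sm.fa N m x).mul ((Sm.fb N z).mul hΦ)
  rw [e, EE_sum N hN m _ fun x _ => Sm.sum _ fun z _ => (hs x z).const_mul _]
  refine Finset.sum_eq_zero fun x _ => ?_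
  rw [EE_sum N hN m _ fun z _ => (hs x z).const_mul _]
  refine Finset.sum_eq_zero fun z _ => ?_
  rw [EE_const_mul]
  by_cases hx : κ x z = 0
  · rw [hx, zero_mul]
  · have h3 := h1 x z hx
    rcases h2 x z hx with h4 | h4
    · have h5 := ibA N hN m (Pi.single x 1) (F := fun p => fb N z p * Φ p) (F' := fun _ => 0)
        ((Sm.fb N z).mul hΦ) (fun p => ((fb_local N z p _ (dA_single h3)).mul (h4 p)).congr
          (by ring))
      simp only [sA_single] at h5
      rw [h5, EE_zero N hN m, mul_zero]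
    · have h5 := ibN N hN m (Pi.single z 1) (F := fun p => fa N m x p * Φ p) (F' := fun _ => 0)
        ((Sm.fa N m x).mul hΦ) (fun p => ((fa_local N m x p _
          (dN_single (fun h => h3 (Nb_symm h)) p)).mul (h4 p)).congr (by ring))
      simp only [sN_single] at h5
      have h6 : (fun p => fa N m x p * (fb N z p * Φ p)) =
          fun p => fb N z p * (fa N m x p * Φ p) := by
        funext p
        ring
      rw [h6, h5, EE_zero N hN m, mul_zero]

/-- the main part -/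
lemma br_EE {g₀ f : V → ℝ} (hf : ∀ v, f v ≠ 0 → Deep N g₀ v) {Φ A B : Pt V → ℝ} (hΦ : Sm Φ)
    (hA : ∀ p, Dv Φ p (dA g₀) (A p)) (hB : ∀ p, Dv Φ p (dN g₀ p) (B p)) (hAs : Sm A)
    (hBs : Sm B) :
    EE N m (fun p => UU N m (k0 g₀ f) p * Φ p) =
      2 * EE N m (fun p => sN N f p * Φ p) + EE N m (fun p => sN N f p * A p) -
        EE N m (fun p => sA N m f p * B p) := by
  have h1 := ibA N hN m g₀ (F := fun p => sN N f p * Φ p)
    (F' := fun p => sN N f p * Φ p + sN N f p * A p) ((Sm.sN N f).mul hΦ)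
    (fun p => (deep_sN_A hf p).mul (hA p))
  have h2 := ibN N hN m g₀ (F := fun p => sA N m f p * Φ p)
    (F' := fun p => (-1) * (sN N f p * Φ p) + sA N m f p * B p) ((Sm.sA N m f).mul hΦ)
    (fun p => ((deep_sA_N m hf p).mul (hB p)).congr (by ring))
  have e : (fun p => UU N m (k0 g₀ f) p * Φ p) = fun p => sA N m g₀ p * (sN N f p * Φ p) -
      sN N g₀ p * (sA N m f p * Φ p) := by
    funext p
    rw [UU_k0]
    ring
  rw [e, EE_sub N hN m ((Sm.sA N m g₀).mul ((Sm.sN N f).mul hΦ))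
    ((Sm.sN N g₀).mul ((Sm.sA N m f).mul hΦ)), h1, h2,
    EE_add N hN m ((Sm.sN N f).mul hΦ) ((Sm.sN N f).mul hAs),
    EE_add N hN m (((Sm.sN N f).mul hΦ).const_mul _) ((Sm.sA N m f).mul hBs), EE_const_mul]
  ring

/-- splitting of the kernel -/
lemma split_EE {Φ : Pt V → ℝ} (hΦ : Sm Φ) (k k' : V → V → ℝ) :
    EE N m (fun p => UU N m k p * Φ p) = EE N m (fun p => UU N m k' p * Φ p) +
      EE N m (fun p => UU N m (fun x z => k x z - k' x z) p * Φ p) := by
  rw [← EE_add N hN m ((Sm_UU N m _).mul hΦ) ((Sm_UU N m _).mul hΦ)]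
  congr 1
  funext p
  rw [← add_mul, ← UU_add]
  congr 2
  funext x z
  ring

end

lemma fam_nb {N : Net V} {g₀ f : V → ℝ} {ι : Type} [LinearOrder ι] {k : ι → V → V → ℝ}
    (hF : Fam N g₀ f k) (i : ι) (x z : V) (h : k i x z - k0 g₀ f x z ≠ 0) : ¬ Nb N x z := by
  intro hn
  exact hF.far i x z (fun e => h (by rw [e, sub_self])) z ⟨hn, Or.inl rfl⟩

end K3

/-! ### K3: orthogonality of the scales -/

section

variable (N : Net V) (hN : N.Conn) (m : V → ℝ) (g₀ f : V → ℝ) {ι : Type} [LinearOrder ι]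
  (k : ι → V → V → ℝ)

include hN

theorem sN_y (q : V) :
    EE N m (fun p => sN N f p * p.2 q) = f q * EE N m (fun p => Real.exp (p.1 q)) := by
  rw [ibN N hN m f (F := fun p => p.2 q) (F' := fun p => f q * Real.exp (p.1 q)) (Sm.y q)
    (fun p => Dv.y q p _), EE_const_mul]

theorem fam_y (hF : Fam N g₀ f k) (i : ι) (q : V) (hq : Deep N g₀ q) :
    EE N m (fun p => UU N m (k i) p * p.2 q) = f q * EE N m (fun p => Real.exp (p.1 q)) := by
  rw [K3.split_EE N hN m (Φ := fun p => p.2 q) (Sm.y q) (k i) (k0 g₀ f),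
    K3.kap_zero N hN m (Φ := fun p => p.2 q) (Sm.y q) _ (fun x z h => K3.fam_nb hF i x z h)
      (fun x z _ => Or.inl fun p => Dv.y q p _),
    K3.br_EE N hN m hF.deep_f (Φ := fun p => p.2 q) (A := fun _ => 0)
      (B := fun p => Real.exp (p.1 q)) (Sm.y q) (fun p => Dv.y q p _)
      (fun p => (Dv.y q p _).congr (by rw [dN_snd, hq.2.1, one_mul])) (Sm.const 0) (Sm.exp q),
    sN_y N hN m f q]
  have h1 := ibA N hN m f (F := fun p => Real.exp (p.1 q))
    (F' := fun p => f q * Real.exp (p.1 q)) (Sm.exp q)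
    (fun p => (Dv.exp q p _).congr (by rw [dA_fst, mul_comm]))
  rw [h1, EE_const_mul]
  simp only [mul_zero]
  rw [K3.EE_zero N hN m]
  ring

theorem fam_sN (hF : Fam N g₀ f k) (i : ι) :
    EE N m (fun p => UU N m (k i) p * sN N f p) = 3 * EE N m (fun p => sN N f p ^ 2) := by
  have hk : EE N m (fun p => UU N m (fun x z => k i x z - k0 g₀ f x z) p * sN N f p) = 0 := by
    have e : (fun p => UU N m (fun x z => k i x z - k0 g₀ f x z) p * sN N f p) =
        fun p => ∑ w, f w * (UU N m (fun x z => k i x z - k0 g₀ f x z) p * fb N w p) := by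
      funext p
      rw [sN_eq]
      simp only
      rw [Finset.mul_sum]
      refine Finset.sum_congr rfl fun w _ => ?_
      ring
    rw [e, EE_sum N hN m _ fun w _ => ((K3.Sm_UU N m _).mul (Sm.fb N w)).const_mul _]
    refine Finset.sum_eq_zero fun w _ => ?_
    rw [EE_const_mul, K3.kap_zero N hN m (Sm.fb N w) _ (fun x z h => K3.fam_nb hF i x z h),
      mul_zero]
    intro x z h
    have h1 := hF.far i x z (fun e => h (by rw [e, sub_self])) w
    by_cases h2 : Nb N x w
    · exact Or.inr fun p => K3.fb_local N w p _ (K3.dN_single (fun h3 => h1 ⟨h2, h3⟩) p)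
    · exact Or.inl fun p => K3.fb_local N w p _ (K3.dA_single h2)
  rw [K3.split_EE N hN m (Sm.sN N f) (k i) (k0 g₀ f), hk,
    K3.br_EE N hN m hF.deep_f (Φ := sN N f) (A := sN N f) (B := fun _ => 0) (Sm.sN N f)
      (fun p => K3.deep_sN_A hF.deep_f p) (fun p => K3.deep_sN_N hF.deep_f p) (Sm.sN N f)
      (Sm.const 0)]
  simp only [mul_zero]
  rw [K3.EE_zero N hN m]
  have e2 : (fun p => sN N f p ^ 2) = fun p => sN N f p * sN N f p := by
    funext p
    ring
  rw [e2]
  ring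

theorem fam_fam (hF : Fam N g₀ f k) (i j : ι) (hij : i ≠ j) :
    EE N m (fun p => UU N m (k i) p * UU N m (k j) p) = 9 * EE N m (fun p => sN N f p ^ 2) := by
  have main : ∀ i j : ι, j < i →
      EE N m (fun p => UU N m (k i) p * UU N m (k j) p) =
        9 * EE N m (fun p => sN N f p ^ 2) := by
    intro i j hji
    have hk : EE N m (fun p => UU N m (fun x z => k i x z - k0 g₀ f x z) p *
        UU N m (k j) p) = 0 := by
      have e : (fun p => UU N m (fun x z => k i x z - k0 g₀ f x z) p * UU N m (k j) p) =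
          fun p => ∑ x', ∑ z', k j x' z' * (UU N m (fun x z => k i x z - k0 g₀ f x z) p *
            (fa N m x' p * fb N z' p)) := by
        funext p
        conv_lhs => rw [show UU N m (k j) p = ∑ x', ∑ z', k j x' z' * (fa N m x' p * fb N z' p)
          from rfl]
        rw [Finset.mul_sum]
        refine Finset.sum_congr rfl fun x' _ => ?_
        rw [Finset.mul_sum]
        refine Finset.sum_congr rfl fun z' _ => ?_
        ring
      have hs : ∀ x' z', Sm (fun p => UU N m (fun x z => k i x z - k0 g₀ f x z) p *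
            (fa N m x' p * fb N z' p)) := fun x' z' =>
        (K3.Sm_UU N m _).mul ((Sm.fa N m x').mul (Sm.fb N z'))
      rw [e, EE_sum N hN m _ fun x' _ => Sm.sum _ fun z' _ => (hs x' z').const_mul _]
      refine Finset.sum_eq_zero fun x' _ => ?_
      rw [EE_sum N hN m _ fun z' _ => (hs x' z').const_mul _]
      refine Finset.sum_eq_zero fun z' _ => ?_
      rw [EE_const_mul]
      by_cases hx' : k j x' z' = 0
      · rw [hx', zero_mul]
      · rw [K3.kap_zero N hN m ((Sm.fa N m x').mul (Sm.fb N z')) _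
          (fun x z h => K3.fam_nb hF i x z h), mul_zero]
        intro x z h
        have h1 := hF.far' i j x z x' z' hji (fun e => h (by rw [e, sub_self])) hx'
        by_cases h2 : Nb N x x' ∨ Nb N x z'
        · have h3 : ¬ (Nb N z x' ∨ Nb N z z') := fun h3 => h1 ⟨h2, h3⟩
          push Not at h3
          exact Or.inr fun p => ((K3.fa_local N m x' p _ (K3.dN_single h3.1 p)).mul
            (K3.fb_local N z' p _ (K3.dN_single h3.2 p))).congr (by ring)
        · push Not at h2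
          exact Or.inl fun p => ((K3.fa_local N m x' p _ (K3.dA_single h2.1)).mul
            (K3.fb_local N z' p _ (K3.dA_single h2.2))).congr (by ring)
    rw [K3.split_EE N hN m (K3.Sm_UU N m (k j)) (k i) (k0 g₀ f), hk,
      K3.br_EE N hN m hF.deep_f (Φ := UU N m (k j)) (A := UU N m (k j)) (B := fun _ => 0)
        (K3.Sm_UU N m (k j)) (fun p => K3.deep_UU_A m (hF.deep_k j) p)
        (fun p => K3.deep_UU_N m (hF.anti j) (hF.deep_k j) p) (K3.Sm_UU N m (k j))
        (Sm.const 0)]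
    simp only [mul_zero]
    rw [K3.EE_zero N hN m]
    have e2 : (fun p => sN N f p * UU N m (k j) p) = fun p => UU N m (k j) p * sN N f p := by
      funext p
      ring
    rw [e2, fam_sN N hN m g₀ f k hF j]
    ring
  rcases lt_or_gt_of_ne hij with h | h
  · rw [← main j i h]
    congr 1
    funext p
    ring
  · exact main i j h

/-- The multi-scale inequality for one density. -/
theorem bessel (hF : Fam N g₀ f k) (I : Finset ι) (P : Finset V)
    (hP : ∀ q ∈ P, Deep N g₀ q ∧ f q = 1) :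
    4 * (I.card : ℝ) ^ 2 * (∑ q ∈ P, EE N m (fun p => Real.exp (p.1 q))) ^ 2 ≤
      (∑ i ∈ I, EE N m (fun p => UU N m (k i) p ^ 2)) *
        EE N m (fun p => (∑ q ∈ P, p.2 q) ^ 2) := by
  set S : ℝ := EE N m (fun p => sN N f p ^ 2) with hS
  have hS0 : 0 ≤ S := EE_nonneg N m fun p => sq_nonneg _
  -- the centred fields
  set W : ι → Pt V → ℝ := fun i p => UU N m (k i) p - 3 * sN N f p with hW
  have hWs : ∀ i, Sm (W i) := fun i => (K3.Sm_UU N m _).sub ((Sm.sN N f).const_mul _)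
  have hWW : ∀ i j, EE N m (fun p => W i p * W j p) =
      EE N m (fun p => UU N m (k i) p * UU N m (k j) p) - 9 * S := by
    intro i j
    have e : (fun p => W i p * W j p) = fun p => (UU N m (k i) p * UU N m (k j) p +
        9 * sN N f p ^ 2) - (3 * (UU N m (k i) p * sN N f p) + 3 * (UU N m (k j) p * sN N f p)) := by
      funext p
      simp only [hW]
      ring
    have s1 : Sm (fun p => UU N m (k i) p * UU N m (k j) p) :=
      (K3.Sm_UU N m _).mul (K3.Sm_UU N m _)
    have s2 : Sm (fun p => 9 * sN N f p ^ 2) := ((Sm.sN N f).pow 2).const_mul _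
    have s3 : ∀ i, Sm (fun p => 3 * (UU N m (k i) p * sN N f p)) := fun i =>
      ((K3.Sm_UU N m _).mul (Sm.sN N f)).const_mul _
    rw [e, EE_sub N hN m (s1.add s2) ((s3 i).add (s3 j)), EE_add N hN m s1 s2,
      EE_add N hN m (s3 i) (s3 j), EE_const_mul, EE_const_mul, EE_const_mul,
      fam_sN N hN m g₀ f k hF i, fam_sN N hN m g₀ f k hF j]
    ring
  have hoff : ∀ i j, i ≠ j → EE N m (fun p => W i p * W j p) = 0 := by
    intro i j hij
    rw [hWW, fam_fam N hN m g₀ f k hF i j hij]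
    ring
  have hdiag : ∀ i, EE N m (fun p => W i p * W i p) ≤ EE N m (fun p => UU N m (k i) p ^ 2) := by
    intro i
    rw [hWW]
    have e : (fun p => UU N m (k i) p ^ 2) = fun p => UU N m (k i) p * UU N m (k i) p := by
      funext p
      ring
    rw [e]
    linarith
  have hWy : ∀ i, ∀ q ∈ P, EE N m (fun p => W i p * p.2 q) =
      -2 * EE N m (fun p => Real.exp (p.1 q)) := by
    intro i q hq
    have e : (fun p : Pt V => W i p * p.2 q) =
        fun p => UU N m (k i) p * p.2 q - 3 * (sN N f p * p.2 q) := by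
      funext p
      simp only [hW]
      ring
    rw [e, EE_sub N hN m ((K3.Sm_UU N m _).mul (Sm.y q))
      (((Sm.sN N f).mul (Sm.y q)).const_mul _), EE_const_mul,
      fam_y N hN m g₀ f k hF i q (hP q hq).1, sN_y N hN m f q, (hP q hq).2]
    ring
  have hcs := EE_cs N hN m (F := fun p => ∑ i ∈ I, W i p) (G := fun p => ∑ q ∈ P, p.2 q)
    (Sm.sum _ fun i _ => hWs i) (Sm.sum _ fun q _ => Sm.y q)
  have e1 : EE N m (fun p => (∑ i ∈ I, W i p) * ∑ q ∈ P, p.2 q) =
      -2 * I.card * ∑ q ∈ P, EE N m (fun p => Real.exp (p.1 q)) := by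
    have e : (fun p : Pt V => (∑ i ∈ I, W i p) * ∑ q ∈ P, p.2 q) =
        fun p => ∑ i ∈ I, ∑ q ∈ P, W i p * p.2 q := by
      funext p
      rw [Finset.sum_mul_sum]
    rw [e, EE_sum N hN m _ fun i _ => Sm.sum _ fun q _ => (hWs i).mul (Sm.y q)]
    have e' : ∀ i ∈ I, EE N m (fun p => ∑ q ∈ P, W i p * p.2 q) =
        -2 * ∑ q ∈ P, EE N m (fun p => Real.exp (p.1 q)) := by
      intro i _
      rw [EE_sum N hN m _ fun q _ => (hWs i).mul (Sm.y q), Finset.mul_sum]
      exact Finset.sum_congr rfl fun q hq => hWy i q hq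
    rw [Finset.sum_congr rfl e', Finset.sum_const, nsmul_eq_mul]
    ring
  have e2 : EE N m (fun p => (∑ i ∈ I, W i p) ^ 2) ≤
      ∑ i ∈ I, EE N m (fun p => UU N m (k i) p ^ 2) := by
    have e : (fun p : Pt V => (∑ i ∈ I, W i p) ^ 2) =
        fun p => ∑ i ∈ I, ∑ j ∈ I, W i p * W j p := by
      funext p
      rw [sq, Finset.sum_mul_sum]
    rw [e, EE_sum N hN m _ fun i _ => Sm.sum _ fun j _ => (hWs i).mul (hWs j)]
    refine Finset.sum_le_sum fun i hi => ?_
    rw [EE_sum N hN m _ fun j _ => (hWs i).mul (hWs j), Finset.sum_eq_single i]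
    · exact hdiag i
    · intro j _ hj
      exact hoff i j hj.symm
    · intro h
      exact absurd hi h
  rw [e1] at hcs
  calc 4 * (I.card : ℝ) ^ 2 * (∑ q ∈ P, EE N m (fun p => Real.exp (p.1 q))) ^ 2 =
        (-2 * I.card * ∑ q ∈ P, EE N m (fun p => Real.exp (p.1 q))) ^ 2 := by ring
    _ ≤ _ := hcs
    _ ≤ _ := mul_le_mul_of_nonneg_right e2 (EE_nonneg N m fun p => sq_nonneg _)

end

end Pool.Agent.TH369.AG
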