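import Pool.Agent.TH369.AG.Defs6
import Pool.Agent.TH369.AG.J11

/-!
# K5a: the transported kernels form a family
-/

set_option autoImplicit false
set_option linter.unusedSectionVars false

namespace Pool.Agent.TH369.AG

open MeasureTheory Matrix

namespace K5a

open J11

/-! ### Transport of functions and of kernels -/

section api

variable {V : Type} [Fintype V] [DecidableEq V]

theorem tr_in {N : Net V} {β : ℝ} {R : ℕ} {ι : ℤ × ℤ → V} (hE : Emb N β R ι) (F : ℤ × ℤ → ℝ)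
    {x : ℤ × ℤ} (hx : nrm x < R) : tr R ι F (ι x) = F x := by
  have h : ∃ y, nrm y < R ∧ ι y = ι x := ⟨x, hx, rfl⟩
  unfold tr
  rw [dif_pos h]
  have h1 := h.choose_spec
  rw [hE.inj _ _ h1.1 hx h1.2]

theorem tr_out {R : ℕ} {ι : ℤ × ℤ → V} (F : ℤ × ℤ → ℝ) {v : V}
    (hv : ¬ ∃ x, nrm x < R ∧ ι x = v) : tr R ι F v = 0 := by
  unfold tr
  rw [dif_neg hv]

theorem tr_ne {N : Net V} {β : ℝ} {R : ℕ} {ι : ℤ × ℤ → V} (hE : Emb N β R ι) (F : ℤ × ℤ → ℝ)
    {v : V} (hv : tr R ι F v ≠ 0) : ∃ x, nrm x < R ∧ ι x = v ∧ F x ≠ 0 := by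
  by_cases h : ∃ x, nrm x < R ∧ ι x = v
  · obtain ⟨x, hx, rfl⟩ := h
    rw [tr_in hE F hx] at hv
    exact ⟨x, hx, rfl, hv⟩
  · exact absurd (tr_out F h) hv

theorem tk_in {N : Net V} {β : ℝ} {R : ℕ} {ι : ℤ × ℤ → V} (hE : Emb N β R ι)
    (k : ℤ × ℤ → ℤ × ℤ → ℝ) {x z : ℤ × ℤ} (hx : nrm x < R) (hz : nrm z < R) :
    tk R ι k (ι x) (ι z) = k x z := by
  unfold tk
  rw [tr_in hE _ hx, tr_in hE _ hz]

theorem tk_ne {N : Net V} {β : ℝ} {R : ℕ} {ι : ℤ × ℤ → V} (hE : Emb N β R ι)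
    (k : ℤ × ℤ → ℤ × ℤ → ℝ) {v w : V} (h : tk R ι k v w ≠ 0) :
    ∃ x z, nrm x < R ∧ nrm z < R ∧ ι x = v ∧ ι z = w ∧ k x z ≠ 0 := by
  unfold tk at h
  obtain ⟨x, hx, hxv, h1⟩ := tr_ne hE _ h
  obtain ⟨z, hz, hzw, h2⟩ := tr_ne hE _ h1
  exact ⟨x, z, hx, hz, hxv, hzw, h2⟩

theorem tk_anti {N : Net V} {β : ℝ} {R : ℕ} {ι : ℤ × ℤ → V} (hE : Emb N β R ι)
    (k : ℤ × ℤ → ℤ × ℤ → ℝ) (hk : ∀ x z, k x z = - k z x) (v w : V) :
    tk R ι k v w = - tk R ι k w v := by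
  by_cases hv : ∃ x, nrm x < R ∧ ι x = v
  · by_cases hw : ∃ x, nrm x < R ∧ ι x = w
    · obtain ⟨x, hx, rfl⟩ := hv
      obtain ⟨z, hz, rfl⟩ := hw
      rw [tk_in hE k hx hz, tk_in hE k hz hx, hk]
    · have h1 : tk R ι k v w = 0 := by
        by_contra h
        obtain ⟨x, z, -, hz, -, hzw, -⟩ := tk_ne hE k h
        exact hw ⟨z, hz, hzw⟩
      have h2 : tk R ι k w v = 0 := by
        by_contra h
        obtain ⟨x, z, hx, -, hxw, -, -⟩ := tk_ne hE k h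
        exact hw ⟨x, hx, hxw⟩
      rw [h1, h2, neg_zero]
  · have h1 : tk R ι k v w = 0 := by
      by_contra h
      obtain ⟨x, z, hx, -, hxv, -, -⟩ := tk_ne hE k h
      exact hv ⟨x, hx, hxv⟩
    have h2 : tk R ι k w v = 0 := by
      by_contra h
      obtain ⟨x, z, -, hz, -, hzv, -⟩ := tk_ne hE k h
      exact hv ⟨z, hz, hzv⟩
    rw [h1, h2, neg_zero]

end api

theorem kk_anti (R l : ℕ) (x z : ℤ × ℤ) : kk R l x z = - kk R l z x := by
  unfold kk
  rw [← mul_neg, ← Finset.sum_neg_distrib]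
  congr 1
  refine Finset.sum_congr rfl fun a _ => ?_
  ring

theorem nrm_tri3 (x y z : ℤ × ℤ) : nrm (x - z) ≤ nrm (x - y) + nrm (y - z) := by
  have h := nrm_tri (x - z) (x - y)
  have e : x - z - (x - y) = y - z := by abel
  rw [e] at h
  exact h

theorem nrm_zero' (x : ℤ × ℤ) : nrm (x - x) = 0 := by
  rw [sub_self]
  simp [nrm]

section net

variable {V : Type} [Fintype V] [DecidableEq V]

/-- A closed neighbour of a deep point of the box lies in the box. -/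
theorem nb1 {N : Net V} {β : ℝ} {R : ℕ} {ι : ℤ × ℤ → V} (hE : Emb N β R ι) {a : ℤ × ℤ}
    (ha : nrm a + 1 < R) {x : V} (h : Nb N x (ι a)) : ∃ y, ι y = x ∧ nrm (a - y) ≤ 1 := by
  rcases h with h | h
  · exact ⟨a, h.symm, by rw [nrm_zero']; norm_num⟩
  · rw [N.symm] at h
    obtain ⟨y, hy, hyx⟩ := hE.enadj a x ha h
    exact ⟨y, hyx, adj_nrm hy⟩

/-- A vertex which has a common closed neighbour with a deep point of the box. -/
theorem nb2 {N : Net V} {β : ℝ} {R : ℕ} {ι : ℤ × ℤ → V} (hE : Emb N β R ι) {a : ℤ × ℤ}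
    (ha : nrm a + 2 < R) {x u : V} (h : Nb N (ι a) u) (h' : Nb N x u) :
    ∃ y, ι y = x ∧ nrm (a - y) ≤ 2 := by
  have h1 : Nb N u (ι a) := by
    rcases h with h | h
    · exact Or.inl h.symm
    · right
      rw [N.symm]
      exact h
  obtain ⟨y, hy, hya⟩ := nb1 hE (by linarith) h1
  have hyR : nrm y + 1 < R := by
    have := nrm_tri y a
    rw [nrm_comm] at this
    linarith
  rw [← hy] at h'
  obtain ⟨z, hz, hzy⟩ := nb1 hE hyR h'
  refine ⟨z, hz, ?_⟩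
  have := nrm_tri3 a y z
  linarith

theorem deep {N : Net V} {β : ℝ} {R : ℕ} {ι : ℤ × ℤ → V} (hE : Emb N β R ι) {a : ℤ × ℤ}
    (ha : nrm a + 1 < R) : Deep N (tr R ι (fun _ => 1)) (ι a) := by
  refine ⟨hE.root a ha, tr_in hE _ (by linarith), fun w hw => ?_⟩
  obtain ⟨z, hz, rfl⟩ := hE.enadj a w ha hw
  refine tr_in hE _ ?_
  have h1 := nrm_tri z a
  have h2 := adj_nrm hz
  rw [nrm_comm] at h1
  linarith

theorem eqk0 {N : Net V} {β : ℝ} {R : ℕ} {ι : ℤ × ℤ → V} (hE : Emb N β R ι) {l : ℕ}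
    (hl : 0 < l) (hR : 32 * l ≤ R) {x z : ℤ × ℤ} (hx : nrm x < R) (hz : nrm z < R)
    (h : nrm (x - z) ≤ l) :
    tk R ι (kk R l) (ι x) (ι z) = k0 (tr R ι (fun _ => 1)) (tr R ι (ff R)) (ι x) (ι z) := by
  unfold k0
  rw [tk_in hE _ hx hz, tr_in hE _ hx, tr_in hE _ hz, tr_in hE _ hx, tr_in hE _ hz,
    kk_plateau R l hl hR x z h]
  ring

theorem ff_supp {R : ℕ} (hR : 0 < R) {x : ℤ × ℤ} (h : ff R x ≠ 0) : 2 * nrm x < R := by
  by_contra hcon
  rw [not_lt] at hcon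
  exact h (ff_zero R hR x hcon)

theorem far_aux {N : Net V} {β : ℝ} {R : ℕ} {ι : ℤ × ℤ → V} (hE : Emb N β R ι) {l : ℕ}
    (hl : 2 ≤ l) (hR : 32 * l ≤ R) {v w u : V}
    (h : tk R ι (kk R l) v w ≠ k0 (tr R ι (fun _ => 1)) (tr R ι (ff R)) v w)
    (h1 : Nb N v u) (h2 : Nb N w u) : False := by
  have hl0 : 0 < l := by omega
  have hR0 : 0 < R := by omega
  have hlz : (2 : ℤ) ≤ l := by exact_mod_cast hl
  have hRz : 32 * (l : ℤ) ≤ R := by exact_mod_cast hR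
  by_cases hk : tk R ι (kk R l) v w = 0
  · have hk0 : k0 (tr R ι (fun _ => 1)) (tr R ι (ff R)) v w ≠ 0 := by
      intro h3
      exact h (by rw [hk, h3])
    by_cases hw : tr R ι (ff R) w = 0
    · have hv : tr R ι (ff R) v ≠ 0 := by
        intro hv
        apply hk0
        unfold k0
        rw [hw, hv]
        ring
      obtain ⟨a, ha, rfl, hfa⟩ := tr_ne hE _ hv
      have ha2 := ff_supp hR0 hfa
      obtain ⟨b, rfl, hb⟩ := nb2 hE (by linarith) h1 h2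
      have hbR : nrm b < R := by
        have := nrm_tri b a
        rw [nrm_comm] at this
        linarith
      exact h (eqk0 hE hl0 hR ha hbR (by linarith))
    · obtain ⟨b, hb, rfl, hfb⟩ := tr_ne hE _ hw
      have hb2 := ff_supp hR0 hfb
      obtain ⟨a, rfl, ha⟩ := nb2 hE (by linarith) h2 h1
      have haR : nrm a < R := by
        have := nrm_tri a b
        rw [nrm_comm] at this
        linarith
      exact h (eqk0 hE hl0 hR haR hb (by rw [nrm_comm]; linarith))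
  · obtain ⟨a, b, ha, hb, rfl, rfl, hab⟩ := tk_ne hE _ hk
    have h3 := kk_range R l hl0 hR a b hab
    obtain ⟨z, hz, hza⟩ := nb2 hE (by linarith [h3.2.1]) h1 h2
    have hzR : nrm z < R := by
      have := nrm_tri z a
      rw [nrm_comm] at this
      linarith [h3.2.1]
    have hzb := hE.inj z b hzR hb hz
    rw [hzb] at hza
    exact h (eqk0 hE hl0 hR ha hb (by linarith))

theorem far'_aux {N : Net V} {β : ℝ} {R : ℕ} {ι : ℤ × ℤ → V} (hE : Emb N β R ι) {l l' : ℕ}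
    (hl' : 1 ≤ l') (hl : 16 * l' ≤ l) (hR : 32 * l ≤ R) {x z x' z' : V}
    (h : tk R ι (kk R l) x z ≠ k0 (tr R ι (fun _ => 1)) (tr R ι (ff R)) x z)
    (h' : tk R ι (kk R l') x' z' ≠ 0)
    (h1 : Nb N x x' ∨ Nb N x z') (h2 : Nb N z x' ∨ Nb N z z') : False := by
  have hl0 : 0 < l := by omega
  have hlz' : (1 : ℤ) ≤ l' := by exact_mod_cast hl'
  have hlz : 16 * (l' : ℤ) ≤ l := by exact_mod_cast hl
  have hRz : 32 * (l : ℤ) ≤ R := by exact_mod_cast hR
  obtain ⟨a, b, ha, hb, rfl, rfl, hab⟩ := tk_ne hE _ h'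
  obtain ⟨h3, h4, h5⟩ := kk_range R l' (by omega) (by omega) a b hab
  have key : ∀ v, Nb N v (ι a) ∨ Nb N v (ι b) →
      ∃ y, ι y = v ∧ nrm y < R ∧ nrm (a - y) ≤ 4 * l' + 1 ∧ nrm (b - y) ≤ 4 * l' + 1 ∧
        (nrm (a - y) ≤ 1 ∨ nrm (b - y) ≤ 1) := by
    intro v hv
    rcases hv with hv | hv
    · obtain ⟨y, hy, hya⟩ := nb1 hE (by linarith) hv
      refine ⟨y, hy, ?_, by linarith, ?_, Or.inl hya⟩
      · have := nrm_tri y a
        rw [nrm_comm] at this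
        linarith
      · have := nrm_tri3 b a y
        rw [nrm_comm b a] at this
        linarith
    · obtain ⟨y, hy, hyb⟩ := nb1 hE (by linarith) hv
      refine ⟨y, hy, ?_, ?_, by linarith, Or.inr hyb⟩
      · have := nrm_tri y b
        rw [nrm_comm] at this
        linarith
      · have := nrm_tri3 a b y
        linarith
  obtain ⟨y, rfl, hyR, hya, hyb, hy⟩ := key x h1
  obtain ⟨y', rfl, hyR', hya', hyb', hy'⟩ := key z h2
  refine h (eqk0 hE hl0 hR hyR hyR' ?_)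
  rcases hy with hy | hy
  · have := nrm_tri3 y a y'
    rw [nrm_comm y a] at this
    linarith
  · have := nrm_tri3 y b y'
    rw [nrm_comm y b] at this
    linarith

end net

end K5a

open K5a

theorem tr_fam {V : Type} [Fintype V] [DecidableEq V] (N : Net V) (β : ℝ) (hβ : 0 < β) (R n : ℕ)
    (hR : 32 * 16 ^ n ≤ R) (ι : ℤ × ℤ → V) (hE : Emb N β R ι) :
    Fam N (tr R ι (fun _ => 1)) (tr R ι (ff R)) (fun i : Fin n => tk R ι (kk R (16 ^ (i.1 + 1)))) := by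
  have hn1 : 1 ≤ 16 ^ n := Nat.one_le_pow _ _ (by norm_num)
  have hR0 : 0 < R := by omega
  have hR32 : (32 : ℤ) ≤ R := by
    have : 32 ≤ R := by omega
    exact_mod_cast this
  have hi : ∀ i : Fin n, 32 * 16 ^ (i.1 + 1) ≤ R := fun i =>
    le_trans (Nat.mul_le_mul_left _ (Nat.pow_le_pow_right (by norm_num) (by have := i.2; omega))) hR
  have hi0 : ∀ i : Fin n, 16 ≤ 16 ^ (i.1 + 1) := fun i => by
    calc 16 = 16 ^ 1 := by norm_num
      _ ≤ 16 ^ (i.1 + 1) := Nat.pow_le_pow_right (by norm_num) (by omega)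
  refine ⟨?_, ?_, ?_, ?_, ?_⟩
  · intro v hv
    obtain ⟨x, hx, rfl, hfx⟩ := tr_ne hE _ hv
    have h2 := ff_supp hR0 hfx
    exact deep hE (by linarith)
  · intro i x z
    exact tk_anti hE _ (kk_anti R _) x z
  · intro i x z h
    obtain ⟨a, b, ha, hb, rfl, rfl, hab⟩ := tk_ne hE _ h
    obtain ⟨-, h4, h5⟩ := kk_range R _ (by have := hi0 i; omega) (hi i) a b hab
    exact ⟨deep hE (by linarith), deep hE (by linarith)⟩
  · intro i x z h w hw
    exact far_aux hE (by have := hi0 i; omega) (hi i) h hw.1 hw.2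
  · intro i j x z x' z' hji h h' hcon
    refine far'_aux hE (by have := hi0 j; omega) ?_ (hi i) h h' hcon.1 hcon.2
    have hji' : j.1 + 1 ≤ i.1 := hji
    calc 16 * 16 ^ (j.1 + 1) = 16 ^ (j.1 + 1 + 1) := by ring
      _ ≤ 16 ^ (i.1 + 1) := Nat.pow_le_pow_right (by norm_num) (by omega)

end Pool.Agent.TH369.AG
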