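import Pool.Agent.TH369.AG.Defs4

/-!
# The fourth moment of the translation score in a cell
-/

set_option autoImplicit false
set_option linter.unusedSectionVars false

namespace Pool.Agent.TH369.AG

open MeasureTheory Matrix

variable {V : Type} [Fintype V] [DecidableEq V]

namespace K1b

/-- the derivative of the translation score -/
noncomputable def YY (N : Net V) (h : V → ℝ) (p : Pt V) : ℝ :=
  (1 / 2) * ∑ x, ∑ z, N.B x z * ((h x - h z) ^ 2 * (Real.exp (p.1 x) * Real.exp (p.1 z)))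

lemma Sm.YY (N : Net V) (h : V → ℝ) : Sm (YY N h) := by
  unfold K1b.YY
  exact (Sm.sum _ fun x _ => Sm.sum _ fun z _ =>
    (((Sm.exp x).mul (Sm.exp z)).const_mul _).const_mul _).const_mul _

lemma Dv.sN (N : Net V) (h : V → ℝ) (hr : ∀ x, h x ≠ 0 → N.r x = 0) (p : Pt V) :
    Dv (sN N h) p (dN h p) (YY N h p) := by
  have hr' : ∀ x, h x * N.r x = 0 := fun x => by
    by_cases h0 : h x = 0
    · rw [h0, zero_mul]
    · rw [hr x h0, mul_zero]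
  refine (AG.Dv.sN N h p (dN h p)).congr ?_
  simp only [dN_fst, dN_snd, mul_zero, add_zero]
  unfold K1b.YY
  have e1 : ∀ x, h x * (∑ w, N.B x w * (h x * Real.exp (p.1 x) * Real.exp (p.1 w) -
      h w * Real.exp (p.1 w) * Real.exp (p.1 x)) + N.r x * (h x * Real.exp (p.1 x))) =
      ∑ w, N.B x w * (h x * (h x - h w) * (Real.exp (p.1 x) * Real.exp (p.1 w))) := by
    intro x
    have h3 : h x * (N.r x * (h x * Real.exp (p.1 x))) = 0 := by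
      rw [← mul_assoc, hr' x, zero_mul]
    rw [mul_add, h3, add_zero, Finset.mul_sum]
    refine Finset.sum_congr rfl fun z _ => ?_
    ring
  rw [Finset.sum_congr rfl fun x _ => e1 x, sum_symm]
  congr 1
  refine Finset.sum_congr rfl fun x _ => Finset.sum_congr rfl fun z _ => ?_
  ring

lemma YY_nonneg (N : Net V) (h : V → ℝ) (p : Pt V) : 0 ≤ YY N h p :=
  mul_nonneg (by norm_num) (Finset.sum_nonneg fun x _ => Finset.sum_nonneg fun z _ =>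
    mul_nonneg (N.nn x z) (by positivity))

/-- a sum over pairs of neighbours with different values of `g` is a sum over the cell -/
lemma sum_cell {N : Net V} {K : Finset V} {δ : ℝ} {g : V → ℝ} (hg : Cut N K δ g)
    (F : V → V → ℝ) (hF : ∀ x z, 0 ≤ F x z) :
    ∑ x, ∑ z, N.B x z * ((g x - g z) ^ 2 * F x z) ≤
      ∑ x ∈ K, ∑ z ∈ K, N.B x z * (δ ^ 2 * F x z) := by
  have h1 : ∀ x z, (x ∉ K ∨ z ∉ K) → N.B x z * ((g x - g z) ^ 2 * F x z) = 0 := by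
    intro x z h
    by_cases hB : N.B x z = 0
    · rw [hB, zero_mul]
    have hx : g x = 0 := by
      by_contra hx
      obtain ⟨h1, -, h2⟩ := hg.supp x hx
      rcases h with h | h
      · exact h h1
      · exact h (h2 z hB)
    have hz : g z = 0 := by
      by_contra hz
      obtain ⟨h1, -, h2⟩ := hg.supp z hz
      rcases h with h | h
      · exact h (h2 x (by rwa [N.symm z x]))
      · exact h h1
    rw [hx, hz]
    ring
  rw [← Finset.sum_subset (Finset.subset_univ K) fun x _ hx =>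
    Finset.sum_eq_zero fun z _ => h1 x z (Or.inl hx)]
  refine Finset.sum_le_sum fun x _ => ?_
  rw [← Finset.sum_subset (Finset.subset_univ K) fun z _ hz => h1 x z (Or.inr hz)]
  refine Finset.sum_le_sum fun z _ => ?_
  by_cases hB : N.B x z = 0
  · rw [hB, zero_mul, zero_mul]
  · refine mul_le_mul_of_nonneg_left (mul_le_mul_of_nonneg_right ?_ (hF x z)) (N.nn x z)
    have := hg.lip x z hB
    rw [← sq_abs]
    exact pow_le_pow_left₀ (abs_nonneg _) this 2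

lemma sum_deg {N : Net V} {K : Finset V} {b : ℝ} (hb : ∀ x ∈ K, ∑ z ∈ K, N.B x z ≤ b)
    (u : V → ℝ) (hu : ∀ x, 0 ≤ u x) :
    ∑ x ∈ K, ∑ z ∈ K, N.B x z * u x ≤ b * ∑ x ∈ K, u x := by
  rw [Finset.mul_sum]
  refine Finset.sum_le_sum fun x hx => ?_
  rw [← Finset.sum_mul]
  exact mul_le_mul_of_nonneg_right (hb x hx) (hu x)

lemma sum_deg' {N : Net V} {K : Finset V} {b : ℝ} (hb : ∀ x ∈ K, ∑ z ∈ K, N.B x z ≤ b)
    (u : V → ℝ) (hu : ∀ x, 0 ≤ u x) :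
    ∑ x ∈ K, ∑ z ∈ K, N.B x z * u z ≤ b * ∑ x ∈ K, u x := by
  rw [Finset.sum_comm]
  refine le_trans (le_of_eq ?_) (sum_deg hb u hu)
  refine Finset.sum_congr rfl fun x _ => Finset.sum_congr rfl fun z _ => ?_
  rw [N.symm]

lemma YY_le {N : Net V} {K : Finset V} {δ C₀ b : ℝ} {h : V → ℝ} (hh : Cut N K δ h)
    (hδ : δ ^ 2 * K.card ≤ C₀) (hb : ∀ x ∈ K, ∑ z ∈ K, N.B x z ≤ b) (hK : K.Nonempty)
    (p : Pt V) : YY N h p ≤ (1 / 2) * (C₀ * b) * Ps K p := by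
  have hc : 0 < (K.card : ℝ) := by
    have := Finset.card_pos.mpr hK
    positivity
  obtain ⟨o, ho⟩ := hK
  have hb0 : 0 ≤ b := (Finset.sum_nonneg fun z _ => N.nn o z).trans (hb o ho)
  have h1 := sum_cell hh (fun x z => Real.exp (p.1 x) * Real.exp (p.1 z)) fun x z => by positivity
  have h3 := sum_deg hb (fun x => Real.exp (p.1 x) ^ 2) fun x => by positivity
  have h4 := sum_deg' hb (fun x => Real.exp (p.1 x) ^ 2) fun x => by positivity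
  have h5 : ∑ x ∈ K, Real.exp (p.1 x) ^ 2 = K.card * Ps K p := by
    unfold Ps
    field_simp
  have h2 : ∑ x ∈ K, ∑ z ∈ K, N.B x z * (δ ^ 2 * (Real.exp (p.1 x) * Real.exp (p.1 z))) ≤
      δ ^ 2 * ((1 / 2) * (∑ x ∈ K, ∑ z ∈ K, N.B x z * Real.exp (p.1 x) ^ 2 +
        ∑ x ∈ K, ∑ z ∈ K, N.B x z * Real.exp (p.1 z) ^ 2)) := by
    rw [← Finset.sum_add_distrib, Finset.mul_sum, Finset.mul_sum]
    refine Finset.sum_le_sum fun x _ => ?_
    rw [← Finset.sum_add_distrib, Finset.mul_sum, Finset.mul_sum]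
    refine Finset.sum_le_sum fun z _ => ?_
    have a1 : 0 ≤ N.B x z * δ ^ 2 := mul_nonneg (N.nn x z) (sq_nonneg _)
    have a2 : Real.exp (p.1 x) * Real.exp (p.1 z) ≤
        (1 / 2) * (Real.exp (p.1 x) ^ 2 + Real.exp (p.1 z) ^ 2) := by
      nlinarith [sq_nonneg (Real.exp (p.1 x) - Real.exp (p.1 z))]
    calc N.B x z * (δ ^ 2 * (Real.exp (p.1 x) * Real.exp (p.1 z))) =
        (N.B x z * δ ^ 2) * (Real.exp (p.1 x) * Real.exp (p.1 z)) := by ring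
      _ ≤ (N.B x z * δ ^ 2) * ((1 / 2) * (Real.exp (p.1 x) ^ 2 + Real.exp (p.1 z) ^ 2)) :=
        mul_le_mul_of_nonneg_left a2 a1
      _ = _ := by ring
  have hP := Ps_nonneg K p
  unfold YY
  rw [h5] at h3 h4
  calc (1 / 2) * ∑ x, ∑ z, N.B x z * ((h x - h z) ^ 2 * (Real.exp (p.1 x) * Real.exp (p.1 z))) ≤
      (1 / 2) * (δ ^ 2 * ((1 / 2) * (b * (K.card * Ps K p) + b * (K.card * Ps K p)))) := by
        refine mul_le_mul_of_nonneg_left ?_ (by norm_num)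
        refine (h1.trans h2).trans (mul_le_mul_of_nonneg_left ?_ (sq_nonneg _))
        linarith
    _ = (1 / 2) * (δ ^ 2 * K.card) * (b * Ps K p) := by ring
    _ ≤ (1 / 2) * C₀ * (b * Ps K p) := by
        refine mul_le_mul_of_nonneg_right ?_ (mul_nonneg hb0 hP)
        linarith
    _ = _ := by ring

/-- the derivative of `WW` -/
noncomputable def WD (K : Finset V) (h : V → ℝ) (p : Pt V) : ℝ :=
  (K.card : ℝ)⁻¹ * ∑ o ∈ K, (K.card : ℝ)⁻¹ * ∑ x ∈ K,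
    (p.2 x * Real.exp (p.1 o) - p.2 o * Real.exp (p.1 x)) *
      (2 * ((h x - h o) * (Real.exp (p.1 x) * Real.exp (p.1 o))))

lemma Sm.WD (K : Finset V) (h : V → ℝ) : Sm (WD K h) := by
  unfold K1b.WD
  refine (Sm.sum _ fun o _ => (Sm.sum _ fun x _ => Sm.mul ?_ ?_).const_mul _).const_mul _
  · exact ((Sm.y x).mul (Sm.exp o)).sub ((Sm.y o).mul (Sm.exp x))
  · exact (((Sm.exp x).mul (Sm.exp o)).const_mul _).const_mul _

lemma Dv.Ps (K : Finset V) (h : V → ℝ) (p : Pt V) : Dv (Ps K) p (dN h p) 0 := by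
  unfold AG.Ps
  refine ((Dv.sum K fun x _ => (Dv.exp x p (dN h p)).pow 1).const_mul _).congr ?_
  simp

lemma Dv.WW (K : Finset V) (h : V → ℝ) (p : Pt V) : Dv (WW K) p (dN h p) (WD K h p) := by
  unfold AG.WW AG.Wo AG.Wd K1b.WD
  refine Dv.const_mul _ (Dv.sum K fun o _ => Dv.const_mul _ (Dv.sum K fun x _ => ?_))
  refine ((((Dv.y x p (dN h p)).mul (Dv.exp o p _)).sub
    ((Dv.y o p _).mul (Dv.exp x p _))).pow 1).congr ?_
  simp only [dN_fst, dN_snd]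
  push_cast
  ring

lemma WD_sq {N : Net V} {K : Finset V} {δ : ℝ} {h : V → ℝ} (hh : Cut N K δ h)
    (hK : K.Nonempty) (p : Pt V) : WD K h p ^ 2 ≤ 16 * WW K p * Ps K p ^ 2 := by
  have hc : 0 < (K.card : ℝ) := by
    have := Finset.card_pos.mpr hK
    positivity
  set a : V × V → ℝ := fun q => p.2 q.2 * Real.exp (p.1 q.1) - p.2 q.1 * Real.exp (p.1 q.2) with ha
  set c : V × V → ℝ := fun q => 2 * ((h q.2 - h q.1) * (Real.exp (p.1 q.2) * Real.exp (p.1 q.1)))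
    with hc'
  have h1 : WD K h p = ((K.card : ℝ)⁻¹ * (K.card : ℝ)⁻¹) * ∑ q ∈ K ×ˢ K, a q * c q := by
    unfold WD
    rw [Finset.sum_product, ← Finset.mul_sum, ← mul_assoc]
  have h2 : ∑ q ∈ K ×ˢ K, a q ^ 2 = (K.card : ℝ) ^ 2 * WW K p := by
    unfold WW Wo Wd
    rw [Finset.sum_product, ← Finset.mul_sum]
    field_simp
    rfl
  have h3 : ∑ q ∈ K ×ˢ K, c q ^ 2 ≤ 16 * ((K.card : ℝ) ^ 2 * Ps K p ^ 2) := by
    have e : (K.card : ℝ) ^ 2 * Ps K p ^ 2 = (∑ x ∈ K, Real.exp (p.1 x) ^ 2) *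
        ∑ x ∈ K, Real.exp (p.1 x) ^ 2 := by
      unfold Ps
      field_simp
    rw [e, Finset.sum_mul_sum, ← Finset.sum_product', Finset.mul_sum]
    refine Finset.sum_le_sum fun q _ => ?_
    have b1 := hh.bd q.1
    have b2 := hh.bd q.2
    have b3 : (h q.2 - h q.1) ^ 2 ≤ 4 := by
      rw [abs_le] at b1 b2
      nlinarith
    have b4 : 0 ≤ Real.exp (p.1 q.1) ^ 2 * Real.exp (p.1 q.2) ^ 2 := by positivity
    rw [hc']
    calc (2 * ((h q.2 - h q.1) * (Real.exp (p.1 q.2) * Real.exp (p.1 q.1)))) ^ 2 =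
        4 * (h q.2 - h q.1) ^ 2 * (Real.exp (p.1 q.1) ^ 2 * Real.exp (p.1 q.2) ^ 2) := by ring
      _ ≤ 16 * (Real.exp (p.1 q.1) ^ 2 * Real.exp (p.1 q.2) ^ 2) :=
        mul_le_mul_of_nonneg_right (by linarith) b4
  have h4 := Finset.sum_mul_sq_le_sq_mul_sq (K ×ˢ K) a c
  have hW := WW_nonneg K p
  rw [h2] at h4
  have h5 : (∑ q ∈ K ×ˢ K, a q * c q) ^ 2 ≤ (K.card : ℝ) ^ 2 * WW K p *
      (16 * ((K.card : ℝ) ^ 2 * Ps K p ^ 2)) :=
    h4.trans (mul_le_mul_of_nonneg_left h3 (by positivity))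
  rw [h1, mul_pow]
  calc ((K.card : ℝ)⁻¹ * (K.card : ℝ)⁻¹) ^ 2 * (∑ q ∈ K ×ˢ K, a q * c q) ^ 2 ≤
      ((K.card : ℝ)⁻¹ * (K.card : ℝ)⁻¹) ^ 2 * ((K.card : ℝ) ^ 2 * WW K p *
      (16 * ((K.card : ℝ) ^ 2 * Ps K p ^ 2))) := mul_le_mul_of_nonneg_left h5 (by positivity)
    _ = _ := by field_simp

/-- the pointwise inequality -/
lemma pointwise {Y P W Y' W' M : ℝ} (hP : 0 < P) (hW : 0 ≤ W) (hY' : 0 ≤ Y')
    (hM : Y' ≤ (1 / 2) * M * P) (hW' : W' ^ 2 ≤ 16 * W * P ^ 2) :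
    3 * Y ^ 2 * Y' * (P⁻¹ ^ 2 * (P + W)) + Y ^ 3 * (P⁻¹ ^ 2 * W') ≤
      (1 / 2) * (Y ^ 4 * (P⁻¹ ^ 2 * (P + W))) + (108 + 9 / 4 * M ^ 2) * (P + W) := by
  obtain ⟨s, hs0, rfl⟩ : ∃ s : ℝ, 0 < s ∧ P = s ^ 2 :=
    ⟨Real.sqrt P, Real.sqrt_pos.mpr hP, (Real.sq_sqrt hP.le).symm⟩
  set D := s ^ 2 + W with hD
  have hD0 : 0 < D := by positivity
  set u := |Y| / s with hu
  have hu0 : 0 ≤ u := by positivity
  have hYu : |Y| = u * s := by rw [hu]; field_simp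
  have hY2 : Y ^ 2 = u ^ 2 * s ^ 2 := by rw [← sq_abs, hYu]; ring
  have hY4 : Y ^ 4 = u ^ 4 * s ^ 4 := by
    rw [show Y ^ 4 = (Y ^ 2) ^ 2 by ring, hY2]; ring
  have hWabs : |W'| ≤ 2 * D * s := by
    refine abs_le_of_sq_le_sq ?_ (by positivity)
    refine hW'.trans ?_
    have h1 : 4 * W * s ^ 2 ≤ D ^ 2 := by
      rw [hD]
      nlinarith [sq_nonneg (s ^ 2 - W)]
    calc 16 * W * (s ^ 2) ^ 2 = 4 * s ^ 2 * (4 * W * s ^ 2) := by ring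
      _ ≤ 4 * s ^ 2 * D ^ 2 := mul_le_mul_of_nonneg_left h1 (by positivity)
      _ = _ := by ring
  have t1 : 3 * Y ^ 2 * Y' * ((s ^ 2)⁻¹ ^ 2 * D) ≤ (3 / 2) * M * u ^ 2 * D := by
    rw [hY2]
    calc 3 * (u ^ 2 * s ^ 2) * Y' * ((s ^ 2)⁻¹ ^ 2 * D) =
        (3 * u ^ 2 * D * (s ^ 2)⁻¹) * Y' := by field_simp
      _ ≤ (3 * u ^ 2 * D * (s ^ 2)⁻¹) * ((1 / 2) * M * s ^ 2) :=
        mul_le_mul_of_nonneg_left hM (by positivity)
      _ = _ := by field_simp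
  have t2 : Y ^ 3 * ((s ^ 2)⁻¹ ^ 2 * W') ≤ 2 * u ^ 3 * D := by
    calc Y ^ 3 * ((s ^ 2)⁻¹ ^ 2 * W') ≤ |Y ^ 3 * ((s ^ 2)⁻¹ ^ 2 * W')| := le_abs_self _
      _ = |Y| ^ 3 * ((s ^ 2)⁻¹ ^ 2 * |W'|) := by
        rw [abs_mul, abs_mul, abs_pow, abs_of_nonneg (by positivity : (0 : ℝ) ≤ (s ^ 2)⁻¹ ^ 2)]
      _ ≤ |Y| ^ 3 * ((s ^ 2)⁻¹ ^ 2 * (2 * D * s)) := by
        refine mul_le_mul_of_nonneg_left (mul_le_mul_of_nonneg_left hWabs ?_) ?_ <;> positivity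
      _ = _ := by rw [hYu]; field_simp
  have t3 : Y ^ 4 * ((s ^ 2)⁻¹ ^ 2 * D) = u ^ 4 * D := by
    rw [hY4]; field_simp
  rw [t3]
  have t4 : (3 / 2) * M * u ^ 2 ≤ (1 / 4) * u ^ 4 + 9 / 4 * M ^ 2 := by
    nlinarith [sq_nonneg (u ^ 2 / 2 - (3 / 2) * M)]
  have t5 : 2 * u ^ 3 ≤ (1 / 4) * u ^ 4 + 108 := by
    have : 0 ≤ (u - 6) ^ 2 * (u ^ 2 + 4 * u + 12) := by positivity
    nlinarith
  calc 3 * Y ^ 2 * Y' * ((s ^ 2)⁻¹ ^ 2 * D) + Y ^ 3 * ((s ^ 2)⁻¹ ^ 2 * W') ≤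
      (3 / 2) * M * u ^ 2 * D + 2 * u ^ 3 * D := add_le_add t1 t2
    _ = ((3 / 2) * M * u ^ 2 + 2 * u ^ 3) * D := by ring
    _ ≤ ((1 / 4) * u ^ 4 + 9 / 4 * M ^ 2 + ((1 / 4) * u ^ 4 + 108)) * D :=
      mul_le_mul_of_nonneg_right (add_le_add t4 t5) hD0.le
    _ = _ := by ring

end K1b

theorem cell_Y (N : Net V) (hN : N.Conn) (m : V → ℝ) (K : Finset V) (δ C₀ b : ℝ) (h : V → ℝ)
    (hh : Cut N K δ h) (hδ : δ ^ 2 * K.card ≤ C₀) (hb : ∀ x ∈ K, ∑ z ∈ K, N.B x z ≤ b)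
    (hK : K.Nonempty) :
    EE N m (fun p => sN N h p ^ 4 * ((Ps K p)⁻¹ ^ 2 * (Ps K p + WW K p))) ≤
      2 * (108 + 9 / 4 * (C₀ * b) ^ 2) * EE N m (fun p => Ps K p + WW K p) := by
  have hr : ∀ x, h x ≠ 0 → N.r x = 0 := fun x hx => (hh.supp x hx).2.1
  have sY := Sm.sN N h
  have sI := Sm.Ps_inv hK
  have sD : Sm (fun p => Ps K p + WW K p) := (Sm.Ps K).add (Sm.WW K)
  have h1 := ibN N hN m h (F := fun p => sN N h p ^ 3 * ((Ps K p)⁻¹ ^ 2 * (Ps K p + WW K p)))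
    (F' := fun p => 3 * sN N h p ^ 2 * K1b.YY N h p * ((Ps K p)⁻¹ ^ 2 * (Ps K p + WW K p)) +
      sN N h p ^ 3 * ((Ps K p)⁻¹ ^ 2 * K1b.WD K h p)) ((sY.pow 3).mul ((sI.pow 2).mul sD))
      (fun p => by
        refine (((K1b.Dv.sN N h hr p).pow 2).mul ((((K1b.Dv.Ps K h p).inv
          (Ps_pos hK p).ne').pow 1).mul ((K1b.Dv.Ps K h p).add (K1b.Dv.WW K h p)))).congr ?_
        push_cast
        ring)
  have e1 : (fun p => sN N h p * (sN N h p ^ 3 * ((Ps K p)⁻¹ ^ 2 * (Ps K p + WW K p)))) =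
      fun p => sN N h p ^ 4 * ((Ps K p)⁻¹ ^ 2 * (Ps K p + WW K p)) := by
    funext p
    ring
  rw [e1] at h1
  have s4 : Sm (fun p => sN N h p ^ 4 * ((Ps K p)⁻¹ ^ 2 * (Ps K p + WW K p))) :=
    (sY.pow 4).mul ((sI.pow 2).mul sD)
  have h2 : EE N m (fun p => sN N h p ^ 4 * ((Ps K p)⁻¹ ^ 2 * (Ps K p + WW K p))) ≤
      EE N m (fun p => (1 / 2) * (sN N h p ^ 4 * ((Ps K p)⁻¹ ^ 2 * (Ps K p + WW K p))) +
        (108 + 9 / 4 * (C₀ * b) ^ 2) * (Ps K p + WW K p)) := by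
    rw [h1]
    refine EE_mono N hN m ?_ ((s4.const_mul _).add (sD.const_mul _)) fun p => ?_
    · refine Sm.add ?_ ((sY.pow 3).mul ((sI.pow 2).mul (K1b.Sm.WD K h)))
      exact (((sY.pow 2).const_mul _).mul (K1b.Sm.YY N h)).mul ((sI.pow 2).mul sD)
    · exact K1b.pointwise (Ps_pos hK p) (WW_nonneg K p) (K1b.YY_nonneg N h p)
        (K1b.YY_le hh hδ hb hK p) (K1b.WD_sq hh hK p)
  rw [EE_add N hN m (s4.const_mul _) (sD.const_mul _), EE_const_mul, EE_const_mul] at h2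
  linarith

end Pool.Agent.TH369.AG
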