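import Pool.Agent.TH369.AG.K1a
import Pool.Agent.TH369.AG.K1b

/-!
# The second moment of the bracket in a cell
-/

set_option autoImplicit false
set_option linter.unusedSectionVars false

namespace Pool.Agent.TH369.AG

open MeasureTheory Matrix

variable {V : Type} [Fintype V] [DecidableEq V]

namespace K1c

lemma br_eq (N : Net V) (m g h : V → ℝ) (o : V) (p : Pt V) :
    br N m g h p = XX N m g o p * sN N h p - XX N m h o p * sN N g p := by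
  unfold br XX
  ring

lemma amgm {t a c : ℝ} (ht : t ^ 2 = a * c) (ha : 0 ≤ a) (hc : 0 ≤ c) : 2 * t ≤ a + c := by
  have h : (2 * t) ^ 2 ≤ (a + c) ^ 2 := by nlinarith [sq_nonneg (a - c)]
  exact (le_abs_self _).trans (abs_le_of_sq_le_sq h (by positivity))

/-- the weighted inequality at the vertex `o` -/
lemma at_o (K : Finset V) (hK : K.Nonempty) (o : V) (p : Pt V) (X Y : ℝ) :
    2 * (((K.card : ℝ)⁻¹ * Real.exp (p.1 o) ^ 2 * (Ps K p)⁻¹) * (X ^ 2 * Y ^ 2)) ≤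
      (K.card : ℝ)⁻¹ * (th K o p * X ^ 4) + (K.card : ℝ)⁻¹ * ((Real.exp (p.1 o) ^ 2 + Wo K o p) *
        (Y ^ 4 * (Ps K p)⁻¹ ^ 2)) := by
  have hW := Wo_nonneg K o p
  have hT := K1a.th_nonneg K o p
  have hP := Ps_pos hK p
  refine amgm ?_ (by positivity) (by positivity)
  have e : th K o p * (Real.exp (p.1 o) ^ 2 + Wo K o p) = Real.exp (p.1 o) ^ 4 := by
    unfold th
    have : Real.exp (p.1 o) ^ 2 + Wo K o p ≠ 0 := by positivity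
    field_simp
  linear_combination (-((K.card : ℝ)⁻¹ ^ 2 * X ^ 4 * Y ^ 4 * (Ps K p)⁻¹ ^ 2)) * e

lemma pointwise (N : Net V) (m : V → ℝ) (K : Finset V) (hK : K.Nonempty) (g h : V → ℝ)
    (p : Pt V) :
    br N m g h p ^ 2 ≤ ((K.card : ℝ)⁻¹ * ∑ o ∈ K, th K o p * XX N m g o p ^ 4 +
      sN N h p ^ 4 * ((Ps K p)⁻¹ ^ 2 * (Ps K p + WW K p))) +
      ((K.card : ℝ)⁻¹ * ∑ o ∈ K, th K o p * XX N m h o p ^ 4 +
      sN N g p ^ 4 * ((Ps K p)⁻¹ ^ 2 * (Ps K p + WW K p))) := by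
  have hP := Ps_pos hK p
  have h1 : ∀ o ∈ K, ((K.card : ℝ)⁻¹ * Real.exp (p.1 o) ^ 2 * (Ps K p)⁻¹) * br N m g h p ^ 2 ≤
      (K.card : ℝ)⁻¹ * (th K o p * XX N m g o p ^ 4) +
      (K.card : ℝ)⁻¹ * ((Real.exp (p.1 o) ^ 2 + Wo K o p) * (sN N h p ^ 4 * (Ps K p)⁻¹ ^ 2)) +
      ((K.card : ℝ)⁻¹ * (th K o p * XX N m h o p ^ 4) +
      (K.card : ℝ)⁻¹ * ((Real.exp (p.1 o) ^ 2 + Wo K o p) * (sN N g p ^ 4 * (Ps K p)⁻¹ ^ 2))) := by
    intro o _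
    have a1 := at_o K hK o p (XX N m g o p) (sN N h p)
    have a2 := at_o K hK o p (XX N m h o p) (sN N g p)
    have a3 : br N m g h p ^ 2 ≤ 2 * (XX N m g o p ^ 2 * sN N h p ^ 2) +
        2 * (XX N m h o p ^ 2 * sN N g p ^ 2) := by
      rw [br_eq N m g h o p]
      nlinarith [sq_nonneg (XX N m g o p * sN N h p + XX N m h o p * sN N g p)]
    have a4 : 0 ≤ (K.card : ℝ)⁻¹ * Real.exp (p.1 o) ^ 2 * (Ps K p)⁻¹ := by positivity
    have a5 := mul_le_mul_of_nonneg_left a3 a4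
    linarith
  have h2 := Finset.sum_le_sum h1
  have e1 : ∑ o ∈ K, ((K.card : ℝ)⁻¹ * Real.exp (p.1 o) ^ 2 * (Ps K p)⁻¹) * br N m g h p ^ 2 =
      br N m g h p ^ 2 := by
    have : ∑ o ∈ K, ((K.card : ℝ)⁻¹ * Real.exp (p.1 o) ^ 2 * (Ps K p)⁻¹) * br N m g h p ^ 2 =
        ((K.card : ℝ)⁻¹ * ∑ o ∈ K, Real.exp (p.1 o) ^ 2) * ((Ps K p)⁻¹ * br N m g h p ^ 2) := by
      rw [Finset.mul_sum, Finset.sum_mul]
      refine Finset.sum_congr rfl fun o _ => ?_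
      ring
    rw [this, show (K.card : ℝ)⁻¹ * ∑ o ∈ K, Real.exp (p.1 o) ^ 2 = Ps K p from rfl, ← mul_assoc,
      mul_inv_cancel₀ hP.ne', one_mul]
  have e2 : ∀ Y : ℝ, ∑ o ∈ K, (K.card : ℝ)⁻¹ * ((Real.exp (p.1 o) ^ 2 + Wo K o p) *
      (Y ^ 4 * (Ps K p)⁻¹ ^ 2)) = Y ^ 4 * ((Ps K p)⁻¹ ^ 2 * (Ps K p + WW K p)) := by
    intro Y
    have : ∑ o ∈ K, (K.card : ℝ)⁻¹ * ((Real.exp (p.1 o) ^ 2 + Wo K o p) *
      (Y ^ 4 * (Ps K p)⁻¹ ^ 2)) = ((K.card : ℝ)⁻¹ * ∑ o ∈ K, Real.exp (p.1 o) ^ 2 +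
        (K.card : ℝ)⁻¹ * ∑ o ∈ K, Wo K o p) * (Y ^ 4 * (Ps K p)⁻¹ ^ 2) := by
      rw [← mul_add, ← Finset.sum_add_distrib, Finset.mul_sum, Finset.sum_mul]
      refine Finset.sum_congr rfl fun o _ => ?_
      ring
    rw [this, show (K.card : ℝ)⁻¹ * ∑ o ∈ K, Real.exp (p.1 o) ^ 2 = Ps K p from rfl,
      show (K.card : ℝ)⁻¹ * ∑ o ∈ K, Wo K o p = WW K p from rfl]
    ring
  rw [e1, Finset.sum_add_distrib, Finset.sum_add_distrib, Finset.sum_add_distrib, e2, e2,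
    ← Finset.mul_sum, ← Finset.mul_sum] at h2
  exact h2

/-- the average over the cell of `cell_X` -/
lemma avg_X (N : Net V) (hN : N.Conn) (m : V → ℝ) (K : Finset V) (δ C₀ b : ℝ) (g : V → ℝ)
    (hg : Cut N K δ g) (hδ : δ ^ 2 * K.card ≤ C₀) (hb : ∀ x ∈ K, ∑ z ∈ K, N.B x z ≤ b)
    (hK : K.Nonempty) :
    EE N m (fun p => (K.card : ℝ)⁻¹ * ∑ o ∈ K, th K o p * XX N m g o p ^ 4) ≤
      (1094 + 9 * C₀ ^ 2 * (1 + b ^ 2)) * EE N m (TT N K) := by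
  have sE : ∀ o, Sm (fun p => th K o p * XX N m g o p ^ 4) := fun o =>
    (Sm.th K o).mul ((Sm.XX N m g o).pow 4)
  have sR : ∀ o, Sm (fun p : Pt V => 1094 * Real.exp (p.1 o) ^ 2 + 9 * C₀ ^ 2 *
        (Real.exp (p.1 o) ^ 2 * ep N K p ^ 2 + b ^ 2 * (Real.exp (p.1 o) ^ 2 + Wo K o p))) := by
    intro o
    refine Sm.add (((Sm.exp o).pow 2).const_mul _) (Sm.const_mul _ (Sm.add ?_ (Sm.const_mul _ ?_)))
    · exact ((Sm.exp o).pow 2).mul ((Sm.ep N K).pow 2)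
    · exact ((Sm.exp o).pow 2).add (Sm.Wo K o)
  rw [EE_const_mul, EE_sum N hN m K fun o _ => sE o]
  have h1 := Finset.sum_le_sum fun o ho => cell_X N hN m K δ C₀ b g hg hδ hb o ho
  rw [← EE_sum N hN m K fun o _ => sR o] at h1
  have h2 := mul_le_mul_of_nonneg_left h1 (by positivity : (0 : ℝ) ≤ (K.card : ℝ)⁻¹)
  refine h2.trans ?_
  rw [← EE_const_mul, ← EE_const_mul]
  refine EE_mono N hN m ((Sm.sum _ fun o _ => sR o).const_mul _) ((Sm.TT N K).const_mul _)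
    fun p => ?_
  have e : (K.card : ℝ)⁻¹ * ∑ o ∈ K, (1094 * Real.exp (p.1 o) ^ 2 + 9 * C₀ ^ 2 *
        (Real.exp (p.1 o) ^ 2 * ep N K p ^ 2 + b ^ 2 * (Real.exp (p.1 o) ^ 2 + Wo K o p))) =
      1094 * Ps K p + 9 * C₀ ^ 2 * (Ps K p * ep N K p ^ 2 + b ^ 2 * (Ps K p + WW K p)) := by
    have : ∑ o ∈ K, (1094 * Real.exp (p.1 o) ^ 2 + 9 * C₀ ^ 2 *
        (Real.exp (p.1 o) ^ 2 * ep N K p ^ 2 + b ^ 2 * (Real.exp (p.1 o) ^ 2 + Wo K o p))) =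
        1094 * ∑ o ∈ K, Real.exp (p.1 o) ^ 2 + 9 * C₀ ^ 2 *
        ((∑ o ∈ K, Real.exp (p.1 o) ^ 2) * ep N K p ^ 2 +
          b ^ 2 * (∑ o ∈ K, Real.exp (p.1 o) ^ 2 + ∑ o ∈ K, Wo K o p)) := by
      rw [← Finset.sum_add_distrib, Finset.sum_mul, Finset.mul_sum (a := b ^ 2),
        ← Finset.sum_add_distrib, Finset.mul_sum, Finset.mul_sum, ← Finset.sum_add_distrib]
    rw [this]
    unfold Ps WW
    ring
  rw [e]
  have hP := Ps_nonneg K p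
  have hW := WW_nonneg K p
  have h3 : 0 ≤ Ps K p * ep N K p ^ 2 := by positivity
  have h4 : 0 ≤ C₀ ^ 2 := sq_nonneg _
  have h5 : 0 ≤ b ^ 2 := sq_nonneg _
  unfold TT
  have a1 : 0 ≤ C₀ ^ 2 * Ps K p := by positivity
  have a2 : 0 ≤ C₀ ^ 2 * WW K p := by positivity
  have a3 : 0 ≤ C₀ ^ 2 * b ^ 2 * (Ps K p * ep N K p ^ 2) := by positivity
  have a4 : 0 ≤ 1094 * (WW K p + Ps K p * ep N K p ^ 2) := by positivity
  nlinarith

end K1c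

theorem cell_br (N : Net V) (hN : N.Conn) (m : V → ℝ) (K : Finset V) (δ C₀ b : ℝ) (g h : V → ℝ)
    (hg : Cut N K δ g) (hh : Cut N K δ h) (hδ : δ ^ 2 * K.card ≤ C₀)
    (hb : ∀ x ∈ K, ∑ z ∈ K, N.B x z ≤ b) (hK : K.Nonempty) :
    EE N m (fun p => br N m g h p ^ 2) ≤
      (4 * (1094 + 9 * C₀ ^ 2 * (1 + b ^ 2)) + 8 * (108 + 9 / 4 * (C₀ * b) ^ 2)) *
        EE N m (TT N K) := by
  have sD : Sm (fun p => Ps K p + WW K p) := (Sm.Ps K).add (Sm.WW K)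
  have sY : ∀ h : V → ℝ, Sm (fun p => sN N h p ^ 4 * ((Ps K p)⁻¹ ^ 2 * (Ps K p + WW K p))) :=
    fun h => ((Sm.sN N h).pow 4).mul (((Sm.Ps_inv hK).pow 2).mul sD)
  have sX : ∀ g : V → ℝ, Sm (fun p => (K.card : ℝ)⁻¹ * ∑ o ∈ K, th K o p * XX N m g o p ^ 4) :=
    fun g => (Sm.sum _ fun o _ => (Sm.th K o).mul ((Sm.XX N m g o).pow 4)).const_mul _
  have h1 := EE_mono N hN m ((Sm.br N m g h).pow 2) (((sX g).add (sY h)).add ((sX h).add (sY g)))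
    fun p => K1c.pointwise N m K hK g h p
  rw [EE_add N hN m ((sX g).add (sY h)) ((sX h).add (sY g)), EE_add N hN m (sX g) (sY h),
    EE_add N hN m (sX h) (sY g)] at h1
  have h2 := K1c.avg_X N hN m K δ C₀ b g hg hδ hb hK
  have h3 := K1c.avg_X N hN m K δ C₀ b h hh hδ hb hK
  have h4 := cell_Y N hN m K δ C₀ b h hh hδ hb hK
  have h5 := cell_Y N hN m K δ C₀ b g hg hδ hb hK
  have h6 : EE N m (fun p => Ps K p + WW K p) ≤ EE N m (TT N K) :=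
    EE_mono N hN m sD (Sm.TT N K) fun p => by
      have hP := Ps_nonneg K p
      have : 0 ≤ Ps K p * ep N K p ^ 2 := by positivity
      unfold TT
      linarith
  have h7 : 0 ≤ EE N m (TT N K) := EE_nonneg N m fun p => by
    have hP := Ps_nonneg K p
    have hW := WW_nonneg K p
    unfold TT
    positivity
  have h8 : 2 * (108 + 9 / 4 * (C₀ * b) ^ 2) * EE N m (fun p => Ps K p + WW K p) ≤
      2 * (108 + 9 / 4 * (C₀ * b) ^ 2) * EE N m (TT N K) :=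
    mul_le_mul_of_nonneg_left h6 (by positivity)
  have h9 : 0 ≤ (1094 + 9 * C₀ ^ 2 * (1 + b ^ 2)) * EE N m (TT N K) := by positivity
  have h10 : 0 ≤ (108 + 9 / 4 * (C₀ * b) ^ 2) * EE N m (TT N K) := by positivity
  linarith

end Pool.Agent.TH369.AG
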