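import Pool.Agent.TH369.AG.Defs6
import Pool.Agent.TH369.AG.J11
import Pool.Agent.TH369.AG.K1c
import Pool.Agent.TH369.AG.K2

/-!
# The second moment at one scale
-/

set_option autoImplicit false
set_option linter.unusedSectionVars false

namespace Pool.Agent.TH369.AG

open MeasureTheory Matrix

namespace K5b

section

variable {V : Type} [Fintype V] [DecidableEq V]

omit [Fintype V] [DecidableEq V] in
lemma tr_cases (R : ℕ) (ι : ℤ × ℤ → V) (v : V) :
    (∃ x, nrm x < R ∧ ι x = v ∧ ∀ F, tr R ι F v = F x) ∨ (∀ F, tr R ι F v = 0) := by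
  by_cases h : ∃ x, nrm x < R ∧ ι x = v
  · left
    refine ⟨h.choose, h.choose_spec.1, h.choose_spec.2, fun F => ?_⟩
    unfold tr
    rw [dif_pos h]
  · right
    intro F
    unfold tr
    rw [dif_neg h]

lemma tr_apply {N : Net V} {β : ℝ} {R : ℕ} {ι : ℤ × ℤ → V} (hE : Emb N β R ι) (F : ℤ × ℤ → ℝ)
    {x : ℤ × ℤ} (hx : nrm x < R) : tr R ι F (ι x) = F x := by
  rcases tr_cases R ι (ι x) with ⟨y, hy, e, h⟩ | h
  · rw [h, hE.inj y x hy hx e]
  · exfalso
    have h1 := h (fun _ => 1)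
    unfold tr at h1
    rw [dif_pos ⟨x, hx, rfl⟩] at h1
    norm_num at h1

lemma tr_ne {R : ℕ} {ι : ℤ × ℤ → V} {F : ℤ × ℤ → ℝ} {v : V} (h : tr R ι F v ≠ 0) :
    ∃ x, nrm x < R ∧ ι x = v ∧ F x ≠ 0 := by
  rcases tr_cases R ι v with ⟨y, hy, e, h1⟩ | h1
  · rw [h1] at h
    exact ⟨y, hy, e, h⟩
  · exact absurd (h1 F) h

/-- the kernel of one cell -/
noncomputable def ka (R l : ℕ) (ι : ℤ × ℤ → V) (a : ℤ × ℤ) (v w : V) : ℝ :=
  (1 / 2) * (k0 (tr R ι (gg l a)) (tr R ι (hp R l a)) v w +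
    k0 (tr R ι (gp l a)) (tr R ι (hh R l a)) v w)

lemma tk_decomp (R l : ℕ) (ι : ℤ × ℤ → V) :
    tk R ι (kk R l) = fun v w => ∑ a ∈ AA R l, ka R l ι a v w := by
  funext v w
  unfold tk ka k0
  rcases tr_cases R ι v with ⟨x, hx, e, h⟩ | h
  · simp only [h]
    rcases tr_cases R ι w with ⟨z, hz, e', h'⟩ | h'
    · simp only [h']
      rw [kk_decomp, Finset.mul_sum]
    · simp [h']
  · simp [h]

lemma ka_anti (R l : ℕ) (ι : ℤ × ℤ → V) (a : ℤ × ℤ) (v w : V) :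
    ka R l ι a v w = - ka R l ι a w v := by
  unfold ka k0
  ring

lemma hp_supp {R l : ℕ} (hl : 0 < l) {a x : ℤ × ℤ} (h : hp R l a x ≠ 0) :
    nrm (x - ctr l a) ≤ 3 * l := by
  unfold hp at h
  exact gp_supp l hl a x (left_ne_zero_of_mul h)

lemma hh_supp {R l : ℕ} (hl : 0 < l) {a x : ℤ × ℤ} (h : hh R l a x ≠ 0) :
    nrm (x - ctr l a) ≤ 3 * l := by
  unfold hh at h
  have := gg_supp l hl a x (left_ne_zero_of_mul h)
  omega

lemma gg_supp' {l : ℕ} (hl : 0 < l) {a x : ℤ × ℤ} (h : gg l a x ≠ 0) :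
    nrm (x - ctr l a) ≤ 3 * l := by
  have := gg_supp l hl a x h
  omega

lemma ka_ne {R l : ℕ} (hl : 0 < l) {ι : ℤ × ℤ → V} {a : ℤ × ℤ} {v w : V}
    (h : ka R l ι a v w ≠ 0) : ∃ x, nrm x < R ∧ ι x = v ∧ nrm (x - ctr l a) ≤ 3 * l := by
  rcases tr_cases R ι v with ⟨x, hx, e, h1⟩ | h1
  · refine ⟨x, hx, e, ?_⟩
    by_contra hcon
    apply h
    have a1 : gg l a x = 0 := by
      by_contra h2
      exact hcon (gg_supp' hl h2)
    have a2 : gp l a x = 0 := by
      by_contra h2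
      exact hcon (gp_supp l hl a x h2)
    have a3 : hp R l a x = 0 := by
      by_contra h2
      exact hcon (hp_supp hl h2)
    have a4 : hh R l a x = 0 := by
      by_contra h2
      exact hcon (hh_supp hl h2)
    unfold ka k0
    rw [h1, h1, h1, h1, a1, a2, a3, a4]
    ring
  · exfalso
    apply h
    unfold ka k0
    rw [h1, h1, h1, h1]
    ring

/-- neighbours in the box are lattice neighbours -/
lemma nb_lattice {N : Net V} {β : ℝ} {R : ℕ} {ι : ℤ × ℤ → V} (hE : Emb N β R ι) {x : ℤ × ℤ}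
    (hx : nrm x + 1 < R) {w : V} (h : N.B (ι x) w ≠ 0) :
    ∃ z, adj x z ∧ ι z = w ∧ nrm z ≤ nrm x + 1 ∧ nrm z < R ∧ N.B (ι x) w = β := by
  obtain ⟨z, hz, e⟩ := hE.enadj x w hx h
  have h1 := J11.adj_nrm hz
  have h2 := J11.nrm_tri z x
  rw [J11.nrm_comm] at h2
  refine ⟨z, hz, e, by omega, by omega, ?_⟩
  rw [← e]
  exact hE.eadj x z hx hz

lemma adj_comm {x z : ℤ × ℤ} (h : adj x z) : adj z x := by
  unfold adj at h ⊢
  rw [abs_sub_comm, abs_sub_comm z.2]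
  exact h

/-- the four neighbours -/
def nb4 (u : ℤ × ℤ) : Finset (ℤ × ℤ) :=
  {(u.1 + 1, u.2), (u.1 - 1, u.2), (u.1, u.2 + 1), (u.1, u.2 - 1)}

lemma mem_nb4 {u z : ℤ × ℤ} (h : adj u z) : z ∈ nb4 u := by
  obtain ⟨a, b⟩ := u
  obtain ⟨c, d⟩ := z
  unfold adj at h
  simp only at h
  unfold nb4
  simp only [Finset.mem_insert, Finset.mem_singleton, Prod.mk.injEq]
  rcases abs_cases (a - c) with ⟨h1, h2⟩ | ⟨h1, h2⟩ <;>
    rcases abs_cases (b - d) with ⟨h3, h4⟩ | ⟨h3, h4⟩ <;> rw [h1, h3] at h <;> omega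

lemma nb4_adj {u z : ℤ × ℤ} (h : z ∈ nb4 u) : adj u z := by
  obtain ⟨a, b⟩ := u
  obtain ⟨c, d⟩ := z
  unfold nb4 at h
  simp only [Finset.mem_insert, Finset.mem_singleton, Prod.mk.injEq] at h
  unfold adj
  simp only
  rcases abs_cases (a - c) with ⟨h1, h2⟩ | ⟨h1, h2⟩ <;>
    rcases abs_cases (b - d) with ⟨h3, h4⟩ | ⟨h3, h4⟩ <;> rw [h1, h3] <;> omega

lemma card_nb4 (u : ℤ × ℤ) : (nb4 u).card ≤ 4 := by
  unfold nb4
  exact Finset.card_le_four

/-- sums over the neighbours -/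
lemma sum_nb {N : Net V} {β : ℝ} (hβ : 0 < β) {R : ℕ} {ι : ℤ × ℤ → V} (hE : Emb N β R ι)
    {x : ℤ × ℤ} (hx : nrm x + 1 < R) (F : V → ℝ) (c : ℝ)
    (hc : ∀ z, adj x z → nrm z < R → F (ι z) ≤ c) (hc0 : 0 ≤ c) :
    ∑ w, N.B (ι x) w * F w ≤ 4 * β * c := by
  classical
  have h1 : ∑ w, N.B (ι x) w * F w = ∑ w ∈ (nb4 x).image ι, N.B (ι x) w * F w := by
    symm
    refine Finset.sum_subset (Finset.subset_univ _) fun w _ hw => ?_
    by_cases h : N.B (ι x) w = 0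
    · rw [h, zero_mul]
    · exfalso
      obtain ⟨z, hz, e, -⟩ := nb_lattice hE hx h
      exact hw (Finset.mem_image.2 ⟨z, mem_nb4 hz, e⟩)
  rw [h1]
  have h2 : ∀ w ∈ (nb4 x).image ι, N.B (ι x) w * F w ≤ β * c := by
    intro w hw
    obtain ⟨z, hz, rfl⟩ := Finset.mem_image.1 hw
    have hz' := nb4_adj hz
    rw [hE.eadj x z hx hz']
    refine mul_le_mul_of_nonneg_left (hc z hz' ?_) hβ.le
    have h3 := J11.adj_nrm hz'
    have h4 := J11.nrm_tri z x
    rw [J11.nrm_comm] at h4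
    omega
  refine (Finset.sum_le_card_nsmul _ _ _ h2).trans ?_
  rw [nsmul_eq_mul]
  have h5 : (((nb4 x).image ι).card : ℝ) ≤ 4 := by
    exact_mod_cast Finset.card_image_le.trans (card_nb4 x)
  have h6 : 0 ≤ β * c := mul_nonneg hβ.le hc0
  nlinarith

lemma mem_bx {c x : ℤ × ℤ} {r : ℕ} : x ∈ bx c r ↔ nrm (x - c) ≤ r := by
  unfold bx
  rw [Finset.mem_product, Finset.mem_Icc, Finset.mem_Icc, J11.nrm_le, abs_le, abs_le]
  simp only [Prod.fst_sub, Prod.snd_sub]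
  constructor
  · rintro ⟨⟨h1, h2⟩, h3, h4⟩
    exact ⟨⟨by omega, by omega⟩, by omega, by omega⟩
  · rintro ⟨⟨h1, h2⟩, h3, h4⟩
    exact ⟨⟨by omega, by omega⟩, by omega, by omega⟩

lemma card_bx (c : ℤ × ℤ) (r : ℕ) : (bx c r).card = (2 * r + 1) ^ 2 := by
  unfold bx
  rw [Finset.card_product, Int.card_Icc, Int.card_Icc]
  have h : ∀ u : ℤ, (u + r + 1 - (u - r)).toNat = 2 * r + 1 := fun u => by omega
  rw [h, h]
  ring

/-- cut-off functions of a cell -/
lemma cut_tr {N : Net V} {β : ℝ} {R : ℕ} {ι : ℤ × ℤ → V} (hE : Emb N β R ι) {l : ℕ}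
    (hl : 16 ≤ l) (hR : 32 * l ≤ R) {a : ℤ × ℤ} (ha : a ∈ AA R l) (G : ℤ × ℤ → ℝ)
    (h1 : ∀ x, |G x| ≤ 1) (hs : ∀ x, G x ≠ 0 → nrm (x - ctr l a) ≤ 3 * l)
    (hL : ∀ x z, adj x z → |G x - G z| ≤ 1 / l) :
    Cut N (Kc ι l a) (1 / l) (tr R ι G) := by
  have hl0 : 0 < l := by omega
  -- a point where `G ≠ 0`
  have key : ∀ v, tr R ι G v ≠ 0 → ∃ x, ι x = v ∧ nrm x + 1 < R ∧ nrm (x - ctr l a) ≤ 3 * l ∧
      tr R ι G v = G x := by
    intro v hv
    obtain ⟨x, hx, e, hG⟩ := tr_ne hv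
    have h2 := hs x hG
    have h3 := AA_bd R l hl0 hR a ha x (by omega)
    refine ⟨x, e, by omega, h2, ?_⟩
    rw [← e, tr_apply hE G hx]
  have lip1 : ∀ v w, tr R ι G v ≠ 0 → N.B v w ≠ 0 → |tr R ι G v - tr R ι G w| ≤ 1 / l := by
    intro v w hv hB
    obtain ⟨x, e, hx, -, e'⟩ := key v hv
    rw [← e] at hB
    obtain ⟨z, hz, ez, -, hzR, -⟩ := nb_lattice hE hx hB
    rw [e', ← ez, tr_apply hE G hzR]
    exact hL x z hz
  refine ⟨fun v => ?_, fun v hv => ?_, fun v w hB => ?_⟩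
  · rcases tr_cases R ι v with ⟨x, hx, e, h⟩ | h
    · rw [h]
      exact h1 x
    · rw [h, abs_zero]
      norm_num
  · obtain ⟨x, e, hx, hxa, -⟩ := key v hv
    refine ⟨?_, ?_, fun w hB => ?_⟩
    · rw [← e]
      refine Finset.mem_image.2 ⟨x, mem_bx.2 ?_, rfl⟩
      push_cast
      omega
    · rw [← e]
      exact hE.root x hx
    · rw [← e] at hB
      obtain ⟨z, hz, ez, -, hzR, -⟩ := nb_lattice hE hx hB
      rw [← ez]
      refine Finset.mem_image.2 ⟨z, mem_bx.2 ?_, rfl⟩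
      have h3 := J11.adj_nrm hz
      have h4 := J11.nrm_tri (z - ctr l a) (x - ctr l a)
      have e5 : z - ctr l a - (x - ctr l a) = z - x := by abel
      rw [e5, J11.nrm_comm z x] at h4
      push_cast
      omega
  · by_cases hv : tr R ι G v = 0
    · by_cases hw : tr R ι G w = 0
      · rw [hv, hw, sub_zero, abs_zero]
        positivity
      · rw [abs_sub_comm]
        refine lip1 w v hw ?_
        rw [N.symm]
        exact hB
    · exact lip1 v w hv hB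

/-- the weights inside a cell -/
lemma sum_B {N : Net V} {β : ℝ} (hβ : 0 < β) {R : ℕ} {ι : ℤ × ℤ → V} (hE : Emb N β R ι) {l : ℕ}
    (hl : 16 ≤ l) (hR : 32 * l ≤ R) {a : ℤ × ℤ} (ha : a ∈ AA R l) (v : V) (hv : v ∈ Kc ι l a) :
    ∑ w ∈ Kc ι l a, N.B v w ≤ 4 * β := by
  obtain ⟨x, hx, rfl⟩ := Finset.mem_image.1 hv
  rw [mem_bx] at hx
  push_cast at hx
  have h3 := AA_bd R l (by omega) hR a ha x hx
  have hx1 : nrm x + 1 < R := by omega
  have h1 := sum_nb hβ hE hx1 (fun _ => 1) 1 (fun _ _ _ => le_rfl)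
    zero_le_one
  simp only [mul_one] at h1
  refine le_trans ?_ h1
  exact Finset.sum_le_sum_of_subset_of_nonneg (Finset.subset_univ _) fun w _ _ => N.nn _ _

lemma card_Kc {ι : ℤ × ℤ → V} {l : ℕ} (hl : 16 ≤ l) (a : ℤ × ℤ) :
    (1 / (l : ℝ)) ^ 2 * (Kc ι l a).card ≤ 81 := by
  have h1 : (Kc ι l a).card ≤ (8 * l + 1) ^ 2 := by
    unfold Kc
    refine Finset.card_image_le.trans ?_
    rw [card_bx]
    exact le_of_eq (by ring)
  have h2 : (8 * l + 1) ^ 2 ≤ 81 * l ^ 2 := by nlinarith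
  have h3 : ((Kc ι l a).card : ℝ) ≤ 81 * (l : ℝ) ^ 2 := by exact_mod_cast h1.trans h2
  have hl' : (0 : ℝ) < l := by
    have : 0 < l := by omega
    exact_mod_cast this
  rw [div_pow, one_pow, one_div, inv_mul_le_iff₀ (by positivity)]
  linarith

lemma Kc_nonempty (ι : ℤ × ℤ → V) (l : ℕ) (a : ℤ × ℤ) : (Kc ι l a).Nonempty := by
  refine ⟨ι (ctr l a), Finset.mem_image.2 ⟨ctr l a, mem_bx.2 ?_, rfl⟩⟩
  rw [sub_self]
  unfold nrm
  simp

lemma const_bd (β : ℝ) : 4 * (1094 + 9 * (81 : ℝ) ^ 2 * (1 + (4 * β) ^ 2)) +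
    8 * (108 + 9 / 4 * (81 * (4 * β)) ^ 2) ≤ 6000000 * DD β := by
  unfold DD
  nlinarith [sq_nonneg β]

lemma TT_nonneg (N : Net V) (K : Finset V) (p : Pt V) : 0 ≤ TT N K p := by
  have hP := Ps_nonneg K p
  have hW := WW_nonneg K p
  unfold TT
  positivity

/-- the bracket of two cut-off functions of a cell -/
lemma br_cell {N : Net V} (hN : N.Conn) (m : V → ℝ) {β : ℝ} (hβ : 0 < β) {R : ℕ}
    {ι : ℤ × ℤ → V} (hE : Emb N β R ι) {l : ℕ}
    (hl : 16 ≤ l) (hR : 32 * l ≤ R) {a : ℤ × ℤ} (ha : a ∈ AA R l) (G H : ℤ × ℤ → ℝ)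
    (hG1 : ∀ x, |G x| ≤ 1) (hGs : ∀ x, G x ≠ 0 → nrm (x - ctr l a) ≤ 3 * l)
    (hGL : ∀ x z, adj x z → |G x - G z| ≤ 1 / l)
    (hH1 : ∀ x, |H x| ≤ 16 * l / R) (hHs : ∀ x, H x ≠ 0 → nrm (x - ctr l a) ≤ 3 * l)
    (hHL : ∀ x z, adj x z → |H x - H z| ≤ 16 / R) :
    EE N m (fun p => br N m (tr R ι G) (tr R ι H) p ^ 2) ≤
      256 * ((l : ℝ) / R) ^ 2 * (6000000 * DD β * EE N m (TT N (Kc ι l a))) := by
  have hl' : (0 : ℝ) < l := by
    have : 0 < l := by omega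
    exact_mod_cast this
  have hR' : (0 : ℝ) < R := by
    have : 0 < R := by omega
    exact_mod_cast this
  set c : ℝ := 16 * l / R with hc
  have hc0 : 0 < c := by positivity
  have cG := cut_tr hE hl hR ha G hG1 hGs hGL
  have cH := cut_tr hE hl hR ha (fun x => c⁻¹ * H x) (fun x => by
      rw [abs_mul, abs_of_pos (inv_pos.2 hc0), inv_mul_le_iff₀ hc0, mul_one]
      exact hH1 x)
    (fun x hx => hHs x (right_ne_zero_of_mul hx)) (fun x z h => by
      rw [← mul_sub, abs_mul, abs_of_pos (inv_pos.2 hc0), inv_mul_le_iff₀ hc0]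
      refine (hHL x z h).trans (le_of_eq ?_)
      rw [hc]
      field_simp)
  have h1 := cell_br N hN m (Kc ι l a) (1 / l) 81 (4 * β) _ _ cG cH (card_Kc hl a)
    (fun v hv => sum_B hβ hE hl hR ha v hv) (Kc_nonempty ι l a)
  have e1 : tr R ι H = fun v => c * tr R ι (fun x => c⁻¹ * H x) v := by
    funext v
    rcases tr_cases R ι v with ⟨x, hx, e, h⟩ | h
    · rw [h, h, ← mul_assoc, mul_inv_cancel₀ hc0.ne', one_mul]
    · rw [h, h, mul_zero]
  have e2 : (fun p => br N m (tr R ι G) (tr R ι H) p ^ 2) =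
      fun p => c ^ 2 * br N m (tr R ι G) (tr R ι (fun x => c⁻¹ * H x)) p ^ 2 := by
    funext p
    have e3 : br N m (tr R ι G) (tr R ι H) p =
        c * br N m (tr R ι G) (tr R ι (fun x => c⁻¹ * H x)) p := by
      rw [e1]
      unfold br
      rw [sA_eq, sA_eq, sA_eq, sN_eq, sN_eq, sN_eq]
      have a1 : ∑ x, (c * tr R ι (fun x => c⁻¹ * H x) x) * fa N m x p =
          c * ∑ x, tr R ι (fun x => c⁻¹ * H x) x * fa N m x p := by
        rw [Finset.mul_sum]
        refine Finset.sum_congr rfl fun x _ => ?_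
        ring
      have a2 : ∑ x, (c * tr R ι (fun x => c⁻¹ * H x) x) * fb N x p =
          c * ∑ x, tr R ι (fun x => c⁻¹ * H x) x * fb N x p := by
        rw [Finset.mul_sum]
        refine Finset.sum_congr rfl fun x _ => ?_
        ring
      simp only [a1, a2]
      ring
    rw [e3]
    ring
  rw [e2, EE_const_mul]
  have h2 : EE N m (fun p => br N m (tr R ι G) (tr R ι (fun x => c⁻¹ * H x)) p ^ 2) ≤
      6000000 * DD β * EE N m (TT N (Kc ι l a)) :=
    h1.trans (mul_le_mul_of_nonneg_right (const_bd β) (EE_nonneg N m fun p => TT_nonneg _ _ _))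
  have e4 : c ^ 2 = 256 * ((l : ℝ) / R) ^ 2 := by
    rw [hc]
    ring
  rw [e4]
  exact mul_le_mul_of_nonneg_left h2 (by positivity)

/-- the second moment for one cell -/
lemma UU_cell {N : Net V} (hN : N.Conn) (m : V → ℝ) {β : ℝ} (hβ : 0 < β) {R : ℕ}
    {ι : ℤ × ℤ → V} (hE : Emb N β R ι) {l : ℕ}
    (hl : 16 ≤ l) (hR : 32 * l ≤ R) {a : ℤ × ℤ} (ha : a ∈ AA R l) :
    EE N m (fun p => UU N m (ka R l ι a) p ^ 2) ≤
      256 * ((l : ℝ) / R) ^ 2 * (6000000 * DD β * EE N m (TT N (Kc ι l a))) := by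
  have hl0 : 0 < l := by omega
  have hR0 : 0 < R := by omega
  have hadj : ∀ x : ℤ × ℤ, adj x (x.1 + 1, x.2) := fun x => nb4_adj (by
    unfold nb4
    simp)
  have h1 := br_cell hN m hβ hE hl hR ha (gg l a) (hp R l a)
    (fun x => (gg_bd l hl0 a x _ (hadj x)).1) (fun x hx => gg_supp' hl0 hx)
    (fun x z h => (gg_bd l hl0 a x z h).2.2.1)
    (fun x => (hh_bd R l hl0 hR0 a x _ (hadj x)).2.1) (fun x hx => hp_supp hl0 hx)
    (fun x z h => (hh_bd R l hl0 hR0 a x z h).2.2.2)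
  have h2 := br_cell hN m hβ hE hl hR ha (gp l a) (hh R l a)
    (fun x => (gg_bd l hl0 a x _ (hadj x)).2.1) (fun x hx => gp_supp l hl0 a x hx)
    (fun x z h => (gg_bd l hl0 a x z h).2.2.2)
    (fun x => (hh_bd R l hl0 hR0 a x _ (hadj x)).1) (fun x hx => hh_supp hl0 hx)
    (fun x z h => (hh_bd R l hl0 hR0 a x z h).2.2.1)
  have e1 : ∀ p, UU N m (ka R l ι a) p = (1 / 2) *
      (br N m (tr R ι (gg l a)) (tr R ι (hp R l a)) p +
        br N m (tr R ι (gp l a)) (tr R ι (hh R l a)) p) := by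
    intro p
    rw [← UU_k0, ← UU_k0]
    unfold UU ka
    rw [← Finset.sum_add_distrib, Finset.mul_sum]
    refine Finset.sum_congr rfl fun x _ => ?_
    rw [← Finset.sum_add_distrib, Finset.mul_sum]
    refine Finset.sum_congr rfl fun z _ => ?_
    ring
  have s1 := (Sm.br N m (tr R ι (gg l a)) (tr R ι (hp R l a))).pow 2
  have s2 := (Sm.br N m (tr R ι (gp l a)) (tr R ι (hh R l a))).pow 2
  have h3 : EE N m (fun p => UU N m (ka R l ι a) p ^ 2) ≤
      EE N m (fun p => (1 / 2) * (br N m (tr R ι (gg l a)) (tr R ι (hp R l a)) p ^ 2 +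
        br N m (tr R ι (gp l a)) (tr R ι (hh R l a)) p ^ 2)) := by
    refine EE_mono N hN m ((Sm.UU N m _).pow 2) ((s1.add s2).const_mul _) fun p => ?_
    rw [e1]
    nlinarith [sq_nonneg (br N m (tr R ι (gg l a)) (tr R ι (hp R l a)) p -
      br N m (tr R ι (gp l a)) (tr R ι (hh R l a)) p)]
  rw [EE_const_mul, EE_add N hN m s1 s2] at h3
  linarith

/-- the current is the score of the cut-off function -/
lemma JJ_eq {N : Net V} {β : ℝ} {R : ℕ} {ι : ℤ × ℤ → V} (hE : Emb N β R ι) {l : ℕ}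
    (hl : 16 ≤ l) (hR : 32 * l ≤ R) : JJ N (tk R ι (kk R l)) = sN N (tr R ι (ff R)) := by
  have hl0 : 0 < l := by omega
  have hR0 : 0 < R := by omega
  -- values of the kernel on edges near the box
  have val : ∀ x w, nrm x + 1 < R → N.B (ι x) w ≠ 0 →
      tk R ι (kk R l) (ι x) w = tr R ι (ff R) w - tr R ι (ff R) (ι x) := by
    intro x w hx hB
    obtain ⟨z, hz, e, -, hzR, -⟩ := nb_lattice hE hx hB
    have h1 := J11.adj_nrm hz
    rw [← e, tr_apply hE _ hzR, tr_apply hE _ (by omega : nrm x < R)]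
    unfold tk
    rw [tr_apply hE _ (by omega : nrm x < R), tr_apply hE _ hzR]
    exact kk_plateau R l hl0 hR x z (by omega)
  have anti : ∀ v w, tk R ι (kk R l) v w = - tk R ι (kk R l) w v := by
    intro v w
    rw [tk_decomp]
    simp only [← Finset.sum_neg_distrib]
    exact Finset.sum_congr rfl fun a _ => ka_anti R l ι a v w
  have fne : ∀ v, tr R ι (ff R) v ≠ 0 → ∃ x, ι x = v ∧ nrm x + 1 < R := by
    intro v hv
    obtain ⟨x, hx, e, hf⟩ := tr_ne hv
    refine ⟨x, e, ?_⟩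
    by_contra hcon
    exact hf (ff_zero R hR0 x (by omega))
  have key : ∀ v w, N.B v w ≠ 0 →
      tk R ι (kk R l) v w = tr R ι (ff R) w - tr R ι (ff R) v := by
    intro v w hB
    by_cases h1 : tr R ι (ff R) v = 0
    · by_cases h2 : tr R ι (ff R) w = 0
      · by_cases h3 : tk R ι (kk R l) v w = 0
        · rw [h1, h2, h3, sub_zero]
        · unfold tk at h3
          obtain ⟨x, hx, e, h4⟩ := tr_ne h3
          obtain ⟨z, hz, e', h5⟩ := tr_ne h4
          have h6 := kk_range R l hl0 hR x z h5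
          rw [← e]
          exact val x w (by omega) (by rw [e]; exact hB)
      · obtain ⟨x, e, hx⟩ := fne w h2
        rw [anti, ← e, val x v hx (by rw [e, N.symm]; exact hB)]
        ring
    · obtain ⟨x, e, hx⟩ := fne v h1
      rw [← e]
      exact val x w hx (by rw [e]; exact hB)
  funext p
  have e1 : JJ N (tk R ι (kk R l)) p = ∑ x, ∑ z, (tr R ι (ff R) z - tr R ι (ff R) x) *
      (N.B x z * (p.2 z * Real.exp (p.1 x))) := by
    unfold JJ
    refine Finset.sum_congr rfl fun x _ => Finset.sum_congr rfl fun z _ => ?_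
    by_cases hB : N.B x z = 0
    · rw [hB]
      ring
    · rw [key x z hB]
  have e2 : sN N (tr R ι (ff R)) p = ∑ x, ∑ z, tr R ι (ff R) x *
      (N.B x z * (p.2 x * Real.exp (p.1 z))) - ∑ x, ∑ z, tr R ι (ff R) x *
      (N.B x z * (p.2 z * Real.exp (p.1 x))) := by
    unfold sN
    rw [← Finset.sum_sub_distrib]
    refine Finset.sum_congr rfl fun x _ => ?_
    have h1 : tr R ι (ff R) x * (N.r x * p.2 x) = 0 := by
      by_cases h : tr R ι (ff R) x = 0
      · rw [h, zero_mul]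
      · obtain ⟨u, e, hu⟩ := fne x h
        rw [← e, hE.root u hu]
        ring
    rw [mul_add, h1, add_zero, Finset.mul_sum, ← Finset.sum_sub_distrib]
    refine Finset.sum_congr rfl fun z _ => ?_
    ring
  have e3 : ∑ x, ∑ z, tr R ι (ff R) x * (N.B x z * (p.2 x * Real.exp (p.1 z))) =
      ∑ x, ∑ z, tr R ι (ff R) z * (N.B x z * (p.2 z * Real.exp (p.1 x))) := by
    rw [Finset.sum_comm]
    refine Finset.sum_congr rfl fun x _ => Finset.sum_congr rfl fun z _ => ?_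
    rw [N.symm]
  rw [e1, e2, e3, ← Finset.sum_sub_distrib]
  refine Finset.sum_congr rfl fun x _ => ?_
  rw [← Finset.sum_sub_distrib]
  refine Finset.sum_congr rfl fun z _ => ?_
  ring

/-- the second moment of the score of the cut-off function -/
lemma sN_sq {N : Net V} (hN : N.Conn) (m : V → ℝ) {β : ℝ} (hβ : 0 < β) {R : ℕ}
    {ι : ℤ × ℤ → V} (hE : Emb N β R ι) (hR : 512 ≤ R) :
    EE N m (fun p => sN N (tr R ι (ff R)) p ^ 2) ≤
      32 * β * (1 / (R : ℝ) ^ 2 * EE N m (fun p => ∑ x ∈ bx 0 (3 * R / 4),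
        Real.exp (p.1 (ι x)) ^ 2)) := by
  have hR0 : 0 < R := by omega
  have hR' : (0 : ℝ) < R := by exact_mod_cast hR0
  set f := tr R ι (ff R) with hf
  have fne : ∀ v, f v ≠ 0 → ∃ x, ι x = v ∧ 2 * nrm x < R := by
    intro v hv
    obtain ⟨x, hx, e, hf⟩ := tr_ne hv
    refine ⟨x, e, ?_⟩
    by_contra hcon
    exact hf (ff_zero R hR0 x (by omega))
  have hfr : ∀ v, f v * N.r v = 0 := by
    intro v
    by_cases h : f v = 0
    · rw [h, zero_mul]
    · obtain ⟨u, e, hu⟩ := fne v h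
      rw [← e, hE.root u (by omega), mul_zero]
  have e0 : (fun p : Pt V => sN N f p ^ 2) = fun p => sN N f p * sN N f p := by
    funext p
    ring
  rw [e0, ibN N hN m f (Sm.sN N f) (fun p => Dv.sN N f p (dN f p))]
  have e1 : ∀ p : Pt V, ∑ z, f z * (∑ w, N.B z w * ((dN f p).2 z * Real.exp (p.1 w) +
        p.2 z * (Real.exp (p.1 w) * (dN f p).1 w) - ((dN f p).2 w * Real.exp (p.1 z) +
        p.2 w * (Real.exp (p.1 z) * (dN f p).1 z))) + N.r z * (dN f p).2 z) =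
      (1 / 2) * ∑ x, ∑ z, N.B x z * ((f x - f z) ^ 2 * (Real.exp (p.1 x) * Real.exp (p.1 z))) := by
    intro p
    have a1 : ∑ z, f z * (∑ w, N.B z w * ((dN f p).2 z * Real.exp (p.1 w) +
        p.2 z * (Real.exp (p.1 w) * (dN f p).1 w) - ((dN f p).2 w * Real.exp (p.1 z) +
        p.2 w * (Real.exp (p.1 z) * (dN f p).1 z))) + N.r z * (dN f p).2 z) =
        ∑ x, ∑ z, N.B x z * (f x * (f x - f z) * (Real.exp (p.1 x) * Real.exp (p.1 z))) := by
      refine Finset.sum_congr rfl fun z _ => ?_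
      have a2 : f z * (N.r z * (dN f p).2 z) = 0 := by
        rw [← mul_assoc, hfr, zero_mul]
      rw [mul_add, a2, add_zero, Finset.mul_sum]
      refine Finset.sum_congr rfl fun w _ => ?_
      simp only [dN_fst, dN_snd]
      ring
    rw [a1, sum_symm]
    congr 1
    refine Finset.sum_congr rfl fun x _ => Finset.sum_congr rfl fun z _ => ?_
    ring
  simp only [e1]
  -- pointwise bound
  have h1 : ∀ p : Pt V, (1 / 2) * ∑ x, ∑ z, N.B x z * ((f x - f z) ^ 2 *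
      (Real.exp (p.1 x) * Real.exp (p.1 z))) ≤
      (32 * β * (1 / (R : ℝ) ^ 2)) * ∑ x ∈ bx 0 (3 * R / 4), Real.exp (p.1 (ι x)) ^ 2 := by
    intro p
    have b1 : ∑ x, ∑ z, N.B x z * ((f x - f z) ^ 2 * (Real.exp (p.1 x) * Real.exp (p.1 z))) ≤
        ∑ x, ∑ z, N.B x z * ((f x - f z) ^ 2 * Real.exp (p.1 x) ^ 2) := by
      rw [sum_symm N (fun x z => (f x - f z) ^ 2 * Real.exp (p.1 x) ^ 2), Finset.mul_sum]
      refine Finset.sum_le_sum fun x _ => ?_
      rw [Finset.mul_sum]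
      refine Finset.sum_le_sum fun z _ => ?_
      have b2 : (f x - f z) ^ 2 * (Real.exp (p.1 x) * Real.exp (p.1 z)) ≤
          (1 / 2) * ((f x - f z) ^ 2 * Real.exp (p.1 x) ^ 2 +
            (f z - f x) ^ 2 * Real.exp (p.1 z) ^ 2) := by
        have b3 : 0 ≤ (f x - f z) ^ 2 * (Real.exp (p.1 x) - Real.exp (p.1 z)) ^ 2 := by positivity
        nlinarith
      have b4 := mul_le_mul_of_nonneg_left b2 (N.nn x z)
      linarith
    have b5 : ∑ x, ∑ z, N.B x z * ((f x - f z) ^ 2 * Real.exp (p.1 x) ^ 2) =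
        ∑ x ∈ (bx 0 (3 * R / 4)).image ι, (∑ z, N.B x z * (f x - f z) ^ 2) *
          Real.exp (p.1 x) ^ 2 := by
      symm
      rw [← Finset.sum_subset (Finset.subset_univ ((bx 0 (3 * R / 4)).image ι))]
      · refine Finset.sum_congr rfl fun x _ => ?_
        rw [Finset.sum_mul]
        refine Finset.sum_congr rfl fun z _ => ?_
        ring
      · intro x _ hx
        refine Finset.sum_eq_zero fun z _ => ?_
        by_cases hB : N.B x z = 0
        · rw [hB, zero_mul]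
        · have c1 : f x = 0 := by
            by_contra h
            obtain ⟨u, e, hu⟩ := fne x h
            refine hx (Finset.mem_image.2 ⟨u, mem_bx.2 ?_, e⟩)
            rw [sub_zero]
            omega
          have c2 : f z = 0 := by
            by_contra h
            obtain ⟨u, e, hu⟩ := fne z h
            rw [N.symm, ← e] at hB
            obtain ⟨y, hy, ey, hy1, -⟩ := nb_lattice hE (by omega : nrm u + 1 < R) hB
            refine hx (Finset.mem_image.2 ⟨y, mem_bx.2 ?_, ey⟩)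
            rw [sub_zero]
            omega
          rw [c1, c2]
          ring
    have b6 : ∀ x ∈ (bx 0 (3 * R / 4)).image ι, (∑ z, N.B x z * (f x - f z) ^ 2) *
          Real.exp (p.1 x) ^ 2 ≤ (4 * β * (4 / R) ^ 2) * Real.exp (p.1 x) ^ 2 := by
      intro x hx
      obtain ⟨u, hu, rfl⟩ := Finset.mem_image.1 hx
      rw [mem_bx, sub_zero] at hu
      refine mul_le_mul_of_nonneg_right ?_ (by positivity)
      refine sum_nb hβ hE (by omega : nrm u + 1 < R) (fun z => (f (ι u) - f z) ^ 2) _ (fun z hz hzR => ?_) (by positivity)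
      rw [hf, tr_apply hE _ (by omega : nrm u < R), tr_apply hE _ hzR, ← sq_abs]
      refine pow_le_pow_left₀ (abs_nonneg _) ?_ 2
      refine (ff_lip R hR0 u z).trans ?_
      have c3 : (nrm (u - z) : ℝ) ≤ 1 := by exact_mod_cast J11.adj_nrm hz
      calc 4 * (nrm (u - z) : ℝ) / R ≤ 4 * 1 / R := by gcongr
        _ = 4 / R := by ring
    have b7 := Finset.sum_le_sum b6
    rw [← Finset.mul_sum] at b7
    have b8 : ∑ x ∈ (bx 0 (3 * R / 4)).image ι, Real.exp (p.1 x) ^ 2 =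
        ∑ x ∈ bx 0 (3 * R / 4), Real.exp (p.1 (ι x)) ^ 2 := by
      refine Finset.sum_image fun x hx z hz e => ?_
      rw [Finset.mem_coe, mem_bx, sub_zero] at hx hz
      exact hE.inj x z (by omega) (by omega) e
    rw [b8] at b7
    rw [b5] at b1
    have b9 : (1 / 2 : ℝ) * ((4 * β * (4 / R) ^ 2) * ∑ x ∈ bx 0 (3 * R / 4),
        Real.exp (p.1 (ι x)) ^ 2) = (32 * β * (1 / (R : ℝ) ^ 2)) *
        ∑ x ∈ bx 0 (3 * R / 4), Real.exp (p.1 (ι x)) ^ 2 := by
      field_simp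
      ring
    linarith
  have s1 : Sm (fun p : Pt V => (1 / 2) * ∑ x, ∑ z, N.B x z * ((f x - f z) ^ 2 *
      (Real.exp (p.1 x) * Real.exp (p.1 z)))) :=
    (Sm.sum _ fun x _ => Sm.sum _ fun z _ =>
      ((((Sm.exp x).mul (Sm.exp z)).const_mul _).const_mul _)).const_mul _
  have s2 : Sm (fun p : Pt V => ∑ x ∈ bx 0 (3 * R / 4), Real.exp (p.1 (ι x)) ^ 2) :=
    Sm.sum _ fun x _ => (Sm.exp (ι x)).pow 2
  have h2 := EE_mono N hN m s1 (s2.const_mul (32 * β * (1 / (R : ℝ) ^ 2))) h1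
  rw [EE_const_mul N m (32 * β * (1 / (R : ℝ) ^ 2))] at h2
  rw [← mul_assoc]
  exact h2

end

end K5b

theorem scale_bound : ∃ C : ℝ, 0 < C ∧
    ∀ (β : ℝ) (_ : 0 < β) (V : Type) [Fintype V] [DecidableEq V] (N : Net V) (_ : N.Conn)
      (m : V → ℝ) (R : ℕ) (ι : ℤ × ℤ → V) (_ : Emb N β R ι) (l : ℕ) (_ : 16 ≤ l)
      (_ : 32 * l ≤ R),
    EE N m (fun p => UU N m (tk R ι (kk R l)) p ^ 2) ≤
      C * DD β * EE N m (fun p => ((l : ℝ) / R) ^ 2 * ∑ a ∈ AA R l, TT N (Kc ι l a) p +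
        1 / (R : ℝ) ^ 2 * ∑ x ∈ bx 0 (3 * R / 4), Real.exp (p.1 (ι x)) ^ 2) := by
  refine ⟨1250 * (256 * 6000000), by norm_num, ?_⟩
  intro β hβ V _ _ N hN m R ι hE l hl hR
  have hl0 : 0 < l := by omega
  have hR0 : 0 < R := by omega
  have h1 := UU_sum_sq N hN m (AA R l) (K5b.ka R l ι) (K5b.ka_anti R l ι)
    (fun a b => nrm (ctr l b - ctr l a) ≤ 12 * (l : ℤ))
    (fun a b h => by
      show nrm (ctr l a - ctr l b) ≤ 12 * (l : ℤ)
      rw [J11.nrm_comm]
      exact h)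
    (fun a ha b hb hnear x z x' z' hk hk' hNb => by
      apply hnear
      obtain ⟨u, hu, eu, hua⟩ := K5b.ka_ne hl0 hk
      obtain ⟨u', hu', eu', hub⟩ := K5b.ka_ne hl0 hk'
      have hu3 := AA_bd R l hl0 hR a ha u (by omega)
      have h1 : nrm (u - u') ≤ 1 := by
        rcases hNb with h | h
        · rw [← eu, ← eu'] at h
          rw [hE.inj u u' hu hu' h, sub_self]
          unfold nrm
          simp
        · rw [← eu] at h
          obtain ⟨y, hy, ey, -, hyR, -⟩ := K5b.nb_lattice hE (by omega : nrm u + 1 < R) h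
          rw [← eu'] at ey
          rw [← hE.inj y u' hyR hu' ey]
          exact J11.adj_nrm hy
      have h2 := J11.nrm_tri (ctr l b - ctr l a) (u - ctr l a)
      have e2 : ctr l b - ctr l a - (u - ctr l a) = ctr l b - u := by abel
      rw [e2] at h2
      have h3 := J11.nrm_tri (ctr l b - u) (ctr l b - u')
      have e3 : ctr l b - u - (ctr l b - u') = u' - u := by abel
      rw [e3, J11.nrm_comm u' u] at h3
      rw [J11.nrm_comm (ctr l b) u'] at h3
      omega)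
    625 (fun a _ => AA_card' R l hl0 a)
  rw [← K5b.tk_decomp] at h1
  have hJ : EE N m (fun p => JJ N (tk R ι (kk R l)) p ^ 2) ≤
      32 * β * (1 / (R : ℝ) ^ 2 * EE N m (fun p => ∑ x ∈ bx 0 (3 * R / 4),
        Real.exp (p.1 (ι x)) ^ 2)) := by
    rw [K5b.JJ_eq hE hl hR]
    exact K5b.sN_sq hN m hβ hE (by omega)
  have hU := Finset.sum_le_sum fun a ha => K5b.UU_cell hN m hβ hE hl hR ha
  rw [← Finset.mul_sum, ← Finset.mul_sum] at hU
  have sT : ∀ a ∈ AA R l, Sm (TT N (Kc ι l a)) := fun a _ => Sm.TT N (Kc ι l a)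
  have s1 : Sm (fun p : Pt V => ∑ a ∈ AA R l, TT N (Kc ι l a) p) := Sm.sum _ sT
  have s2 : Sm (fun p : Pt V => ∑ x ∈ bx 0 (3 * R / 4), Real.exp (p.1 (ι x)) ^ 2) :=
    Sm.sum _ fun x _ => (Sm.exp (ι x)).pow 2
  rw [EE_add N hN m (s1.const_mul _) (s2.const_mul _), EE_const_mul, EE_const_mul,
    EE_sum N hN m _ sT]
  set T := ∑ a ∈ AA R l, EE N m (TT N (Kc ι l a)) with hT
  set Q := EE N m (fun p => ∑ x ∈ bx 0 (3 * R / 4), Real.exp (p.1 (ι x)) ^ 2) with hQ
  have hT0 : 0 ≤ T := Finset.sum_nonneg fun a _ => EE_nonneg N m fun p => K5b.TT_nonneg _ _ _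
  have hQ0 : 0 ≤ Q := EE_nonneg N m fun p => Finset.sum_nonneg fun x _ => by positivity
  have hD : 1 ≤ DD β := one_le_DD β
  have hβD : β ≤ DD β := by
    unfold DD
    nlinarith [sq_nonneg (β - 1)]
  have hR' : 0 ≤ 1 / (R : ℝ) ^ 2 * Q := by positivity
  have h3 : 32 * β * (1 / (R : ℝ) ^ 2 * Q) ≤
      1250 * (256 * 6000000) * DD β * (1 / (R : ℝ) ^ 2 * Q) := by
    refine mul_le_mul_of_nonneg_right ?_ hR'
    nlinarith
  have h4 : 2 * ((625 : ℕ) : ℝ) * (256 * ((l : ℝ) / R) ^ 2 * (6000000 * DD β * T)) =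
      1250 * (256 * 6000000) * DD β * (((l : ℝ) / R) ^ 2 * T) := by
    push_cast
    ring
  have h5 := mul_le_mul_of_nonneg_left hU (by positivity : (0 : ℝ) ≤ 2 * ((625 : ℕ) : ℝ))
  rw [h4] at h5
  rw [mul_add]
  exact h1.trans (add_le_add h5 (hJ.trans h3))

end Pool.Agent.TH369.AG
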