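import Pool.Agent.TH369.AG.Defs6
import Pool.Agent.TH369.AG.J11
import Pool.Agent.TH369.AG.K2
import Pool.Agent.TH369.AG.K3
import Pool.Agent.TH369.AG.K5a
import Pool.Agent.TH369.AG.K5b

/-!
# The inequality for one density on the lattice
-/

set_option autoImplicit false

namespace Pool.Agent.TH369.AG

open MeasureTheory Matrix

namespace K5c

variable {V : Type}

theorem tr_apply {R : ℕ} {ι : ℤ × ℤ → V}
    (inj : ∀ x z, nrm x < R → nrm z < R → ι x = ι z → x = z) (F : ℤ × ℤ → ℝ) {x : ℤ × ℤ}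
    (hx : nrm x < R) : tr R ι F (ι x) = F x := by
  classical
  unfold tr
  have h : ∃ y, nrm y < R ∧ ι y = ι x := ⟨x, hx, rfl⟩
  rw [dif_pos h]
  have := inj _ _ h.choose_spec.1 hx h.choose_spec.2
  rw [this]

theorem mem_bx {x : ℤ × ℤ} {r : ℕ} : x ∈ bx 0 r ↔ nrm x ≤ r := by
  unfold bx
  rw [J11.nrm_le, Finset.mem_product, Finset.mem_Icc, Finset.mem_Icc, abs_le, abs_le]
  simp

theorem nrm_adj {x z : ℤ × ℤ} (h : adj x z) : nrm z ≤ nrm x + 1 := by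
  unfold adj at h
  have h1 := J11.nrm_le.1 (le_refl (nrm x))
  rw [J11.nrm_le]
  have a1 := abs_nonneg (x.1 - z.1)
  have a2 := abs_nonneg (x.2 - z.2)
  have b1 : |x.1 - z.1| ≤ 1 := by omega
  have b2 : |x.2 - z.2| ≤ 1 := by omega
  rw [abs_le] at b1 b2 h1 ⊢
  rw [abs_le] at h1 ⊢
  obtain ⟨c1, c2⟩ := h1
  refine ⟨⟨by omega, by omega⟩, ⟨by omega, by omega⟩⟩

end K5c

theorem one_density : ∃ C : ℝ, 0 < C ∧
    ∀ (β : ℝ) (_ : 0 < β) (V : Type) [Fintype V] [DecidableEq V] (N : Net V) (_ : N.Conn)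
      (m : V → ℝ) (R : ℕ) (ι : ℤ × ℤ → V) (_ : Emb N β R ι) (n : ℕ) (_ : 32 * 16 ^ n ≤ R),
    (n : ℝ) ^ 2 * (∑ q ∈ bx 0 (R / 4), EE N m (fun p => Real.exp (p.1 (ι q)))) ^ 2 ≤
      C * DD β * EE N m (fun p => ∑ i ∈ Finset.range n, ((16 : ℝ) ^ (i + 1) / R) ^ 2 *
          ∑ a ∈ AA R (16 ^ (i + 1)), TT N (Kc ι (16 ^ (i + 1)) a) p +
        n / (R : ℝ) ^ 2 * ∑ x ∈ bx 0 (3 * R / 4), Real.exp (p.1 (ι x)) ^ 2) *
      EE N m (fun p => (∑ q ∈ bx 0 (R / 4), p.2 (ι q)) ^ 2) := by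
  obtain ⟨C, hC, hsc⟩ := scale_bound
  refine ⟨C, hC, fun β hβ V _ _ N hN m R ι hE n hR => ?_⟩
  have hDD : 0 < DD β := lt_of_lt_of_le one_pos (one_le_DD β)
  have hlast : 0 ≤ EE N m (fun p => (∑ q ∈ bx 0 (R / 4), p.2 (ι q)) ^ 2) :=
    EE_nonneg N m fun p => sq_nonneg _
  rcases Nat.eq_zero_or_pos n with rfl | hn
  · have h0 : 0 ≤ EE N m (fun p => ∑ i ∈ Finset.range 0, ((16 : ℝ) ^ (i + 1) / R) ^ 2 *
          ∑ a ∈ AA R (16 ^ (i + 1)), TT N (Kc ι (16 ^ (i + 1)) a) p +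
        ((0 : ℕ) : ℝ) / (R : ℝ) ^ 2 * ∑ x ∈ bx 0 (3 * R / 4), Real.exp (p.1 (ι x)) ^ 2) :=
      EE_nonneg N m fun p => by simp
    have : ((0 : ℕ) : ℝ) ^ 2 * (∑ q ∈ bx 0 (R / 4), EE N m (fun p => Real.exp (p.1 (ι q)))) ^ 2
        = 0 := by simp
    rw [this]
    exact mul_nonneg (mul_nonneg (mul_pos hC hDD).le h0) hlast
  have hR512 : 512 ≤ R := by
    have : 16 ^ 1 ≤ 16 ^ n := Nat.pow_le_pow_right (by norm_num) hn
    omega
  have hbx : ∀ x ∈ bx 0 (R / 4), 4 * nrm x ≤ R ∧ nrm x + 1 < R := by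
    intro x hx
    rw [K5c.mem_bx] at hx
    push_cast at hx
    omega
  -- the points of the plateau
  have hP : ∀ q ∈ (bx 0 (R / 4)).image ι,
      Deep N (tr R ι (fun _ => 1)) q ∧ tr R ι (ff R) q = 1 := by
    intro q hq
    obtain ⟨x, hx, rfl⟩ := Finset.mem_image.1 hq
    obtain ⟨h1, h2⟩ := hbx x hx
    refine ⟨⟨hE.root x h2, K5c.tr_apply hE.inj _ (by omega), fun w hw => ?_⟩, ?_⟩
    · obtain ⟨z, hz, rfl⟩ := hE.enadj x w h2 hw
      have := K5c.nrm_adj hz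
      exact K5c.tr_apply hE.inj _ (by omega)
    · rw [K5c.tr_apply hE.inj _ (by omega)]
      exact ff_one R (by omega) x h1
  have hinj : Set.InjOn ι (bx 0 (R / 4) : Set (ℤ × ℤ)) := by
    intro x hx z hz h
    have h1 := (hbx x hx).2
    have h2 := (hbx z hz).2
    exact hE.inj x z (by omega) (by omega) h
  have hb := bessel N hN m _ _ _ (tr_fam N β hβ R n hR ι hE) Finset.univ _ hP
  rw [Finset.sum_image hinj, Finset.card_univ, Fintype.card_fin] at hb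
  have himg : (fun p : Pt V => (∑ q ∈ (bx 0 (R / 4)).image ι, p.2 q) ^ 2) =
      fun p => (∑ q ∈ bx 0 (R / 4), p.2 (ι q)) ^ 2 := by
    funext p
    rw [Finset.sum_image hinj]
  rw [himg] at hb
  -- the sum over the scales
  have hS1 : ∀ l : ℕ, Sm (fun p : Pt V => ((l : ℝ) / R) ^ 2 * ∑ a ∈ AA R l, TT N (Kc ι l a) p) :=
    fun l => (Sm.sum _ fun a _ => Sm.TT N _).const_mul _
  have hS2 : Sm (fun p : Pt V => 1 / (R : ℝ) ^ 2 *
      ∑ x ∈ bx 0 (3 * R / 4), Real.exp (p.1 (ι x)) ^ 2) :=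
    (Sm.sum _ fun x _ => (Sm.exp (ι x)).pow 2).const_mul _
  have hsum : (∑ i : Fin n, EE N m (fun p => UU N m (tk R ι (kk R (16 ^ (i.1 + 1)))) p ^ 2)) ≤
      C * DD β * EE N m (fun p => ∑ i ∈ Finset.range n, ((16 : ℝ) ^ (i + 1) / R) ^ 2 *
          ∑ a ∈ AA R (16 ^ (i + 1)), TT N (Kc ι (16 ^ (i + 1)) a) p +
        n / (R : ℝ) ^ 2 * ∑ x ∈ bx 0 (3 * R / 4), Real.exp (p.1 (ι x)) ^ 2) := by
    have h1 : ∀ i : Fin n, EE N m (fun p => UU N m (tk R ι (kk R (16 ^ (i.1 + 1)))) p ^ 2) ≤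
        C * DD β * EE N m (fun p => (((16 ^ (i.1 + 1) : ℕ) : ℝ) / R) ^ 2 *
          ∑ a ∈ AA R (16 ^ (i.1 + 1)), TT N (Kc ι (16 ^ (i.1 + 1)) a) p +
        1 / (R : ℝ) ^ 2 * ∑ x ∈ bx 0 (3 * R / 4), Real.exp (p.1 (ι x)) ^ 2) := by
      intro i
      refine hsc β hβ V N hN m R ι hE (16 ^ (i.1 + 1)) ?_ ?_
      · calc 16 = 16 ^ 1 := by norm_num
          _ ≤ 16 ^ (i.1 + 1) := Nat.pow_le_pow_right (by norm_num) (by omega)
      · have : 16 ^ (i.1 + 1) ≤ 16 ^ n := Nat.pow_le_pow_right (by norm_num) i.2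
        omega
    refine (Finset.sum_le_sum fun i _ => h1 i).trans (le_of_eq ?_)
    rw [← Finset.mul_sum]
    congr 1
    rw [← EE_sum N hN m Finset.univ (fun i _ => (hS1 _).add hS2)]
    congr 1
    funext p
    rw [Finset.sum_add_distrib, Finset.sum_const, Finset.card_univ, Fintype.card_fin, nsmul_eq_mul,
      Finset.sum_range]
    push_cast
    ring
  have hA : 0 ≤ (n : ℝ) ^ 2 *
      (∑ q ∈ bx 0 (R / 4), EE N m (fun p => Real.exp (p.1 (ι q)))) ^ 2 := by positivity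
  calc (n : ℝ) ^ 2 * (∑ q ∈ bx 0 (R / 4), EE N m (fun p => Real.exp (p.1 (ι q)))) ^ 2
      ≤ 4 * (n : ℝ) ^ 2 * (∑ q ∈ bx 0 (R / 4), EE N m (fun p => Real.exp (p.1 (ι q)))) ^ 2 := by
        linarith
    _ ≤ _ := hb
    _ ≤ _ := mul_le_mul_of_nonneg_right hsum hlast

end Pool.Agent.TH369.AG
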