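import Pool.Agent.TH369.AG.Defs6
import Pool.Agent.TH369.AG.J5
import Pool.Agent.TH369.AG.J6
import Pool.Agent.TH369.AG.K4c1
import Pool.Agent.TH369.AG.K4c2

/-!
# ARBOREAL-K6a: the total functional of a cell
-/

set_option autoImplicit false
set_option linter.unusedSectionVars false

namespace Pool.Agent.TH369.AG

open MeasureTheory Matrix

namespace K6a

section lin

variable {V : Type} [Fintype V] [DecidableEq V] (N : Net V) (hN : N.Conn)

include hN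

lemma Tot_mono {F G : Pt V → ℝ} (hF : Sm F) (hG : Sm G) (h : ∀ p, F p ≤ G p) :
    Tot N F ≤ Tot N G := by
  obtain ⟨J, _, α, μ, hα, hT⟩ := Tot_eq_sum N hN
  rw [hT F hF, hT G hG]
  exact Finset.sum_le_sum fun j _ =>
    mul_le_mul_of_nonneg_left (EE_mono N hN (μ j) hF hG h) (hα j)

lemma Tot_add {F G : Pt V → ℝ} (hF : Sm F) (hG : Sm G) :
    Tot N (fun p => F p + G p) = Tot N F + Tot N G := by
  obtain ⟨J, _, α, μ, hα, hT⟩ := Tot_eq_sum N hN
  rw [hT F hF, hT G hG, hT _ (hF.add hG), ← Finset.sum_add_distrib]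
  refine Finset.sum_congr rfl fun j _ => ?_
  rw [EE_add N hN (μ j) hF hG]
  ring

lemma Tot_const_mul (c : ℝ) {F : Pt V → ℝ} (hF : Sm F) :
    Tot N (fun p => c * F p) = c * Tot N F := by
  obtain ⟨J, _, α, μ, hα, hT⟩ := Tot_eq_sum N hN
  rw [hT F hF, hT _ (hF.const_mul c), Finset.mul_sum]
  refine Finset.sum_congr rfl fun j _ => ?_
  rw [EE_const_mul N (μ j)]
  ring

lemma Tot_sum {ι : Type} (s : Finset ι) {F : ι → Pt V → ℝ} (hF : ∀ i ∈ s, Sm (F i)) :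
    Tot N (fun p => ∑ i ∈ s, F i p) = ∑ i ∈ s, Tot N (F i) := by
  obtain ⟨J, _, α, μ, hα, hT⟩ := Tot_eq_sum N hN
  rw [hT _ (Sm.sum s hF), Finset.sum_congr rfl fun i hi => hT (F i) (hF i hi), Finset.sum_comm]
  refine Finset.sum_congr rfl fun j _ => ?_
  rw [EE_sum N hN (μ j) s hF, Finset.mul_sum]

end lin

section pt

variable {V : Type} [Fintype V] [DecidableEq V] (N : Net V)

/-- the neighbours in the cell -/
noncomputable def nb (K : Finset V) (x : V) : Finset V := K.filter fun z => N.B x z ≠ 0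

/-- the square of the energy per vertex -/
lemma ep_sq (K : Finset V) (hK : K.Nonempty) (h4 : ∀ x ∈ K, (nb N K x).card ≤ 4) (p : Pt V) :
    ep N K p ^ 2 ≤ (K.card : ℝ)⁻¹ * ∑ x ∈ K, 4 * ∑ z ∈ nb N K x,
      (N.B x z * ed p.1 p.2 x z) ^ 2 := by
  have hn : 0 < (K.card : ℝ) := by exact_mod_cast hK.card_pos
  unfold ep
  have h1 : (∑ x ∈ K, ∑ z ∈ K, N.B x z * ed p.1 p.2 x z) ^ 2 ≤
      K.card * ∑ x ∈ K, (∑ z ∈ K, N.B x z * ed p.1 p.2 x z) ^ 2 :=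
    sq_sum_le_card_mul_sum_sq
  have h2 : ∀ x ∈ K, (∑ z ∈ K, N.B x z * ed p.1 p.2 x z) ^ 2 ≤
      4 * ∑ z ∈ nb N K x, (N.B x z * ed p.1 p.2 x z) ^ 2 := by
    intro x hx
    have e1 : ∑ z ∈ K, N.B x z * ed p.1 p.2 x z = ∑ z ∈ nb N K x, N.B x z * ed p.1 p.2 x z := by
      symm
      apply Finset.sum_subset (Finset.filter_subset _ _)
      intro z hz hz2
      have : N.B x z = 0 := by
        by_contra h
        exact hz2 (Finset.mem_filter.2 ⟨hz, h⟩)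
      rw [this, zero_mul]
    rw [e1]
    have e2 : (∑ z ∈ nb N K x, N.B x z * ed p.1 p.2 x z) ^ 2 ≤
        ((nb N K x).card : ℝ) * ∑ z ∈ nb N K x, (N.B x z * ed p.1 p.2 x z) ^ 2 :=
      sq_sum_le_card_mul_sum_sq
    refine e2.trans (mul_le_mul_of_nonneg_right ?_ (Finset.sum_nonneg fun z _ => sq_nonneg _))
    exact_mod_cast h4 x hx
  calc ((K.card : ℝ)⁻¹ * ∑ x ∈ K, ∑ z ∈ K, N.B x z * ed p.1 p.2 x z) ^ 2
      = (K.card : ℝ)⁻¹ ^ 2 * (∑ x ∈ K, ∑ z ∈ K, N.B x z * ed p.1 p.2 x z) ^ 2 := by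
        rw [mul_pow]
    _ ≤ (K.card : ℝ)⁻¹ ^ 2 *
        (K.card * ∑ x ∈ K, (∑ z ∈ K, N.B x z * ed p.1 p.2 x z) ^ 2) :=
        mul_le_mul_of_nonneg_left h1 (by positivity)
    _ = (K.card : ℝ)⁻¹ * ∑ x ∈ K, (∑ z ∈ K, N.B x z * ed p.1 p.2 x z) ^ 2 := by
        field_simp
    _ ≤ _ := mul_le_mul_of_nonneg_left (Finset.sum_le_sum h2) (by positivity)

/-- the upper bound -/
noncomputable def UB (K : Finset V) (p : Pt V) : ℝ :=
  (K.card : ℝ)⁻¹ * ∑ x ∈ K, Real.exp (p.1 x) ^ 2 +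
    (K.card : ℝ)⁻¹ * ∑ o ∈ K, (K.card : ℝ)⁻¹ * ∑ x ∈ K, Wd x o p +
    (K.card : ℝ)⁻¹ * ∑ y ∈ K, (K.card : ℝ)⁻¹ * ∑ x ∈ K, 4 * ∑ z ∈ nb N K x,
      Real.exp (p.1 y) ^ 2 * (N.B x z * ed p.1 p.2 x z) ^ 2

lemma TT_le (K : Finset V) (hK : K.Nonempty) (h4 : ∀ x ∈ K, (nb N K x).card ≤ 4) (p : Pt V) :
    TT N K p ≤ UB N K p := by
  unfold TT UB
  refine add_le_add le_rfl ?_
  refine (mul_le_mul_of_nonneg_left (ep_sq N K hK h4 p) (Ps_nonneg K p)).trans (le_of_eq ?_)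
  unfold Ps
  rw [mul_assoc, Finset.sum_mul]
  congr 1
  refine Finset.sum_congr rfl fun y _ => ?_
  rw [mul_left_comm, Finset.mul_sum]
  congr 1
  refine Finset.sum_congr rfl fun x _ => ?_
  rw [mul_left_comm, Finset.mul_sum]

lemma sm_term (x z y : V) :
    Sm (fun p : Pt V => Real.exp (p.1 y) ^ 2 * (N.B x z * ed p.1 p.2 x z) ^ 2) :=
  ((Sm.exp y).pow 2).mul (((Sm.ed x z).const_mul _).pow 2)

lemma sm_UB (K : Finset V) : Sm (UB N K) := by
  unfold UB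
  refine ((((Sm.sum _ fun x _ => (Sm.exp x).pow 2).const_mul _).add
    ((Sm.sum _ fun o _ => (Sm.sum _ fun x _ => Sm.Wd x o).const_mul _).const_mul _))).add
    ((Sm.sum _ fun y _ => (Sm.sum _ fun x _ => (Sm.sum _ fun z _ => ?_).const_mul _).const_mul
      _).const_mul _)
  exact sm_term N x z y

end pt

end K6a

open K6a in
theorem Tot_TT {V E : Type} [Fintype V] [DecidableEq V] [Fintype E] [DecidableEq E]
    (s t : E → Option V) (w : E → ℝ) (hw : ∀ e, 0 ≤ w e) (S : Finset E) (N : Net V)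
    (hNe : N = netOf s t w hw S) (hN : N.Conn) (K : Finset V) (hK : K.Nonempty)
    (h4 : ∀ x ∈ K, (K.filter fun z => N.B x z ≠ 0).card ≤ 4) :
    Tot N (TT N K) ≤ 200 * ((2 * Real.pi) ^ (Fintype.card V) * ((K.card : ℝ)⁻¹ *
      ∑ x ∈ K, FS s t w S (fun A => Cn s t A (some x) none))) := by
  classical
  have hn : 0 < (K.card : ℝ) := by exact_mod_cast hK.card_pos
  set c : ℝ := (2 * Real.pi) ^ (Fintype.card V) with hc
  have hc0 : 0 < c := by positivity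
  set a : V → ℝ := fun x => FS s t w S (fun A => Cn s t A (some x) none) with ha
  have ha0 : ∀ x, 0 ≤ a x := by
    intro x
    rw [ha]
    unfold FS
    exact Finset.sum_nonneg fun A _ => Finset.prod_nonneg fun e _ => hw e
  have h4' : ∀ x ∈ K, (nb N K x).card ≤ 4 := by
    intro x hx
    refine le_trans (le_of_eq ?_) (h4 x hx)
    unfold nb
    congr
  refine (Tot_mono N hN (Sm.TT N K) (sm_UB N K) (TT_le N K hK h4')).trans ?_
  have hS1 : Sm (fun p : Pt V => (K.card : ℝ)⁻¹ * ∑ x ∈ K, Real.exp (p.1 x) ^ 2) :=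
    (Sm.sum _ fun x _ => (Sm.exp x).pow 2).const_mul _
  have hS2 : Sm (fun p : Pt V => (K.card : ℝ)⁻¹ * ∑ o ∈ K, (K.card : ℝ)⁻¹ *
      ∑ x ∈ K, Wd x o p) :=
    (Sm.sum _ fun o _ => (Sm.sum _ fun x _ => Sm.Wd x o).const_mul _).const_mul _
  have hS3 : Sm (fun p : Pt V => (K.card : ℝ)⁻¹ * ∑ y ∈ K, (K.card : ℝ)⁻¹ *
      ∑ x ∈ K, 4 * ∑ z ∈ nb N K x,
      Real.exp (p.1 y) ^ 2 * (N.B x z * ed p.1 p.2 x z) ^ 2) :=
    (Sm.sum _ fun y _ => (Sm.sum _ fun x _ => (Sm.sum _ fun z _ =>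
      sm_term N x z y).const_mul _).const_mul _).const_mul _
  have e0 : Tot N (UB N K) = Tot N (fun p : Pt V => (K.card : ℝ)⁻¹ *
      ∑ x ∈ K, Real.exp (p.1 x) ^ 2) + Tot N (fun p : Pt V => (K.card : ℝ)⁻¹ * ∑ o ∈ K,
      (K.card : ℝ)⁻¹ * ∑ x ∈ K, Wd x o p) + Tot N (fun p : Pt V => (K.card : ℝ)⁻¹ *
      ∑ y ∈ K, (K.card : ℝ)⁻¹ * ∑ x ∈ K, 4 * ∑ z ∈ nb N K x,
      Real.exp (p.1 y) ^ 2 * (N.B x z * ed p.1 p.2 x z) ^ 2) := by
    rw [← Tot_add N hN hS1 hS2, ← Tot_add N hN (hS1.add hS2) hS3]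
    rfl
  -- the three terms
  set s1 : ℝ := ∑ x ∈ K, a x with hs1
  have hs10 : 0 ≤ s1 := Finset.sum_nonneg fun x _ => ha0 x
  have t1 : Tot N (fun p : Pt V => (K.card : ℝ)⁻¹ * ∑ x ∈ K, Real.exp (p.1 x) ^ 2) =
      (K.card : ℝ)⁻¹ * (c * s1) := by
    rw [Tot_const_mul N hN _ (Sm.sum _ fun x _ => (Sm.exp x).pow 2),
      Tot_sum N hN K fun x _ => (Sm.exp x).pow 2]
    congr 1
    rw [hs1, Finset.mul_sum]
    exact Finset.sum_congr rfl fun x _ => (Tot_psi s t w hw S N hNe hN x).2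
  have t2 : Tot N (fun p : Pt V => (K.card : ℝ)⁻¹ * ∑ o ∈ K, (K.card : ℝ)⁻¹ *
      ∑ x ∈ K, Wd x o p) ≤ 2 * ((K.card : ℝ)⁻¹ * (c * s1)) := by
    rw [Tot_const_mul N hN _ (Sm.sum _ fun o _ => (Sm.sum _ fun x _ => Sm.Wd x o).const_mul _),
      Tot_sum N hN K fun o _ => (Sm.sum _ fun x _ => Sm.Wd x o).const_mul _]
    have e1 : ∀ o ∈ K, Tot N (fun p : Pt V => (K.card : ℝ)⁻¹ * ∑ x ∈ K, Wd x o p) ≤
        (K.card : ℝ)⁻¹ * (c * s1) + c * a o := by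
      intro o _
      rw [Tot_const_mul N hN _ (Sm.sum _ fun x _ => Sm.Wd x o),
        Tot_sum N hN K fun x _ => Sm.Wd x o]
      have e2 : ∑ x ∈ K, Tot N (Wd x o) ≤ ∑ x ∈ K, c * (a x + a o) :=
        Finset.sum_le_sum fun x _ => Tot_Wd s t w hw S N hNe hN x o
      have e3 : ∑ x ∈ K, c * (a x + a o) = c * s1 + K.card * (c * a o) := by
        rw [← Finset.mul_sum, Finset.sum_add_distrib, Finset.sum_const, nsmul_eq_mul, hs1]
        ring
      rw [e3] at e2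
      calc (K.card : ℝ)⁻¹ * ∑ x ∈ K, Tot N (Wd x o) ≤
            (K.card : ℝ)⁻¹ * (c * s1 + K.card * (c * a o)) :=
            mul_le_mul_of_nonneg_left e2 (by positivity)
        _ = (K.card : ℝ)⁻¹ * (c * s1) + c * a o := by
            field_simp
    have e4 := Finset.sum_le_sum e1
    have e5 : ∑ o ∈ K, ((K.card : ℝ)⁻¹ * (c * s1) + c * a o) = 2 * (c * s1) := by
      rw [Finset.sum_add_distrib, Finset.sum_const, nsmul_eq_mul, ← Finset.mul_sum, ← hs1]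
      field_simp
      ring
    rw [e5] at e4
    calc _ ≤ (K.card : ℝ)⁻¹ * (2 * (c * s1)) := mul_le_mul_of_nonneg_left e4 (by positivity)
      _ = _ := by ring
  have t3 : Tot N (fun p : Pt V => (K.card : ℝ)⁻¹ * ∑ y ∈ K, (K.card : ℝ)⁻¹ *
      ∑ x ∈ K, 4 * ∑ z ∈ nb N K x, Real.exp (p.1 y) ^ 2 * (N.B x z * ed p.1 p.2 x z) ^ 2) ≤
      192 * ((K.card : ℝ)⁻¹ * (c * s1)) := by
    rw [Tot_const_mul N hN _ (Sm.sum _ fun y _ => (Sm.sum _ fun x _ => (Sm.sum _ fun z _ =>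
      sm_term N x z y).const_mul _).const_mul _),
      Tot_sum N hN K fun y _ => (Sm.sum _ fun x _ => (Sm.sum _ fun z _ =>
        sm_term N x z y).const_mul _).const_mul _]
    have e1 : ∀ y ∈ K, Tot N (fun p : Pt V => (K.card : ℝ)⁻¹ * ∑ x ∈ K, 4 * ∑ z ∈ nb N K x,
        Real.exp (p.1 y) ^ 2 * (N.B x z * ed p.1 p.2 x z) ^ 2) ≤ 192 * (c * a y) := by
      intro y _
      rw [Tot_const_mul N hN _ (Sm.sum _ fun x _ => (Sm.sum _ fun z _ =>
        sm_term N x z y).const_mul _),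
        Tot_sum N hN K fun x _ => (Sm.sum _ fun z _ => sm_term N x z y).const_mul _]
      have e2 : ∀ x ∈ K, Tot N (fun p : Pt V => 4 * ∑ z ∈ nb N K x,
          Real.exp (p.1 y) ^ 2 * (N.B x z * ed p.1 p.2 x z) ^ 2) ≤ 192 * (c * a y) := by
        intro x hx
        rw [Tot_const_mul N hN _ (Sm.sum _ fun z _ => sm_term N x z y),
          Tot_sum N hN _ fun z _ => sm_term N x z y]
        have e3 : ∑ z ∈ nb N K x, Tot N (fun p : Pt V =>
            Real.exp (p.1 y) ^ 2 * (N.B x z * ed p.1 p.2 x z) ^ 2) ≤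
            ∑ _z ∈ nb N K x, 12 * (c * a y) :=
          Finset.sum_le_sum fun z _ => Tot_ed s t w hw S N hNe hN y x z
        rw [Finset.sum_const, nsmul_eq_mul] at e3
        have e4 : ((nb N K x).card : ℝ) * (12 * (c * a y)) ≤ 4 * (12 * (c * a y)) := by
          refine mul_le_mul_of_nonneg_right ?_ (mul_nonneg (by norm_num)
            (mul_nonneg hc0.le (ha0 y)))
          exact_mod_cast h4' x hx
        linarith
      have e5 := Finset.sum_le_sum e2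
      rw [Finset.sum_const, nsmul_eq_mul] at e5
      calc _ ≤ (K.card : ℝ)⁻¹ * (K.card * (192 * (c * a y))) :=
            mul_le_mul_of_nonneg_left e5 (by positivity)
        _ = 192 * (c * a y) := by
            field_simp
    have e6 := Finset.sum_le_sum e1
    have e7 : ∑ y ∈ K, 192 * (c * a y) = 192 * (c * s1) := by
      rw [hs1, Finset.mul_sum, Finset.mul_sum]
    rw [e7] at e6
    calc _ ≤ (K.card : ℝ)⁻¹ * (192 * (c * s1)) := mul_le_mul_of_nonneg_left e6 (by positivity)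
      _ = _ := by ring
  rw [e0, t1]
  have hfin : 0 ≤ (K.card : ℝ)⁻¹ * (c * s1) := by positivity
  have e8 : 200 * (c * ((K.card : ℝ)⁻¹ * s1)) = 200 * ((K.card : ℝ)⁻¹ * (c * s1)) := by ring
  rw [e8]
  linarith

end Pool.Agent.TH369.AG
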