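import Pool.Agent.TH369.AG.Defs6
import Pool.Agent.TH369.AG.J10
import Pool.Agent.TH369.AG.J11
import Pool.Agent.TH369.AG.K4c1
import Pool.Agent.TH369.AG.K4c2
import Pool.Agent.TH369.AG.K5c
import Pool.Agent.TH369.AG.K6a

/-!
# ARBOREAL-K6b: the multi-scale inequality for forests
-/

set_option autoImplicit false
set_option linter.unusedSectionVars false

namespace Pool.Agent.TH369.AG

open MeasureTheory Matrix

namespace K6b

section tot

variable {V : Type} [Fintype V] [DecidableEq V] {N : Net V}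

theorem Tot_sum (hN : N.Conn) {ι : Type} (s : Finset ι) {F : ι → Pt V → ℝ}
    (hF : ∀ i ∈ s, Sm (F i)) : Tot N (fun p => ∑ i ∈ s, F i p) = ∑ i ∈ s, Tot N (F i) := by
  obtain ⟨J, _, α, μ, -, h⟩ := Tot_eq_sum N hN
  rw [h _ (Sm.sum s hF), Finset.sum_congr rfl fun i hi => h _ (hF i hi), Finset.sum_comm]
  refine Finset.sum_congr rfl fun j _ => ?_
  rw [EE_sum N hN _ s hF, Finset.mul_sum]

theorem Tot_add (hN : N.Conn) {F G : Pt V → ℝ} (hF : Sm F) (hG : Sm G) :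
    Tot N (fun p => F p + G p) = Tot N F + Tot N G := by
  obtain ⟨J, _, α, μ, -, h⟩ := Tot_eq_sum N hN
  rw [h _ (hF.add hG), h _ hF, h _ hG, ← Finset.sum_add_distrib]
  refine Finset.sum_congr rfl fun j _ => ?_
  rw [EE_add N hN _ hF hG, mul_add]

theorem Tot_const_mul (hN : N.Conn) (c : ℝ) {F : Pt V → ℝ} (hF : Sm F) :
    Tot N (fun p => c * F p) = c * Tot N F := by
  obtain ⟨J, _, α, μ, -, h⟩ := Tot_eq_sum N hN
  rw [h _ (hF.const_mul c), h _ hF, Finset.mul_sum]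
  refine Finset.sum_congr rfl fun j _ => ?_
  rw [EE_const_mul]
  ring

/-- Cauchy-Schwarz for the sum of densities -/
theorem Tot_cs (hN : N.Conn) (K : ℝ) (hK : 0 ≤ K) (n : ℝ) {S A Y : Pt V → ℝ} (hS : Sm S)
    (hA : Sm A) (hY : Sm Y) (hA0 : ∀ p, 0 ≤ A p) (hY0 : ∀ p, 0 ≤ Y p)
    (h : ∀ m : V → ℝ, n ^ 2 * EE N m S ^ 2 ≤ K * EE N m A * EE N m Y) :
    n ^ 2 * Tot N S ^ 2 ≤ K * Tot N A * Tot N Y := by
  obtain ⟨J, _, α, μ, hα, hT⟩ := Tot_eq_sum N hN
  rw [hT _ hS, hT _ hA, hT _ hY]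
  have h1 := Finset.sum_sq_le_sum_mul_sum_of_sq_le_mul (Finset.univ : Finset J)
    (r := fun j => α j * (n * EE N (μ j) S)) (f := fun j => α j * (K * EE N (μ j) A))
    (g := fun j => α j * EE N (μ j) Y)
    (fun j _ => mul_nonneg (hα j) (mul_nonneg hK (EE_nonneg N _ hA0)))
    (fun j _ => mul_nonneg (hα j) (EE_nonneg N _ hY0))
    (fun j _ => by
      have h2 := h (μ j)
      have h3 := mul_le_mul_of_nonneg_left h2 (sq_nonneg (α j))
      calc (α j * (n * EE N (μ j) S)) ^ 2 = α j ^ 2 * (n ^ 2 * EE N (μ j) S ^ 2) := by ring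
        _ ≤ α j ^ 2 * (K * EE N (μ j) A * EE N (μ j) Y) := h3
        _ = _ := by ring)
  have e1 : ∑ j, α j * (n * EE N (μ j) S) = n * ∑ j, α j * EE N (μ j) S := by
    rw [Finset.mul_sum]
    exact Finset.sum_congr rfl fun j _ => by ring
  have e2 : ∑ j, α j * (K * EE N (μ j) A) = K * ∑ j, α j * EE N (μ j) A := by
    rw [Finset.mul_sum]
    exact Finset.sum_congr rfl fun j _ => by ring
  rw [e1, e2, mul_pow] at h1
  exact h1

end tot

theorem mem_bx {c x : ℤ × ℤ} {r : ℕ} : x ∈ bx c r ↔ nrm (x - c) ≤ r := by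
  unfold bx
  rw [Finset.mem_product, Finset.mem_Icc, Finset.mem_Icc, J11.nrm_le, abs_le, abs_le]
  change (c.1 - r ≤ x.1 ∧ x.1 ≤ c.1 + r) ∧ (c.2 - r ≤ x.2 ∧ x.2 ≤ c.2 + r) ↔
    (-(r : ℤ) ≤ x.1 - c.1 ∧ x.1 - c.1 ≤ r) ∧ (-(r : ℤ) ≤ x.2 - c.2 ∧ x.2 - c.2 ≤ r)
  constructor
  · rintro ⟨⟨h1, h2⟩, h3, h4⟩
    refine ⟨⟨?_, ?_⟩, ?_, ?_⟩ <;> linarith
  · rintro ⟨⟨h1, h2⟩, h3, h4⟩
    refine ⟨⟨?_, ?_⟩, ?_, ?_⟩ <;> linarith

theorem card_bx (c : ℤ × ℤ) (r : ℕ) : (bx c r).card = (2 * r + 1) ^ 2 := by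
  unfold bx
  rw [Finset.card_product, Int.card_Icc, Int.card_Icc]
  have h : ∀ u : ℤ, (u + r + 1 - (u - r)).toNat = 2 * r + 1 := fun u => by omega
  rw [h, h]
  ring

theorem nb_card {V : Type} [Fintype V] [DecidableEq V] {N : Net V} {β : ℝ} {R : ℕ}
    {ι : ℤ × ℤ → V} (hE : Emb N β R ι) (u : ℤ × ℤ) (hu : nrm u + 1 < R) (K : Finset V) :
    (K.filter fun z => N.B (ι u) z ≠ 0).card ≤ 4 := by
  let T : Finset (ℤ × ℤ) := {(u.1 + 1, u.2), (u.1 - 1, u.2), (u.1, u.2 + 1), (u.1, u.2 - 1)}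
  have hT : T.card ≤ 4 := Finset.card_le_four
  refine le_trans (Finset.card_le_card (t := T.image ι) ?_) (Finset.card_image_le.trans hT)
  intro v hv
  rw [Finset.mem_filter] at hv
  obtain ⟨z, hz, rfl⟩ := hE.enadj u v hu hv.2
  refine Finset.mem_image_of_mem ι ?_
  unfold adj at hz
  obtain ⟨z1, z2⟩ := z
  simp only [T, Finset.mem_insert, Finset.mem_singleton, Prod.mk.injEq]
  simp only at hz
  rcases abs_cases (u.1 - z1) with h1 | h1 <;> rcases abs_cases (u.2 - z2) with h2 | h2 <;> omega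

end K6b

open K6b

theorem core : ∃ C : ℝ, 0 < C ∧
    ∀ (β : ℝ) (_ : 0 < β) (V E : Type) [Fintype V] [DecidableEq V] [Fintype E] [DecidableEq E]
      (s t : E → Option V) (w : E → ℝ) (hw : ∀ e, 0 ≤ w e) (S : Finset E)
      (_ : (netOf s t w hw S).Conn) (R : ℕ) (ι : ℤ × ℤ → V) (_ : Emb (netOf s t w hw S) β R ι)
      (n : ℕ) (_ : 32 * 16 ^ n ≤ R),
    (n : ℝ) * (∑ q ∈ bx 0 (R / 4), FS s t w S (fun A => Cn s t A (some (ι q)) none)) ^ 2 ≤
      C * DD β / (R : ℝ) ^ 2 *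
        (∑ x ∈ bx 0 (3 * R / 4), FS s t w S (fun A => Cn s t A (some (ι x)) none)) *
        ∑ p ∈ bx 0 (R / 4), ∑ q ∈ bx 0 (R / 4),
          (FS s t w S (fun A => Cn s t A (some (ι p)) (some (ι q))) +
            FS s t w S (fun A => Cn s t A (some (ι q)) none)) := by
  obtain ⟨C, hC, hcore⟩ := one_density
  refine ⟨C * 16201, by positivity, ?_⟩
  intro β hβ V E _ _ _ _ s t w hw S hN R ι hE n hn
  have hFS : ∀ P : Finset E → Prop, 0 ≤ FS s t w S P := fun P => J10.FS_nonneg s t w hw S P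
  have hDD := one_le_DD β
  rcases Nat.eq_zero_or_pos n with h0 | hn0
  · subst h0
    simp only [Nat.cast_zero, zero_mul]
    refine mul_nonneg (mul_nonneg (div_nonneg (mul_nonneg (by positivity) (by linarith))
      (sq_nonneg _)) ?_) ?_
    · exact Finset.sum_nonneg fun _ _ => hFS _
    · exact Finset.sum_nonneg fun _ _ => Finset.sum_nonneg fun _ _ => add_nonneg (hFS _) (hFS _)
  set N := netOf s t w hw S with hNe
  have hR0 : 32 ≤ R := by
    have : 1 ≤ 16 ^ n := Nat.one_le_pow _ _ (by norm_num)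
    omega
  have hRz : (32 : ℤ) ≤ R := by exact_mod_cast hR0
  have hRr : (0 : ℝ) < R := by
    have : (32 : ℝ) ≤ R := by exact_mod_cast hR0
    linarith
  have hbx : ∀ {k : ℕ} {x : ℤ × ℤ}, x ∈ bx 0 k ↔ nrm x ≤ k := by
    intro k x
    rw [mem_bx, sub_zero]
  have hin1 : ∀ x, x ∈ bx 0 (R / 4) → nrm x < R := by
    intro x hx
    rw [hbx] at hx
    have : ((R / 4 : ℕ) : ℤ) < R := by
      push_cast
      omega
    exact lt_of_le_of_lt hx this
  -- abbreviations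
  set F : ℤ × ℤ → ℝ := fun x => FS s t w S (fun A => Cn s t A (some (ι x)) none) with hF
  have hF0 : ∀ x, 0 ≤ F x := fun x => hFS _
  set P2 : ℝ := (2 * Real.pi) ^ (Fintype.card V) with hP2
  have hP2pos : 0 < P2 := by positivity
  set A : Pt V → ℝ := fun p => ∑ i ∈ Finset.range n, ((16 : ℝ) ^ (i + 1) / R) ^ 2 *
          ∑ a ∈ AA R (16 ^ (i + 1)), TT N (Kc ι (16 ^ (i + 1)) a) p +
        n / (R : ℝ) ^ 2 * ∑ x ∈ bx 0 (3 * R / 4), Real.exp (p.1 (ι x)) ^ 2 with hA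
  set Y : Pt V → ℝ := fun p => (∑ q ∈ bx 0 (R / 4), p.2 (ι q)) ^ 2 with hY
  set Se : Pt V → ℝ := fun p => ∑ q ∈ bx 0 (R / 4), Real.exp (p.1 (ι q)) with hSe
  have hTT0 : ∀ (K : Finset V) (p : Pt V), 0 ≤ TT N K p := by
    intro K p
    unfold TT
    have h1 := Ps_nonneg K p
    have h2 := WW_nonneg K p
    positivity
  have hA0 : ∀ p, 0 ≤ A p := by
    intro p
    rw [hA]
    refine add_nonneg (Finset.sum_nonneg fun i _ => mul_nonneg (sq_nonneg _)
      (Finset.sum_nonneg fun a _ => hTT0 _ _)) ?_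
    refine mul_nonneg (by positivity) (Finset.sum_nonneg fun x _ => sq_nonneg _)
  have hSmTT : ∀ i ∈ Finset.range n, Sm (fun p => ((16 : ℝ) ^ (i + 1) / R) ^ 2 *
      ∑ a ∈ AA R (16 ^ (i + 1)), TT N (Kc ι (16 ^ (i + 1)) a) p) := fun i _ =>
    Sm.const_mul _ (Sm.sum _ fun a _ => Sm.TT N _)
  have hSmA1 : Sm (fun p : Pt V => ∑ i ∈ Finset.range n, ((16 : ℝ) ^ (i + 1) / R) ^ 2 *
      ∑ a ∈ AA R (16 ^ (i + 1)), TT N (Kc ι (16 ^ (i + 1)) a) p) := Sm.sum _ hSmTT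
  have hSmE : ∀ x ∈ bx 0 (3 * R / 4), Sm (fun p : Pt V => Real.exp (p.1 (ι x)) ^ 2) :=
    fun x _ => (Sm.exp (ι x)).pow 2
  have hSmA2 : Sm (fun p : Pt V => (n : ℝ) / (R : ℝ) ^ 2 *
      ∑ x ∈ bx 0 (3 * R / 4), Real.exp (p.1 (ι x)) ^ 2) := Sm.const_mul _ (Sm.sum _ hSmE)
  have hSmA : Sm A := hSmA1.add hSmA2
  have hSmY : Sm Y := (Sm.sum _ fun q _ => Sm.y (ι q)).pow 2
  have hSmS : Sm Se := Sm.sum _ fun q _ => Sm.exp (ι q)
  -- Cauchy-Schwarz
  have hcs := Tot_cs hN (C * DD β) (by positivity) n hSmS hSmA hSmY hA0 (fun p => sq_nonneg _)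
    (by
      intro m
      have h1 := hcore β hβ V N hN m R ι hE n hn
      have h2 : EE N m Se = ∑ q ∈ bx 0 (R / 4), EE N m (fun p => Real.exp (p.1 (ι q))) :=
        EE_sum N hN m _ fun q _ => Sm.exp (ι q)
      rw [h2]
      exact h1)
  -- the left side
  have hS : Tot N Se = P2 * ∑ q ∈ bx 0 (R / 4), F q := by
    rw [hSe, Tot_sum hN _ fun q _ => Sm.exp (ι q), Finset.mul_sum]
    exact Finset.sum_congr rfl fun q _ => (Tot_psi s t w hw S N hNe hN (ι q)).1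
  -- the second factor
  have hinj : Set.InjOn ι (bx 0 (R / 4) : Set (ℤ × ℤ)) := fun x hx z hz h =>
    hE.inj x z (hin1 x hx) (hin1 z hz) h
  have hYle : Tot N Y ≤ P2 * ∑ p ∈ bx 0 (R / 4), ∑ q ∈ bx 0 (R / 4),
      (FS s t w S (fun A => Cn s t A (some (ι p)) (some (ι q))) +
        FS s t w S (fun A => Cn s t A (some (ι q)) none)) := by
    have h1 := Tot_y s t w hw S N hNe hN ((bx 0 (R / 4)).image ι)
    rw [Finset.sum_image hinj] at h1
    have e1 : (fun p : Pt V => (∑ q ∈ (bx 0 (R / 4)).image ι, p.2 q) ^ 2) = Y := by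
      funext p
      rw [Finset.sum_image hinj]
    rw [e1] at h1
    refine h1.trans (le_of_eq ?_)
    congr 1
    refine Finset.sum_congr rfl fun p _ => ?_
    rw [Finset.sum_image hinj]
  -- the first factor
  have hcell : ∀ i ∈ Finset.range n, Tot N (fun p => ((16 : ℝ) ^ (i + 1) / R) ^ 2 *
      ∑ a ∈ AA R (16 ^ (i + 1)), TT N (Kc ι (16 ^ (i + 1)) a) p) ≤
      16200 / (R : ℝ) ^ 2 * (P2 * ∑ x ∈ bx 0 (3 * R / 4), F x) := by
    intro i hi
    rw [Finset.mem_range] at hi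
    set l : ℕ := 16 ^ (i + 1) with hl
    have hlpos : 0 < l := by positivity
    have hlR : 32 * l ≤ R := by
      have : (16 : ℕ) ^ (i + 1) ≤ 16 ^ n := Nat.pow_le_pow_right (by norm_num) hi
      calc 32 * l ≤ 32 * 16 ^ n := Nat.mul_le_mul_left _ this
        _ ≤ R := hn
    have hlr : (0 : ℝ) < l := by exact_mod_cast hlpos
    have hcast : ((16 : ℝ) ^ (i + 1)) = (l : ℝ) := by rw [hl]; push_cast; rfl
    rw [hcast, Tot_const_mul hN _ (Sm.sum _ fun a _ => Sm.TT N _),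
      Tot_sum hN _ fun a _ => Sm.TT N _]
    have hin : ∀ a ∈ AA R l, ∀ x, x ∈ bx (ctr l a) (4 * l) → 4 * nrm x < 3 * R := by
      intro a ha x hx
      rw [mem_bx] at hx
      push_cast at hx
      exact AA_bd R l hlpos hlR a ha x hx
    have hone : ∀ a ∈ AA R l, Tot N (TT N (Kc ι l a)) ≤
        200 * P2 / (l : ℝ) ^ 2 * ∑ x ∈ bx (ctr l a) (4 * l), F x := by
      intro a ha
      have hinja : Set.InjOn ι (bx (ctr l a) (4 * l) : Set (ℤ × ℤ)) := by
        intro x hx z hz h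
        have h1 := hin a ha x hx
        have h2 := hin a ha z hz
        exact hE.inj x z (by omega) (by omega) h
      have hKne : (Kc ι l a).Nonempty := by
        unfold Kc
        refine Finset.Nonempty.image ⟨ctr l a, ?_⟩ ι
        rw [mem_bx, sub_self]
        simp [nrm]
      have h4 : ∀ x ∈ Kc ι l a, ((Kc ι l a).filter fun z => N.B x z ≠ 0).card ≤ 4 := by
        intro x hx
        unfold Kc at hx
        obtain ⟨u, hu, rfl⟩ := Finset.mem_image.1 hx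
        have h1 := hin a ha u hu
        exact nb_card hE u (by omega) _
      have h1 := Tot_TT s t w hw S N hNe hN (Kc ι l a) hKne h4
      have hcard : (Kc ι l a).card = (2 * (4 * l) + 1) ^ 2 := by
        unfold Kc
        rw [Finset.card_image_of_injOn hinja, card_bx]
      have hsum : ∑ x ∈ Kc ι l a, FS s t w S (fun A => Cn s t A (some x) none) =
          ∑ x ∈ bx (ctr l a) (4 * l), F x := by
        unfold Kc
        rw [Finset.sum_image hinja]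
      rw [hsum, hcard] at h1
      refine h1.trans ?_
      have hs0 : 0 ≤ ∑ x ∈ bx (ctr l a) (4 * l), F x := Finset.sum_nonneg fun x _ => hF0 x
      have hinv : (((2 * (4 * l) + 1) ^ 2 : ℕ) : ℝ)⁻¹ ≤ ((l : ℝ) ^ 2)⁻¹ := by
        apply inv_anti₀ (by positivity)
        push_cast
        nlinarith
      calc 200 * (P2 * ((((2 * (4 * l) + 1) ^ 2 : ℕ) : ℝ)⁻¹ *
            ∑ x ∈ bx (ctr l a) (4 * l), F x))
          ≤ 200 * (P2 * (((l : ℝ) ^ 2)⁻¹ * ∑ x ∈ bx (ctr l a) (4 * l), F x)) := by gcongr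
        _ = _ := by ring
    have hcount : ∑ a ∈ AA R l, ∑ x ∈ bx (ctr l a) (4 * l), F x ≤
        81 * ∑ x ∈ bx 0 (3 * R / 4), F x := by
      have e1 : ∀ a ∈ AA R l, ∑ x ∈ bx (ctr l a) (4 * l), F x =
          ∑ x ∈ bx 0 (3 * R / 4), if nrm (x - ctr l a) ≤ 4 * l then F x else 0 := by
        intro a ha
        rw [← Finset.sum_filter]
        refine Finset.sum_congr ?_ fun _ _ => rfl
        ext x
        rw [Finset.mem_filter, hbx]
        constructor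
        · intro hx
          have h1 := hin a ha x hx
          rw [mem_bx] at hx
          push_cast at hx
          refine ⟨?_, hx⟩
          push_cast
          omega
        · rintro ⟨-, h2⟩
          rw [mem_bx]
          push_cast
          exact h2
      rw [Finset.sum_congr rfl e1, Finset.sum_comm, Finset.mul_sum]
      refine Finset.sum_le_sum fun x _ => ?_
      rw [← Finset.sum_filter, Finset.sum_const, nsmul_eq_mul]
      have h1 := AA_card R l hlpos x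
      have h2 : (((AA R l).filter (fun a => nrm (x - ctr l a) ≤ 4 * l)).card : ℝ) ≤ 81 := by
        exact_mod_cast h1
      exact mul_le_mul_of_nonneg_right h2 (hF0 x)
    calc ((l : ℝ) / R) ^ 2 * ∑ a ∈ AA R l, Tot N (TT N (Kc ι l a))
        ≤ ((l : ℝ) / R) ^ 2 * ∑ a ∈ AA R l,
            (200 * P2 / (l : ℝ) ^ 2 * ∑ x ∈ bx (ctr l a) (4 * l), F x) :=
          mul_le_mul_of_nonneg_left (Finset.sum_le_sum hone) (sq_nonneg _)
      _ = 200 / (R : ℝ) ^ 2 * (P2 * ∑ a ∈ AA R l, ∑ x ∈ bx (ctr l a) (4 * l), F x) := by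
          rw [← Finset.mul_sum]
          field_simp
      _ ≤ 200 / (R : ℝ) ^ 2 * (P2 * (81 * ∑ x ∈ bx 0 (3 * R / 4), F x)) := by
          gcongr
      _ = _ := by ring
  have hAle : Tot N A ≤ 16201 * n / (R : ℝ) ^ 2 * (P2 * ∑ x ∈ bx 0 (3 * R / 4), F x) := by
    have h1 : Tot N A = Tot N (fun p : Pt V => ∑ i ∈ Finset.range n,
        ((16 : ℝ) ^ (i + 1) / R) ^ 2 * ∑ a ∈ AA R (16 ^ (i + 1)),
          TT N (Kc ι (16 ^ (i + 1)) a) p) +
        Tot N (fun p : Pt V => (n : ℝ) / (R : ℝ) ^ 2 *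
          ∑ x ∈ bx 0 (3 * R / 4), Real.exp (p.1 (ι x)) ^ 2) := Tot_add hN hSmA1 hSmA2
    rw [h1, Tot_sum hN _ hSmTT, Tot_const_mul hN _ (Sm.sum _ hSmE), Tot_sum hN _ hSmE]
    have h2 : ∑ x ∈ bx 0 (3 * R / 4), Tot N (fun p : Pt V => Real.exp (p.1 (ι x)) ^ 2) =
        P2 * ∑ x ∈ bx 0 (3 * R / 4), F x := by
      rw [Finset.mul_sum]
      exact Finset.sum_congr rfl fun x _ => (Tot_psi s t w hw S N hNe hN (ι x)).2
    rw [h2]
    have h3 := Finset.sum_le_sum hcell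
    rw [Finset.sum_const, Finset.card_range, nsmul_eq_mul] at h3
    calc _ ≤ (n : ℝ) * (16200 / (R : ℝ) ^ 2 * (P2 * ∑ x ∈ bx 0 (3 * R / 4), F x)) +
          n / (R : ℝ) ^ 2 * (P2 * ∑ x ∈ bx 0 (3 * R / 4), F x) := by gcongr
      _ = _ := by ring
  -- conclusion
  have hsF : 0 ≤ ∑ x ∈ bx 0 (3 * R / 4), F x := Finset.sum_nonneg fun x _ => hF0 x
  have hTY0 : 0 ≤ Tot N Y := by
    obtain ⟨J, _, α, μ, hα, hT⟩ := Tot_eq_sum N hN
    rw [hT _ hSmY]
    exact Finset.sum_nonneg fun j _ => mul_nonneg (hα j) (EE_nonneg N _ fun p => sq_nonneg _)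
  set Q : ℝ := ∑ p ∈ bx 0 (R / 4), ∑ q ∈ bx 0 (R / 4),
      (FS s t w S (fun A => Cn s t A (some (ι p)) (some (ι q))) +
        FS s t w S (fun A => Cn s t A (some (ι q)) none)) with hQ
  have hnr : (0 : ℝ) < n := by exact_mod_cast hn0
  have hfin : (n : ℝ) ^ 2 * (P2 * ∑ q ∈ bx 0 (R / 4), F q) ^ 2 ≤
      C * DD β * (16201 * n / (R : ℝ) ^ 2 * (P2 * ∑ x ∈ bx 0 (3 * R / 4), F x)) * (P2 * Q) := by
    rw [← hS]
    refine hcs.trans ?_
    have hCD : 0 ≤ C * DD β := by positivity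
    calc C * DD β * Tot N A * Tot N Y
        ≤ C * DD β * (16201 * n / (R : ℝ) ^ 2 * (P2 * ∑ x ∈ bx 0 (3 * R / 4), F x)) *
            Tot N Y := by gcongr
      _ ≤ _ := by
          refine mul_le_mul_of_nonneg_left hYle ?_
          positivity
  have hdiv : (n : ℝ) * P2 ^ 2 * (n * (∑ q ∈ bx 0 (R / 4), F q) ^ 2) ≤
      n * P2 ^ 2 * (C * 16201 * DD β / (R : ℝ) ^ 2 * (∑ x ∈ bx 0 (3 * R / 4), F x) * Q) := by
    calc _ = (n : ℝ) ^ 2 * (P2 * ∑ q ∈ bx 0 (R / 4), F q) ^ 2 := by ring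
      _ ≤ _ := hfin
      _ = _ := by ring
  exact le_of_mul_le_mul_left hdiv (by positivity)

end Pool.Agent.TH369.AG
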