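import Pool.Agent.TH369.AG.Defs6
import Pool.Agent.TH369.AG.J8
import Pool.Agent.TH369.AG.K6b

/-!
# ARBOREAL-K7: the multi-scale inequality for a general root
-/

set_option autoImplicit false
set_option linter.unusedSectionVars false
namespace Pool.Agent.TH369.AG
open MeasureTheory Matrix

namespace K7

variable {X Y E : Type} [Fintype X] [DecidableEq X] [Fintype Y] [DecidableEq Y] [Fintype E]
  [DecidableEq E]

theorem FS_comp (j : X → Y) (hj : Function.Injective j) (s t : E → X) (w : E → ℝ) (S : Finset E)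
    (x y : X) : FS (j ∘ s) (j ∘ t) w S (fun A => Cn (j ∘ s) (j ∘ t) A (j x) (j y)) =
      FS s t w S (fun A => Cn s t A x y) := by
  classical
  unfold FS
  rw [Finset.sum_filter, Finset.sum_filter]
  refine Finset.sum_congr rfl ?_
  intro A _
  have : (IsF (j ∘ s) (j ∘ t) A ∧ Cn (j ∘ s) (j ∘ t) A (j x) (j y)) ↔ (IsF s t A ∧ Cn s t A x y) := by
    rw [IsF_comp j hj, Cn_comp j hj]
  by_cases h : IsF s t A ∧ Cn s t A x y
  · rw [if_pos (this.mpr h), if_pos h]
  · rw [if_neg (fun h' => h (this.mp h')), if_neg h]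

theorem wt_comp (j : X → Y) (hj : Function.Injective j) (s t : E → X) (w : E → ℝ) (S : Finset E)
    (x y : X) : wt (j ∘ s) (j ∘ t) w S (j x) (j y) = wt s t w S x y := by
  classical
  unfold wt
  rw [Finset.sum_filter, Finset.sum_filter]
  refine Finset.sum_congr rfl ?_
  intro e _
  have : (((j ∘ s) e = j x ∧ (j ∘ t) e = j y) ∨ ((j ∘ s) e = j y ∧ (j ∘ t) e = j x)) ↔
      ((s e = x ∧ t e = y) ∨ (s e = y ∧ t e = x)) := by
    simp only [Function.comp_apply, hj.eq_iff]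
  by_cases h : ((s e = x ∧ t e = y) ∨ (s e = y ∧ t e = x))
  · rw [if_pos (this.mpr h), if_pos h]
  · rw [if_neg (fun h' => h (this.mp h')), if_neg h]

theorem wt_pos (s t : E → X) (w : E → ℝ) (hw : ∀ e, 0 < w e) (S : Finset E) (e : E) (he : e ∈ S)
    (x y : X) (h : ((s e = x ∧ t e = y) ∨ (s e = y ∧ t e = x))) : 0 < wt s t w S x y := by
  classical
  unfold wt
  apply Finset.sum_pos' (fun i _ => (hw i).le)
  exact ⟨e, Finset.mem_filter.mpr ⟨he, h⟩, hw e⟩

theorem FS_pos (s t : E → X) (w : E → ℝ) (hw : ∀ e, 0 < w e) (S : Finset E) :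
    0 < FS s t w S (fun _ => True) := by
  classical
  unfold FS
  rw [Finset.sum_filter]
  apply Finset.sum_pos'
  · intro A _
    split_ifs
    · exact Finset.prod_nonneg fun i _ => (hw i).le
    · exact le_rfl
  · refine ⟨∅, Finset.empty_mem_powerset S, ?_⟩
    have h : IsF s t (∅ : Finset E) := by
      unfold IsF
      simp
    rw [if_pos ⟨h, trivial⟩]
    simp

theorem nrm_of_mem (r : ℕ) (x : ℤ × ℤ) (h : x ∈ bx 0 r) : nrm x ≤ r := by
  unfold bx at h
  rw [Finset.mem_product, Finset.mem_Icc, Finset.mem_Icc] at h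
  unfold nrm
  simp only [Prod.fst_zero, Prod.snd_zero, zero_sub, zero_add] at h
  exact max_le (abs_le.mpr h.1) (abs_le.mpr h.2)

theorem nrm_adj (x z : ℤ × ℤ) (h : adj x z) : nrm z ≤ nrm x + 1 := by
  unfold adj at h
  unfold nrm
  have h1 := abs_nonneg (x.1 - z.1)
  have h2 := abs_nonneg (x.2 - z.2)
  have h3 : |z.1| ≤ |x.1| + |x.1 - z.1| := by
    have := abs_sub_abs_le_abs_sub z.1 x.1
    rw [abs_sub_comm z.1 x.1] at this
    linarith
  have h4 : |z.2| ≤ |x.2| + |x.2 - z.2| := by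
    have := abs_sub_abs_le_abs_sub z.2 x.2
    rw [abs_sub_comm z.2 x.2] at this
    linarith
  have h5 := le_max_left |x.1| |x.2|
  have h6 := le_max_right |x.1| |x.2|
  exact max_le (by linarith) (by linarith)

theorem adj_ne (x z : ℤ × ℤ) (h : adj x z) : x ≠ z := by
  rintro rfl
  simp [adj] at h

/-- The bijection with `Option V`. -/
def je (ρ : X) : X ≃ Option {x : X // x ≠ ρ} := (Equiv.optionSubtypeNe ρ).symm

theorem je_root (ρ : X) : je ρ ρ = none := by
  simp [je]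

theorem je_ne (ρ x : X) (h : x ≠ ρ) : je ρ x = some ⟨x, h⟩ := by
  simp [je, Equiv.optionSubtypeNe_symm_of_ne h]

/-- The network is connected. -/
theorem conn (ρ : X) (s t : E → X) (w : E → ℝ) (hw : ∀ e, 0 < w e) (S : Finset E)
    (hc : ∀ x y, Cn s t S x y) :
    (netOf (je ρ ∘ s) (je ρ ∘ t) w (fun e => (hw e).le) S).Conn := by
  set N := netOf (je ρ ∘ s) (je ρ ∘ t) w (fun e => (hw e).le) S with hN
  have hB : ∀ x y (hx : x ≠ ρ) (hy : y ≠ ρ), x ≠ y → N.B ⟨x, hx⟩ ⟨y, hy⟩ = wt s t w S x y := by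
    intro x y hx hy hxy
    show (if (⟨x, hx⟩ : {x : X // x ≠ ρ}) = ⟨y, hy⟩ then 0 else
      wt (je ρ ∘ s) (je ρ ∘ t) w S (some ⟨x, hx⟩) (some ⟨y, hy⟩)) = _
    rw [if_neg (fun h => hxy (Subtype.mk.inj h)), ← je_ne ρ x hx, ← je_ne ρ y hy,
      wt_comp _ (je ρ).injective]
  have hr : ∀ x (hx : x ≠ ρ), N.r ⟨x, hx⟩ = wt s t w S x ρ := by
    intro x hx
    show wt (je ρ ∘ s) (je ρ ∘ t) w S (some ⟨x, hx⟩) none = _
    rw [← je_ne ρ x hx, ← je_root ρ, wt_comp _ (je ρ).injective]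
  have hstep : ∀ u v, (∃ e ∈ S, ((s e = u ∧ t e = v) ∨ (s e = v ∧ t e = u))) →
      (∀ h : u ≠ ρ, N.Reach ⟨u, h⟩) → (∀ h : v ≠ ρ, N.Reach ⟨v, h⟩) := by
    rintro u v ⟨e, he, huv⟩ hu hv
    by_cases h : u = ρ
    · subst h
      apply Net.Reach.root
      rw [hr]
      exact wt_pos s t w hw S e he _ _ huv.symm
    · by_cases huv' : u = v
      · subst huv'
        exact hu hv
      · refine Net.Reach.step (hu h) ?_
        rw [hB u v h hv huv']
        exact wt_pos s t w hw S e he _ _ huv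
  have hall : ∀ x y, Relation.EqvGen (fun u v => ∃ e ∈ S, s e = u ∧ t e = v) x y →
      ((∀ h : x ≠ ρ, N.Reach ⟨x, h⟩) ↔ (∀ h : y ≠ ρ, N.Reach ⟨y, h⟩)) := by
    intro x y h
    induction h with
    | rel u v h =>
      obtain ⟨e, he, huv⟩ := h
      exact ⟨hstep u v ⟨e, he, Or.inl huv⟩, hstep v u ⟨e, he, Or.inr huv⟩⟩
    | refl u => exact Iff.rfl
    | symm u v _ ih => exact ih.symm
    | trans u v z _ _ ih1 ih2 => exact ih1.trans ih2
  rintro ⟨x, hx⟩
  exact (hall ρ x ((Cn_iff s t S ρ x).mp (hc ρ x))).mp (fun h => absurd rfl h) hx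

end K7

open K7

theorem coreG : ∃ C : ℝ, 0 < C ∧
    ∀ (β : ℝ) (_ : 0 < β) (X E : Type) [Fintype X] [DecidableEq X] [Fintype E] [DecidableEq E]
      (s t : E → X) (w : E → ℝ) (_ : ∀ e, 0 < w e) (S : Finset E)
      (_ : ∀ x y, Cn s t S x y) (R : ℕ) (ι : ℤ × ℤ → X) (_ : EmbG s t w S β R ι) (ρ : X)
      (_ : ∀ x, nrm x < R → ι x ≠ ρ) (n : ℕ) (_ : 32 * 16 ^ n ≤ R),
    (n : ℝ) * (∑ q ∈ bx 0 (R / 4), PG s t w S (ι q) ρ) ^ 2 ≤
      C * DD β / (R : ℝ) ^ 2 * (∑ x ∈ bx 0 (3 * R / 4), PG s t w S (ι x) ρ) *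
        ∑ p ∈ bx 0 (R / 4), ∑ q ∈ bx 0 (R / 4),
          (PG s t w S (ι p) (ι q) + PG s t w S (ι q) ρ) := by
  obtain ⟨C, hC, hcore⟩ := core
  refine ⟨C, hC, ?_⟩
  intro β hβ X E _ _ _ _ s t w hw S hconn R ι hemb ρ hρ n hn
  have hR : 32 ≤ R := by
    have : 1 ≤ 16 ^ n := Nat.one_le_pow _ _ (by norm_num)
    omega
  have h0 : ι 0 ≠ ρ := hρ 0 (by
    have : nrm 0 = 0 := by simp [nrm]
    rw [this]; exact_mod_cast (by omega : 0 < R))
  classical
  set ι' : ℤ × ℤ → {x : X // x ≠ ρ} := fun x => if h : ι x ≠ ρ then ⟨ι x, h⟩ else ⟨ι 0, h0⟩ with hι'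
  have hval : ∀ x, nrm x < R → (ι' x).1 = ι x := by
    intro x hx
    simp only [hι']
    rw [dif_pos (hρ x hx)]
  have hje : ∀ x, nrm x < R → je ρ (ι x) = some (ι' x) := by
    intro x hx
    rw [je_ne ρ (ι x) (hρ x hx)]
    congr 1
    exact Subtype.ext (hval x hx).symm
  have hje' : ∀ v : {x : X // x ≠ ρ}, (some v) = je ρ v.1 := fun v => (je_ne ρ v.1 v.2).symm
  have hnadj : ∀ x z, nrm x + 1 < R → adj x z → nrm z < R := fun x z hx hz =>
    lt_of_le_of_lt (nrm_adj x z hz) hx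
  have hE : Emb (netOf (je ρ ∘ s) (je ρ ∘ t) w (fun e => (hw e).le) S) β R ι' := by
    refine ⟨?_, ?_, ?_, ?_⟩
    · intro x z hx hz h
      apply hemb.inj x z hx hz
      rw [← hval x hx, ← hval z hz, h]
    · intro x hx
      have hx' : nrm x < R := by linarith
      show wt (je ρ ∘ s) (je ρ ∘ t) w S (some (ι' x)) none = 0
      rw [← hje x hx', ← je_root ρ, wt_comp _ (je ρ).injective]
      by_contra hne
      obtain ⟨z, hz, hz2⟩ := hemb.enadj x ρ hx (hρ x hx').symm hne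
      exact hρ z (hnadj x z hx hz) hz2
    · intro x z hx hz
      have hx' : nrm x < R := by linarith
      have hz' := hnadj x z hx hz
      show (if ι' x = ι' z then 0 else wt (je ρ ∘ s) (je ρ ∘ t) w S (some (ι' x)) (some (ι' z))) = β
      rw [if_neg, ← hje x hx', ← hje z hz', wt_comp _ (je ρ).injective]
      · exact hemb.eadj x z hx hz
      · intro h
        apply adj_ne x z hz
        apply hemb.inj x z hx' hz'
        rw [← hval x hx', ← hval z hz', h]
    · intro x v hx hB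
      have hx' : nrm x < R := by linarith
      change (if ι' x = v then 0 else wt (je ρ ∘ s) (je ρ ∘ t) w S (some (ι' x)) (some v)) ≠ 0 at hB
      by_cases h : ι' x = v
      · rw [if_pos h] at hB
        exact absurd rfl hB
      · rw [if_neg h, ← hje x hx', hje' v, wt_comp _ (je ρ).injective] at hB
        have hne : v.1 ≠ ι x := by
          intro h'
          apply h
          apply Subtype.ext
          rw [hval x hx', h']
        obtain ⟨z, hz, hz2⟩ := hemb.enadj x v.1 hx hne hB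
        refine ⟨z, hz, ?_⟩
        apply Subtype.ext
        rw [hval z (hnadj x z hx hz), hz2]
  have key := hcore β hβ {x : X // x ≠ ρ} E (je ρ ∘ s) (je ρ ∘ t) w (fun e => (hw e).le) S
    (conn ρ s t w hw S hconn) R ι' hE n hn
  set Z := FS s t w S (fun _ => True) with hZ
  have hZ0 : 0 < Z := FS_pos s t w hw S
  have hPG : ∀ x y, FS s t w S (fun A => Cn s t A x y) = Z * PG s t w S x y := by
    intro x y
    unfold PG
    rw [← hZ]
    field_simp
  have h1 : ∀ r : ℕ, r < R → ∀ x ∈ bx 0 r, FS (je ρ ∘ s) (je ρ ∘ t) w S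
      (fun A => Cn (je ρ ∘ s) (je ρ ∘ t) A (some (ι' x)) none) = Z * PG s t w S (ι x) ρ := by
    intro r hr x hx
    have hx' : nrm x < R := lt_of_le_of_lt (nrm_of_mem r x hx) (by exact_mod_cast hr)
    rw [← hje x hx', ← je_root ρ, FS_comp _ (je ρ).injective, hPG]
  have h2 : ∀ p ∈ bx 0 (R / 4), ∀ q ∈ bx 0 (R / 4), FS (je ρ ∘ s) (je ρ ∘ t) w S
      (fun A => Cn (je ρ ∘ s) (je ρ ∘ t) A (some (ι' p)) (some (ι' q))) =
        Z * PG s t w S (ι p) (ι q) := by
    intro p hp q hq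
    have hr : R / 4 < R := by omega
    have hp' : nrm p < R := lt_of_le_of_lt (nrm_of_mem _ p hp) (by exact_mod_cast hr)
    have hq' : nrm q < R := lt_of_le_of_lt (nrm_of_mem _ q hq) (by exact_mod_cast hr)
    rw [← hje p hp', ← hje q hq', FS_comp _ (je ρ).injective, hPG]
  rw [Finset.sum_congr rfl (h1 (R / 4) (by omega)),
    Finset.sum_congr rfl (h1 (3 * R / 4) (by omega)),
    Finset.sum_congr rfl (fun p hp => Finset.sum_congr rfl (fun q hq =>
      congrArg₂ (· + ·) (h2 p hp q hq) (h1 (R / 4) (by omega) q hq)))] at key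
  simp only [← mul_add, ← Finset.mul_sum] at key
  have hZ2 : 0 < Z ^ 2 := by positivity
  have e1 : (n : ℝ) * (Z * ∑ q ∈ bx 0 (R / 4), PG s t w S (ι q) ρ) ^ 2 =
      Z ^ 2 * ((n : ℝ) * (∑ q ∈ bx 0 (R / 4), PG s t w S (ι q) ρ) ^ 2) := by ring
  have e2 : C * DD β / (R : ℝ) ^ 2 * (Z * ∑ x ∈ bx 0 (3 * R / 4), PG s t w S (ι x) ρ) *
        (Z * ∑ p ∈ bx 0 (R / 4), ∑ q ∈ bx 0 (R / 4),
          (PG s t w S (ι p) (ι q) + PG s t w S (ι q) ρ)) =
      Z ^ 2 * (C * DD β / (R : ℝ) ^ 2 * (∑ x ∈ bx 0 (3 * R / 4), PG s t w S (ι x) ρ) *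
        ∑ p ∈ bx 0 (R / 4), ∑ q ∈ bx 0 (R / 4),
          (PG s t w S (ι p) (ι q) + PG s t w S (ι q) ρ)) := by ring
  rw [e1, e2] at key
  exact le_of_mul_le_mul_left key hZ2

end Pool.Agent.TH369.AG
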