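import Pool.Agent.TH369.AG.Defs6
import Pool.Agent.TH369.AG.J11
set_option autoImplicit false
namespace Pool.Agent.TH369.AG
open MeasureTheory Matrix

namespace K8a

theorem nrm_add_le (x z : ℤ × ℤ) : nrm (x + z) ≤ nrm x + nrm z := by
  have hx := J11.nrm_le.1 (le_refl (nrm x))
  have hz := J11.nrm_le.1 (le_refl (nrm z))
  rw [J11.nrm_le]
  constructor
  · exact (abs_add_le _ _).trans (add_le_add hx.1 hz.1)
  · exact (abs_add_le _ _).trans (add_le_add hx.2 hz.2)

theorem mem_bx' (c : ℤ × ℤ) (r : ℕ) (x : ℤ × ℤ) : x ∈ bx c r ↔ nrm (x - c) ≤ r := by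
  rw [J11.nrm_le]
  simp only [bx, Finset.mem_product, Finset.mem_Icc, Prod.fst_sub, Prod.snd_sub, abs_le]
  constructor
  · rintro ⟨⟨h1, h2⟩, h3, h4⟩
    refine ⟨⟨?_, ?_⟩, ?_, ?_⟩ <;> linarith
  · rintro ⟨⟨h1, h2⟩, h3, h4⟩
    refine ⟨⟨?_, ?_⟩, ?_, ?_⟩ <;> linarith

theorem quo (u : ℤ) (a k : ℕ) (h : |u| ≤ a * k) :
    ∃ q : ℤ, |u - a * q| ≤ a ∧ |a * q| ≤ |u| ∧ |q| ≤ k := by
  rcases Nat.eq_zero_or_pos a with ha | ha
  · subst ha
    refine ⟨0, ?_, ?_, ?_⟩
    · simpa using h
    · simp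
    · simp
  have ha' : (0 : ℤ) < a := by exact_mod_cast ha
  have key : ∀ w : ℤ, 0 ≤ w → w ≤ a * k → ∃ q : ℤ, |w - a * q| ≤ a ∧ |a * q| ≤ w ∧ |q| ≤ k := by
    intro w hw hwk
    have h1 := Int.emod_add_mul_ediv w a
    have h2 := Int.emod_nonneg w ha'.ne'
    have h3 := Int.emod_lt_of_pos w ha'
    have h4 : 0 ≤ w / a := Int.ediv_nonneg hw ha'.le
    have h5 : w / a ≤ k := by
      apply Int.ediv_le_of_le_mul ha'
      rw [mul_comm]
      exact hwk
    have h6 : 0 ≤ (a : ℤ) * (w / a) := by positivity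
    refine ⟨w / a, ?_, ?_, ?_⟩
    · rw [abs_le]
      constructor <;> linarith
    · rw [abs_of_nonneg h6]
      linarith
    · rw [abs_of_nonneg h4]
      exact h5
  rcases le_total 0 u with hu | hu
  · rw [abs_of_nonneg hu] at h ⊢
    exact key u hu h
  · rw [abs_of_nonpos hu] at h ⊢
    obtain ⟨q, h1, h2, h3⟩ := key (-u) (by linarith) h
    refine ⟨-q, ?_, ?_, ?_⟩
    · rw [← abs_neg]
      convert h1 using 2
      ring
    · rw [← abs_neg]
      convert h2 using 2
      ring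
    · rw [abs_neg]
      exact h3

theorem cov (T : Finset (ℤ × ℤ)) (F : ℤ × ℤ → ℝ) (hF : ∀ x, 0 ≤ F x) (o : ℤ × ℤ) (a k : ℕ)
    (D : ℝ) (hD0 : 0 ≤ D) (hT : ∀ x ∈ T, nrm (x - o) ≤ a * k)
    (hb : ∀ x ∈ T, ∀ b, nrm (x - b) ≤ a → nrm (b - o) ≤ nrm (x - o) → ∑ z ∈ bx b a, F z ≤ D) :
    ∑ x ∈ T, F x ≤ (2 * k + 1) ^ 2 * D := by
  classical
  have hq : ∀ u : ℤ, ∃ q : ℤ, |u| ≤ a * k → |u - a * q| ≤ a ∧ |a * q| ≤ |u| ∧ |q| ≤ k := by
    intro u
    by_cases h : |u| ≤ a * k
    · obtain ⟨q, hq⟩ := quo u a k h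
      exact ⟨q, fun _ => hq⟩
    · exact ⟨0, fun h' => absurd h' h⟩
  choose q hq using hq
  have hT' : ∀ x ∈ T, |x.1 - o.1| ≤ a * k ∧ |x.2 - o.2| ≤ a * k := by
    intro x hx
    have := J11.nrm_le.1 (hT x hx)
    exact this
  set J : ℤ × ℤ → ℤ × ℤ := fun x => (q (x.1 - o.1), q (x.2 - o.2)) with hJ
  set JJ : Finset (ℤ × ℤ) := Finset.Icc (-(k : ℤ)) k ×ˢ Finset.Icc (-(k : ℤ)) k with hJJ
  have hmaps : ∀ x ∈ T, J x ∈ JJ := by
    intro x hx
    obtain ⟨h1, h2⟩ := hT' x hx
    have h3 := (hq _ h1).2.2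
    have h4 := (hq _ h2).2.2
    rw [abs_le] at h3 h4
    rw [hJJ, Finset.mem_product, Finset.mem_Icc, Finset.mem_Icc]
    exact ⟨h3, h4⟩
  have hcard : (JJ.card : ℝ) = (2 * k + 1) ^ 2 := by
    rw [hJJ, Finset.card_product, Int.card_Icc]
    have : ((k : ℤ) + 1 - -(k : ℤ)).toNat = 2 * k + 1 := by omega
    rw [this]
    push_cast
    ring
  rw [← Finset.sum_fiberwise_of_maps_to hmaps]
  calc ∑ j ∈ JJ, ∑ x ∈ T with J x = j, F x ≤ ∑ j ∈ JJ, D := by
        apply Finset.sum_le_sum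
        intro j _
        rcases Finset.eq_empty_or_nonempty (T.filter fun x => J x = j) with he | ⟨x, hx⟩
        · rw [he, Finset.sum_empty]
          exact hD0
        · rw [Finset.mem_filter] at hx
          obtain ⟨hxT, hxj⟩ := hx
          set b : ℤ × ℤ := (o.1 + a * j.1, o.2 + a * j.2) with hbdef
          have hbx : ∀ z ∈ T, J z = j → nrm (z - b) ≤ a ∧ nrm (b - o) ≤ nrm (z - o) := by
            intro z hz hzj
            obtain ⟨h1, h2⟩ := hT' z hz
            obtain ⟨a1, a2, a3⟩ := hq _ h1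
            obtain ⟨b1, b2, b3⟩ := hq _ h2
            have e1 : q (z.1 - o.1) = j.1 := by rw [← hzj]
            have e2 : q (z.2 - o.2) = j.2 := by rw [← hzj]
            rw [e1] at a1 a2
            rw [e2] at b1 b2
            have hn := J11.nrm_le.1 (le_refl (nrm (z - o)))
            constructor
            · rw [J11.nrm_le]
              constructor
              · convert a1 using 2
                simp only [hbdef, Prod.fst_sub]
                ring
              · convert b1 using 2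
                simp only [hbdef, Prod.snd_sub]
                ring
            · rw [J11.nrm_le]
              constructor
              · refine le_trans ?_ hn.1
                refine le_trans (le_of_eq ?_) a2
                congr 1
                simp only [hbdef, Prod.fst_sub]
                ring
              · refine le_trans ?_ hn.2
                refine le_trans (le_of_eq ?_) b2
                congr 1
                simp only [hbdef, Prod.snd_sub]
                ring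
          have hxb := hbx x hxT hxj
          refine le_trans ?_ (hb x hxT b hxb.1 hxb.2)
          apply Finset.sum_le_sum_of_subset_of_nonneg
          · intro z hz
            rw [Finset.mem_filter] at hz
            rw [mem_bx']
            exact (hbx z hz.1 hz.2).1
          · intro z _ _
            exact hF z
    _ = (2 * k + 1) ^ 2 * D := by
        rw [Finset.sum_const, nsmul_eq_mul, hcard]

end K8a

theorem EmbG_shift {X E : Type} [Fintype X] [DecidableEq X] [Fintype E] [DecidableEq E]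
    (s t : E → X) (w : E → ℝ) (S : Finset E) (β : ℝ) (R : ℕ) (ι : ℤ × ℤ → X)
    (hE : EmbG s t w S β R ι) (c : ℤ × ℤ) (R' : ℕ) (h : nrm c + R' ≤ R) :
    EmbG s t w S β R' (fun x => ι (c + x)) := by
  have hadj : ∀ x z, adj x z → adj (c + x) (c + z) := by
    intro x z hxz
    unfold adj at hxz ⊢
    simpa only [Prod.fst_add, Prod.snd_add, add_sub_add_left_eq_sub] using hxz
  refine ⟨?_, ?_, ?_⟩
  · intro x z hx hz hxz
    have h1 := K8a.nrm_add_le c x
    have h2 := K8a.nrm_add_le c z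
    have := hE.inj (c + x) (c + z) (by linarith) (by linarith) hxz
    exact add_left_cancel this
  · intro x z hx hxz
    have h1 := K8a.nrm_add_le c x
    exact hE.eadj (c + x) (c + z) (by linarith) (hadj x z hxz)
  · intro x v hx hv hw
    have h1 := K8a.nrm_add_le c x
    obtain ⟨z, hz, hzv⟩ := hE.enadj (c + x) v (by linarith) hv hw
    refine ⟨z - c, ?_, ?_⟩
    · unfold adj at hz ⊢
      simp only [Prod.fst_add, Prod.snd_add, Prod.fst_sub, Prod.snd_sub] at hz ⊢
      rw [← hz]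
      congr 2 <;> ring
    · rw [add_sub_cancel]
      exact hzv

/-- covering a box by boxes of radius `a` -/
theorem cover_box (F : ℤ × ℤ → ℝ) (hF : ∀ x, 0 ≤ F x) (c : ℤ × ℤ) (r a k : ℕ) (hr : r ≤ a * k)
    (D : ℝ) (hD : ∀ b, nrm (b - c) ≤ a * k → ∑ x ∈ bx b a, F x ≤ D) :
    ∑ x ∈ bx c r, F x ≤ (2 * k + 1) ^ 2 * D := by
  have hr' : (r : ℤ) ≤ a * k := by exact_mod_cast hr
  have hT : ∀ x ∈ bx c r, nrm (x - c) ≤ a * k := fun x hx =>
    ((K8a.mem_bx' c r x).1 hx).trans hr'
  have hD0 : 0 ≤ D := by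
    refine le_trans (Finset.sum_nonneg fun x _ => hF x) (hD c ?_)
    rw [sub_self]
    simp only [nrm, Prod.fst_zero, Prod.snd_zero, abs_zero, max_self]
    positivity
  exact K8a.cov _ F hF c a k D hD0 hT (fun x hx b _ hb => hD b (hb.trans (hT x hx)))

/-- covering an annulus around `p` by boxes of radius `a` whose distance to `p` is at least `4 * a` -/
theorem cover_annulus (F : ℤ × ℤ → ℝ) (hF : ∀ x, 0 ≤ F x) (c p : ℤ × ℤ) (r a : ℕ) (D : ℝ)
    (hD0 : 0 ≤ D) (hp : nrm (p - c) ≤ r)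
    (hD : ∀ b, nrm (b - c) ≤ r + a → 4 * (a : ℤ) ≤ nrm (b - p) → ∑ x ∈ bx b a, F x ≤ D) :
    ∑ x ∈ (bx c r).filter (fun x => 5 * (a : ℤ) ≤ nrm (x - p) ∧ nrm (x - p) < 20 * (a : ℤ)), F x ≤
      41 ^ 2 * D := by
  have h := K8a.cov ((bx c r).filter
    (fun x => 5 * (a : ℤ) ≤ nrm (x - p) ∧ nrm (x - p) < 20 * (a : ℤ))) F hF p a 20 D hD0
    (by
      intro x hx
      rw [Finset.mem_filter] at hx
      push_cast
      linarith [hx.2.2])
    (by
      intro x hx b h1 h2
      rw [Finset.mem_filter, K8a.mem_bx'] at hx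
      apply hD
      · have h3 := K8a.nrm_add_le (b - x) (x - c)
        rw [sub_add_sub_cancel, J11.nrm_comm b x] at h3
        linarith [hx.1]
      · have h3 := K8a.nrm_add_le (x - b) (b - p)
        rw [sub_add_sub_cancel] at h3
        linarith [hx.2.1])
  norm_num at h ⊢
  exact h

end Pool.Agent.TH369.AG
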