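import Pool.Agent.TH369.AG.Defs3
set_option autoImplicit false
namespace Pool.Agent.TH369.AG
open MeasureTheory Matrix
/-! ### J12: the recursion -/

theorem rec_bound (C : ℝ) (hC : 0 ≤ C) (d : ℕ → ℝ) (h0 : ∀ M, 0 ≤ d M)
    (h : ∀ M, 1 ≤ M → d M ^ 2 ≤ C / M * d (M - 1) * (1 + ∑ j ∈ Finset.range M, d j))
    (lam : ℝ) (hl : 1 < lam) : ∃ K : ℝ, 0 < K ∧ ∀ M, d M ≤ K * lam ^ M := by
  have hl0 : 0 < lam := by linarith
  have hl1 : 0 < lam - 1 := by linarith
  set c : ℝ := lam / (lam - 1) with hc
  have hc0 : 0 < c := by positivity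
  obtain ⟨M0, hM0⟩ := exists_nat_gt (C * c / lam)
  set K : ℝ := 1 + ∑ j ∈ Finset.range (M0 + 1), d j with hK
  have hK1 : 1 ≤ K := by
    have : 0 ≤ ∑ j ∈ Finset.range (M0 + 1), d j := Finset.sum_nonneg fun j _ => h0 j
    linarith
  refine ⟨K, by linarith, fun M => ?_⟩
  induction M using Nat.strong_induction_on with
  | _ M ih =>
    rcases Nat.lt_or_ge M (M0 + 1) with hM | hM
    · have h1 : d M ≤ ∑ j ∈ Finset.range (M0 + 1), d j :=
        Finset.single_le_sum (f := d) (fun j _ => h0 j) (Finset.mem_range.2 hM)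
      have h2 : 1 ≤ lam ^ M := one_le_pow₀ hl.le
      nlinarith
    · have hM1 : 1 ≤ M := by omega
      have hMR : (1 : ℝ) ≤ M := by exact_mod_cast hM1
      have hMM : (M0 : ℝ) ≤ M := by exact_mod_cast (by omega : M0 ≤ M)
      have hsum : ∑ j ∈ Finset.range M, d j ≤ K * ((lam ^ M - 1) / (lam - 1)) := by
        calc ∑ j ∈ Finset.range M, d j ≤ ∑ j ∈ Finset.range M, K * lam ^ j :=
              Finset.sum_le_sum fun j hj => ih j (Finset.mem_range.1 hj)
          _ = K * ((lam ^ M - 1) / (lam - 1)) := by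
              rw [← Finset.mul_sum, geom_sum_eq hl.ne']
      have h3 : 1 ≤ lam ^ M := one_le_pow₀ hl.le
      have h4 : 1 + ∑ j ∈ Finset.range M, d j ≤ K * c * lam ^ M := by
        have e : K * c * lam ^ M = K * lam ^ M + K * (lam ^ M / (lam - 1)) := by
          rw [hc]; field_simp; ring
        rw [e]
        have h5 : K * ((lam ^ M - 1) / (lam - 1)) ≤ K * (lam ^ M / (lam - 1)) := by
          gcongr
          linarith
        nlinarith
      have h5 := ih (M - 1) (by omega)
      have h6 : d M ^ 2 ≤ (K * lam ^ M) ^ 2 := by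
        calc d M ^ 2 ≤ C / M * d (M - 1) * (1 + ∑ j ∈ Finset.range M, d j) := h M hM1
          _ ≤ C / M * (K * lam ^ (M - 1)) * (K * c * lam ^ M) := by
              have := h0 (M - 1)
              have h7 : 0 ≤ 1 + ∑ j ∈ Finset.range M, d j := by
                have : 0 ≤ ∑ j ∈ Finset.range M, d j := Finset.sum_nonneg fun j _ => h0 j
                linarith
              gcongr
          _ = (C * c / lam / M) * (K ^ 2 * (lam ^ (M - 1) * lam * lam ^ M)) := by
              field_simp
          _ = (C * c / lam / M) * (K * lam ^ M) ^ 2 := by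
              rw [← pow_succ, Nat.sub_add_cancel hM1]
              ring
          _ ≤ 1 * (K * lam ^ M) ^ 2 := by
              gcongr
              rw [div_le_one (by linarith)]
              linarith
          _ = _ := one_mul _
      exact le_of_sq_le_sq h6 (by positivity)

end Pool.Agent.TH369.AG
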