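import Pool.Agent.TH369.AG.Defs6
import Pool.Agent.TH369.AG.J12
set_option autoImplicit false
namespace Pool.Agent.TH369.AG
open MeasureTheory Matrix

theorem rec_bound2 : ∃ c : ℝ, 0 < c ∧ ∀ (C : ℝ), 1 ≤ C → ∀ d : ℕ → ℝ, (∀ M, 0 ≤ d M) →
    (∀ M, d M ≤ 16 * 16 ^ M) →
    (∀ M, 1 ≤ M → d M ^ 2 ≤ C / M * d (M - 1) * (1 + ∑ j ∈ Finset.range M, d j)) →
    ∀ M, d M ≤ Real.exp (c * C) * (3 / 2 : ℝ) ^ M := by
  refine ⟨3 * Real.log 16, by positivity, fun C hC d h0 h1 h2 => ?_⟩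
  set K : ℝ := Real.exp (3 * Real.log 16 * C) with hKdef
  have hlog : 0 < Real.log 16 := Real.log_pos (by norm_num)
  have hK1 : 1 ≤ K := by
    rw [hKdef]
    exact Real.one_le_exp (by positivity)
  intro M
  induction M using Nat.strong_induction_on with
  | _ M ih =>
    have hpow : (1 : ℝ) ≤ (3 / 2 : ℝ) ^ M := one_le_pow₀ (by norm_num)
    rcases le_or_gt (M : ℝ) (2 * C) with hM | hM
    · have e1 : (16 : ℝ) * 16 ^ M = Real.exp (Real.log 16 * (1 + M)) := by
        rw [mul_add, mul_one, Real.exp_add, Real.exp_log (by norm_num), mul_comm (Real.log 16),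
          Real.exp_nat_mul, Real.exp_log (by norm_num)]
      have e2 : (16 : ℝ) * 16 ^ M ≤ K := by
        rw [e1, hKdef]
        apply Real.exp_le_exp.2
        have : (1 + (M : ℝ)) ≤ 3 * C := by linarith
        nlinarith
      calc d M ≤ 16 * 16 ^ M := h1 M
        _ ≤ K := e2
        _ = K * 1 := (mul_one K).symm
        _ ≤ K * (3 / 2 : ℝ) ^ M := by gcongr
    · have hMpos : (0 : ℝ) < M := by linarith
      have hM1 : 1 ≤ M := by exact_mod_cast Nat.one_le_iff_ne_zero.2 (by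
        rintro rfl
        simp at hMpos)
      have hCM : C / M ≤ 1 / 2 := by
        rw [div_le_iff₀ hMpos]
        linarith
      have hCM0 : 0 ≤ C / M := by positivity
      have hsum : ∑ j ∈ Finset.range M, d j ≤ K * (((3 / 2 : ℝ) ^ M - 1) / (3 / 2 - 1)) := by
        calc ∑ j ∈ Finset.range M, d j ≤ ∑ j ∈ Finset.range M, K * (3 / 2 : ℝ) ^ j :=
              Finset.sum_le_sum fun j hj => ih j (Finset.mem_range.1 hj)
          _ = K * (((3 / 2 : ℝ) ^ M - 1) / (3 / 2 - 1)) := by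
              rw [← Finset.mul_sum, geom_sum_eq (by norm_num)]
      have h4 : 1 + ∑ j ∈ Finset.range M, d j ≤ 2 * K * (3 / 2 : ℝ) ^ M := by
        have e : K * (((3 / 2 : ℝ) ^ M - 1) / (3 / 2 - 1)) = 2 * K * (3 / 2 : ℝ) ^ M - 2 * K := by
          ring
        rw [e] at hsum
        linarith
      have h40 : 0 ≤ 1 + ∑ j ∈ Finset.range M, d j := by
        have : 0 ≤ ∑ j ∈ Finset.range M, d j := Finset.sum_nonneg fun j _ => h0 j
        linarith
      have h5 := ih (M - 1) (by omega)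
      have h6 : d M ^ 2 ≤ (K * (3 / 2 : ℝ) ^ M) ^ 2 := by
        calc d M ^ 2 ≤ C / M * d (M - 1) * (1 + ∑ j ∈ Finset.range M, d j) := h2 M hM1
          _ ≤ 1 / 2 * (K * (3 / 2 : ℝ) ^ (M - 1)) * (2 * K * (3 / 2 : ℝ) ^ M) := by
              have := h0 (M - 1)
              gcongr
          _ = K ^ 2 * ((3 / 2 : ℝ) ^ (M - 1) * (3 / 2 : ℝ) ^ M) := by ring
          _ ≤ K ^ 2 * ((3 / 2 : ℝ) ^ M * (3 / 2 : ℝ) ^ M) := by
              gcongr
              · norm_num
              · omega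
          _ = (K * (3 / 2 : ℝ) ^ M) ^ 2 := by ring
      have h7 := Real.sqrt_le_sqrt h6
      rw [Real.sqrt_sq (h0 M), Real.sqrt_sq (by positivity)] at h7
      exact h7

end Pool.Agent.TH369.AG
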