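import Pool.Agent.TH369.AG.Defs6
import Pool.Agent.TH369.AG.J10
import Pool.Agent.TH369.AG.K7
import Pool.Agent.TH369.AG.K8a
import Pool.Agent.TH369.AG.K8b

/-!
# ARBOREAL-K8c: the bound of the expected size of a tree in a box
-/

set_option autoImplicit false
set_option linter.unusedSectionVars false
namespace Pool.Agent.TH369.AG
open MeasureTheory Matrix

namespace K8c

section PG

variable {X E : Type} [Fintype X] [DecidableEq X] [Fintype E] [DecidableEq E]

theorem FS_true_pos (s t : E → X) (w : E → ℝ) (hw : ∀ e, 0 < w e) (S : Finset E) :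
    0 < FS s t w S (fun _ => True) := by
  unfold FS
  refine Finset.sum_pos (fun A _ => Finset.prod_pos fun e _ => hw e) ⟨∅, ?_⟩
  simp only [Finset.mem_filter]
  exact ⟨by simp, by simp [IsF], trivial⟩

theorem FS_le_true (s t : E → X) (w : E → ℝ) (hw : ∀ e, 0 < w e) (S : Finset E)
    (P : Finset E → Prop) : FS s t w S P ≤ FS s t w S (fun _ => True) := by
  unfold FS
  refine Finset.sum_le_sum_of_subset_of_nonneg ?_ ?_
  · intro A hA
    simp only [Finset.mem_filter] at hA ⊢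
    exact ⟨hA.1, hA.2.1, trivial⟩
  · intro A _ _
    exact Finset.prod_nonneg fun e _ => (hw e).le

theorem PG_nonneg (s t : E → X) (w : E → ℝ) (hw : ∀ e, 0 < w e) (S : Finset E) (x y : X) :
    0 ≤ PG s t w S x y :=
  div_nonneg (J10.FS_nonneg _ _ _ (fun e => (hw e).le) _ _) (FS_true_pos s t w hw S).le

theorem PG_le_one (s t : E → X) (w : E → ℝ) (hw : ∀ e, 0 < w e) (S : Finset E) (x y : X) :
    PG s t w S x y ≤ 1 :=
  div_le_one_of_le₀ (FS_le_true s t w hw S _) (FS_true_pos s t w hw S).le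

theorem PG_comm (s t : E → X) (w : E → ℝ) (S : Finset E) (x y : X) :
    PG s t w S x y = PG s t w S y x := by
  unfold PG
  congr 2
  funext A
  exact propext (J10.Cn_comm s t A x y)

end PG

theorem nrm_le_iff {x : ℤ × ℤ} {k : ℤ} : nrm x ≤ k ↔ |x.1| ≤ k ∧ |x.2| ≤ k := by
  unfold nrm
  exact max_le_iff

theorem nrm_nonneg (x : ℤ × ℤ) : 0 ≤ nrm x := le_max_of_le_left (abs_nonneg _)

theorem nrm_add (x y : ℤ × ℤ) : nrm (x + y) ≤ nrm x + nrm y := by
  rw [nrm_le_iff]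
  have h1 : |x.1| ≤ nrm x := le_max_left _ _
  have h2 : |x.2| ≤ nrm x := le_max_right _ _
  have h3 : |y.1| ≤ nrm y := le_max_left _ _
  have h4 : |y.2| ≤ nrm y := le_max_right _ _
  constructor
  · exact (abs_add_le _ _).trans (add_le_add h1 h3)
  · exact (abs_add_le _ _).trans (add_le_add h2 h4)

theorem nrm_neg (x : ℤ × ℤ) : nrm (-x) = nrm x := by
  unfold nrm
  simp [abs_neg]

theorem mem_bx {c x : ℤ × ℤ} {r : ℕ} : x ∈ bx c r ↔ nrm (x - c) ≤ r := by
  rw [nrm_le_iff, abs_le, abs_le]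
  unfold bx
  rw [Finset.mem_product, Finset.mem_Icc, Finset.mem_Icc]
  simp only [Prod.fst_sub, Prod.snd_sub]
  constructor
  · rintro ⟨⟨a, b⟩, c, d⟩
    refine ⟨⟨?_, ?_⟩, ?_, ?_⟩ <;> linarith
  · rintro ⟨⟨a, b⟩, c, d⟩
    refine ⟨⟨?_, ?_⟩, ?_, ?_⟩ <;> linarith

theorem card_bx (c : ℤ × ℤ) (r : ℕ) : (bx c r).card = (2 * r + 1) ^ 2 := by
  unfold bx
  rw [Finset.card_product, Int.card_Icc, Int.card_Icc, sq]
  congr 1 <;> omega

/-- The sum over a box with another centre. -/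
theorem sum_bx_shift (F : ℤ × ℤ → ℝ) (c : ℤ × ℤ) (r : ℕ) :
    ∑ x ∈ bx 0 r, F (c + x) = ∑ x ∈ bx c r, F x := by
  refine Finset.sum_bij (fun x _ => c + x) ?_ ?_ ?_ ?_
  · intro x hx
    rw [mem_bx] at hx ⊢
    simpa using hx
  · intro x _ y _ h
    exact add_left_cancel h
  · intro y hy
    refine ⟨y - c, ?_, by abel⟩
    rw [mem_bx] at hy ⊢
    simpa using hy
  · intro x _
    rfl

/-- All values of the sums. -/
def VS (β : ℝ) (M : ℕ) : Set ℝ :=
  {v | ∃ (X E : Type) (_ : Fintype X) (_ : DecidableEq X) (_ : Fintype E) (_ : DecidableEq E)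
      (s t : E → X) (w : E → ℝ) (_ : ∀ e, 0 < w e) (S : Finset E)
      (_ : ∀ x y, Cn s t S x y) (ι : ℤ × ℤ → X) (_ : EmbG s t w S β (4 ^ M) ι) (ρ : X)
      (_ : ∀ x, nrm x < 4 ^ M → ι x ≠ ρ), v = ∑ q ∈ bx 0 (4 ^ M / 4), PG s t w S (ι q) ρ}

/-- The supremum of the values. -/
noncomputable def dd (β : ℝ) (M : ℕ) : ℝ := sSup (VS β M)

theorem four_div (M : ℕ) (hM : 1 ≤ M) : 4 ^ M / 4 = 4 ^ (M - 1) := by
  obtain ⟨m, rfl⟩ : ∃ m, M = m + 1 := ⟨M - 1, by omega⟩
  rw [pow_succ, Nat.mul_div_cancel _ (by norm_num : 0 < 4), Nat.add_sub_cancel]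

theorem card_le (M : ℕ) : ((bx 0 (4 ^ M / 4)).card : ℝ) ≤ 16 ^ M := by
  rw [card_bx]
  rcases Nat.eq_zero_or_pos M with rfl | hM
  · norm_num
  · rw [four_div M hM]
    obtain ⟨m, rfl⟩ : ∃ m, M = m + 1 := ⟨M - 1, by omega⟩
    rw [Nat.add_sub_cancel]
    push_cast
    have h1 : (1 : ℝ) ≤ 4 ^ m := one_le_pow₀ (by norm_num)
    have h2 : (16 : ℝ) ^ (m + 1) = 16 * (4 ^ m) ^ 2 := by
      rw [pow_succ, ← pow_mul, mul_comm m 2, pow_mul]
      norm_num
      ring
    rw [h2]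
    nlinarith

theorem VS_bound (β : ℝ) (M : ℕ) : ∀ v ∈ VS β M, 0 ≤ v ∧ v ≤ 16 ^ M := by
  rintro v ⟨X, E, _, _, _, _, s, t, w, hw, S, hS, ι, hE, ρ, hρ, rfl⟩
  constructor
  · exact Finset.sum_nonneg fun q _ => PG_nonneg s t w hw S _ _
  · calc ∑ q ∈ bx 0 (4 ^ M / 4), PG s t w S (ι q) ρ
        ≤ ∑ q ∈ bx 0 (4 ^ M / 4), (1 : ℝ) :=
          Finset.sum_le_sum fun q _ => PG_le_one s t w hw S _ _
      _ = ((bx 0 (4 ^ M / 4)).card : ℝ) := by simp
      _ ≤ 16 ^ M := card_le M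

theorem VS_bdd (β : ℝ) (M : ℕ) : BddAbove (VS β M) := ⟨16 ^ M, fun v hv => (VS_bound β M v hv).2⟩

theorem dd_nonneg (β : ℝ) (M : ℕ) : 0 ≤ dd β M := Real.sSup_nonneg fun v hv => (VS_bound β M v hv).1

theorem dd_le (β : ℝ) (M : ℕ) : dd β M ≤ 16 ^ M :=
  Real.sSup_le (fun v hv => (VS_bound β M v hv).2) (by positivity)

section inst

variable {X E : Type} [Fintype X] [DecidableEq X] [Fintype E] [DecidableEq E]

/-- Every box (with another root outside of it) inside an embedded box. -/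
theorem box_le (β : ℝ) (s t : E → X) (w : E → ℝ) (hw : ∀ e, 0 < w e) (S : Finset E)
    (hS : ∀ x y, Cn s t S x y) (R : ℕ) (ι : ℤ × ℤ → X) (hE : EmbG s t w S β R ι) (ρ : X)
    (b : ℤ × ℤ) (m : ℕ) (hb : nrm b + 4 ^ m ≤ R) (hρ : ∀ x, nrm x < 4 ^ m → ι (b + x) ≠ ρ) :
    ∑ x ∈ bx b (4 ^ m / 4), PG s t w S (ι x) ρ ≤ dd β m := by
  refine le_csSup (VS_bdd β m) ?_
  refine ⟨X, E, inferInstance, inferInstance, inferInstance, inferInstance, s, t, w, hw, S, hS,
    fun x => ι (b + x), EmbG_shift s t w S β R ι hE b (4 ^ m) (by exact_mod_cast hb), ρ, hρ, ?_⟩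
  exact (sum_bx_shift (fun x => PG s t w S (ι x) ρ) b (4 ^ m / 4)).symm

/-- The value of an instance. -/
theorem val_le (β : ℝ) (s t : E → X) (w : E → ℝ) (hw : ∀ e, 0 < w e) (S : Finset E)
    (hS : ∀ x y, Cn s t S x y) (M : ℕ) (ι : ℤ × ℤ → X) (hE : EmbG s t w S β (4 ^ M) ι) (ρ : X)
    (hρ : ∀ x, nrm x < 4 ^ M → ι x ≠ ρ) (hM : 1 ≤ M) :
    ∑ x ∈ bx 0 (4 ^ M / 4), PG s t w S (ι x) ρ ≤ 81 * dd β (M - 1) := by
  rcases Nat.lt_or_ge M 2 with h2 | h2
  · obtain rfl : M = 1 := by omega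
    have h1 : ∀ x ∈ bx 0 (4 ^ 1 / 4), PG s t w S (ι x) ρ ≤ dd β 0 := by
      intro x hx
      rw [mem_bx] at hx
      have hx1 : nrm x ≤ 1 := by simpa using hx
      have h := box_le β s t w hw S hS (4 ^ 1) ι hE ρ x 0 (by push_cast; linarith) (by
        intro z hz
        apply hρ
        have := nrm_add x z
        linarith)
      have h3 : bx x (4 ^ 0 / 4) = {x} := by
        ext z
        rw [mem_bx, Finset.mem_singleton]
        constructor
        · intro h4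
          have h5 : nrm (z - x) ≤ 0 := by simpa using h4
          rw [nrm_le_iff] at h5
          have h6 := abs_nonpos_iff.1 h5.1
          have h7 := abs_nonpos_iff.1 h5.2
          have : z - x = 0 := Prod.ext h6 h7
          exact sub_eq_zero.1 this
        · rintro rfl
          simp [nrm]
      rw [h3, Finset.sum_singleton] at h
      exact h
    calc ∑ x ∈ bx 0 (4 ^ 1 / 4), PG s t w S (ι x) ρ
        ≤ ∑ x ∈ bx 0 (4 ^ 1 / 4), dd β 0 := Finset.sum_le_sum h1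
      _ = 9 * dd β 0 := by
          rw [Finset.sum_const, card_bx]
          norm_num
      _ ≤ 81 * dd β 0 := by
          have := dd_nonneg β 0
          linarith
  · obtain ⟨m, rfl⟩ : ∃ m, M = m + 2 := ⟨M - 2, by omega⟩
    have h := cover_box (fun x => PG s t w S (ι x) ρ) (fun x => PG_nonneg s t w hw S _ _) 0
      (4 ^ (m + 2) / 4) (4 ^ m) 4 (by rw [four_div _ (by omega)]; exact le_of_eq (pow_succ 4 m))
      (dd β (m + 1)) (by
        intro b hb
        rw [sub_zero] at hb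
        have h3 := box_le β s t w hw S hS (4 ^ (m + 2)) ι hE ρ b (m + 1) (by
          push_cast at hb ⊢
          have : (0 : ℤ) < 4 ^ m := by positivity
          simp only [pow_succ]
          linarith) (by
          intro z hz
          apply hρ
          have := nrm_add b z
          push_cast at hb
          have h0 : (0 : ℤ) < 4 ^ m := by positivity
          rw [pow_succ] at hz
          rw [pow_succ, pow_succ]
          linarith)
        rw [four_div _ (by omega), Nat.add_sub_cancel] at h3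
        exact h3)
    have e1 : m + 2 - 1 = m + 1 := rfl
    rw [e1]
    calc _ ≤ _ := h
      _ = 81 * dd β (m + 1) := by norm_num

theorem big_le (β : ℝ) (s t : E → X) (w : E → ℝ) (hw : ∀ e, 0 < w e) (S : Finset E)
    (hS : ∀ x y, Cn s t S x y) (M : ℕ) (ι : ℤ × ℤ → X) (hE : EmbG s t w S β (4 ^ M) ι) (ρ : X)
    (hρ : ∀ x, nrm x < 4 ^ M → ι x ≠ ρ) (hM : 2 ≤ M) :
    ∑ x ∈ bx 0 (3 * 4 ^ M / 4), PG s t w S (ι x) ρ ≤ 625 * dd β (M - 1) := by
  obtain ⟨m, rfl⟩ : ∃ m, M = m + 2 := ⟨M - 2, by omega⟩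
  have h := cover_box (fun x => PG s t w S (ι x) ρ) (fun x => PG_nonneg s t w hw S _ _) 0
    (3 * 4 ^ (m + 2) / 4) (4 ^ m) 12 (by
      rw [pow_succ, pow_succ]
      omega)
    (dd β (m + 1)) (by
      intro b hb
      rw [sub_zero] at hb
      have h3 := box_le β s t w hw S hS (4 ^ (m + 2)) ι hE ρ b (m + 1) (by
        push_cast at hb ⊢
        have : (0 : ℤ) < 4 ^ m := by positivity
        simp only [pow_succ]
        linarith) (by
        intro z hz
        apply hρ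
        have := nrm_add b z
        push_cast at hb
        have h0 : (0 : ℤ) < 4 ^ m := by positivity
        rw [pow_succ] at hz
        rw [pow_succ, pow_succ]
        linarith)
      rw [four_div _ (by omega), Nat.add_sub_cancel] at h3
      exact h3)
  have e1 : m + 2 - 1 = m + 1 := rfl
  rw [e1]
  calc _ ≤ _ := h
    _ = 625 * dd β (m + 1) := by norm_num

theorem exists_scale (v : ℤ) (hv : 5 ≤ v) (M : ℕ) (hM : v < 5 * 4 ^ M) :
    ∃ j ∈ Finset.range M, 5 * (4 : ℤ) ^ j ≤ v ∧ v < 20 * 4 ^ j := by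
  induction M with
  | zero => norm_num at hM; omega
  | succ M ih =>
    by_cases h : v < 5 * 4 ^ M
    · obtain ⟨j, hj, h1⟩ := ih h
      exact ⟨j, Finset.mem_range.2 ((Finset.mem_range.1 hj).trans (Nat.lt_succ_self M)), h1⟩
    · refine ⟨M, Finset.self_mem_range_succ M, not_lt.1 h, ?_⟩
      rw [pow_succ] at hM
      linarith

theorem pair_le (β : ℝ) (s t : E → X) (w : E → ℝ) (hw : ∀ e, 0 < w e) (S : Finset E)
    (hS : ∀ x y, Cn s t S x y) (M : ℕ) (ι : ℤ × ℤ → X) (hE : EmbG s t w S β (4 ^ M) ι)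
    (hM : 2 ≤ M) (p : ℤ × ℤ) (hp : p ∈ bx 0 (4 ^ M / 4)) :
    ∑ q ∈ bx 0 (4 ^ M / 4), PG s t w S (ι p) (ι q) ≤
      81 + 1681 * ∑ j ∈ Finset.range M, dd β j := by
  obtain ⟨m, rfl⟩ : ∃ m, M = m + 2 := ⟨M - 2, by omega⟩
  have e0 : 4 ^ (m + 2) / 4 = 4 ^ (m + 1) := four_div _ (by omega)
  rw [e0] at hp ⊢
  rw [mem_bx, sub_zero] at hp
  push_cast at hp
  set F : ℤ × ℤ → ℝ := fun q => PG s t w S (ι p) (ι q) with hF
  have hF0 : ∀ q, 0 ≤ F q := fun q => PG_nonneg s t w hw S _ _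
  have hF1 : ∀ q, F q ≤ 1 := fun q => PG_le_one s t w hw S _ _
  have h1 : ∀ q ∈ bx 0 (4 ^ (m + 1)), F q ≤ (if nrm (q - p) ≤ 4 then F q else 0) +
      ∑ j ∈ Finset.range (m + 1),
        (if 5 * (4 : ℤ) ^ j ≤ nrm (q - p) ∧ nrm (q - p) < 20 * 4 ^ j then F q else 0) := by
    intro q hq
    rw [mem_bx, sub_zero] at hq
    push_cast at hq
    by_cases h4 : nrm (q - p) ≤ 4
    · rw [if_pos h4]
      refine le_add_of_nonneg_right (Finset.sum_nonneg fun j _ => ?_)
      split_ifs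
      · exact hF0 q
      · exact le_rfl
    · rw [if_neg h4, zero_add]
      have h5 : nrm (q - p) < 5 * 4 ^ (m + 1) := by
        have h6 := nrm_add q (-p)
        rw [nrm_neg] at h6
        have h7 : (0 : ℤ) < 4 ^ (m + 1) := by positivity
        rw [sub_eq_add_neg]
        linarith
      obtain ⟨j, hj, h8⟩ := exists_scale _ (by omega : 5 ≤ nrm (q - p)) _ h5
      refine le_trans ?_ (Finset.single_le_sum (f := fun j =>
        (if 5 * (4 : ℤ) ^ j ≤ nrm (q - p) ∧ nrm (q - p) < 20 * 4 ^ j then F q else 0)) ?_ hj)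
      · simp only [if_pos h8]
        exact le_rfl
      · intro i _
        split_ifs
        · exact hF0 q
        · exact le_rfl
  have h2 : ∑ q ∈ bx 0 (4 ^ (m + 1)), (if nrm (q - p) ≤ 4 then F q else 0) ≤ 81 := by
    rw [← Finset.sum_filter]
    calc ∑ q ∈ (bx 0 (4 ^ (m + 1))).filter (fun q => nrm (q - p) ≤ 4), F q
        ≤ ∑ q ∈ bx p 4, F q := by
          refine Finset.sum_le_sum_of_subset_of_nonneg ?_ fun q _ _ => hF0 q
          intro q hq
          rw [Finset.mem_filter] at hq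
          rw [mem_bx]
          exact_mod_cast hq.2
      _ ≤ ∑ q ∈ bx p 4, (1 : ℝ) := Finset.sum_le_sum fun q _ => hF1 q
      _ = 81 := by
          rw [Finset.sum_const, card_bx]
          norm_num
  have h3 : ∀ j ∈ Finset.range (m + 1), ∑ q ∈ bx 0 (4 ^ (m + 1)),
      (if 5 * (4 : ℤ) ^ j ≤ nrm (q - p) ∧ nrm (q - p) < 20 * 4 ^ j then F q else 0) ≤
      1681 * dd β (j + 1) := by
    intro j hj
    rw [Finset.mem_range] at hj
    rw [← Finset.sum_filter]
    have hpow : (4 : ℤ) ^ j ≤ 4 ^ m := pow_le_pow_right₀ (by norm_num) (by omega)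
    have hpos : (0 : ℤ) < 4 ^ j := by positivity
    have h := cover_annulus F hF0 0 p (4 ^ (m + 1)) (4 ^ j) (dd β (j + 1)) (dd_nonneg β _)
      (by rw [sub_zero]; push_cast; exact hp) (by
        intro b hb hb2
        rw [sub_zero] at hb
        push_cast at hb hb2
        have h3 := box_le β s t w hw S hS (4 ^ (m + 2)) ι hE (ι p) b (j + 1) (by
          push_cast
          rw [pow_succ (4 : ℤ) (m + 1), pow_succ (4 : ℤ) j]
          rw [pow_succ (4 : ℤ) m] at hb ⊢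
          linarith) (by
          intro z hz heq
          have h6 := nrm_add b z
          rw [pow_succ] at hz hb
          have h7 := hE.inj (b + z) p (by
            push_cast
            rw [pow_succ (4 : ℤ) (m + 1), pow_succ (4 : ℤ) m]
            linarith) (by
            push_cast
            rw [pow_succ (4 : ℤ) m] at hp
            rw [pow_succ (4 : ℤ) (m + 1), pow_succ (4 : ℤ) m]
            have : (0 : ℤ) < 4 ^ m := by positivity
            linarith) heq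
          have h8 : nrm (b - p) = nrm z := by
            rw [← h7, ← nrm_neg z]
            congr 1
            abel
          rw [h8] at hb2
          linarith)
        rw [four_div _ (by omega), Nat.add_sub_cancel] at h3
        refine le_trans (le_of_eq ?_) h3
        refine Finset.sum_congr rfl fun q _ => ?_
        exact PG_comm s t w S _ _)
    push_cast at h
    have e2 : (1681 : ℝ) = 41 ^ 2 := by norm_num
    rw [e2]
    exact h
  calc ∑ q ∈ bx 0 (4 ^ (m + 1)), F q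
      ≤ ∑ q ∈ bx 0 (4 ^ (m + 1)), ((if nrm (q - p) ≤ 4 then F q else 0) +
        ∑ j ∈ Finset.range (m + 1),
          (if 5 * (4 : ℤ) ^ j ≤ nrm (q - p) ∧ nrm (q - p) < 20 * 4 ^ j then F q else 0)) :=
        Finset.sum_le_sum h1
    _ = ∑ q ∈ bx 0 (4 ^ (m + 1)), (if nrm (q - p) ≤ 4 then F q else 0) +
        ∑ j ∈ Finset.range (m + 1), ∑ q ∈ bx 0 (4 ^ (m + 1)),
          (if 5 * (4 : ℤ) ^ j ≤ nrm (q - p) ∧ nrm (q - p) < 20 * 4 ^ j then F q else 0) := by
        rw [Finset.sum_add_distrib]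
        congr 1
        exact Finset.sum_comm
    _ ≤ 81 + ∑ j ∈ Finset.range (m + 1), 1681 * dd β (j + 1) := add_le_add h2 (Finset.sum_le_sum h3)
    _ ≤ 81 + 1681 * ∑ j ∈ Finset.range (m + 2), dd β j := by
        rw [← Finset.mul_sum, Finset.sum_range_succ' _ (m + 1)]
        have := dd_nonneg β 0
        linarith

end inst

/-- The recursion for one instance. -/
theorem inst_bound (C₀ : ℝ) (hC₀ : 0 < C₀)
    (core : ∀ (β : ℝ) (_ : 0 < β) (X E : Type) [Fintype X] [DecidableEq X] [Fintype E]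
      [DecidableEq E]
      (s t : E → X) (w : E → ℝ) (_ : ∀ e, 0 < w e) (S : Finset E)
      (_ : ∀ x y, Cn s t S x y) (R : ℕ) (ι : ℤ × ℤ → X) (_ : EmbG s t w S β R ι) (ρ : X)
      (_ : ∀ x, nrm x < R → ι x ≠ ρ) (n : ℕ) (_ : 32 * 16 ^ n ≤ R),
    (n : ℝ) * (∑ q ∈ bx 0 (R / 4), PG s t w S (ι q) ρ) ^ 2 ≤
      C₀ * DD β / (R : ℝ) ^ 2 * (∑ x ∈ bx 0 (3 * R / 4), PG s t w S (ι x) ρ) *
        ∑ p ∈ bx 0 (R / 4), ∑ q ∈ bx 0 (R / 4),
          (PG s t w S (ι p) (ι q) + PG s t w S (ι q) ρ))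
    (β : ℝ) (hβ : 0 < β) (M : ℕ) (hM : 1 ≤ M) (v : ℝ) (hv : v ∈ VS β M) :
    v ^ 2 ≤ (4405000 * C₀ + 81 * 7 * 16 ^ 7) * DD β / M * dd β (M - 1) *
      (1 + ∑ j ∈ Finset.range M, dd β j) := by
  have hb := VS_bound β M v hv
  obtain ⟨X, E, _, _, _, _, s, t, w, hw, S, hS, ι, hE, ρ, hρ, rfl⟩ := hv
  have h81 := val_le β s t w hw S hS M ι hE ρ hρ hM
  set V := ∑ q ∈ bx 0 (4 ^ M / 4), PG s t w S (ι q) ρ with hV
  set Sd := ∑ j ∈ Finset.range M, dd β j with hSd
  set D := dd β (M - 1) with hD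
  have hD0 : 0 ≤ D := dd_nonneg β _
  have hSd0 : 0 ≤ Sd := Finset.sum_nonneg fun j _ => dd_nonneg β j
  have hDSd : D ≤ Sd := Finset.single_le_sum (f := fun j => dd β j) (fun j _ => dd_nonneg β j)
    (Finset.mem_range.2 (by omega))
  have hDD := one_le_DD β
  have hMpos : (0 : ℝ) < M := by exact_mod_cast (by omega : 0 < M)
  have hP0 : 0 ≤ D * (1 + Sd) := by positivity
  rcases Nat.lt_or_ge M 8 with h8 | h8
  · have hM7 : (M : ℝ) ≤ 7 := by exact_mod_cast (by omega : M ≤ 7)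
    have h16 : (16 : ℝ) ^ M ≤ 16 ^ 7 := pow_le_pow_right₀ (by norm_num) (by omega)
    have h1 : V ^ 2 ≤ 16 ^ 7 * (81 * D) := by
      rw [sq]
      exact mul_le_mul (hb.2.trans h16) h81 hb.1 (by positivity)
    have h2 : (81 * 7 * 16 ^ 7 : ℝ) / 7 ≤ (4405000 * C₀ + 81 * 7 * 16 ^ 7) * DD β / M := by
      refine div_le_div₀ (by positivity) ?_ hMpos hM7
      have : 0 < 4405000 * C₀ := by positivity
      nlinarith
    calc V ^ 2 ≤ 16 ^ 7 * (81 * D) := h1
      _ ≤ (81 * 7 * 16 ^ 7 : ℝ) / 7 * (D * (1 + Sd)) := by nlinarith [mul_nonneg hD0 hSd0]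
      _ ≤ (4405000 * C₀ + 81 * 7 * 16 ^ 7) * DD β / M * (D * (1 + Sd)) :=
          mul_le_mul_of_nonneg_right h2 hP0
      _ = _ := by ring
  · have hn1 : 32 * 16 ^ ((2 * M - 5) / 4) ≤ 4 ^ M := by
      have e1 : 32 * 16 ^ ((2 * M - 5) / 4) = 2 ^ (5 + 4 * ((2 * M - 5) / 4)) := by
        rw [pow_add, pow_mul]
        norm_num
      have e2 : (4 : ℕ) ^ M = 2 ^ (2 * M) := by
        rw [pow_mul]
        norm_num
      rw [e1, e2]
      exact Nat.pow_le_pow_right (by norm_num) (by omega)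
    have hn2 : (M : ℝ) / 4 ≤ (((2 * M - 5) / 4 : ℕ) : ℝ) := by
      rw [div_le_iff₀ (by norm_num)]
      have : M ≤ ((2 * M - 5) / 4) * 4 := by omega
      exact_mod_cast this
    have hc := core β hβ X E s t w hw S hS (4 ^ M) ι hE ρ (by
      intro x hx
      exact hρ x (by exact_mod_cast hx)) _ hn1
    rw [← hV] at hc
    have hbig := big_le β s t w hw S hS M ι hE ρ hρ (by omega)
    have hsum : ∑ p ∈ bx 0 (4 ^ M / 4), ∑ q ∈ bx 0 (4 ^ M / 4),
        (PG s t w S (ι p) (ι q) + PG s t w S (ι q) ρ) ≤ 16 ^ M * (1762 * (1 + Sd)) := by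
      have h1 : ∀ p ∈ bx 0 (4 ^ M / 4), ∑ q ∈ bx 0 (4 ^ M / 4),
          (PG s t w S (ι p) (ι q) + PG s t w S (ι q) ρ) ≤ 1762 * (1 + Sd) := by
        intro p hp
        rw [Finset.sum_add_distrib]
        have h2 := pair_le β s t w hw S hS M ι hE (by omega) p hp
        rw [← hSd] at h2
        rw [← hV]
        linarith
      refine (Finset.sum_le_sum h1).trans ?_
      rw [Finset.sum_const, nsmul_eq_mul]
      exact mul_le_mul_of_nonneg_right (card_le M) (by positivity)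
    have hbig0 : 0 ≤ ∑ x ∈ bx 0 (3 * 4 ^ M / 4), PG s t w S (ι x) ρ :=
      Finset.sum_nonneg fun x _ => PG_nonneg s t w hw S _ _
    have hsum0 : 0 ≤ ∑ p ∈ bx 0 (4 ^ M / 4), ∑ q ∈ bx 0 (4 ^ M / 4),
        (PG s t w S (ι p) (ι q) + PG s t w S (ι q) ρ) :=
      Finset.sum_nonneg fun p _ => Finset.sum_nonneg fun q _ =>
        add_nonneg (PG_nonneg s t w hw S _ _) (PG_nonneg s t w hw S _ _)
    have hR : (((4 ^ M : ℕ) : ℝ)) ^ 2 = 16 ^ M := by
      push_cast
      rw [← pow_mul, mul_comm, pow_mul]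
      norm_num
    have h16 : (0 : ℝ) < 16 ^ M := by positivity
    rw [hR] at hc
    have h3 : C₀ * DD β / 16 ^ M * (∑ x ∈ bx 0 (3 * 4 ^ M / 4), PG s t w S (ι x) ρ) *
        (∑ p ∈ bx 0 (4 ^ M / 4), ∑ q ∈ bx 0 (4 ^ M / 4),
          (PG s t w S (ι p) (ι q) + PG s t w S (ι q) ρ)) ≤
        C₀ * DD β / 16 ^ M * (625 * D) * (16 ^ M * (1762 * (1 + Sd))) := by
      have hk : 0 ≤ C₀ * DD β / 16 ^ M := by positivity
      exact mul_le_mul (mul_le_mul_of_nonneg_left hbig hk) hsum hsum0 (by positivity)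
    have h4 : C₀ * DD β / 16 ^ M * (625 * D) * (16 ^ M * (1762 * (1 + Sd))) =
        1101250 * C₀ * DD β * (D * (1 + Sd)) := by
      field_simp
      ring
    rw [h4] at h3
    have h5 : (M : ℝ) / 4 * V ^ 2 ≤ 1101250 * C₀ * DD β * (D * (1 + Sd)) :=
      (mul_le_mul_of_nonneg_right hn2 (sq_nonneg _)).trans (hc.trans h3)
    have h6 : V ^ 2 ≤ (4405000 * C₀ * DD β) / M * (D * (1 + Sd)) := by
      rw [div_mul_eq_mul_div, le_div_iff₀ hMpos]
      linarith
    refine h6.trans ?_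
    rw [mul_assoc (_ / (M : ℝ))]
    refine mul_le_mul_of_nonneg_right ?_ hP0
    refine div_le_div_of_nonneg_right ?_ hMpos.le
    refine mul_le_mul_of_nonneg_right ?_ (by positivity)
    linarith

end K8c

theorem size_bound : ∃ C : ℝ, 0 < C ∧
    ∀ (β : ℝ) (_ : 0 < β) (M : ℕ) (X E : Type) [Fintype X] [DecidableEq X] [Fintype E]
      [DecidableEq E] (s t : E → X) (w : E → ℝ) (_ : ∀ e, 0 < w e) (S : Finset E)
      (_ : ∀ x y, Cn s t S x y) (ι : ℤ × ℤ → X) (_ : EmbG s t w S β (4 ^ M) ι) (ρ : X)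
      (_ : ∀ x, nrm x < 4 ^ M → ι x ≠ ρ),
    ∑ q ∈ bx 0 (4 ^ M / 4), PG s t w S (ι q) ρ ≤ Real.exp (C * DD β) * (3 / 2 : ℝ) ^ M := by
  obtain ⟨C₀, hC₀, core⟩ := coreG
  obtain ⟨c, hc, hrec⟩ := rec_bound2
  refine ⟨c * (4405000 * C₀ + 81 * 7 * 16 ^ 7), by positivity, ?_⟩
  intro β hβ M X E _ _ _ _ s t w hw S hS ι hE ρ hρ
  have hDD := one_le_DD β
  have h1 := hrec ((4405000 * C₀ + 81 * 7 * 16 ^ 7) * DD β) (by nlinarith) (K8c.dd β)
    (K8c.dd_nonneg β) (fun M => (K8c.dd_le β M).trans (by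
      have : (0 : ℝ) < 16 ^ M := by positivity
      linarith)) (by
      intro M hM
      have hP0 : 0 ≤ (4405000 * C₀ + 81 * 7 * 16 ^ 7) * DD β / M * K8c.dd β (M - 1) *
          (1 + ∑ j ∈ Finset.range M, K8c.dd β j) := by
        have h2 := K8c.dd_nonneg β (M - 1)
        have h3 : 0 ≤ ∑ j ∈ Finset.range M, K8c.dd β j :=
          Finset.sum_nonneg fun j _ => K8c.dd_nonneg β j
        positivity
      have h4 : K8c.dd β M ≤ Real.sqrt ((4405000 * C₀ + 81 * 7 * 16 ^ 7) * DD β / M *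
          K8c.dd β (M - 1) * (1 + ∑ j ∈ Finset.range M, K8c.dd β j)) := by
        refine Real.sSup_le ?_ (Real.sqrt_nonneg _)
        intro v hv
        refine Real.le_sqrt_of_sq_le ?_
        exact K8c.inst_bound C₀ hC₀ core β hβ M hM v hv
      calc K8c.dd β M ^ 2 ≤ Real.sqrt ((4405000 * C₀ + 81 * 7 * 16 ^ 7) * DD β / M *
          K8c.dd β (M - 1) * (1 + ∑ j ∈ Finset.range M, K8c.dd β j)) ^ 2 :=
            pow_le_pow_left₀ (K8c.dd_nonneg β M) h4 2
        _ = _ := Real.sq_sqrt hP0) M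
  rw [← mul_assoc] at h1
  refine le_trans ?_ h1
  exact le_csSup (K8c.VS_bdd β M) ⟨X, E, inferInstance, inferInstance, inferInstance,
    inferInstance, s, t, w, hw, S, hS, ι, hE, ρ, hρ, rfl⟩

end Pool.Agent.TH369.AG
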