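import Pool.Agent.TH369.AG.Defs6
import Pool.Agent.TH369.AG.J8
import Pool.Agent.TH369.AG.J10
import Pool.Agent.TH369.AG.K8c
import Pool.Agent.TH369.AG.K10

/-!
# The size bound for a box alone (job K11a)
-/

set_option autoImplicit false
set_option linter.unusedSectionVars false

namespace Pool.Agent.TH369.AG

open MeasureTheory Matrix

namespace K11a

theorem IsF_congr {X E : Type} [Fintype X] [DecidableEq X] [Fintype E] [DecidableEq E]
    (s t s' t' : E → X) (A : Finset E) (hs : ∀ e ∈ A, s e = s' e) (ht : ∀ e ∈ A, t e = t' e) :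
    IsF s t A ↔ IsF s' t' A := by
  unfold IsF
  have h : Set.EqOn (vec s t) (vec s' t') (A : Set E) := by
    intro e he
    have he' : e ∈ A := by simpa using he
    show Pi.single (s e) 1 - Pi.single (t e) 1 = Pi.single (s' e) 1 - Pi.single (t' e) 1
    rw [hs e he', ht e he']
  exact ⟨fun H => H.congr h, fun H => H.congr h.symm⟩

theorem Cn_congr {X E : Type} [Fintype X] [DecidableEq X] [Fintype E] [DecidableEq E]
    (s t s' t' : E → X) (A : Finset E) (hs : ∀ e ∈ A, s e = s' e) (ht : ∀ e ∈ A, t e = t' e)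
    (x y : X) : Cn s t A x y ↔ Cn s' t' A x y := by
  unfold Cn
  have h : Set.EqOn (vec s t) (vec s' t') (A : Set E) := by
    intro e he
    have he' : e ∈ A := by simpa using he
    show Pi.single (s e) 1 - Pi.single (t e) 1 = Pi.single (s' e) 1 - Pi.single (t' e) 1
    rw [hs e he', ht e he']
  rw [Set.image_congr h]

theorem FS_congr {X Y E : Type} [Fintype X] [DecidableEq X] [Fintype Y] [DecidableEq Y]
    [Fintype E] [DecidableEq E]
    (s t : E → X) (s' t' : E → Y) (w : E → ℝ) (S : Finset E) (P P' : Finset E → Prop)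
    (h : ∀ A ⊆ S, (IsF s t A ∧ P A) ↔ (IsF s' t' A ∧ P' A)) :
    FS s t w S P = FS s' t' w S P' := by
  classical
  unfold FS
  congr 1
  ext A
  simp only [Finset.mem_filter, Finset.mem_powerset]
  constructor
  · rintro ⟨h1, h2⟩
    exact ⟨h1, (h A h1).1 h2⟩
  · rintro ⟨h1, h2⟩
    exact ⟨h1, (h A h1).2 h2⟩

theorem FS_nonneg' {X E : Type} [Fintype X] [DecidableEq X] [Fintype E] [DecidableEq E]
    (s t : E → X) (w : E → ℝ) (hw : ∀ e, 0 ≤ w e) (S : Finset E) (P : Finset E → Prop) :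
    0 ≤ FS s t w S P := by
  unfold FS
  exact Finset.sum_nonneg fun A _ => Finset.prod_nonneg fun e _ => hw e

theorem FS_pos' {X E : Type} [Fintype X] [DecidableEq X] [Fintype E] [DecidableEq E]
    (s t : E → X) (w : E → ℝ) (hw : ∀ e, 0 ≤ w e) (S : Finset E) :
    0 < FS s t w S (fun _ => True) := by
  classical
  have h0 : (1 : ℝ) ≤ FS s t w S (fun _ => True) := by
    unfold FS
    have hmem : (∅ : Finset E) ∈ S.powerset.filter (fun A => IsF s t A ∧ True) := by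
      simp only [Finset.mem_filter, Finset.mem_powerset, Finset.empty_subset, true_and, and_true]
      unfold IsF
      rw [Finset.coe_empty]
      exact linearIndepOn_empty ℝ _
    have := Finset.single_le_sum (f := fun A : Finset E => ∏ e ∈ A, w e)
      (fun A _ => Finset.prod_nonneg fun e _ => hw e) hmem
    simpa using this
  linarith

/-- a vertex which is not an end point is not connected to other vertices -/
theorem not_Cn {X E : Type} [Fintype X] [DecidableEq X] [Fintype E] [DecidableEq E]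
    (s t : E → X) (A : Finset E) (ρ x : X) (hs : ∀ e ∈ A, s e ≠ ρ) (ht : ∀ e ∈ A, t e ≠ ρ)
    (hx : x ≠ ρ) : ¬ Cn s t A x ρ := by
  intro h
  rw [Cn_iff] at h
  have key : ∀ u v : X, Relation.EqvGen (fun u v => ∃ e ∈ A, s e = u ∧ t e = v) u v →
      (u = ρ ↔ v = ρ) := by
    intro u v huv
    induction huv with
    | rel a b hab =>
      obtain ⟨e, he, h1, h2⟩ := hab
      constructor
      · intro h3
        exact absurd (h1.trans h3) (hs e he)
      · intro h3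
        exact absurd (h2.trans h3) (ht e he)
    | refl a => exact Iff.rfl
    | symm a b _ ih => exact ih.symm
    | trans a b c _ _ ih1 ih2 => exact ih1.trans ih2
  exact hx ((key x ρ h).2 rfl)

end K11a

open K11a in
theorem size_box : ∃ C : ℝ, 0 < C ∧
    ∀ (β : ℝ) (_ : 0 < β) (M r : ℕ) (_ : 4 ^ M ≤ r) (X E : Type) [Fintype X] [DecidableEq X]
      [Fintype E] [DecidableEq E] (es et : E → ℤ × ℤ) (w : E → ℝ) (_ : ∀ e, w e = β)
      (Sin : Finset E) (_ : BoxS es et Sin r) (ι : ℤ × ℤ → X)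
      (_ : ∀ x z, nrm x < r → nrm z ≤ r → ι x = ι z → x = z) (ρ : X)
      (_ : ∀ x, nrm x < r → ι x ≠ ρ),
    ∑ q ∈ bx 0 (4 ^ M / 4), FS (ι ∘ es) (ι ∘ et) w Sin
        (fun A => Cn (ι ∘ es) (ι ∘ et) A (ι q) ρ) ≤
      Real.exp (C * DD β) * (3 / 2 : ℝ) ^ M * FS (ι ∘ es) (ι ∘ et) w Sin (fun _ => True) := by
  classical
  obtain ⟨C, hC, hmain⟩ := size_bound
  refine ⟨C, hC, ?_⟩
  intro β hβ M r hr X E _ _ _ _ es et w hw Sin hB ι hinj ρ hρ
  have hw0 : ∀ e, 0 ≤ w e := fun e => by rw [hw e]; exact hβ.le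
  have hnrm : ∀ q ∈ bx 0 (4 ^ M / 4), nrm q < r := by
    intro q hq
    unfold bx at hq
    rw [Finset.mem_product, Finset.mem_Icc, Finset.mem_Icc] at hq
    have h4 : 4 ^ M / 4 < 4 ^ M := Nat.div_lt_self (by positivity) (by norm_num)
    have h5 : ((4 ^ M / 4 : ℕ) : ℤ) < (r : ℤ) := by exact_mod_cast lt_of_lt_of_le h4 hr
    obtain ⟨⟨h1, h2⟩, h6, h7⟩ := hq
    have e0 : ((0 : ℤ × ℤ).1 : ℤ) = 0 := rfl
    have e1 : ((0 : ℤ × ℤ).2 : ℤ) = 0 := rfl
    rw [e0] at h1 h2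
    rw [e1] at h6 h7
    unfold nrm
    rw [max_lt_iff, abs_lt, abs_lt]
    refine ⟨⟨?_, ?_⟩, ?_, ?_⟩ <;> linarith
  by_cases hz : ∃ z, nrm z ≤ r ∧ ι z = ρ
  · obtain ⟨z0, hz0, rfl⟩ := hz
    have hr0 : nrm (0 : ℤ × ℤ) ≤ r := by
      have : nrm (0 : ℤ × ℤ) = 0 := by unfold nrm; simp
      rw [this]; exact_mod_cast Nat.zero_le r
    let X' : Type := {x : X // ∃ z, nrm z ≤ r ∧ ι z = x}
    let j : X' → X := Subtype.val
    have hj : Function.Injective j := Subtype.val_injective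
    let ι' : ℤ × ℤ → X' := fun z =>
      if h : nrm z ≤ r then ⟨ι z, z, h, rfl⟩ else ⟨ι 0, 0, hr0, rfl⟩
    have hι' : ∀ z, nrm z ≤ r → j (ι' z) = ι z := by
      intro z hz
      show Subtype.val (if h : nrm z ≤ r then (⟨ι z, z, h, rfl⟩ : X') else ⟨ι 0, 0, hr0, rfl⟩) = ι z
      rw [dif_pos hz]
    have hs : ∀ e ∈ Sin, (ι ∘ es) e = (j ∘ (ι' ∘ es)) e := fun e he => (hι' _ (hB.mem e he).1).symm
    have ht : ∀ e ∈ Sin, (ι ∘ et) e = (j ∘ (ι' ∘ et)) e :=
      fun e he => (hι' _ (hB.mem e he).2.1).symm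
    have hIsF : ∀ A ⊆ Sin, (IsF (ι ∘ es) (ι ∘ et) A ↔ IsF (ι' ∘ es) (ι' ∘ et) A) := by
      intro A hA
      rw [← IsF_comp j hj (ι' ∘ es) (ι' ∘ et) A]
      exact IsF_congr _ _ _ _ A (fun e he => hs e (hA he)) (fun e he => ht e (hA he))
    have hCn : ∀ A ⊆ Sin, ∀ x y, nrm x ≤ r → nrm y ≤ r →
        (Cn (ι ∘ es) (ι ∘ et) A (ι x) (ι y) ↔ Cn (ι' ∘ es) (ι' ∘ et) A (ι' x) (ι' y)) := by
      intro A hA x y hx hy
      rw [← Cn_comp j hj (ι' ∘ es) (ι' ∘ et) A, hι' x hx, hι' y hy]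
      exact Cn_congr _ _ _ _ A (fun e he => hs e (hA he)) (fun e he => ht e (hA he)) _ _
    have hT : FS (ι ∘ es) (ι ∘ et) w Sin (fun _ => True) =
        FS (ι' ∘ es) (ι' ∘ et) w Sin (fun _ => True) :=
      FS_congr _ _ _ _ w Sin _ _ fun A hA => by rw [hIsF A hA]
    have hQ : ∀ q ∈ bx 0 (4 ^ M / 4),
        FS (ι ∘ es) (ι ∘ et) w Sin (fun A => Cn (ι ∘ es) (ι ∘ et) A (ι q) (ι z0)) =
        FS (ι' ∘ es) (ι' ∘ et) w Sin (fun A => Cn (ι' ∘ es) (ι' ∘ et) A (ι' q) (ι' z0)) :=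
      fun q hq => FS_congr _ _ _ _ w Sin _ _ fun A hA => by
        rw [hIsF A hA, hCn A hA q z0 (hnrm q hq).le hz0]
    have hconn : ∀ x y : X', Cn (ι' ∘ es) (ι' ∘ et) Sin x y := by
      rintro ⟨x, zx, hzx, rfl⟩ ⟨y, zy, hzy, rfl⟩
      have h1 : (⟨ι zx, zx, hzx, rfl⟩ : X') = ι' zx := hj (hι' zx hzx).symm
      have h2 : (⟨ι zy, zy, hzy, rfl⟩ : X') = ι' zy := hj (hι' zy hzy).symm
      have h3 := box_conn es et Sin r hB ι' zx zy hzx hzy
      rw [← h1, ← h2] at h3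
      exact h3
    have hBG : BoxG es et (ι' ∘ es) (ι' ∘ et) Sin ∅ r ι' :=
      { box := hB
        dis := Finset.disjoint_empty_right _
        s_eq := fun e _ => rfl
        t_eq := fun e _ => rfl
        inj := fun x z hx hz h => hinj x z hx hz (by
          rw [← hι' x hx.le, ← hι' z hz, h])
        out := fun e he => absurd he (Finset.notMem_empty e) }
    have hemb : EmbG (ι' ∘ es) (ι' ∘ et) w Sin β (4 ^ M) ι' := by
      have := BoxG_emb es et (ι' ∘ es) (ι' ∘ et) Sin ∅ r ι' hBG β w (fun e _ => hw e) (4 ^ M) hr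
      rwa [Finset.union_empty] at this
    have h4 : ∀ x, nrm x < 4 ^ M → nrm x < r := by
      intro x hx
      have : ((4 ^ M : ℕ) : ℤ) ≤ (r : ℤ) := by exact_mod_cast hr
      push_cast at this
      linarith
    have hfin := hmain β hβ M X' E (ι' ∘ es) (ι' ∘ et) w (fun e => by rw [hw e]; exact hβ) Sin
      hconn ι' hemb (ι' z0) (fun x hx h => hρ x (h4 x hx) (by
        rw [← hι' x (h4 x hx).le, ← hι' z0 hz0, h]))
    have hpos := FS_pos' (ι' ∘ es) (ι' ∘ et) w hw0 Sin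
    have hsum : ∑ q ∈ bx 0 (4 ^ M / 4), FS (ι' ∘ es) (ι' ∘ et) w Sin
        (fun A => Cn (ι' ∘ es) (ι' ∘ et) A (ι' q) (ι' z0)) =
        (∑ q ∈ bx 0 (4 ^ M / 4), PG (ι' ∘ es) (ι' ∘ et) w Sin (ι' q) (ι' z0)) *
          FS (ι' ∘ es) (ι' ∘ et) w Sin (fun _ => True) := by
      rw [Finset.sum_mul]
      refine Finset.sum_congr rfl fun q _ => ?_
      unfold PG
      rw [div_mul_cancel₀ _ hpos.ne']
    rw [Finset.sum_congr rfl hQ, hT, hsum]
    exact mul_le_mul_of_nonneg_right hfin hpos.le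
  · have hzero : ∀ q ∈ bx 0 (4 ^ M / 4), FS (ι ∘ es) (ι ∘ et) w Sin
        (fun A => Cn (ι ∘ es) (ι ∘ et) A (ι q) ρ) = 0 := by
      intro q hq
      unfold FS
      apply Finset.sum_eq_zero
      intro A hA
      rw [Finset.mem_filter, Finset.mem_powerset] at hA
      exfalso
      refine not_Cn (ι ∘ es) (ι ∘ et) A ρ (ι q) ?_ ?_ (hρ q (hnrm q hq)) hA.2.2
      · intro e he h
        exact hz ⟨es e, (hB.mem e (hA.1 he)).1, h⟩
      · intro e he h
        exact hz ⟨et e, (hB.mem e (hA.1 he)).2.1, h⟩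
    rw [Finset.sum_eq_zero hzero]
    have := FS_nonneg' (ι ∘ es) (ι ∘ et) w hw0 Sin (fun _ => True)
    positivity

end Pool.Agent.TH369.AG
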