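import Pool.Agent.TH369.AG.Defs6
import Pool.Agent.TH369.AG.J8
import Pool.Agent.TH369.AG.J10
import Pool.Agent.TH369.AG.K10
import Pool.Agent.TH369.AG.K11a
set_option autoImplicit false
set_option linter.unusedSectionVars false
namespace Pool.Agent.TH369.AG
open MeasureTheory Matrix

namespace K11b

variable {X E : Type} [Fintype X] [DecidableEq X] [Fintype E] [DecidableEq E]

theorem FS_nonneg (s t : E → X) (w : E → ℝ) (hw : ∀ e, 0 ≤ w e) (S : Finset E)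
    (P : Finset E → Prop) : 0 ≤ FS s t w S P := by
  unfold FS
  exact Finset.sum_nonneg fun A _ => Finset.prod_nonneg fun e _ => hw e

theorem FS_le_true (s t : E → X) (w : E → ℝ) (hw : ∀ e, 0 ≤ w e) (S : Finset E)
    (P : Finset E → Prop) : FS s t w S P ≤ FS s t w S (fun _ => True) := by
  unfold FS
  apply Finset.sum_le_sum_of_subset_of_nonneg
  · intro A hA
    have h := (@Finset.mem_filter _ _ (_) _ _).1 hA
    exact (@Finset.mem_filter _ _ (_) _ _).2 ⟨h.1, h.2.1, trivial⟩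
  · intro A _ _
    exact Finset.prod_nonneg fun e _ => hw e

theorem boxG_empty (es et : E → ℤ × ℤ) (Sin : Finset E) (r : ℕ) (hB : BoxS es et Sin r)
    (ι : ℤ × ℤ → X) (hι : ∀ x z, nrm x < r → nrm z ≤ r → ι x = ι z → x = z) :
    BoxG es et (ι ∘ es) (ι ∘ et) Sin ∅ r ι where
  box := hB
  dis := Finset.disjoint_empty_right _
  s_eq := fun _ _ => rfl
  t_eq := fun _ _ => rfl
  inj := hι
  out := by simp

theorem exp_const {D : ℝ} (hD : 1 ≤ D) {n : ℕ} {c : ℝ} (hc : c ≤ 2 ^ n) :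
    c ≤ Real.exp (n * D) := by
  have h2 : (2 : ℝ) ≤ Real.exp 1 := by
    have := Real.add_one_le_exp (1 : ℝ)
    linarith
  calc c ≤ 2 ^ n := hc
    _ ≤ (Real.exp 1) ^ n := pow_le_pow_left₀ (by norm_num) h2 n
    _ = Real.exp (n * 1) := (Real.exp_nat_mul 1 n).symm
    _ ≤ Real.exp (n * D) := by
        apply Real.exp_le_exp.2
        gcongr

end K11b

open K11b in
theorem q_one : ∃ C : ℝ, 0 < C ∧
    ∀ (β : ℝ) (_ : 0 < β) (M r : ℕ) (_ : 4 ^ M ≤ r) (X E : Type) [Fintype X] [DecidableEq X]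
      [Fintype E] [DecidableEq E] (es et : E → ℤ × ℤ) (w : E → ℝ) (_ : ∀ e, w e = β)
      (Sin : Finset E) (_ : BoxS es et Sin r) (ι : ℤ × ℤ → X)
      (_ : ∀ x z, nrm x < r → nrm z ≤ r → ι x = ι z → x = z) (ρ : X)
      (_ : ∀ x, nrm x < r → ι x ≠ ρ),
    FS (ι ∘ es) (ι ∘ et) w Sin (fun A => Cn (ι ∘ es) (ι ∘ et) A (ι 0) ρ) ≤
      Real.exp (C * DD β) * (3 / 8 : ℝ) ^ M * FS (ι ∘ es) (ι ∘ et) w Sin (fun _ => True) := by
  obtain ⟨C, hC, h⟩ := size_box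
  refine ⟨C + 2, by linarith, ?_⟩
  intro β hβ M r hM X E _ _ _ _ es et w hw Sin hB ι hι ρ hρ
  have hD := one_le_DD β
  have hw0 : ∀ e, 0 ≤ w e := fun e => by rw [hw e]; exact hβ.le
  have hF0 : 0 ≤ FS (ι ∘ es) (ι ∘ et) w Sin (fun _ => True) := FS_nonneg _ _ _ hw0 _ _
  rcases Nat.eq_zero_or_pos M with rfl | hM0
  · have h1 : (1 : ℝ) ≤ Real.exp ((C + 2) * DD β) := Real.one_le_exp (by positivity)
    calc FS (ι ∘ es) (ι ∘ et) w Sin (fun A => Cn (ι ∘ es) (ι ∘ et) A (ι 0) ρ)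
        ≤ FS (ι ∘ es) (ι ∘ et) w Sin (fun _ => True) := FS_le_true _ _ _ hw0 _ _
      _ = 1 * FS (ι ∘ es) (ι ∘ et) w Sin (fun _ => True) := (one_mul _).symm
      _ ≤ Real.exp ((C + 2) * DD β) * (3 / 8 : ℝ) ^ 0 *
            FS (ι ∘ es) (ι ∘ et) w Sin (fun _ => True) := by
          rw [pow_zero, mul_one]
          exact mul_le_mul_of_nonneg_right h1 hF0
  · obtain ⟨m, rfl⟩ : ∃ m, M = m + 1 := ⟨M - 1, by omega⟩
    have h4 : 4 ^ (m + 1) / 4 = 4 ^ m := by rw [pow_succ]; omega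
    have hlt : 4 ^ m < r := by
      have : 4 ^ m < 4 ^ (m + 1) := Nat.pow_lt_pow_right (by norm_num) (by omega)
      omega
    have hs := h β hβ (m + 1) r hM X E es et w hw Sin hB ι hι ρ hρ
    have hl := levels es et w hw0 Sin ∅ (ι ∘ es) (ι ∘ et) r ι (boxG_empty es et Sin r hB ι hι) ρ hρ
      (4 ^ m) hlt
    rw [Finset.union_empty] at hl
    rw [h4] at hs
    have h5 := hl.trans hs
    set P := FS (ι ∘ es) (ι ∘ et) w Sin (fun A => Cn (ι ∘ es) (ι ∘ et) A (ι 0) ρ)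
    set Z := FS (ι ∘ es) (ι ∘ et) w Sin (fun _ => True)
    push_cast at h5
    have h4m : (0 : ℝ) < 4 ^ m := by positivity
    have h6 : P ≤ 4 * Real.exp (C * DD β) * (3 / 8 : ℝ) ^ (m + 1) * Z := by
      have h7 : (4 : ℝ) ^ m * P ≤ 4 ^ m * (4 * Real.exp (C * DD β) * (3 / 8 : ℝ) ^ (m + 1) * Z) := by
        calc (4 : ℝ) ^ m * P ≤ Real.exp (C * DD β) * (3 / 2) ^ (m + 1) * Z := h5
          _ = 4 ^ m * (4 * Real.exp (C * DD β) * (3 / 8 : ℝ) ^ (m + 1) * Z) := by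
              have : (3 / 2 : ℝ) ^ (m + 1) = 4 ^ m * 4 * (3 / 8) ^ (m + 1) := by
                rw [← pow_succ, ← mul_pow]; norm_num
              rw [this]; ring
      exact le_of_mul_le_mul_left h7 h4m
    have h8 : (4 : ℝ) ≤ Real.exp ((2 : ℕ) * DD β) := exp_const hD (by norm_num)
    calc P ≤ 4 * Real.exp (C * DD β) * (3 / 8 : ℝ) ^ (m + 1) * Z := h6
      _ ≤ Real.exp ((2 : ℕ) * DD β) * Real.exp (C * DD β) * (3 / 8 : ℝ) ^ (m + 1) * Z := by
          gcongr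
      _ = Real.exp ((C + 2) * DD β) * (3 / 8 : ℝ) ^ (m + 1) * Z := by
          rw [← Real.exp_add]
          congr 3
          push_cast; ring

end Pool.Agent.TH369.AG
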