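import Pool.Agent.TH369.AG.Defs6
import Pool.Agent.TH369.AG.J8
import Pool.Agent.TH369.AG.J10

/-!
# A Simon type inequality for forests
-/

set_option autoImplicit false

namespace Pool.Agent.TH369.AG

open MeasureTheory Matrix

namespace K9

/-- forest sums depend only on the end points of the edges which are used -/
theorem FS_congr {X E : Type} [Fintype X] [DecidableEq X] [Fintype E] [DecidableEq E]
    (s t s' t' : E → X) (w : E → ℝ) (S : Finset E) (hs : ∀ e ∈ S, s e = s' e)
    (ht : ∀ e ∈ S, t e = t' e) (P P' : Finset E → Prop) (hP : ∀ A, A ⊆ S → (P A ↔ P' A)) :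
    FS s t w S P = FS s' t' w S P' := by
  classical
  unfold FS
  refine Finset.sum_congr ?_ fun _ _ => rfl
  ext A
  simp only [Finset.mem_filter, Finset.mem_powerset]
  refine and_congr_right fun hA => ?_
  rw [hP A hA]
  refine and_congr_left fun _ => ?_
  unfold IsF
  have hv : Set.EqOn (vec s t) (vec s' t') (A : Set E) := by
    intro e he
    have he' : e ∈ S := hA he
    show (Pi.single (s e) 1 - Pi.single (t e) 1 : X → ℝ) = Pi.single (s' e) 1 - Pi.single (t' e) 1
    rw [hs e he', ht e he']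
  exact ⟨fun h => h.congr hv, fun h => h.congr hv.symm⟩

theorem Cn_congr {X E : Type} [Fintype X] [DecidableEq X] [Fintype E] [DecidableEq E]
    (s t s' t' : E → X) (A : Finset E) (hs : ∀ e ∈ A, s e = s' e)
    (ht : ∀ e ∈ A, t e = t' e) (x y : X) : Cn s t A x y ↔ Cn s' t' A x y := by
  unfold Cn
  have : vec s t '' (A : Set E) = vec s' t' '' (A : Set E) := by
    refine Set.image_congr fun e he => ?_
    show (Pi.single (s e) 1 - Pi.single (t e) 1 : X → ℝ) = Pi.single (s' e) 1 - Pi.single (t' e) 1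
    rw [hs e he, ht e he]
  rw [this]

/-- a vertex which is not an end point of an edge is not connected to another vertex -/
theorem not_Cn {X E : Type} [Fintype X] [DecidableEq X] [Fintype E] [DecidableEq E]
    (s t : E → X) (A : Finset E) (x ρ : X) (hx : x ≠ ρ) (hs : ∀ e ∈ A, s e ≠ ρ)
    (ht : ∀ e ∈ A, t e ≠ ρ) : ¬ Cn s t A x ρ := by
  unfold Cn
  intro h
  have hle : Submodule.span ℝ (vec s t '' (A : Set E)) ≤
      LinearMap.ker (LinearMap.proj ρ : (X → ℝ) →ₗ[ℝ] ℝ) := by
    rw [Submodule.span_le]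
    rintro _ ⟨e, he, rfl⟩
    show (Pi.single (s e) 1 - Pi.single (t e) 1 : X → ℝ) ρ = 0
    rw [Pi.sub_apply, Pi.single_eq_of_ne (hs e he).symm, Pi.single_eq_of_ne (ht e he).symm,
      sub_zero]
  have h1 := hle h
  have h2 : (Pi.single x 1 - Pi.single ρ 1 : X → ℝ) ρ = 0 := h1
  rw [Pi.sub_apply, Pi.single_eq_of_ne hx.symm, Pi.single_eq_same] at h2
  norm_num at h2

theorem cl_of_ne {X : Type} [DecidableEq X] (u v x : X) (h : x ≠ u) : cl u v x = x := by
  unfold cl
  rw [if_neg h]

theorem cl_cases {X : Type} [DecidableEq X] (u v x : X) : cl u v x = v ∨ cl u v x = x := by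
  unfold cl
  split_ifs
  · exact Or.inl rfl
  · exact Or.inr rfl

end K9

open K9

theorem simon {X E : Type} [Fintype X] [DecidableEq X] [Fintype E] [DecidableEq E]
    (es et : E → ℤ × ℤ) (w : E → ℝ) (hw : ∀ e, 0 ≤ w e) (Sin : Finset E) (r : ℕ) (hr : 0 < r)
    (q : ℝ) (hq0 : 0 ≤ q)
    (hq : ∀ ι : ℤ × ℤ → X, (∀ x z, nrm x < r → nrm z ≤ r → ι x = ι z → x = z) →
      ∀ y, nrm y = r → FS (ι ∘ es) (ι ∘ et) w Sin
          (fun A => Cn (ι ∘ es) (ι ∘ et) A (ι 0) (ι y)) ≤
        q * FS (ι ∘ es) (ι ∘ et) w Sin (fun _ => True))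
    (Sout : Finset E) (s t : E → X) (ι : ℤ × ℤ → X) (hB : BoxG es et s t Sin Sout r ι) (ρ : X)
    (hρ : ∀ x, nrm x < r → ι x ≠ ρ) :
    FS s t w (Sin ∪ Sout) (fun A => Cn s t A (ι 0) ρ) ≤
      q * ∑ y ∈ bd r, FS s t w (Sin ∪ Sout) (fun A => Cn s t A (ι y) ρ) := by
  classical
  induction Sout using Finset.induction_on generalizing s t ι ρ with
  | empty =>
    rw [Finset.union_empty]
    have hFS : ∀ x y : X, FS s t w Sin (fun A => Cn s t A x y) =
        FS (ι ∘ es) (ι ∘ et) w Sin (fun A => Cn (ι ∘ es) (ι ∘ et) A x y) := fun x y =>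
      FS_congr s t _ _ w Sin hB.s_eq hB.t_eq _ _ fun A hA =>
        Cn_congr s t _ _ A (fun e he => hB.s_eq e (hA he)) (fun e he => hB.t_eq e (hA he)) x y
    have hFT : FS s t w Sin (fun _ => True) = FS (ι ∘ es) (ι ∘ et) w Sin (fun _ => True) :=
      FS_congr s t _ _ w Sin hB.s_eq hB.t_eq _ _ fun A hA => Iff.rfl
    by_cases h : ∃ y, nrm y ≤ r ∧ ι y = ρ
    · obtain ⟨y, hy, rfl⟩ := h
      have hyr : nrm y = r := by
        rcases lt_or_eq_of_le hy with h1 | h1
        · exact absurd rfl (hρ y h1)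
        · exact h1
      have h1 := hq ι hB.inj y hyr
      rw [← hFS, ← hFT] at h1
      refine h1.trans (mul_le_mul_of_nonneg_left ?_ hq0)
      have hmem : y ∈ bd r := by
        unfold bd
        rw [Finset.mem_filter]
        refine ⟨?_, hyr⟩
        have h3 : |y.1| ≤ (r : ℤ) := (le_max_left _ _).trans hy
        have h4 : |y.2| ≤ (r : ℤ) := (le_max_right _ _).trans hy
        rw [abs_le] at h3 h4
        unfold bx
        rw [Finset.mem_product, Finset.mem_Icc, Finset.mem_Icc]
        simp only [Prod.fst_zero, Prod.snd_zero]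
        omega
      have h2 : FS s t w Sin (fun _ => True) = FS s t w Sin (fun A => Cn s t A (ι y) (ι y)) := by
        simp only [J10.Cn_self]
      rw [h2]
      exact Finset.single_le_sum (f := fun y' => FS s t w Sin (fun A => Cn s t A (ι y') (ι y)))
        (fun y' _ => J10.FS_nonneg s t w hw Sin _) hmem
    · have h0 : FS s t w Sin (fun A => Cn s t A (ι 0) ρ) = 0 := by
        unfold FS
        refine Finset.sum_eq_zero fun A hA => ?_
        exfalso
        rw [Finset.mem_filter, Finset.mem_powerset] at hA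
        refine not_Cn s t A (ι 0) ρ (hρ 0 ?_) (fun e he => ?_) (fun e he => ?_) hA.2.2
        · have : nrm 0 = 0 := by simp [nrm]
          rw [this]
          exact_mod_cast hr
        · intro h1
          exact h ⟨es e, (hB.box.mem e (hA.1 he)).1, (hB.s_eq e (hA.1 he)).symm.trans h1⟩
        · intro h1
          exact h ⟨et e, (hB.box.mem e (hA.1 he)).2.1, (hB.t_eq e (hA.1 he)).symm.trans h1⟩
      rw [h0]
      exact mul_nonneg hq0 (Finset.sum_nonneg fun y _ => J10.FS_nonneg s t w hw Sin _)
  | insert e S' he ih =>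
    have heS : e ∉ Sin := fun h1 => (Finset.disjoint_left.1 hB.dis h1) (Finset.mem_insert_self _ _)
    have he' : e ∉ Sin ∪ S' := by
      rw [Finset.mem_union]
      exact fun h1 => h1.elim heS he
    have hun : Sin ∪ insert e S' = insert e (Sin ∪ S') := by
      rw [Finset.union_insert]
    rw [hun]
    have hout : ∀ x, nrm x < r → s e ≠ ι x ∧ t e ≠ ι x :=
      hB.out e (Finset.mem_insert_self _ _)
    have hdel : BoxG es et s t Sin S' r ι :=
      ⟨hB.box, Finset.disjoint_of_subset_right (Finset.subset_insert _ _) hB.dis, hB.s_eq, hB.t_eq,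
        hB.inj, fun e1 h1 => hB.out e1 (Finset.mem_insert_of_mem h1)⟩
    have h1 := ih s t ι hdel ρ hρ
    rw [FS_insert s t w (Sin ∪ S') e he' (ι 0) ρ]
    have hR : ∑ y ∈ bd r, FS s t w (insert e (Sin ∪ S')) (fun A => Cn s t A (ι y) ρ) =
        ∑ y ∈ bd r, FS s t w (Sin ∪ S') (fun A => Cn s t A (ι y) ρ) +
        (if s e = t e then 0 else w e * ∑ y ∈ bd r,
          FS (cl (s e) (t e) ∘ s) (cl (s e) (t e) ∘ t) w (Sin ∪ S')
            (fun A => Cn (cl (s e) (t e) ∘ s) (cl (s e) (t e) ∘ t) A
              (cl (s e) (t e) (ι y)) (cl (s e) (t e) ρ))) := by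
      rw [Finset.sum_congr rfl fun y _ => FS_insert s t w (Sin ∪ S') e he' (ι y) ρ,
        Finset.sum_add_distrib]
      congr 1
      split_ifs with hst
      · simp
      · rw [Finset.mul_sum]
    rw [hR, mul_add]
    refine add_le_add h1 ?_
    split_ifs with hst
    · simp
    · have hcι : ∀ x, nrm x < r → cl (s e) (t e) (ι x) = ι x := fun x hx =>
        cl_of_ne _ _ _ (hout x hx).1.symm
      have hcon : BoxG es et (cl (s e) (t e) ∘ s) (cl (s e) (t e) ∘ t) Sin S' r
          (cl (s e) (t e) ∘ ι) := by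
        refine ⟨hB.box, hdel.dis, fun e1 h1 => ?_, fun e1 h1 => ?_, fun x z hx hz hxz => ?_,
          fun e1 h1 x hx => ?_⟩
        · show cl (s e) (t e) (s e1) = cl (s e) (t e) (ι (es e1))
          rw [hB.s_eq e1 h1]
        · show cl (s e) (t e) (t e1) = cl (s e) (t e) (ι (et e1))
          rw [hB.t_eq e1 h1]
        · have h2 : cl (s e) (t e) (ι x) = cl (s e) (t e) (ι z) := hxz
          rw [hcι x hx] at h2
          rcases cl_cases (s e) (t e) (ι z) with h3 | h3
          · rw [h3] at h2
            exact absurd h2.symm (hout x hx).2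
          · rw [h3] at h2
            exact hB.inj x z hx hz h2
        · have h3 := hB.out e1 (Finset.mem_insert_of_mem h1) x hx
          show cl (s e) (t e) (s e1) ≠ cl (s e) (t e) (ι x) ∧
            cl (s e) (t e) (t e1) ≠ cl (s e) (t e) (ι x)
          rw [hcι x hx]
          constructor
          · rcases cl_cases (s e) (t e) (s e1) with h4 | h4
            · rw [h4]; exact (hout x hx).2
            · rw [h4]; exact h3.1
          · rcases cl_cases (s e) (t e) (t e1) with h4 | h4
            · rw [h4]; exact (hout x hx).2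
            · rw [h4]; exact h3.2
      have h2 := ih (cl (s e) (t e) ∘ s) (cl (s e) (t e) ∘ t) (cl (s e) (t e) ∘ ι) hcon
        (cl (s e) (t e) ρ) (fun x hx => by
          show cl (s e) (t e) (ι x) ≠ cl (s e) (t e) ρ
          rw [hcι x hx]
          rcases cl_cases (s e) (t e) ρ with h4 | h4
          · rw [h4]; exact (hout x hx).2.symm
          · rw [h4]; exact hρ x hx)
      have h3 := mul_le_mul_of_nonneg_left h2 (hw e)
      refine h3.trans (le_of_eq ?_)
      simp only [Function.comp_apply]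
      ring

end Pool.Agent.TH369.AG
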