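import Pool.Agent.TH369.AG.Defs6
import Pool.Agent.TH369.AG.J8
import Pool.Agent.TH369.AG.J10
import Pool.Agent.TH369.AG.K9
import Pool.Agent.TH369.AG.K10
import Pool.Agent.TH369.AG.K11a
import Pool.Agent.TH369.AG.K11b
set_option autoImplicit false
set_option linter.unusedSectionVars false
namespace Pool.Agent.TH369.AG
open MeasureTheory Matrix

namespace K11c

theorem bd_disj (r r' : ℕ) (h : r ≠ r') : Disjoint (bd r) (bd r') := by
  rw [Finset.disjoint_left]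
  intro x hx hx'
  unfold bd at hx hx'
  rw [Finset.mem_filter] at hx hx'
  apply h
  exact_mod_cast hx.2.symm.trans hx'.2

theorem mem_bx {r : ℕ} {x : ℤ × ℤ} : x ∈ bx 0 r ↔ nrm x ≤ r := by
  unfold bx nrm
  simp only [Prod.fst_zero, Prod.snd_zero, zero_sub, zero_add, Finset.mem_product, Finset.mem_Icc,
    max_le_iff, abs_le]

theorem sum_bd_le (f : ℤ × ℤ → ℝ) (hf : ∀ x, 0 ≤ f x) (I : Finset ℕ) (R : ℕ)
    (hI : ∀ r ∈ I, r ≤ R) : ∑ r ∈ I, ∑ y ∈ bd r, f y ≤ ∑ y ∈ bx 0 R, f y := by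
  rw [← Finset.sum_biUnion (fun r _ r' _ h => bd_disj r r' h)]
  apply Finset.sum_le_sum_of_subset_of_nonneg
  · intro y hy
    rw [Finset.mem_biUnion] at hy
    obtain ⟨r, hr, hy⟩ := hy
    unfold bd at hy
    rw [Finset.mem_filter] at hy
    rw [mem_bx, hy.2]
    exact_mod_cast hI r hr
  · intro y _ _
    exact hf y

end K11c

open K11b K11c in
theorem q_two : ∃ C : ℝ, 0 < C ∧
    ∀ (β : ℝ) (_ : 0 < β) (M : ℕ) (_ : 2 ≤ M) (X E : Type) [Fintype X] [DecidableEq X]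
      [Fintype E] [DecidableEq E] (es et : E → ℤ × ℤ) (w : E → ℝ) (_ : ∀ e, w e = β)
      (Sin : Finset E) (_ : BoxS es et Sin (4 ^ M)) (ι : ℤ × ℤ → X)
      (_ : ∀ x z, nrm x < 4 ^ M → nrm z ≤ 4 ^ M → ι x = ι z → x = z) (ρ : X)
      (_ : ∀ x, nrm x < 4 ^ M → ι x ≠ ρ),
    FS (ι ∘ es) (ι ∘ et) w Sin (fun A => Cn (ι ∘ es) (ι ∘ et) A (ι 0) ρ) ≤
      Real.exp (C * DD β) * (9 / 64 : ℝ) ^ M * FS (ι ∘ es) (ι ∘ et) w Sin (fun _ => True) := by
  obtain ⟨C₀, hC₀, h0⟩ := size_box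
  obtain ⟨C₁, hC₁, h1⟩ := q_one
  refine ⟨C₀ + C₁ + 6, by positivity, ?_⟩
  intro β hβ M hM X E _ _ _ _ es et w hw Sin hB ι hι ρ hρ
  have hD := one_le_DD β
  have hw0 : ∀ e, 0 ≤ w e := fun e => by rw [hw e]; exact hβ.le
  have hF0 : 0 ≤ FS (ι ∘ es) (ι ∘ et) w Sin (fun _ => True) := FS_nonneg _ _ _ hw0 _ _
  obtain ⟨m, rfl⟩ : ∃ m, M = m + 2 := ⟨M - 2, by omega⟩
  have hc4 : ((4 ^ (m + 2) : ℕ) : ℤ) = 4 ^ (m + 2) := by push_cast; rfl
  have hι' : ∀ x z, nrm x < ((4 ^ (m + 2) : ℕ) : ℤ) → nrm z ≤ ((4 ^ (m + 2) : ℕ) : ℤ) →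
      ι x = ι z → x = z := by
    intro x z hx hz; rw [hc4] at hx hz; exact hι x z hx hz
  have hρ' : ∀ x, nrm x < ((4 ^ (m + 2) : ℕ) : ℤ) → ι x ≠ ρ := by
    intro x hx; rw [hc4] at hx; exact hρ x hx
  have hG := boxG_empty es et Sin (4 ^ (m + 2)) hB ι hι'
  set q : ℝ := Real.exp (C₁ * DD β) * (3 / 8) ^ m with hq
  have hq0 : 0 ≤ q := by positivity
  set P := FS (ι ∘ es) (ι ∘ et) w Sin (fun A => Cn (ι ∘ es) (ι ∘ et) A (ι 0) ρ) with hP
  set Z := FS (ι ∘ es) (ι ∘ et) w Sin (fun _ => True) with hZ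
  -- one radius
  have hone : ∀ r' : ℕ, 4 ^ m ≤ r' → r' ≤ 4 ^ (m + 2) →
      P ≤ q * ∑ y ∈ bd r', FS (ι ∘ es) (ι ∘ et) w Sin
        (fun A => Cn (ι ∘ es) (ι ∘ et) A (ι y) ρ) := by
    intro r' h4 hr'
    have hGm := BoxG_mono es et (ι ∘ es) (ι ∘ et) Sin ∅ (4 ^ (m + 2)) r' hr' ι hG
    set Sin' := Sin.filter fun e => nrm (es e) ≤ r' ∧ nrm (et e) ≤ r' with hS'
    set Sout' := ∅ ∪ Sin.filter fun e => ¬ (nrm (es e) ≤ r' ∧ nrm (et e) ≤ r') with hSo'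
    have hun : Sin' ∪ Sout' = Sin := by
      rw [hS', hSo', Finset.empty_union, Finset.filter_union_filter_not_eq]
    have hs := simon es et w hw0 Sin' r' (lt_of_lt_of_le (by positivity) h4) q hq0 (by
      intro ι' hι2 y hy
      have := h1 β hβ m r' h4 X E es et w hw Sin' hGm.box ι' hι2 (ι' y) (by
        intro x hx hxy
        have := hι2 x y hx hy.le hxy
        rw [this, hy] at hx
        exact lt_irrefl _ hx)
      rw [hq]
      exact this) Sout' (ι ∘ es) (ι ∘ et) ι hGm ρ (by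
      intro x hx
      exact hρ' x (lt_of_lt_of_le hx (by exact_mod_cast hr')))
    rw [hun] at hs
    exact hs
  -- sum over the radii
  set I : Finset ℕ := Finset.Ioc (2 * 4 ^ m) (4 * 4 ^ m) with hI
  have hcard : I.card = 2 * 4 ^ m := by rw [hI, Nat.card_Ioc]; omega
  have hsum : ((2 * 4 ^ m : ℕ) : ℝ) * P ≤ q * ∑ y ∈ bx 0 (4 * 4 ^ m), FS (ι ∘ es) (ι ∘ et) w Sin
        (fun A => Cn (ι ∘ es) (ι ∘ et) A (ι y) ρ) := by
    calc ((2 * 4 ^ m : ℕ) : ℝ) * P = ∑ r' ∈ I, P := by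
          rw [Finset.sum_const, hcard, nsmul_eq_mul]
      _ ≤ ∑ r' ∈ I, q * ∑ y ∈ bd r', FS (ι ∘ es) (ι ∘ et) w Sin
            (fun A => Cn (ι ∘ es) (ι ∘ et) A (ι y) ρ) := by
          apply Finset.sum_le_sum
          intro r' hr'
          rw [hI, Finset.mem_Ioc] at hr'
          apply hone r' (by omega)
          rw [pow_succ, pow_succ]; omega
      _ = q * ∑ r' ∈ I, ∑ y ∈ bd r', FS (ι ∘ es) (ι ∘ et) w Sin
            (fun A => Cn (ι ∘ es) (ι ∘ et) A (ι y) ρ) := by rw [Finset.mul_sum]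
      _ ≤ _ := by
          apply mul_le_mul_of_nonneg_left _ hq0
          apply sum_bd_le _ (fun y => FS_nonneg _ _ _ hw0 _ _)
          intro r' hr'
          rw [hI, Finset.mem_Ioc] at hr'
          exact hr'.2
  have hsz := h0 β hβ (m + 2) (4 ^ (m + 2)) le_rfl X E es et w hw Sin hB ι hι' ρ hρ'
  have h44 : 4 ^ (m + 2) / 4 = 4 * 4 ^ m := by rw [pow_succ, pow_succ]; omega
  rw [h44] at hsz
  have h5 := hsum.trans (mul_le_mul_of_nonneg_left hsz hq0)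
  push_cast at h5
  have h4m : (0 : ℝ) < 2 * 4 ^ m := by positivity
  have h6 : P ≤ 57 * Real.exp (C₁ * DD β) * Real.exp (C₀ * DD β) * (9 / 64 : ℝ) ^ (m + 2) * Z := by
    have h7 : 2 * (4 : ℝ) ^ m * P ≤ 2 * 4 ^ m *
        (57 * Real.exp (C₁ * DD β) * Real.exp (C₀ * DD β) * (9 / 64 : ℝ) ^ (m + 2) * Z) := by
      calc 2 * (4 : ℝ) ^ m * P
          ≤ q * (Real.exp (C₀ * DD β) * (3 / 2) ^ (m + 2) * Z) := h5
        _ = (Real.exp (C₁ * DD β) * Real.exp (C₀ * DD β) * Z) *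
              ((3 / 8) ^ m * (3 / 2) ^ (m + 2)) := by rw [hq]; ring
        _ ≤ (Real.exp (C₁ * DD β) * Real.exp (C₀ * DD β) * Z) *
              (2 * 4 ^ m * 57 * (9 / 64 : ℝ) ^ (m + 2)) := by
            apply mul_le_mul_of_nonneg_left _ (by positivity)
            have e1 : (3 / 8 : ℝ) ^ m * (3 / 2) ^ (m + 2) = (9 / 16) ^ m * (9 / 4) := by
              rw [pow_succ, pow_succ, ← mul_assoc, ← mul_assoc, ← mul_pow]
              ring
            have e2 : 2 * (4 : ℝ) ^ m * 57 * (9 / 64 : ℝ) ^ (m + 2) =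
                (9 / 16) ^ m * (114 * (81 / 4096)) := by
              rw [pow_succ, pow_succ]
              have : (9 / 16 : ℝ) ^ m = 4 ^ m * (9 / 64) ^ m := by
                rw [← mul_pow]; norm_num
              rw [this]; ring
            rw [e1, e2]
            apply mul_le_mul_of_nonneg_left _ (by positivity)
            norm_num
        _ = _ := by ring
    exact le_of_mul_le_mul_left h7 h4m
  have h8 : (57 : ℝ) ≤ Real.exp ((6 : ℕ) * DD β) := exp_const hD (by norm_num)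
  calc P ≤ 57 * Real.exp (C₁ * DD β) * Real.exp (C₀ * DD β) * (9 / 64 : ℝ) ^ (m + 2) * Z := h6
    _ ≤ Real.exp ((6 : ℕ) * DD β) * Real.exp (C₁ * DD β) * Real.exp (C₀ * DD β) *
          (9 / 64 : ℝ) ^ (m + 2) * Z := by gcongr
    _ = Real.exp ((C₀ + C₁ + 6) * DD β) * (9 / 64 : ℝ) ^ (m + 2) * Z := by
        rw [← Real.exp_add, ← Real.exp_add]
        congr 3
        push_cast; ring

end Pool.Agent.TH369.AG
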