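import Pool.Agent.TH369.AG.Defs6
import Pool.Agent.TH369.AG.K11c
set_option autoImplicit false
set_option linter.unusedSectionVars false
namespace Pool.Agent.TH369.AG
open MeasureTheory Matrix

namespace K11d

theorem card_bd (R : ℕ) (hR : 0 < R) : (bd R).card ≤ 12 * R := by
  set A : Finset ℤ := {-(R : ℤ), (R : ℤ)} with hA
  set B : Finset ℤ := Finset.Icc (-(R : ℤ)) (R : ℤ) with hB
  have hAc : A.card ≤ 2 := Finset.card_le_two
  have hBc : B.card = 2 * R + 1 := by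
    rw [hB, Int.card_Icc]; omega
  have hsub : bd R ⊆ (A ×ˢ B) ∪ (B ×ˢ A) := by
    intro x hx
    unfold bd at hx
    rw [Finset.mem_filter, K11c.mem_bx] at hx
    obtain ⟨h1, h2⟩ := hx
    unfold nrm at h1 h2
    rw [max_le_iff, abs_le, abs_le] at h1
    rw [Finset.mem_union, Finset.mem_product, Finset.mem_product, hA, hB]
    simp only [Finset.mem_insert, Finset.mem_singleton, Finset.mem_Icc]
    rcases max_choice |x.1| |x.2| with h | h
    · rw [h] at h2
      left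
      refine ⟨?_, h1.2⟩
      rcases abs_choice x.1 with h3 | h3 <;> rw [h3] at h2 <;> omega
    · rw [h] at h2
      right
      refine ⟨h1.1, ?_⟩
      rcases abs_choice x.2 with h3 | h3 <;> rw [h3] at h2 <;> omega
  calc (bd R).card ≤ ((A ×ˢ B) ∪ (B ×ˢ A)).card := Finset.card_le_card hsub
    _ ≤ (A ×ˢ B).card + (B ×ˢ A).card := Finset.card_union_le _ _
    _ = 2 * (A.card * B.card) := by rw [Finset.card_product, Finset.card_product]; ring
    _ ≤ 2 * (2 * (2 * R + 1)) := by rw [hBc]; gcongr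
    _ ≤ 12 * R := by omega

end K11d

open K11d in
theorem q_small : ∃ C : ℝ, 0 < C ∧
    ∀ (β : ℝ), 0 < β → ∃ (R : ℕ) (q : ℝ), 0 < R ∧ (R : ℝ) ≤ Real.exp (C * DD β) ∧ 0 ≤ q ∧
      q * (bd R).card ≤ 1 / 2 ∧
      ∀ (X E : Type) [Fintype X] [DecidableEq X] [Fintype E] [DecidableEq E] (es et : E → ℤ × ℤ)
        (w : E → ℝ) (_ : ∀ e, w e = β) (Sin : Finset E) (_ : BoxS es et Sin R) (ι : ℤ × ℤ → X)
        (_ : ∀ x z, nrm x < R → nrm z ≤ R → ι x = ι z → x = z) (ρ : X)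
        (_ : ∀ x, nrm x < R → ι x ≠ ρ),
      FS (ι ∘ es) (ι ∘ et) w Sin (fun A => Cn (ι ∘ es) (ι ∘ et) A (ι 0) ρ) ≤
        q * FS (ι ∘ es) (ι ∘ et) w Sin (fun _ => True) := by
  obtain ⟨C, hC, h⟩ := q_two
  refine ⟨4 * C + 20, by positivity, ?_⟩
  intro β hβ
  have hD := one_le_DD β
  set D := DD β with hDdef
  set M : ℕ := 2 + ⌈(2 * C + 7) * D⌉₊ with hM
  have hMlo : (2 * C + 7) * D + 2 ≤ M := by
    rw [hM]; push_cast
    have := Nat.le_ceil ((2 * C + 7) * D)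
    linarith
  have hMhi : (M : ℝ) ≤ (2 * C + 10) * D := by
    rw [hM]; push_cast
    have := Nat.ceil_lt_add_one (a := (2 * C + 7) * D) (by positivity)
    nlinarith
  have hexp1 : (4 : ℝ) ≤ Real.exp 2 := by
    have h1 := Real.add_one_le_exp (1 : ℝ)
    have h2 : Real.exp 2 = Real.exp 1 * Real.exp 1 := by rw [← Real.exp_add]; norm_num
    rw [h2]; nlinarith
  have h4 : (4 : ℝ) ^ M ≤ Real.exp ((4 * C + 20) * D) := by
    calc (4 : ℝ) ^ M ≤ (Real.exp 2) ^ M := pow_le_pow_left₀ (by norm_num) hexp1 M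
      _ = Real.exp (M * 2) := (Real.exp_nat_mul 2 M).symm
      _ ≤ Real.exp ((4 * C + 20) * D) := by
          apply Real.exp_le_exp.2
          linarith
  have hexp2 : (9 / 16 : ℝ) ≤ Real.exp (-(1 / 2)) := by
    have h1 := Real.exp_one_lt_d9
    have h2 : Real.exp (-(1 / 2)) * Real.exp (-(1 / 2)) * Real.exp 1 = 1 := by
      rw [← Real.exp_add, ← Real.exp_add]; norm_num
    have h3 : 0 < Real.exp (-(1 / 2 : ℝ)) := Real.exp_pos _
    have h4 : 0 < Real.exp 1 := Real.exp_pos _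
    by_contra hcon
    push Not at hcon
    have h5 : Real.exp (-(1 / 2)) * Real.exp (-(1 / 2)) < 9 / 16 * (9 / 16) := by nlinarith
    nlinarith
  have h24 : (24 : ℝ) ≤ Real.exp 4 := by
    have h1 := Real.exp_one_gt_d9
    have h2 : Real.exp 4 = (Real.exp 1) ^ 4 := by rw [← Real.exp_nat_mul]; norm_num
    rw [h2]
    calc (24 : ℝ) ≤ 2.7 ^ 4 := by norm_num
      _ ≤ (Real.exp 1) ^ 4 := pow_le_pow_left₀ (by norm_num) (by linarith) 4
  have hsmall : 12 * Real.exp (C * D) * (9 / 16 : ℝ) ^ M ≤ 1 / 2 := by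
    have h1 : (9 / 16 : ℝ) ^ M ≤ Real.exp (M * (-(1 / 2))) := by
      rw [Real.exp_nat_mul]
      exact pow_le_pow_left₀ (by norm_num) hexp2 M
    have h2 : Real.exp (C * D) * Real.exp (M * (-(1 / 2))) ≤ Real.exp (-4) := by
      rw [← Real.exp_add]
      apply Real.exp_le_exp.2
      nlinarith
    have h3 : Real.exp (-4) * 24 ≤ 1 := by
      rw [Real.exp_neg]
      have : (0 : ℝ) < Real.exp 4 := Real.exp_pos _
      rw [inv_mul_le_iff₀ this]
      linarith
    calc 12 * Real.exp (C * D) * (9 / 16 : ℝ) ^ M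
        ≤ 12 * Real.exp (C * D) * Real.exp (M * (-(1 / 2))) := by gcongr
      _ = 12 * (Real.exp (C * D) * Real.exp (M * (-(1 / 2)))) := by ring
      _ ≤ 12 * Real.exp (-4) := by gcongr
      _ ≤ 1 / 2 := by linarith
  refine ⟨4 ^ M, Real.exp (C * D) * (9 / 64 : ℝ) ^ M, by positivity, by push_cast; exact h4,
    by positivity, ?_, ?_⟩
  · have h1 : ((bd (4 ^ M)).card : ℝ) ≤ 12 * 4 ^ M := by
      exact_mod_cast card_bd (4 ^ M) (by positivity)
    calc Real.exp (C * D) * (9 / 64 : ℝ) ^ M * (bd (4 ^ M)).card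
        ≤ Real.exp (C * D) * (9 / 64 : ℝ) ^ M * (12 * 4 ^ M) := by gcongr
      _ = 12 * Real.exp (C * D) * (9 / 16 : ℝ) ^ M := by
          have : (9 / 16 : ℝ) ^ M = (9 / 64) ^ M * 4 ^ M := by rw [← mul_pow]; norm_num
          rw [this]; ring
      _ ≤ 1 / 2 := hsmall
  · intro X E _ _ _ _ es et w hw Sin hB ι hι ρ hρ
    have hc4 : ((4 ^ M : ℕ) : ℤ) = 4 ^ M := by push_cast; rfl
    rw [hc4] at hι hρ
    exact h β hβ M (by omega) X E es et w hw Sin hB ι hι ρ hρ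

end Pool.Agent.TH369.AG
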