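import Pool.Agent.TH369.AG.Defs6
set_option autoImplicit false
namespace Pool.Agent.TH369.AG
open MeasureTheory Matrix

namespace K12

theorem nrm_le {x : ℤ × ℤ} {k : ℤ} : nrm x ≤ k ↔ |x.1| ≤ k ∧ |x.2| ≤ k := by
  unfold nrm
  exact max_le_iff

theorem adj_symm {x z : ℤ × ℤ} (h : adj x z) : adj z x := by
  unfold adj at h ⊢
  rw [abs_sub_comm z.1, abs_sub_comm z.2]
  exact h

theorem adj_cases {x z : ℤ × ℤ} (h : adj x z) :
    (x.1 = z.1 ∧ (x.2 = z.2 + 1 ∨ z.2 = x.2 + 1)) ∨ (x.2 = z.2 ∧ (x.1 = z.1 + 1 ∨ z.1 = x.1 + 1)) := by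
  unfold adj at h
  rcases abs_cases (x.1 - z.1) with ⟨h1, h2⟩ | ⟨h1, h2⟩ <;>
  rcases abs_cases (x.2 - z.2) with ⟨h3, h4⟩ | ⟨h3, h4⟩ <;> omega

theorem adj_nrm {x z : ℤ × ℤ} (h : adj x z) : nrm z ≤ nrm x + 1 := by
  have hx := nrm_le.1 (le_refl (nrm x))
  rw [nrm_le, abs_le, abs_le]
  rw [abs_le, abs_le] at hx
  rcases adj_cases h with ⟨h1, h2 | h2⟩ | ⟨h1, h2 | h2⟩ <;> omega

theorem cast_inj {L R : ℕ} (hL : 2 * R + 2 ≤ L) {a b : ℤ} (ha : |a| ≤ R) (hb : |b| ≤ R)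
    (h : (a : ZMod L) = (b : ZMod L)) : a = b := by
  rw [ZMod.intCast_eq_intCast_iff_dvd_sub] at h
  rw [abs_le] at ha hb
  have h1 : b - a = 0 := by
    apply Int.eq_zero_of_abs_lt_dvd h
    rw [abs_lt]
    constructor <;> omega
  omega

theorem shf_inj {L R : ℕ} (hL : 2 * R + 2 ≤ L) (c : ZMod L × ZMod L) {x z : ℤ × ℤ}
    (hx : nrm x ≤ R) (hz : nrm z ≤ R) (h : shf L c x = shf L c z) : x = z := by
  rw [nrm_le] at hx hz
  unfold shf at h
  rw [Prod.mk.injEq] at h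
  exact Prod.ext (cast_inj hL hx.1 hz.1 (add_left_cancel h.1))
    (cast_inj hL hx.2 hz.2 (add_left_cancel h.2))

theorem adj_torus {L : ℕ} (c : ZMod L × ZMod L) {x z : ℤ × ℤ} (h : adj x z)
    (hne : shf L c x ≠ shf L c z) : (torus L).Adj (shf L c x) (shf L c z) := by
  refine ⟨hne, ?_⟩
  unfold shf
  dsimp only
  rcases adj_cases h with ⟨h1, h2 | h2⟩ | ⟨h1, h2 | h2⟩
  · left
    refine ⟨by rw [h1], Or.inl ?_⟩
    rw [h2]
    push_cast
    ring
  · left
    refine ⟨by rw [h1], Or.inr ?_⟩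
    rw [h2]
    push_cast
    ring
  · right
    refine ⟨by rw [h1], Or.inl ?_⟩
    rw [h2]
    push_cast
    ring
  · right
    refine ⟨by rw [h1], Or.inr ?_⟩
    rw [h2]
    push_cast
    ring

theorem torus_nb {L : ℕ} (c : ZMod L × ZMod L) {x : ℤ × ℤ} {v : ZMod L × ZMod L}
    (h : (torus L).Adj (shf L c x) v) : ∃ z, adj x z ∧ v = shf L c z := by
  obtain ⟨-, ⟨h1, h2 | h2⟩ | ⟨h1, h2 | h2⟩⟩ := h
  · refine ⟨(x.1, x.2 - 1), ?_, ?_⟩
    · simp [adj]
    · unfold shf at h1 h2 ⊢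
      dsimp only at h1 h2 ⊢
      refine Prod.ext h1.symm ?_
      dsimp only
      push_cast
      rw [← sub_eq_iff_eq_add] at h2
      rw [← h2]
      ring
  · refine ⟨(x.1, x.2 + 1), ?_, ?_⟩
    · simp [adj]
    · unfold shf at h1 h2 ⊢
      dsimp only at h1 h2 ⊢
      refine Prod.ext h1.symm ?_
      dsimp only
      push_cast
      rw [h2]
      ring
  · refine ⟨(x.1 - 1, x.2), ?_, ?_⟩
    · simp [adj]
    · unfold shf at h1 h2 ⊢
      dsimp only at h1 h2 ⊢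
      refine Prod.ext ?_ h1.symm
      dsimp only
      push_cast
      rw [← sub_eq_iff_eq_add] at h2
      rw [← h2]
      ring
  · refine ⟨(x.1 + 1, x.2), ?_, ?_⟩
    · simp [adj]
    · unfold shf at h1 h2 ⊢
      dsimp only at h1 h2 ⊢
      refine Prod.ext ?_ h1.symm
      dsimp only
      push_cast
      rw [h2]
      ring

theorem walk1 (L : ℕ) (n : ℕ) : ∀ p q : ZMod L × ZMod L, q.1 = p.1 + n → q.2 = p.2 →
    ∃ w : (torus L).Walk p q, w.length ≤ n := by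
  induction n with
  | zero =>
    intro p q h1 h2
    have : q = p := Prod.ext (by rw [h1]; simp) h2
    subst this
    exact ⟨SimpleGraph.Walk.nil, by simp⟩
  | succ n ih =>
    intro p q h1 h2
    obtain ⟨w, hw⟩ := ih p (p.1 + n, p.2) rfl rfl
    by_cases he : (p.1 + (n : ZMod L), p.2) = q
    · subst he
      exact ⟨w, by omega⟩
    · have hadj : (torus L).Adj (p.1 + (n : ZMod L), p.2) q := by
        refine ⟨he, Or.inr ⟨h2.symm, Or.inr ?_⟩⟩
        rw [h1]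
        push_cast
        ring
      refine ⟨w.concat hadj, ?_⟩
      rw [SimpleGraph.Walk.length_concat]
      omega

theorem walk2 (L : ℕ) (n : ℕ) : ∀ p q : ZMod L × ZMod L, q.1 = p.1 → q.2 = p.2 + n →
    ∃ w : (torus L).Walk p q, w.length ≤ n := by
  induction n with
  | zero =>
    intro p q h1 h2
    have : q = p := Prod.ext h1 (by rw [h2]; simp)
    subst this
    exact ⟨SimpleGraph.Walk.nil, by simp⟩
  | succ n ih =>
    intro p q h1 h2
    obtain ⟨w, hw⟩ := ih p (p.1, p.2 + n) rfl rfl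
    by_cases he : (p.1, p.2 + (n : ZMod L)) = q
    · subst he
      exact ⟨w, by omega⟩
    · have hadj : (torus L).Adj (p.1, p.2 + (n : ZMod L)) q := by
        refine ⟨he, Or.inl ⟨h1.symm, Or.inr ?_⟩⟩
        rw [h2]
        push_cast
        ring
      refine ⟨w.concat hadj, ?_⟩
      rw [SimpleGraph.Walk.length_concat]
      omega

theorem walkz1 (L : ℕ) (k : ℤ) (p q : ZMod L × ZMod L) (h1 : q.1 = p.1 + (k : ZMod L))
    (h2 : q.2 = p.2) : ∃ w : (torus L).Walk p q, w.length ≤ k.natAbs := by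
  rcases le_total 0 k with hk | hk
  · obtain ⟨n, rfl⟩ := Int.eq_ofNat_of_zero_le hk
    exact walk1 L n p q (by rw [h1]; simp) h2
  · obtain ⟨n, hn⟩ := Int.eq_ofNat_of_zero_le (a := -k) (by omega)
    have hk' : k = -(n : ℤ) := by omega
    subst hk'
    obtain ⟨w, hw⟩ := walk1 L n q p (by rw [h1]; simp) h2.symm
    refine ⟨w.reverse, ?_⟩
    rw [SimpleGraph.Walk.length_reverse]
    omega

theorem walkz2 (L : ℕ) (k : ℤ) (p q : ZMod L × ZMod L) (h1 : q.1 = p.1)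
    (h2 : q.2 = p.2 + (k : ZMod L)) : ∃ w : (torus L).Walk p q, w.length ≤ k.natAbs := by
  rcases le_total 0 k with hk | hk
  · obtain ⟨n, rfl⟩ := Int.eq_ofNat_of_zero_le hk
    exact walk2 L n p q h1 (by rw [h2]; simp)
  · obtain ⟨n, hn⟩ := Int.eq_ofNat_of_zero_le (a := -k) (by omega)
    have hk' : k = -(n : ℤ) := by omega
    subst hk'
    obtain ⟨w, hw⟩ := walk2 L n q p h1.symm (by rw [h2]; simp)
    refine ⟨w.reverse, ?_⟩
    rw [SimpleGraph.Walk.length_reverse]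
    omega

theorem vma_cast (L : ℕ) [NeZero L] (k : ℤ) : ((k : ZMod L).valMinAbs).natAbs ≤ k.natAbs := by
  apply ZMod.natAbs_min_of_le_div_two L
  · exact ZMod.coe_valMinAbs _
  · exact ZMod.natAbs_valMinAbs_le _

end K12

theorem torus_box (L R : ℕ) (hL : 2 * R + 2 ≤ L) [NeZero L]
    (s t : Sym2 (ZMod L × ZMod L) → ZMod L × ZMod L) (hst : ∀ e, e = s(s e, t e))
    (S : Finset (Sym2 (ZMod L × ZMod L))) (hS : ∀ e, e ∈ S ↔ e ∈ (torus L).edgeSet)
    (c : ZMod L × ZMod L) :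
    ∃ (es et : Sym2 (ZMod L × ZMod L) → ℤ × ℤ) (Sin Sout : Finset (Sym2 (ZMod L × ZMod L))),
      Sin ∪ Sout = S ∧ BoxG es et s t Sin Sout R (shf L c) := by
  classical
  -- lifts
  have hlift : ∀ v : ZMod L × ZMod L, ∃ x : ℤ × ℤ, (∃ x', nrm x' ≤ R ∧ shf L c x' = v) →
      nrm x ≤ R ∧ shf L c x = v := by
    intro v
    by_cases h : ∃ x', nrm x' ≤ R ∧ shf L c x' = v
    · obtain ⟨x, hx⟩ := h
      exact ⟨x, fun _ => hx⟩
    · exact ⟨0, fun h' => absurd h' h⟩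
  choose lf hlf using hlift
  have hlf' : ∀ x, nrm x ≤ R → lf (shf L c x) = x := by
    intro x hx
    obtain ⟨h1, h2⟩ := hlf (shf L c x) ⟨x, hx, rfl⟩
    exact K12.shf_inj hL c h1 hx h2
  set Sin : Finset (Sym2 (ZMod L × ZMod L)) := S.filter fun e =>
    ∃ x z, nrm x ≤ R ∧ nrm z ≤ R ∧ adj x z ∧ e = s(shf L c x, shf L c z) with hSin
  have hkey : ∀ e ∈ Sin, nrm (lf (s e)) ≤ R ∧ nrm (lf (t e)) ≤ R ∧ adj (lf (s e)) (lf (t e)) ∧
      s e = shf L c (lf (s e)) ∧ t e = shf L c (lf (t e)) := by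
    intro e he
    rw [hSin, Finset.mem_filter] at he
    obtain ⟨-, x, z, hx, hz, hxz, hexz⟩ := he
    have h1 := hst e
    rw [hexz] at h1
    rw [← hexz] at h1
    have h2 : s(s e, t e) = s(shf L c x, shf L c z) := by rw [← hst e]; exact hexz
    rcases Sym2.eq_iff.1 h2 with ⟨h3, h4⟩ | ⟨h3, h4⟩
    · rw [h3, h4, hlf' x hx, hlf' z hz]
      exact ⟨hx, hz, hxz, rfl, rfl⟩
    · rw [h3, h4, hlf' x hx, hlf' z hz]
      exact ⟨hz, hx, K12.adj_symm hxz, rfl, rfl⟩
  refine ⟨fun e => lf (s e), fun e => lf (t e), Sin, S \ Sin, ?_, ?_⟩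
  · exact Finset.union_sdiff_of_subset (Finset.filter_subset _ _)
  refine ⟨⟨?_, ?_, ?_⟩, Finset.disjoint_sdiff, ?_, ?_, ?_, ?_⟩
  · intro e he
    obtain ⟨h1, h2, h3, -, -⟩ := hkey e he
    exact ⟨h1, h2, h3⟩
  · intro x z hx hz hxz
    have hne : shf L c x ≠ shf L c z := by
      intro h
      have h1 := K12.shf_inj hL c hx hz h
      rw [h1] at hxz
      unfold adj at hxz
      simp at hxz
    have hS' : s(shf L c x, shf L c z) ∈ S := by
      rw [hS, SimpleGraph.mem_edgeSet]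
      exact K12.adj_torus c hxz hne
    refine ⟨s(shf L c x, shf L c z), ?_, ?_⟩
    · rw [hSin, Finset.mem_filter]
      exact ⟨hS', x, z, hx, hz, hxz, rfl⟩
    · have h2 := hst s(shf L c x, shf L c z)
      rcases Sym2.eq_iff.1 h2 with ⟨h3, h4⟩ | ⟨h3, h4⟩
      · left
        rw [← h3, ← h4]
        exact ⟨hlf' x hx, hlf' z hz⟩
      · right
        rw [← h3, ← h4]
        exact ⟨hlf' z hz, hlf' x hx⟩
  · intro e he e' he' h
    obtain ⟨-, -, -, a1, a2⟩ := hkey e he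
    obtain ⟨-, -, -, b1, b2⟩ := hkey e' he'
    rcases h with ⟨h1, h2⟩ | ⟨h1, h2⟩
    · rw [hst e, hst e', a1, a2, b1, b2, h1, h2]
    · rw [hst e, hst e', a1, a2, b1, b2, h1, h2]
      exact Sym2.eq_swap
  · intro e he
    exact (hkey e he).2.2.2.1
  · intro e he
    exact (hkey e he).2.2.2.2
  · intro x z hx hz h
    exact K12.shf_inj hL c hx.le hz h
  · intro e he x hx
    rw [Finset.mem_sdiff] at he
    obtain ⟨heS, henS⟩ := he
    have hadj : (torus L).Adj (s e) (t e) := by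
      rw [← SimpleGraph.mem_edgeSet, ← hst e]
      exact (hS e).1 heS
    constructor
    · intro h
      rw [h] at hadj
      obtain ⟨z, hz, hzt⟩ := K12.torus_nb c hadj
      apply henS
      rw [hSin, Finset.mem_filter]
      refine ⟨heS, x, z, hx.le, ?_, hz, ?_⟩
      · have := K12.adj_nrm hz
        omega
      · rw [← h, ← hzt]
        exact hst e
    · intro h
      rw [h] at hadj
      obtain ⟨z, hz, hzt⟩ := K12.torus_nb c hadj.symm
      apply henS
      rw [hSin, Finset.mem_filter]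
      refine ⟨heS, x, z, hx.le, ?_, hz, ?_⟩
      · have := K12.adj_nrm hz
        omega
      · rw [← h, ← hzt, Sym2.eq_swap]
        exact hst e

theorem dinf_shf (L : ℕ) [NeZero L] (c y : ZMod L × ZMod L) (x : ℤ × ℤ) (R : ℕ) (hx : nrm x ≤ R) :
    dinf L c y ≤ dinf L (shf L c x) y + R := by
  rw [K12.nrm_le] at hx
  have key : ∀ (a b : ZMod L) (k : ℤ), |k| ≤ R →
      (a - b).valMinAbs.natAbs ≤ ((a + (k : ZMod L)) - b).valMinAbs.natAbs + R := by
    intro a b k hk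
    have h1 : a - b = ((a + (k : ZMod L)) - b) + ((-k : ℤ) : ZMod L) := by
      push_cast
      ring
    rw [h1]
    have h2 := ZMod.natAbs_valMinAbs_add_le ((a + (k : ZMod L)) - b) ((-k : ℤ) : ZMod L)
    have h3 := K12.vma_cast L (-k)
    have h4 := Int.natAbs_add_le ((a + (k : ZMod L)) - b).valMinAbs (((-k : ℤ) : ZMod L)).valMinAbs
    rw [abs_le] at hk
    have h5 : (-k).natAbs ≤ R := by
      rw [Int.natAbs_neg]
      omega
    omega
  unfold dinf shf
  dsimp only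
  apply max_le
  · exact (key _ _ _ hx.1).trans (Nat.add_le_add_right (le_max_left _ _) _)
  · exact (key _ _ _ hx.2).trans (Nat.add_le_add_right (le_max_right _ _) _)

theorem dist_torus (L : ℕ) [NeZero L] (x y : ZMod L × ZMod L) :
    (torus L).dist x y ≤ 2 * dinf L x y ∧ dinf L x y ≤ L / 2 := by
  constructor
  · obtain ⟨w1, h1⟩ := K12.walkz1 L (x.1 - y.1).valMinAbs y (x.1, y.2)
      (by rw [ZMod.coe_valMinAbs]; ring) rfl
    obtain ⟨w2, h2⟩ := K12.walkz2 L (x.2 - y.2).valMinAbs (x.1, y.2) x rfl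
      (by rw [ZMod.coe_valMinAbs]; ring)
    have h3 := SimpleGraph.dist_le (w1.append w2)
    rw [SimpleGraph.Walk.length_append] at h3
    rw [SimpleGraph.dist_comm]
    unfold dinf
    have h4 := le_max_left (x.1 - y.1).valMinAbs.natAbs (x.2 - y.2).valMinAbs.natAbs
    have h5 := le_max_right (x.1 - y.1).valMinAbs.natAbs (x.2 - y.2).valMinAbs.natAbs
    omega
  · unfold dinf
    exact max_le (ZMod.natAbs_valMinAbs_le _) (ZMod.natAbs_valMinAbs_le _)

end Pool.Agent.TH369.AG
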