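import Pool.Agent.TH369.AG.K9
import Pool.Agent.TH369.AG.K11d
import Pool.Agent.TH369.AG.K12
import Pool.Agent.TH369.AG.J9
import Pool.Agent.TH369.AG.J10

/-!
# Exponential decay on the torus
-/

set_option autoImplicit false

namespace Pool.Agent.TH369.AG

namespace K13

lemma shf_zero (L : ℕ) (c : ZMod L × ZMod L) : shf L c 0 = c := by
  unfold shf
  ext <;> simp

lemma dinf_self (L : ℕ) [NeZero L] (c : ZMod L × ZMod L) : dinf L c c = 0 := by
  unfold dinf
  simp

lemma nrm_nonneg (x : ℤ × ℤ) : 0 ≤ nrm x := le_max_of_le_left (abs_nonneg _)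

section

variable {X E : Type} [Fintype X] [DecidableEq X] [Fintype E] [DecidableEq E]

lemma FS_true_pos (s t : E → X) (w : E → ℝ) (hw : ∀ e, 0 ≤ w e) (S : Finset E) :
    0 < FS s t w S (fun _ => True) := by
  have h : (1 : ℝ) ≤ FS s t w S (fun _ => True) := by
    unfold FS
    have h1 : (1 : ℝ) = ∏ e ∈ (∅ : Finset E), w e := by simp
    rw [h1]
    refine Finset.single_le_sum (f := fun A => ∏ e ∈ A, w e)
      (fun A _ => Finset.prod_nonneg fun e _ => hw e) ?_
    simp only [Finset.mem_filter, Finset.empty_mem_powerset, true_and, and_true]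
    unfold IsF
    simp [LinearIndepOn]
  linarith

lemma PG_nonneg (s t : E → X) (w : E → ℝ) (hw : ∀ e, 0 ≤ w e) (S : Finset E) (x y : X) :
    0 ≤ PG s t w S x y := by
  unfold PG
  refine div_nonneg ?_ (FS_true_pos s t w hw S).le
  unfold FS
  exact Finset.sum_nonneg fun A _ => Finset.prod_nonneg fun e _ => hw e

lemma PG_le_one (s t : E → X) (w : E → ℝ) (hw : ∀ e, 0 ≤ w e) (S : Finset E) (x y : X) :
    PG s t w S x y ≤ 1 := by
  unfold PG
  rw [div_le_one (FS_true_pos s t w hw S)]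
  unfold FS
  refine Finset.sum_le_sum_of_subset_of_nonneg ?_
    fun A _ _ => Finset.prod_nonneg fun e _ => hw e
  intro A hA
  simp only [Finset.mem_filter] at hA ⊢
  exact ⟨hA.1, hA.2.1, trivial⟩

end

section torus

variable (L : ℕ) [NeZero L] (β : ℝ) (hβ : 0 < β)
  (s t : Sym2 (ZMod L × ZMod L) → ZMod L × ZMod L) (hst : ∀ e, e = s(s e, t e))
  (S : Finset (Sym2 (ZMod L × ZMod L))) (hS : ∀ e, e ∈ S ↔ e ∈ (torus L).edgeSet)

include hβ hst hS

/-- One step of the iteration. -/
lemma step (R : ℕ) (q : ℝ) (hR : 0 < R) (hq0 : 0 ≤ q)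
    (hq : ∀ (X E : Type) [Fintype X] [DecidableEq X] [Fintype E] [DecidableEq E] (es et : E → ℤ × ℤ)
        (w : E → ℝ) (_ : ∀ e, w e = β) (Sin : Finset E) (_ : BoxS es et Sin R) (ι : ℤ × ℤ → X)
        (_ : ∀ x z, nrm x < R → nrm z ≤ R → ι x = ι z → x = z) (ρ : X)
        (_ : ∀ x, nrm x < R → ι x ≠ ρ),
      FS (ι ∘ es) (ι ∘ et) w Sin (fun A => Cn (ι ∘ es) (ι ∘ et) A (ι 0) ρ) ≤
        q * FS (ι ∘ es) (ι ∘ et) w Sin (fun _ => True))
    (hL : 2 * R + 2 ≤ L) (x y : ZMod L × ZMod L) (hxy : R ≤ dinf L x y) :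
    PG s t (fun _ => β) S x y ≤ q * ∑ z ∈ bd R, PG s t (fun _ => β) S (shf L x z) y := by
  obtain ⟨es, et, Sin, Sout, hun, hB⟩ := torus_box L R hL s t hst S hS x
  have h := simon es et (fun _ => β) (fun _ => hβ.le) Sin R hR q hq0
    (fun ι hι y' hy' => hq _ _ es et (fun _ => β) (fun _ => rfl) Sin hB.box ι hι (ι y')
      (fun z hz h => by
        have h1 := hι z y' hz (le_of_eq hy') h
        rw [h1, hy'] at hz
        exact lt_irrefl _ hz))
    Sout s t (shf L x) hB y (fun z hz h => by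
      have h1 : nrm z ≤ ((nrm z).toNat : ℕ) := by
        rw [Int.toNat_of_nonneg (nrm_nonneg z)]
      have h2 := dinf_shf L x y z (nrm z).toNat h1
      rw [h, dinf_self] at h2
      have h3 := nrm_nonneg z
      omega)
  rw [hun, shf_zero] at h
  unfold PG
  have hpos := FS_true_pos s t (fun _ => β) (fun _ => hβ.le) S
  rw [← Finset.sum_div, ← mul_div_assoc]
  exact div_le_div_of_nonneg_right h hpos.le

/-- The iteration. -/
lemma iter (R : ℕ) (q : ℝ) (hR : 0 < R) (hq0 : 0 ≤ q) (hqc : q * (bd R).card ≤ 1 / 2)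
    (hq : ∀ (X E : Type) [Fintype X] [DecidableEq X] [Fintype E] [DecidableEq E] (es et : E → ℤ × ℤ)
        (w : E → ℝ) (_ : ∀ e, w e = β) (Sin : Finset E) (_ : BoxS es et Sin R) (ι : ℤ × ℤ → X)
        (_ : ∀ x z, nrm x < R → nrm z ≤ R → ι x = ι z → x = z) (ρ : X)
        (_ : ∀ x, nrm x < R → ι x ≠ ρ),
      FS (ι ∘ es) (ι ∘ et) w Sin (fun A => Cn (ι ∘ es) (ι ∘ et) A (ι 0) ρ) ≤
        q * FS (ι ∘ es) (ι ∘ et) w Sin (fun _ => True))
    (hL : 2 * R + 2 ≤ L) (j : ℕ) : ∀ (x y : ZMod L × ZMod L), j * R ≤ dinf L x y →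
      PG s t (fun _ => β) S x y ≤ (1 / 2) ^ j := by
  induction j with
  | zero =>
    intro x y _
    simpa using PG_le_one s t (fun _ => β) (fun _ => hβ.le) S x y
  | succ j ih =>
    intro x y hxy
    have h1 : R ≤ dinf L x y := by
      refine le_trans ?_ hxy
      nlinarith
    refine (step L β hβ s t hst S hS R q hR hq0 hq hL x y h1).trans ?_
    calc q * ∑ z ∈ bd R, PG s t (fun _ => β) S (shf L x z) y
        ≤ q * ∑ z ∈ bd R, (1 / 2 : ℝ) ^ j := by
          refine mul_le_mul_of_nonneg_left (Finset.sum_le_sum fun z hz => ih _ _ ?_) hq0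
          have hz' : nrm z ≤ R := by
            unfold bd at hz
            exact le_of_eq (Finset.mem_filter.mp hz).2
          have h2 := dinf_shf L x y z R hz'
          have h3 : (j + 1) * R = j * R + R := by ring
          omega
      _ = (q * (bd R).card) * (1 / 2) ^ j := by
          rw [Finset.sum_const, nsmul_eq_mul]
          ring
      _ ≤ (1 / 2) * (1 / 2) ^ j := mul_le_mul_of_nonneg_right hqc (by positivity)
      _ = (1 / 2) ^ (j + 1) := by ring

end torus

/-- `log 2 / 4 ≥ exp (-2)` -/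
lemma log_two_bound : Real.exp (-2) ≤ Real.log 2 / 4 := by
  have h1 : (0.6931471803 : ℝ) < Real.log 2 := Real.log_two_gt_d9
  have h2 : (2.7182818283 : ℝ) < Real.exp 1 := Real.exp_one_gt_d9
  have h3 : Real.exp (-2) = (Real.exp 1 * Real.exp 1)⁻¹ := by
    rw [← Real.exp_add, ← Real.exp_neg]
    norm_num
  rw [h3]
  have h4 : (7 : ℝ) < Real.exp 1 * Real.exp 1 := by nlinarith
  have h5 : (Real.exp 1 * Real.exp 1)⁻¹ < 7⁻¹ := inv_strictAnti₀ (by norm_num) h4
  norm_num at h5 ⊢
  linarith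

end K13

open K13 in
theorem decay : ∃ A : ℝ, 0 < A ∧ ∀ (β : ℝ), 0 < β → ∀ (L : ℕ) [NeZero L]
    (s t : Sym2 (ZMod L × ZMod L) → ZMod L × ZMod L) (_ : ∀ e, e = s(s e, t e))
    (S : Finset (Sym2 (ZMod L × ZMod L))) (_ : ∀ e, e ∈ S ↔ e ∈ (torus L).edgeSet)
    (x y : ZMod L × ZMod L),
    PG s t (fun _ => β) S x y ≤
      2 * Real.exp (- Real.exp (- (A * DD β)) * (torus L).dist x y) := by
  obtain ⟨C, hC, hmain⟩ := q_small
  refine ⟨C + 2, by linarith, ?_⟩
  intro β hβ L _ s t hst S hS x y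
  obtain ⟨R, q, hR, hRC, hq0, hqc, hq⟩ := hmain β hβ
  have hR' : (0 : ℝ) < R := by exact_mod_cast hR
  have hD := one_le_DD β
  -- the rate
  have hrate : Real.exp (-((C + 2) * DD β)) ≤ Real.log 2 / (4 * R) := by
    have h1 : Real.exp (-((C + 2) * DD β)) = Real.exp (-(2 * DD β)) * (Real.exp (C * DD β))⁻¹ := by
      rw [← Real.exp_neg, ← Real.exp_add]
      congr 1
      ring
    have h2 : Real.exp (-(2 * DD β)) ≤ Real.exp (-2) := Real.exp_le_exp.mpr (by linarith)
    have h3 : (Real.exp (C * DD β))⁻¹ ≤ (R : ℝ)⁻¹ := inv_anti₀ hR' hRC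
    rw [h1]
    calc Real.exp (-(2 * DD β)) * (Real.exp (C * DD β))⁻¹ ≤ (Real.log 2 / 4) * (R : ℝ)⁻¹ :=
          mul_le_mul (h2.trans log_two_bound) h3 (by positivity)
            (div_nonneg (Real.log_nonneg (by norm_num)) (by norm_num))
      _ = Real.log 2 / (4 * R) := by
          field_simp
  obtain ⟨hd1, hd2⟩ := dist_torus L x y
  have hlog : 0 < Real.log 2 := Real.log_pos (by norm_num)
  have hmono : Real.exp (-(Real.log 2 / (4 * R)) * (torus L).dist x y) ≤
      Real.exp (- Real.exp (-((C + 2) * DD β)) * (torus L).dist x y) := by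
    refine Real.exp_le_exp.mpr ?_
    have h0 : (0 : ℝ) ≤ (torus L).dist x y := Nat.cast_nonneg _
    nlinarith
  refine le_trans ?_ (mul_le_mul_of_nonneg_left hmono (by norm_num : (0 : ℝ) ≤ 2))
  have hdR : ((torus L).dist x y : ℝ) ≤ 2 * dinf L x y := by exact_mod_cast hd1
  by_cases hL : 2 * R + 2 ≤ L
  · -- large torus
    have h := iter L β hβ s t hst S hS R q hR hq0 hqc hq hL (dinf L x y / R) x y
      (Nat.div_mul_le_self _ _)
    refine h.trans ?_
    have h1 : (dinf L x y : ℝ) ≤ (dinf L x y / R : ℕ) * R + R := by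
      have := Nat.div_add_mod (dinf L x y) R
      have h2 := Nat.mod_lt (dinf L x y) hR
      have h3 : dinf L x y ≤ (dinf L x y / R) * R + R := by nlinarith
      exact_mod_cast h3
    set j : ℕ := dinf L x y / R with hj
    have h4 : ((1 : ℝ) / 2) ^ j = Real.exp (-(Real.log 2 * j)) := by
      rw [← Real.exp_log (show (0 : ℝ) < (1 / 2) ^ j by positivity), Real.log_pow]
      congr 1
      rw [Real.log_div (by norm_num) (by norm_num), Real.log_one]
      ring
    have h5 : (2 : ℝ) = Real.exp (Real.log 2) := (Real.exp_log (by norm_num)).symm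
    have h6 : (2 : ℝ) * Real.exp (-(Real.log 2 / (4 * R)) * (torus L).dist x y) =
        Real.exp (Real.log 2 + -(Real.log 2 / (4 * R)) * (torus L).dist x y) := by
      rw [Real.exp_add, ← h5]
    rw [h4, h6]
    refine Real.exp_le_exp.mpr ?_
    have h7 : Real.log 2 / (4 * R) * (torus L).dist x y ≤ Real.log 2 * (dinf L x y / R) := by
      have h8 : Real.log 2 / (4 * R) * (torus L).dist x y ≤
          Real.log 2 / (4 * R) * (2 * dinf L x y) :=
        mul_le_mul_of_nonneg_left hdR (by positivity)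
      have h9 : Real.log 2 / (4 * R) * (2 * dinf L x y) = Real.log 2 * (dinf L x y / R) / 2 := by
        field_simp
        ring
      have h10 : 0 ≤ Real.log 2 * (dinf L x y / R) := by positivity
      linarith
    have h11 : (dinf L x y : ℝ) / R ≤ j + 1 := by
      rw [div_le_iff₀ hR']
      linarith
    have h12 : Real.log 2 * (dinf L x y / R) ≤ Real.log 2 * (j + 1) :=
      mul_le_mul_of_nonneg_left h11 hlog.le
    linarith
  · -- small torus
    refine (PG_le_one s t (fun _ => β) (fun _ => hβ.le) S x y).trans ?_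
    have h1 : (torus L).dist x y ≤ 3 * R := by omega
    have h1' : ((torus L).dist x y : ℝ) ≤ 3 * R := by exact_mod_cast h1
    have h2 : Real.log 2 / (4 * R) * (torus L).dist x y ≤ Real.log 2 := by
      calc Real.log 2 / (4 * R) * (torus L).dist x y ≤ Real.log 2 / (4 * R) * (3 * R) :=
            mul_le_mul_of_nonneg_left h1' (by positivity)
        _ = Real.log 2 * (3 / 4) := by field_simp
        _ ≤ Real.log 2 := by linarith
    have h5 : (2 : ℝ) = Real.exp (Real.log 2) := (Real.exp_log (by norm_num)).symm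
    calc (1 : ℝ) = Real.exp 0 := Real.exp_zero.symm
      _ ≤ Real.exp (Real.log 2 + -(Real.log 2 / (4 * R)) * (torus L).dist x y) :=
          Real.exp_le_exp.mpr (by linarith)
      _ = 2 * Real.exp (-(Real.log 2 / (4 * R)) * (torus L).dist x y) := by
          rw [Real.exp_add, ← h5]

end Pool.Agent.TH369.AG
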