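import Pool.Agent.TH369.AG.Defs2

/-!
# Calculus for functions of polynomial growth
-/

set_option autoImplicit false
set_option linter.unusedSectionVars false

namespace Pool.Agent.TH369.AG

open MeasureTheory Matrix

variable {V : Type} [Fintype V] [DecidableEq V]

abbrev Pt (V : Type) := (V → ℝ) × (V → ℝ)

lemma one_le_MM (p : Pt V) : 1 ≤ MM p := by
  unfold MM
  have : 0 ≤ ∑ x, (Real.exp (p.1 x) + Real.exp (- p.1 x) + p.2 x ^ 2) :=
    Finset.sum_nonneg fun x _ => by positivity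
  linarith

lemma exp_le_MM (p : Pt V) (x : V) : Real.exp (p.1 x) ≤ MM p := by
  unfold MM
  have h := Finset.single_le_sum (f := fun x => Real.exp (p.1 x) + Real.exp (- p.1 x) + p.2 x ^ 2)
    (fun x _ => by positivity) (Finset.mem_univ x)
  have h1 := Real.exp_pos (-p.1 x)
  have h2 := sq_nonneg (p.2 x)
  linarith

lemma exp_neg_le_MM (p : Pt V) (x : V) : Real.exp (- p.1 x) ≤ MM p := by
  unfold MM
  have h := Finset.single_le_sum (f := fun x => Real.exp (p.1 x) + Real.exp (- p.1 x) + p.2 x ^ 2)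
    (fun x _ => by positivity) (Finset.mem_univ x)
  have h1 := Real.exp_pos (p.1 x)
  have h2 := sq_nonneg (p.2 x)
  linarith

lemma sq_le_MM (p : Pt V) (x : V) : p.2 x ^ 2 ≤ MM p := by
  unfold MM
  have h := Finset.single_le_sum (f := fun x => Real.exp (p.1 x) + Real.exp (- p.1 x) + p.2 x ^ 2)
    (fun x _ => by positivity) (Finset.mem_univ x)
  have h1 := Real.exp_pos (p.1 x)
  have h2 := Real.exp_pos (-p.1 x)
  linarith

lemma abs_le_MM (p : Pt V) (x : V) : |p.2 x| ≤ MM p := by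
  have h1 := sq_le_MM p x
  have h2 := one_le_MM p
  have : |p.2 x| ^ 2 ≤ MM p ^ 2 := by
    rw [sq_abs]
    nlinarith
  exact le_of_sq_le_sq' this (by linarith)
where
  le_of_sq_le_sq' {a b : ℝ} (h : a ^ 2 ≤ b ^ 2) (hb : 0 ≤ b) : a ≤ b := by
    nlinarith [sq_nonneg (a - b), sq_nonneg (a + b)]

lemma nat_bound {f : Pt V → ℝ} (C : ℝ) (k : ℕ) (h : ∀ p, f p ≤ C * MM p ^ k) :
    ∃ K : ℕ, ∀ p, f p ≤ K * MM p ^ K := by
  refine ⟨max (Nat.ceil |C|) k, fun p => (h p).trans ?_⟩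
  have h1 : C ≤ ((max (Nat.ceil |C|) k : ℕ) : ℝ) := by
    refine (le_abs_self C).trans ((Nat.le_ceil |C|).trans ?_)
    exact_mod_cast le_max_left _ _
  have h2 : MM p ^ k ≤ MM p ^ (max (Nat.ceil |C|) k) :=
    pow_le_pow_right₀ (one_le_MM p) (le_max_right _ _)
  have h3 : 0 ≤ MM p ^ k := pow_nonneg (zero_le_one.trans (one_le_MM p)) _
  calc C * MM p ^ k ≤ ((max (Nat.ceil |C|) k : ℕ) : ℝ) * MM p ^ k :=
        mul_le_mul_of_nonneg_right h1 h3
    _ ≤ _ := mul_le_mul_of_nonneg_left h2 (Nat.cast_nonneg _)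

lemma Sm.contDiff {F : Pt V → ℝ} (h : Sm F) : ContDiff ℝ 1 F := h.1

lemma Sm.cont {F : Pt V → ℝ} (h : Sm F) : Continuous F := h.1.continuous

lemma Sm.diff {F : Pt V → ℝ} (h : Sm F) (p : Pt V) : DifferentiableAt ℝ F p :=
  (h.1.differentiable (by norm_num)) p

lemma Sm.gr {F : Pt V → ℝ} (h : Sm F) : Gr F := by
  obtain ⟨K, hK⟩ := h.2
  exact ⟨K, fun p => le_trans (by linarith [norm_nonneg (fderiv ℝ F p)]) (hK p)⟩

lemma Sm.const (c : ℝ) : Sm (fun _ : Pt V => c) := by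
  refine ⟨contDiff_const, nat_bound |c| 0 fun p => ?_⟩
  simp

lemma Sm.add {F G : Pt V → ℝ} (hF : Sm F) (hG : Sm G) : Sm (fun p => F p + G p) := by
  obtain ⟨K, hK⟩ := hF.2
  obtain ⟨L, hL⟩ := hG.2
  refine ⟨hF.1.add hG.1, nat_bound (K + L) (K + L) fun p => ?_⟩
  rw [fderiv_fun_add (hF.diff p) (hG.diff p)]
  have h1 := hK p
  have h2 := hL p
  have h3 := abs_add_le (F p) (G p)
  have h4 := norm_add_le (fderiv ℝ F p) (fderiv ℝ G p)
  have h5 : MM p ^ K ≤ MM p ^ (K + L) := pow_le_pow_right₀ (one_le_MM p) (by omega)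
  have h6 : MM p ^ L ≤ MM p ^ (K + L) := pow_le_pow_right₀ (one_le_MM p) (by omega)
  have h7 : (K : ℝ) * MM p ^ K ≤ K * MM p ^ (K + L) :=
    mul_le_mul_of_nonneg_left h5 (Nat.cast_nonneg _)
  have h8 : (L : ℝ) * MM p ^ L ≤ L * MM p ^ (K + L) :=
    mul_le_mul_of_nonneg_left h6 (Nat.cast_nonneg _)
  rw [add_mul]
  linarith

lemma Sm.mul {F G : Pt V → ℝ} (hF : Sm F) (hG : Sm G) : Sm (fun p => F p * G p) := by
  obtain ⟨K, hK⟩ := hF.2
  obtain ⟨L, hL⟩ := hG.2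
  refine ⟨hF.1.mul hG.1, nat_bound (K * L) (K + L) fun p => ?_⟩
  rw [fderiv_fun_mul (hF.diff p) (hG.diff p)]
  have h1 := hK p
  have h2 := hL p
  have h4 : ‖F p • fderiv ℝ G p + G p • fderiv ℝ F p‖ ≤
      |F p| * ‖fderiv ℝ G p‖ + |G p| * ‖fderiv ℝ F p‖ := by
    refine (norm_add_le _ _).trans ?_
    rw [norm_smul, norm_smul, Real.norm_eq_abs, Real.norm_eq_abs]
  have h5 : |F p * G p| = |F p| * |G p| := abs_mul _ _
  have a1 := abs_nonneg (F p)
  have a2 := abs_nonneg (G p)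
  have a3 := norm_nonneg (fderiv ℝ F p)
  have a4 := norm_nonneg (fderiv ℝ G p)
  have h6 : |F p * G p| + ‖F p • fderiv ℝ G p + G p • fderiv ℝ F p‖ ≤
      (|F p| + ‖fderiv ℝ F p‖) * (|G p| + ‖fderiv ℝ G p‖) := by
    rw [h5]
    nlinarith [mul_nonneg a3 a4]
  refine h6.trans ((mul_le_mul h1 h2 (by positivity) ?_).trans_eq ?_)
  · have := one_le_MM p
    positivity
  · rw [pow_add]; ring

lemma Sm.const_mul {F : Pt V → ℝ} (c : ℝ) (hF : Sm F) : Sm (fun p => c * F p) :=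
  (Sm.const c).mul hF

lemma Sm.neg {F : Pt V → ℝ} (hF : Sm F) : Sm (fun p => - F p) := by
  have := hF.const_mul (-1)
  simpa using this

lemma Sm.sub {F G : Pt V → ℝ} (hF : Sm F) (hG : Sm G) : Sm (fun p => F p - G p) := by
  have := hF.add hG.neg
  simpa [sub_eq_add_neg] using this

lemma Sm.pow {F : Pt V → ℝ} (hF : Sm F) (n : ℕ) : Sm (fun p => F p ^ n) := by
  induction n with
  | zero => simpa using Sm.const 1
  | succ n ih =>
    have := ih.mul hF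
    simpa [pow_succ] using this

lemma Sm.sum {ι : Type*} (s : Finset ι) {F : ι → Pt V → ℝ} (hF : ∀ i ∈ s, Sm (F i)) :
    Sm (fun p => ∑ i ∈ s, F i p) := by
  classical
  induction s using Finset.induction_on with
  | empty => simpa using Sm.const 0
  | insert a s ha ih =>
    have h1 := (hF a (Finset.mem_insert_self a s)).add (ih fun i hi => hF i (Finset.mem_insert_of_mem hi))
    simpa [Finset.sum_insert ha] using h1

lemma norm_fst_apply (x : V) (q : Pt V) : |q.1 x| ≤ ‖q‖ :=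
  (norm_le_pi_norm q.1 x).trans (norm_fst_le q)

lemma norm_snd_apply (x : V) (q : Pt V) : |q.2 x| ≤ ‖q‖ :=
  (norm_le_pi_norm q.2 x).trans (norm_snd_le q)

/-- The coordinate functionals. -/
noncomputable def ct (x : V) : Pt V →L[ℝ] ℝ :=
  (ContinuousLinearMap.proj x).comp (ContinuousLinearMap.fst ℝ (V → ℝ) (V → ℝ))

noncomputable def cy (x : V) : Pt V →L[ℝ] ℝ :=
  (ContinuousLinearMap.proj x).comp (ContinuousLinearMap.snd ℝ (V → ℝ) (V → ℝ))

omit [DecidableEq V] in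
@[simp] lemma ct_apply (x : V) (q : Pt V) : ct x q = q.1 x := rfl
omit [DecidableEq V] in
@[simp] lemma cy_apply (x : V) (q : Pt V) : cy x q = q.2 x := rfl

lemma norm_ct (x : V) : ‖ct x‖ ≤ 1 :=
  ContinuousLinearMap.opNorm_le_bound _ zero_le_one fun q => by
    rw [one_mul]; exact norm_fst_apply x q

lemma norm_cy (x : V) : ‖cy x‖ ≤ 1 :=
  ContinuousLinearMap.opNorm_le_bound _ zero_le_one fun q => by
    rw [one_mul]; exact norm_snd_apply x q

lemma hasFDerivAt_ct (x : V) (p : Pt V) : HasFDerivAt (fun q : Pt V => q.1 x) (ct x) p :=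
  (ct x).hasFDerivAt

lemma hasFDerivAt_cy (x : V) (p : Pt V) : HasFDerivAt (fun q : Pt V => q.2 x) (cy x) p :=
  (cy x).hasFDerivAt

lemma Sm.exp (x : V) : Sm (fun p : Pt V => Real.exp (p.1 x)) := by
  refine ⟨Real.contDiff_exp.comp (ct x).contDiff, nat_bound 2 1 fun p => ?_⟩
  have h : HasFDerivAt (fun q : Pt V => Real.exp (q.1 x)) (Real.exp (p.1 x) • ct x) p :=
    (hasFDerivAt_ct x p).exp
  rw [h.fderiv, norm_smul, Real.norm_eq_abs, abs_of_pos (Real.exp_pos _)]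
  have h1 := exp_le_MM p x
  have h2 := norm_ct x
  have h3 := Real.exp_pos (p.1 x)
  nlinarith [norm_nonneg (ct x)]

lemma Sm.exp_neg (x : V) : Sm (fun p : Pt V => Real.exp (- p.1 x)) := by
  refine ⟨Real.contDiff_exp.comp (ct x).contDiff.neg, nat_bound 2 1 fun p => ?_⟩
  have h : HasFDerivAt (fun q : Pt V => Real.exp (- q.1 x)) (Real.exp (- p.1 x) • (-ct x)) p :=
    (hasFDerivAt_ct x p).neg.exp
  rw [h.fderiv, norm_smul, Real.norm_eq_abs, abs_of_pos (Real.exp_pos _), norm_neg]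
  have h1 := exp_neg_le_MM p x
  have h2 := norm_ct x
  have h3 := Real.exp_pos (- p.1 x)
  nlinarith [norm_nonneg (ct x)]

lemma Sm.y (x : V) : Sm (fun p : Pt V => p.2 x) := by
  refine ⟨(cy x).contDiff, nat_bound 2 1 fun p => ?_⟩
  rw [(hasFDerivAt_cy x p).fderiv]
  have h1 := abs_le_MM p x
  have h2 := norm_cy x
  have h3 := one_le_MM p
  linarith

lemma Sm.exp_sub (x z : V) : Sm (fun p : Pt V => Real.exp (p.1 x - p.1 z)) := by
  have := (Sm.exp x).mul (Sm.exp_neg z)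
  refine (show (fun p : Pt V => Real.exp (p.1 x - p.1 z)) =
    fun p => Real.exp (p.1 x) * Real.exp (- p.1 z) from ?_) ▸ this
  funext p
  rw [← Real.exp_add, sub_eq_add_neg]

lemma Sm.inv {F : Pt V → ℝ} (hF : Sm F) (h0 : ∀ p, F p ≠ 0) (C : ℝ) (k : ℕ)
    (hb : ∀ p, |F p|⁻¹ ≤ C * MM p ^ k) : Sm (fun p => (F p)⁻¹) := by
  obtain ⟨K, hK⟩ := hF.2
  have hC : 0 ≤ C := by
    have p0 : Pt V := (fun _ => 0, fun _ => 0)
    have h1 := hb p0
    have h2 : 0 < |F p0|⁻¹ := inv_pos.mpr (abs_pos.mpr (h0 p0))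
    have h3 : 0 < MM p0 ^ k := pow_pos (zero_lt_one.trans_le (one_le_MM p0)) _
    by_contra hneg
    push Not at hneg
    nlinarith
  refine ⟨hF.1.inv h0, nat_bound (C + C ^ 2 * K) (2 * k + K) fun p => ?_⟩
  have hd : HasFDerivAt (fun q => (F q)⁻¹) (-(F p ^ 2)⁻¹ • fderiv ℝ F p) p := by
    have h := (hasDerivAt_inv (h0 p)).comp_hasFDerivAt p (hF.diff p).hasFDerivAt
    exact h
  rw [hd.fderiv, norm_smul, norm_neg, norm_inv, norm_pow, Real.norm_eq_abs, abs_inv]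
  have h1 := hb p
  have h2 := hK p
  have h3 : 0 < |F p|⁻¹ := inv_pos.mpr (abs_pos.mpr (h0 p))
  have hM := one_le_MM p
  have h4 : (|F p| ^ 2)⁻¹ ≤ C ^ 2 * MM p ^ (2 * k) := by
    rw [← inv_pow]
    calc (|F p|⁻¹) ^ 2 ≤ (C * MM p ^ k) ^ 2 := pow_le_pow_left₀ h3.le h1 2
      _ = _ := by rw [mul_pow, ← pow_mul]; ring_nf
  have h5 : ‖fderiv ℝ F p‖ ≤ K * MM p ^ K := by linarith [abs_nonneg (F p)]
  have h6 : (|F p| ^ 2)⁻¹ * ‖fderiv ℝ F p‖ ≤ (C ^ 2 * MM p ^ (2 * k)) * (K * MM p ^ K) :=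
    mul_le_mul h4 h5 (norm_nonneg _) (by positivity)
  have h7 : C * MM p ^ k ≤ C * MM p ^ (2 * k + K) :=
    mul_le_mul_of_nonneg_left (pow_le_pow_right₀ hM (by omega)) hC
  calc |F p|⁻¹ + (|F p| ^ 2)⁻¹ * ‖fderiv ℝ F p‖ ≤ C * MM p ^ (2 * k + K) +
        (C ^ 2 * MM p ^ (2 * k)) * (K * MM p ^ K) := by linarith
    _ = _ := by rw [pow_add]; ring

/-! ### Directional derivatives -/

/-- `F` has the derivative `d` at `p` in the direction `v`. -/
def Dv (F : Pt V → ℝ) (p v : Pt V) (d : ℝ) : Prop :=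
  ∃ L : Pt V →L[ℝ] ℝ, HasFDerivAt F L p ∧ L v = d

lemma Dv.fderiv {F : Pt V → ℝ} {p v : Pt V} {d : ℝ} (h : Dv F p v d) : fderiv ℝ F p v = d := by
  obtain ⟨L, hL, hd⟩ := h
  rw [hL.fderiv, hd]

lemma Sm.dv {F : Pt V → ℝ} (h : Sm F) (p v : Pt V) : Dv F p v (fderiv ℝ F p v) :=
  ⟨_, (h.diff p).hasFDerivAt, rfl⟩

lemma Dv.congr {F : Pt V → ℝ} {p v : Pt V} {d d' : ℝ} (h : Dv F p v d) (e : d = d') :
    Dv F p v d' := e ▸ h

lemma Dv.unique {F : Pt V → ℝ} {p v : Pt V} {d d' : ℝ} (h : Dv F p v d) (h' : Dv F p v d') :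
    d = d' := by rw [← h.fderiv, ← h'.fderiv]

lemma Dv.const (c : ℝ) (p v : Pt V) : Dv (fun _ => c) p v 0 :=
  ⟨0, hasFDerivAt_const c p, rfl⟩

lemma Dv.add {F G : Pt V → ℝ} {p v : Pt V} {a b : ℝ} (hF : Dv F p v a) (hG : Dv G p v b) :
    Dv (fun q => F q + G q) p v (a + b) := by
  obtain ⟨L, hL, rfl⟩ := hF
  obtain ⟨L', hL', rfl⟩ := hG
  exact ⟨L + L', hL.add hL', rfl⟩

lemma Dv.sub {F G : Pt V → ℝ} {p v : Pt V} {a b : ℝ} (hF : Dv F p v a) (hG : Dv G p v b) :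
    Dv (fun q => F q - G q) p v (a - b) := by
  obtain ⟨L, hL, rfl⟩ := hF
  obtain ⟨L', hL', rfl⟩ := hG
  exact ⟨L - L', hL.sub hL', rfl⟩

lemma Dv.neg {F : Pt V → ℝ} {p v : Pt V} {a : ℝ} (hF : Dv F p v a) :
    Dv (fun q => - F q) p v (-a) := by
  obtain ⟨L, hL, rfl⟩ := hF
  exact ⟨-L, hL.neg, rfl⟩

lemma Dv.mul {F G : Pt V → ℝ} {p v : Pt V} {a b : ℝ} (hF : Dv F p v a) (hG : Dv G p v b) :
    Dv (fun q => F q * G q) p v (a * G p + F p * b) := by
  obtain ⟨L, hL, rfl⟩ := hF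
  obtain ⟨L', hL', rfl⟩ := hG
  refine ⟨_, hL.mul hL', ?_⟩
  simp only [_root_.add_apply, _root_.smul_apply, smul_eq_mul]
  ring

lemma Dv.const_mul {F : Pt V → ℝ} {p v : Pt V} {a : ℝ} (c : ℝ) (hF : Dv F p v a) :
    Dv (fun q => c * F q) p v (c * a) := by
  refine ((Dv.const c p v).mul hF).congr ?_
  ring

lemma Dv.mul_const {F : Pt V → ℝ} {p v : Pt V} {a : ℝ} (hF : Dv F p v a) (c : ℝ) :
    Dv (fun q => F q * c) p v (a * c) := by
  refine (hF.mul (Dv.const c p v)).congr ?_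
  ring

lemma Dv.pow {F : Pt V → ℝ} {p v : Pt V} {a : ℝ} (hF : Dv F p v a) (n : ℕ) :
    Dv (fun q => F q ^ (n + 1)) p v ((n + 1) * F p ^ n * a) := by
  induction n with
  | zero => simpa using hF
  | succ n ih =>
    refine (show (fun q => F q ^ (n + 1 + 1)) = fun q => F q ^ (n + 1) * F q from
      funext fun q => pow_succ _ _) ▸ ((ih.mul hF).congr ?_)
    push_cast
    ring

lemma Dv.sum {ι : Type*} (s : Finset ι) {F : ι → Pt V → ℝ} {p v : Pt V} {a : ι → ℝ}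
    (hF : ∀ i ∈ s, Dv (F i) p v (a i)) : Dv (fun q => ∑ i ∈ s, F i q) p v (∑ i ∈ s, a i) := by
  classical
  induction s using Finset.induction_on with
  | empty => simpa using Dv.const 0 p v
  | insert j s hj ih =>
    have h1 := (hF j (Finset.mem_insert_self j s)).add
      (ih fun i hi => hF i (Finset.mem_insert_of_mem hi))
    simpa [Finset.sum_insert hj] using h1

lemma Dv.inv {F : Pt V → ℝ} {p v : Pt V} {a : ℝ} (hF : Dv F p v a) (h0 : F p ≠ 0) :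
    Dv (fun q => (F q)⁻¹) p v (-a / F p ^ 2) := by
  obtain ⟨L, hL, rfl⟩ := hF
  refine ⟨_, (hasDerivAt_inv h0).comp_hasFDerivAt p hL, ?_⟩
  simp only [_root_.smul_apply, smul_eq_mul]
  field_simp

lemma Dv.exp (x : V) (p v : Pt V) : Dv (fun q => Real.exp (q.1 x)) p v (Real.exp (p.1 x) * v.1 x) :=
  ⟨_, (hasFDerivAt_ct x p).exp, rfl⟩

lemma Dv.exp_neg (x : V) (p v : Pt V) :
    Dv (fun q => Real.exp (- q.1 x)) p v (- (Real.exp (- p.1 x) * v.1 x)) :=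
  ⟨_, (hasFDerivAt_ct x p).neg.exp, by simp⟩

lemma Dv.exp_sub (x z : V) (p v : Pt V) :
    Dv (fun q => Real.exp (q.1 x - q.1 z)) p v (Real.exp (p.1 x - p.1 z) * (v.1 x - v.1 z)) :=
  ⟨_, ((hasFDerivAt_ct x p).sub (hasFDerivAt_ct z p)).exp, by simp⟩

lemma Dv.y (x : V) (p v : Pt V) : Dv (fun q => q.2 x) p v (v.2 x) :=
  ⟨_, hasFDerivAt_cy x p, rfl⟩

end Pool.Agent.TH369.AG
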