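import Pool.Agent.TH369.AG.Score

/-!
# The bound for one cell
-/

set_option autoImplicit false
set_option linter.unusedSectionVars false

namespace Pool.Agent.TH369.AG

open MeasureTheory Matrix

variable {V : Type} [Fintype V] [DecidableEq V]

/-- `g` is a cut-off function for the cell `K` with gradient at most `δ`. -/
structure Cut (N : Net V) (K : Finset V) (δ : ℝ) (g : V → ℝ) : Prop where
  bd : ∀ x, |g x| ≤ 1
  supp : ∀ x, g x ≠ 0 → x ∈ K ∧ N.r x = 0 ∧ ∀ z, N.B x z ≠ 0 → z ∈ K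
  lip : ∀ x z, N.B x z ≠ 0 → |g x - g z| ≤ δ

noncomputable def Wd (x z : V) (p : Pt V) : ℝ :=
  (p.2 x * Real.exp (p.1 z) - p.2 z * Real.exp (p.1 x)) ^ 2

noncomputable def Wo (K : Finset V) (o : V) (p : Pt V) : ℝ := (K.card : ℝ)⁻¹ * ∑ x ∈ K, Wd x o p

noncomputable def Ps (K : Finset V) (p : Pt V) : ℝ := (K.card : ℝ)⁻¹ * ∑ x ∈ K, Real.exp (p.1 x) ^ 2

noncomputable def WW (K : Finset V) (p : Pt V) : ℝ := (K.card : ℝ)⁻¹ * ∑ o ∈ K, Wo K o p

noncomputable def ep (N : Net V) (K : Finset V) (p : Pt V) : ℝ :=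
  (K.card : ℝ)⁻¹ * ∑ x ∈ K, ∑ z ∈ K, N.B x z * ed p.1 p.2 x z

/-- The quantity which controls a cell. -/
noncomputable def TT (N : Net V) (K : Finset V) (p : Pt V) : ℝ :=
  Ps K p + WW K p + Ps K p * ep N K p ^ 2

/-- The antisymmetric product of two scores. -/
noncomputable def br (N : Net V) (m g h : V → ℝ) (p : Pt V) : ℝ :=
  sA N m g p * sN N h p - sA N m h p * sN N g p

noncomputable def so (o : V) (p : Pt V) : ℝ := p.2 o * Real.exp (- p.1 o)

noncomputable def XX (N : Net V) (m g : V → ℝ) (o : V) (p : Pt V) : ℝ :=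
  sA N m g p + so o p * sN N g p

noncomputable def th (K : Finset V) (o : V) (p : Pt V) : ℝ :=
  Real.exp (p.1 o) ^ 4 * (Real.exp (p.1 o) ^ 2 + Wo K o p)⁻¹

lemma Sm.ed (x z : V) : Sm (fun p : Pt V => ed p.1 p.2 x z) := by
  unfold AG.ed
  refine Sm.sub (Sm.sub (Sm.const_mul _ (Sm.add ?_ ?_)) ((Sm.y x).mul (Sm.y z))) (Sm.const _)
  · exact (Sm.exp_sub x z).mul ((Sm.const 1).add ((Sm.y z).pow 2))
  · exact (Sm.exp_sub z x).mul ((Sm.const 1).add ((Sm.y x).pow 2))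

lemma Sm.Wd (x z : V) : Sm (Wd x z) := by
  unfold AG.Wd
  exact (((Sm.y x).mul (Sm.exp z)).sub ((Sm.y z).mul (Sm.exp x))).pow 2

lemma Sm.Wo (K : Finset V) (o : V) : Sm (Wo K o) := by
  unfold AG.Wo
  exact (Sm.sum _ fun x _ => Sm.Wd x o).const_mul _

lemma Sm.Ps (K : Finset V) : Sm (Ps K) := by
  unfold AG.Ps
  exact (Sm.sum _ fun x _ => (Sm.exp x).pow 2).const_mul _

lemma Sm.WW (K : Finset V) : Sm (WW K) := by
  unfold AG.WW
  exact (Sm.sum _ fun x _ => Sm.Wo K x).const_mul _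

lemma Sm.ep (N : Net V) (K : Finset V) : Sm (ep N K) := by
  unfold AG.ep
  exact (Sm.sum _ fun x _ => Sm.sum _ fun z _ => (Sm.ed x z).const_mul _).const_mul _

lemma Sm.TT (N : Net V) (K : Finset V) : Sm (TT N K) := by
  unfold AG.TT
  exact ((Sm.Ps K).add (Sm.WW K)).add ((Sm.Ps K).mul ((Sm.ep N K).pow 2))

lemma Sm.br (N : Net V) (m g h : V → ℝ) : Sm (br N m g h) := by
  unfold AG.br
  exact ((Sm.sA N m g).mul (Sm.sN N h)).sub ((Sm.sA N m h).mul (Sm.sN N g))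

lemma Sm.so (o : V) : Sm (so o) := by
  unfold AG.so
  exact (Sm.y o).mul (Sm.exp_neg o)

lemma Sm.XX (N : Net V) (m g : V → ℝ) (o : V) : Sm (XX N m g o) := by
  unfold AG.XX
  exact (Sm.sA N m g).add ((Sm.so o).mul (Sm.sN N g))

lemma Wd_nonneg (x z : V) (p : Pt V) : 0 ≤ Wd x z p := sq_nonneg _

lemma Wo_nonneg (K : Finset V) (o : V) (p : Pt V) : 0 ≤ Wo K o p :=
  mul_nonneg (by positivity) (Finset.sum_nonneg fun x _ => Wd_nonneg x o p)

lemma WW_nonneg (K : Finset V) (p : Pt V) : 0 ≤ WW K p :=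
  mul_nonneg (by positivity) (Finset.sum_nonneg fun x _ => Wo_nonneg K x p)

lemma Ps_nonneg (K : Finset V) (p : Pt V) : 0 ≤ Ps K p :=
  mul_nonneg (by positivity) (Finset.sum_nonneg fun x _ => by positivity)

lemma Ps_pos {K : Finset V} (hK : K.Nonempty) (p : Pt V) : 0 < Ps K p := by
  refine mul_pos (by have := hK.card_pos; positivity) (Finset.sum_pos (fun x _ => by positivity) hK)

lemma Sm.th (K : Finset V) (o : V) : Sm (th K o) := by
  unfold AG.th
  refine ((Sm.exp o).pow 4).mul ((((Sm.exp o).pow 2).add (Sm.Wo K o)).inv (fun p => ?_) 1 2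
    fun p => ?_)
  · have := Wo_nonneg K o p
    positivity
  · have h0 := Wo_nonneg K o p
    have h1 : 0 < Real.exp (p.1 o) ^ 2 := by positivity
    rw [abs_of_pos (by positivity), one_mul]
    calc (Real.exp (p.1 o) ^ 2 + AG.Wo K o p)⁻¹ ≤ (Real.exp (p.1 o) ^ 2)⁻¹ :=
          inv_anti₀ h1 (by linarith)
      _ = Real.exp (- p.1 o) ^ 2 := by rw [Real.exp_neg, inv_pow]
      _ ≤ MM p ^ 2 := pow_le_pow_left₀ (Real.exp_pos _).le (exp_neg_le_MM p o) 2

lemma Sm.Ps_inv {K : Finset V} (hK : K.Nonempty) : Sm (fun p => (AG.Ps K p)⁻¹) := by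
  obtain ⟨o, ho⟩ := hK
  refine (Sm.Ps K).inv (fun p => (Ps_pos ⟨o, ho⟩ p).ne') K.card 2 fun p => ?_
  rw [abs_of_pos (Ps_pos ⟨o, ho⟩ p)]
  have hc : 0 < (K.card : ℝ) := by
    have := Finset.card_pos.mpr ⟨o, ho⟩
    positivity
  have h1 : (K.card : ℝ)⁻¹ * Real.exp (p.1 o) ^ 2 ≤ AG.Ps K p := by
    unfold AG.Ps
    refine mul_le_mul_of_nonneg_left ?_ (by positivity)
    exact Finset.single_le_sum (f := fun x => Real.exp (p.1 x) ^ 2) (fun x _ => by positivity) ho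
  have h2 : 0 < (K.card : ℝ)⁻¹ * Real.exp (p.1 o) ^ 2 := by positivity
  calc (AG.Ps K p)⁻¹ ≤ ((K.card : ℝ)⁻¹ * Real.exp (p.1 o) ^ 2)⁻¹ := inv_anti₀ h2 h1
    _ = K.card * Real.exp (- p.1 o) ^ 2 := by rw [mul_inv, inv_inv, Real.exp_neg, inv_pow]
    _ ≤ K.card * MM p ^ 2 := mul_le_mul_of_nonneg_left
        (pow_le_pow_left₀ (Real.exp_pos _).le (exp_neg_le_MM p o) 2) hc.le

/-- symmetrisation of a sum over ordered pairs -/
lemma sum_symm (N : Net V) (F : V → V → ℝ) :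
    ∑ x, ∑ z, N.B x z * F x z = (1 / 2) * ∑ x, ∑ z, N.B x z * (F x z + F z x) := by
  have h : ∑ x, ∑ z, N.B x z * F x z = ∑ x, ∑ z, N.B x z * F z x := by
    rw [Finset.sum_comm]
    refine Finset.sum_congr rfl fun x _ => Finset.sum_congr rfl fun z _ => ?_
    rw [N.symm]
  have h2 : ∑ x, ∑ z, N.B x z * (F x z + F z x) =
      ∑ x, ∑ z, N.B x z * F x z + ∑ x, ∑ z, N.B x z * F z x := by
    rw [← Finset.sum_add_distrib]
    refine Finset.sum_congr rfl fun x _ => ?_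
    rw [← Finset.sum_add_distrib]
    refine Finset.sum_congr rfl fun z _ => ?_
    ring
  rw [h2, ← h]
  ring

/-- the quadratic form in the derivative of `XX` -/
noncomputable def qd (o : V) (p : Pt V) (x z : V) : ℝ :=
  ed p.1 p.2 x z + 1 + (p.2 x - so o p * Real.exp (p.1 x)) * (p.2 z - so o p * Real.exp (p.1 z))

lemma exp_so (o : V) (p : Pt V) : so o p * Real.exp (p.1 o) = p.2 o := by
  unfold so
  rw [mul_assoc, ← Real.exp_add]
  simp

/-- The direction of the dilation about the value at `o`. -/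
noncomputable def dV (g : V → ℝ) (o : V) (p : Pt V) : Pt V :=
  (g, fun x => so o p * (g x * Real.exp (p.1 x)))

@[simp] lemma dV_fst (g : V → ℝ) (o : V) (p : Pt V) (x : V) : (dV g o p).1 x = g x := rfl
@[simp] lemma dV_snd (g : V → ℝ) (o : V) (p : Pt V) (x : V) :
    (dV g o p).2 x = so o p * (g x * Real.exp (p.1 x)) := rfl

lemma Dv.so' (o : V) (p v : Pt V) :
    Dv (so o) p v (v.2 o * Real.exp (- p.1 o) + p.2 o * (-(Real.exp (- p.1 o) * v.1 o))) := by
  unfold AG.so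
  exact (Dv.y o p v).mul (Dv.exp_neg o p v)

lemma Dv.so_dV (g : V → ℝ) (o : V) (p : Pt V) : Dv (so o) p (dV g o p) 0 := by
  refine (Dv.so' o p _).congr ?_
  simp only [dV_fst, dV_snd]
  unfold AG.so
  have h : Real.exp (p.1 o) * Real.exp (- p.1 o) = 1 := by rw [← Real.exp_add]; simp
  linear_combination (p.2 o * Real.exp (- p.1 o) * g o) * h

lemma Dv.so_dN (g : V → ℝ) (o : V) (p : Pt V) : Dv (so o) p (dN g p) (g o) := by
  refine (Dv.so' o p _).congr ?_
  simp only [dN_fst, dN_snd]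
  have h : Real.exp (p.1 o) * Real.exp (- p.1 o) = 1 := by rw [← Real.exp_add]; simp
  linear_combination (g o) * h

/-- The derivative of `XX` in the direction of the dilation about the value at `o`. -/
lemma Dv.XX (N : Net V) (m g : V → ℝ) (hr : ∀ x, g x ≠ 0 → N.r x = 0) (o : V) (p : Pt V) :
    Dv (XX N m g o) p (dV g o p)
      ((1 / 2) * ∑ x, ∑ z, N.B x z * ((g x - g z) ^ 2 * qd o p x z)) := by
  have hr' : ∀ x, g x * N.r x = 0 := fun x => by
    by_cases h : g x = 0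
    · rw [h, zero_mul]
    · rw [hr x h, mul_zero]
  unfold AG.XX
  refine ((Dv.sA N m g p (dV g o p)).add ((Dv.so_dV g o p).mul (Dv.sN N g p (dV g o p)))).congr ?_
  simp only [dV_fst, dV_snd, zero_mul, zero_add]
  rw [Finset.mul_sum, ← Finset.sum_add_distrib]
  have e1 : ∀ x, (g x * (∑ z, N.B x z * ((1 / 2) * ((Real.exp (p.1 x - p.1 z) * (g x - g z)) *
      (1 + p.2 z ^ 2) + Real.exp (p.1 x - p.1 z) * (2 * p.2 z *
        (AG.so o p * (g z * Real.exp (p.1 z)))) -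
      ((Real.exp (p.1 z - p.1 x) * (g z - g x)) * (1 + p.2 x ^ 2) +
      Real.exp (p.1 z - p.1 x) * (2 * p.2 x * (AG.so o p * (g x * Real.exp (p.1 x))))))) +
    N.r x * ((1 / 2) * (Real.exp (p.1 x) * g x - (-(Real.exp (- p.1 x) * g x) * (1 + p.2 x ^ 2) +
      Real.exp (- p.1 x) * (2 * p.2 x * (AG.so o p * (g x * Real.exp (p.1 x)))))))) +
    AG.so o p * (g x * (∑ w, N.B x w * (AG.so o p * (g x * Real.exp (p.1 x)) * Real.exp (p.1 w) +
      p.2 x * (Real.exp (p.1 w) * g w) -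
      (AG.so o p * (g w * Real.exp (p.1 w)) * Real.exp (p.1 x) + p.2 w * (Real.exp (p.1 x) * g x))) +
      N.r x * (AG.so o p * (g x * Real.exp (p.1 x)))))) =
      ∑ z, N.B x z * (g x * ((1 / 2) * ((Real.exp (p.1 x - p.1 z) * (g x - g z)) *
      (1 + p.2 z ^ 2) + Real.exp (p.1 x - p.1 z) * (2 * p.2 z *
        (AG.so o p * (g z * Real.exp (p.1 z)))) -
      ((Real.exp (p.1 z - p.1 x) * (g z - g x)) * (1 + p.2 x ^ 2) +
      Real.exp (p.1 z - p.1 x) * (2 * p.2 x * (AG.so o p * (g x * Real.exp (p.1 x))))))) +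
      AG.so o p * (g x * (AG.so o p * (g x * Real.exp (p.1 x)) * Real.exp (p.1 z) +
      p.2 x * (Real.exp (p.1 z) * g z) -
      (AG.so o p * (g z * Real.exp (p.1 z)) * Real.exp (p.1 x) +
        p.2 z * (Real.exp (p.1 x) * g x))))) := by
    intro x
    have h1 := hr' x
    have h2 : g x * (N.r x * ((1 / 2) * (Real.exp (p.1 x) * g x -
        (-(Real.exp (- p.1 x) * g x) * (1 + p.2 x ^ 2) +
        Real.exp (- p.1 x) * (2 * p.2 x * (AG.so o p * (g x * Real.exp (p.1 x)))))))) = 0 := by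
      rw [← mul_assoc, h1, zero_mul]
    have h3 : g x * (N.r x * (AG.so o p * (g x * Real.exp (p.1 x)))) = 0 := by
      rw [← mul_assoc, h1, zero_mul]
    rw [mul_add, mul_add (g x) (∑ w, _) _, h2, h3, add_zero, add_zero, Finset.mul_sum,
      Finset.mul_sum, Finset.mul_sum, ← Finset.sum_add_distrib]
    refine Finset.sum_congr rfl fun z _ => ?_
    ring
  rw [Finset.sum_congr rfl fun x _ => e1 x]
  rw [sum_symm]
  congr 1
  refine Finset.sum_congr rfl fun x _ => Finset.sum_congr rfl fun z _ => ?_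
  congr 1
  unfold AG.qd AG.ed
  have a1 : Real.exp (p.1 x - p.1 z) * Real.exp (p.1 z) = Real.exp (p.1 x) := by
    rw [← Real.exp_add]; ring_nf
  have a2 : Real.exp (p.1 z - p.1 x) * Real.exp (p.1 x) = Real.exp (p.1 z) := by
    rw [← Real.exp_add]; ring_nf
  linear_combination (p.2 z * AG.so o p * g z * (g x - g z)) * a1 +
    (p.2 x * AG.so o p * g x * (g z - g x)) * a2

end Pool.Agent.TH369.AG
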