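import Mathlib

/-!
# Definitions for the mass gap of the two-dimensional arboreal gas (MP_a51497_pr)

A network is a finite set of vertices `V` together with a root (not an element of `V`), symmetric
weights `B` between the vertices and weights `r` to the root.
-/

set_option autoImplicit false

namespace Pool.Agent.TH369.AG

open MeasureTheory Matrix

/-- A finite network with a root: `B x z` are the weights of the edges between vertices, `r x` the
weights of the edges to the root. -/
structure Net (V : Type) where
  B : V → V → ℝ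
  r : V → ℝ
  symm : ∀ x z, B x z = B z x
  diag : ∀ x, B x x = 0
  nn : ∀ x z, 0 ≤ B x z
  rn : ∀ x, 0 ≤ r x

/-- The vertices which are connected to the root by edges of positive weight. -/
inductive Net.Reach {V : Type} (N : Net V) : V → Prop
  | root {x : V} (h : 0 < N.r x) : N.Reach x
  | step {x z : V} (hx : N.Reach x) (h : 0 < N.B x z) : N.Reach z

/-- The network is connected. -/
def Net.Conn {V : Type} (N : Net V) : Prop := ∀ x, N.Reach x

variable {V : Type} [Fintype V] [DecidableEq V]

/-- The matrix `diag a - B`. -/
noncomputable def HM (N : Net V) (a : V → ℝ) : Matrix V V ℝ :=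
  Matrix.diagonal a - Matrix.of N.B

/-- The diagonal field belonging to `t`: with `ψ = exp t`, `HM N (cf N t) *ᵥ ψ = r`. -/
noncomputable def cf (N : Net V) (t : V → ℝ) (x : V) : ℝ :=
  N.r x * Real.exp (- t x) + ∑ z, N.B x z * Real.exp (t z - t x)

/-- The energy of the field `t` alone. -/
noncomputable def En0 (N : Net V) (t : V → ℝ) : ℝ :=
  (1 / 2) * ∑ x, ∑ z, N.B x z * (Real.cosh (t x - t z) - 1) +
    ∑ x, N.r x * (Real.cosh (t x) - 1)

/-- The energy of an edge. -/
noncomputable def ed (t y : V → ℝ) (x z : V) : ℝ :=
  (1 / 2) * (Real.exp (t x - t z) * (1 + y z ^ 2) + Real.exp (t z - t x) * (1 + y x ^ 2))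
    - y x * y z - 1

/-- The energy of an edge to the root. -/
noncomputable def er (t y : V → ℝ) (x : V) : ℝ :=
  (1 / 2) * (Real.exp (t x) + Real.exp (- t x) * (1 + y x ^ 2)) - 1

/-- The energy of the pair of fields `(t, y)`. -/
noncomputable def En (N : Net V) (t y : V → ℝ) : ℝ :=
  (1 / 2) * ∑ x, ∑ z, N.B x z * ed t y x z + ∑ x, N.r x * er t y x

/-- The weight in the variables `a`. -/
noncomputable def wA (N : Net V) (a : V → ℝ) : ℝ :=
  Real.sqrt (HM N a).det *
    Real.exp (-(1 / 2) * (∑ x, ∑ z, HM N a x z) - (1 / 2) * (N.r ⬝ᵥ (HM N a)⁻¹ *ᵥ N.r) + ∑ x, N.r x)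

/-- The integral over the diagonal fields `a` for which `HM N a` is positive definite. -/
noncomputable def IA (N : Net V) (Φ : (V → ℝ) → ENNReal) : ENNReal :=
  ∫⁻ a in {a : V → ℝ | (HM N a).PosDef}, ENNReal.ofReal (wA N a) * Φ a

/-- The vertex `p` is merged with the root; `p` remains as an isolated vertex. -/
noncomputable def Net.mg (N : Net V) (p : V) : Net V where
  B := fun x z => if x = p ∨ z = p then 0 else N.B x z
  r := fun x => if x = p then 0 else N.r x + N.B x p
  symm := fun x z => by
    by_cases h1 : x = p <;> by_cases h2 : z = p <;> simp [h1, h2, N.symm x z]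
  diag := fun x => by simp [N.diag]
  nn := fun x z => by split_ifs <;> simp [N.nn]
  rn := fun x => by
    split_ifs
    · exact le_rfl
    · exact add_nonneg (N.rn x) (N.nn x p)

end Pool.Agent.TH369.AG
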