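import Pool.Agent.TH369.AG.Defs

/-!
# Definitions for the analytic part: configurations, growth classes, scores; and forest sums
-/

set_option autoImplicit false

namespace Pool.Agent.TH369.AG

open MeasureTheory Matrix

section fields

variable {V : Type} [Fintype V] [DecidableEq V]

/-- The size of a configuration `(t, y)`. -/
noncomputable def MM (p : (V → ℝ) × (V → ℝ)) : ℝ :=
  1 + ∑ x, (Real.exp (p.1 x) + Real.exp (- p.1 x) + p.2 x ^ 2)

/-- The density with the linear term `m`. -/
noncomputable def dn (N : Net V) (m : V → ℝ) (p : (V → ℝ) × (V → ℝ)) : ℝ :=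
  Real.exp (- En N p.1 p.2 + ∑ x, m x * p.1 x)

/-- The integral against the density. -/
noncomputable def EE (N : Net V) (m : V → ℝ) (F : (V → ℝ) × (V → ℝ) → ℝ) : ℝ :=
  ∫ p, F p * dn N m p

/-- Polynomial growth. -/
def Gr (F : (V → ℝ) × (V → ℝ) → ℝ) : Prop :=
  ∃ K : ℕ, ∀ p, |F p| ≤ K * MM p ^ K

/-- Continuously differentiable with polynomial growth of the function and of its derivative. -/
def Sm (F : (V → ℝ) × (V → ℝ) → ℝ) : Prop :=
  ContDiff ℝ 1 F ∧ ∃ K : ℕ, ∀ p, |F p| + ‖fderiv ℝ F p‖ ≤ K * MM p ^ K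

/-- The score of the field `∑ x, g x * ∂/∂(t x)`. -/
noncomputable def sA (N : Net V) (m : V → ℝ) (g : V → ℝ) (p : (V → ℝ) × (V → ℝ)) : ℝ :=
  ∑ x, g x * (∑ z, N.B x z * ((1 / 2) * (Real.exp (p.1 x - p.1 z) * (1 + p.2 z ^ 2) -
    Real.exp (p.1 z - p.1 x) * (1 + p.2 x ^ 2))) +
    N.r x * ((1 / 2) * (Real.exp (p.1 x) - Real.exp (- p.1 x) * (1 + p.2 x ^ 2))) - m x)

/-- The score of the field `∑ x, g x * exp (t x) * ∂/∂(y x)`. -/
noncomputable def sN (N : Net V) (g : V → ℝ) (p : (V → ℝ) × (V → ℝ)) : ℝ :=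
  ∑ x, g x * (∑ z, N.B x z * (p.2 x * Real.exp (p.1 z) - p.2 z * Real.exp (p.1 x)) +
    N.r x * p.2 x)

end fields

section forests

variable {X E : Type} [Fintype X] [DecidableEq X] [Fintype E] [DecidableEq E]

/-- The incidence vector of an edge of the multigraph with end points `s e`, `t e`. -/
def vec (s t : E → X) (e : E) : X → ℝ := Pi.single (s e) 1 - Pi.single (t e) 1

/-- A set of edges is a forest if the incidence vectors are linearly independent. -/
def IsF (s t : E → X) (A : Finset E) : Prop := LinearIndepOn ℝ (vec s t) (A : Set E)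

/-- Two vertices are connected by `A`. -/
def Cn (s t : E → X) (A : Finset E) (x y : X) : Prop :=
  (Pi.single x 1 - Pi.single y 1 : X → ℝ) ∈ Submodule.span ℝ (vec s t '' (A : Set E))

open Classical in
/-- The sum of the weights of all forests in `S` with the property `P`. -/
noncomputable def FS (s t : E → X) (w : E → ℝ) (S : Finset E) (P : Finset E → Prop) : ℝ :=
  ∑ A ∈ S.powerset with (IsF s t A ∧ P A), ∏ e ∈ A, w e

/-- Merge the vertex `u` into the vertex `v`. -/
def cl (u v : X) (x : X) : X := if x = u then v else x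

open Classical in
/-- The total weight of the edges in `S` between two vertices. -/
noncomputable def wt (s t : E → X) (w : E → ℝ) (S : Finset E) (x y : X) : ℝ :=
  ∑ e ∈ S with ((s e = x ∧ t e = y) ∨ (s e = y ∧ t e = x)), w e

end forests

end Pool.Agent.TH369.AG
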