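import Pool.Agent.TH369.AG.Defs2

/-!
# The network of a multigraph, cut-off functions on the square lattice
-/

set_option autoImplicit false

namespace Pool.Agent.TH369.AG

section netof

variable {V E : Type} [Fintype V] [DecidableEq V] [Fintype E] [DecidableEq E]

theorem wt_comm (s t : E → Option V) (w : E → ℝ) (S : Finset E) (x y : Option V) :
    wt s t w S x y = wt s t w S y x := by
  unfold wt
  congr 1
  ext e
  simp only [Finset.mem_filter]
  tauto

theorem wt_nonneg (s t : E → Option V) (w : E → ℝ) (hw : ∀ e, 0 ≤ w e) (S : Finset E)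
    (x y : Option V) : 0 ≤ wt s t w S x y :=
  Finset.sum_nonneg fun e _ => hw e

/-- The network of a multigraph on `Option V` with root `none`. -/
noncomputable def netOf (s t : E → Option V) (w : E → ℝ) (hw : ∀ e, 0 ≤ w e) (S : Finset E) :
    Net V where
  B := fun x z => if x = z then 0 else wt s t w S (some x) (some z)
  r := fun x => wt s t w S (some x) none
  symm := fun x z => by
    rcases eq_or_ne x z with rfl | h
    · rfl
    · simp only [h, h.symm, if_false]
      exact wt_comm _ _ _ _ _ _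
  diag := fun x => by simp
  nn := fun x z => by
    split_ifs
    · exact le_rfl
    · exact wt_nonneg _ _ _ hw _ _ _
  rn := fun x => wt_nonneg _ _ _ hw _ _ _

end netof

section lattice

/-- The sup norm on `ℤ²`. -/
def nrm (x : ℤ × ℤ) : ℤ := max |x.1| |x.2|

/-- Nearest neighbours. -/
def adj (x z : ℤ × ℤ) : Prop := |x.1 - z.1| + |x.2 - z.2| = 1

instance (x z : ℤ × ℤ) : Decidable (adj x z) := by unfold adj; infer_instance

noncomputable def tent (l : ℕ) (u : ℤ) : ℝ := max 0 (1 - |(u : ℝ)| / l)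

noncomputable def plat (l : ℕ) (u : ℤ) : ℝ := max 0 (min 1 (3 - |(u : ℝ)| / l))

/-- Partition of unity at scale `l`. -/
noncomputable def gg (l : ℕ) (a x : ℤ × ℤ) : ℝ := tent l (x.1 - l * a.1) * tent l (x.2 - l * a.2)

/-- Wider plateau functions. -/
noncomputable def gp (l : ℕ) (a x : ℤ × ℤ) : ℝ := plat l (x.1 - l * a.1) * plat l (x.2 - l * a.2)

/-- The macroscopic cut-off. -/
noncomputable def ff (R : ℕ) (x : ℤ × ℤ) : ℝ := max 0 (min 1 (2 - 4 * (nrm x : ℝ) / R))

/-- The centre of the cell `a`. -/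
def ctr (l : ℕ) (a : ℤ × ℤ) : ℤ × ℤ := (l * a.1, l * a.2)

noncomputable def hh (R l : ℕ) (a x : ℤ × ℤ) : ℝ := gg l a x * (ff R x - ff R (ctr l a))

noncomputable def hp (R l : ℕ) (a x : ℤ × ℤ) : ℝ := gp l a x * (ff R x - ff R (ctr l a))

/-- The indices of the cells. -/
noncomputable def AA (R l : ℕ) : Finset (ℤ × ℤ) :=
  Finset.Icc (-((R / (2 * l) + 3 : ℕ) : ℤ)) (R / (2 * l) + 3 : ℕ) ×ˢ
    Finset.Icc (-((R / (2 * l) + 3 : ℕ) : ℤ)) (R / (2 * l) + 3 : ℕ)

/-- The antisymmetric kernel at scale `l`. -/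
noncomputable def kk (R l : ℕ) (x z : ℤ × ℤ) : ℝ :=
  (1 / 2) * ∑ a ∈ AA R l, (gg l a x * gp l a z + gp l a x * gg l a z) * (ff R z - ff R x)

end lattice

end Pool.Agent.TH369.AG
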