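import Pool.Agent.TH369.AG.Cell
import Pool.Agent.TH369.AG.Defs3

/-!
# Kernels, embedded boxes, total functional
-/

set_option autoImplicit false
set_option linter.unusedSectionVars false

namespace Pool.Agent.TH369.AG

open MeasureTheory Matrix

variable {V : Type} [Fintype V] [DecidableEq V]

/-- The bilinear combination of scores with kernel `k`. -/
noncomputable def UU (N : Net V) (m : V → ℝ) (k : V → V → ℝ) (p : Pt V) : ℝ :=
  ∑ x, ∑ z, k x z * (fa N m x p * fb N z p)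

/-- The current with kernel `k`. -/
noncomputable def JJ (N : Net V) (k : V → V → ℝ) (p : Pt V) : ℝ :=
  ∑ x, ∑ z, k x z * (N.B x z * (p.2 z * Real.exp (p.1 x)))

/-- Closed neighbourhood. -/
def Nb (N : Net V) (x w : V) : Prop := x = w ∨ N.B x w ≠ 0

/-- The vertices all of whose closed neighbourhood lies where `g₀ = 1`. -/
def Deep (N : Net V) (g₀ : V → ℝ) (v : V) : Prop :=
  N.r v = 0 ∧ g₀ v = 1 ∧ ∀ w, N.B v w ≠ 0 → g₀ w = 1

/-- The kernel of `br g₀ f`. -/
def k0 (g₀ f : V → ℝ) (x z : V) : ℝ := g₀ x * f z - f x * g₀ z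

/-- The hypotheses on a family of kernels which make the centred fields orthogonal. -/
structure Fam (N : Net V) (g₀ f : V → ℝ) {ι : Type} [LinearOrder ι] (k : ι → V → V → ℝ) : Prop where
  deep_f : ∀ v, f v ≠ 0 → Deep N g₀ v
  anti : ∀ i x z, k i x z = - k i z x
  deep_k : ∀ i x z, k i x z ≠ 0 → Deep N g₀ x ∧ Deep N g₀ z
  far : ∀ i x z, k i x z ≠ k0 g₀ f x z → ∀ w, ¬ (Nb N x w ∧ Nb N z w)
  far' : ∀ i j x z x' z', j < i → k i x z ≠ k0 g₀ f x z → k j x' z' ≠ 0 →
    ¬ ((Nb N x x' ∨ Nb N x z') ∧ (Nb N z x' ∨ Nb N z z'))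

/-- A box of radius `R` of the square lattice is embedded in the network, with weights `β`. -/
structure Emb (N : Net V) (β : ℝ) (R : ℕ) (ι : ℤ × ℤ → V) : Prop where
  inj : ∀ x z, nrm x < R → nrm z < R → ι x = ι z → x = z
  root : ∀ x, nrm x + 1 < R → N.r (ι x) = 0
  eadj : ∀ x z, nrm x + 1 < R → adj x z → N.B (ι x) (ι z) = β
  enadj : ∀ x v, nrm x + 1 < R → N.B (ι x) v ≠ 0 → ∃ z, adj x z ∧ ι z = v

open Classical in
/-- Transport of a function on the lattice to the network. -/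
noncomputable def tr (R : ℕ) (ι : ℤ × ℤ → V) (F : ℤ × ℤ → ℝ) (v : V) : ℝ :=
  if h : ∃ x, nrm x < R ∧ ι x = v then F h.choose else 0

/-- The finite box. -/
noncomputable def bx (c : ℤ × ℤ) (r : ℕ) : Finset (ℤ × ℤ) :=
  Finset.Icc (c.1 - r) (c.1 + r) ×ˢ Finset.Icc (c.2 - r) (c.2 + r)

/-- The total integral with the determinant. -/
noncomputable def Tot (N : Net V) (Φ : Pt V → ℝ) : ℝ :=
  ∫ p, Φ p * (Real.exp (- En N p.1 p.2) * (HM N (cf N p.1)).det ^ 2)

end Pool.Agent.TH369.AG
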