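import Pool.Agent.TH369.AG.Defs4

/-!
# Boxes in multigraphs, cells, connection probabilities
-/

set_option autoImplicit false
set_option linter.unusedSectionVars false

namespace Pool.Agent.TH369.AG

/-- The cell `a` at scale `l`. -/
noncomputable def Kc {V : Type} [DecidableEq V] (ι : ℤ × ℤ → V) (l : ℕ) (a : ℤ × ℤ) : Finset V :=
  (bx (ctr l a) (4 * l)).image ι

section graphs

variable {X E : Type} [Fintype X] [DecidableEq X] [Fintype E] [DecidableEq E]

/-- The probability that `x` and `y` are connected, for the forests with edges in `S`. -/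
noncomputable def PG (s t : E → X) (w : E → ℝ) (S : Finset E) (x y : X) : ℝ :=
  FS s t w S (fun A => Cn s t A x y) / FS s t w S (fun _ => True)

/-- A box of the square lattice is embedded in the multigraph (interior points have exactly their
four lattice neighbours as neighbours). -/
structure EmbG (s t : E → X) (w : E → ℝ) (S : Finset E) (β : ℝ) (R : ℕ) (ι : ℤ × ℤ → X) : Prop where
  inj : ∀ x z, nrm x < R → nrm z < R → ι x = ι z → x = z
  eadj : ∀ x z, nrm x + 1 < R → adj x z → wt s t w S (ι x) (ι z) = β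
  enadj : ∀ x v, nrm x + 1 < R → v ≠ ι x → wt s t w S (ι x) v ≠ 0 → ∃ z, adj x z ∧ ι z = v

/-- `Sin` is the set of the nearest neighbour edges of the box of radius `r`, with end points
`es e`, `et e`. -/
structure BoxS (es et : E → ℤ × ℤ) (Sin : Finset E) (r : ℕ) : Prop where
  mem : ∀ e ∈ Sin, nrm (es e) ≤ r ∧ nrm (et e) ≤ r ∧ adj (es e) (et e)
  ex : ∀ x z, nrm x ≤ r → nrm z ≤ r → adj x z →
    ∃ e ∈ Sin, (es e = x ∧ et e = z) ∨ (es e = z ∧ et e = x)
  uniq : ∀ e ∈ Sin, ∀ e' ∈ Sin, ((es e = es e' ∧ et e = et e') ∨ (es e = et e' ∧ et e = es e')) →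
    e = e'

/-- A multigraph which contains the box of radius `r`: `Sin` are the edges of the box, `Sout` the
other edges, the interior points of the box are different from all other points and are not end
points of edges in `Sout`. -/
structure BoxG (es et : E → ℤ × ℤ) (s t : E → X) (Sin Sout : Finset E) (r : ℕ) (ι : ℤ × ℤ → X) :
    Prop where
  box : BoxS es et Sin r
  dis : Disjoint Sin Sout
  s_eq : ∀ e ∈ Sin, s e = ι (es e)
  t_eq : ∀ e ∈ Sin, t e = ι (et e)
  inj : ∀ x z, nrm x < r → nrm z ≤ r → ι x = ι z → x = z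
  out : ∀ e ∈ Sout, ∀ x, nrm x < r → s e ≠ ι x ∧ t e ≠ ι x

end graphs

/-- The boundary of the box. -/
noncomputable def bd (r : ℕ) : Finset (ℤ × ℤ) := (bx 0 r).filter fun x => nrm x = r

end Pool.Agent.TH369.AG
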