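import Pool.Agent.TH369.AG.Defs5

/-!
# Transported kernels, the torus
-/

set_option autoImplicit false
set_option linter.unusedSectionVars false

namespace Pool.Agent.TH369.AG

/-- The dependence of the constants on `β`. -/
noncomputable def DD (β : ℝ) : ℝ := 1 + β ^ 2

theorem one_le_DD (β : ℝ) : 1 ≤ DD β := by
  unfold DD
  nlinarith [sq_nonneg β]

/-- Transport of a kernel on the lattice to the network. -/
noncomputable def tk {V : Type} (R : ℕ) (ι : ℤ × ℤ → V) (k : ℤ × ℤ → ℤ × ℤ → ℝ) (v w : V) : ℝ :=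
  tr R ι (fun x => tr R ι (fun z => k x z) w) v

/-- The square lattice on the torus. -/
def torus (L : ℕ) : SimpleGraph (ZMod L × ZMod L) where
  Adj x y := x ≠ y ∧ ((x.1 = y.1 ∧ (x.2 = y.2 + 1 ∨ y.2 = x.2 + 1)) ∨
    (x.2 = y.2 ∧ (x.1 = y.1 + 1 ∨ y.1 = x.1 + 1)))
  symm := ⟨fun x y h => ⟨h.1.symm, by
    rcases h.2 with ⟨h1, h2⟩ | ⟨h1, h2⟩
    · exact Or.inl ⟨h1.symm, h2.symm⟩
    · exact Or.inr ⟨h1.symm, h2.symm⟩⟩⟩
  loopless := ⟨fun x h => h.1 rfl⟩

/-- The distance in the sup norm on the torus. -/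
def dinf (L : ℕ) (x y : ZMod L × ZMod L) : ℕ :=
  max (x.1 - y.1).valMinAbs.natAbs (x.2 - y.2).valMinAbs.natAbs

/-- The translate by an element of the lattice. -/
def shf (L : ℕ) (c : ZMod L × ZMod L) (x : ℤ × ℤ) : ZMod L × ZMod L :=
  (c.1 + (x.1 : ZMod L), c.2 + (x.2 : ZMod L))

end Pool.Agent.TH369.AG
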