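import Pool.Agent.TH369.AG.Defs4

/-!
# The fourth moment of the dilation score in a cell
-/

set_option autoImplicit false
set_option linter.unusedSectionVars false

namespace Pool.Agent.TH369.AG

open MeasureTheory Matrix

variable {V : Type} [Fintype V] [DecidableEq V]

namespace K1a

lemma int_dA (N : Net V) (hN : N.Conn) (m g : V → ℝ) {F : Pt V → ℝ} (hF : Sm F) :
    Integrable (fun p => fderiv ℝ F p (dA g) * dn N m p) :=
  integrable_dn N hN m _ ((hF.1.continuous_fderiv one_ne_zero).clm_apply continuous_const)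
    (J6.sm_gr_deriv hF (J6.grConst _))

lemma int_dN (N : Net V) (hN : N.Conn) (m g : V → ℝ) {F G : Pt V → ℝ} (hF : Sm F) (hG : Sm G) :
    Integrable (fun p => (G p * fderiv ℝ F p (dN g p)) * dn N m p) := by
  have hGw : Gr (fun p : Pt V => ‖dN g p‖) := by
    have h1 : Gr (fun p : (V → ℝ) × (V → ℝ) => ∑ x, |g x| * Real.exp (p.1 x)) :=
      J6.grSum _ fun x => J6.grMul (J6.grConst _) (J6.gr_exp x)
    obtain ⟨K, hK⟩ := h1
    refine ⟨K, fun p => le_trans ?_ (hK p)⟩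
    have h0 : 0 ≤ ∑ x, |g x| * Real.exp (p.1 x) := Finset.sum_nonneg fun x _ => by positivity
    rw [abs_norm, abs_of_nonneg h0, dN, Prod.norm_mk, norm_zero]
    refine max_le h0 ((pi_norm_le_iff_of_nonneg h0).2 fun x => ?_)
    rw [norm_mul, Real.norm_eq_abs, Real.norm_eq_abs, abs_of_pos (Real.exp_pos _)]
    exact Finset.single_le_sum (f := fun x => |g x| * Real.exp (p.1 x))
      (fun x _ => by positivity) (Finset.mem_univ x)
  have hc : Continuous (fun p : Pt V => dN g p) := by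
    unfold dN
    fun_prop
  exact integrable_dn N hN m _
    (hG.cont.mul ((hF.1.continuous_fderiv one_ne_zero).clm_apply hc))
    (J6.grMul hG.gr (J6.sm_gr_deriv hF hGw))

/-- Integration by parts in the direction of the dilation about the value at `o`. -/
lemma ibV (N : Net V) (hN : N.Conn) (m g : V → ℝ) (o : V) {F F' : Pt V → ℝ} (hF : Sm F)
    (hd : ∀ p, Dv F p (dV g o p) (F' p)) :
    EE N m (fun p => XX N m g o p * F p) = EE N m (fun p => F' p + g o * F p) := by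
  have h1 := ibA N hN m g hF (F' := fun p => fderiv ℝ F p (dA g)) fun p => hF.dv p _
  have h2 := ibN N hN m g (F := fun p => so o p * F p)
    (F' := fun p => g o * F p + so o p * fderiv ℝ F p (dN g p)) ((Sm.so o).mul hF)
    fun p => (Dv.so_dN g o p).mul (hF.dv p _)
  have e1 : (fun p => XX N m g o p * F p) =
      fun p => sA N m g p * F p + sN N g p * (so o p * F p) := by
    funext p
    unfold XX
    ring
  rw [e1, EE_add N hN m ((Sm.sA N m g).mul hF) ((Sm.sN N g).mul ((Sm.so o).mul hF)), h1, h2]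
  unfold EE
  rw [← integral_add (int_dA N hN m g hF) ?_]
  · refine integral_congr_ae (Filter.Eventually.of_forall fun p => ?_)
    have h3 : F' p = fderiv ℝ F p (dA g) + so o p * fderiv ℝ F p (dN g p) := by
      rw [← (hd p).fderiv, show dV g o p = dA g + so o p • dN g p from ?_, map_add, map_smul,
        smul_eq_mul]
      refine Prod.ext ?_ ?_
      · funext x
        simp [dV, dA, dN]
      · funext x
        simp [dV, dA, dN]
    show fderiv ℝ F p (dA g) * dn N m p + (g o * F p + so o p * fderiv ℝ F p (dN g p)) * dn N m p =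
      (F' p + g o * F p) * dn N m p
    rw [h3]
    ring
  · have i1 := int_sm N hN m (hF.const_mul (g o))
    have i2 := int_dN N hN m g hF (Sm.so o)
    refine (i1.add i2).congr (Filter.Eventually.of_forall fun p => ?_)
    show g o * F p * dn N m p + so o p * fderiv ℝ F p (dN g p) * dn N m p =
      (g o * F p + so o p * fderiv ℝ F p (dN g p)) * dn N m p
    ring

lemma Sm.qd (o x z : V) : Sm (fun p : Pt V => qd o p x z) := by
  unfold AG.qd
  refine ((Sm.ed x z).add (Sm.const 1)).add (Sm.mul ?_ ?_)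
  · exact (Sm.y x).sub ((Sm.so o).mul (Sm.exp x))
  · exact (Sm.y z).sub ((Sm.so o).mul (Sm.exp z))

/-- the derivative of `XX` -/
noncomputable def QQ (N : Net V) (g : V → ℝ) (o : V) (p : Pt V) : ℝ :=
  (1 / 2) * ∑ x, ∑ z, N.B x z * ((g x - g z) ^ 2 * qd o p x z)

lemma Sm.QQ (N : Net V) (g : V → ℝ) (o : V) : Sm (QQ N g o) := by
  unfold K1a.QQ
  exact (Sm.sum _ fun x _ => Sm.sum _ fun z _ => ((Sm.qd o x z).const_mul _).const_mul _).const_mul _

lemma Dv.Wd (g : V → ℝ) (o x : V) (p : Pt V) :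
    Dv (Wd x o) p (dV g o p) (2 * g o * Wd x o p) := by
  unfold AG.Wd
  refine ((((Dv.y x p (dV g o p)).mul (Dv.exp o p _)).sub
    ((Dv.y o p _).mul (Dv.exp x p _))).pow 1).congr ?_
  simp only [dV_fst, dV_snd]
  have h := exp_so o p
  push_cast
  rw [← h]
  ring

lemma Dv.Wo (K : Finset V) (g : V → ℝ) (o : V) (p : Pt V) :
    Dv (Wo K o) p (dV g o p) (2 * g o * Wo K o p) := by
  unfold AG.Wo
  refine ((Dv.sum K fun x _ => Dv.Wd g o x p).const_mul _).congr ?_
  rw [← Finset.mul_sum]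
  ring

lemma Dv.th (K : Finset V) (g : V → ℝ) (o : V) (p : Pt V) :
    Dv (th K o) p (dV g o p) (2 * g o * th K o p) := by
  unfold AG.th
  have h0 : Real.exp (p.1 o) ^ 2 + AG.Wo K o p ≠ 0 := by
    have := Wo_nonneg K o p
    positivity
  refine (((Dv.exp o p (dV g o p)).pow 3).mul
    (Dv.inv (((Dv.exp o p (dV g o p)).pow 1).add (Dv.Wo K g o p)) h0)).congr ?_
  simp only [dV_fst]
  push_cast
  field_simp
  ring

lemma qd_le (o : V) (p : Pt V) (x z : V) :
    qd o p x z ≤ ed p.1 p.2 x z + 1 + (1 / 2) * ((p.2 x - so o p * Real.exp (p.1 x)) ^ 2 +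
      (p.2 z - so o p * Real.exp (p.1 z)) ^ 2) := by
  unfold qd
  nlinarith [sq_nonneg ((p.2 x - so o p * Real.exp (p.1 x)) - (p.2 z - so o p * Real.exp (p.1 z)))]

lemma qd_nonneg (o : V) (p : Pt V) (x z : V) : 0 ≤ qd o p x z := by
  have e : qd o p x z = (1 / 2) * (Real.exp (p.1 x - p.1 z) *
      (1 + (p.2 z - so o p * Real.exp (p.1 z)) ^ 2) +
      Real.exp (p.1 z - p.1 x) * (1 + (p.2 x - so o p * Real.exp (p.1 x)) ^ 2)) := by
    unfold qd ed
    have a1 : Real.exp (p.1 x - p.1 z) * Real.exp (p.1 z) = Real.exp (p.1 x) := by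
      rw [← Real.exp_add]; ring_nf
    have a2 : Real.exp (p.1 z - p.1 x) * Real.exp (p.1 x) = Real.exp (p.1 z) := by
      rw [← Real.exp_add]; ring_nf
    linear_combination (p.2 z * so o p - (1 / 2) * so o p ^ 2 * Real.exp (p.1 z)) * a1 +
      (p.2 x * so o p - (1 / 2) * so o p ^ 2 * Real.exp (p.1 x)) * a2
  rw [e]
  positivity

lemma yt_sq (o : V) (p : Pt V) (x : V) :
    (p.2 x - so o p * Real.exp (p.1 x)) ^ 2 = Wd x o p * (Real.exp (p.1 o) ^ 2)⁻¹ := by
  unfold Wd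
  have h := exp_so o p
  have h0 : Real.exp (p.1 o) ≠ 0 := (Real.exp_pos _).ne'
  rw [← h]
  field_simp

lemma QQ_nonneg (N : Net V) (g : V → ℝ) (o : V) (p : Pt V) : 0 ≤ QQ N g o p :=
  mul_nonneg (by norm_num) (Finset.sum_nonneg fun x _ => Finset.sum_nonneg fun z _ =>
    mul_nonneg (N.nn x z) (mul_nonneg (sq_nonneg _) (qd_nonneg o p x z)))

/-- a sum over pairs of neighbours with different values of `g` is a sum over the cell -/
lemma sum_cell {N : Net V} {K : Finset V} {δ : ℝ} {g : V → ℝ} (hg : Cut N K δ g)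
    (F : V → V → ℝ) (hF : ∀ x z, 0 ≤ F x z) :
    ∑ x, ∑ z, N.B x z * ((g x - g z) ^ 2 * F x z) ≤
      ∑ x ∈ K, ∑ z ∈ K, N.B x z * (δ ^ 2 * F x z) := by
  have h1 : ∀ x z, (x ∉ K ∨ z ∉ K) → N.B x z * ((g x - g z) ^ 2 * F x z) = 0 := by
    intro x z h
    by_cases hB : N.B x z = 0
    · rw [hB, zero_mul]
    have hx : g x = 0 := by
      by_contra hx
      obtain ⟨h1, -, h2⟩ := hg.supp x hx
      rcases h with h | h
      · exact h h1
      · exact h (h2 z hB)
    have hz : g z = 0 := by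
      by_contra hz
      obtain ⟨h1, -, h2⟩ := hg.supp z hz
      rcases h with h | h
      · exact h (h2 x (by rwa [N.symm z x]))
      · exact h h1
    rw [hx, hz]
    ring
  rw [← Finset.sum_subset (Finset.subset_univ K) fun x _ hx =>
    Finset.sum_eq_zero fun z _ => h1 x z (Or.inl hx)]
  refine Finset.sum_le_sum fun x _ => ?_
  rw [← Finset.sum_subset (Finset.subset_univ K) fun z _ hz => h1 x z (Or.inr hz)]
  refine Finset.sum_le_sum fun z _ => ?_
  by_cases hB : N.B x z = 0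
  · rw [hB, zero_mul, zero_mul]
  · refine mul_le_mul_of_nonneg_left (mul_le_mul_of_nonneg_right ?_ (hF x z)) (N.nn x z)
    have := hg.lip x z hB
    rw [← sq_abs]
    exact pow_le_pow_left₀ (abs_nonneg _) this 2

lemma sum_deg {N : Net V} {K : Finset V} {b : ℝ} (hb : ∀ x ∈ K, ∑ z ∈ K, N.B x z ≤ b)
    (u : V → ℝ) (hu : ∀ x, 0 ≤ u x) :
    ∑ x ∈ K, ∑ z ∈ K, N.B x z * u x ≤ b * ∑ x ∈ K, u x := by
  rw [Finset.mul_sum]
  refine Finset.sum_le_sum fun x hx => ?_
  rw [← Finset.sum_mul]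
  exact mul_le_mul_of_nonneg_right (hb x hx) (hu x)

lemma sum_deg' {N : Net V} {K : Finset V} {b : ℝ} (hb : ∀ x ∈ K, ∑ z ∈ K, N.B x z ≤ b)
    (u : V → ℝ) (hu : ∀ x, 0 ≤ u x) :
    ∑ x ∈ K, ∑ z ∈ K, N.B x z * u z ≤ b * ∑ x ∈ K, u x := by
  rw [Finset.sum_comm]
  refine le_trans (le_of_eq ?_) (sum_deg hb u hu)
  refine Finset.sum_congr rfl fun x _ => Finset.sum_congr rfl fun z _ => ?_
  rw [N.symm]

lemma QQ_le {N : Net V} {K : Finset V} {δ C₀ b : ℝ} {g : V → ℝ} (hg : Cut N K δ g)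
    (hδ : δ ^ 2 * K.card ≤ C₀) (hb : ∀ x ∈ K, ∑ z ∈ K, N.B x z ≤ b) {o : V} (ho : o ∈ K)
    (p : Pt V) :
    QQ N g o p ≤ C₀ / 2 * (ep N K p + b * (1 + Wo K o p * (Real.exp (p.1 o) ^ 2)⁻¹)) := by
  have hc : 0 < (K.card : ℝ) := by
    have := Finset.card_pos.mpr ⟨o, ho⟩
    positivity
  have hb0 : 0 ≤ b := (Finset.sum_nonneg fun z _ => N.nn o z).trans (hb o ho)
  have he : 0 < (Real.exp (p.1 o) ^ 2)⁻¹ := by positivity
  set e := (Real.exp (p.1 o) ^ 2)⁻¹ with he'
  have h1 : ∑ x, ∑ z, N.B x z * ((g x - g z) ^ 2 * qd o p x z) ≤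
      ∑ x ∈ K, ∑ z ∈ K, N.B x z * (δ ^ 2 * (ed p.1 p.2 x z + 1 + (1 / 2) * (Wd x o p * e +
        Wd z o p * e))) := by
    refine (sum_cell hg _ (qd_nonneg o p)).trans ?_
    refine Finset.sum_le_sum fun x _ => Finset.sum_le_sum fun z _ => ?_
    refine mul_le_mul_of_nonneg_left (mul_le_mul_of_nonneg_left ?_ (sq_nonneg _)) (N.nn x z)
    have := qd_le o p x z
    rwa [yt_sq, yt_sq] at this
  have h2 : ∑ x ∈ K, ∑ z ∈ K, N.B x z * (δ ^ 2 * (ed p.1 p.2 x z + 1 + (1 / 2) * (Wd x o p * e +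
        Wd z o p * e))) = δ ^ 2 * (∑ x ∈ K, ∑ z ∈ K, N.B x z * ed p.1 p.2 x z +
        ∑ x ∈ K, ∑ z ∈ K, N.B x z * 1 + (1 / 2) * (∑ x ∈ K, ∑ z ∈ K, N.B x z * (Wd x o p * e) +
        ∑ x ∈ K, ∑ z ∈ K, N.B x z * (Wd z o p * e))) := by
    rw [← Finset.sum_add_distrib, ← Finset.sum_add_distrib, Finset.mul_sum,
      ← Finset.sum_add_distrib, Finset.mul_sum]
    refine Finset.sum_congr rfl fun x _ => ?_
    rw [← Finset.sum_add_distrib, ← Finset.sum_add_distrib, Finset.mul_sum,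
      ← Finset.sum_add_distrib, Finset.mul_sum]
    refine Finset.sum_congr rfl fun z _ => ?_
    ring
  have h3 := sum_deg hb (fun x => Wd x o p * e) fun x => mul_nonneg (Wd_nonneg x o p) he.le
  have h4 := sum_deg' hb (fun x => Wd x o p * e) fun x => mul_nonneg (Wd_nonneg x o p) he.le
  have h5 := sum_deg hb (fun _ => 1) fun _ => zero_le_one
  have h6 : ∑ x ∈ K, Wd x o p * e = K.card * (Wo K o p * e) := by
    unfold Wo
    rw [← Finset.sum_mul]
    field_simp
  have h7 : ∑ x ∈ K, ∑ z ∈ K, N.B x z * ed p.1 p.2 x z = K.card * ep N K p := by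
    unfold ep
    field_simp
  have h8 : ∑ x ∈ K, (1 : ℝ) = K.card := by simp
  rw [h6] at h3 h4
  rw [h8] at h5
  have hep : 0 ≤ ep N K p := by
    unfold ep
    exact mul_nonneg (by positivity) (Finset.sum_nonneg fun x _ => Finset.sum_nonneg fun z _ =>
      mul_nonneg (N.nn x z) (J6.ed_nonneg _ _ _ _))
  have hW := Wo_nonneg K o p
  have h9 : 0 ≤ ep N K p + b * (1 + Wo K o p * e) := by positivity
  unfold QQ
  calc (1 / 2) * ∑ x, ∑ z, N.B x z * ((g x - g z) ^ 2 * qd o p x z) ≤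
      (1 / 2) * (δ ^ 2 * (K.card * ep N K p + b * K.card + (1 / 2) * (b * (K.card * (Wo K o p * e)) +
        b * (K.card * (Wo K o p * e))))) := by
        refine mul_le_mul_of_nonneg_left ?_ (by norm_num)
        refine h1.trans ?_
        rw [h2, h7]
        refine mul_le_mul_of_nonneg_left ?_ (sq_nonneg _)
        linarith
    _ = (1 / 2) * (δ ^ 2 * K.card) * (ep N K p + b * (1 + Wo K o p * e)) := by ring
    _ ≤ (1 / 2) * C₀ * (ep N K p + b * (1 + Wo K o p * e)) := by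
        refine mul_le_mul_of_nonneg_right ?_ h9
        linarith
    _ = _ := by ring

lemma young3 (g X : ℝ) (hg : |g| ≤ 1) : 3 * (g * X ^ 3) ≤ X ^ 4 / 4 + 547 := by
  have h1 : g * X ^ 3 ≤ |X| ^ 3 := by
    calc g * X ^ 3 ≤ |g * X ^ 3| := le_abs_self _
      _ = |g| * |X| ^ 3 := by rw [abs_mul, abs_pow]
      _ ≤ 1 * |X| ^ 3 := mul_le_mul_of_nonneg_right hg (by positivity)
      _ = _ := one_mul _
  have h2 : X ^ 4 = |X| ^ 4 := by
    rw [← abs_pow, abs_of_nonneg (by positivity)]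
  rw [h2]
  have hX := abs_nonneg X
  set x := |X|
  have h3 : 0 ≤ (x - 9) ^ 2 * (x ^ 2 + 6 * x + 27) := by positivity
  nlinarith

lemma young2 (X Q : ℝ) : 3 * (X ^ 2 * Q) ≤ X ^ 4 / 4 + 9 * Q ^ 2 := by
  nlinarith [sq_nonneg (X ^ 2 / 2 - 3 * Q)]

lemma th_nonneg (K : Finset V) (o : V) (p : Pt V) : 0 ≤ th K o p := by
  unfold th
  have := Wo_nonneg K o p
  positivity

end K1a

theorem cell_X (N : Net V) (hN : N.Conn) (m : V → ℝ) (K : Finset V) (δ C₀ b : ℝ) (g : V → ℝ)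
    (hg : Cut N K δ g) (hδ : δ ^ 2 * K.card ≤ C₀) (hb : ∀ x ∈ K, ∑ z ∈ K, N.B x z ≤ b) (o : V)
    (ho : o ∈ K) :
    EE N m (fun p => th K o p * XX N m g o p ^ 4) ≤
      EE N m (fun p => 1094 * Real.exp (p.1 o) ^ 2 + 9 * C₀ ^ 2 *
        (Real.exp (p.1 o) ^ 2 * ep N K p ^ 2 + b ^ 2 * (Real.exp (p.1 o) ^ 2 + Wo K o p))) := by
  have hr : ∀ x, g x ≠ 0 → N.r x = 0 := fun x hx => (hg.supp x hx).2.1
  have sX := Sm.XX N m g o
  have sT := Sm.th K o
  have sQ := K1a.Sm.QQ N g o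
  have h1 := K1a.ibV N hN m g o (F := fun p => th K o p * XX N m g o p ^ 3)
    (F' := fun p => 2 * g o * th K o p * XX N m g o p ^ 3 +
      th K o p * ((2 + 1) * XX N m g o p ^ 2 * K1a.QQ N g o p)) (sT.mul (sX.pow 3)) (fun p => by
        refine ((K1a.Dv.th K g o p).mul ((Dv.XX N m g hr o p).pow 2)).congr ?_
        push_cast
        rfl)
  have e1 : (fun p => XX N m g o p * (th K o p * XX N m g o p ^ 3)) =
      fun p => th K o p * XX N m g o p ^ 4 := by
    funext p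
    ring
  rw [e1] at h1
  have s4 : Sm (fun p => th K o p * XX N m g o p ^ 4) := sT.mul (sX.pow 4)
  have sR : Sm (fun p => 547 * th K o p + 9 * (th K o p * K1a.QQ N g o p ^ 2)) :=
    (sT.const_mul _).add ((sT.mul (sQ.pow 2)).const_mul _)
  have h2 : EE N m (fun p => th K o p * XX N m g o p ^ 4) ≤
      EE N m (fun p => (1 / 2) * (th K o p * XX N m g o p ^ 4) +
        (547 * th K o p + 9 * (th K o p * K1a.QQ N g o p ^ 2))) := by
    rw [h1]
    refine EE_mono N hN m ?_ ((s4.const_mul _).add sR) fun p => ?_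
    · refine Sm.add (Sm.add ?_ ?_) ((sT.mul (sX.pow 3)).const_mul _)
      · exact (sT.const_mul _).mul (sX.pow 3)
      · exact sT.mul (((sX.pow 2).const_mul _).mul sQ)
    · have a1 := K1a.young3 (g o) (XX N m g o p) (hg.bd o)
      have a2 := K1a.young2 (XX N m g o p) (K1a.QQ N g o p)
      have a3 := K1a.th_nonneg K o p
      nlinarith
  rw [EE_add N hN m (s4.const_mul _) sR, EE_const_mul] at h2
  have h3 : EE N m (fun p => th K o p * XX N m g o p ^ 4) ≤
      2 * EE N m (fun p => 547 * th K o p + 9 * (th K o p * K1a.QQ N g o p ^ 2)) := by linarith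
  refine h3.trans ?_
  rw [← EE_const_mul]
  refine EE_mono N hN m (sR.const_mul _) ?_ fun p => ?_
  · refine Sm.add (((Sm.exp o).pow 2).const_mul _) (Sm.const_mul _ (Sm.add ?_ (Sm.const_mul _ ?_)))
    · exact ((Sm.exp o).pow 2).mul ((Sm.ep N K).pow 2)
    · exact ((Sm.exp o).pow 2).add (Sm.Wo K o)
  · have hQ := K1a.QQ_le hg hδ hb ho p
    have hQ0 := K1a.QQ_nonneg N g o p
    have hT0 := K1a.th_nonneg K o p
    have hW := Wo_nonneg K o p
    have he : 0 < Real.exp (p.1 o) ^ 2 := by positivity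
    have hb0 : 0 ≤ b := (Finset.sum_nonneg fun z _ => N.nn o z).trans (hb o ho)
    have hT1 : th K o p ≤ Real.exp (p.1 o) ^ 2 := by
      unfold th
      rw [← div_eq_mul_inv, div_le_iff₀ (by positivity)]
      nlinarith
    have hT2 : th K o p * (1 + Wo K o p * (Real.exp (p.1 o) ^ 2)⁻¹) ^ 2 =
        Real.exp (p.1 o) ^ 2 + Wo K o p := by
      unfold th
      have : Real.exp (p.1 o) ^ 2 + Wo K o p ≠ 0 := by positivity
      field_simp
    set e := ep N K p
    set w := 1 + Wo K o p * (Real.exp (p.1 o) ^ 2)⁻¹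
    have hQ2 : K1a.QQ N g o p ^ 2 ≤ C₀ ^ 2 / 2 * (e ^ 2 + b ^ 2 * w ^ 2) := by
      calc K1a.QQ N g o p ^ 2 ≤ (C₀ / 2 * (e + b * w)) ^ 2 := pow_le_pow_left₀ hQ0 hQ 2
        _ = C₀ ^ 2 / 4 * (e + b * w) ^ 2 := by ring
        _ ≤ C₀ ^ 2 / 4 * (2 * (e ^ 2 + b ^ 2 * w ^ 2)) := by
            refine mul_le_mul_of_nonneg_left ?_ (by positivity)
            nlinarith [sq_nonneg (e - b * w)]
        _ = _ := by ring
    have h5 : th K o p * K1a.QQ N g o p ^ 2 ≤
        C₀ ^ 2 / 2 * (Real.exp (p.1 o) ^ 2 * e ^ 2 + b ^ 2 * (Real.exp (p.1 o) ^ 2 + Wo K o p)) := by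
      calc th K o p * K1a.QQ N g o p ^ 2 ≤ th K o p * (C₀ ^ 2 / 2 * (e ^ 2 + b ^ 2 * w ^ 2)) :=
            mul_le_mul_of_nonneg_left hQ2 hT0
        _ = C₀ ^ 2 / 2 * (th K o p * e ^ 2 + b ^ 2 * (th K o p * w ^ 2)) := by ring
        _ ≤ _ := by
            rw [hT2]
            refine mul_le_mul_of_nonneg_left ?_ (by positivity)
            have := mul_le_mul_of_nonneg_right hT1 (sq_nonneg e)
            linarith
    nlinarith

end Pool.Agent.TH369.AG
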