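import Pool.Agent.TH369.AG.Calc
import Pool.Agent.TH369.AG.J6

/-!
# The scores and their derivatives
-/

set_option autoImplicit false
set_option linter.unusedSectionVars false

namespace Pool.Agent.TH369.AG

open MeasureTheory Matrix

variable {V : Type} [Fintype V] [DecidableEq V]

/-- The score of the translation at `z`. -/
noncomputable def fb (N : Net V) (z : V) (p : Pt V) : ℝ :=
  ∑ w, N.B z w * (p.2 z * Real.exp (p.1 w) - p.2 w * Real.exp (p.1 z)) + N.r z * p.2 z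

/-- The score of the dilation at `x`. -/
noncomputable def fa (N : Net V) (m : V → ℝ) (x : V) (p : Pt V) : ℝ :=
  ∑ z, N.B x z * ((1 / 2) * (Real.exp (p.1 x - p.1 z) * (1 + p.2 z ^ 2) -
    Real.exp (p.1 z - p.1 x) * (1 + p.2 x ^ 2))) +
    N.r x * ((1 / 2) * (Real.exp (p.1 x) - Real.exp (- p.1 x) * (1 + p.2 x ^ 2))) - m x

lemma sN_eq (N : Net V) (g : V → ℝ) : sN N g = fun p => ∑ x, g x * fb N x p := rfl

lemma sA_eq (N : Net V) (m g : V → ℝ) : sA N m g = fun p => ∑ x, g x * fa N m x p := rfl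

/-- The direction of the translations. -/
noncomputable def dN (g : V → ℝ) (p : Pt V) : Pt V := (0, fun x => g x * Real.exp (p.1 x))

/-- The direction of the dilations. -/
noncomputable def dA (g : V → ℝ) : Pt V := (g, 0)

@[simp] lemma dN_fst (g : V → ℝ) (p : Pt V) (x : V) : (dN g p).1 x = 0 := rfl
@[simp] lemma dN_snd (g : V → ℝ) (p : Pt V) (x : V) : (dN g p).2 x = g x * Real.exp (p.1 x) := rfl
@[simp] lemma dA_fst (g : V → ℝ) (x : V) : (dA g).1 x = g x := rfl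
@[simp] lemma dA_snd (g : V → ℝ) (x : V) : (dA g).2 x = 0 := rfl

lemma Sm.fb (N : Net V) (z : V) : Sm (fb N z) := by
  unfold AG.fb
  refine Sm.add (Sm.sum _ fun w _ => ?_) ((Sm.y z).const_mul _)
  exact (((Sm.y z).mul (Sm.exp w)).sub ((Sm.y w).mul (Sm.exp z))).const_mul _

lemma Sm.fa (N : Net V) (m : V → ℝ) (x : V) : Sm (fa N m x) := by
  unfold AG.fa
  refine Sm.sub (Sm.add (Sm.sum _ fun z _ => ?_) ?_) (Sm.const _)
  · refine Sm.const_mul _ (Sm.const_mul _ (Sm.sub ?_ ?_))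
    · exact (Sm.exp_sub x z).mul ((Sm.const 1).add ((Sm.y z).pow 2))
    · exact (Sm.exp_sub z x).mul ((Sm.const 1).add ((Sm.y x).pow 2))
  · refine Sm.const_mul _ (Sm.const_mul _ (Sm.sub (Sm.exp x) ?_))
    exact (Sm.exp_neg x).mul ((Sm.const 1).add ((Sm.y x).pow 2))

lemma Sm.sN (N : Net V) (g : V → ℝ) : Sm (sN N g) := by
  rw [sN_eq]
  exact Sm.sum _ fun x _ => (Sm.fb N x).const_mul _

lemma Sm.sA (N : Net V) (m g : V → ℝ) : Sm (sA N m g) := by
  rw [sA_eq]
  exact Sm.sum _ fun x _ => (Sm.fa N m x).const_mul _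

lemma Dv.fb (N : Net V) (z : V) (p v : Pt V) : Dv (fb N z) p v
    (∑ w, N.B z w * (v.2 z * Real.exp (p.1 w) + p.2 z * (Real.exp (p.1 w) * v.1 w) -
      (v.2 w * Real.exp (p.1 z) + p.2 w * (Real.exp (p.1 z) * v.1 z))) + N.r z * v.2 z) := by
  unfold AG.fb
  refine Dv.add (Dv.sum _ fun w _ => ?_) ((Dv.y z p v).const_mul _)
  exact (((Dv.y z p v).mul (Dv.exp w p v)).sub ((Dv.y w p v).mul (Dv.exp z p v))).const_mul _

lemma Dv.fa (N : Net V) (m : V → ℝ) (x : V) (p v : Pt V) : Dv (fa N m x) p v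
    (∑ z, N.B x z * ((1 / 2) * ((Real.exp (p.1 x - p.1 z) * (v.1 x - v.1 z)) * (1 + p.2 z ^ 2) +
      Real.exp (p.1 x - p.1 z) * (2 * p.2 z * v.2 z) -
      ((Real.exp (p.1 z - p.1 x) * (v.1 z - v.1 x)) * (1 + p.2 x ^ 2) +
      Real.exp (p.1 z - p.1 x) * (2 * p.2 x * v.2 x)))) +
    N.r x * ((1 / 2) * (Real.exp (p.1 x) * v.1 x - (-(Real.exp (- p.1 x) * v.1 x) * (1 + p.2 x ^ 2) +
      Real.exp (- p.1 x) * (2 * p.2 x * v.2 x))))) := by
  unfold AG.fa
  have hsq : ∀ z : V, Dv (fun q => 1 + q.2 z ^ 2) p v (2 * p.2 z * v.2 z) := by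
    intro z
    refine ((Dv.const 1 p v).add ((Dv.y z p v).pow 1)).congr ?_
    push_cast
    ring
  refine ((Dv.add (Dv.sum _ fun z _ => ?_) ?_).sub (Dv.const _ p v)).congr (sub_zero _)
  · exact (((Dv.exp_sub x z p v).mul (hsq z)).sub ((Dv.exp_sub z x p v).mul (hsq x))).const_mul _
      |>.const_mul _
  · exact ((Dv.exp x p v).sub ((Dv.exp_neg x p v).mul (hsq x))).const_mul _ |>.const_mul _

lemma Dv.sN (N : Net V) (h : V → ℝ) (p v : Pt V) : Dv (sN N h) p v
    (∑ z, h z * (∑ w, N.B z w * (v.2 z * Real.exp (p.1 w) + p.2 z * (Real.exp (p.1 w) * v.1 w) -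
      (v.2 w * Real.exp (p.1 z) + p.2 w * (Real.exp (p.1 z) * v.1 z))) + N.r z * v.2 z)) := by
  rw [sN_eq]
  exact Dv.sum _ fun z _ => (Dv.fb N z p v).const_mul _

lemma Dv.sA (N : Net V) (m h : V → ℝ) (p v : Pt V) : Dv (sA N m h) p v
    (∑ x, h x * (∑ z, N.B x z * ((1 / 2) * ((Real.exp (p.1 x - p.1 z) * (v.1 x - v.1 z)) *
      (1 + p.2 z ^ 2) +
      Real.exp (p.1 x - p.1 z) * (2 * p.2 z * v.2 z) -
      ((Real.exp (p.1 z - p.1 x) * (v.1 z - v.1 x)) * (1 + p.2 x ^ 2) +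
      Real.exp (p.1 z - p.1 x) * (2 * p.2 x * v.2 x)))) +
    N.r x * ((1 / 2) * (Real.exp (p.1 x) * v.1 x - (-(Real.exp (- p.1 x) * v.1 x) * (1 + p.2 x ^ 2) +
      Real.exp (- p.1 x) * (2 * p.2 x * v.2 x)))))) := by
  rw [sA_eq]
  exact Dv.sum _ fun z _ => (Dv.fa N m z p v).const_mul _

/-! ### The integral -/

section

variable (N : Net V) (hN : N.Conn) (m : V → ℝ)

include hN

lemma int_sm {F : Pt V → ℝ} (hF : Sm F) : Integrable (fun p => F p * dn N m p) :=
  integrable_dn N hN m F hF.cont hF.gr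

lemma EE_add {F G : Pt V → ℝ} (hF : Sm F) (hG : Sm G) :
    EE N m (fun p => F p + G p) = EE N m F + EE N m G := by
  unfold EE
  rw [← integral_add (int_sm N hN m hF) (int_sm N hN m hG)]
  congr 1
  funext p
  ring

lemma EE_sub {F G : Pt V → ℝ} (hF : Sm F) (hG : Sm G) :
    EE N m (fun p => F p - G p) = EE N m F - EE N m G := by
  unfold EE
  rw [← integral_sub (int_sm N hN m hF) (int_sm N hN m hG)]
  congr 1
  funext p
  ring

omit hN in
lemma EE_const_mul (c : ℝ) (F : Pt V → ℝ) :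
    EE N m (fun p => c * F p) = c * EE N m F := by
  unfold EE
  rw [← integral_const_mul]
  congr 1
  funext p
  ring

lemma EE_sum {ι : Type*} (s : Finset ι) {F : ι → Pt V → ℝ} (hF : ∀ i ∈ s, Sm (F i)) :
    EE N m (fun p => ∑ i ∈ s, F i p) = ∑ i ∈ s, EE N m (F i) := by
  unfold EE
  rw [← integral_finsetSum _ fun i hi => int_sm N hN m (hF i hi)]
  congr 1
  funext p
  rw [Finset.sum_mul]

omit hN in
lemma dn_pos (p : Pt V) : 0 < dn N m p := Real.exp_pos _

omit hN in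
lemma EE_nonneg {F : Pt V → ℝ} (h : ∀ p, 0 ≤ F p) : 0 ≤ EE N m F :=
  integral_nonneg fun p => mul_nonneg (h p) (dn_pos N m p).le

lemma EE_mono {F G : Pt V → ℝ} (hF : Sm F) (hG : Sm G) (h : ∀ p, F p ≤ G p) :
    EE N m F ≤ EE N m G :=
  integral_mono (int_sm N hN m hF) (int_sm N hN m hG) fun p =>
    mul_le_mul_of_nonneg_right (h p) (dn_pos N m p).le

/-- monotonicity for continuous functions of polynomial growth -/
lemma EE_mono' {F G : Pt V → ℝ} (hF : Continuous F) (hF' : Gr F) (hG : Continuous G) (hG' : Gr G)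
    (h : ∀ p, F p ≤ G p) : EE N m F ≤ EE N m G :=
  integral_mono (integrable_dn N hN m F hF hF') (integrable_dn N hN m G hG hG') fun p =>
    mul_le_mul_of_nonneg_right (h p) (dn_pos N m p).le

/-- Cauchy-Schwarz -/
lemma EE_cs {F G : Pt V → ℝ} (hF : Sm F) (hG : Sm G) :
    (EE N m (fun p => F p * G p)) ^ 2 ≤ EE N m (fun p => F p ^ 2) * EE N m (fun p => G p ^ 2) := by
  have h : ∀ c : ℝ, 0 ≤ EE N m (fun p => F p ^ 2) * (c * c) + 2 * EE N m (fun p => F p * G p) * c +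
      EE N m (fun p => G p ^ 2) := by
    intro c
    have h1 : EE N m (fun p => (c * F p + G p) ^ 2) = EE N m (fun p => F p ^ 2) * (c * c) +
        2 * EE N m (fun p => F p * G p) * c + EE N m (fun p => G p ^ 2) := by
      have e : (fun p => (c * F p + G p) ^ 2) = fun p => ((c * c) * F p ^ 2 +
          (2 * c) * (F p * G p)) + G p ^ 2 := by
        funext p
        ring
      rw [e, EE_add N hN m (((hF.pow 2).const_mul _).add ((hF.mul hG).const_mul _)) (hG.pow 2),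
        EE_add N hN m ((hF.pow 2).const_mul _) ((hF.mul hG).const_mul _), EE_const_mul,
        EE_const_mul]
      ring
    rw [← h1]
    exact EE_nonneg N m fun p => sq_nonneg _
  have h2 := discrim_le_zero h
  unfold discrim at h2
  nlinarith

lemma ibA (g : V → ℝ) {F F' : Pt V → ℝ} (hF : Sm F) (hd : ∀ p, Dv F p (dA g) (F' p)) :
    EE N m (fun p => sA N m g p * F p) = EE N m F' := by
  rw [← ibpA N hN m F hF g]
  congr 1
  funext p
  exact (hd p).fderiv

lemma ibN (g : V → ℝ) {F F' : Pt V → ℝ} (hF : Sm F) (hd : ∀ p, Dv F p (dN g p) (F' p)) :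
    EE N m (fun p => sN N g p * F p) = EE N m F' := by
  rw [← ibpN N hN m F hF g]
  congr 1
  funext p
  exact (hd p).fderiv

end

end Pool.Agent.TH369.AG
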